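import Pool.Agent.Work.MP_5ba30e_pr.BallVol_connect

/-!
# BallVol : volume of the balls in the giant component, and connection at the next level

* `ball_vol` : `BallVolA`;
* `ball_big`, `connect` : `BallVol_connect`.
-/
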