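import Pool.Agent.Work.MP_5ba30e_pr.Prod

/-!
# Growth : growth of the balls at the level `(1+δ)/n` between `400 log n/δ̄²` and `thr`

`δ̄ = db δ = min δ 1`.
Proof. Fix `x`, `B_r = bl (Gr ω p) x r`, `B_{-1} = ∅`, `S_r = B_r \ B_{r-1}`; `θ = 0.4 δ̄`,
`λ = (1 - e^{-θ})(1 + 0.9 δ)`, `M_r = exp(-θ|B_{r+1}| + λ|B_r|)`.
Given `B_{r-1}, B_r` (an event which depends on the edges with an end in `B_{r-1}`), the
number `|S_{r+1}|` is binomial with `n - |B_r|` trials and probability `s = 1 - q^{|S_r|}` (edges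
between `S_r` and the complement of `B_r`). If `|B_r| ≤ thr n δ`, then
`(n-|B_r|) s ≥ (n - thr)(1 - exp(-p|S_r|)) ≥ (n-thr) p|S_r| (1 - p thr/2) ≥ (1+0.9δ)|S_r|`
(`thr/n = δ/(20(1+δ)²)`, `p thr = δ/(20(1+δ))`), so
`E[M_r ; |B_r| ≤ thr | B_{r-1},B_r] ≤ exp((λ-θ)|B_r| - (1-e^{-θ}) s (n-|B_r|))
 ≤ exp((λ-θ)|B_r| - λ|S_r|) = M_{r-1}` (with `|B_{r-1}| ≤ |B_r| ≤ thr`). So
`E[M_r; |B_r| ≤ thr] ≤ 1` for all `r` (`M_{-1} = exp(-θ) ≤ 1`).
If `|B_{r+1}| < (1+δ̄/8)|B_r|` and `m = |B_r| ≥ 400 log n/δ̄²` then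
`M_r ≥ exp(m θ((1-θ/2)(1+0.9δ̄) - 1 - δ̄/8)) ≥ exp(0.15 δ̄² m) ≥ n^{60}` (`1-e^{-θ} ≥ θ-θ²/2`).
Markov, union over `x` and `r ≤ n` (for `r ≥ n` the balls do not change).
-/

open MeasureTheory Set Filter Finset
open scoped ENNReal Topology Classical

noncomputable section

namespace RST

variable {n : ℕ}

/-- edges from `S` to `y` -/
def eS (S : Finset (Fin n)) (y : Fin n) : Finset (Sym2 (Fin n)) := S.image fun x => s(x, y)

theorem eS_card {S : Finset (Fin n)} {y : Fin n} (hy : y ∉ S) : (eS S y).card = S.card := by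
  unfold eS
  refine Finset.card_image_of_injOn ?_
  intro a ha b hb h
  simp only [Sym2.eq_iff] at h
  rcases h with ⟨h, _⟩ | ⟨h, _⟩
  · exact h
  · exact absurd (h ▸ ha) hy

theorem mem_eS {S : Finset (Fin n)} {y : Fin n} {e : Sym2 (Fin n)} :
    e ∈ eS S y ↔ ∃ x ∈ S, s(x, y) = e := by
  unfold eS
  simp [Finset.mem_image]

theorem eS_disj {S : Finset (Fin n)} {y y' : Fin n} (hy : y ∉ S) (_hy' : y' ∉ S) (h : y ≠ y') :
    Disjoint (eS S y) (eS S y') := by
  rw [Finset.disjoint_left]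
  intro e he he'
  obtain ⟨x, hx, rfl⟩ := mem_eS.1 he
  obtain ⟨x', hx', h1⟩ := mem_eS.1 he'
  rcases Sym2.eq_iff.1 h1 with ⟨_, h2⟩ | ⟨h2, h3⟩
  · exact h h2.symm
  · exact hy (h2 ▸ hx')

/-- the factor of the vertex `y` -/
def fY (p θ : ℝ) (S : Finset (Fin n)) (y : Fin n) (ω : Env n) : ℝ≥0∞ :=
  if ∀ e ∈ eS S y, p < ω e then 1 else ENNReal.ofReal (Real.exp (-θ))

theorem fY_meas (p θ : ℝ) (S : Finset (Fin n)) (y : Fin n) : Measurable (fY (n := n) p θ S y) := by
  unfold fY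
  refine Measurable.ite ?_ measurable_const measurable_const
  have : {ω : Env n | ∀ e ∈ eS S y, p < ω e} = ⋂ e ∈ eS S y, {ω : Env n | p < ω e} := by
    ext ω; simp
  rw [this]
  exact Finset.measurableSet_biInter _ fun e _ =>
    measurableSet_lt measurable_const (measurable_pi_apply e)

theorem fY_dep (p θ : ℝ) (S : Finset (Fin n)) (y : Fin n) (ω ω' : Env n)
    (h : ∀ e ∈ eS S y, ω e = ω' e) : fY p θ S y ω = fY p θ S y ω' := by
  unfold fY
  have : (∀ e ∈ eS S y, p < ω e) ↔ ∀ e ∈ eS S y, p < ω' e :=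
    forall₂_congr fun e he => by rw [h e he]
  simp only [this]

theorem one_factor {p θ : ℝ} (hp : 0 ≤ p) (hp1 : p ≤ 1) (hθ : 0 ≤ θ) (S : Finset (Fin n))
    {y : Fin n} (hy : y ∉ S) :
    ∫⁻ ω, fY p θ S y ω ∂(mu n) ≤
      ENNReal.ofReal (Real.exp (-(1 - Real.exp (-θ)) * (1 - (1 - p) ^ S.card))) := by
  have hm : MeasurableSet {ω : Env n | ∀ e ∈ eS S y, p < ω e} := by
    have : {ω : Env n | ∀ e ∈ eS S y, p < ω e} = ⋂ e ∈ eS S y, {ω : Env n | p < ω e} := by
      ext ω; simp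
    rw [this]
    exact Finset.measurableSet_biInter _ fun e _ =>
      measurableSet_lt measurable_const (measurable_pi_apply e)
  have he1 : Real.exp (-θ) ≤ 1 := Real.exp_le_one_iff.2 (by linarith)
  have h1 : ∀ ω : Env n, fY p θ S y ω = ENNReal.ofReal (Real.exp (-θ)) +
      Set.indicator {ω : Env n | ∀ e ∈ eS S y, p < ω e}
        (fun _ => ENNReal.ofReal (1 - Real.exp (-θ))) ω := by
    intro ω
    unfold fY
    by_cases h : ∀ e ∈ eS S y, p < ω e
    · rw [if_pos h, Set.indicator_of_mem (by exact h), ← ENNReal.ofReal_add (Real.exp_pos _).le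
        (by linarith)]
      simp
    · rw [if_neg h, Set.indicator_of_notMem (by exact h), add_zero]
  calc ∫⁻ ω, fY p θ S y ω ∂(mu n)
      = ENNReal.ofReal (Real.exp (-θ)) + ENNReal.ofReal (1 - Real.exp (-θ)) *
          ENNReal.ofReal ((1 - p) ^ S.card) := by
        simp_rw [h1]
        rw [lintegral_add_left measurable_const, lintegral_const, lintegral_indicator_const hm,
          measure_univ, mul_one, mu_gt_all _ hp hp1, eS_card hy]
    _ = ENNReal.ofReal (Real.exp (-θ) + (1 - Real.exp (-θ)) * (1 - p) ^ S.card) := by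
        rw [← ENNReal.ofReal_mul (by linarith), ← ENNReal.ofReal_add (Real.exp_pos _).le]
        exact mul_nonneg (by linarith) (pow_nonneg (by linarith) _)
    _ ≤ _ := by
        refine ENNReal.ofReal_le_ofReal ?_
        have := Real.add_one_le_exp (-(1 - Real.exp (-θ)) * (1 - (1 - p) ^ S.card))
        nlinarith

theorem prod_factor {p θ : ℝ} (hp : 0 ≤ p) (hp1 : p ≤ 1) (hθ : 0 ≤ θ) (S : Finset (Fin n))
    (Y : Finset (Fin n)) (hY : Disjoint Y S) :
    ∫⁻ ω, ∏ y ∈ Y, fY p θ S y ω ∂(mu n) ≤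
      ENNReal.ofReal (Real.exp (-(1 - Real.exp (-θ)) * (1 - (1 - p) ^ S.card))) ^ Y.card := by
  induction Y using Finset.induction_on with
  | empty => simp
  | insert y Y hy ih =>
    have hyS : y ∉ S := fun h => Finset.disjoint_left.1 hY (Finset.mem_insert_self y Y) h
    have hYS : Disjoint Y S := Finset.disjoint_of_subset_left (Finset.subset_insert y Y) hY
    simp_rw [Finset.prod_insert hy]
    rw [lintegral_mul_indep (F := eS S y) (F' := Y.biUnion (eS S)) ?_ (fY_meas p θ S y) ?_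
      (fY_dep p θ S y) ?_, Finset.card_insert_of_notMem hy, pow_succ, mul_comm]
    · exact mul_le_mul' (ih hYS) (one_factor hp hp1 hθ S hyS)
    · rw [Finset.disjoint_biUnion_right]
      intro y' hy'
      exact eS_disj hyS (fun h => Finset.disjoint_left.1 hYS hy' h)
        (fun h => hy (h ▸ hy'))
    · exact Finset.measurable_fun_prod _ fun y' _ => fY_meas p θ S y'
    · intro ω ω' h
      refine Finset.prod_congr rfl fun y' hy' => fY_dep p θ S y' ω ω' fun e he => h e ?_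
      exact Finset.mem_biUnion.2 ⟨y', hy', he⟩

/-- neighbours of `B₁ \ B₀` outside of `B₁` -/
def nx (p : ℝ) (B₀ B₁ : Finset (Fin n)) (ω : Env n) : Finset (Fin n) :=
  (Finset.univ \ B₁).filter fun y => ∃ x ∈ B₁ \ B₀, (Gr ω p).Adj x y

theorem exp_nx (p θ : ℝ) (B₀ B₁ : Finset (Fin n)) (ω : Env n) :
    ENNReal.ofReal (Real.exp (-θ * ((nx p B₀ B₁ ω).card : ℝ))) =
      ∏ y ∈ Finset.univ \ B₁, fY p θ (B₁ \ B₀) y ω := by
  have h1 : ∀ y ∈ Finset.univ \ B₁, fY p θ (B₁ \ B₀) y ω =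
      ENNReal.ofReal (Real.exp (-θ)) ^ (if y ∈ nx p B₀ B₁ ω then 1 else 0) := by
    intro y hy
    have hy' : y ∉ B₁ := (Finset.mem_sdiff.1 hy).2
    have h2 : (y ∈ nx p B₀ B₁ ω) ↔ ¬ ∀ e ∈ eS (B₁ \ B₀) y, p < ω e := by
      unfold nx
      rw [Finset.mem_filter]
      push Not
      constructor
      · rintro ⟨_, x, hx, hadj⟩
        exact ⟨s(x, y), mem_eS.2 ⟨x, hx, rfl⟩, hadj.2⟩
      · rintro ⟨e, he, hle⟩
        obtain ⟨x, hx, rfl⟩ := mem_eS.1 he
        refine ⟨hy, x, hx, ?_, hle⟩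
        rintro rfl
        exact hy' (Finset.mem_sdiff.1 hx).1
    unfold fY
    by_cases h : ∀ e ∈ eS (B₁ \ B₀) y, p < ω e
    · rw [if_pos h, if_neg (by rw [h2]; exact not_not.2 h), pow_zero]
    · rw [if_neg h, if_pos (h2.2 h), pow_one]
  rw [Finset.prod_congr rfl h1, Finset.prod_pow_eq_pow_sum, Finset.sum_ite_mem,
    Finset.sum_const, smul_eq_mul, mul_one, ← ENNReal.ofReal_pow (Real.exp_pos _).le,
    ← Real.exp_nat_mul]
  congr 2
  have : (Finset.univ \ B₁) ∩ nx p B₀ B₁ ω = nx p B₀ B₁ ω :=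
    Finset.inter_eq_right.2 (Finset.filter_subset _ _)
  rw [this]
  ring

/-- one step: law of the next sphere. `A` is an event which depends on the edges with an end in
`B₀` only, on which `bl x (r-1) = B₀` and `bl x r = B₁`; then for the size of the next sphere… -/
theorem exp_next {p θ : ℝ} (hp : 0 ≤ p) (hp1 : p ≤ 1) (hθ : 0 ≤ θ) (B₀ B₁ : Finset (Fin n))
    (hB : B₀ ⊆ B₁) :
    ∫⁻ ω, ENNReal.ofReal (Real.exp (-θ * (((Finset.univ \ B₁).filter fun y =>
        ∃ x ∈ B₁ \ B₀, (Gr ω p).Adj x y).card : ℝ))) ∂(mu n) ≤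
      ENNReal.ofReal (Real.exp (-(1 - Real.exp (-θ)) * (1 - (1 - p) ^ (B₁ \ B₀).card) *
        (n - B₁.card))) := by
  have h0 : ∀ ω : Env n, ENNReal.ofReal (Real.exp (-θ * (((Finset.univ \ B₁).filter fun y =>
        ∃ x ∈ B₁ \ B₀, (Gr ω p).Adj x y).card : ℝ))) =
      ∏ y ∈ Finset.univ \ B₁, fY p θ (B₁ \ B₀) y ω := fun ω => exp_nx p θ B₀ B₁ ω
  simp_rw [h0]
  refine (prod_factor hp hp1 hθ (B₁ \ B₀) (Finset.univ \ B₁) ?_).trans ?_
  · rw [Finset.disjoint_left]
    intro y hy hy'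
    exact (Finset.mem_sdiff.1 hy).2 (Finset.mem_sdiff.1 hy').1
  · rw [← ENNReal.ofReal_pow (Real.exp_pos _).le, ← Real.exp_nat_mul]
    refine ENNReal.ofReal_le_ofReal (Real.exp_le_exp.2 (le_of_eq ?_))
    have h1 : ((Finset.univ \ B₁).card : ℝ) = n - B₁.card := by
      rw [Finset.card_univ_sdiff]
      rw [Nat.cast_sub (Finset.card_le_univ _)]
      simp
    rw [h1]
    ring

/-! ## Balls -/

theorem mem_bl {G : SimpleGraph (Fin n)} {x y : Fin n} {r : ℕ} :
    y ∈ bl G x r ↔ ∃ w : G.Walk x y, w.length ≤ r := by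
  simp [bl]

theorem bl_zero (G : SimpleGraph (Fin n)) (x : Fin n) : bl G x 0 = {x} := by
  ext y
  rw [mem_bl, Finset.mem_singleton]
  constructor
  · rintro ⟨w, hw⟩
    exact (SimpleGraph.Walk.eq_of_length_eq_zero (Nat.le_zero.1 hw)).symm
  · rintro rfl
    exact ⟨SimpleGraph.Walk.nil, le_rfl⟩

theorem mem_bl_succ {G : SimpleGraph (Fin n)} {x y : Fin n} {r : ℕ} :
    y ∈ bl G x (r + 1) ↔ y ∈ bl G x r ∨ ∃ z ∈ bl G x r, G.Adj z y := by
  constructor
  · intro h
    obtain ⟨w, hw⟩ := mem_bl.1 h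
    by_cases hr : w.length ≤ r
    · exact Or.inl (mem_bl.2 ⟨w, hr⟩)
    · right
      have hl : w.reverse.length = r + 1 := by
        rw [SimpleGraph.Walk.length_reverse]; omega
      generalize w.reverse = v at hl
      cases v with
      | nil => simp at hl
      | cons h p =>
        refine ⟨_, mem_bl.2 ⟨p.reverse, ?_⟩, h.symm⟩
        rw [SimpleGraph.Walk.length_cons] at hl
        rw [SimpleGraph.Walk.length_reverse]
        omega
  · rintro (h | ⟨z, hz, hadj⟩)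
    · obtain ⟨w, hw⟩ := mem_bl.1 h
      exact mem_bl.2 ⟨w, by omega⟩
    · obtain ⟨w, hw⟩ := mem_bl.1 hz
      exact mem_bl.2 ⟨w.concat hadj, by rw [SimpleGraph.Walk.length_concat]; omega⟩

theorem bl_mono {G : SimpleGraph (Fin n)} {x : Fin n} {r r' : ℕ} (h : r ≤ r') :
    bl G x r ⊆ bl G x r' := fun y hy => by
  obtain ⟨w, hw⟩ := mem_bl.1 hy
  exact mem_bl.2 ⟨w, by omega⟩

theorem bl_stable {G : SimpleGraph (Fin n)} {x : Fin n} {r : ℕ} (h : n ≤ r) :
    bl G x r = bl G x n := by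
  refine Finset.Subset.antisymm (fun y hy => ?_) (bl_mono h)
  obtain ⟨w, _⟩ := mem_bl.1 hy
  refine mem_bl.2 ⟨w.bypass, ?_⟩
  have := (w.bypass_isPath).length_lt
  simp only [Fintype.card_fin] at this
  omega

/-- edges which meet `B` -/
def eM (B : Finset (Fin n)) : Finset (Sym2 (Fin n)) := Finset.univ.filter fun e => ∃ z ∈ B, z ∈ e

theorem bl_dep {ω ω' : Env n} {p : ℝ} {x : Fin n} {r : ℕ} {B : Finset (Fin n)}
    (hB : bl (Gr ω p) x r ⊆ B) (h : ∀ e ∈ eM B, ω e = ω' e) :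
    ∀ k ≤ r + 1, bl (Gr ω' p) x k = bl (Gr ω p) x k := by
  intro k
  induction k with
  | zero => intro _; rw [bl_zero, bl_zero]
  | succ k ih =>
    intro hk
    have ih' := ih (by omega)
    ext y
    rw [mem_bl_succ, mem_bl_succ, ih']
    refine or_congr Iff.rfl (exists_congr fun z => and_congr_right fun hz => ?_)
    have hzB : z ∈ B := hB (bl_mono (by omega) hz)
    have : ω s(z, y) = ω' s(z, y) := h _ (by
      unfold eM
      exact Finset.mem_filter.2 ⟨Finset.mem_univ _, z, hzB, Sym2.mem_mk_left z y⟩)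
    simp only [Gr, this]

/-- the event `bl x r = B₀`, `bl x (r+1) = B₁` -/
def evA (p : ℝ) (x : Fin n) (r : ℕ) (B₀ B₁ : Finset (Fin n)) : Set (Env n) :=
  {ω | bl (Gr ω p) x r = B₀ ∧ bl (Gr ω p) x (r + 1) = B₁}

theorem evA_meas (p : ℝ) (x : Fin n) (r : ℕ) (B₀ B₁ : Finset (Fin n)) :
    MeasurableSet (evA p x r B₀ B₁) :=
  ((LevDep.gr p).comp fun H => bl H x r = B₀ ∧ bl H x (r + 1) = B₁).measurableSet

theorem evA_dep (p : ℝ) (x : Fin n) (r : ℕ) (B₀ B₁ : Finset (Fin n)) :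
    DepOn (eM B₀) (evA p x r B₀ B₁) := by
  have key : ∀ ω ω' : Env n, (∀ e ∈ eM B₀, ω e = ω' e) → ω ∈ evA p x r B₀ B₁ →
      ω' ∈ evA p x r B₀ B₁ := by
    rintro ω ω' h ⟨h1, h2⟩
    have h3 := bl_dep (B := B₀) h1.subset h
    exact ⟨(h3 r (by omega)).trans h1, (h3 (r + 1) le_rfl).trans h2⟩
  intro ω ω' h
  exact ⟨key ω ω' h, key ω' ω fun e he => (h e he).symm⟩

theorem bl_next {ω : Env n} {p : ℝ} {x : Fin n} {r : ℕ} {B₀ B₁ : Finset (Fin n)}
    (h : ω ∈ evA p x r B₀ B₁) :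
    (bl (Gr ω p) x (r + 2)).card = B₁.card + (nx p B₀ B₁ ω).card := by
  obtain ⟨h0, h1⟩ := h
  have h2 : bl (Gr ω p) x (r + 2) = B₁ ∪ nx p B₀ B₁ ω := by
    ext y
    rw [mem_bl_succ, h1, Finset.mem_union]
    unfold nx
    rw [Finset.mem_filter]
    constructor
    · rintro (h | ⟨z, hz, hadj⟩)
      · exact Or.inl h
      · by_cases hy : y ∈ B₁
        · exact Or.inl hy
        · refine Or.inr ⟨Finset.mem_sdiff.2 ⟨Finset.mem_univ _, hy⟩, z,
            Finset.mem_sdiff.2 ⟨hz, fun hz0 => hy ?_⟩, hadj⟩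
          rw [← h1, mem_bl_succ, h0]
          exact Or.inr ⟨z, hz0, hadj⟩
    · rintro (h | ⟨_, z, hz, hadj⟩)
      · exact Or.inl h
      · exact Or.inr ⟨z, (Finset.mem_sdiff.1 hz).1, hadj⟩
  rw [h2, Finset.card_union_of_disjoint]
  rw [Finset.disjoint_left]
  intro y hy hy'
  exact (Finset.mem_sdiff.1 (Finset.mem_filter.1 hy').1).2 hy

/-- the exponential functional -/
def Mf (p θ l t : ℝ) (x : Fin n) (r : ℕ) (ω : Env n) : ℝ≥0∞ :=
  if ((bl (Gr ω p) x r).card : ℝ) ≤ t then ENNReal.ofReal (Real.exp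
    (-θ * ((bl (Gr ω p) x (r + 1)).card : ℝ) + l * ((bl (Gr ω p) x r).card : ℝ))) else 0

theorem Mf_meas (p θ l t : ℝ) (x : Fin n) (r : ℕ) : Measurable (Mf (n := n) p θ l t x r) :=
  ((LevDep.gr p).comp fun H => if ((bl H x r).card : ℝ) ≤ t then ENNReal.ofReal (Real.exp
    (-θ * ((bl H x (r + 1)).card : ℝ) + l * ((bl H x r).card : ℝ))) else 0).measurable

theorem lint_cases (p : ℝ) (x : Fin n) (r : ℕ) {F : Env n → ℝ≥0∞} (hF : Measurable F) :
    ∫⁻ ω, F ω ∂(mu n) = ∑ B : Finset (Fin n) × Finset (Fin n),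
      ∫⁻ ω in evA p x r B.1 B.2, F ω ∂(mu n) := by
  have h1 : ∀ ω : Env n, F ω = ∑ B : Finset (Fin n) × Finset (Fin n),
      (evA p x r B.1 B.2).indicator F ω := by
    intro ω
    rw [Finset.sum_eq_single (bl (Gr ω p) x r, bl (Gr ω p) x (r + 1))]
    · rw [Set.indicator_of_mem]
      exact ⟨rfl, rfl⟩
    · rintro ⟨B₀, B₁⟩ _ hne
      rw [Set.indicator_of_notMem]
      rintro ⟨h1, h2⟩
      exact hne (Prod.ext h1.symm h2.symm)
    · intro h
      exact absurd (Finset.mem_univ _) h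
  calc ∫⁻ ω, F ω ∂(mu n) = ∫⁻ ω, ∑ B : Finset (Fin n) × Finset (Fin n),
      (evA p x r B.1 B.2).indicator F ω ∂(mu n) := by simp_rw [← h1]
    _ = _ := by
      rw [lintegral_finsetSum]
      · refine Finset.sum_congr rfl fun B _ => ?_
        rw [lintegral_indicator (evA_meas p x r B.1 B.2)]
      · intro B _
        exact hF.indicator (evA_meas p x r B.1 B.2)

/-- the conditional step -/
theorem step_A {p θ : ℝ} (hp : 0 ≤ p) (hp1 : p ≤ 1) (hθ : 0 ≤ θ) (x : Fin n) (r : ℕ)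
    (B₀ B₁ : Finset (Fin n)) (hB : B₀ ⊆ B₁) :
    ∫⁻ ω in evA p x r B₀ B₁, ENNReal.ofReal (Real.exp (-θ * ((nx p B₀ B₁ ω).card : ℝ))) ∂(mu n) ≤
      mu n (evA p x r B₀ B₁) * ENNReal.ofReal (Real.exp (-(1 - Real.exp (-θ)) *
        (1 - (1 - p) ^ (B₁ \ B₀).card) * (n - B₁.card))) := by
  have hA := evA_meas p x r B₀ B₁
  have h1 : ∫⁻ ω in evA p x r B₀ B₁, ENNReal.ofReal (Real.exp (-θ *
      ((nx p B₀ B₁ ω).card : ℝ))) ∂(mu n) =
      ∫⁻ ω, (evA p x r B₀ B₁).indicator (fun _ => (1 : ℝ≥0∞)) ω *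
        ∏ y ∈ Finset.univ \ B₁, fY p θ (B₁ \ B₀) y ω ∂(mu n) := by
    rw [← lintegral_indicator hA]
    refine lintegral_congr fun ω => ?_
    by_cases h : ω ∈ evA p x r B₀ B₁
    · rw [Set.indicator_of_mem h, Set.indicator_of_mem h, one_mul, exp_nx]
    · rw [Set.indicator_of_notMem h, Set.indicator_of_notMem h, zero_mul]
  rw [h1, lintegral_mul_indep (F := eM B₀) (F' := (Finset.univ \ B₁).biUnion (eS (B₁ \ B₀)))]
  · refine mul_le_mul' (le_of_eq ?_) ?_
    · rw [lintegral_indicator_const hA, one_mul]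
    · have := exp_next hp hp1 hθ B₀ B₁ hB
      refine le_trans (le_of_eq ?_) this
      exact lintegral_congr fun ω => (exp_nx p θ B₀ B₁ ω).symm
  · rw [Finset.disjoint_biUnion_right]
    intro y hy
    rw [Finset.disjoint_left]
    intro e he he'
    obtain ⟨x', hx', rfl⟩ := mem_eS.1 he'
    obtain ⟨z, hz, hze⟩ := (Finset.mem_filter.1 he).2
    rcases Sym2.mem_iff.1 hze with rfl | rfl
    · exact (Finset.mem_sdiff.1 hx').2 hz
    · exact (Finset.mem_sdiff.1 hy).2 (hB hz)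
  · exact measurable_const.indicator hA
  · exact Finset.measurable_fun_prod _ fun y' _ => fY_meas p θ _ y'
  · intro ω ω' h
    have := evA_dep p x r B₀ B₁ ω ω' h
    by_cases h' : ω ∈ evA p x r B₀ B₁
    · rw [Set.indicator_of_mem h', Set.indicator_of_mem (this.1 h')]
    · rw [Set.indicator_of_notMem h', Set.indicator_of_notMem fun h'' => h' (this.2 h'')]
  · intro ω ω' h
    refine Finset.prod_congr rfl fun y' hy' => fY_dep p θ _ y' ω ω' fun e he => h e ?_
    exact Finset.mem_biUnion.2 ⟨y', hy', he⟩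

theorem Mf_le {p θ l t : ℝ} (hp : 0 ≤ p) (hp1 : p ≤ 1) (hθ : 0 ≤ θ)
    (key : ∀ B₀ B₁ : Finset (Fin n), B₀ ⊆ B₁ → (B₁.card : ℝ) ≤ t →
      l * ((B₁ \ B₀).card : ℝ) ≤ (1 - Real.exp (-θ)) * (1 - (1 - p) ^ (B₁ \ B₀).card) *
        (n - B₁.card)) (x : Fin n) (r : ℕ) :
    ∫⁻ ω, Mf p θ l t x r ω ∂(mu n) ≤ 1 := by
  induction r with
  | zero =>
    by_cases ht : (1 : ℝ) ≤ t
    · have h1 : ∀ ω : Env n, Mf p θ l t x 0 ω = ENNReal.ofReal (Real.exp (l - θ)) *
          ENNReal.ofReal (Real.exp (-θ * ((nx p ∅ {x} ω).card : ℝ))) := by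
        intro ω
        unfold Mf
        have h2 : (bl (Gr ω p) x 0).card = 1 := by rw [bl_zero]; simp
        have h3 : (bl (Gr ω p) x (0 + 1)).card = 1 + (nx p ∅ {x} ω).card := by
          have : bl (Gr ω p) x (0 + 1) = {x} ∪ nx p ∅ {x} ω := by
            ext y
            rw [mem_bl_succ, bl_zero, Finset.mem_union]
            unfold nx
            rw [Finset.mem_filter]
            simp only [Finset.mem_singleton, exists_eq_left, Finset.mem_sdiff, Finset.mem_univ,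
              true_and, Finset.notMem_empty, not_false_eq_true, and_true]
            constructor
            · rintro (h | h)
              · exact Or.inl h
              · by_cases hy : y = x
                · exact Or.inl hy
                · exact Or.inr ⟨hy, h⟩
            · rintro (h | h)
              · exact Or.inl h
              · exact Or.inr h.2
          rw [this, Finset.card_union_of_disjoint]
          · simp
          · rw [Finset.disjoint_left]
            intro y hy hy'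
            exact (Finset.mem_sdiff.1 (Finset.mem_filter.1 hy').1).2 hy
        rw [if_pos (by rw [h2]; simpa using ht), ← ENNReal.ofReal_mul (Real.exp_pos _).le,
          ← Real.exp_add, h2, h3]
        congr 2
        push_cast
        ring
      simp_rw [h1]
      rw [lintegral_const_mul' _ _ ENNReal.ofReal_ne_top]
      have h4 := exp_next hp hp1 hθ ∅ {x} (Finset.empty_subset _)
      have h5 := key ∅ {x} (Finset.empty_subset _) (by simpa using ht)
      refine (mul_le_mul' le_rfl h4).trans ?_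
      rw [← ENNReal.ofReal_mul (Real.exp_pos _).le, ← Real.exp_add]
      rw [ENNReal.ofReal_le_one]
      refine Real.exp_le_one_iff.2 ?_
      have h6 : ((({x} : Finset (Fin n)) \ ∅).card : ℝ) = 1 := by simp
      rw [h6] at h5
      linarith
    · have h1 : ∀ ω : Env n, Mf p θ l t x 0 ω = 0 := by
        intro ω
        unfold Mf
        rw [if_neg]
        rw [bl_zero]
        simpa using ht
      simp_rw [h1]
      simp
  | succ r ih =>
    refine le_trans ?_ ih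
    rw [lint_cases p x r (Mf_meas p θ l t x (r + 1)), lint_cases p x r (Mf_meas p θ l t x r)]
    refine Finset.sum_le_sum ?_
    rintro ⟨B₀, B₁⟩ _
    have hA := evA_meas p x r B₀ B₁
    dsimp only
    by_cases hB : B₀ ⊆ B₁
    · by_cases hc : (B₁.card : ℝ) ≤ t
      · have h0 : (B₀.card : ℝ) ≤ t := le_trans (by exact_mod_cast Finset.card_le_card hB) hc
        have hcard : ((B₁ \ B₀).card : ℝ) = B₁.card - B₀.card := by
          rw [Finset.card_sdiff_of_subset hB, Nat.cast_sub (Finset.card_le_card hB)]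
        have e1 : ∫⁻ ω in evA p x r B₀ B₁, Mf p θ l t x (r + 1) ω ∂(mu n) =
            ENNReal.ofReal (Real.exp ((l - θ) * B₁.card)) *
            ∫⁻ ω in evA p x r B₀ B₁, ENNReal.ofReal (Real.exp (-θ *
              ((nx p B₀ B₁ ω).card : ℝ))) ∂(mu n) := by
          rw [← lintegral_const_mul' _ _ ENNReal.ofReal_ne_top]
          refine setLIntegral_congr_fun hA fun ω hω => ?_
          dsimp only [Mf]
          rw [show r + 1 + 1 = r + 2 from rfl, bl_next hω, hω.2, if_pos hc,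
            ← ENNReal.ofReal_mul (Real.exp_pos _).le, ← Real.exp_add]
          congr 2
          push_cast
          ring
        have e2 : ∫⁻ ω in evA p x r B₀ B₁, Mf p θ l t x r ω ∂(mu n) =
            ENNReal.ofReal (Real.exp (-θ * B₁.card + l * B₀.card)) * mu n (evA p x r B₀ B₁) := by
          rw [← setLIntegral_const]
          refine setLIntegral_congr_fun hA fun ω hω => ?_
          dsimp only [Mf]
          rw [hω.2, hω.1, if_pos h0]
        rw [e1, e2]
        refine (mul_le_mul' le_rfl (step_A hp hp1 hθ x r B₀ B₁ hB)).trans ?_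
        rw [mul_comm (mu n _) _, ← mul_assoc, ← ENNReal.ofReal_mul (Real.exp_pos _).le,
          ← Real.exp_add]
        refine mul_le_mul' (ENNReal.ofReal_le_ofReal (Real.exp_le_exp.2 ?_)) le_rfl
        have := key B₀ B₁ hB hc
        rw [hcard] at this
        linarith
      · have e1 : ∫⁻ ω in evA p x r B₀ B₁, Mf p θ l t x (r + 1) ω ∂(mu n) = 0 := by
          rw [setLIntegral_congr_fun (g := fun _ => 0) hA]
          · simp
          · intro ω hω
            dsimp only [Mf]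
            rw [hω.2, if_neg hc]
        rw [e1]
        exact zero_le
    · have : evA p x r B₀ B₁ = ∅ := by
        ext ω
        simp only [Set.mem_empty_iff_false, iff_false]
        rintro ⟨h1, h2⟩
        exact hB (by rw [← h1, ← h2]; exact bl_mono (by omega))
      rw [this]
      simp

/-! ## Numerical estimates -/

theorem exp_neg_le {y : ℝ} (hy : 0 ≤ y) : Real.exp (-y) ≤ 1 - y + y ^ 2 / 2 := by
  have h1 := Real.quadratic_le_exp_of_nonneg hy
  have h2 : Real.exp (-y) * Real.exp y = 1 := by rw [← Real.exp_add]; simp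
  have h3 : 0 < Real.exp (-y) := Real.exp_pos _
  have h4 : 0 ≤ 1 - y + y ^ 2 / 2 := by nlinarith [sq_nonneg (y - 1)]
  have h5 : 1 ≤ (1 - y + y ^ 2 / 2) * Real.exp y := by
    have : (1 - y + y ^ 2 / 2) * (1 + y + y ^ 2 / 2) = 1 + y ^ 4 / 4 := by ring
    have h6 : (1 - y + y ^ 2 / 2) * (1 + y + y ^ 2 / 2) ≤ (1 - y + y ^ 2 / 2) * Real.exp y :=
      mul_le_mul_of_nonneg_left h1 h4
    have h7 : 0 ≤ y ^ 4 := by positivity
    linarith
  by_contra hcon
  push Not at hcon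
  have h8 := mul_lt_mul_of_pos_right hcon (Real.exp_pos y)
  rw [h2] at h8
  linarith

theorem key_num {δ N b : ℝ} {s : ℕ} (hδ : 0 < δ) (hN : 0 < N) (hp1 : (1 + δ) / N ≤ 1)
    (hs : (s : ℝ) ≤ b) (hb : b ≤ δ * N / (20 * (1 + δ) ^ 2)) :
    (1 + 9 / 10 * δ) * s ≤ (1 - (1 - (1 + δ) / N) ^ s) * (N - b) := by
  set p : ℝ := (1 + δ) / N with hp
  set t : ℝ := δ * N / (20 * (1 + δ) ^ 2) with ht
  have hp0 : 0 < p := by positivity
  have hs0 : (0 : ℝ) ≤ s := Nat.cast_nonneg _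
  have hpN : p * N = 1 + δ := by rw [hp]; field_simp
  have hpt : p * t = δ / (20 * (1 + δ)) := by
    rw [hp, ht]; field_simp
  have hc1 : p * t ≤ δ / 20 := by
    rw [hpt, div_le_div_iff₀ (by positivity) (by norm_num)]
    nlinarith
  have hc2 : p * t * (1 + δ) = δ / 20 := by rw [hpt]; field_simp
  have hc3 : p * t ≤ 1 / 20 := by
    rw [hpt, div_le_div_iff₀ (by positivity) (by norm_num)]
    nlinarith
  have hc0 : 0 ≤ p * t := by rw [hpt]; positivity
  have ht0 : 0 ≤ t := by rw [ht]; positivity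
  have h1 : (1 - p) ^ s ≤ Real.exp (-(p * s)) := by
    have h2 : 1 - p ≤ Real.exp (-p) := Real.one_sub_le_exp_neg p
    calc (1 - p) ^ s ≤ Real.exp (-p) ^ s := pow_le_pow_left₀ (by linarith) h2 s
      _ = Real.exp (-(p * s)) := by rw [← Real.exp_nat_mul]; congr 1; ring
  have h2 := exp_neg_le (y := p * s) (by positivity)
  have hst : p * s ≤ p * t := mul_le_mul_of_nonneg_left (hs.trans hb) hp0.le
  have h3 : s * (p * (1 - p * t / 2)) ≤ 1 - (1 - p) ^ s := by
    have : s * (p * (1 - p * t / 2)) ≤ p * s - (p * s) ^ 2 / 2 := by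
      have : 0 ≤ p * s * (p * t - p * s) := by
        apply mul_nonneg (by positivity); linarith
      nlinarith
    linarith
  have h4 : N - t ≤ N - b := by linarith
  have htN : t ≤ N / 20 := by
    have : p * t ≤ p * (N / 20) := by
      have : p * (N / 20) = (1 + δ) / 20 := by rw [← hpN]; ring
      rw [this]; linarith
    exact le_of_mul_le_mul_left this hp0
  have h5 : 0 ≤ N - t := by linarith
  have h6 : (0 : ℝ) ≤ s * (p * (1 - p * t / 2)) := by
    apply mul_nonneg hs0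
    apply mul_nonneg hp0.le
    linarith
  calc (1 + 9 / 10 * δ) * s ≤ (s * (p * (1 - p * t / 2))) * (N - t) := by
        have e1 : (s * (p * (1 - p * t / 2))) * (N - t) =
            s * ((p * N - p * t) * (1 - p * t / 2)) := by ring
        rw [e1, hpN, mul_comm]
        apply mul_le_mul_of_nonneg_left _ hs0
        nlinarith [sq_nonneg (p * t)]
    _ ≤ (1 - (1 - p) ^ s) * (N - t) := mul_le_mul_of_nonneg_right h3 h5
    _ ≤ _ := mul_le_mul_of_nonneg_left h4 (h6.trans h3)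

/-- the event for one vertex and one radius -/
def evG (δ : ℝ) (x : Fin n) (r : ℕ) : Set (Env n) :=
  {ω | 400 * Real.log n / db δ ^ 2 ≤ ((bl (Gr ω ((1 + δ) / n)) x r).card : ℝ) ∧
      ((bl (Gr ω ((1 + δ) / n)) x r).card : ℝ) ≤ thr n δ ∧
      ((bl (Gr ω ((1 + δ) / n)) x (r + 1)).card : ℝ) <
        (1 + db δ / 8) * (bl (Gr ω ((1 + δ) / n)) x r).card}

theorem evG_le {δ : ℝ} (hn : 2 ≤ n) (hδ : 0 < δ) (hp : (1 + δ) / n ≤ 1) (x : Fin n) (r : ℕ) :
    mu n (evG δ x r) ≤ ENNReal.ofReal (1 / (n : ℝ) ^ 60) := by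
  have hN : (0 : ℝ) < n := by exact_mod_cast (by omega : 0 < n)
  have hp0 : 0 ≤ (1 + δ) / (n : ℝ) := by positivity
  set d : ℝ := db δ with hd
  have hd0 : 0 < d := by rw [hd]; exact lt_min hδ one_pos
  have hd1 : d ≤ 1 := min_le_right _ _
  have hdδ : d ≤ δ := min_le_left _ _
  set θ : ℝ := 2 / 5 * d with hθ
  have hθ0 : 0 ≤ θ := by positivity
  set l : ℝ := (1 - Real.exp (-θ)) * (1 + 9 / 10 * δ) with hl
  have he : Real.exp (-θ) ≤ 1 := Real.exp_le_one_iff.2 (by linarith)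
  have hM := Mf_le (n := n) (p := (1 + δ) / n) (θ := θ) (l := l) (t := thr n δ) hp0 hp hθ0 (by
    intro B₀ B₁ hB hc
    have hs : (((B₁ \ B₀).card : ℕ) : ℝ) ≤ B₁.card := by
      exact_mod_cast Finset.card_le_card Finset.sdiff_subset
    have := key_num (s := (B₁ \ B₀).card) hδ hN hp hs (by unfold thr at hc; exact hc)
    calc l * ((B₁ \ B₀).card : ℝ)
        = (1 - Real.exp (-θ)) * ((1 + 9 / 10 * δ) * ((B₁ \ B₀).card : ℝ)) := by
          rw [hl]; ring
      _ ≤ (1 - Real.exp (-θ)) * ((1 - (1 - (1 + δ) / n) ^ (B₁ \ B₀).card) *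
            (n - B₁.card)) := mul_le_mul_of_nonneg_left this (by linarith)
      _ = _ := by ring) x r
  have hsub : evG δ x r ⊆ {ω | ENNReal.ofReal ((n : ℝ) ^ 60) ≤
      Mf ((1 + δ) / n) θ l (thr n δ) x r ω} := by
    rintro ω ⟨h1, h2, h3⟩
    rw [Set.mem_ofPred_eq]
    unfold Mf
    rw [if_pos h2]
    refine ENNReal.ofReal_le_ofReal ?_
    set m : ℝ := ((bl (Gr ω ((1 + δ) / n)) x r).card : ℝ) with hm
    set m' : ℝ := ((bl (Gr ω ((1 + δ) / n)) x (r + 1)).card : ℝ) with hm'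
    have hm0 : 0 ≤ m := Nat.cast_nonneg _
    have h4 : 60 * Real.log n ≤ 3 / 20 * d ^ 2 * m := by
      rw [div_le_iff₀ (by positivity)] at h1
      nlinarith
    have h5 : (n : ℝ) ^ 60 = Real.exp (60 * Real.log n) := by
      rw [← Real.exp_log hN, ← Real.exp_nat_mul, Real.exp_log hN]
      norm_num
    rw [h5]
    refine Real.exp_le_exp.2 (h4.trans ?_)
    have h6 : θ - θ ^ 2 / 2 ≤ 1 - Real.exp (-θ) := by
      have := exp_neg_le hθ0
      linarith
    have h7 : (θ - θ ^ 2 / 2) * (1 + 9 / 10 * d) ≤ l := by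
      rw [hl]
      refine mul_le_mul h6 (by linarith) (by positivity) (by linarith)
    have h8 : -θ * m' ≥ -θ * ((1 + d / 8) * m) := by
      nlinarith
    have h9 : 3 / 20 * d ^ 2 ≤ (θ - θ ^ 2 / 2) * (1 + 9 / 10 * d) - θ * (1 + d / 8) := by
      rw [hθ]
      have hd2 : 0 ≤ d ^ 2 * (1 - d) := by
        apply mul_nonneg (by positivity); linarith
      nlinarith
    have h10 : 3 / 20 * d ^ 2 * m ≤ (l - θ * (1 + d / 8)) * m := by
      apply mul_le_mul_of_nonneg_right _ hm0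
      linarith
    nlinarith
  have hmk := mul_meas_ge_le_lintegral (μ := mu n) (Mf_meas ((1 + δ) / n) θ l (thr n δ) x r)
    (ENNReal.ofReal ((n : ℝ) ^ 60))
  have hpos : (0 : ℝ) < (n : ℝ) ^ 60 := by positivity
  rw [one_div, ENNReal.ofReal_inv_of_pos hpos]
  rw [ENNReal.le_inv_iff_mul_le]
  calc mu n (evG δ x r) * ENNReal.ofReal ((n : ℝ) ^ 60)
      ≤ mu n {ω | ENNReal.ofReal ((n : ℝ) ^ 60) ≤
          Mf ((1 + δ) / n) θ l (thr n δ) x r ω} * ENNReal.ofReal ((n : ℝ) ^ 60) :=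
        mul_le_mul' (measure_mono hsub) le_rfl
    _ ≤ 1 := by
        rw [mul_comm]
        exact hmk.trans hM

theorem growth {δ : ℝ} (hn : 2 ≤ n) (hδ : 0 < δ) (hp : (1 + δ) / n ≤ 1) :
    mu n {ω | ∃ (x : Fin n) (r : ℕ),
      400 * Real.log n / db δ ^ 2 ≤ ((bl (Gr ω ((1 + δ) / n)) x r).card : ℝ) ∧
      ((bl (Gr ω ((1 + δ) / n)) x r).card : ℝ) ≤ thr n δ ∧
      ((bl (Gr ω ((1 + δ) / n)) x (r + 1)).card : ℝ) <
        (1 + db δ / 8) * (bl (Gr ω ((1 + δ) / n)) x r).card} ≤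
      ENNReal.ofReal (1 / (n : ℝ) ^ 5) := by
  have hN : (2 : ℝ) ≤ n := by exact_mod_cast hn
  have hsub : {ω : Env n | ∃ (x : Fin n) (r : ℕ),
      400 * Real.log n / db δ ^ 2 ≤ ((bl (Gr ω ((1 + δ) / n)) x r).card : ℝ) ∧
      ((bl (Gr ω ((1 + δ) / n)) x r).card : ℝ) ≤ thr n δ ∧
      ((bl (Gr ω ((1 + δ) / n)) x (r + 1)).card : ℝ) <
        (1 + db δ / 8) * (bl (Gr ω ((1 + δ) / n)) x r).card} ⊆
      ⋃ q ∈ (Finset.univ : Finset (Fin n)) ×ˢ Finset.range (n + 1), evG δ q.1 q.2 := by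
    rintro ω ⟨x, r, h⟩
    simp only [Set.mem_iUnion]
    by_cases hr : r ≤ n
    · exact ⟨(x, r), Finset.mem_product.2 ⟨Finset.mem_univ _, Finset.mem_range.2 (by omega)⟩, h⟩
    · refine ⟨(x, n), Finset.mem_product.2 ⟨Finset.mem_univ _, Finset.mem_range.2 (by omega)⟩, ?_⟩
      have e1 : bl (Gr ω ((1 + δ) / n)) x r = bl (Gr ω ((1 + δ) / n)) x n := bl_stable (by omega)
      have e2 : bl (Gr ω ((1 + δ) / n)) x (r + 1) = bl (Gr ω ((1 + δ) / n)) x (n + 1) := by
        rw [bl_stable (r := r + 1) (by omega), bl_stable (r := n + 1) (by omega)]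
      rw [e1, e2] at h
      exact h
  refine (measure_mono hsub).trans ((measure_biUnion_finset_le _ _).trans ?_)
  refine (Finset.sum_le_sum fun q _ => evG_le hn hδ hp q.1 q.2).trans ?_
  rw [Finset.sum_const, Finset.card_product, Finset.card_univ, Fintype.card_fin,
    Finset.card_range, nsmul_eq_mul]
  have h1 : (((n * (n + 1) : ℕ) : ℝ≥0∞)) = ENNReal.ofReal ((n * (n + 1) : ℕ) : ℝ) := by
    rw [ENNReal.ofReal_natCast]
  rw [h1, ← ENNReal.ofReal_mul (by positivity)]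
  refine ENNReal.ofReal_le_ofReal ?_
  push_cast
  have hN0 : (0 : ℝ) < n := by linarith
  rw [mul_one_div, div_le_div_iff₀ (by positivity) (by positivity), one_mul]
  have h2 : (n : ℝ) * (n + 1) ≤ (n : ℝ) ^ 3 := by nlinarith [sq_nonneg ((n : ℝ) - 2)]
  calc (n : ℝ) * (n + 1) * n ^ 5 ≤ (n : ℝ) ^ 3 * n ^ 5 :=
        mul_le_mul_of_nonneg_right h2 (by positivity)
    _ = (n : ℝ) ^ 8 := by ring
    _ ≤ (n : ℝ) ^ 60 := pow_le_pow_right₀ (by linarith) (by norm_num)

end RST
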