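import Pool.Agent.Work.MP_5ba30e_pr.Giant
import Pool.Agent.Work.MP_5ba30e_pr.Growth

/-!
# BallVolA : proof of `ball_vol`
-/

open MeasureTheory Set Filter Finset
open scoped ENNReal Topology Classical

noncomputable section

namespace RST

variable {n : ℕ}

/-- a long path from a vertex whose ball is smaller than its component -/
theorem path_of_not_ball {G : SimpleGraph (Fin n)} {x y : Fin n} {r : ℕ} (hy : y ∈ comp G x)
    (hr : y ∉ bl G x r) : ∃ (z : Fin n) (w : G.Walk x z), w.IsPath ∧ w.length = r := by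
  have h1 : G.Reachable x y := (Finset.mem_filter.1 hy).2
  obtain ⟨w, hw⟩ := h1.exists_isPath
  have hlen : r ≤ w.length := by
    by_contra h
    exact hr (Finset.mem_filter.2 ⟨Finset.mem_univ _, w, by omega⟩)
  exact ⟨_, w.take r, hw.take r, by
    rw [SimpleGraph.Walk.take_length]; exact min_eq_left hlen⟩

theorem support_subset_ball {G : SimpleGraph (Fin n)} {x z : Fin n} (w : G.Walk x z)
    {u : Fin n} (hu : u ∈ w.support) : ∃ w' : G.Walk x u, w'.length ≤ w.length :=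
  ⟨w.takeUntil u hu, w.length_takeUntil_le_length hu⟩

theorem bl_mono_r {G : SimpleGraph (Fin n)} {x : Fin n} {r s : ℕ} (h : r ≤ s) :
    bl G x r ⊆ bl G x s := by
  intro y hy
  obtain ⟨w, hw⟩ := (Finset.mem_filter.1 hy).2
  exact Finset.mem_filter.2 ⟨Finset.mem_univ _, w, hw.trans h⟩

/-- either the ball is the whole component or it has more than `r` points -/
theorem card_ball_ge {G : SimpleGraph (Fin n)} (x : Fin n) (r : ℕ) :
    (comp G x).card ≤ (bl G x r).card ∨ r + 1 ≤ (bl G x r).card := by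
  by_cases h : comp G x ⊆ bl G x r
  · exact Or.inl (Finset.card_le_card h)
  · right
    rw [Finset.not_subset] at h
    obtain ⟨y, hy, hr⟩ := h
    obtain ⟨z, w, hw, hl⟩ := path_of_not_ball hy hr
    have h1 : w.support.toFinset ⊆ bl G x r := by
      intro u hu
      obtain ⟨w', hw'⟩ := support_subset_ball w (List.mem_toFinset.1 hu)
      exact Finset.mem_filter.2 ⟨Finset.mem_univ _, w', by omega⟩
    have h2 : w.support.toFinset.card = r + 1 := by
      rw [List.toFinset_card_of_nodup hw.support_nodup, SimpleGraph.Walk.length_support, hl]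
    rw [← h2]
    exact Finset.card_le_card h1

/-- the components of a smaller graph which meet a short walk are in a ball -/
theorem bv_sat_subset_ball {G H : SimpleGraph (Fin n)} (hHG : H ≤ G) {x z : Fin n} (w : G.Walk x z)
    {ℓ : ℕ} (hw : w.length ≤ ℓ)
    (hH : ∀ (u v : Fin n) (q : H.Walk u v), q.IsPath → q.length ≤ ℓ) :
    sat H w.support.toFinset ⊆ bl G x (2 * ℓ) := by
  intro v hv
  obtain ⟨r, hr, hrv⟩ := (Finset.mem_filter.1 hv).2
  obtain ⟨q, hq⟩ := hrv.exists_isPath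
  obtain ⟨w', hw'⟩ := support_subset_ball w (List.mem_toFinset.1 hr)
  refine Finset.mem_filter.2 ⟨Finset.mem_univ _, w'.append (q.mapLe hHG), ?_⟩
  have h1 := hH _ _ q hq
  rw [SimpleGraph.Walk.length_append]
  have h2 : (q.mapLe hHG).length = q.length := by simp
  omega

theorem bv_Gr_le {ω : Env n} {p p' : ℝ} (h : p ≤ p') : Gr ω p ≤ Gr ω p' := by
  intro a b hab
  exact ⟨hab.1, hab.2.trans h⟩

theorem bv_pe_subset_sym2 {ℓ : ℕ} (f : Fin (ℓ + 1) → Fin n) :
    pe f ⊆ (Finset.univ.image f).sym2 := by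
  intro e he
  obtain ⟨i, -, rfl⟩ := Finset.mem_image.1 he
  rw [Finset.mk_mem_sym2_iff]
  exact ⟨Finset.mem_image_of_mem _ (Finset.mem_univ _),
    Finset.mem_image_of_mem _ (Finset.mem_univ _)⟩

/-- union bound over the paths `P` with `ℓ` edges of the level `p` and the size of
`sat (Gr ω p₁) P` -/
theorem bv_ev_path {p p₁ b t : ℝ} (hp : 0 ≤ p) (hp1 : p ≤ 1) (hp₁ : 0 ≤ p₁) (hp₁1 : p₁ ≤ 1)
    (ℓ : ℕ)
    (hb : ∀ τ : ℕ, ℓ + 1 ≤ τ → τ ≤ n → (τ : ℝ) < t → bnd n p₁ (ℓ + 1) τ ≤ b) :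
    mu n {ω | ∃ f : Fin (ℓ + 1) → Fin n, Function.Injective f ∧ (∀ e ∈ pe f, ω e ≤ p) ∧
      ω ∈ {ω : Env n | ((sat (Gr ω p₁) (Finset.univ.image f)).card : ℝ) < t}} ≤
    ENNReal.ofReal ((n : ℝ) ^ (ℓ + 1) * (p ^ ℓ * ((n + 1) * b))) := by
  refine (path_union p ℓ
    (fun f => {ω : Env n | ((sat (Gr ω p₁) (Finset.univ.image f)).card : ℝ) < t})).trans ?_
  have key : ∀ f : Fin (ℓ + 1) → Fin n, (if Function.Injective f then
      mu n ({ω | ∀ e ∈ pe f, ω e ≤ p} ∩
        {ω : Env n | ((sat (Gr ω p₁) (Finset.univ.image f)).card : ℝ) < t}) else 0) ≤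
      ENNReal.ofReal (p ^ ℓ * ((n + 1) * b)) := by
    intro f
    split_ifs with hf
    swap
    · exact bot_le
    set R : Finset (Fin n) := Finset.univ.image f with hR
    have hRc : R.card = ℓ + 1 := by
      rw [hR, Finset.card_image_of_injective _ hf, Finset.card_univ, Fintype.card_fin]
    set B : Set (Env n) := {ω | ∀ e ∈ pe f, ω e ≤ p} with hB
    have hBm : MeasurableSet B := by
      have : B = ⋂ e ∈ pe f, {ω : Env n | ω e ≤ p} := by
        ext ω; simp [hB]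
      rw [this]
      exact Finset.measurableSet_biInter _ fun e _ =>
        measurableSet_le (measurable_pi_apply e) measurable_const
    have hBd : DepOn R.sym2 B := by
      intro ω ω' h
      simp only [hB, Set.mem_ofPred_eq]
      exact forall₂_congr fun e he => by rw [h e (bv_pe_subset_sym2 f he)]
    have hBμ : mu n B = ENNReal.ofReal (p ^ ℓ) := by
      rw [hB, mu_le_all _ hp hp1, pe_card hf]
    have hsub : B ∩ {ω : Env n | ((sat (Gr ω p₁) R).card : ℝ) < t} ⊆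
        ⋃ τ ∈ (Finset.range (n + 1)).filter (fun τ : ℕ => ℓ + 1 ≤ τ ∧ (τ : ℝ) < t),
          (B ∩ {ω | (sat (Gr ω p₁) R).card = τ}) := by
      rintro ω ⟨h1, h2⟩
      simp only [Set.mem_iUnion]
      have h3 := Finset.card_le_card (subset_sat (Gr ω p₁) R)
      have h4 : (sat (Gr ω p₁) R).card ≤ n := by simpa using Finset.card_le_univ (sat (Gr ω p₁) R)
      refine ⟨(sat (Gr ω p₁) R).card, ?_, h1, rfl⟩
      rw [Finset.mem_filter, Finset.mem_range]
      exact ⟨by omega, by omega, h2⟩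
    calc mu n (B ∩ {ω : Env n | ((sat (Gr ω p₁) R).card : ℝ) < t})
        ≤ mu n (⋃ τ ∈ (Finset.range (n + 1)).filter (fun τ : ℕ => ℓ + 1 ≤ τ ∧ (τ : ℝ) < t),
          (B ∩ {ω | (sat (Gr ω p₁) R).card = τ})) := measure_mono hsub
      _ ≤ ∑ τ ∈ (Finset.range (n + 1)).filter (fun τ : ℕ => ℓ + 1 ≤ τ ∧ (τ : ℝ) < t),
          mu n (B ∩ {ω | (sat (Gr ω p₁) R).card = τ}) := measure_biUnion_finset_le _ _
      _ ≤ ∑ τ ∈ (Finset.range (n + 1)).filter (fun τ : ℕ => ℓ + 1 ≤ τ ∧ (τ : ℝ) < t),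
          ENNReal.ofReal (p ^ ℓ * b) := by
          refine Finset.sum_le_sum fun τ hτ => ?_
          rw [Finset.mem_filter, Finset.mem_range] at hτ
          refine (E2 R hBm hBd hp₁ hp₁1 τ).trans ?_
          rw [hBμ, ← ENNReal.ofReal_mul (by positivity), hRc]
          exact ENNReal.ofReal_le_ofReal (mul_le_mul_of_nonneg_left
            (hb τ hτ.2.1 (by omega) hτ.2.2) (by positivity))
      _ ≤ (n + 1) * ENNReal.ofReal (p ^ ℓ * b) := by
          rw [Finset.sum_const, nsmul_eq_mul]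
          gcongr
          have := Finset.card_filter_le (Finset.range (n + 1))
            (fun τ : ℕ => ℓ + 1 ≤ τ ∧ (τ : ℝ) < t)
          rw [Finset.card_range] at this
          exact_mod_cast this
      _ = ENNReal.ofReal (p ^ ℓ * ((n + 1) * b)) := by
          have : ((n : ℝ≥0∞) + 1) = ENNReal.ofReal ((n : ℝ) + 1) := by
            rw [ENNReal.ofReal_add (by positivity) (by positivity), ENNReal.ofReal_natCast,
              ENNReal.ofReal_one]
          rw [this, ← ENNReal.ofReal_mul (by positivity)]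
          congr 1
          ring
  refine (Finset.sum_le_sum fun f _ => key f).trans ?_
  rw [Finset.sum_const, nsmul_eq_mul, Finset.card_univ, Fintype.card_fun, Fintype.card_fin,
    Fintype.card_fin]
  have : (((n ^ (ℓ + 1) : ℕ)) : ℝ≥0∞) = ENNReal.ofReal ((n : ℝ) ^ (ℓ + 1)) := by
    rw [← Nat.cast_pow, ENNReal.ofReal_natCast]
  rw [this, ← ENNReal.ofReal_mul (by positivity)]

theorem bv_exp_neg_le {L : ℝ} (hL1 : 1 ≤ L) : Real.exp (-(1000 * L)) ≤ 1 / (2 * L ^ 4) := by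
  have g1 : L ≤ Real.exp L := by
    have := Real.add_one_le_exp L; linarith
  have g2 : (2 : ℝ) ≤ Real.exp L := by
    have := Real.add_one_le_exp L; linarith
  rw [Real.exp_neg, ← one_div]
  apply one_div_le_one_div_of_le (by positivity)
  calc 2 * L ^ 4 ≤ Real.exp L * (Real.exp L) ^ 4 :=
        mul_le_mul g2 (pow_le_pow_left₀ (by linarith) g1 4) (by positivity) (Real.exp_pos _).le
    _ = Real.exp (5 * L) := by
        rw [← Real.exp_nat_mul, ← Real.exp_add]; congr 1; push_cast; ring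
    _ ≤ Real.exp (1000 * L) := Real.exp_le_exp.2 (by linarith)

/-- first case: `δ < 1/6` -/
theorem ball_vol_small {δ : ℝ} {r : ℕ} {L : ℝ} (hL : L = Real.log n) (hn : 3 ≤ n)
    (hL1 : 6001 ≤ L) (hδ : 0 < δ) (hδ1 : δ < 1 / 6) (hbig : 11200 * L ≤ δ ^ 3 * n)
    (hr2 : L ^ 2 / δ < r + 1) :
    mu n {ω | ∃ x ∈ bigC (Gr ω ((1 + δ) / n)) (thr n δ),
        ((bl (Gr ω ((1 + δ) / n)) x r).card : ℝ) < 400 * L / δ ^ 2} ≤
        ENNReal.ofReal (1 / L ^ 4) := by
  have hn0 : (0 : ℝ) < n := by positivity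
  have hn3 : (3 : ℝ) ≤ n := by exact_mod_cast hn
  have hexpL : Real.exp L = n := by rw [hL, Real.exp_log hn0]
  have hL0 : 0 < L := by linarith
  set ℓ : ℕ := ⌈3000 * L / δ⌉₊ with hℓ
  have hℓ1 : 3000 * L / δ ≤ ℓ := Nat.le_ceil _
  have hℓ2 : (ℓ : ℝ) < 3000 * L / δ + 1 := Nat.ceil_lt_add_one (by positivity)
  clear_value ℓ
  have hδℓ : 3000 * L ≤ δ * ℓ := by
    rw [div_le_iff₀ hδ] at hℓ1; linarith
  have hδℓ2 : δ * ℓ < 3000 * L + 1 := by
    have : δ * ℓ < δ * (3000 * L / δ + 1) := mul_lt_mul_of_pos_left hℓ2 hδ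
    have h2 : δ * (3000 * L / δ + 1) = 3000 * L + δ := by field_simp
    linarith
  -- `2 ℓ ≤ r`
  have h2ℓr : 2 * ℓ ≤ r := by
    have h1 : L ^ 2 < δ * (r + 1) := by
      rw [div_lt_iff₀ hδ] at hr2; linarith
    have h2 : δ * (2 * ℓ) < δ * (r + 1) := by nlinarith
    have h3 : (2 * (ℓ : ℝ)) < r + 1 := lt_of_mul_lt_mul_left h2 hδ.le
    have h4 : 2 * ℓ < r + 1 := by exact_mod_cast h3
    omega
  set p : ℝ := (1 + δ) / n with hp
  set p₁ : ℝ := (1 - δ) / n with hp₁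
  have hp0 : 0 ≤ p := by positivity
  have hp1 : p ≤ 1 := by rw [hp, div_le_one hn0]; linarith
  have hp₁0 : 0 ≤ p₁ := by rw [hp₁]; apply div_nonneg <;> linarith
  have hp₁1 : p₁ ≤ 1 := by rw [hp₁, div_le_one hn0]; linarith
  have hpp : p₁ ≤ p := by rw [hp, hp₁]; gcongr; linarith
  set t : ℝ := 400 * L / δ ^ 2 with ht
  have hδ2t : δ ^ 2 * t = 400 * L := by rw [ht]; field_simp
  clear_value t p p₁
  -- `t ≤ thr`
  have htthr : t ≤ thr n δ := by
    rw [ht, thr, div_le_div_iff₀ (by positivity) (by positivity)]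
    have h1 : (1 + δ) ^ 2 ≤ 49 / 36 := by nlinarith
    have h2 : 400 * L * (20 * (1 + δ) ^ 2) ≤ 400 * L * (20 * (49 / 36)) := by gcongr
    nlinarith
  -- the two bad events
  set b : ℝ := Real.exp (4920 * L - 3 * δ * (ℓ + 1)) with hb
  have hb1 : 0 ≤ b := (Real.exp_pos _).le
  clear_value b
  have hbn : ∀ τ : ℕ, ℓ + 1 ≤ τ → τ ≤ n → (τ : ℝ) < t → bnd n p₁ (ℓ + 1) τ ≤ b := by
    intro τ h1 h2 h3
    have hsmall : (τ : ℝ) / 2 + ((ℓ + 1 : ℕ) : ℝ) ≤ δ * n / 10 := by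
      push_cast
      have h4 : δ ^ 2 * ((τ : ℝ) / 2 + (ℓ + 1)) ≤ δ ^ 2 * (δ * n / 10) := by
        have h5 : δ ^ 2 * (τ : ℝ) ≤ 400 * L := by
          rw [← hδ2t]; gcongr
        nlinarith
      exact le_of_mul_le_mul_left h4 (by positivity)
    rw [hp₁, hb]
    refine (bnd_ball hδ hδ1.le (by omega) h1 h2 hsmall).trans ?_
    apply Real.exp_le_exp.2
    push_cast
    have h5 : δ ^ 2 * (τ : ℝ) ≤ 400 * L := by
      rw [← hδ2t]; gcongr
    nlinarith
  have hev := bv_ev_path (n := n) hp0 hp1 hp₁0 hp₁1 ℓ hbn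
  have hav := path_avoid (n := n) ∅ hp₁0 hp₁1 ℓ
  have hsub : {ω : Env n | ∃ x ∈ bigC (Gr ω p) (thr n δ),
      ((bl (Gr ω p) x r).card : ℝ) < t} ⊆
      {ω | ∃ f : Fin (ℓ + 1) → Fin n, Function.Injective f ∧ (∀ e ∈ pe f, ω e ≤ p) ∧
        ω ∈ {ω : Env n | ((sat (Gr ω p₁) (Finset.univ.image f)).card : ℝ) < t}} ∪
      {ω | ∃ (u v : Fin n) (w : (Gr ω p₁).Walk u v), w.IsPath ∧ w.length = ℓ ∧
        ∀ x ∈ w.support, x ∉ (∅ : Finset (Fin n))} := by
    rintro ω ⟨x, hx, hxr⟩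
    by_cases hlong : ∀ (u v : Fin n) (q : (Gr ω p₁).Walk u v), q.IsPath → q.length ≤ ℓ
    · left
      have hc : thr n δ < ((comp (Gr ω p) x).card : ℝ) := (Finset.mem_filter.1 hx).2
      have h1 : ((bl (Gr ω p) x (2 * ℓ)).card : ℝ) < t :=
        lt_of_le_of_lt (by exact_mod_cast Finset.card_le_card (bl_mono_r h2ℓr)) hxr
      have h2 : ((bl (Gr ω p) x ℓ).card : ℝ) < t :=
        lt_of_le_of_lt (by exact_mod_cast Finset.card_le_card (bl_mono_r (by omega))) h1
      have h3 : ¬ comp (Gr ω p) x ⊆ bl (Gr ω p) x ℓ := by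
        intro h
        have := Finset.card_le_card h
        have : ((comp (Gr ω p) x).card : ℝ) ≤ (bl (Gr ω p) x ℓ).card := by exact_mod_cast this
        linarith
      rw [Finset.not_subset] at h3
      obtain ⟨y, hy, hyb⟩ := h3
      obtain ⟨z, w, hw, hwl⟩ := path_of_not_ball hy hyb
      obtain ⟨f, hf, -, -, hfe, hfs, hfG⟩ := exists_pe w hw
      have hsat := bv_sat_subset_ball (bv_Gr_le hpp) w hwl.le hlong
      have himg : w.support.toFinset = Finset.univ.image f := by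
        ext u
        rw [List.mem_toFinset, hfs]
        simp
      rw [himg] at hsat
      have hcard : ((sat (Gr ω p₁) (Finset.univ.image f)).card : ℝ) < t :=
        lt_of_le_of_lt (by exact_mod_cast Finset.card_le_card hsat) h1
      have hall : ∀ e ∈ pe f, ω e ≤ p := by
        intro e he
        have := hfG e he
        revert this
        induction e using Sym2.ind with
        | _ a b => exact fun h => h.2
      clear hsat himg hfe hfs hfG
      revert f
      rw [hwl]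
      intro f hf hcard hall
      exact ⟨f, hf, hall, hcard⟩
    · right
      push Not at hlong
      obtain ⟨u, v, q, hq, hql⟩ := hlong
      exact ⟨u, _, q.take ℓ, hq.take ℓ, by
        rw [SimpleGraph.Walk.take_length]; exact min_eq_left hql.le, by simp⟩
  refine (measure_mono hsub).trans ((measure_union_le _ _).trans ((add_le_add hev hav).trans ?_))
  rw [← ENNReal.ofReal_add (by positivity) (by
    have : 0 ≤ ((n : ℝ) - ((∅ : Finset (Fin n)).card : ℝ)) * p₁ := by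
      simp only [Finset.card_empty, Nat.cast_zero, sub_zero]; positivity
    positivity)]
  apply ENNReal.ofReal_le_ofReal
  have e1 : (n : ℝ) ^ (ℓ + 1) * (p ^ ℓ * ((n + 1) * b)) = (1 + δ) ^ ℓ * (n * (n + 1)) * b := by
    have : (n : ℝ) ^ ℓ * p ^ ℓ = (1 + δ) ^ ℓ := by
      rw [← mul_pow, hp]; congr 1; field_simp
    rw [pow_succ, ← this]; ring
  have e2 : (n : ℝ) * (((n : ℝ) - ((∅ : Finset (Fin n)).card : ℝ)) * p₁) ^ ℓ = n * (1 - δ) ^ ℓ := by
    simp only [Finset.card_empty, Nat.cast_zero, sub_zero]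
    congr 2
    rw [hp₁]; field_simp
  rw [e1, e2]
  have e3 : (1 + δ) ^ ℓ ≤ Real.exp (δ * ℓ) := by
    have := Real.add_one_le_exp δ
    calc (1 + δ) ^ ℓ ≤ (Real.exp δ) ^ ℓ := by gcongr; linarith
      _ = Real.exp (δ * ℓ) := by rw [← Real.exp_nat_mul]; ring_nf
  have e4 : (1 - δ) ^ ℓ ≤ Real.exp (-(δ * ℓ)) := by
    have := Real.add_one_le_exp (-δ)
    calc (1 - δ) ^ ℓ ≤ (Real.exp (-δ)) ^ ℓ := by
          apply pow_le_pow_left₀ (by linarith); linarith
      _ = Real.exp (-(δ * ℓ)) := by rw [← Real.exp_nat_mul]; ring_nf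
  have e5 : (n : ℝ) * (n + 1) ≤ Real.exp (3 * L) := by
    have : Real.exp (3 * L) = (n : ℝ) ^ 3 := by
      rw [show (3 : ℝ) * L = ((3 : ℕ) : ℝ) * L by norm_num, Real.exp_nat_mul, hexpL]
    rw [this]
    have h1 : (n : ℝ) + 1 ≤ n ^ 2 := by nlinarith
    calc (n : ℝ) * (n + 1) ≤ n * n ^ 2 := mul_le_mul_of_nonneg_left h1 hn0.le
      _ = (n : ℝ) ^ 3 := by ring
  have f1 : (1 + δ) ^ ℓ * (n * (n + 1)) * b ≤ Real.exp (-(1000 * L)) := by
    calc (1 + δ) ^ ℓ * (n * (n + 1)) * b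
        ≤ Real.exp (δ * ℓ) * Real.exp (3 * L) * b :=
          mul_le_mul_of_nonneg_right
            (mul_le_mul e3 e5 (by positivity) (Real.exp_pos _).le) hb1
      _ = Real.exp (δ * ℓ + 3 * L + (4920 * L - 3 * (δ * ℓ) - 3 * δ)) := by
          rw [Real.exp_add, Real.exp_add, hb]
          congr 2
          ring
      _ ≤ Real.exp (-(1000 * L)) :=
          Real.exp_le_exp.2 (by linarith)
  have f2 : (n : ℝ) * (1 - δ) ^ ℓ ≤ Real.exp (-(1000 * L)) := by
    calc (n : ℝ) * (1 - δ) ^ ℓ ≤ Real.exp L * Real.exp (-(δ * ℓ)) := by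
          rw [hexpL]; gcongr
      _ = Real.exp (L + -(δ * ℓ)) := by rw [Real.exp_add]
      _ ≤ Real.exp (-(1000 * L)) :=
          Real.exp_le_exp.2 (by linarith)
  have f3 := bv_exp_neg_le (L := L) (by linarith)
  calc (1 + δ) ^ ℓ * (n * (n + 1)) * b + n * (1 - δ) ^ ℓ
      ≤ 1 / (2 * L ^ 4) + 1 / (2 * L ^ 4) := by linarith
    _ = 1 / L ^ 4 := by field_simp; norm_num

theorem bv_evLog (K : ℝ) : ∀ᶠ n : ℕ in atTop, K ≤ Real.log n :=
  (Real.tendsto_log_atTop.comp tendsto_natCast_atTop_atTop).eventually_ge_atTop K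

theorem bv_evRpow {K s : ℝ} (hK : 0 < K) (hs : 0 < s) :
    ∀ᶠ n : ℕ in atTop, K * Real.log n ≤ (n : ℝ) ^ s := by
  have h := (isLittleO_log_rpow_atTop hs).bound (show (0 : ℝ) < 1 / K by positivity)
  have h2 := tendsto_natCast_atTop_atTop.eventually h
  filter_upwards [h2, bv_evLog 0, Filter.eventually_ge_atTop 1] with n h3 h4 h5
  have h6 : (0 : ℝ) ≤ (n : ℝ) ^ s := by positivity
  rw [Real.norm_of_nonneg h4, Real.norm_of_nonneg h6] at h3
  calc K * Real.log n ≤ K * (1 / K * (n : ℝ) ^ s) := by gcongr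
    _ = (n : ℝ) ^ s := by field_simp

theorem bv_evSq {K : ℝ} (hK : 0 < K) : ∀ᶠ n : ℕ in atTop, K * Real.log n ^ 2 ≤ n := by
  have h := (Real.isLittleO_pow_log_id_atTop (n := 2)).bound (show (0 : ℝ) < 1 / K by positivity)
  have h2 := tendsto_natCast_atTop_atTop.eventually h
  filter_upwards [h2] with n h3
  have h6 : (0 : ℝ) ≤ (n : ℝ) := by positivity
  rw [Real.norm_of_nonneg (by positivity), id, Real.norm_of_nonneg h6] at h3
  calc K * Real.log n ^ 2 ≤ K * (1 / K * (n : ℝ)) := by gcongr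
    _ = (n : ℝ) := by field_simp

/-- `ball_vol` of `BallVol.lean` -/
theorem ball_vol (c A₂ : ℝ) (hc : 0 < c) (_hc1 : c ≤ 1 / 3) (hA : 0 < A₂) :
    ∃ n₀ : ℕ, ∀ n ≥ n₀, ∀ δ, Rng n c A₂ δ →
      mu n {ω | ∃ x ∈ bigC (Gr ω ((1 + δ) / n)) (thr n δ), ∃ r : ℕ,
        (r : ℝ) ≤ Real.log n ^ 2 / db δ ∧ Real.log n ^ 2 / db δ < r + 1 ∧
        ((bl (Gr ω ((1 + δ) / n)) x r).card : ℝ) < 400 * Real.log n / db δ ^ 2} ≤
        ENNReal.ofReal (1 / Real.log n ^ 4) := by
  have hev : ∀ᶠ n : ℕ in atTop, 3 ≤ n ∧ 6001 ≤ Real.log n ∧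
      11200 * Real.log n ≤ (n : ℝ) ^ (3 * c) ∧ 14112000 * A₂ * Real.log n ^ 2 ≤ n :=
    (Filter.eventually_ge_atTop 3).and ((bv_evLog 6001).and
      ((bv_evRpow (by norm_num) (by positivity)).and (bv_evSq (by positivity))))
  obtain ⟨n₀, hn₀⟩ := Filter.eventually_atTop.1 hev
  refine ⟨n₀, fun n hn δ hδR => ?_⟩
  obtain ⟨hn3, hL, hpow, hsq⟩ := hn₀ n hn
  obtain ⟨hδl, hδu⟩ := hδR
  have hn0 : (0 : ℝ) < n := by
    have : 0 < n := by omega
    exact_mod_cast this
  have hL0 : 0 < Real.log n := by linarith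
  have hδ0 : 0 < δ := lt_of_lt_of_le (by positivity) hδl
  have hdb0 : 0 < db δ := lt_min hδ0 one_pos
  set L : ℝ := Real.log n with hLdef
  set r₀ : ℕ := ⌊L ^ 2 / db δ⌋₊ with hr₀
  have hr1 : (r₀ : ℝ) ≤ L ^ 2 / db δ := Nat.floor_le (by positivity)
  have hr2 : L ^ 2 / db δ < r₀ + 1 := Nat.lt_floor_add_one _
  have hsub : {ω : Env n | ∃ x ∈ bigC (Gr ω ((1 + δ) / n)) (thr n δ), ∃ r : ℕ,
        (r : ℝ) ≤ L ^ 2 / db δ ∧ L ^ 2 / db δ < r + 1 ∧
        ((bl (Gr ω ((1 + δ) / n)) x r).card : ℝ) < 400 * L / db δ ^ 2} ⊆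
      {ω | ∃ x ∈ bigC (Gr ω ((1 + δ) / n)) (thr n δ),
        ((bl (Gr ω ((1 + δ) / n)) x r₀).card : ℝ) < 400 * L / db δ ^ 2} := by
    rintro ω ⟨x, hx, r, h1, h2, h3⟩
    have : r = r₀ := by
      have h4 : (r : ℝ) < r₀ + 1 := lt_of_le_of_lt h1 hr2
      have h5 : (r₀ : ℝ) < r + 1 := lt_of_le_of_lt hr1 h2
      have h4' : r < r₀ + 1 := by exact_mod_cast h4
      have h5' : r₀ < r + 1 := by exact_mod_cast h5
      omega
    rw [this] at h3
    exact ⟨x, hx, h3⟩
  refine (measure_mono hsub).trans ?_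
  clear hsub
  clear_value r₀
  rcases lt_or_ge δ (1 / 6) with hδ6 | hδ6
  · have hdb : db δ = δ := min_eq_left (by linarith)
    rw [hdb] at hr2 ⊢
    refine ball_vol_small hLdef hn3 hL hδ0 hδ6 (hpow.trans ?_) hr2
    have h1 : ((n : ℝ) ^ (-(1 / 3 : ℝ) + c)) ^ 3 ≤ δ ^ 3 :=
      pow_le_pow_left₀ (by positivity) hδl 3
    calc (n : ℝ) ^ (3 * c) = ((n : ℝ) ^ (-(1 / 3 : ℝ) + c)) ^ 3 * n := by
          rw [← Real.rpow_natCast, ← Real.rpow_mul hn0.le, ← Real.rpow_add_one hn0.ne']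
          congr 1
          push_cast
          ring
      _ ≤ δ ^ 3 * n := by gcongr
  · have hdb : 1 / 6 ≤ db δ := le_min hδ6 (by norm_num)
    have hdb1 : db δ ≤ 1 := min_le_right _ _
    have hempty : {ω : Env n | ∃ x ∈ bigC (Gr ω ((1 + δ) / n)) (thr n δ),
        ((bl (Gr ω ((1 + δ) / n)) x r₀).card : ℝ) < 400 * L / db δ ^ 2} = ∅ := by
      rw [Set.eq_empty_iff_forall_notMem]
      rintro ω ⟨x, hx, h3⟩
      have hc : thr n δ < ((comp (Gr ω ((1 + δ) / n)) x).card : ℝ) := (Finset.mem_filter.1 hx).2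
      have hthr : 14400 * L ≤ thr n δ := by
        rw [thr, le_div_iff₀ (by positivity)]
        have g1 : (1 + δ) ^ 2 ≤ 49 * δ ^ 2 := by nlinarith
        have g2 : 14400 * L * (20 * (1 + δ) ^ 2) ≤ 14400 * L * (20 * (49 * δ ^ 2)) := by gcongr
        have g3 : 14400 * L * (20 * (49 * δ ^ 2)) ≤ δ * (14112000 * A₂ * L ^ 2) := by
          have : δ * (14112000 * L) * δ ≤ δ * (14112000 * L) * (A₂ * L) := by gcongr
          nlinarith
        have g4 : δ * (14112000 * A₂ * L ^ 2) ≤ δ * n := by gcongr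
        linarith
      have h400 : 400 * L / db δ ^ 2 ≤ 14400 * L := by
        rw [div_le_iff₀ (by positivity)]
        have : 1 / 36 ≤ db δ ^ 2 := by nlinarith
        nlinarith
      have h401 : 400 * L / db δ ^ 2 ≤ L ^ 2 / db δ := by
        rw [div_le_div_iff₀ (by positivity) (by positivity)]
        have : 400 * L * db δ ≤ L ^ 2 * db δ * db δ := by
          have : 400 * L ≤ L ^ 2 * db δ := by nlinarith
          nlinarith
        nlinarith
      rcases card_ball_ge (G := Gr ω ((1 + δ) / n)) x r₀ with h | h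
      · have : ((comp (Gr ω ((1 + δ) / n)) x).card : ℝ) ≤
            (bl (Gr ω ((1 + δ) / n)) x r₀).card := by exact_mod_cast h
        linarith
      · have : ((r₀ : ℝ) + 1) ≤ (bl (Gr ω ((1 + δ) / n)) x r₀).card := by exact_mod_cast h
        linarith
    rw [hempty, measure_empty]
    exact bot_le

end RST
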