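import Pool.Agent.Work.MP_5ba30e_pr.BallVolA

/-!
# BallVol : `ball_big` and `connect` (K22, K23), proofs
(paste into `BallVol.lean` without the primes)
-/

open MeasureTheory Set Filter Finset
open scoped ENNReal Topology Classical

noncomputable section

namespace RST

variable {n : ℕ}

/-- asymptotics -/
theorem bv_asym (c A₂ K : ℝ) (hc : 0 < c) :
    ∃ n₀ : ℕ, ∀ n : ℕ, n₀ ≤ n → 20 ≤ Real.log n ∧ 1 + 1.2 * (A₂ * Real.log n) < n ∧
      K * Real.log n ^ 9 ≤ (n : ℝ) ^ (3 * c) ∧ 2 ≤ n := by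
  have h1 : ∀ᶠ n : ℕ in atTop, 20 ≤ Real.log n :=
    (Real.tendsto_log_atTop.comp tendsto_natCast_atTop_atTop).eventually (eventually_ge_atTop 20)
  have h2 : ∀ᶠ n : ℕ in atTop, 1 + 1.2 * (A₂ * Real.log n) < n := by
    have h := (Real.isLittleO_log_id_atTop.comp_tendsto
      (tendsto_natCast_atTop_atTop (R := ℝ))).bound
      (show (0 : ℝ) < 1 / (2 * (1.2 * |A₂| + 1)) by positivity)
    filter_upwards [h, eventually_ge_atTop 3] with n hn hn2
    simp only [Function.comp, id, Real.norm_eq_abs] at hn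
    have hn0 : (0 : ℝ) ≤ n := Nat.cast_nonneg n
    rw [abs_of_nonneg hn0] at hn
    have hn2' : (3 : ℝ) ≤ n := by exact_mod_cast hn2
    have h3 : 1.2 * (A₂ * Real.log n) ≤ (1.2 * |A₂| + 1) * |Real.log n| := by
      have h4 : A₂ * Real.log n ≤ |A₂| * |Real.log n| := by
        rw [← abs_mul]; exact le_abs_self _
      have h5 : 0 ≤ |Real.log n| := abs_nonneg _
      nlinarith
    have h6 : (1.2 * |A₂| + 1) * |Real.log n| ≤ n / 2 := by
      have hpos : 0 < 1.2 * |A₂| + 1 := by positivity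
      calc (1.2 * |A₂| + 1) * |Real.log n| ≤
            (1.2 * |A₂| + 1) * (1 / (2 * (1.2 * |A₂| + 1)) * n) := by gcongr
        _ = n / 2 := by field_simp
    linarith
  have h3 : ∀ᶠ n : ℕ in atTop, K * Real.log n ^ 9 ≤ (n : ℝ) ^ (3 * c) := by
    have h := ((isLittleO_log_rpow_atTop (show (0 : ℝ) < 3 * c / 9 by positivity)).comp_tendsto
      (tendsto_natCast_atTop_atTop (R := ℝ))).bound
      (show (0 : ℝ) < 1 / (|K| + 1) by positivity)
    filter_upwards [h, eventually_ge_atTop 2, h1] with n hn hn2 hL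
    simp only [Function.comp, Real.norm_eq_abs] at hn
    have hn0 : (0 : ℝ) ≤ n := Nat.cast_nonneg n
    have hL0 : 0 ≤ Real.log n := by linarith
    rw [abs_of_nonneg hL0, abs_of_nonneg (Real.rpow_nonneg hn0 _)] at hn
    have h4 : Real.log n ^ 9 ≤ (1 / (|K| + 1) * (n : ℝ) ^ (3 * c / 9)) ^ 9 := by gcongr
    have h5 : ((n : ℝ) ^ (3 * c / 9)) ^ 9 = (n : ℝ) ^ (3 * c) := by
      rw [← Real.rpow_natCast, ← Real.rpow_mul hn0]
      congr 1
      push_cast
      ring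
    rw [mul_pow, h5] at h4
    have h6 : (1 / (|K| + 1)) ^ 9 ≤ 1 / (|K| + 1) := by
      apply pow_le_of_le_one (by positivity) _ (by norm_num)
      rw [div_le_one (by positivity)]
      have := abs_nonneg K
      linarith
    have h7 : (0 : ℝ) ≤ (n : ℝ) ^ (3 * c) := Real.rpow_nonneg hn0 _
    calc K * Real.log n ^ 9 ≤ (|K| + 1) * Real.log n ^ 9 := by
          have := le_abs_self K
          gcongr
          linarith
      _ ≤ (|K| + 1) * ((1 / (|K| + 1)) ^ 9 * (n : ℝ) ^ (3 * c)) := by gcongr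
      _ ≤ (|K| + 1) * (1 / (|K| + 1) * (n : ℝ) ^ (3 * c)) := by gcongr
      _ = (n : ℝ) ^ (3 * c) := by
          have : |K| + 1 ≠ 0 := by positivity
          field_simp
  obtain ⟨N, hN⟩ := eventually_atTop.1 (h1.and (h2.and (h3.and (eventually_ge_atTop 2))))
  exact ⟨N, fun n hn => ⟨(hN n hn).1, (hN n hn).2.1, (hN n hn).2.2.1, (hN n hn).2.2.2⟩⟩

/-- the deterministic growth argument -/
theorem bv_grow {G : SimpleGraph (Fin n)} {x : Fin n} {r₀ r : ℕ} {t a v : ℝ} (ha : 0 ≤ a)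
    (hr : r₀ ≤ r) (hv : v ≤ ((bl G x r₀).card : ℝ)) (ht : ((bl G x r).card : ℝ) ≤ t)
    (hg : ∀ i : ℕ, v ≤ ((bl G x i).card : ℝ) → ((bl G x i).card : ℝ) ≤ t →
      (1 + a) * (bl G x i).card ≤ ((bl G x (i + 1)).card : ℝ)) :
    (1 + a) ^ (r - r₀) * v ≤ ((bl G x r).card : ℝ) := by
  have key : ∀ k : ℕ, r₀ + k ≤ r → (1 + a) ^ k * v ≤ ((bl G x (r₀ + k)).card : ℝ) := by
    intro k
    induction k with
    | zero => intro _; simpa using hv
    | succ k ih =>
      intro hk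
      have h1 := ih (by omega)
      have hmono : ∀ i ≤ r, ((bl G x i).card : ℝ) ≤ t := by
        intro i hi
        refine le_trans ?_ ht
        exact_mod_cast Finset.card_le_card (bl_mono hi)
      have h2 : v ≤ ((bl G x (r₀ + k)).card : ℝ) := by
        refine hv.trans ?_
        exact_mod_cast Finset.card_le_card (bl_mono (by omega))
      have h3 := hg (r₀ + k) h2 (hmono _ (by omega))
      calc (1 + a) ^ (k + 1) * v = (1 + a) * ((1 + a) ^ k * v) := by ring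
        _ ≤ (1 + a) * (bl G x (r₀ + k)).card := by gcongr
        _ ≤ ((bl G x (r₀ + (k + 1))).card : ℝ) := h3
  have := key (r - r₀) (by omega)
  rwa [show r₀ + (r - r₀) = r by omega] at this

/-- **Stage 2**: `ball_vol` and `growth` -/
theorem ball_big (c A₂ : ℝ) (hc : 0 < c) (hc1 : c ≤ 1 / 3) (hA : 0 < A₂) :
    ∃ n₀ : ℕ, ∀ n ≥ n₀, ∀ δ, Rng n c A₂ δ →
      mu n {ω | ∃ x ∈ bigC (Gr ω ((1 + δ) / n)) (thr n δ), ∃ r : ℕ,
        2 * Real.log n ^ 2 / db δ ≤ r ∧
        ((bl (Gr ω ((1 + δ) / n)) x r).card : ℝ) ≤ thr n δ} ≤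
        ENNReal.ofReal (2 / Real.log n ^ 4) := by
  obtain ⟨n₁, h₁⟩ := ball_vol c A₂ hc hc1 hA
  obtain ⟨n₂, h₂⟩ := bv_asym c A₂ 1 hc
  refine ⟨max n₁ n₂, fun n hn δ hR => ?_⟩
  obtain ⟨hL, hlog, -, hn2⟩ := h₂ n (le_trans (le_max_right _ _) hn)
  have hvol := h₁ n (le_trans (le_max_left _ _) hn) δ hR
  have hnpos : 0 < n := by omega
  have hn' : (0 : ℝ) < n := by exact_mod_cast hnpos
  have hδ : 0 < δ := lt_of_lt_of_le (Real.rpow_pos_of_pos hn' _) hR.1
  set p := (1 + δ) / (n : ℝ) with hp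
  set L := Real.log n with hLdef
  have hL0 : 0 < L := by linarith
  have hp1 : p ≤ 1 := by
    rw [hp, div_le_one hn']
    have := hR.2
    nlinarith
  have hdb : 0 < db δ := lt_min hδ one_pos
  have hdb1 : db δ ≤ 1 := min_le_right _ _
  have hgr := growth hn2 hδ hp1
  have hexpL : Real.exp L = n := Real.exp_log hn'
  have hincl : {ω : Env n | ∃ x ∈ bigC (Gr ω p) (thr n δ), ∃ r : ℕ,
        2 * L ^ 2 / db δ ≤ r ∧ ((bl (Gr ω p) x r).card : ℝ) ≤ thr n δ} ⊆
      {ω | ∃ x ∈ bigC (Gr ω p) (thr n δ), ∃ r : ℕ,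
        (r : ℝ) ≤ L ^ 2 / db δ ∧ L ^ 2 / db δ < r + 1 ∧
        ((bl (Gr ω p) x r).card : ℝ) < 400 * L / db δ ^ 2} ∪
      {ω | ∃ (x : Fin n) (r : ℕ), 400 * L / db δ ^ 2 ≤ ((bl (Gr ω p) x r).card : ℝ) ∧
        ((bl (Gr ω p) x r).card : ℝ) ≤ thr n δ ∧
        ((bl (Gr ω p) x (r + 1)).card : ℝ) < (1 + db δ / 8) * (bl (Gr ω p) x r).card} := by
    rintro ω ⟨x, hx, r, hr, hthr⟩
    by_contra hcon
    rw [Set.mem_union, not_or] at hcon
    obtain ⟨hc1, hc2⟩ := hcon
    simp only [Set.mem_ofPred_eq, not_exists, not_and, not_lt] at hc1 hc2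
    set r₀ := ⌊L ^ 2 / db δ⌋₊ with hr₀
    have hr1 : (r₀ : ℝ) ≤ L ^ 2 / db δ := Nat.floor_le (by positivity)
    have hr2 : L ^ 2 / db δ < r₀ + 1 := Nat.lt_floor_add_one _
    have hv : 400 * L / db δ ^ 2 ≤ ((bl (Gr ω p) x r₀).card : ℝ) := hc1 x hx r₀ hr1 hr2
    have hpos : 0 < L ^ 2 / db δ := by positivity
    have hrr : (r₀ : ℝ) + L ^ 2 / db δ ≤ r := by
      have : 2 * L ^ 2 / db δ = L ^ 2 / db δ + L ^ 2 / db δ := by ring
      linarith
    have hle : r₀ ≤ r := by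
      have : (r₀ : ℝ) ≤ r := by linarith
      exact_mod_cast this
    have hgrow := bv_grow (G := Gr ω p) (x := x) (a := db δ / 8) (by positivity) hle hv hthr
      (fun i hi1 hi2 => hc2 x i hi1 hi2)
    have hcard : ((bl (Gr ω p) x r).card : ℝ) ≤ n := by
      have := (bl (Gr ω p) x r).card_le_univ
      rw [Fintype.card_fin] at this
      exact_mod_cast this
    -- lower bound for the power
    have hpow : (n : ℝ) ≤ (1 + db δ / 8) ^ (r - r₀) := by
      have h1 : Real.exp (db δ / 9) ≤ 1 + db δ / 8 := by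
        have h2 : Real.exp (-(db δ / 9)) ≥ 1 - db δ / 9 := by
          have := Real.add_one_le_exp (-(db δ / 9))
          linarith
        have h3 : 0 < 1 - db δ / 9 := by linarith
        rw [Real.exp_neg, ge_iff_le, ← one_div] at h2
        have h4 : Real.exp (db δ / 9) ≤ 1 / (1 - db δ / 9) := by
          rw [le_div_iff₀ h3]
          rw [le_div_iff₀ (Real.exp_pos _)] at h2
          linarith
        refine h4.trans ?_
        rw [div_le_iff₀ h3]
        nlinarith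
      have hsub : ((r - r₀ : ℕ) : ℝ) = r - r₀ := by
        rw [Nat.cast_sub hle]
      calc (n : ℝ) = Real.exp L := hexpL.symm
        _ ≤ Real.exp (((r - r₀ : ℕ) : ℝ) * (db δ / 9)) := by
            apply Real.exp_le_exp.2
            rw [hsub]
            have h5 : L ^ 2 / db δ ≤ (r : ℝ) - r₀ := by linarith
            calc L ≤ L ^ 2 / db δ * (db δ / 9) := by
                  have : L ^ 2 / db δ * (db δ / 9) = L ^ 2 / 9 := by
                    field_simp
                  rw [this]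
                  nlinarith
              _ ≤ ((r : ℝ) - r₀) * (db δ / 9) := by gcongr
        _ = Real.exp (db δ / 9) ^ (r - r₀) := by rw [← Real.exp_nat_mul]
        _ ≤ (1 + db δ / 8) ^ (r - r₀) := by gcongr
    have hv1 : (400 : ℝ) ≤ 400 * L / db δ ^ 2 := by
      rw [le_div_iff₀ (by positivity)]
      have : db δ ^ 2 ≤ 1 := pow_le_one₀ hdb.le hdb1
      nlinarith
    have : (n : ℝ) * 400 ≤ (1 + db δ / 8) ^ (r - r₀) * (400 * L / db δ ^ 2) := by gcongr
    nlinarith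
  refine (measure_mono hincl).trans ((measure_union_le _ _).trans ?_)
  have h5 : ENNReal.ofReal (1 / (n : ℝ) ^ 5) ≤ ENNReal.ofReal (1 / L ^ 4) := by
    apply ENNReal.ofReal_le_ofReal
    apply one_div_le_one_div_of_le (by positivity)
    have h1 : L ≤ n := by
      rw [← hexpL]
      have := Real.add_one_le_exp L
      linarith
    have h2 : (1 : ℝ) ≤ n := by exact_mod_cast hnpos
    calc L ^ 4 ≤ (n : ℝ) ^ 4 := by gcongr
      _ ≤ (n : ℝ) ^ 5 := pow_le_pow_right₀ h2 (by norm_num)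
  calc _ ≤ ENNReal.ofReal (1 / L ^ 4) + ENNReal.ofReal (1 / L ^ 4) :=
        add_le_add hvol (hgr.trans h5)
    _ = ENNReal.ofReal (2 / L ^ 4) := by
        rw [← ENNReal.ofReal_add (by positivity) (by positivity)]
        congr 1
        ring

/-- pairs between two disjoint sets -/
def bvprs (A B : Finset (Fin n)) : Finset (Sym2 (Fin n)) :=
  (A ×ˢ B).image fun q : Fin n × Fin n => s(q.1, q.2)

theorem bvprs_card {A B : Finset (Fin n)} (h : Disjoint A B) :
    (bvprs A B).card = A.card * B.card := by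
  rw [bvprs, Finset.card_image_of_injOn, Finset.card_product]
  rintro ⟨a, b⟩ hab ⟨a', b'⟩ hab' heq
  have hab1 := Finset.mem_product.1 hab
  have hab1' := Finset.mem_product.1 hab'
  rcases Sym2.eq_iff.1 heq with ⟨h1, h2⟩ | ⟨h1, h2⟩
  · exact Prod.ext h1 h2
  · exfalso
    simp only at h1 h2 hab1 hab1'
    exact Finset.disjoint_left.1 h hab1.1 (h1 ▸ hab1'.2)

theorem mem_bvprs {A B : Finset (Fin n)} {e : Sym2 (Fin n)} :
    e ∈ bvprs A B ↔ ∃ a ∈ A, ∃ b ∈ B, s(a, b) = e := by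
  simp only [bvprs, Finset.mem_image, Finset.mem_product, Prod.exists]
  constructor
  · rintro ⟨a, b, ⟨h1, h2⟩, h3⟩
    exact ⟨a, h1, b, h2, h3⟩
  · rintro ⟨a, h1, b, h2, h3⟩
    exact ⟨a, b, ⟨h1, h2⟩, h3⟩

theorem Gr_mono' {ω : Env n} {p p' : ℝ} (h : p ≤ p') : Gr ω p ≤ Gr ω p' := by
  intro i j hij
  exact ⟨hij.1, hij.2.trans h⟩

/-- the final numerical estimate of `connect` -/
theorem bv_num {n : ℕ} (hn : 0 < n) {c A₂ δ D : ℝ} (hA : 0 < A₂) (hδ : 0 < δ)
    (hD : D = 1 + 1.2 * A₂) (hL : 20 ≤ Real.log n)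
    (h9 : 20000 * D ^ 4 * Real.log n ^ 9 ≤ (n : ℝ) ^ (3 * c)) (hR : Rng n c A₂ δ)
    (hq : 0.2 * δ / n ≤ 1) :
    (n : ℝ) ^ 2 * (1 - 0.2 * δ / n) ^ ⌊thr n δ ^ 2⌋₊ ≤ 1 / Real.log n ^ 4 := by
  have hn' : (0 : ℝ) < n := by exact_mod_cast hn
  set L := Real.log n with hLdef
  have hDpos : 0 < D := by rw [hD]; positivity
  have hL0 : 0 < L := by linarith
  have hδA : δ ≤ A₂ * L := hR.2
  have hDL' : 1 + δ ≤ D * L := by nlinarith
  have hcube : (n : ℝ) ^ (3 * c) ≤ δ ^ 3 * n := by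
    have h3 : ((n : ℝ) ^ (-(1 / 3 : ℝ) + c)) ^ 3 ≤ δ ^ 3 := by
      have := hR.1
      gcongr
    have h4 : ((n : ℝ) ^ (-(1 / 3 : ℝ) + c)) ^ 3 * n = (n : ℝ) ^ (3 * c) := by
      rw [← Real.rpow_natCast, ← Real.rpow_mul hn'.le]
      nth_rewrite 2 [← Real.rpow_one (n : ℝ)]
      rw [← Real.rpow_add hn']
      congr 1
      push_cast
      ring
    rw [← h4]
    gcongr
  have hthr : δ * n / (20 * (D * L) ^ 2) ≤ thr n δ := by
    rw [thr]
    gcongr
  set m := ⌊thr n δ ^ 2⌋₊ with hm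
  have hm1 : thr n δ ^ 2 - 1 ≤ m := by
    have := Nat.lt_floor_add_one (thr n δ ^ 2)
    linarith
  have h1 : (1 - 0.2 * δ / n) ^ m ≤ Real.exp (-(0.2 * δ / n * m)) := by
    have h2 : (1 - 0.2 * δ / n) ≤ Real.exp (-(0.2 * δ / n)) := by
      have := Real.add_one_le_exp (-(0.2 * δ / n))
      linarith
    calc (1 - 0.2 * δ / n) ^ m ≤ Real.exp (-(0.2 * δ / n)) ^ m := by
          have : 0 ≤ 1 - 0.2 * δ / n := by linarith
          gcongr
      _ = Real.exp (-(0.2 * δ / n * m)) := by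
          rw [← Real.exp_nat_mul]
          congr 1
          ring
  have h2 : 10 * L - 1 ≤ 0.2 * δ / n * m := by
    have h3 : 0.2 * δ / n * (thr n δ ^ 2 - 1) ≤ 0.2 * δ / n * m := by gcongr
    have h4 : 10 * L ≤ 0.2 * δ / n * thr n δ ^ 2 := by
      calc 10 * L ≤ 0.2 * δ / n * (δ * n / (20 * (D * L) ^ 2)) ^ 2 := by
            have h5 : 0.2 * δ / n * (δ * n / (20 * (D * L) ^ 2)) ^ 2 =
                δ ^ 3 * n / (2000 * D ^ 4 * L ^ 4) := by
              field_simp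
              norm_num
            rw [h5, le_div_iff₀ (by positivity)]
            calc 10 * L * (2000 * D ^ 4 * L ^ 4) = 20000 * D ^ 4 * L ^ 5 := by ring
              _ ≤ 20000 * D ^ 4 * L ^ 9 := by
                  have : L ^ 5 ≤ L ^ 9 := pow_le_pow_right₀ (by linarith) (by norm_num)
                  gcongr
              _ ≤ δ ^ 3 * n := h9.trans hcube
        _ ≤ 0.2 * δ / n * thr n δ ^ 2 := by gcongr
    have h6 : 0.2 * δ / n * (thr n δ ^ 2 - 1) = 0.2 * δ / n * thr n δ ^ 2 - 0.2 * δ / n := by ring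
    linarith
  have h4 : L ^ 4 ≤ 24 * Real.exp L := by
    have := Real.pow_div_factorial_le_exp L hL0.le 4
    have h5 : (Nat.factorial 4 : ℝ) = 24 := by norm_num [Nat.factorial]
    rw [h5, div_le_iff₀ (by norm_num)] at this
    linarith
  have h24 : (24 : ℝ) ≤ Real.exp 5 := by
    have h' : (2.7 : ℝ) ≤ Real.exp 1 := by
      have := Real.exp_one_gt_d9
      linarith
    calc (24 : ℝ) ≤ 2.7 ^ 5 := by norm_num
      _ ≤ Real.exp 1 ^ 5 := by gcongr
      _ = Real.exp 5 := by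
          rw [← Real.exp_nat_mul]
          norm_num
  rw [le_div_iff₀ (by positivity)]
  have h3 : (n : ℝ) = Real.exp L := by rw [hLdef, Real.exp_log hn']
  have h8 : 0 ≤ (1 - 0.2 * δ / n) ^ m := by
    apply pow_nonneg
    linarith
  have h7 : (1 - 0.2 * δ / n) ^ m ≤ Real.exp (-(10 * L - 1)) := by
    refine h1.trans ?_
    gcongr
  calc (n : ℝ) ^ 2 * (1 - 0.2 * δ / n) ^ m * L ^ 4 ≤
        Real.exp L ^ 2 * Real.exp (-(10 * L - 1)) * (24 * Real.exp L) := by
        rw [← h3]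
        gcongr
        rw [h3]
        exact h4
    _ ≤ Real.exp L ^ 2 * Real.exp (-(10 * L - 1)) * (Real.exp 5 * Real.exp L) := by gcongr
    _ = Real.exp (L + L + -(10 * L - 1) + (5 + L)) := by
        rw [Real.exp_add, Real.exp_add, Real.exp_add L L, Real.exp_add 5 L]
        ring
    _ ≤ 1 := by
        rw [Real.exp_le_one_iff]
        linarith

/-- **connection** -/
theorem connect (c A₂ : ℝ) (hc : 0 < c) (hc1 : c ≤ 1 / 3) (hA : 0 < A₂) :
    ∃ n₀ : ℕ, ∀ n ≥ n₀, ∀ δ, Rng n c A₂ δ →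
      mu n {ω | ¬ ∀ x ∈ bigC (Gr ω ((1 + δ) / n)) (thr n δ),
        ∀ y ∈ bigC (Gr ω ((1 + δ) / n)) (thr n δ),
        ∃ w : (Gr ω ((1 + 1.2 * δ) / n)).Walk x y,
          (w.length : ℝ) ≤ Real.log n ^ 3 / db δ} ≤
        ENNReal.ofReal (3 / Real.log n ^ 4) := by
  obtain ⟨n₁, h₁⟩ := ball_big c A₂ hc hc1 hA
  obtain ⟨n₂, h₂⟩ := bv_asym c A₂ (20000 * (1 + 1.2 * A₂) ^ 4) hc
  refine ⟨max n₁ n₂, fun n hn δ hR => ?_⟩
  obtain ⟨hL, hlog, h9, hn2⟩ := h₂ n (le_trans (le_max_right _ _) hn)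
  have hbig := h₁ n (le_trans (le_max_left _ _) hn) δ hR
  have hnpos : 0 < n := by omega
  have hn' : (0 : ℝ) < n := by exact_mod_cast hnpos
  have hδ : 0 < δ := lt_of_lt_of_le (Real.rpow_pos_of_pos hn' _) hR.1
  set p := (1 + δ) / (n : ℝ) with hp
  set p' := (1 + 1.2 * δ) / (n : ℝ) with hp'
  set L := Real.log n with hLdef
  have hL0 : 0 < L := by linarith
  have hp0 : 0 ≤ p := by positivity
  have hpp : p ≤ p' := by
    rw [hp, hp']
    gcongr
    linarith
  have hp'1 : p' < 1 := by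
    rw [hp', div_lt_one hn']
    have := hR.2
    nlinarith
  have hdiff : p' - p = 0.2 * δ / n := by
    rw [hp, hp']
    field_simp
    ring
  have hdb : 0 < db δ := lt_min hδ one_pos
  have hdb1 : db δ ≤ 1 := min_le_right _ _
  have hthr0 : 0 < thr n δ := by
    rw [thr]
    positivity
  set r := ⌈2 * L ^ 2 / db δ⌉₊ with hr
  have hr1 : 2 * L ^ 2 / db δ ≤ r := Nat.le_ceil _
  have hr2 : (r : ℝ) < 2 * L ^ 2 / db δ + 1 := Nat.ceil_lt_add_one (by positivity)
  have hr3 : 2 * (r : ℝ) + 1 ≤ L ^ 3 / db δ := by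
    have h1 : 2 * (r : ℝ) + 1 ≤ 4 * L ^ 2 / db δ + 3 := by
      have : 4 * L ^ 2 / db δ = 2 * (2 * L ^ 2 / db δ) := by ring
      linarith
    refine h1.trans ?_
    rw [← sub_nonneg]
    have h2 : L ^ 3 / db δ - (4 * L ^ 2 / db δ + 3) = (L ^ 3 - 4 * L ^ 2 - 3 * db δ) / db δ := by
      field_simp
      ring
    rw [h2]
    apply div_nonneg _ hdb.le
    nlinarith [sq_nonneg L]
  -- the events
  let EE' : Fin n → Fin n → SimpleGraph (Fin n) → Prop := fun x y H =>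
    Disjoint (bl H x r) (bl H y r) ∧ thr n δ < ((bl H x r).card : ℝ) ∧
      thr n δ < ((bl H y r).card : ℝ) ∧ ∀ a ∈ bl H x r, ∀ b ∈ bl H y r, ¬ H.Adj a b
  let KK : Fin n → Fin n → SimpleGraph (Fin n) → Finset (Sym2 (Fin n)) := fun x y H =>
    bvprs (bl H x r) (bl H y r)
  set m := ⌊thr n δ ^ 2⌋₊ with hm
  have hK : ∀ x y H, EE' x y H → m ≤ (KK x y H).card ∧
      ∀ e ∈ KK x y H, ¬ e.IsDiag ∧ e ∉ H.edgeSet := by
    rintro x y H ⟨h1, h2, h3, h4⟩
    refine ⟨?_, ?_⟩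
    · show m ≤ (bvprs (bl H x r) (bl H y r)).card
      rw [bvprs_card h1]
      have h5 : (m : ℝ) ≤ thr n δ ^ 2 := Nat.floor_le (by positivity)
      have h6 : thr n δ ^ 2 ≤ ((bl H x r).card : ℝ) * ((bl H y r).card : ℝ) := by
        rw [sq]
        gcongr
      have h7 : (m : ℝ) ≤ (((bl H x r).card * (bl H y r).card : ℕ) : ℝ) := by
        push_cast
        linarith
      exact_mod_cast h7
    · intro e he
      obtain ⟨a, ha, b, hb, rfl⟩ := mem_bvprs.1 he
      refine ⟨?_, ?_⟩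
      · rw [Sym2.mk_isDiag_iff]
        rintro rfl
        exact Finset.disjoint_left.1 h1 ha hb
      · rw [SimpleGraph.mem_edgeSet]
        exact h4 a ha b hb
  have hsl : ∀ x y, mu n {ω | EE' x y (Gr ω p) ∧ ∀ e ∈ KK x y (Gr ω p), p' < ω e} ≤
      ENNReal.ofReal ((1 - (p' - p)) ^ m) := fun x y =>
    slice hp0 hpp hp'1 m (EE' x y) (KK x y) (hK x y)
  have hincl : {ω : Env n | ¬ ∀ x ∈ bigC (Gr ω p) (thr n δ), ∀ y ∈ bigC (Gr ω p) (thr n δ),
        ∃ w : (Gr ω p').Walk x y, (w.length : ℝ) ≤ L ^ 3 / db δ} ⊆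
      {ω | ∃ x ∈ bigC (Gr ω p) (thr n δ), ∃ r : ℕ, 2 * L ^ 2 / db δ ≤ r ∧
        ((bl (Gr ω p) x r).card : ℝ) ≤ thr n δ} ∪
      ⋃ q ∈ (Finset.univ : Finset (Fin n × Fin n)),
        {ω | EE' q.1 q.2 (Gr ω p) ∧ ∀ e ∈ KK q.1 q.2 (Gr ω p), p' < ω e} := by
    intro ω hω
    simp only [Set.mem_ofPred_eq] at hω
    push Not at hω
    obtain ⟨x, hx, y, hy, hw⟩ := hω
    by_cases hA1 : ((bl (Gr ω p) x r).card : ℝ) ≤ thr n δ
    · left
      exact ⟨x, hx, r, hr1, hA1⟩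
    by_cases hA2 : ((bl (Gr ω p) y r).card : ℝ) ≤ thr n δ
    · left
      exact ⟨y, hy, r, hr1, hA2⟩
    rw [not_le] at hA1 hA2
    right
    simp only [Set.mem_iUnion]
    refine ⟨(x, y), Finset.mem_univ _, ?_⟩
    have hle := Gr_mono' (ω := ω) hpp
    have hdis : Disjoint (bl (Gr ω p) x r) (bl (Gr ω p) y r) := by
      rw [Finset.disjoint_left]
      intro z hz1 hz2
      obtain ⟨w1, hw1⟩ := mem_bl.1 hz1
      obtain ⟨w2, hw2⟩ := mem_bl.1 hz2
      have h1 := hw ((w1.append w2.reverse).mapLe hle)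
      rw [SimpleGraph.Walk.length_map, SimpleGraph.Walk.length_append,
        SimpleGraph.Walk.length_reverse] at h1
      have h2 : ((w1.length + w2.length : ℕ) : ℝ) ≤ 2 * r := by
        push_cast
        have h3 : (w1.length : ℝ) ≤ r := by exact_mod_cast hw1
        have h4 : (w2.length : ℝ) ≤ r := by exact_mod_cast hw2
        linarith
      linarith
    have hno : ∀ a ∈ bl (Gr ω p) x r, ∀ b ∈ bl (Gr ω p) y r, ¬ (Gr ω p').Adj a b := by
      intro a ha b hb hadj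
      obtain ⟨w1, hw1⟩ := mem_bl.1 ha
      obtain ⟨w2, hw2⟩ := mem_bl.1 hb
      have h1 := hw (((w1.mapLe hle).concat hadj).append (w2.reverse.mapLe hle))
      rw [SimpleGraph.Walk.length_append, SimpleGraph.Walk.length_concat,
        SimpleGraph.Walk.length_map, SimpleGraph.Walk.length_map,
        SimpleGraph.Walk.length_reverse] at h1
      have h2 : ((w1.length + 1 + w2.length : ℕ) : ℝ) ≤ 2 * r + 1 := by
        push_cast
        have h3 : (w1.length : ℝ) ≤ r := by exact_mod_cast hw1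
        have h4 : (w2.length : ℝ) ≤ r := by exact_mod_cast hw2
        linarith
      linarith
    refine ⟨⟨hdis, hA1, hA2, fun a ha b hb hadj => hno a ha b hb (hle hadj)⟩, ?_⟩
    intro e he
    obtain ⟨a, ha, b, hb, rfl⟩ := mem_bvprs.1 he
    by_contra hcon
    rw [not_lt] at hcon
    refine hno a ha b hb ⟨?_, hcon⟩
    rintro rfl
    exact Finset.disjoint_left.1 hdis ha hb
  refine (measure_mono hincl).trans ((measure_union_le _ _).trans ?_)
  have hq : 0.2 * δ / n ≤ 1 := by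
    rw [← hdiff]
    linarith
  have hnum := bv_num hnpos hA hδ rfl hL h9 hR hq
  have hsum : mu n (⋃ q ∈ (Finset.univ : Finset (Fin n × Fin n)),
        {ω | EE' q.1 q.2 (Gr ω p) ∧ ∀ e ∈ KK q.1 q.2 (Gr ω p), p' < ω e}) ≤
      ENNReal.ofReal (1 / L ^ 4) := by
    refine (measure_biUnion_finset_le _ _).trans ?_
    calc ∑ q ∈ (Finset.univ : Finset (Fin n × Fin n)),
          mu n {ω | EE' q.1 q.2 (Gr ω p) ∧ ∀ e ∈ KK q.1 q.2 (Gr ω p), p' < ω e} ≤
        ∑ _q ∈ (Finset.univ : Finset (Fin n × Fin n)),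
          ENNReal.ofReal ((1 - (p' - p)) ^ m) := Finset.sum_le_sum fun q _ => hsl q.1 q.2
      _ = ENNReal.ofReal ((n : ℝ) ^ 2 * (1 - 0.2 * δ / n) ^ m) := by
          rw [Finset.sum_const, Finset.card_univ, Fintype.card_prod, Fintype.card_fin, hdiff,
            nsmul_eq_mul, ENNReal.ofReal_mul (by positivity)]
          congr 1
          rw [show ((n : ℝ) ^ 2) = (((n * n : ℕ)) : ℝ) by push_cast; ring]
          rw [ENNReal.ofReal_natCast]
      _ ≤ ENNReal.ofReal (1 / L ^ 4) := ENNReal.ofReal_le_ofReal hnum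
  calc _ ≤ ENNReal.ofReal (2 / L ^ 4) + ENNReal.ofReal (1 / L ^ 4) := add_le_add hbig hsum
    _ = ENNReal.ofReal (3 / L ^ 4) := by
        rw [← ENNReal.ofReal_add (by positivity) (by positivity)]
        congr 1
        ring

end RST
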