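import Pool.Agent.Work.MP_5ba30e_pr.Defs

/-!
# Meas : a function which only depends on finitely many level graphs is measurable

Proof: `ω ↦ Gr ω p` takes finitely many values, `{ω | Gr ω p = H}` is the set of the `ω` with
`ω s(i,j) ≤ p ↔ H.Adj i j` for all `i ≠ j`, a finite intersection of measurable sets.
-/

open MeasureTheory Set Filter Finset
open scoped ENNReal Topology Classical

noncomputable section

namespace RST

variable {n : ℕ}

/-- `F ω` only depends on the graphs `Gr ω p`, `p ∈ P`, for a finite set `P` -/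
def LevDep {X : Type*} (F : Env n → X) : Prop :=
  ∃ P : Finset ℝ, ∀ ω ω' : Env n, (∀ p ∈ P, Gr ω p = Gr ω' p) → F ω = F ω'

theorem measurableSet_Gr_eq (p : ℝ) (K : SimpleGraph (Fin n)) :
    MeasurableSet {ω : Env n | Gr ω p = K} := by
  have h1 : {ω : Env n | Gr ω p = K} =
      ⋂ i, ⋂ j, {ω : Env n | (i ≠ j ∧ ω s(i, j) ≤ p) ↔ K.Adj i j} := by
    ext ω
    simp only [Set.mem_iInter, Set.mem_ofPred_eq]
    constructor
    · rintro rfl i j
      rfl
    · intro h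
      ext i j
      exact h i j
  rw [h1]
  refine MeasurableSet.iInter fun i => MeasurableSet.iInter fun j => ?_
  have h2 : MeasurableSet {ω : Env n | i ≠ j ∧ ω s(i, j) ≤ p} :=
    (MeasurableSet.const (i ≠ j)).inter
      (measurableSet_le (measurable_pi_apply _) measurable_const)
  by_cases hK : K.Adj i j
  · have h3 : {ω : Env n | (i ≠ j ∧ ω s(i, j) ≤ p) ↔ K.Adj i j} =
        {ω : Env n | i ≠ j ∧ ω s(i, j) ≤ p} := by
      ext ω
      simp only [Set.mem_ofPred_eq, hK, iff_true]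
    rw [h3]
    exact h2
  · have h3 : {ω : Env n | (i ≠ j ∧ ω s(i, j) ≤ p) ↔ K.Adj i j} =
        {ω : Env n | i ≠ j ∧ ω s(i, j) ≤ p}ᶜ := by
      ext ω
      simp only [Set.mem_ofPred_eq, hK, iff_false, Set.mem_compl_iff]
    rw [h3]
    exact h2.compl

theorem LevDep.measurable {X : Type*} [MeasurableSpace X] {F : Env n → X} (h : LevDep F) :
    Measurable F := by
  obtain ⟨P, hP⟩ := h
  intro s _
  have h1 : F ⁻¹' s = ⋃ H : P → SimpleGraph (Fin n),
      ⋃ (_ : ∃ ω, (∀ p : P, Gr ω p = H p) ∧ F ω ∈ s), ⋂ p : P, {ω : Env n | Gr ω p = H p} := by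
    ext ω
    simp only [Set.mem_preimage, Set.mem_iUnion, Set.mem_iInter, Set.mem_ofPred_eq]
    constructor
    · intro hω
      exact ⟨fun p => Gr ω p, ⟨ω, fun p => rfl, hω⟩, fun p => rfl⟩
    · rintro ⟨H, ⟨ω', h1, h2⟩, h3⟩
      rw [hP ω ω' fun p hp => (h3 ⟨p, hp⟩).trans (h1 ⟨p, hp⟩).symm]
      exact h2
  rw [h1]
  refine MeasurableSet.iUnion fun H => MeasurableSet.iUnion fun _ => MeasurableSet.iInter fun p => ?_
  exact measurableSet_Gr_eq _ _

theorem LevDep.measurableSet {F : Env n → Prop} (h : LevDep F) : MeasurableSet {ω | F ω} :=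
  measurableSet_setOfPred.2 h.measurable

theorem LevDep.const {X : Type*} (x : X) : LevDep (fun _ : Env n => x) :=
  ⟨∅, fun _ _ _ => rfl⟩

theorem LevDep.gr (p : ℝ) : LevDep (fun ω : Env n => Gr ω p) :=
  ⟨{p}, fun _ _ h => h p (Finset.mem_singleton_self p)⟩

theorem LevDep.comp {X Y : Type*} {F : Env n → X} (h : LevDep F) (g : X → Y) :
    LevDep (fun ω => g (F ω)) := by
  obtain ⟨P, hP⟩ := h
  exact ⟨P, fun ω ω' h => congrArg g (hP ω ω' h)⟩

theorem LevDep.comp₂ {X Y Z : Type*} {F : Env n → X} {G : Env n → Y} (hF : LevDep F)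
    (hG : LevDep G) (g : X → Y → Z) : LevDep (fun ω => g (F ω) (G ω)) := by
  obtain ⟨P, hP⟩ := hF
  obtain ⟨P', hP'⟩ := hG
  refine ⟨P ∪ P', fun ω ω' h => ?_⟩
  show g (F ω) (G ω) = g (F ω') (G ω')
  rw [hP ω ω' fun p hp => h p (Finset.mem_union_left _ hp),
    hP' ω ω' fun p hp => h p (Finset.mem_union_right _ hp)]

/-- finite families -/
theorem LevDep.pi {ι : Type*} [Finite ι] {X : ι → Type*} {F : ∀ i, Env n → X i}
    (h : ∀ i, LevDep (F i)) : LevDep (fun ω i => F i ω) := by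
  choose P hP using h
  have := Fintype.ofFinite ι
  refine ⟨Finset.univ.biUnion P, fun ω ω' h => ?_⟩
  funext i
  exact hP i ω ω' fun p hp => h p (Finset.mem_biUnion.2 ⟨i, Finset.mem_univ _, hp⟩)

theorem LevDep.and {F G : Env n → Prop} (hF : LevDep F) (hG : LevDep G) :
    LevDep (fun ω => F ω ∧ G ω) :=
  hF.comp₂ hG fun a b => a ∧ b

theorem LevDep.forall {ι : Type*} [Finite ι] {F : ι → Env n → Prop} (h : ∀ i, LevDep (F i)) :
    LevDep (fun ω => ∀ i, F i ω) :=
  (LevDep.pi h).comp fun a => ∀ i, a i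

theorem LevDep.exists {ι : Type*} [Finite ι] {F : ι → Env n → Prop} (h : ∀ i, LevDep (F i)) :
    LevDep (fun ω => ∃ i, F i ω) :=
  (LevDep.pi h).comp fun a => ∃ i, a i

/-- comparison of values with a level, from the graphs -/
theorem lt_iff_of_Gr {ω ω' : Env n} {p : ℝ} (h : Gr ω p = Gr ω' p) {e : Sym2 (Fin n)}
    (he : ¬ e.IsDiag) : p < ω e ↔ p < ω' e := by
  induction e with
  | _ i j =>
    rw [Sym2.mk_isDiag_iff] at he
    have h1 : (Gr ω p).Adj i j ↔ (Gr ω' p).Adj i j := by rw [h]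
    simp only [Gr, ne_eq, he, not_false_eq_true, true_and] at h1
    rw [← not_le, ← not_le, h1]

/-- the value of an edge compared with a level -/
theorem LevDep.lt {e : Sym2 (Fin n)} (he : ¬ e.IsDiag) (p : ℝ) :
    LevDep (fun ω : Env n => p < ω e) :=
  ⟨{p}, fun _ _ h => propext (lt_iff_of_Gr (h p (Finset.mem_singleton_self p)) he)⟩

theorem LevDep.CC (δ₀ : ℝ) (j : ℕ) : LevDep (fun ω : Env n => CC δ₀ j ω) :=
  (LevDep.gr (pl n δ₀ j)).comp fun G => bigC G (thr n (dl δ₀ j))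

theorem cntW_congr {ω ω' : Env n} {p : ℝ} (h : Gr ω p = Gr ω' p) {G : SimpleGraph (Fin n)}
    {u v : Fin n} (w : G.Walk u v) : cntW ω p w = cntW ω' p w := by
  rw [cntW, cntW]
  congr 1
  apply List.filter_congr
  intro e he
  have h1 : ¬ e.IsDiag := G.not_isDiag_of_mem_edgeSet (w.edges_subset_edgeSet he)
  simp only [lt_iff_of_Gr h h1]

theorem goodEnv_mono (β δ₀ Q : ℝ) (J jX : ℕ) {ω ω' : Env n}
    (h1 : ∀ j ≤ J, Gr ω (pl n δ₀ j) = Gr ω' (pl n δ₀ j))
    (h2 : ∀ j ≤ J, Gr ω (pl n δ₀ j - 2 * Real.log n / β) =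
      Gr ω' (pl n δ₀ j - 2 * Real.log n / β))
    (h3 : Gr ω (pmin n δ₀) = Gr ω' (pmin n δ₀))
    (h4 : Gr ω (pl n δ₀ jX) = Gr ω' (pl n δ₀ jX))
    (h : GoodEnv β δ₀ Q J jX ω) : GoodEnv β δ₀ Q J jX ω' := by
  have hC : ∀ j ≤ J, RST.CC δ₀ j ω = RST.CC δ₀ j ω' := by
    intro j hj
    rw [RST.CC, RST.CC, h1 j hj]
  refine ⟨?_, ?_, ?_, ?_, ?_, ?_, ?_, ?_, ?_, ?_⟩
  · intro j hj
    rw [← hC j hj.le, ← hC (j + 1) hj]
    exact h.mono j hj
  · rw [← hC J le_rfl]
    exact h.full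
  · rw [← hC 0 (Nat.zero_le _)]
    exact h.low
  · intro j hj
    rw [← hC j hj]
    exact h.upp j hj
  · intro j hj
    rw [← hC j hj.le, ← h1 (j + 1) hj]
    exact h.path j hj
  · intro j hj x hx y hy
    rw [← hC j hj] at hx hy
    have h5 := h.conn j hj x hx y hy
    rw [h1 j hj] at h5
    obtain ⟨w, h6, h7, h8⟩ := h5
    refine ⟨w, h6, h7, ?_⟩
    rwa [cntW_congr (h2 j hj)] at h8
  · intro x
    rw [← h1 J le_rfl]
    exact h.deg x
  · have h5 := h.subp
    rw [h3] at h5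
    exact h5
  · intro v
    rw [← h3]
    exact h.subc v
  · intro u v w hw
    have h5 := h.cnt
    rw [h4] at h5
    have h6 := h5 u v w hw
    rwa [cntW_congr h3] at h6

/-- hint: the conditions of `GoodEnv` are quantified over infinitely many walks; but the whole
condition is a function of the graphs `Gr ω p` for the levels `pl n δ₀ j` (`j ≤ J`),
`pl n δ₀ j - 2 log n / β`, `pmin n δ₀`, `pl n δ₀ jX`, and the sets `CC δ₀ j ω`: prove directly
that `GoodEnv` at `ω` implies `GoodEnv` at `ω'` if these graphs are equal (transport of walks along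
an equality of graphs keeps the edges; `p < ω e ↔ ¬ (Gr ω p).Adj` for an edge `e` of a walk). -/
theorem LevDep.goodEnv (β δ₀ Q : ℝ) (J jX : ℕ) :
    LevDep (fun ω : Env n => GoodEnv β δ₀ Q J jX ω) := by
  refine ⟨(Finset.range (J + 1)).image (fun j => pl n δ₀ j) ∪
    (Finset.range (J + 1)).image (fun j => pl n δ₀ j - 2 * Real.log n / β) ∪
    {pmin n δ₀, pl n δ₀ jX}, fun ω ω' h => ?_⟩
  have h1 : ∀ j ≤ J, Gr ω (pl n δ₀ j) = Gr ω' (pl n δ₀ j) := fun j hj => h _ (by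
    simp only [Finset.mem_union, Finset.mem_image, Finset.mem_range]
    exact Or.inl (Or.inl ⟨j, by omega, rfl⟩))
  have h2 : ∀ j ≤ J, Gr ω (pl n δ₀ j - 2 * Real.log n / β) =
      Gr ω' (pl n δ₀ j - 2 * Real.log n / β) := fun j hj => h _ (by
    simp only [Finset.mem_union, Finset.mem_image, Finset.mem_range]
    exact Or.inl (Or.inr ⟨j, by omega, rfl⟩))
  have h3 : Gr ω (pmin n δ₀) = Gr ω' (pmin n δ₀) := h _ (by simp)
  have h4 : Gr ω (pl n δ₀ jX) = Gr ω' (pl n δ₀ jX) := h _ (by simp)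
  exact propext ⟨goodEnv_mono β δ₀ Q J jX h1 h2 h3 h4,
    goodEnv_mono β δ₀ Q J jX (fun j hj => (h1 j hj).symm) (fun j hj => (h2 j hj).symm) h3.symm
      h4.symm⟩

end RST
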