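import Pool.Agent.Work.MP_5ba30e_pr.Defs

/-!
# Inv : components of the level graphs after the exchange of two values
-/

open MeasureTheory Set Filter Finset
open scoped ENNReal Topology Classical

noncomputable section

namespace RST

variable {n : ℕ}

theorem comp_congr {G G' : SimpleGraph (Fin n)} (h : ∀ u v, G.Reachable u v ↔ G'.Reachable u v)
    (v : Fin n) : comp G v = comp G' v := by
  ext u
  simp [comp, h]

theorem bigC_congr {G G' : SimpleGraph (Fin n)} (h : ∀ u v, G.Reachable u v ↔ G'.Reachable u v)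
    (τ : ℝ) : bigC G τ = bigC G' τ := by
  unfold bigC
  simp_rw [comp_congr h]

theorem reach_of_edges {G G' : SimpleGraph (Fin n)} (h : ∀ a b, G.Adj a b → G'.Reachable a b)
    {u v : Fin n} (huv : G.Reachable u v) : G'.Reachable u v := by
  obtain ⟨w⟩ := huv
  induction w with
  | nil => exact SimpleGraph.Reachable.refl _
  | cons hadj _ ih => exact (h _ _ hadj).trans ih

theorem Gr_adj {ω : Env n} {r : ℝ} {a b : Fin n} :
    (Gr ω r).Adj a b ↔ a ≠ b ∧ ω s(a, b) ≤ r := Iff.rfl

theorem Gr_mono {ω : Env n} {r r' : ℝ} (h : r ≤ r') : Gr ω r ≤ Gr ω r' :=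
  fun _ _ hab => ⟨hab.1, hab.2.trans h⟩

theorem sw_left (f e : Sym2 (Fin n)) (ω : Env n) : sw f e ω f = ω e := by simp [sw]

theorem sw_right (f e : Sym2 (Fin n)) (ω : Env n) : sw f e ω e = ω f := by simp [sw]

theorem sw_other {f e g : Sym2 (Fin n)} (hf : g ≠ f) (he : g ≠ e) (ω : Env n) :
    sw f e ω g = ω g := by simp [sw, Equiv.swap_apply_of_ne_of_ne hf he]

theorem inv_sw_sw (f e : Sym2 (Fin n)) (ω : Env n) : sw f e (sw f e ω) = ω := by
  funext g
  simp [sw]

/-- exchange of two edges whose values are both `≤ r` or both `> r` : same graph -/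
theorem Gr_sw_of_iff {ω : Env n} {e f : Sym2 (Fin n)} {r : ℝ} (h : ω e ≤ r ↔ ω f ≤ r) :
    Gr (sw f e ω) r = Gr ω r := by
  ext a b
  rw [Gr_adj, Gr_adj]
  by_cases h1 : s(a, b) = f
  · rw [h1, sw_left, h]
  · by_cases h2 : s(a, b) = e
    · rw [h2, sw_right, h]
    · rw [sw_other h1 h2]

/-- relocation: both values are `> r₀`, and `q`, `q'` are connected at the level `r₀`; then the
components are the same at every level.  (If `r ≤ r₀` the two edges are in none of the graphs and
the graphs are equal; if `r > r₀`... more exactly if `r < ω f, ω e` the graphs are equal; if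
`r ≥ r₀` the edge `{p,q}` can be replaced by `{p,q'}` and a path of `Gr ω r₀` between `q` and `q'`,
which uses none of the two edges.) -/
theorem reach_reloc {ω : Env n} {p q q' : Fin n} {r₀ : ℝ} (hpq : p ≠ q) (hpq' : p ≠ q')
    (h1 : r₀ < ω s(p, q)) (h2 : r₀ < ω s(p, q')) (hc : (Gr ω r₀).Reachable q q') (r : ℝ)
    (u v : Fin n) :
    (Gr (sw s(p, q) s(p, q') ω) r).Reachable u v ↔ (Gr ω r).Reachable u v := by
  -- one direction, for all environments
  have key : ∀ ω : Env n, r₀ < ω s(p, q) → r₀ < ω s(p, q') → (Gr ω r₀).Reachable q q' →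
      (Gr ω r).Reachable u v → (Gr (sw s(p, q) s(p, q') ω) r).Reachable u v := by
    intro ω h1 h2 hc huv
    have hGr : Gr (sw s(p, q) s(p, q') ω) r₀ = Gr ω r₀ :=
      Gr_sw_of_iff ⟨fun h => absurd h (not_le.2 h2), fun h => absurd h (not_le.2 h1)⟩
    have hcc : ∀ {r' : ℝ}, r₀ ≤ r' → (Gr (sw s(p, q) s(p, q') ω) r').Reachable q q' := by
      intro r' hr'
      refine SimpleGraph.Reachable.mono (Gr_mono hr') ?_
      rw [hGr]; exact hc
    refine reach_of_edges ?_ huv
    intro a b hab
    rw [Gr_adj] at hab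
    by_cases e1 : s(a, b) = s(p, q)
    · have hr : r₀ ≤ r := by rw [e1] at hab; linarith
      have h3 : (Gr (sw s(p, q) s(p, q') ω) r).Adj p q' :=
        Gr_adj.2 ⟨hpq', by rw [sw_right, ← e1]; exact hab.2⟩
      have h4 : (Gr (sw s(p, q) s(p, q') ω) r).Reachable p q := h3.reachable.trans (hcc hr).symm
      rcases Sym2.eq_iff.1 e1 with ⟨rfl, rfl⟩ | ⟨rfl, rfl⟩
      · exact h4
      · exact h4.symm
    · by_cases e2 : s(a, b) = s(p, q')
      · have hr : r₀ ≤ r := by rw [e2] at hab; linarith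
        have h3 : (Gr (sw s(p, q) s(p, q') ω) r).Adj p q :=
          Gr_adj.2 ⟨hpq, by rw [sw_left, ← e2]; exact hab.2⟩
        have h4 : (Gr (sw s(p, q) s(p, q') ω) r).Reachable p q' := h3.reachable.trans (hcc hr)
        rcases Sym2.eq_iff.1 e2 with ⟨rfl, rfl⟩ | ⟨rfl, rfl⟩
        · exact h4
        · exact h4.symm
      · exact (Gr_adj.2 ⟨hab.1, by rw [sw_other e1 e2]; exact hab.2⟩ :
          (Gr (sw s(p, q) s(p, q') ω) r).Adj a b).reachable
  refine ⟨fun h => ?_, key ω h1 h2 hc⟩
  have hGr : Gr (sw s(p, q) s(p, q') ω) r₀ = Gr ω r₀ :=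
    Gr_sw_of_iff ⟨fun h => absurd h (not_le.2 h2), fun h => absurd h (not_le.2 h1)⟩
  have := key (sw s(p, q) s(p, q') ω) (by rw [sw_left]; exact h2) (by rw [sw_right]; exact h1)
    (by rw [hGr]; exact hc) h
  rwa [inv_sw_sw] at this

/-- exchange of `f = {a,b}` with `ω f ≤ r` and `e = {x,y}` with `r < ω e`, when `x` is connected
to `a` and `y` to `b` at the level `r` without the edge `f`: the components at the level `r` are
the same -/
theorem reach_move {ω : Env n} {a b x y : Fin n} {r : ℝ} (hxy : x ≠ y)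
    (h1 : ω s(a, b) ≤ r) (h2 : r < ω s(x, y))
    (hxa : ((Gr ω r).deleteEdges {s(a, b)}).Reachable x a)
    (hyb : ((Gr ω r).deleteEdges {s(a, b)}).Reachable y b) (u v : Fin n) :
    (Gr (sw s(a, b) s(x, y) ω) r).Reachable u v ↔ (Gr ω r).Reachable u v := by
  have hle : (Gr ω r).deleteEdges {s(a, b)} ≤ Gr ω r := SimpleGraph.deleteEdges_le _
  have hle' : (Gr ω r).deleteEdges {s(a, b)} ≤ Gr (sw s(a, b) s(x, y) ω) r := by
    intro c d hcd
    rw [SimpleGraph.deleteEdges_adj] at hcd
    obtain ⟨h3, h4⟩ := hcd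
    have h5 : s(c, d) ≠ s(a, b) := fun h => h4 (by rw [h]; exact Set.mem_singleton _)
    have h6 : s(c, d) ≠ s(x, y) := by
      intro h
      have := (Gr_adj.1 h3).2
      rw [h] at this
      linarith
    exact Gr_adj.2 ⟨h3.1, by rw [sw_other h5 h6]; exact h3.2⟩
  constructor
  · refine reach_of_edges ?_
    intro c d hcd
    rw [Gr_adj] at hcd
    by_cases e1 : s(c, d) = s(a, b)
    · exfalso
      have := hcd.2
      rw [e1, sw_left] at this
      linarith
    · by_cases e2 : s(c, d) = s(x, y)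
      · have hab : (Gr ω r).Reachable a b := by
          by_cases hab : a = b
          · rw [hab]
          · exact (Gr_adj.2 ⟨hab, h1⟩ : (Gr ω r).Adj a b).reachable
        have hxy' : (Gr ω r).Reachable x y :=
          ((hxa.mono hle).trans hab).trans (hyb.mono hle).symm
        rcases Sym2.eq_iff.1 e2 with ⟨rfl, rfl⟩ | ⟨rfl, rfl⟩
        · exact hxy'
        · exact hxy'.symm
      · exact (Gr_adj.2 ⟨hcd.1, by rw [← sw_other e1 e2 ω]; exact hcd.2⟩ :
          (Gr ω r).Adj c d).reachable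
  · refine reach_of_edges ?_
    intro c d hcd
    by_cases e1 : s(c, d) = s(a, b)
    · have hxy' : (Gr (sw s(a, b) s(x, y) ω) r).Adj x y :=
        Gr_adj.2 ⟨hxy, by rw [sw_right]; exact h1⟩
      have hab : (Gr (sw s(a, b) s(x, y) ω) r).Reachable a b :=
        ((hxa.mono hle').symm.trans hxy'.reachable).trans (hyb.mono hle')
      rcases Sym2.eq_iff.1 e1 with ⟨rfl, rfl⟩ | ⟨rfl, rfl⟩
      · exact hab
      · exact hab.symm
    · have : ((Gr ω r).deleteEdges {s(a, b)}).Adj c d := by
        rw [SimpleGraph.deleteEdges_adj]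
        exact ⟨hcd, fun h => e1 (Set.mem_singleton_iff.1 h)⟩
      exact (hle' this).reachable

/-- a union of components is closed: an edge which leaves it has a large value -/
theorem bigC_closed {ω : Env n} {r τ : ℝ} {p q : Fin n} (hq : q ∈ bigC (Gr ω r) τ)
    (hp : p ∉ bigC (Gr ω r) τ) : r < ω s(p, q) := by
  by_contra h
  push Not at h
  have hne : p ≠ q := fun e => hp (e ▸ hq)
  have hadj : (Gr ω r).Adj p q := Gr_adj.2 ⟨hne, h⟩
  apply hp
  have hc : comp (Gr ω r) p = comp (Gr ω r) q := by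
    ext u
    simp only [comp, Finset.mem_filter, Finset.mem_univ, true_and]
    exact ⟨fun h => hadj.reachable.symm.trans h, fun h => hadj.reachable.trans h⟩
  unfold bigC at hq ⊢
  rw [Finset.mem_filter] at hq ⊢
  exact ⟨Finset.mem_univ _, by rw [hc]; exact hq.2⟩

end RST
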