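import Pool.Agent.Work.MP_5ba30e_pr.TreeB
import Pool.Agent.Work.MP_5ba30e_pr.Inv

/-!
# Runs : the walk until the hook is a union of few runs

Proof of `hook_le_sum`. Let `u_i = dn T S z i`, `h = hook T S (CC δ₀ 0 ω) z`; for `i < h` the
vertex `u_i` is not in `CC 0`; `CC J = univ` (`full`) and the sets increase (`mono`), so
`[0,h)` is the disjoint union of the sets `I_j = {i < h : u_i ∈ CC (j+1) \ CC j}`, `j < J`.
Cut `I_j` into maximal runs of consecutive times such that in addition the edges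
`s(u_{i-1},u_i)` inside the run have value `≤ p_{j+1}`; a run is a path of `Gr ω p_{j+1}` which
avoids `CC j`, so it has at most `Q/db(δ_j) + 1` vertices (`path`, `dn_walk`).  A run starts at `i`
if `i = 0`, or (`i > 0`) `p_{j+1} < ω s(u_{i-1},u_i)`, or `u_{i-1} ∉ CC (j+1)`, or
`u_{i-1} ∈ CC j`.  If `p_{j+1} < ω s(u_{i-1},u_i)`: this is a landing counted by
`LN T S (CC 0) (CC (j+1)) p_{j+1} ω z`.  The case `u_{i-1} ∉ CC (j+1)`, `u_i ∈ CC (j+1)` is
included in it (`bigC_closed`).  In the last case the walk leaves `CC j`; the number of exits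
from `CC j` is at most `1 +` the number of entrances, and each entrance `u_{i-1} ∉ CC j`,
`u_i ∈ CC j` has value `> p_j` (`bigC_closed`): it is counted by `LN … (CC j) p_j`. So `I_j` has at
most `2 + LN_{j+1} + LN_j` runs.  (Formally one can prove, by induction on `m ≤ h`, that
`#(I_j ∩ [0,m)) ≤ (Q/db + 1) * (number of run starts in [0,m))`, etc.)
-/

open MeasureTheory Set Filter Finset
open scoped ENNReal Topology Classical

noncomputable section

namespace RST

variable {n : ℕ}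

theorem CC_mono {β δ₀ Q : ℝ} {J jX : ℕ} {ω : Env n} (h : GoodEnv β δ₀ Q J jX ω) {i j : ℕ}
    (hij : i ≤ j) (hj : j ≤ J) : CC δ₀ i ω ⊆ CC δ₀ j ω := by
  induction j, hij using Nat.le_induction with
  | base => exact Finset.Subset.refl _
  | succ m _ ih => exact (ih (by omega)).trans (h.mono m (by omega))

/-- every time of a run has a start -/
theorem runs_cover (P E : ℕ → Prop) : ∀ i, P i → ∃ i0, i0 ≤ i ∧
    (P i0 ∧ (i0 = 0 ∨ ¬ (P (i0 - 1) ∧ E (i0 - 1)))) ∧
    (∀ k, i0 ≤ k → k ≤ i → P k) ∧ ∀ k, i0 ≤ k → k < i → E k := by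
  intro i
  induction i with
  | zero =>
    intro h
    refine ⟨0, le_rfl, ⟨h, Or.inl rfl⟩, ?_, ?_⟩
    · intro k _ hk
      rwa [Nat.le_zero.1 hk]
    · intro k _ hk
      omega
  | succ i ih =>
    intro h
    by_cases h1 : P i ∧ E i
    · obtain ⟨i0, h2, h3, h4, h5⟩ := ih h1.1
      refine ⟨i0, by omega, h3, ?_, ?_⟩
      · intro k hk hk'
        rcases Nat.lt_or_ge i k with h6 | h6
        · have : k = i + 1 := by omega
          rwa [this]
        · exact h4 k hk h6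
      · intro k hk hk'
        rcases Nat.lt_or_ge k i with h6 | h6
        · exact h5 k hk h6
        · have : k = i := by omega
          rw [this]
          exact h1.2
    · refine ⟨i + 1, le_rfl, ⟨h, Or.inr ?_⟩, ?_, ?_⟩
      · rwa [Nat.add_sub_cancel]
      · intro k hk hk'
        rwa [le_antisymm hk' hk]
      · intro k hk hk'
        omega

/-- exits and entrances -/
theorem runs_exit (C : ℕ → Prop) (m : ℕ) :
    ((Finset.range m).filter fun k => C k ∧ ¬ C (k + 1)).card ≤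
      ((Finset.range m).filter fun k => ¬ C k ∧ C (k + 1)).card + 1 := by
  have key : ((Finset.range m).filter fun k => C k ∧ ¬ C (k + 1)).card + (if C m then 1 else 0) =
      ((Finset.range m).filter fun k => ¬ C k ∧ C (k + 1)).card + (if C 0 then 1 else 0) := by
    induction m with
    | zero => simp
    | succ m ih =>
      rw [Finset.range_add_one, Finset.filter_insert, Finset.filter_insert]
      by_cases h1 : C m <;> by_cases h2 : C (m + 1) <;> simp only [h1, h2, not_true, not_false_iff,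
        and_true, and_false, if_true, if_false] at ih ⊢
      · omega
      · rw [Finset.card_insert_of_notMem (by simp)]
        omega
      · rw [Finset.card_insert_of_notMem (by simp)]
        omega
      · omega
  have h0 : (if C 0 then 1 else 0) ≤ 1 := by split_ifs <;> omega
  omega

/-- the number of times in a family of runs of length at most `K + 1` -/
theorem runs_count (P E : ℕ → Prop) (h : ℕ) {K : ℝ} (hK : 0 ≤ K)
    (hlen : ∀ i0 i, i0 ≤ i → i < h → (∀ k, i0 ≤ k → k ≤ i → P k) →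
      (∀ k, i0 ≤ k → k < i → E k) → ((i - i0 : ℕ) : ℝ) ≤ K) :
    (((Finset.range h).filter P).card : ℝ) ≤
      (((Finset.range h).filter fun i => P i ∧ (i = 0 ∨ ¬ (P (i - 1) ∧ E (i - 1)))).card : ℝ) *
        (K + 1) := by
  set St := (Finset.range h).filter fun i => P i ∧ (i = 0 ∨ ¬ (P (i - 1) ∧ E (i - 1))) with hSt
  have h1 : (Finset.range h).filter P ⊆
      St.biUnion fun i0 => Finset.Icc i0 (i0 + ⌊K⌋₊) := by
    intro i hi
    rw [Finset.mem_filter, Finset.mem_range] at hi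
    obtain ⟨i0, h2, h3, h4, h5⟩ := runs_cover P E i hi.2
    rw [Finset.mem_biUnion]
    refine ⟨i0, ?_, ?_⟩
    · rw [hSt, Finset.mem_filter, Finset.mem_range]
      exact ⟨by omega, h3⟩
    · rw [Finset.mem_Icc]
      have h6 := Nat.le_floor (hlen i0 i h2 hi.1 h4 h5)
      omega
  have h2 : ((Finset.range h).filter P).card ≤ St.card * (⌊K⌋₊ + 1) := by
    refine (Finset.card_le_card h1).trans (Finset.card_biUnion_le_card_mul _ _ _ ?_)
    intro i0 _
    rw [Nat.card_Icc]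
    omega
  have h3 : ((⌊K⌋₊ : ℕ) : ℝ) ≤ K := Nat.floor_le hK
  calc (((Finset.range h).filter P).card : ℝ) ≤ ((St.card * (⌊K⌋₊ + 1) : ℕ) : ℝ) := by
        exact_mod_cast h2
    _ = (St.card : ℝ) * ((⌊K⌋₊ : ℝ) + 1) := by push_cast; ring
    _ ≤ (St.card : ℝ) * (K + 1) := by
        apply mul_le_mul_of_nonneg_left _ (Nat.cast_nonneg _)
        linarith

/-- the number of starts of runs -/
theorem runs_starts {δ₀ : ℝ} {ω : Env n} {T : SimpleGraph (Fin n)} {S : Finset (Fin n)}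
    (z : Fin n) (j : ℕ) :
    ((Finset.range (hook T S (CC δ₀ 0 ω) z)).filter fun i =>
      (dn T S z i ∈ CC δ₀ (j + 1) ω ∧ dn T S z i ∉ CC δ₀ j ω) ∧ (i = 0 ∨
        ¬ ((dn T S z (i - 1) ∈ CC δ₀ (j + 1) ω ∧ dn T S z (i - 1) ∉ CC δ₀ j ω) ∧
          ω s(dn T S z (i - 1), dn T S z (i - 1 + 1)) ≤ pl n δ₀ (j + 1)))).card ≤
      2 + LN T S (CC δ₀ 0 ω) (CC δ₀ (j + 1) ω) (pl n δ₀ (j + 1)) ω z +
        LN T S (CC δ₀ 0 ω) (CC δ₀ j ω) (pl n δ₀ j) ω z := by
  set h := hook T S (CC δ₀ 0 ω) z with hh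
  have hhg : h ≤ hgt T S z := hook_le_hgt _
  -- entrances are landings
  have hen : ((Finset.range (h - 1)).filter fun k => ¬ (dn T S z k ∈ CC δ₀ j ω) ∧
      dn T S z (k + 1) ∈ CC δ₀ j ω).card ≤
      LN T S (CC δ₀ 0 ω) (CC δ₀ j ω) (pl n δ₀ j) ω z := by
    unfold LN
    apply Finset.card_le_card
    intro k hk
    rw [Finset.mem_filter, Finset.mem_range] at hk ⊢
    obtain ⟨h1, h2, h3⟩ := hk
    refine ⟨by omega, fun i' hi' => dn_notMem_of_lt_hook _ (by rw [← hh]; omega), h3,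
      bigC_closed h3 h2⟩
  have hex := runs_exit (fun k => dn T S z k ∈ CC δ₀ j ω) (h - 1)
  -- three kinds of starts
  set B1 := ((Finset.range (hgt T S z)).filter fun i => (∀ i' ≤ i + 1, dn T S z i' ∉ CC δ₀ 0 ω) ∧
    dn T S z (i + 1) ∈ CC δ₀ (j + 1) ω ∧
      pl n δ₀ (j + 1) < ω s(dn T S z i, dn T S z (i + 1))) with hB1
  set B2 := ((Finset.range (h - 1)).filter fun k => dn T S z k ∈ CC δ₀ j ω ∧
    ¬ (dn T S z (k + 1) ∈ CC δ₀ j ω)) with hB2
  have hsub : ((Finset.range h).filter fun i =>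
      (dn T S z i ∈ CC δ₀ (j + 1) ω ∧ dn T S z i ∉ CC δ₀ j ω) ∧ (i = 0 ∨
        ¬ ((dn T S z (i - 1) ∈ CC δ₀ (j + 1) ω ∧ dn T S z (i - 1) ∉ CC δ₀ j ω) ∧
          ω s(dn T S z (i - 1), dn T S z (i - 1 + 1)) ≤ pl n δ₀ (j + 1)))) ⊆
      ({0} : Finset ℕ) ∪ (B1.image (· + 1) ∪ B2.image (· + 1)) := by
    intro i hi
    rw [Finset.mem_filter, Finset.mem_range] at hi
    obtain ⟨h1, ⟨h2, h3⟩, h4⟩ := hi
    rw [Finset.mem_union, Finset.mem_singleton, Finset.mem_union, Finset.mem_image,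
      Finset.mem_image]
    rcases Nat.eq_zero_or_pos i with h5 | h5
    · exact Or.inl h5
    · right
      obtain ⟨k, rfl⟩ : ∃ k, i = k + 1 := ⟨i - 1, by omega⟩
      rw [Nat.add_sub_cancel] at h4
      have h6 : ¬ ((dn T S z k ∈ CC δ₀ (j + 1) ω ∧ dn T S z k ∉ CC δ₀ j ω) ∧
          ω s(dn T S z k, dn T S z (k + 1)) ≤ pl n δ₀ (j + 1)) := by
        rcases h4 with h4 | h4
        · omega
        · exact h4
      by_cases h7 : ω s(dn T S z k, dn T S z (k + 1)) ≤ pl n δ₀ (j + 1)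
      · right
        refine ⟨k, ?_, rfl⟩
        rw [hB2, Finset.mem_filter, Finset.mem_range]
        refine ⟨by omega, ?_, h3⟩
        by_contra h8
        apply h6
        refine ⟨⟨?_, h8⟩, h7⟩
        by_contra h9
        exact absurd h7 (not_le.2 (bigC_closed h2 h9))
      · left
        refine ⟨k, ?_, rfl⟩
        rw [hB1, Finset.mem_filter, Finset.mem_range]
        refine ⟨by omega, fun i' hi' => dn_notMem_of_lt_hook _ (by rw [← hh]; omega), h2,
          not_le.1 h7⟩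
  have hc1 := Finset.card_le_card hsub
  have hc2 := Finset.card_union_le ({0} : Finset ℕ) (B1.image (· + 1) ∪ B2.image (· + 1))
  have hc3 := Finset.card_union_le (B1.image (· + 1)) (B2.image (· + 1))
  have hc4 := Finset.card_image_le (s := B1) (f := (· + 1))
  have hc5 := Finset.card_image_le (s := B2) (f := (· + 1))
  have hB1' : B1.card = LN T S (CC δ₀ 0 ω) (CC δ₀ (j + 1) ω) (pl n δ₀ (j + 1)) ω z := rfl
  rw [Finset.card_singleton] at hc2
  have hex' : B2.card ≤ LN T S (CC δ₀ 0 ω) (CC δ₀ j ω) (pl n δ₀ j) ω z + 1 := by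
    refine le_trans ?_ (Nat.add_le_add_right hen 1)
    convert hex
    rfl
  omega

theorem hook_le_sum {β δ₀ Q : ℝ} {J jX : ℕ} {ω : Env n} (h : GoodEnv β δ₀ Q J jX ω)
    (hδ : 0 < δ₀) (hQ : 1 ≤ Q)
    {T : SimpleGraph (Fin n)} (hT : T.IsTree) {S : Finset (Fin n)} (hS : S.Nonempty)
    (z : Fin n) :
    (hook T S (CC δ₀ 0 ω) z : ℝ) ≤ ∑ j ∈ Finset.range J,
      (2 + (LN T S (CC δ₀ 0 ω) (CC δ₀ (j + 1) ω) (pl n δ₀ (j + 1)) ω z : ℝ) +
        (LN T S (CC δ₀ 0 ω) (CC δ₀ j ω) (pl n δ₀ j) ω z : ℝ)) * (Q / db (dl δ₀ j) + 1) := by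
  have hhg : hook T S (CC δ₀ 0 ω) z ≤ hgt T S z := hook_le_hgt _
  have hcov : Finset.range (hook T S (CC δ₀ 0 ω) z) ⊆ (Finset.range J).biUnion fun j =>
      (Finset.range (hook T S (CC δ₀ 0 ω) z)).filter fun i =>
        dn T S z i ∈ CC δ₀ (j + 1) ω ∧ dn T S z i ∉ CC δ₀ j ω := by
    intro i hi
    rw [Finset.mem_range] at hi
    have h0 : dn T S z i ∉ CC δ₀ 0 ω := dn_notMem_of_lt_hook _ hi
    have hJ : dn T S z i ∈ CC δ₀ J ω := by rw [h.full]; exact Finset.mem_univ _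
    have hex : ∃ j, dn T S z i ∈ CC δ₀ j ω := ⟨J, hJ⟩
    set m := Nat.find hex with hm
    have hm1 : dn T S z i ∈ CC δ₀ m ω := Nat.find_spec hex
    have hm0 : m ≠ 0 := by
      intro h1
      rw [h1] at hm1
      exact h0 hm1
    obtain ⟨j, hj⟩ : ∃ j, m = j + 1 := ⟨m - 1, by omega⟩
    have hm2 : dn T S z i ∉ CC δ₀ j ω := Nat.find_min hex (by omega)
    have hm3 : m ≤ J := Nat.find_min' hex hJ
    rw [Finset.mem_biUnion]
    refine ⟨j, by rw [Finset.mem_range]; omega, ?_⟩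
    rw [Finset.mem_filter, Finset.mem_range]
    exact ⟨hi, hj ▸ hm1, hm2⟩
  have h1 := (Finset.card_le_card hcov).trans Finset.card_biUnion_le
  rw [Finset.card_range] at h1
  have h2 : (hook T S (CC δ₀ 0 ω) z : ℝ) ≤ ∑ j ∈ Finset.range J,
      (((Finset.range (hook T S (CC δ₀ 0 ω) z)).filter fun i =>
        dn T S z i ∈ CC δ₀ (j + 1) ω ∧ dn T S z i ∉ CC δ₀ j ω).card : ℝ) := by
    exact_mod_cast h1
  refine h2.trans (Finset.sum_le_sum fun j hj => ?_)
  rw [Finset.mem_range] at hj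
  have hdb : 0 < db (dl δ₀ j) := by
    unfold db dl
    exact lt_min (by positivity) one_pos
  have h3 := runs_count (fun i => dn T S z i ∈ CC δ₀ (j + 1) ω ∧ dn T S z i ∉ CC δ₀ j ω)
    (fun k => ω s(dn T S z k, dn T S z (k + 1)) ≤ pl n δ₀ (j + 1))
    (hook T S (CC δ₀ 0 ω) z) (K := Q / db (dl δ₀ j)) (by positivity) (by
      intro i0 i h4 h5 h6 h7
      obtain ⟨w, w1, w2, -, w4⟩ := dn_walk hT hS (u := z) h4 (by omega) (Gr ω (pl n δ₀ (j + 1)))
        (by
          intro k hk hk'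
          refine Gr_adj.2 ⟨?_, h7 k hk hk'⟩
          intro he
          have := dn_inj hT hS (by omega) (by omega) he
          omega)
      have h8 := h.path j hj _ _ w w1 (by
        intro x hx
        obtain ⟨k, hk, hk', rfl⟩ := (w4 x).1 hx
        exact (h6 k hk hk').2)
      rwa [w2] at h8)
  have h4 := runs_starts (δ₀ := δ₀) (ω := ω) (T := T) (S := S) z j
  have h5 : (((Finset.range (hook T S (CC δ₀ 0 ω) z)).filter fun i =>
      (dn T S z i ∈ CC δ₀ (j + 1) ω ∧ dn T S z i ∉ CC δ₀ j ω) ∧ (i = 0 ∨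
        ¬ ((dn T S z (i - 1) ∈ CC δ₀ (j + 1) ω ∧ dn T S z (i - 1) ∉ CC δ₀ j ω) ∧
          ω s(dn T S z (i - 1), dn T S z (i - 1 + 1)) ≤ pl n δ₀ (j + 1)))).card : ℝ) ≤
      (2 + (LN T S (CC δ₀ 0 ω) (CC δ₀ (j + 1) ω) (pl n δ₀ (j + 1)) ω z : ℝ) +
        (LN T S (CC δ₀ 0 ω) (CC δ₀ j ω) (pl n δ₀ j) ω z : ℝ)) := by exact_mod_cast h4
  refine le_trans ?_ (mul_le_mul_of_nonneg_right h5 (by positivity))
  convert h3
  rfl

end RST
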