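import Pool.Agent.Work.MP_5ba30e_pr.Dnear
import Pool.Agent.Work.MP_5ba30e_pr.Runs
import Pool.Agent.Work.MP_5ba30e_pr.Meas

/-!
# BridgeD : in a good environment, at low temperature, the moves of `Dmove` are possible
-/

open MeasureTheory Set Filter Finset
open scoped ENNReal Topology Classical

noncomputable section

namespace RST

variable {n : ℕ}

/-- the tree uses no edge with value `> p'` between two vertices of `C` -/
def TPath (ω : Env n) (T : SimpleGraph (Fin n)) (C : Finset (Fin n)) (p' : ℝ) : Prop :=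
  ∀ x ∈ C, ∀ y ∈ C, ∀ f, onp T x y f → ω f ≤ p'

theorem brd_pl_mono {δ₀ : ℝ} (hδ : 0 ≤ δ₀) {i j : ℕ} (hij : i ≤ j) : pl n δ₀ i ≤ pl n δ₀ j := by
  unfold pl dl
  have h1 : ((6 : ℝ) / 5) ^ i ≤ (6 / 5) ^ j := pow_le_pow_right₀ (by norm_num) hij
  gcongr

theorem brd_edge {G : SimpleGraph (Fin n)} {ω : Env n} {r : ℝ} {g : Sym2 (Fin n)}
    (hg : g ∈ G.edgeSet) (h : ω g ≤ r) : g ∈ (Gr ω r).edgeSet := by
  induction g with
  | _ i j =>
    rw [SimpleGraph.mem_edgeSet] at hg ⊢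
    exact Gr_adj.2 ⟨hg.ne, h⟩

theorem brd_le {ω : Env n} {r : ℝ} {g : Sym2 (Fin n)} (hg : g ∈ (Gr ω r).edgeSet) : ω g ≤ r := by
  induction g with
  | _ i j =>
    rw [SimpleGraph.mem_edgeSet] at hg
    exact (Gr_adj.1 hg).2

theorem brd_reach {T : SimpleGraph (Fin n)} (hT : T.IsTree) {u v : Fin n}
    (G : SimpleGraph (Fin n)) (h : ∀ g, onp T u v g → g ∈ G.edgeSet) : G.Reachable u v := by
  obtain ⟨p, hp, -⟩ := exists_path hT u v
  exact ⟨p.transfer G fun e he => h e ((onp_iff_mem_path hT p hp e).2 he)⟩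

theorem brd_mem_bigC {G : SimpleGraph (Fin n)} {τ : ℝ} {x y : Fin n} (hx : x ∈ bigC G τ)
    (h : G.Reachable x y) : y ∈ bigC G τ := by
  have hc : comp G x = comp G y := by
    ext u
    simp only [comp, Finset.mem_filter, Finset.mem_univ, true_and]
    exact ⟨fun h' => h.symm.trans h', fun h' => h.trans h'⟩
  unfold bigC at hx ⊢
  rw [Finset.mem_filter] at hx ⊢
  exact ⟨Finset.mem_univ _, by rw [← hc]; exact hx.2⟩

/-- sum of the costs of the edges of a walk -/
theorem brd_cost {G : SimpleGraph (Fin n)} {ω : Env n} {β p p' c : ℝ} (hβ : 0 ≤ β)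
    (hG : ∀ g ∈ G.edgeSet, ω g ≤ p) (hc : Real.exp (β * p') ≤ c) {u v : Fin n}
    (w : G.Walk u v) (hw : w.IsPath) (A : Finset (Sym2 (Fin n))) (hA : A ⊆ w.edges.toFinset) :
    ∑ g ∈ A, (ww β ω g)⁻¹ ≤ (cntW ω p' w : ℝ) * Real.exp (β * p) + w.length * c := by
  have hnd : w.edges.Nodup := hw.isTrail.edges_nodup
  have h0 : ∀ g, 0 ≤ (ww β ω g)⁻¹ := fun g => inv_nonneg.2 (Real.exp_pos _).le
  have hc0 : 0 ≤ c := (Real.exp_pos _).le.trans hc
  have h1 : ∑ g ∈ A, (ww β ω g)⁻¹ ≤ ∑ g ∈ w.edges.toFinset, (ww β ω g)⁻¹ :=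
    Finset.sum_le_sum_of_subset_of_nonneg hA fun g _ _ => h0 g
  have h2 : ∀ g ∈ w.edges.toFinset, (ww β ω g)⁻¹ ≤
      (if p' < ω g then Real.exp (β * p) else 0) + c := by
    intro g hg
    have hgG : g ∈ G.edgeSet := w.edges_subset_edgeSet (List.mem_toFinset.1 hg)
    have hww : (ww β ω g)⁻¹ = Real.exp (β * ω g) := by
      rw [ww, ← Real.exp_neg, neg_neg]
    rw [hww]
    split_ifs with h3
    · have : Real.exp (β * ω g) ≤ Real.exp (β * p) :=
        Real.exp_le_exp.2 (mul_le_mul_of_nonneg_left (hG g hgG) hβ)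
      linarith
    · push Not at h3
      have : Real.exp (β * ω g) ≤ Real.exp (β * p') :=
        Real.exp_le_exp.2 (mul_le_mul_of_nonneg_left h3 hβ)
      linarith
  refine h1.trans ((Finset.sum_le_sum h2).trans ?_)
  rw [Finset.sum_add_distrib, ← Finset.sum_filter, Finset.sum_const, Finset.sum_const,
    nsmul_eq_mul, nsmul_eq_mul]
  have h3 : (w.edges.toFinset.filter fun g => p' < ω g).card ≤ cntW ω p' w := by
    rw [cntW]
    have : (w.edges.toFinset.filter fun g => p' < ω g) =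
        (w.edges.filter fun g => p' < ω g).toFinset := by
      ext g
      simp
    rw [this]
    exact List.toFinset_card_le _
  have h4 : w.edges.toFinset.card ≤ w.length := by
    rw [← w.length_edges]
    exact List.toFinset_card_le _
  have h3' : (((w.edges.toFinset.filter fun g => p' < ω g).card : ℕ) : ℝ) ≤ cntW ω p' w := by
    exact_mod_cast h3
  have h4' : ((w.edges.toFinset.card : ℕ) : ℝ) ≤ w.length := by exact_mod_cast h4
  gcongr

/-- the number of large edges of a part of the walk -/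
theorem brd_cnt {ω : Env n} {T G : SimpleGraph (Fin n)} {S : Finset (Fin n)} {x : Fin n} {h : ℕ}
    {pm : ℝ} {u v : Fin n} (p : G.Walk u v)
    (hp : p.edges = (List.range' 0 h).map (fun k => s(dn T S x k, dn T S x (k + 1)))) :
    ((Finset.range h).filter fun i => pm < ω (we T S x i)).card = cntW ω pm p := by
  rw [cntW, hp, List.filter_map, List.length_map, ← List.range_eq_range']
  have h1 : ((Finset.range h).filter fun i => pm < ω (we T S x i)) =
      ((List.range h).filter fun i => pm < ω (we T S x i)).toFinset := by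
    ext i
    simp
  rw [h1, List.toFinset_card_of_nodup (List.nodup_range.filter _)]
  rfl

/-- the facts about one move which are used for `zr` and `invX` -/
theorem brd_move {δ₀ : ℝ} {jx : ℕ} {ω : Env n}
    {S : Finset (Fin n)} {T : SimpleGraph (Fin n)} (hT : T.IsTree) (hS : S.Nonempty)
    (hhit : ¬ Disjoint S (CC δ₀ 0 ω))
    (hT0 : TPath ω T (CC δ₀ 0 ω) (pl n δ₀ jx)) {x y : Fin n} {i : ℕ}
    (hm : MOK (CC δ₀ 0) (pmin n δ₀) (pl n δ₀ jx) S ω T x y i) :
    ((Gr ω (pl n δ₀ jx)).deleteEdges {s(dn T S x i, dn T S x (i + 1))}).Reachable x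
        (dn T S x i) ∧
      ((Gr ω (pl n δ₀ jx)).deleteEdges {s(dn T S x i, dn T S x (i + 1))}).Reachable y
        (dn T S x (i + 1)) := by
  obtain ⟨ho, hx, hy, hne⟩ := MOK_geom hT hS hm
  obtain ⟨m1, m2, m3, m4, m5, m6, m7⟩ := hm
  obtain ⟨s, hsS, hs0⟩ := Finset.not_disjoint_iff.1 hhit
  have hle : ∀ k < hgt T S x, ω (we T S x k) ≤ pl n δ₀ jx := fun k hk =>
    hT0 x m1 s hs0 _ (onp_dn hT hS hk hsS)
  set a := dn T S x i with ha
  set b := dn T S x (i + 1) with hb
  have hsb : s ∈ side T s(a, b) b := by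
    rw [side_part hT ho.1]
    intro h1
    exact Finset.disjoint_left.1 ho.2 h1 hsS
  have hyb : y ∈ side T s(a, b) b := (side_part hT ho.1 y).2 hy
  have hbb : b ∈ side T s(a, b) b := self_mem_side
  -- edges of the graph without `f`
  have hmem : ∀ g, g ∈ T.edgeSet → ω g ≤ pl n δ₀ jx → g ≠ s(a, b) →
      g ∈ ((Gr ω (pl n δ₀ jx)).deleteEdges {s(a, b)}).edgeSet := by
    intro g hg h1 h2
    rw [SimpleGraph.edgeSet_deleteEdges]
    exact ⟨brd_edge hg h1, h2⟩
  refine ⟨?_, ?_⟩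
  · obtain ⟨p, -⟩ := dn_walk hT hS (Nat.zero_le i) m3.le
      ((Gr ω (pl n δ₀ jx)).deleteEdges {s(a, b)}) (fun k _ hk => by
        have h1 := hmem s(dn T S x k, dn T S x (k + 1)) (offp_dn hT hS (by omega)).1
          (hle k (by omega)) (dn_edge_ne hT hS (by omega) m3 (by omega))
        rwa [SimpleGraph.mem_edgeSet] at h1)
    exact ⟨p⟩
  · have h1 : ((Gr ω (pl n δ₀ jx)).deleteEdges {s(a, b)}).Reachable y s := by
      refine brd_reach hT _ fun g hg => ?_
      refine hmem g hg.1 (hT0 y m2 s hs0 g hg) ?_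
      rintro rfl
      apply hg.2
      rw [side_eq_of_mem hyb]
      exact hsb
    have h2 : ((Gr ω (pl n δ₀ jx)).deleteEdges {s(a, b)}).Reachable b s := by
      refine brd_reach hT _ fun g hg => ?_
      have hgf : g ≠ s(a, b) := by
        rintro rfl
        exact hg.2 hsb
      refine hmem g hg.1 ?_ hgf
      rcases onp_trans (v := x) hg with h3 | h3
      · have h4 := onp_symm hT h3
        obtain ⟨p, hp, -, hpe, -⟩ := dn_walk hT hS (Nat.zero_le (i + 1)) (show i + 1 ≤ hgt T S x from m3)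
          T (fun k _ hk => (offp_dn hT hS (by omega)).1)
        rw [dn_zero] at p
        obtain ⟨p', hp', -, hpe', -⟩ := dn_walk hT hS (Nat.zero_le (i + 1)) (show i + 1 ≤ hgt T S x from m3)
          T (fun k _ hk => (offp_dn hT hS (by omega)).1)
        have h5 := (onp_iff_mem_path hT p' hp' g).1 h4
        rw [hpe', List.mem_map] at h5
        obtain ⟨k, hk, rfl⟩ := h5
        rw [List.mem_range'_1] at hk
        exact hle k (by omega)
      · exact hT0 x m1 s hs0 g h3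
    exact h1.trans h2.symm

/-- Hints. Let `s ∈ S ∩ CC 0`. For `x ∈ CC 0` the edges `we T S x i`, `i < hgt`, are on the path
from `x` to `s` (`onp_dn`), so they have value `≤ p_{jx}` (`TPath`).
`inX`: `dn T S x i` is connected to `x ∈ CC 0 ⊆ CC jx` at the level `p_{jx}`.
`dens`: otherwise `ℓw` consecutive edges of the walk have value `≤ pmin`, a path of `Gr ω pmin` of
length `ℓw > Q/db δ₀`, which contradicts `subp` (`dn_walk`).
`cnt`: the walk of `x` is a path of `Gr ω p_{jx} ≤ Gr ω p_{jX}` of length `≤ diam T ≤ D0`, use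
`GoodEnv.cnt`.
`deg`: `GoodEnv.deg`.
`zr`: `f = we T S x i`, `e = s(x,y)`: `ω f ≤ p_{jx} < ω e`. Path from `x` to `y` at the level `p₀`
given by `conn`: its cost is at most `Q e^{β p₀} + (Q/db δ₀) e^{β p₀ - 2 log n} ≤ 2Q e^{β p₀}`;
`max (ww f) (ww e) = ww f = e^{-β ω f}`; if `δ₀ < 1`, `ω f > (1-δ₀)/n`, if `δ₀ ≥ 1`, `ω f ≥ 0`:
in both cases `ww f * e^{β p₀} ≤ e^{2 β δ₀/n}`. `Zf_sw_le`.
`invX`: `reach_move` at the level `p_{jx}` with `a = dn x i`, `b = dn x (i+1)`: `x ~ a` by the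
walk before `f`; `y ~ s ~ b` : path of `T` from `y` to `s` (edges `≤ p_{jx}` by `TPath`, on the
side of `b`), and the walk of `x` after `f`, then the path from the hull to `s` (edges of the
path of `T` from `x` to `s`). -/
theorem dok_of_good (hn : 2 ≤ n) {β δ₀ Q Qc θ D0 : ℝ} {J jX jx ℓw : ℕ} {ω : Env n} (hβ : 0 < β)
    (hQ : 1 ≤ Q) (hδ : 1 / (n : ℝ) ≤ δ₀) (h : GoodEnv β δ₀ Q J jX ω)
    (h0 : ∀ e, 0 ≤ ω e)
    (hjx : jx ≤ jX) (hjX : jX ≤ J) (hℓ : Q / db δ₀ < ℓw)
    {S : Finset (Fin n)} {T : SimpleGraph (Fin n)} (hT : T.IsTree)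
    (hlite : TupOK T S (CC δ₀ jx ω) θ) (hhit : ¬ Disjoint S (CC δ₀ 0 ω))
    (hT0 : TPath ω T (CC δ₀ 0 ω) (pl n δ₀ jx))
    (hcard : ((CC δ₀ jx ω).card : ℝ) ≤ Qc * (CC δ₀ 0 ω).card)
    (hD : (T.diam : ℝ) ≤ D0) :
    DOK β (1 + 2 * Q * Real.exp (2 * β * δ₀ / n)) Qc θ (Q * (db δ₀ * D0 + 1)) Q (pmin n δ₀)
      (pl n δ₀ jx) ℓw S (CC δ₀ 0) (CC δ₀ jx) ω T := by
  have hδ0 : 0 < δ₀ := lt_of_lt_of_le (by positivity) hδ
  have hn0 : (0 : ℝ) < n := by
    have : 0 < n := by omega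
    exact_mod_cast this
  have hS : S.Nonempty := by
    obtain ⟨s, hsS, -⟩ := Finset.not_disjoint_iff.1 hhit
    exact ⟨s, hsS⟩
  obtain ⟨s, hsS, hs0⟩ := Finset.not_disjoint_iff.1 hhit
  have hle : ∀ x ∈ CC δ₀ 0 ω, ∀ k < hgt T S x, ω (we T S x k) ≤ pl n δ₀ jx := fun x hx k hk =>
    hT0 x hx s hs0 _ (onp_dn hT hS hk hsS)
  have hsub : CC δ₀ 0 ω ⊆ CC δ₀ jx ω := CC_mono h (Nat.zero_le _) (hjx.trans hjX)
  have hdb0 : 0 < db δ₀ := lt_min hδ0 one_pos
  have hdl0 : dl δ₀ 0 = δ₀ := by simp [dl]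
  have hwalk : ∀ x ∈ CC δ₀ 0 ω, ∀ i j, i ≤ j → j ≤ hgt T S x → ∀ r, pl n δ₀ jx ≤ r →
      ∀ k, i ≤ k → k < j → (Gr ω r).Adj (dn T S x k) (dn T S x (k + 1)) := by
    intro x hx i j hij hj r hr k hk hk'
    exact Gr_adj.2 ⟨(offp_dn hT hS (by omega)).1.ne, (hle x hx k (by omega)).trans hr⟩
  refine ⟨hsub, hcard, hlite, ?_, ?_, ?_, ?_, ?_, ?_⟩
  · -- inX
    intro x hx i hi
    obtain ⟨p, -⟩ := dn_walk hT hS (Nat.zero_le i) hi (Gr ω (pl n δ₀ jx))
      (hwalk x hx 0 i (Nat.zero_le _) hi _ le_rfl)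
    exact brd_mem_bigC (hsub hx) ⟨p⟩
  · -- dens
    intro x hx i hi
    by_contra hcon
    push Not at hcon
    obtain ⟨p, hp, hpl, -⟩ := dn_walk hT hS (Nat.le_add_right i ℓw) hi (Gr ω (pmin n δ₀))
      (fun k hk hk' => Gr_adj.2 ⟨(offp_dn hT hS (by omega)).1.ne, hcon k hk hk'⟩)
    have h1 := h.subp _ _ p hp
    rw [hpl] at h1
    have h2 : ((i + ℓw - i : ℕ) : ℝ) = ℓw := by
      congr 1
      omega
    rw [h2] at h1
    linarith
  · -- cnt
    intro x hx
    obtain ⟨p, hp, hpl, hpe, -⟩ := dn_walk hT hS (Nat.zero_le (hgt T S x)) le_rfl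
      (Gr ω (pl n δ₀ jX)) (hwalk x hx 0 _ (Nat.zero_le _) le_rfl _ (brd_pl_mono hδ0.le hjx))
    rw [Nat.sub_zero] at hpe hpl
    rw [brd_cnt p hpe]
    refine (h.cnt _ _ p hp).trans ?_
    rw [hpl]
    have h1 : (hgt T S x : ℝ) ≤ D0 := by
      refine le_trans ?_ hD
      exact_mod_cast hgt_le_diam hT hS
    have hQ0 : 0 ≤ Q := by linarith
    gcongr
  · -- deg
    intro x hx
    refine le_trans ?_ (h.deg x)
    have h1 : ((CC δ₀ 0 ω).filter fun y => y ≠ x ∧ ω s(x, y) ≤ pl n δ₀ jx) ⊆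
        (Finset.univ.filter fun y => (Gr ω (pl n δ₀ J)).Adj x y) := by
      intro y hy
      rw [Finset.mem_filter] at hy ⊢
      exact ⟨Finset.mem_univ _, Gr_adj.2 ⟨hy.2.1.symm,
        hy.2.2.trans (brd_pl_mono hδ0.le (hjx.trans hjX))⟩⟩
    exact_mod_cast Finset.card_le_card h1
  · -- zr
    intro x y i hm
    obtain ⟨ho, hx, hy, hne⟩ := MOK_geom hT hS hm
    obtain ⟨m1, m2, m3, m4, m5, m6, m7⟩ := hm
    have hxy : x ≠ y := fun e => hy (e ▸ hx)
    have hfe : ω (we T S x i) ≤ ω s(x, y) := (hle x m1 i m3).trans m7.le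
    obtain ⟨w, hw, hwl, hwc⟩ := h.conn 0 (Nat.zero_le _) x m1 y m2
    rw [hdl0] at hwl
    have hp0 : ∀ g ∈ (Gr ω (pl n δ₀ 0)).edgeSet, ω g ≤ pl n δ₀ 0 := fun g hg => brd_le hg
    have hlog : Real.exp (β * (pl n δ₀ 0 - 2 * Real.log n / β)) ≤
        Real.exp (β * pl n δ₀ 0) / (n : ℝ) ^ 2 := by
      have h1 : β * (pl n δ₀ 0 - 2 * Real.log n / β) = β * pl n δ₀ 0 - 2 * Real.log n := by
        field_simp
      rw [h1, Real.exp_sub]
      have h2 : Real.exp (2 * Real.log n) = (n : ℝ) ^ 2 := by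
        rw [mul_comm, Real.exp_mul, Real.exp_log hn0]
        norm_cast
      rw [h2]
    have hdbn : 1 / (n : ℝ) ≤ db δ₀ := by
      refine le_min hδ ?_
      rw [div_le_one hn0]
      have : 1 ≤ n := by omega
      exact_mod_cast this
    have hQ0 : 0 ≤ Q := by linarith
    have hlen : (w.length : ℝ) ≤ Q * n := by
      refine hwl.trans ?_
      rw [div_le_iff₀ hdb0]
      calc Q = Q * n * (1 / n) := by field_simp
        _ ≤ Q * n * db δ₀ := by gcongr
    have hex0 : 0 < Real.exp (β * pl n δ₀ 0) := Real.exp_pos _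
    have hPC : PathCost β ω s(x, y) (we T S x i) (2 * Q * Real.exp (β * pl n δ₀ 0)) := by
      refine ⟨x, y, w.mapLe le_top, rfl, ?_, ?_⟩
      · rw [SimpleGraph.Walk.edges_mapLe_eq_edges]
        intro h1
        have h2 := hp0 _ (w.edges_subset_edgeSet h1)
        have h3 : pl n δ₀ 0 ≤ pl n δ₀ jx := brd_pl_mono hδ0.le (Nat.zero_le _)
        linarith
      · rw [SimpleGraph.Walk.edges_mapLe_eq_edges]
        have h1 := brd_cost (β := β) (p' := pl n δ₀ 0 - 2 * Real.log n / β) hβ.le hp0 hlog w hw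
          (w.edges.toFinset.erase (we T S x i)) (Finset.erase_subset _ _)
        refine h1.trans ?_
        have h2 : (w.length : ℝ) * (Real.exp (β * pl n δ₀ 0) / (n : ℝ) ^ 2) ≤
            Q * Real.exp (β * pl n δ₀ 0) := by
          calc (w.length : ℝ) * (Real.exp (β * pl n δ₀ 0) / (n : ℝ) ^ 2) ≤
                (Q * n) * (Real.exp (β * pl n δ₀ 0) / (n : ℝ) ^ 2) := by gcongr
            _ = Q * Real.exp (β * pl n δ₀ 0) * (1 / n) := by field_simp
            _ ≤ Q * Real.exp (β * pl n δ₀ 0) * 1 := by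
                have h3 : 1 / (n : ℝ) ≤ 1 := by
                  rw [div_le_one hn0]
                  have : 1 ≤ n := by omega
                  exact_mod_cast this
                gcongr
            _ = _ := mul_one _
        have h4 : (cntW ω (pl n δ₀ 0 - 2 * Real.log n / β) w : ℝ) * Real.exp (β * pl n δ₀ 0) ≤
            Q * Real.exp (β * pl n δ₀ 0) := by gcongr
        linarith
    have hdf : ¬ (we T S x i).IsDiag := by
      rw [we, Sym2.mk_isDiag_iff]
      exact ho.1.ne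
    have hde : ¬ (s(x, y) : Sym2 (Fin n)).IsDiag := by
      rw [Sym2.mk_isDiag_iff]
      exact hxy
    have hZ := Zf_sw_le (β := β) (ρ := 2 * Q * Real.exp (β * pl n δ₀ 0)) (by omega) hβ.le
      (by positivity) (ω := ω) hne.symm hdf hde (fun _ => hPC)
      (fun h1 => absurd h1 (not_lt.2 hfe))
    refine hZ.trans ?_
    have hZ0 : 0 ≤ Zf β ω := (Zf_pos (by omega) β ω).le
    apply mul_le_mul_of_nonneg_right _ hZ0
    have hmax : max (ww β ω (we T S x i)) (ww β ω s(x, y)) = ww β ω (we T S x i) := by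
      apply max_eq_left
      apply Real.exp_le_exp.2
      nlinarith
    have hpf : pl n δ₀ 0 - ω (we T S x i) ≤ 2 * δ₀ / n := by
      have h1 : pl n δ₀ 0 = (1 + δ₀) / n := by rw [pl, hdl0]
      rw [h1]
      by_cases hδ1 : δ₀ < 1
      · rw [pmin, if_pos hδ1] at m4
        have h2 : (1 + δ₀) / (n : ℝ) - (1 - δ₀) / n = 2 * δ₀ / n := by ring
        linarith
      · push Not at hδ1
        have h2 := h0 (we T S x i)
        have h3 : (1 + δ₀) / (n : ℝ) ≤ 2 * δ₀ / n := by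
          apply div_le_div_of_nonneg_right _ hn0.le
          linarith
        linarith
    have hfin : max (ww β ω (we T S x i)) (ww β ω s(x, y)) * (2 * Q * Real.exp (β * pl n δ₀ 0)) ≤
        2 * Q * Real.exp (2 * β * δ₀ / n) := by
      rw [hmax, ww]
      calc Real.exp (-(β * ω (we T S x i))) * (2 * Q * Real.exp (β * pl n δ₀ 0))
          = 2 * Q * Real.exp (β * (pl n δ₀ 0 - ω (we T S x i))) := by
            rw [mul_sub, Real.exp_sub, Real.exp_neg]
            field_simp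
        _ ≤ 2 * Q * Real.exp (2 * β * δ₀ / n) := by
            have h2 : β * (pl n δ₀ 0 - ω (we T S x i)) ≤ 2 * β * δ₀ / n := by
              calc β * (pl n δ₀ 0 - ω (we T S x i)) ≤ β * (2 * δ₀ / n) := by gcongr
                _ = _ := by ring
            have h3 := Real.exp_le_exp.2 h2
            gcongr
    exact add_le_add le_rfl hfin
  · -- invX
    intro x y i hm
    obtain ⟨ho, hx, hy, hne⟩ := MOK_geom hT hS hm
    obtain ⟨r1, r2⟩ := brd_move hT hS hhit hT0 hm
    obtain ⟨m1, m2, m3, m4, m5, m6, m7⟩ := hm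
    have hxy : x ≠ y := fun e => hy (e ▸ hx)
    unfold CC
    refine bigC_congr (fun u v => ?_) _
    exact reach_move hxy (hle x m1 i m3) m7 r1 r2 u v

/-- the vertices of a walk are in few components of `Gr ω pm` -/
theorem brd_rep {G : SimpleGraph (Fin n)} (ω : Env n) (pm : ℝ) {u v : Fin n} (p : G.Walk u v) :
    ∃ R : Finset (Fin n), R.card ≤ cntW ω pm p + 1 ∧
      ∀ w ∈ p.support, ∃ r ∈ R, (Gr ω pm).Reachable r w := by
  induction p with
  | nil =>
    rename_i u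
    refine ⟨{u}, by simp, ?_⟩
    intro w hw
    rw [SimpleGraph.Walk.support_nil, List.mem_singleton] at hw
    exact ⟨u, Finset.mem_singleton_self _, by rw [hw]⟩
  | cons h p ih =>
    rename_i u v c
    obtain ⟨R, hR, hR'⟩ := ih
    by_cases h1 : pm < ω s(u, v)
    · refine ⟨insert u R, ?_, ?_⟩
      · refine (Finset.card_insert_le _ _).trans ?_
        have h2 : cntW ω pm (SimpleGraph.Walk.cons h p) = cntW ω pm p + 1 := by
          simp [cntW, h1]
        omega
      · intro w hw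
        rw [SimpleGraph.Walk.support_cons, List.mem_cons] at hw
        rcases hw with rfl | hw
        · exact ⟨w, Finset.mem_insert_self _ _, SimpleGraph.Reachable.refl _⟩
        · obtain ⟨r, hr, hr'⟩ := hR' w hw
          exact ⟨r, Finset.mem_insert_of_mem hr, hr'⟩
    · refine ⟨R, ?_, ?_⟩
      · have h2 : cntW ω pm (SimpleGraph.Walk.cons h p) = cntW ω pm p := by
          simp [cntW, h1]
        omega
      · intro w hw
        rw [SimpleGraph.Walk.support_cons, List.mem_cons] at hw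
        rcases hw with rfl | hw
        · obtain ⟨r, hr, hr'⟩ := hR' v p.start_mem_support
          refine ⟨r, hr, hr'.trans ?_⟩
          exact (Gr_adj.2 ⟨h.ne, not_lt.1 h1⟩ : (Gr ω pm).Adj w v).symm.reachable
        · exact hR' w hw

/-- Hints. A vertex `z` of `Near` is connected at the level `pmin` to a vertex of height `0`
(end of its walk).  Let `s ∈ S`. Every vertex of height `0` is on the path of `T` from `s` to some
`t ∈ S` (`exists_of_hgt_zero`); this path has its edges `≤ p_{jX}` (`TPath` for `CC jx ⊇ S`), its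
length is `≤ D0`, so at most `Q (db δ₀ D0 + 1)` of its edges have value `> pmin` (`cnt`): its vertices
are in at most `Q (db δ₀ D0 + 1) + 1` components of `Gr ω pmin`, each with at most `Q/(db δ₀)²`
vertices (`subc`). -/
theorem near_card (hn : 2 ≤ n) {β δ₀ Q D0 : ℝ} {J jX jx : ℕ} {ω : Env n}
    (hQ : 1 ≤ Q) (hδ : 0 < δ₀) (h : GoodEnv β δ₀ Q J jX ω)
    {S : Finset (Fin n)} (hS : S.Nonempty) {T : SimpleGraph (Fin n)} (hT : T.IsTree)
    (hSX : S ⊆ CC δ₀ jx ω) (hTX : TPath ω T (CC δ₀ jx ω) (pl n δ₀ jX))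
    (hD : (T.diam : ℝ) ≤ D0) :
    ((Near T S (pmin n δ₀) ω).card : ℝ) ≤
      S.card * (Q * (db δ₀ * D0 + 1) + 1) * (Q / db δ₀ ^ 2) := by
  obtain ⟨s, hs⟩ := hS
  have hQ0 : 0 ≤ Q := by linarith
  have hdb0 : 0 < db δ₀ := lt_min hδ one_pos
  have hD0 : 0 ≤ D0 := (Nat.cast_nonneg _).trans hD
  set pm := pmin n δ₀ with hpm
  choose P hP hPl using fun t : Fin n => exists_path hT s t
  choose R hR hR' using fun t : Fin n => brd_rep ω pm (P t)
  have hsub : Near T S pm ω ⊆ S.biUnion fun t => (R t).biUnion fun r => comp (Gr ω pm) r := by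
    intro z hz
    rw [Near, Finset.mem_filter] at hz
    have hz2 := hz.2
    -- the end of the walk
    set w := dn T S z (hgt T S z) with hw
    have hw0 : hgt T S w = 0 := by
      rw [hw, hgt_dn hT ⟨s, hs⟩ le_rfl, Nat.sub_self]
    have hzw : (Gr ω pm).Reachable z w := by
      obtain ⟨p, -⟩ := dn_walk hT ⟨s, hs⟩ (Nat.zero_le _) le_rfl (Gr ω pm) (u := z)
        (fun k _ hk => Gr_adj.2 ⟨(offp_dn hT ⟨s, hs⟩ hk).1.ne, hz2 k hk⟩)
      exact ⟨p⟩
    obtain ⟨t, ht, htd⟩ := exists_of_hgt_zero hT hw0 hs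
    obtain ⟨q1, hq1, hq1l⟩ := exists_path hT s w
    obtain ⟨q2, hq2, hq2l⟩ := exists_path hT w t
    have hq : (q1.append q2).IsPath := by
      apply SimpleGraph.Walk.isPath_of_length_eq_dist
      rw [SimpleGraph.Walk.length_append, hq1l, hq2l]
      exact htd
    have hqP : P t = q1.append q2 := (hT.existsUnique_path s t).unique (hP t) hq
    have hwP : w ∈ (P t).support := by
      rw [hqP, SimpleGraph.Walk.mem_support_append_iff]
      exact Or.inl q1.end_mem_support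
    obtain ⟨r, hr, hrw⟩ := hR' t w hwP
    rw [Finset.mem_biUnion]
    refine ⟨t, ht, ?_⟩
    rw [Finset.mem_biUnion]
    refine ⟨r, hr, ?_⟩
    simp only [comp, Finset.mem_filter, Finset.mem_univ, true_and]
    exact hrw.trans hzw.symm
  have hcnt : ∀ t ∈ S, ((R t).card : ℝ) ≤ Q * (db δ₀ * D0 + 1) + 1 := by
    intro t ht
    have h1 : ((R t).card : ℝ) ≤ (cntW ω pm (P t) : ℝ) + 1 := by exact_mod_cast hR t
    have hedge : ∀ g ∈ (P t).edges, g ∈ (Gr ω (pl n δ₀ jX)).edgeSet := by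
      intro g hg
      have h2 := (onp_iff_mem_path hT (P t) (hP t) g).2 hg
      exact brd_edge h2.1 (hTX s (hSX hs) t (hSX ht) g h2)
    have h3 := h.cnt _ _ ((P t).transfer _ hedge) ((hP t).transfer hedge)
    have h4 : cntW ω pm ((P t).transfer _ hedge) = cntW ω pm (P t) := by
      rw [cntW, cntW, SimpleGraph.Walk.edges_transfer]
    rw [h4, SimpleGraph.Walk.length_transfer] at h3
    have h5 : ((P t).length : ℝ) ≤ D0 := by
      refine le_trans ?_ hD
      rw [hPl t]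
      have : Nonempty (Fin n) := ⟨s⟩
      exact_mod_cast SimpleGraph.dist_le_diam (SimpleGraph.connected_iff_ediam_ne_top.1 hT.connected)
    have h6 : Q * (db δ₀ * ((P t).length : ℝ) + 1) ≤ Q * (db δ₀ * D0 + 1) := by gcongr
    linarith
  have hcard : (Near T S pm ω).card ≤ ∑ t ∈ S, ∑ r ∈ R t, (comp (Gr ω pm) r).card := by
    refine (Finset.card_le_card hsub).trans (Finset.card_biUnion_le.trans ?_)
    exact Finset.sum_le_sum fun t _ => Finset.card_biUnion_le
  have hcard' : ((Near T S pm ω).card : ℝ) ≤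
      ∑ t ∈ S, ∑ r ∈ R t, ((comp (Gr ω pm) r).card : ℝ) := by exact_mod_cast hcard
  have hK : 0 ≤ Q / db δ₀ ^ 2 := by positivity
  calc ((Near T S pm ω).card : ℝ) ≤ ∑ t ∈ S, ∑ r ∈ R t, ((comp (Gr ω pm) r).card : ℝ) := hcard'
    _ ≤ ∑ t ∈ S, ∑ r ∈ R t, Q / db δ₀ ^ 2 :=
        Finset.sum_le_sum fun t _ => Finset.sum_le_sum fun r _ => h.subc r
    _ = ∑ t ∈ S, ((R t).card : ℝ) * (Q / db δ₀ ^ 2) := by
        refine Finset.sum_congr rfl fun t _ => ?_
        rw [Finset.sum_const, nsmul_eq_mul]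
    _ ≤ ∑ t ∈ S, (Q * (db δ₀ * D0 + 1) + 1) * (Q / db δ₀ ^ 2) :=
        Finset.sum_le_sum fun t ht => mul_le_mul_of_nonneg_right (hcnt t ht) hK
    _ = _ := by
        rw [Finset.sum_const, nsmul_eq_mul]
        ring

end RST
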