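import Pool.Agent.Work.MP_5ba30e_pr.BridgeR_exp

/-!
# BridgeR : in a good environment relocation is possible, and the expected hook is small

`rok_of_good` is proved in `BridgeR_rok_of_good.lean`, `hook_exp` and `rel_exp` in
`BridgeR_exp.lean`.
-/
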