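import Pool.Agent.Work.MP_5ba30e_pr.BridgeR_rok_of_good

/-!
# BridgeR_exp : the expected hook is small (K3)
-/

open MeasureTheory Set Filter Finset
open scoped ENNReal Topology Classical

noncomputable section

namespace RST

variable {n : ℕ}

theorem measurableSet_mem_CC (δ₀ : ℝ) (j : ℕ) (v : Fin n) :
    MeasurableSet {ω : Env n | v ∈ CC δ₀ j ω} :=
  ((LevDep.CC δ₀ j).comp fun s => v ∈ s).measurableSet

theorem measurable_LN {C0 Cj : Env n → Finset (Fin n)}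
    (h0m : ∀ v, MeasurableSet {ω | v ∈ C0 ω}) (hjm : ∀ v, MeasurableSet {ω | v ∈ Cj ω})
    (T : SimpleGraph (Fin n)) (S : Finset (Fin n)) (pj : ℝ) (z : Fin n) :
    Measurable fun ω : Env n => (LN T S (C0 ω) (Cj ω) pj ω z : ℝ≥0∞) := by
  have h1 : (fun ω : Env n => (LN T S (C0 ω) (Cj ω) pj ω z : ℝ≥0∞)) =
      fun ω => ∑ i ∈ Finset.range (hgt T S z), ind ((∀ i' ≤ i + 1, dn T S z i' ∉ C0 ω) ∧
        dn T S z (i + 1) ∈ Cj ω ∧ pj < ω s(dn T S z i, dn T S z (i + 1))) := by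
    funext ω
    unfold LN ind
    rw [Finset.card_filter]
    push_cast
    refine Finset.sum_congr rfl fun i _ => ?_
    congr
  rw [h1]
  refine Finset.measurable_fun_sum _ fun i _ => measurable_ind ?_
  have h0m' : ∀ v, Measurable fun ω => v ∈ C0 ω := fun v => measurableSet_setOfPred.1 (h0m v)
  have hjm' : ∀ v, Measurable fun ω => v ∈ Cj ω := fun v => measurableSet_setOfPred.1 (hjm v)
  have hev : Measurable fun ω : Env n => pj < ω s(dn T S z i, dn T S z (i + 1)) :=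
    measurableSet_setOfPred.1 (measurableSet_lt measurable_const (measurable_pi_apply _))
  refine measurableSet_setOfPred.2 (Measurable.and ?_ ((hjm' _).and hev))
  exact Measurable.forall fun i' => measurable_const.imp (h0m' _).not

theorem db_succ_le (δ₀ : ℝ) (hδ : 0 ≤ δ₀) (j : ℕ) :
    db (dl δ₀ (j + 1)) ≤ 6 / 5 * db (dl δ₀ j) := by
  have h0 : 0 ≤ dl δ₀ j := hδ.trans (le_dl hδ j)
  have h1 : dl δ₀ (j + 1) = 6 / 5 * dl δ₀ j := by
    unfold dl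
    rw [pow_succ]
    ring
  unfold db
  rw [h1]
  rcases le_total (dl δ₀ j) 1 with h2 | h2
  · rw [min_eq_left h2]
    exact min_le_left _ _
  · rw [min_eq_right h2]
    exact (min_le_right _ _).trans (by norm_num)

/-- the constant of `hook_exp` -/
theorem hook_const {Q d0 d d' : ℝ} (hQ : 1 ≤ Q) (h0 : 0 < d0) (h1 : d0 ≤ d) (h2 : d' ≤ 6 / 5 * d)
    (hd1 : d ≤ 1) :
    (2 + 8 * Q ^ 3 * d' / d0 + 8 * Q ^ 3 * d / d0) * (Q / d + 1) ≤ 100 * Q ^ 4 / d0 := by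
  have hd : 0 < d := h0.trans_le h1
  have e1 : Q / d + 1 ≤ 2 * Q / d := by
    have h3 : 1 ≤ Q / d := by
      rw [one_le_div hd]
      linarith
    have h4 : 2 * Q / d = Q / d + Q / d := by ring
    linarith
  have hQ3 : 1 ≤ Q ^ 3 := one_le_pow₀ hQ
  have e2 : (2 : ℝ) ≤ 2 * Q ^ 3 * d / d0 := by
    rw [le_div_iff₀ h0]
    nlinarith
  have e3 : 8 * Q ^ 3 * d' / d0 ≤ 8 * Q ^ 3 * (6 / 5 * d) / d0 := by
    gcongr
  have e4 : 2 + 8 * Q ^ 3 * d' / d0 + 8 * Q ^ 3 * d / d0 ≤ 20 * Q ^ 3 * d / d0 := by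
    have h5 : 2 * Q ^ 3 * d / d0 + 8 * Q ^ 3 * (6 / 5 * d) / d0 + 8 * Q ^ 3 * d / d0 =
        (98 / 5) * (Q ^ 3 * d / d0) := by ring
    have h6 : 20 * Q ^ 3 * d / d0 = 20 * (Q ^ 3 * d / d0) := by ring
    have h7 : 0 ≤ Q ^ 3 * d / d0 := by positivity
    linarith
  calc (2 + 8 * Q ^ 3 * d' / d0 + 8 * Q ^ 3 * d / d0) * (Q / d + 1)
      ≤ (20 * Q ^ 3 * d / d0) * (2 * Q / d) := by
        apply mul_le_mul e4 e1 (by positivity) (by positivity)
    _ = 40 * Q ^ 4 / d0 := by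
        field_simp
        ring
    _ ≤ 100 * Q ^ 4 / d0 := by
        gcongr
        norm_num

theorem hook_exp (hn : 2 ≤ n) {β δ₀ Q : ℝ} {J jX jx : ℕ} (hβ : 0 < β) (hQ : 1 ≤ Q)
    (hδ : 1 / (n : ℝ) ≤ δ₀) (hjx : jx ≤ J)
    {S : Finset (Fin n)} (hS : S.Nonempty) (z : Fin n) {θ : ℝ}
    (A : Env n → SimpleGraph (Fin n) → Prop) (hA : ∀ T, MeasurableSet {ω | A ω T})
    (h : ∀ ω T, A ω T → GoodEnv β δ₀ Q J jX ω ∧ TupOK T S (CC δ₀ jx ω) θ ∧
      2 * (θ * (CC δ₀ jx ω).card + Q + 1) ≤ (CC δ₀ 0 ω).card)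
    (ψ : Finset (Fin n) → ℝ≥0∞) :
    EE β (fun ω T => ind (A ω T) * (hook T S (CC δ₀ 0 ω) z : ℝ≥0∞) * ψ (CC δ₀ jx ω)) ≤
      ENNReal.ofReal (100 * J * Q ^ 4 / db δ₀) * EE β (fun ω _ => ψ (CC δ₀ jx ω)) := by
  have hn1 : (0 : ℝ) < n := by
    have : 0 < n := by omega
    exact_mod_cast this
  have hδ0 : 0 < δ₀ := lt_of_lt_of_le (by positivity) hδ
  have hd0 : 0 < db δ₀ := db_pos hδ0
  have hdj : ∀ j, 0 < db (dl δ₀ j) := fun j => db_pos (hδ0.trans_le (le_dl hδ0.le j))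
  have hdj0 : ∀ j, db δ₀ ≤ db (dl δ₀ j) := fun j => db_mono (le_dl hδ0.le j)
  set X : ℝ≥0∞ := EE β (fun ω (_ : SimpleGraph (Fin n)) => ψ (CC δ₀ jx ω)) with hX
  set B : ℕ → Env n → SimpleGraph (Fin n) → ℝ≥0∞ := fun j ω T =>
    ind (A ω T) * (LN T S (CC δ₀ 0 ω) (CC δ₀ j ω) (pl n δ₀ j) ω z : ℝ≥0∞) *
      ψ (CC δ₀ jx ω) with hB
  set B0 : Env n → SimpleGraph (Fin n) → ℝ≥0∞ := fun ω T =>
    ind (A ω T) * ψ (CC δ₀ jx ω) with hB0
  have mψ : Measurable fun ω : Env n => ψ (CC δ₀ jx ω) :=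
    measurable_fin_comp (fun v => measurableSet_mem_CC δ₀ jx v) ψ
  have mB : ∀ j T, Measurable fun ω => B j ω T := fun j T =>
    ((measurable_ind (hA T)).mul (measurable_LN (fun v => measurableSet_mem_CC δ₀ 0 v)
      (fun v => measurableSet_mem_CC δ₀ j v) T S _ z)).mul mψ
  have mB0 : ∀ T, Measurable fun ω => B0 ω T := fun T => (measurable_ind (hA T)).mul mψ
  -- the expectation of the landings
  have hBE : ∀ j ≤ J, EE β (B j) ≤ ENNReal.ofReal (8 * Q ^ 3 * db (dl δ₀ j) / db δ₀) * X := by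
    intro j hj
    have h1 := T3E (by omega : 1 ≤ n) (β := β) (M := 4 * Q) (N0 := db δ₀ * n / Q)
      (Nj := Q * db (dl δ₀ j) * n) (pj := pl n δ₀ j) (by linarith) (by positivity)
      (by have := hdj j; positivity) hS z (fun v => measurableSet_mem_CC δ₀ 0 v)
      (fun v => measurableSet_mem_CC δ₀ j v) (fun v => measurableSet_mem_CC δ₀ jx v) A hA
      (fun ω T hT hAT => by
        obtain ⟨h2, h3, h4⟩ := h ω T hAT
        exact rok_of_good hn hβ hQ hδ h2 hj hjx hT h3 h4) ψ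
    have h2 : 2 * (4 * Q) * (Q * db (dl δ₀ j) * n) / (db δ₀ * n / Q) =
        8 * Q ^ 3 * db (dl δ₀ j) / db δ₀ := by
      field_simp
      ring
    rw [h2] at h1
    exact h1
  have hB0E : EE β B0 ≤ X := by
    refine EE_mono fun ω T _ => ?_
    calc ind (A ω T) * ψ (CC δ₀ jx ω) ≤ 1 * ψ (CC δ₀ jx ω) :=
          mul_le_mul' (ind_le_one _) le_rfl
      _ = _ := one_mul _
  -- the sum
  have hsum : EE β (fun ω T => ind (A ω T) * (hook T S (CC δ₀ 0 ω) z : ℝ≥0∞) *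
      ψ (CC δ₀ jx ω)) ≤ EE β (fun ω T => ∑ j ∈ Finset.range J,
        ENNReal.ofReal (Q / db (dl δ₀ j) + 1) * (2 * B0 ω T + (B (j + 1) ω T + B j ω T))) := by
    refine EE_mono fun ω T hT => ?_
    by_cases hAT : A ω T
    · obtain ⟨h2, h3, h4⟩ := h ω T hAT
      have h5 := hook_le_sum h2 hδ0 hQ hT hS z
      have h6 : (hook T S (CC δ₀ 0 ω) z : ℝ≥0∞) ≤ ∑ j ∈ Finset.range J,
          ENNReal.ofReal (Q / db (dl δ₀ j) + 1) *
          (2 + ((LN T S (CC δ₀ 0 ω) (CC δ₀ (j + 1) ω) (pl n δ₀ (j + 1)) ω z : ℝ≥0∞) +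
            (LN T S (CC δ₀ 0 ω) (CC δ₀ j ω) (pl n δ₀ j) ω z : ℝ≥0∞))) := by
        have h7 := ENNReal.ofReal_le_ofReal h5
        rw [ENNReal.ofReal_natCast, ENNReal.ofReal_sum_of_nonneg (fun j _ => by
          have := hdj j; positivity)] at h7
        refine h7.trans (le_of_eq (Finset.sum_congr rfl fun j _ => ?_))
        have p1 := hdj j
        have e2 : ENNReal.ofReal 2 = 2 := by norm_num
        rw [ENNReal.ofReal_mul (by positivity), mul_comm,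
          ENNReal.ofReal_add (p := 2 + _) (by positivity) (by positivity),
          ENNReal.ofReal_add (p := 2) (by positivity) (by positivity),
          ENNReal.ofReal_natCast, ENNReal.ofReal_natCast, add_assoc, e2]
      have h8 : ind (A ω T) = 1 := by simp [ind, hAT]
      simp only [hB, hB0, h8, one_mul]
      calc (hook T S (CC δ₀ 0 ω) z : ℝ≥0∞) * ψ (CC δ₀ jx ω)
          ≤ (∑ j ∈ Finset.range J, ENNReal.ofReal (Q / db (dl δ₀ j) + 1) *
          (2 + ((LN T S (CC δ₀ 0 ω) (CC δ₀ (j + 1) ω) (pl n δ₀ (j + 1)) ω z : ℝ≥0∞) +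
            (LN T S (CC δ₀ 0 ω) (CC δ₀ j ω) (pl n δ₀ j) ω z : ℝ≥0∞)))) * ψ (CC δ₀ jx ω) :=
            mul_le_mul' h6 le_rfl
        _ = _ := by
            rw [Finset.sum_mul]
            refine Finset.sum_congr rfl fun j _ => ?_
            ring
    · have h8 : ind (A ω T) = 0 := by simp [ind, hAT]
      rw [h8]
      simp
  refine hsum.trans ?_
  rw [EE_sum (Finset.range J) (F := fun j ω T => ENNReal.ofReal (Q / db (dl δ₀ j) + 1) *
    (2 * B0 ω T + (B (j + 1) ω T + B j ω T))) (fun j _ T =>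
      (((mB0 T).const_mul _).add ((mB _ T).add (mB _ T))).const_mul _)]
  have hterm : ∀ j ∈ Finset.range J, EE β (fun ω T => ENNReal.ofReal (Q / db (dl δ₀ j) + 1) *
      (2 * B0 ω T + (B (j + 1) ω T + B j ω T))) ≤
      ENNReal.ofReal (100 * Q ^ 4 / db δ₀) * X := by
    intro j hj
    rw [Finset.mem_range] at hj
    rw [EE_const_mul _ ENNReal.ofReal_ne_top,
      EE_add (F := fun ω T => 2 * B0 ω T) (fun T => (mB0 T).const_mul _),
      EE_add (mB (j + 1)), EE_const_mul 2 (by norm_num)]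
    have c1 := hBE (j + 1) hj
    have c2 := hBE j hj.le
    calc ENNReal.ofReal (Q / db (dl δ₀ j) + 1) * (2 * EE β B0 + (EE β (B (j + 1)) + EE β (B j)))
        ≤ ENNReal.ofReal (Q / db (dl δ₀ j) + 1) * (2 * X +
          (ENNReal.ofReal (8 * Q ^ 3 * db (dl δ₀ (j + 1)) / db δ₀) * X +
            ENNReal.ofReal (8 * Q ^ 3 * db (dl δ₀ j) / db δ₀) * X)) := by
          gcongr
      _ = ENNReal.ofReal ((2 + 8 * Q ^ 3 * db (dl δ₀ (j + 1)) / db δ₀ +
            8 * Q ^ 3 * db (dl δ₀ j) / db δ₀) * (Q / db (dl δ₀ j) + 1)) * X := by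
          have p1 := hdj j
          have p2 := hdj (j + 1)
          have e2 : ENNReal.ofReal 2 = 2 := by norm_num
          rw [ENNReal.ofReal_mul (by positivity),
            ENNReal.ofReal_add (p := 2 + _) (by positivity) (by positivity),
            ENNReal.ofReal_add (p := 2) (by positivity) (by positivity), e2]
          ring
      _ ≤ ENNReal.ofReal (100 * Q ^ 4 / db δ₀) * X :=
          mul_le_mul' (ENNReal.ofReal_le_ofReal (hook_const hQ hd0 (hdj0 j)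
            (db_succ_le δ₀ hδ0.le j) (min_le_right _ _))) le_rfl
  refine (Finset.sum_le_sum hterm).trans (le_of_eq ?_)
  rw [Finset.sum_const, Finset.card_range, nsmul_eq_mul]
  have e3 : 100 * (J : ℝ) * Q ^ 4 / db δ₀ = (J : ℝ) * (100 * Q ^ 4 / db δ₀) := by ring
  rw [e3, ENNReal.ofReal_mul (Nat.cast_nonneg _), ENNReal.ofReal_natCast, mul_assoc]

/-- `T4E` in a good environment -/
theorem rel_exp (hn : 2 ≤ n) {β δ₀ Q : ℝ} {J jX jx : ℕ} (hβ : 0 < β) (hQ : 1 ≤ Q)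
    (hδ : 1 / (n : ℝ) ≤ δ₀) (hjx : jx ≤ J)
    {S : Finset (Fin n)} (hS : S.Nonempty) (z : Fin n) {θ : ℝ}
    (A : Env n → SimpleGraph (Fin n) → Prop) (hA : ∀ T, MeasurableSet {ω | A ω T})
    (h : ∀ ω T, A ω T → GoodEnv β δ₀ Q J jX ω ∧ TupOK T S (CC δ₀ jx ω) θ ∧
      2 * (θ * (CC δ₀ jx ω).card + Q + 1) ≤ (CC δ₀ 0 ω).card)
    (s : ℕ) {b : ℝ} (hb : 0 ≤ b) (ψ : Finset (Fin n) → ℝ≥0∞) :
    EE β (fun ω T => ind (A ω T ∧ z ∉ CC δ₀ 0 ω ∧
        hook T S (CC δ₀ 0 ω) z < hgt T S z ∧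
        s < hgt T S (dn T S z (hook T S (CC δ₀ 0 ω) z)) ∧
        (((CC δ₀ 0 ω).filter fun q => s < hgt T S q).card : ℝ) ≤ b) * ψ (CC δ₀ jx ω)) ≤
      ENNReal.ofReal (8 * Q ^ 2 * b / (db δ₀ * n)) * EE β (fun ω _ => ψ (CC δ₀ jx ω)) := by
  have hn1 : (0 : ℝ) < n := by
    have : 0 < n := by omega
    exact_mod_cast this
  have hδ0 : 0 < δ₀ := lt_of_lt_of_le (by positivity) hδ
  have hd0 : 0 < db δ₀ := db_pos hδ0
  have h1 := T4E (by omega : 1 ≤ n) (β := β) (M := 4 * Q) (N0 := db δ₀ * n / Q)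
    (Nj := Q * db (dl δ₀ 0) * n) (p0 := pl n δ₀ 0) (by linarith) (by positivity)
    hS z (fun v => measurableSet_mem_CC δ₀ 0 v) (fun v => measurableSet_mem_CC δ₀ jx v) A hA
    (fun ω T hT hAT => by
      obtain ⟨h2, h3, h4⟩ := h ω T hAT
      exact rok_of_good hn hβ hQ hδ h2 (Nat.zero_le _) hjx hT h3 h4)
    (fun ω T p q _ hq hp => bigC_closed hq hp) s hb ψ
  have h2 : 2 * (4 * Q) * b / (db δ₀ * n / Q) = 8 * Q ^ 2 * b / (db δ₀ * n) := by
    field_simp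
    ring
  rw [h2] at h1
  exact h1

end RST
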