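import Pool.Agent.Work.MP_5ba30e_pr.Reloc
import Pool.Agent.Work.MP_5ba30e_pr.Runs
import Pool.Agent.Work.MP_5ba30e_pr.Meas

/-!
# BridgeR_rok_of_good : in a good environment relocation is possible (K2)
-/

open MeasureTheory Set Filter Finset
open scoped ENNReal Topology Classical

noncomputable section

namespace RST

variable {n : ℕ}

theorem dl_mono {δ₀ : ℝ} (hδ : 0 ≤ δ₀) {i j : ℕ} (hij : i ≤ j) : dl δ₀ i ≤ dl δ₀ j := by
  unfold dl
  exact mul_le_mul_of_nonneg_left (pow_le_pow_right₀ (by norm_num) hij) hδ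

theorem le_dl {δ₀ : ℝ} (hδ : 0 ≤ δ₀) (j : ℕ) : δ₀ ≤ dl δ₀ j := by
  have h := dl_mono hδ (Nat.zero_le j)
  unfold dl at h ⊢
  rw [pow_zero, mul_one] at h
  exact h

theorem pl_mono {δ₀ : ℝ} (hδ : 0 ≤ δ₀) {i j : ℕ} (hij : i ≤ j) : pl n δ₀ i ≤ pl n δ₀ j := by
  unfold pl
  have := dl_mono hδ hij
  gcongr

theorem db_mono {δ δ' : ℝ} (h : δ ≤ δ') : db δ ≤ db δ' := min_le_min_right 1 h

theorem db_pos {δ : ℝ} (h : 0 < δ) : 0 < db δ := lt_min h one_pos

theorem one_div_le_db (hn : 1 ≤ n) {δ₀ : ℝ} (hδ : 1 / (n : ℝ) ≤ δ₀) (j : ℕ) :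
    1 / (n : ℝ) ≤ db (dl δ₀ j) := by
  have hn0 : (1 : ℝ) ≤ n := by exact_mod_cast hn
  have h0 : 0 ≤ δ₀ := le_trans (by positivity) hδ
  refine le_min (hδ.trans (le_dl h0 j)) ?_
  rw [div_le_one (by linarith)]
  exact hn0

/-- cost of a path of `Gr ω r` with few edges of value `> r - 2 log n / β` -/
theorem walk_cost (hn : 1 ≤ n) {β r Q d : ℝ} (hβ : 0 < β) (hQ : 0 ≤ Q) (hd : 1 / (n : ℝ) ≤ d)
    {ω : Env n} {u v : Fin n} (w : (Gr ω r).Walk u v) (hl : (w.length : ℝ) ≤ Q / d)
    (hc : (cntW ω (r - 2 * Real.log n / β) w : ℝ) ≤ Q) :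
    ∑ g ∈ w.edges.toFinset, (ww β ω g)⁻¹ ≤ 2 * Q * Real.exp (β * r) := by
  have hn0 : (1 : ℝ) ≤ n := by exact_mod_cast hn
  have hn1 : (0 : ℝ) < n := by linarith
  have hd0 : 0 < d := lt_of_lt_of_le (by positivity) hd
  have hval : ∀ g ∈ w.edges, ω g ≤ r := by
    intro g hg
    have h1 := w.edges_subset_edgeSet hg
    induction g with
    | _ a b =>
      exact (Gr_adj.1 ((SimpleGraph.mem_edgeSet _).1 h1)).2
  have hw : ∀ g, (ww β ω g)⁻¹ = Real.exp (β * ω g) := by
    intro g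
    unfold ww
    rw [← Real.exp_neg, neg_neg]
  set p' := r - 2 * Real.log n / β with hp'
  rw [← Finset.sum_filter_add_sum_filter_not w.edges.toFinset (fun g => p' < ω g)]
  have h1 : ∑ g ∈ w.edges.toFinset.filter (fun g => p' < ω g), (ww β ω g)⁻¹ ≤
      Q * Real.exp (β * r) := by
    have h2 : ∑ g ∈ w.edges.toFinset.filter (fun g => p' < ω g), (ww β ω g)⁻¹ ≤
        ∑ g ∈ w.edges.toFinset.filter (fun g => p' < ω g), Real.exp (β * r) := by
      refine Finset.sum_le_sum fun g hg => ?_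
      rw [Finset.mem_filter, List.mem_toFinset] at hg
      rw [hw]
      exact Real.exp_le_exp.2 (mul_le_mul_of_nonneg_left (hval g hg.1) hβ.le)
    rw [Finset.sum_const, nsmul_eq_mul] at h2
    have h3 : ((w.edges.toFinset.filter (fun g => p' < ω g)).card : ℝ) ≤ Q := by
      refine le_trans ?_ hc
      have h4 : w.edges.toFinset.filter (fun g => p' < ω g) ⊆
          (w.edges.filter fun g => p' < ω g).toFinset := by
        intro g hg
        rw [Finset.mem_filter, List.mem_toFinset] at hg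
        rw [List.mem_toFinset, List.mem_filter]
        exact ⟨hg.1, by simpa using hg.2⟩
      have h5 := (Finset.card_le_card h4).trans (List.toFinset_card_le _)
      unfold cntW
      exact_mod_cast h5
    exact h2.trans (mul_le_mul_of_nonneg_right h3 (Real.exp_pos _).le)
  have h2 : ∑ g ∈ w.edges.toFinset.filter (fun g => ¬ p' < ω g), (ww β ω g)⁻¹ ≤
      Q * Real.exp (β * r) := by
    have h3 : ∑ g ∈ w.edges.toFinset.filter (fun g => ¬ p' < ω g), (ww β ω g)⁻¹ ≤
        ∑ g ∈ w.edges.toFinset.filter (fun g => ¬ p' < ω g),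
          Real.exp (β * r) * (1 / (n : ℝ) ^ 2) := by
      refine Finset.sum_le_sum fun g hg => ?_
      rw [Finset.mem_filter, List.mem_toFinset, not_lt] at hg
      rw [hw]
      have h4 : β * ω g ≤ β * r - 2 * Real.log n := by
        calc β * ω g ≤ β * p' := mul_le_mul_of_nonneg_left hg.2 hβ.le
          _ = β * r - 2 * Real.log n := by rw [hp']; field_simp
      have h5 : Real.exp (-(2 * Real.log n)) = 1 / (n : ℝ) ^ 2 := by
        rw [Real.exp_neg, mul_comm, Real.exp_mul, Real.exp_log hn1]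
        norm_num
      calc Real.exp (β * ω g) ≤ Real.exp (β * r - 2 * Real.log n) := Real.exp_le_exp.2 h4
        _ = Real.exp (β * r) * (1 / (n : ℝ) ^ 2) := by
          rw [sub_eq_add_neg, Real.exp_add, h5]
    rw [Finset.sum_const, nsmul_eq_mul] at h3
    have h4 : ((w.edges.toFinset.filter (fun g => ¬ p' < ω g)).card : ℝ) ≤ Q * n := by
      have h5 : ((w.edges.toFinset.filter (fun g => ¬ p' < ω g)).card : ℝ) ≤ w.length := by
        have h6 := (Finset.card_filter_le (w.edges.toFinset) (fun g => ¬ p' < ω g)).trans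
          (List.toFinset_card_le _)
        rw [SimpleGraph.Walk.length_edges] at h6
        exact_mod_cast h6
      refine h5.trans (hl.trans ?_)
      rw [div_le_iff₀ hd0]
      have h7 : 1 ≤ (n : ℝ) * d := by
        rw [div_le_iff₀ hn1] at hd
        linarith
      nlinarith
    refine h3.trans ?_
    calc ((w.edges.toFinset.filter (fun g => ¬ p' < ω g)).card : ℝ) *
          (Real.exp (β * r) * (1 / (n : ℝ) ^ 2))
        ≤ (Q * n) * (Real.exp (β * r) * (1 / (n : ℝ) ^ 2)) :=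
          mul_le_mul_of_nonneg_right h4 (by positivity)
      _ = Q * Real.exp (β * r) * (1 / n) := by field_simp
      _ ≤ Q * Real.exp (β * r) * 1 := by
          apply mul_le_mul_of_nonneg_left _ (by positivity)
          rw [div_le_one hn1]
          exact hn0
      _ = _ := mul_one _
  linarith

/-- an edge `{p,a}` followed by a walk of `Gr ω r` from `a` to `b` -/
theorem pathCost_cons {β r ρ : ℝ} {ω : Env n} {p a b : Fin n} (hpa : p ≠ a) (hab : a ≠ b)
    (hb : r < ω s(p, b)) (w : (Gr ω r).Walk a b)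
    (hc : ∑ g ∈ w.edges.toFinset, (ww β ω g)⁻¹ ≤ ρ) : PathCost β ω s(p, b) s(p, a) ρ := by
  have hval : ∀ g ∈ w.edges, ω g ≤ r := by
    intro g hg
    have h1 := w.edges_subset_edgeSet hg
    induction g with
    | _ a b =>
      exact (Gr_adj.1 ((SimpleGraph.mem_edgeSet _).1 h1)).2
  have hle : Gr ω r ≤ ⊤ := le_top
  refine ⟨p, b, SimpleGraph.Walk.cons ((SimpleGraph.top_adj _ _).2 hpa) (w.mapLe hle), rfl, ?_, ?_⟩
  · rw [SimpleGraph.Walk.edges_cons, List.mem_cons, SimpleGraph.Walk.edges_mapLe_eq_edges]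
    rintro (h1 | h1)
    · rw [Sym2.congr_right] at h1
      exact hab h1.symm
    · exact absurd (hval _ h1) (not_le.2 hb)
  · rw [SimpleGraph.Walk.edges_cons, SimpleGraph.Walk.edges_mapLe_eq_edges]
    refine le_trans (Finset.sum_le_sum_of_subset_of_nonneg ?_ ?_) hc
    · intro g hg
      rw [Finset.mem_erase, List.mem_toFinset, List.mem_cons] at hg
      rw [List.mem_toFinset]
      exact hg.2.resolve_left hg.1
    · intro g _ _
      exact inv_nonneg.2 (ww_pos β ω g).le

theorem rok_of_good (hn : 2 ≤ n) {β δ₀ Q θ : ℝ} {J jX jx j : ℕ} {ω : Env n} (hβ : 0 < β)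
    (hQ : 1 ≤ Q) (hδ : 1 / (n : ℝ) ≤ δ₀) (h : GoodEnv β δ₀ Q J jX ω) (hj : j ≤ J) (hjx : jx ≤ J)
    {S : Finset (Fin n)} {T : SimpleGraph (Fin n)}
    (hT : T.IsTree) (hlite : TupOK T S (CC δ₀ jx ω) θ)
    (hc : 2 * (θ * (CC δ₀ jx ω).card + Q + 1) ≤ (CC δ₀ 0 ω).card) :
    ROK β (4 * Q) (db δ₀ * n / Q) (Q * db (dl δ₀ j) * n) (pl n δ₀ j) S (CC δ₀ 0) (CC δ₀ j)
      (CC δ₀ jx) ω T := by
  have hn1 : (0 : ℝ) < n := by
    have : 0 < n := by omega
    exact_mod_cast this
  have hδ0 : 0 < δ₀ := lt_of_lt_of_le (by positivity) hδ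
  have hinv : ∀ p q q', RelOK (CC δ₀ 0) (CC δ₀ j) (pl n δ₀ j) ω p q q' → ∀ i,
      CC δ₀ i (sw s(p, q) s(p, q') ω) = CC δ₀ i ω := by
    rintro p q q' ⟨h1, h2, h3, h4, h5, h6⟩ i
    obtain ⟨w, -⟩ := h.conn j hj q h1 q' (CC_mono h (Nat.zero_le _) hj h2)
    unfold CC
    exact bigC_congr (fun u v => reach_reloc h3 h4 h5 h6 ⟨w⟩ _ u v) _
  refine ⟨h.low, h.upp j hj, ?_, ?_, fun p q q' hr => hinv p q q' hr 0,
    fun p q q' hr => hinv p q q' hr j, fun p q q' hr => hinv p q q' hr jx⟩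
  · intro a b hab
    have h1 := hlite a b hab
    have h2 := h.deg a
    have hsub : ((CC δ₀ 0 ω).filter fun q' => q' ∈ side T s(a, b) a ∨ q' = b ∨
        ω s(a, q') ≤ pl n δ₀ j) ⊆ (side T s(a, b) a ∩ CC δ₀ jx ω) ∪
        ((Finset.univ.filter fun y => (Gr ω (pl n δ₀ J)).Adj a y) ∪ {b}) := by
      intro q hq
      rw [Finset.mem_filter] at hq
      obtain ⟨hq0, hq1⟩ := hq
      have hqX := CC_mono h (Nat.zero_le _) hjx hq0
      rw [Finset.mem_union, Finset.mem_inter, Finset.mem_union, Finset.mem_filter,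
        Finset.mem_singleton]
      by_cases hqs : q ∈ side T s(a, b) a
      · exact Or.inl ⟨hqs, hqX⟩
      · rcases hq1 with hq1 | hq1 | hq1
        · exact absurd hq1 hqs
        · exact Or.inr (Or.inr hq1)
        · right; left
          refine ⟨Finset.mem_univ _, Gr_adj.2 ⟨?_, hq1.trans (pl_mono hδ0.le hj)⟩⟩
          rintro rfl
          exact hqs self_mem_side
    have h3 := (Finset.card_le_card hsub).trans (Finset.card_union_le _ _)
    have h4 := Finset.card_union_le (Finset.univ.filter fun y => (Gr ω (pl n δ₀ J)).Adj a y) {b}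
    rw [Finset.card_singleton] at h4
    have h5 : (((CC δ₀ 0 ω).filter fun q' => q' ∈ side T s(a, b) a ∨ q' = b ∨
        ω s(a, q') ≤ pl n δ₀ j).card : ℝ) ≤ ((side T s(a, b) a ∩ CC δ₀ jx ω).card : ℝ) +
        (((Finset.univ.filter fun y => (Gr ω (pl n δ₀ J)).Adj a y).card : ℝ) + 1) := by
      have h6 := h3.trans (Nat.add_le_add_left h4 _)
      exact_mod_cast h6
    linarith
  · rintro p q q' ⟨h1, h2, h3, h4, h5, h6⟩
    have hZ := Zf_pos (by omega : 1 ≤ n) β ω
    by_cases hqq : q = q'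
    · subst hqq
      have h7 : sw s(p, q) s(p, q) ω = ω := by
        funext g
        simp [sw]
      rw [h7]
      nlinarith
    · have hq' := CC_mono h (Nat.zero_le _) hj h2
      have hd := one_div_le_db (by omega : 1 ≤ n) hδ j
      obtain ⟨w, w1, w2, w3⟩ := h.conn j hj q h1 q' hq'
      obtain ⟨v, v1, v2, v3⟩ := h.conn j hj q' hq' q h1
      have c1 := walk_cost (by omega : 1 ≤ n) hβ (by linarith) hd w w2 w3
      have c2 := walk_cost (by omega : 1 ≤ n) hβ (by linarith) hd v v2 v3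
      have k1 := pathCost_cons (β := β) h3 hqq h6 w c1
      have k2 := pathCost_cons (β := β) h4 (Ne.symm hqq) h5 v c2
      have hfe : s(p, q) ≠ s(p, q') := by
        rw [Ne, Sym2.congr_right]
        exact hqq
      have hz := Zf_sw_le (by omega : 1 ≤ n) hβ.le (by positivity) hfe
        (by simpa using h3) (by simpa using h4) (fun _ => k1) (fun _ => k2)
      refine hz.trans (mul_le_mul_of_nonneg_right ?_ hZ.le)
      have hm : max (ww β ω s(p, q)) (ww β ω s(p, q')) ≤ Real.exp (-(β * pl n δ₀ j)) := by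
        apply max_le
        · exact Real.exp_le_exp.2 (neg_le_neg (mul_le_mul_of_nonneg_left h5.le hβ.le))
        · exact Real.exp_le_exp.2 (neg_le_neg (mul_le_mul_of_nonneg_left h6.le hβ.le))
      have he : Real.exp (-(β * pl n δ₀ j)) * Real.exp (β * pl n δ₀ j) = 1 := by
        rw [← Real.exp_add]
        simp
      have h7 : max (ww β ω s(p, q)) (ww β ω s(p, q')) * (2 * Q * Real.exp (β * pl n δ₀ j)) ≤
          Real.exp (-(β * pl n δ₀ j)) * (2 * Q * Real.exp (β * pl n δ₀ j)) :=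
        mul_le_mul_of_nonneg_right hm (by positivity)
      have h8 : Real.exp (-(β * pl n δ₀ j)) * (2 * Q * Real.exp (β * pl n δ₀ j)) = 2 * Q := by
        linear_combination (2 * Q) * he
      linarith

end RST
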