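import Pool.Agent.Work.MP_5ba30e_pr.Explore

/-!
# Chern : Chernoff bounds for `bnd`

`bnd_le`: `C(N,m) s^m (1-s)^{N-m} ≤ z^{-m} (1 - s + s z)^N` with `N = n-ℓ`, `m = τ-ℓ`,
`s = 1 - (1-p)^τ` (one term of the binomial expansion of `(s z + (1-s))^N`).

`bnd_super`: `z = 1 - θ`, `θ = γ/4`, `- log z ≤ θ + θ²` (`θ ≤ 1/2`), `1 - s(1-z) ≤ exp(-θ s)`.
`q^τ ≤ exp(-pτ)`, so `s ≥ 1 - exp(-(1+δ) τ/n)`, and by concavity (`real_lemma`, `τ/n ≤ x*`)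
`s ≥ (τ/n)(1+γ)`.  Exponent: `-θ((n-ℓ)s - (τ-ℓ)) + θ²(τ-ℓ)`, and
`(n-ℓ)(τ/n)(1+γ) - (τ-ℓ) = γτ(1-ℓ/n) + ℓ(1-τ/n) ≥ γτ/2 + ℓ/(1+1.7δ)`; total
`≤ -γ²τ/8 - γℓ/(4(1+1.7δ)) + γ²τ/16`.

`real_lemma`: for `x = x*` : `exp(-(1+δ)x*) ≤ 1 - x*(1+γ)`, i.e. (with `y = 1+1.7δ`, `1-x* = 1/y`)
`(1+δ)x* ≥ log y - log(1 - 1.7γδ)`; `-log(1-u) ≤ 1.1u` for `0 ≤ u ≤ 0.17`, `(1+δ)² ≥ y`, so it is
enough that `h(δ) = 1.7δ(1+δ) - (1+1.7δ)log(1+1.7δ) - 0.187δ² ≥ 0`: `h(0)=0`,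
`h' = 3.026δ - 1.7 log(1+1.7δ) ≥ 0`.  For `x ≤ x*` use that `1 - exp(-(1+δ)x)` is concave and
vanishes at `0`.

`bnd_sub`: `z = 1+δ`; `s ≤ pτ`; exponent `δ(1-δ)τ - (δ-δ²/2)(τ-1) ≤ -δ²τ/2 + 1`.

`bnd_ball`: `z = 1-3δ`; `s ≥ 1 - exp(-pτ) ≥ pτ(1-pτ/2)`; `(n-ℓ)s ≥ (1-1.1δ)τ`; exponent
`-3δ(1-1.1δ)τ + (3δ+9δ²)(τ-ℓ) ≤ 12.3δ²τ - 3δℓ`.
-/

open MeasureTheory Set Filter Finset
open scoped ENNReal Topology Classical

noncomputable section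

namespace RST

/-- lower bound for the proportion of the giant component at the level `(1+δ)/n` -/
def xs (δ : ℝ) : ℝ := 1.7 * δ / (1 + 1.7 * δ)

/-- the drift -/
def gm (δ : ℝ) : ℝ := δ / (10 * (1 + δ) ^ 2)

theorem Chern.log_le {y : ℝ} (hy : 1 ≤ y) : Real.log y ≤ (y - y⁻¹) / 2 := by
  have h := Real.self_le_sinh_iff.2 (Real.log_nonneg hy)
  rwa [Real.sinh_log (by linarith)] at h

theorem Chern.exp_neg_le {u : ℝ} (h0 : 0 ≤ u) (h1 : u ≤ 1 / 2) :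
    Real.exp (-(u + u ^ 2)) ≤ 1 - u := by
  have hp : (0 : ℝ) < 1 - u := by linarith
  have h := Chern.log_le (y := (1 - u)⁻¹) (by
    rw [one_le_inv₀ hp]; linarith)
  rw [Real.log_inv, inv_inv] at h
  have h2 : ((1 - u)⁻¹ - (1 - u)) / 2 ≤ u + u ^ 2 := by
    rw [div_le_iff₀ (by norm_num), sub_le_iff_le_add, inv_le_iff_one_le_mul₀ hp]
    nlinarith [mul_nonneg h0 (mul_nonneg h0 (by linarith : (0:ℝ) ≤ 1 / 2 - u))]
  rw [← Real.le_log_iff_exp_le hp]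
  linarith

theorem Chern.exp_quad {x : ℝ} (hx : 0 ≤ x) : Real.exp (-x) ≤ 1 - x + x ^ 2 / 2 := by
  have h := Real.quadratic_le_exp_of_nonneg hx
  have h1 : 0 < 1 - x + x ^ 2 / 2 := by nlinarith [sq_nonneg (x - 1)]
  rw [Real.exp_neg, inv_le_comm₀ (Real.exp_pos _) h1, inv_le_iff_one_le_mul₀ h1]
  nlinarith [sq_nonneg x, sq_nonneg (x ^ 2), mul_le_mul_of_nonneg_left h h1.le]

theorem Chern.gm_pos {δ : ℝ} (hδ : 0 < δ) : 0 < gm δ := by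
  unfold gm
  positivity

theorem Chern.gm_le {δ : ℝ} (hδ : 0 < δ) : gm δ ≤ 1 / 40 := by
  unfold gm
  rw [div_le_div_iff₀ (by positivity) (by norm_num)]
  nlinarith [sq_nonneg (δ - 1)]

theorem Chern.xs_pos {δ : ℝ} (hδ : 0 < δ) : 0 < xs δ := by
  unfold xs
  positivity

theorem Chern.one_sub_xs {δ : ℝ} (hδ : 0 < δ) : 1 - xs δ = 1 / (1 + 1.7 * δ) := by
  unfold xs
  have : (1 + 1.7 * δ) ≠ 0 := by positivity
  field_simp
  ring

theorem Chern.real_star {δ : ℝ} (hδ : 0 < δ) :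
    xs δ * (1 + gm δ) ≤ 1 - Real.exp (-((1 + δ) * xs δ)) := by
  set y : ℝ := 1 + 1.7 * δ with hy
  have hy1 : 1 ≤ y := by rw [hy]; linarith [mul_pos (show (0:ℝ) < 1.7 by norm_num) hδ]
  have hy0 : 0 < y := by linarith
  set u : ℝ := 0.17 * δ ^ 2 / (1 + δ) ^ 2 with hu
  have hd : (0:ℝ) < (1 + δ) ^ 2 := by positivity
  have hu0 : 0 ≤ u := by positivity
  have hu1 : u ≤ 0.17 := by
    rw [hu, div_le_iff₀ hd]
    nlinarith
  have hlog := Chern.log_le hy1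
  have hxs : xs δ = 1.7 * δ / y := rfl
  have key : Real.log y + 1.5 * u ≤ (1 + δ) * xs δ := by
    have h1 : (y - y⁻¹) / 2 + 1.5 * u ≤ (1 + δ) * xs δ := by
      have h2 : y * ((y - y⁻¹) / 2) = (y ^ 2 - 1) / 2 := by field_simp
      have h3 : y * ((1 + δ) * xs δ) = 1.7 * δ * (1 + δ) := by
        rw [hxs]; field_simp
      have h4 : y * u ≤ 0.17 * δ ^ 2 := by
        rw [hu, ← mul_div_assoc, div_le_iff₀ hd]
        have : y ≤ (1 + δ) ^ 2 := by rw [hy]; nlinarith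
        nlinarith [mul_nonneg (sq_nonneg δ) (sub_nonneg.2 this)]
      have h5 : y * ((y - y⁻¹) / 2 + 1.5 * u) ≤ y * ((1 + δ) * xs δ) := by
        rw [mul_add, h2, h3]
        have : y * (1.5 * u) = 1.5 * (y * u) := by ring
        rw [this, hy]
        rw [hy] at h4
        nlinarith
      exact le_of_mul_le_mul_left h5 hy0
    linarith
  have h6 : Real.exp (-((1 + δ) * xs δ)) ≤ y⁻¹ * (1 - u) := by
    calc Real.exp (-((1 + δ) * xs δ)) ≤ Real.exp (-Real.log y + -(1.5 * u)) := by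
          apply Real.exp_le_exp.2; linarith
      _ = y⁻¹ * Real.exp (-(1.5 * u)) := by
          rw [Real.exp_add, Real.exp_neg, Real.exp_log hy0]
      _ ≤ y⁻¹ * (1 - u) := by
          refine mul_le_mul_of_nonneg_left ?_ (by positivity)
          have := Chern.exp_quad (x := 1.5 * u) (by positivity)
          nlinarith
  have h7 : xs δ * (1 + gm δ) = 1 - y⁻¹ * (1 - u) := by
    rw [hxs, hu]
    unfold gm
    have : 1 + δ ≠ 0 := by positivity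
    field_simp
    rw [hy]
    ring
  linarith

theorem real_lemma {δ x : ℝ} (hδ : 0 < δ) (hx : 0 ≤ x) (hx1 : x ≤ xs δ) :
    x * (1 + gm δ) ≤ 1 - Real.exp (-((1 + δ) * x)) := by
  have hs := Chern.real_star hδ
  have h0 := Chern.xs_pos hδ
  set l := x / xs δ with hl
  have hl0 : 0 ≤ l := by positivity
  have hl1 : l ≤ 1 := by rw [hl, div_le_one h0]; exact hx1
  have hxl : x = l * xs δ := by rw [hl]; field_simp
  have hc := convexOn_exp.2 (Set.mem_univ (-((1 + δ) * xs δ))) (Set.mem_univ 0) hl0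
    (by linarith : 0 ≤ 1 - l) (by ring)
  simp only [smul_eq_mul, mul_zero, add_zero, Real.exp_zero, mul_one] at hc
  have e : -((1 + δ) * x) = l * -((1 + δ) * xs δ) := by rw [hxl]; ring
  rw [e]
  have h2 := mul_le_mul_of_nonneg_left hs hl0
  have h3 : x * (1 + gm δ) = l * (xs δ * (1 + gm δ)) := by rw [hxl]; ring
  rw [h3]
  linarith

theorem bnd_le {n ℓ τ : ℕ} {p z : ℝ} (hp : 0 ≤ p) (hp1 : p ≤ 1) (hz : 0 < z) (hℓ : ℓ ≤ τ)
    (hτ : τ ≤ n) :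
    bnd n p ℓ τ ≤ (1 - (1 - (1 - p) ^ τ) * (1 - z)) ^ (n - ℓ) / z ^ (τ - ℓ) := by
  unfold bnd
  set s : ℝ := 1 - (1 - p) ^ τ with hs
  have hq0 : 0 ≤ 1 - p := by linarith
  have hq1 : (1 - p) ^ τ ≤ 1 := pow_le_one₀ hq0 (by linarith)
  have hs0 : 0 ≤ s := by rw [hs]; linarith
  have hs1 : 0 ≤ 1 - s := by rw [hs]; linarith [pow_nonneg hq0 τ]
  rw [le_div_iff₀ (pow_pos hz _)]
  have e1 : (1 - p) ^ (τ * (n - τ)) = (1 - s) ^ (n - ℓ - (τ - ℓ)) := by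
    have : n - ℓ - (τ - ℓ) = n - τ := by omega
    rw [this, hs, pow_mul]
    congr 1
    ring
  rw [e1]
  have e2 : 1 - s * (1 - z) = s * z + (1 - s) := by ring
  rw [e2, add_pow]
  refine le_trans (le_of_eq ?_) (Finset.single_le_sum (f := fun m => (s * z) ^ m *
    (1 - s) ^ (n - ℓ - m) * ((n - ℓ).choose m : ℝ)) (fun i _ => by positivity)
    (Finset.mem_range.2 (show τ - ℓ < n - ℓ + 1 by omega)))
  simp only [mul_pow]
  ring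

theorem Chern.s_lower {τ : ℕ} {p : ℝ} (hp1 : p ≤ 1) :
    1 - Real.exp (-(p * τ)) ≤ 1 - (1 - p) ^ τ := by
  have h1 : 1 - p ≤ Real.exp (-p) := by
    have := Real.add_one_le_exp (-p)
    linarith
  have h2 : (1 - p) ^ τ ≤ Real.exp (-p) ^ τ := pow_le_pow_left₀ (by linarith) h1 _
  rw [← Real.exp_nat_mul] at h2
  have e : (τ : ℝ) * -p = -(p * τ) := by ring
  rw [e] at h2
  linarith

theorem Chern.pow_le_exp {a : ℝ} (ha : 0 ≤ 1 - a) (N : ℕ) :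
    (1 - a) ^ N ≤ Real.exp (-(a * N)) := by
  have h1 : 1 - a ≤ Real.exp (-a) := by
    have := Real.add_one_le_exp (-a)
    linarith
  have h2 := pow_le_pow_left₀ ha h1 N
  rw [← Real.exp_nat_mul] at h2
  have e : (N : ℝ) * -a = -(a * N) := by ring
  rwa [e] at h2

theorem Chern.inv_pow_le {u : ℝ} (h0 : 0 ≤ u) (h1 : u ≤ 1 / 2) (m : ℕ) :
    1 / (1 - u) ^ m ≤ Real.exp ((u + u ^ 2) * m) := by
  have h := Chern.exp_neg_le h0 h1
  have hp : 0 < 1 - u := by linarith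
  rw [div_le_iff₀ (pow_pos hp m)]
  have h2 := pow_le_pow_left₀ (Real.exp_pos _).le h m
  rw [← Real.exp_nat_mul] at h2
  calc (1 : ℝ) = Real.exp ((u + u ^ 2) * m) * Real.exp (m * -(u + u ^ 2)) := by
        rw [← Real.exp_add]; ring_nf; simp
    _ ≤ _ := mul_le_mul_of_nonneg_left h2 (Real.exp_pos _).le

theorem bnd_super {n ℓ τ : ℕ} {δ : ℝ} (hδ : 0 < δ) (hp : (1 + δ) / n ≤ 1) (hℓ1 : 1 ≤ ℓ)
    (hℓ : ℓ ≤ τ) (hℓn : 2 * ℓ ≤ n) (hτ : (τ : ℝ) ≤ xs δ * n) :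
    bnd n ((1 + δ) / n) ℓ τ ≤
      Real.exp (-(gm δ ^ 2 * τ / 16) - gm δ * ℓ / (4 * (1 + 1.7 * δ))) := by
  have hn0 : (0 : ℝ) < n := by
    have : 0 < n := by omega
    exact_mod_cast this
  have hg := Chern.gm_pos hδ
  have hg1 := Chern.gm_le hδ
  have hx1 : 1 - xs δ = 1 / (1 + 1.7 * δ) := Chern.one_sub_xs hδ
  have hxlt : xs δ ≤ 1 := by
    have : 0 < 1 / (1 + 1.7 * δ) := by positivity
    linarith
  have hτn : τ ≤ n := by
    have : (τ : ℝ) ≤ n := hτ.trans (by nlinarith)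
    exact_mod_cast this
  have hp0 : 0 ≤ (1 + δ) / n := by positivity
  set θ : ℝ := gm δ / 4 with hθ
  have hθ0 : 0 ≤ θ := by positivity
  have hθ1 : θ ≤ 1 / 2 := by rw [hθ]; linarith
  have h1 := bnd_le (z := 1 - θ) hp0 hp (by linarith) hℓ hτn
  set s : ℝ := 1 - (1 - (1 + δ) / n) ^ τ with hs
  have hs1 : s ≤ 1 := by
    rw [hs]; linarith [pow_nonneg (sub_nonneg.2 hp) τ]
  have hs2 : (τ : ℝ) / n * (1 + gm δ) ≤ s := by
    have h2 := real_lemma (x := (τ : ℝ) / n) hδ (by positivity) (by rwa [div_le_iff₀ hn0])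
    have h3 := Chern.s_lower (τ := τ) hp
    have e : (1 + δ) / (n : ℝ) * τ = (1 + δ) * (τ / n) := by ring
    rw [e] at h3
    linarith
  have e1 : 1 - s * (1 - (1 - θ)) = 1 - s * θ := by ring
  rw [e1] at h1
  have hsn : 0 ≤ s := le_trans (by positivity) hs2
  have h4 : (1 - s * θ) ^ (n - ℓ) ≤ Real.exp (-(s * θ * ((n - ℓ : ℕ) : ℝ))) :=
    Chern.pow_le_exp (by nlinarith) _
  have h5 := Chern.inv_pow_le hθ0 hθ1 (τ - ℓ)
  have h6 : bnd n ((1 + δ) / n) ℓ τ ≤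
      Real.exp (-(s * θ * ((n - ℓ : ℕ) : ℝ))) * Real.exp ((θ + θ ^ 2) * ((τ - ℓ : ℕ) : ℝ)) := by
    refine h1.trans ?_
    rw [div_eq_mul_one_div]
    exact mul_le_mul h4 h5 (one_div_nonneg.2 (pow_nonneg (by linarith) _)) (Real.exp_pos _).le
  refine h6.trans ?_
  rw [← Real.exp_add]
  apply Real.exp_le_exp.2
  rw [Nat.cast_sub (by omega : ℓ ≤ n), Nat.cast_sub hℓ]
  have hℓn' : (ℓ : ℝ) / n ≤ 1 / 2 := by
    rw [div_le_iff₀ hn0]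
    have : (2 : ℝ) * ℓ ≤ n := by exact_mod_cast hℓn
    linarith
  have hℓτ : (ℓ : ℝ) ≤ τ := by exact_mod_cast hℓ
  have hℓ0 : (0 : ℝ) ≤ ℓ := by positivity
  have hτ0 : (0 : ℝ) ≤ τ := by positivity
  have hnl : (0 : ℝ) ≤ (n : ℝ) - ℓ := by
    have : (ℓ : ℝ) ≤ n := by exact_mod_cast (by omega : ℓ ≤ n)
    linarith
  have h7 : (τ : ℝ) / n * (1 + gm δ) * ((n : ℝ) - ℓ) ≤ s * ((n : ℝ) - ℓ) :=
    mul_le_mul_of_nonneg_right hs2 hnl
  have h8 : (τ : ℝ) / n * (1 + gm δ) * ((n : ℝ) - ℓ) - (τ - ℓ) =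
      gm δ * τ * (1 - ℓ / n) + ℓ * (1 - τ / n) := by
    field_simp
    ring
  have h9 : gm δ * τ * (1 / 2) ≤ gm δ * τ * (1 - ℓ / n) :=
    mul_le_mul_of_nonneg_left (by linarith) (by positivity)
  have h10 : (ℓ : ℝ) * (1 / (1 + 1.7 * δ)) ≤ ℓ * (1 - τ / n) := by
    refine mul_le_mul_of_nonneg_left ?_ hℓ0
    rw [← hx1]
    have : (τ : ℝ) / n ≤ xs δ := by rwa [div_le_iff₀ hn0]
    linarith
  have h11 : gm δ * τ / 2 + ℓ / (1 + 1.7 * δ) + (τ - ℓ) ≤ s * ((n : ℝ) - ℓ) := by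
    have : (ℓ : ℝ) * (1 / (1 + 1.7 * δ)) = ℓ / (1 + 1.7 * δ) := by ring
    linarith
  have h12 := mul_le_mul_of_nonneg_left h11 hθ0
  have e3 : s * θ * ((n : ℝ) - ℓ) = θ * (s * ((n : ℝ) - ℓ)) := by ring
  rw [e3]
  have e4 : gm δ * ℓ / (4 * (1 + 1.7 * δ)) = θ * (ℓ / (1 + 1.7 * δ)) := by
    rw [hθ]
    field_simp
  rw [e4]
  have h13 : θ ^ 2 * (τ - ℓ) ≤ θ ^ 2 * τ := mul_le_mul_of_nonneg_left (by linarith) (sq_nonneg _)
  have e5 : gm δ = 4 * θ := by rw [hθ]; ring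
  rw [e5] at h12 ⊢
  nlinarith

theorem bnd_sub {n τ : ℕ} {δ : ℝ} (hδ : 0 < δ) (hδ1 : δ < 1) (hτ1 : 1 ≤ τ) (hτ : τ ≤ n) :
    bnd n ((1 - δ) / n) 1 τ ≤ Real.exp (1 - δ ^ 2 * τ / 2) := by
  have hn1 : 1 ≤ n := by omega
  have hn0 : (0 : ℝ) < n := by exact_mod_cast hn1
  have hn1' : (1 : ℝ) ≤ n := by exact_mod_cast hn1
  have hτ1' : (1 : ℝ) ≤ τ := by exact_mod_cast hτ1
  have hp0 : 0 ≤ (1 - δ) / (n : ℝ) := div_nonneg (by linarith) hn0.le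
  have hp1 : (1 - δ) / (n : ℝ) ≤ 1 := by
    rw [div_le_one hn0]; linarith
  have h1 := bnd_le (z := 1 + δ) hp0 hp1 (by linarith) hτ1 hτ
  set s : ℝ := 1 - (1 - (1 - δ) / n) ^ τ with hs
  have hs0 : 0 ≤ s := by
    rw [hs]
    have := pow_le_one₀ (n := τ) (sub_nonneg.2 hp1) (by linarith : 1 - (1 - δ) / (n : ℝ) ≤ 1)
    linarith
  have hs1 : s ≤ (1 - δ) / n * τ := by
    have := one_add_mul_le_pow (a := -((1 - δ) / (n : ℝ))) (by linarith) τ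
    rw [hs]
    have e : (1 : ℝ) + -((1 - δ) / (n : ℝ)) = 1 - (1 - δ) / n := by ring
    rw [e] at this
    linarith
  have e1 : 1 - s * (1 - (1 + δ)) = 1 - -(s * δ) := by ring
  rw [e1] at h1
  have hsd : 0 ≤ s * δ := by positivity
  have h4 := Chern.pow_le_exp (a := -(s * δ)) (by linarith) (n - 1)
  have h5 : 1 / (1 + δ) ^ (τ - 1) ≤ Real.exp (-((δ - δ ^ 2 / 2) * ((τ - 1 : ℕ) : ℝ))) := by
    have h2 := Real.le_log_one_add_of_nonneg hδ.le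
    have h3 : δ - δ ^ 2 / 2 ≤ Real.log (1 + δ) := by
      refine le_trans ?_ h2
      rw [le_div_iff₀ (by linarith)]
      nlinarith [pow_pos hδ 3]
    have h6 : Real.exp (δ - δ ^ 2 / 2) ≤ 1 + δ := (Real.le_log_iff_exp_le (by linarith)).1 h3
    have h7 := pow_le_pow_left₀ (Real.exp_pos _).le h6 (τ - 1)
    rw [← Real.exp_nat_mul] at h7
    rw [div_le_iff₀ (by positivity)]
    calc (1 : ℝ) = Real.exp (-((δ - δ ^ 2 / 2) * ((τ - 1 : ℕ) : ℝ))) *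
          Real.exp (((τ - 1 : ℕ) : ℝ) * (δ - δ ^ 2 / 2)) := by
          rw [← Real.exp_add]; ring_nf; simp
      _ ≤ _ := mul_le_mul_of_nonneg_left h7 (Real.exp_pos _).le
  have h6 : bnd n ((1 - δ) / n) 1 τ ≤
      Real.exp (-(-(s * δ) * ((n - 1 : ℕ) : ℝ))) *
        Real.exp (-((δ - δ ^ 2 / 2) * ((τ - 1 : ℕ) : ℝ))) := by
    refine h1.trans ?_
    rw [div_eq_mul_one_div]
    exact mul_le_mul h4 h5 (one_div_nonneg.2 (pow_nonneg (by linarith) _)) (Real.exp_pos _).le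
  refine h6.trans ?_
  rw [← Real.exp_add]
  apply Real.exp_le_exp.2
  rw [Nat.cast_sub hn1, Nat.cast_sub hτ1, Nat.cast_one]
  have h7 : s * ((n : ℝ) - 1) ≤ (1 - δ) * τ := by
    have h8 : s * ((n : ℝ) - 1) ≤ (1 - δ) / n * τ * ((n : ℝ) - 1) :=
      mul_le_mul_of_nonneg_right hs1 (by linarith)
    have h9 : (1 - δ) / n * τ * ((n : ℝ) - 1) = (1 - δ) * τ - (1 - δ) / n * τ := by
      field_simp
    have h10 : 0 ≤ (1 - δ) / n * τ := by positivity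
    linarith
  have h8 := mul_le_mul_of_nonneg_left h7 hδ.le
  nlinarith

theorem bnd_ball {n ℓ τ : ℕ} {δ : ℝ} (hδ : 0 < δ) (hδ1 : δ ≤ 1 / 6) (hℓ1 : 1 ≤ ℓ) (hℓ : ℓ ≤ τ)
    (hτ : τ ≤ n) (hsmall : (τ : ℝ) / 2 + ℓ ≤ δ * n / 10) :
    bnd n ((1 - δ) / n) ℓ τ ≤ Real.exp (12.3 * δ ^ 2 * τ - 3 * δ * ℓ) := by
  have hn1 : 1 ≤ n := by omega
  have hn0 : (0 : ℝ) < n := by exact_mod_cast hn1
  have hn1' : (1 : ℝ) ≤ n := by exact_mod_cast hn1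
  have hτ0 : (0 : ℝ) ≤ τ := by positivity
  have hℓ0 : (0 : ℝ) ≤ ℓ := by positivity
  have hℓτ : (ℓ : ℝ) ≤ τ := by exact_mod_cast hℓ
  have hτn : (τ : ℝ) ≤ n := by exact_mod_cast hτ
  have hp0 : 0 ≤ (1 - δ) / (n : ℝ) := div_nonneg (by linarith) hn0.le
  have hp1 : (1 - δ) / (n : ℝ) ≤ 1 := by
    rw [div_le_one hn0]; linarith
  have h1 := bnd_le (z := 1 - 3 * δ) hp0 hp1 (by linarith) hℓ hτ
  set s : ℝ := 1 - (1 - (1 - δ) / n) ^ τ with hs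
  have hs0 : 0 ≤ s := by
    rw [hs]
    have := pow_le_one₀ (n := τ) (sub_nonneg.2 hp1) (by linarith : 1 - (1 - δ) / (n : ℝ) ≤ 1)
    linarith
  have hs1 : s ≤ 1 := by
    rw [hs]; linarith [pow_nonneg (sub_nonneg.2 hp1) τ]
  set x : ℝ := (1 - δ) / n * τ with hx
  have hx0 : 0 ≤ x := by positivity
  have hs2 : x * (1 - x / 2) ≤ s := by
    have h3 := Chern.s_lower (τ := τ) hp1
    have h4 := Chern.exp_quad hx0
    have : Real.exp (-((1 - δ) / n * τ)) = Real.exp (-x) := by rw [hx]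
    rw [this] at h3
    nlinarith
  have e1 : 1 - s * (1 - (1 - 3 * δ)) = 1 - s * (3 * δ) := by ring
  rw [e1] at h1
  have h4 : (1 - s * (3 * δ)) ^ (n - ℓ) ≤ Real.exp (-(s * (3 * δ) * ((n - ℓ : ℕ) : ℝ))) :=
    Chern.pow_le_exp (by nlinarith) _
  have h5 := Chern.inv_pow_le (u := 3 * δ) (by linarith) (by linarith) (τ - ℓ)
  have h6 : bnd n ((1 - δ) / n) ℓ τ ≤
      Real.exp (-(s * (3 * δ) * ((n - ℓ : ℕ) : ℝ))) *
        Real.exp ((3 * δ + (3 * δ) ^ 2) * ((τ - ℓ : ℕ) : ℝ)) := by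
    refine h1.trans ?_
    rw [div_eq_mul_one_div]
    exact mul_le_mul h4 h5 (one_div_nonneg.2 (pow_nonneg (by linarith) _)) (Real.exp_pos _).le
  refine h6.trans ?_
  rw [← Real.exp_add]
  apply Real.exp_le_exp.2
  rw [Nat.cast_sub (by omega : ℓ ≤ n), Nat.cast_sub hℓ]
  have hnl : (0 : ℝ) ≤ (n : ℝ) - ℓ := by linarith
  have h7 : τ * (1 - 1.1 * δ) ≤ s * ((n : ℝ) - ℓ) := by
    have h8 : x * (1 - x / 2) * ((n : ℝ) - ℓ) ≤ s * ((n : ℝ) - ℓ) :=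
      mul_le_mul_of_nonneg_right hs2 hnl
    set a : ℝ := ℓ / n with ha
    set b : ℝ := τ / n with hb
    have ha0 : 0 ≤ a := by positivity
    have hb0 : 0 ≤ b := by positivity
    have hab : b / 2 + a ≤ δ / 10 := by
      have : b / 2 + a = (τ / 2 + ℓ) / n := by rw [ha, hb]; ring
      rw [this, div_le_iff₀ hn0]
      linarith
    have hxb : x = (1 - δ) * b := by rw [hx, hb]; ring
    have e2 : x * (1 - x / 2) * ((n : ℝ) - ℓ) =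
        τ * ((1 - δ) * (1 - (1 - δ) * b / 2) * (1 - a)) := by
      rw [hxb, ha, hb]
      field_simp
    rw [e2] at h8
    refine le_trans (mul_le_mul_of_nonneg_left ?_ hτ0) h8
    have h9 : 1 - b / 2 ≤ 1 - (1 - δ) * b / 2 := by nlinarith
    have h10 : 1 - δ / 10 ≤ (1 - (1 - δ) * b / 2) * (1 - a) := by
      have hb1 : 0 ≤ 1 - b / 2 := by linarith
      have ha1 : 0 ≤ 1 - a := by linarith
      calc 1 - δ / 10 ≤ (1 - b / 2) * (1 - a) := by nlinarith [mul_nonneg ha0 hb0]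
        _ ≤ _ := mul_le_mul_of_nonneg_right h9 ha1
    have h11 := mul_le_mul_of_nonneg_left h10 (by linarith : (0:ℝ) ≤ 1 - δ)
    nlinarith [sq_nonneg δ]
  have h8 := mul_le_mul_of_nonneg_left h7 (by linarith : (0:ℝ) ≤ 3 * δ)
  have e3 : s * (3 * δ) * ((n : ℝ) - ℓ) = 3 * δ * (s * ((n : ℝ) - ℓ)) := by ring
  rw [e3]
  nlinarith [mul_nonneg (sq_nonneg δ) hℓ0]

end RST
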