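import Pool.Agent.Work.MP_5ba30e_pr.Model

/-!
# MP_5ba30e_pr : random spanning trees in random environment, common definitions

* `EE β F` : annealed expectation of `F ω T`;
* `Gr ω p` : the graph of the edges with `ω e ≤ p`;
* `side`, `offp`, `hgt`, `par`, `dn`, `hook` : branches of a tree with respect to a set `S`.
-/

open MeasureTheory Set Filter Finset
open scoped ENNReal Topology Classical

noncomputable section

namespace RST

variable {n : ℕ}

/-- edge weight -/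
def ww (β : ℝ) (ω : Env n) (e : Sym2 (Fin n)) : ℝ := Real.exp (-(β * ω e))

/-- annealed expectation -/
def EE (β : ℝ) (F : Env n → SimpleGraph (Fin n) → ℝ≥0∞) : ℝ≥0∞ :=
  ∑ T ∈ trees n, ∫⁻ ω, ENNReal.ofReal (gibbs β ω T) * F ω T ∂(mu n)

/-- indicator -/
def ind (P : Prop) : ℝ≥0∞ := if P then 1 else 0

/-! ## Level graphs -/

/-- the graph of the edges with `ω e ≤ p` -/
def Gr (ω : Env n) (p : ℝ) : SimpleGraph (Fin n) where
  Adj i j := i ≠ j ∧ ω s(i, j) ≤ p
  symm := ⟨fun i j h => ⟨h.1.symm, by rw [Sym2.eq_swap]; exact h.2⟩⟩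
  loopless := ⟨fun i h => h.1 rfl⟩

/-- component of `v` -/
def comp (G : SimpleGraph (Fin n)) (v : Fin n) : Finset (Fin n) :=
  Finset.univ.filter fun u => G.Reachable v u

/-- vertices in components with more than `τ` vertices -/
def bigC (G : SimpleGraph (Fin n)) (τ : ℝ) : Finset (Fin n) :=
  Finset.univ.filter fun v => τ < ((comp G v).card : ℝ)

/-- ball of radius `r` -/
def bl (G : SimpleGraph (Fin n)) (x : Fin n) (r : ℕ) : Finset (Fin n) :=
  Finset.univ.filter fun y => ∃ w : G.Walk x y, w.length ≤ r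

/-- every path of `G` which avoids `C` has length at most `ℓ` -/
def NoLong (G : SimpleGraph (Fin n)) (C : Finset (Fin n)) (ℓ : ℝ) : Prop :=
  ∀ (u v : Fin n) (w : G.Walk u v), w.IsPath → (∀ x ∈ w.support, x ∉ C) → (w.length : ℝ) ≤ ℓ

/-- number of edges `e` of the walk with `p < ω e` -/
def cntW {G : SimpleGraph (Fin n)} (ω : Env n) (p : ℝ) {u v : Fin n} (w : G.Walk u v) : ℕ :=
  (w.edges.filter fun e => p < ω e).length

/-- exchange of the values of two edges -/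
def sw (f e : Sym2 (Fin n)) (ω : Env n) : Env n := fun g => ω (Equiv.swap f e g)

/-! ## Trees -/

/-- `T - f + e` -/
def swp (T : SimpleGraph (Fin n)) (f e : Sym2 (Fin n)) : SimpleGraph (Fin n) :=
  T.deleteEdges {f} ⊔ SimpleGraph.fromEdgeSet {e}

/-- the vertices joined to `u` in `T - f` -/
def side (T : SimpleGraph (Fin n)) (f : Sym2 (Fin n)) (u : Fin n) : Finset (Fin n) :=
  Finset.univ.filter fun v => (T.deleteEdges {f}).Reachable u v

/-- `{a,b}` is an edge of `T`, and the part of `T - {a,b}` which contains `a` does not meet `S` -/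
def offp (T : SimpleGraph (Fin n)) (S : Finset (Fin n)) (a b : Fin n) : Prop :=
  T.Adj a b ∧ Disjoint (side T s(a, b) a) S

/-- next vertex on the way to the hull of `S` (`u` itself if `u` is in the hull) -/
def par (T : SimpleGraph (Fin n)) (S : Finset (Fin n)) (u : Fin n) : Fin n :=
  if h : ∃ b, offp T S u b then h.choose else u

/-- `i` steps towards the hull of `S` -/
def dn (T : SimpleGraph (Fin n)) (S : Finset (Fin n)) (u : Fin n) (i : ℕ) : Fin n :=
  (par T S)^[i] u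

/-- distance from `u` to the hull of `S` -/
def hgt (T : SimpleGraph (Fin n)) (S : Finset (Fin n)) (u : Fin n) : ℕ :=
  (Finset.univ.filter fun ab : Fin n × Fin n =>
    offp T S ab.1 ab.2 ∧ u ∈ side T s(ab.1, ab.2) ab.1).card

/-- number of steps from `u` towards the hull of `S` until `C` or the hull is met -/
def hook (T : SimpleGraph (Fin n)) (S C : Finset (Fin n)) (u : Fin n) : ℕ :=
  ((Finset.range (hgt T S u)).filter fun i => ∀ i' ≤ i, dn T S u i' ∉ C).card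

/-- the edge `{a,b}` separates `u` and `v` in `T` -/
def onp (T : SimpleGraph (Fin n)) (u v : Fin n) (f : Sym2 (Fin n)) : Prop :=
  f ∈ T.edgeSet ∧ v ∉ side T f u

/-- all branches have at most the proportion `θ` of `X` -/
def TupOK (T : SimpleGraph (Fin n)) (S X : Finset (Fin n)) (θ : ℝ) : Prop :=
  ∀ a b, offp T S a b → ((side T s(a, b) a ∩ X).card : ℝ) ≤ θ * X.card

/-- number of landings in `Cj` by edges above the level `pj`, before `C0` is met -/
def LN (T : SimpleGraph (Fin n)) (S C0 Cj : Finset (Fin n)) (pj : ℝ) (ω : Env n)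
    (z : Fin n) : ℕ :=
  ((Finset.range (hgt T S z)).filter fun i => (∀ i' ≤ i + 1, dn T S z i' ∉ C0) ∧
    dn T S z (i + 1) ∈ Cj ∧ pj < ω s(dn T S z i, dn T S z (i + 1))).card

/-! ## Levels -/

/-- `min δ 1` -/
def db (δ : ℝ) : ℝ := min δ 1

/-- threshold for large components at the level `(1+δ)/n` -/
def thr (n : ℕ) (δ : ℝ) : ℝ := δ * n / (20 * (1 + δ) ^ 2)

/-- `δ_j = δ₀ (6/5)^j` -/
def dl (δ₀ : ℝ) (j : ℕ) : ℝ := δ₀ * (6 / 5) ^ j

/-- `p_j = (1 + δ_j)/n` -/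
def pl (n : ℕ) (δ₀ : ℝ) (j : ℕ) : ℝ := (1 + dl δ₀ j) / n

/-- the lower level -/
def pmin (n : ℕ) (δ₀ : ℝ) : ℝ := if δ₀ < 1 then (1 - δ₀) / n else -1

/-- the large components at the level `p_j` -/
def CC (δ₀ : ℝ) (j : ℕ) (ω : Env n) : Finset (Fin n) :=
  bigC (Gr ω (pl n δ₀ j)) (thr n (dl δ₀ j))

/-- the good environments -/
structure GoodEnv (β δ₀ Q : ℝ) (J jX : ℕ) (ω : Env n) : Prop where
  mono : ∀ j < J, CC δ₀ j ω ⊆ CC δ₀ (j + 1) ω
  full : CC δ₀ J ω = Finset.univ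
  low : db δ₀ * n / Q ≤ ((CC δ₀ 0 ω).card : ℝ)
  upp : ∀ j ≤ J, ((CC δ₀ j ω).card : ℝ) ≤ Q * db (dl δ₀ j) * n
  path : ∀ j < J, NoLong (Gr ω (pl n δ₀ (j + 1))) (CC δ₀ j ω) (Q / db (dl δ₀ j))
  conn : ∀ j ≤ J, ∀ x ∈ CC δ₀ j ω, ∀ y ∈ CC δ₀ j ω,
    ∃ w : (Gr ω (pl n δ₀ j)).Walk x y, w.IsPath ∧ (w.length : ℝ) ≤ Q / db (dl δ₀ j) ∧
      (cntW ω (pl n δ₀ j - 2 * Real.log n / β) w : ℝ) ≤ Q
  deg : ∀ x, ((Finset.univ.filter fun y => (Gr ω (pl n δ₀ J)).Adj x y).card : ℝ) ≤ Q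
  subp : ∀ (u v : Fin n) (w : (Gr ω (pmin n δ₀)).Walk u v), w.IsPath →
    (w.length : ℝ) ≤ Q / db δ₀
  subc : ∀ v, ((comp (Gr ω (pmin n δ₀)) v).card : ℝ) ≤ Q / db δ₀ ^ 2
  cnt : ∀ (u v : Fin n) (w : (Gr ω (pl n δ₀ jX)).Walk u v), w.IsPath →
    (cntW ω (pmin n δ₀) w : ℝ) ≤ Q * (db δ₀ * w.length + 1)

end RST
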