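import Pool.Agent.Work.MP_5ba30e_pr.Defs

/-!
# Tup : uniform tuples
-/

open MeasureTheory Set Filter Finset
open scoped ENNReal Topology Classical

noncomputable section

namespace RST

variable {n : ℕ}

/-- the set of the marks -/
def im {k : ℕ} (σ : Fin k → Fin n) : Finset (Fin n) := Finset.univ.image σ

/-- weight of the tuple `σ` for the uniform law on `X^k` -/
def PsiX (k : ℕ) (σ : Fin k → Fin n) (X : Finset (Fin n)) : ℝ≥0∞ :=
  if ∀ i, σ i ∈ X then 1 / (X.card : ℝ≥0∞) ^ k else 0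

/-- weight of the tuples with values in `Z` -/
theorem sum_PsiX_sub (k : ℕ) (X Z : Finset (Fin n)) (hZ : Z ⊆ X)
    (P : (Fin k → Fin n) → Prop) (hP : ∀ σ, (∀ i, σ i ∈ X) → P σ → ∀ i, σ i ∈ Z) :
    ∑ σ : Fin k → Fin n, PsiX k σ X * ind (P σ) ≤
      (Z.card : ℝ≥0∞) ^ k * (1 / (X.card : ℝ≥0∞) ^ k) := by
  have h1 : ∀ σ : Fin k → Fin n, PsiX k σ X * ind (P σ) ≤
      if σ ∈ Fintype.piFinset (fun _ : Fin k => Z) then 1 / (X.card : ℝ≥0∞) ^ k else 0 := by
    intro σ
    unfold PsiX ind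
    by_cases h2 : ∀ i, σ i ∈ X
    · by_cases h3 : P σ
      · rw [if_pos h2, if_pos h3, if_pos (Fintype.mem_piFinset.2 (hP σ h2 h3)), mul_one]
      · rw [if_neg h3, mul_zero]; exact zero_le
    · rw [if_neg h2, zero_mul]; exact zero_le
  refine (Finset.sum_le_sum fun σ _ => h1 σ).trans ?_
  rw [Finset.sum_ite_mem, Finset.univ_inter, Finset.sum_const, Fintype.card_piFinset_const,
    nsmul_eq_mul]
  push_cast
  rfl

theorem sum_PsiX (k : ℕ) {X : Finset (Fin n)} (hX : X.Nonempty) : ∑ σ, PsiX k σ X = 1 := by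
  have h1 : ∀ σ : Fin k → Fin n, PsiX k σ X =
      if σ ∈ Fintype.piFinset (fun _ : Fin k => X) then 1 / (X.card : ℝ≥0∞) ^ k else 0 := by
    intro σ
    unfold PsiX
    simp only [Fintype.mem_piFinset]
  rw [Finset.sum_congr rfl fun σ _ => h1 σ, Finset.sum_ite_mem, Finset.univ_inter,
    Finset.sum_const, Fintype.card_piFinset_const, nsmul_eq_mul]
  push_cast
  have h2 : (X.card : ℝ≥0∞) ^ k ≠ 0 :=
    pow_ne_zero _ (by exact_mod_cast hX.card_pos.ne')
  have h3 : (X.card : ℝ≥0∞) ^ k ≠ ⊤ := ENNReal.pow_ne_top (ENNReal.natCast_ne_top _)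
  rw [one_div]
  exact ENNReal.mul_inv_cancel h2 h3

/-- a tuple which does not meet `Y` -/
theorem tup_hit (k : ℕ) {X Y : Finset (Fin n)} {θ : ℝ} (hθ : 0 ≤ θ) (hθ1 : θ ≤ 1)
    (hY : θ * X.card ≤ ((X ∩ Y).card : ℝ)) :
    ∑ σ : Fin k → Fin n, PsiX k σ X * ind (Disjoint (im σ) Y) ≤
      ENNReal.ofReal ((1 - θ) ^ k) := by
  have h1 := sum_PsiX_sub k X (X \ Y) Finset.sdiff_subset (fun σ => Disjoint (im σ) Y)
    (by
      intro σ h1 h2 i
      refine Finset.mem_sdiff.2 ⟨h1 i, fun hi => ?_⟩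
      exact Finset.disjoint_left.1 h2 (Finset.mem_image_of_mem σ (Finset.mem_univ i)) hi)
  refine h1.trans ?_
  rcases X.eq_empty_or_nonempty with rfl | hX
  · rcases Nat.eq_zero_or_pos k with rfl | hk
    · simp
    · have : ((∅ \ Y : Finset (Fin n)).card : ℝ≥0∞) ^ k = 0 := by
        simp [hk.ne']
      rw [this, zero_mul]
      exact zero_le
  · have hM : (0 : ℝ) < X.card := by exact_mod_cast hX.card_pos
    have hN : ((X \ Y).card : ℝ) ≤ (1 - θ) * X.card := by
      have h3 : (X \ Y).card + (X ∩ Y).card = X.card := Finset.card_sdiff_add_card_inter X Y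
      have h4 : ((X \ Y).card : ℝ) + ((X ∩ Y).card : ℝ) = X.card := by exact_mod_cast h3
      linarith
    have h5 : ((X \ Y).card : ℝ≥0∞) ^ k * (1 / (X.card : ℝ≥0∞) ^ k) =
        ENNReal.ofReal (((X \ Y).card / X.card : ℝ) ^ k) := by
      rw [ENNReal.ofReal_pow (by positivity), ENNReal.ofReal_div_of_pos hM,
        ENNReal.ofReal_natCast, ENNReal.ofReal_natCast, one_div, div_eq_mul_inv, mul_pow,
        ENNReal.inv_pow]
    rw [h5]
    refine ENNReal.ofReal_le_ofReal (pow_le_pow_left₀ (by positivity) ?_ k)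
    rw [div_le_iff₀ hM]
    exact hN

/-- a tuple for which a branch has more than the proportion `θ` of `X`.  (The branch
`side T s(a,b) a` contains no mark and more than `θ |X|` elements of `X`: at most
`((1-θ)|X|)^k` tuples for each `(a,b)`.) -/
theorem tup_bad (T : SimpleGraph (Fin n)) (k : ℕ) {X : Finset (Fin n)} {θ : ℝ} (hθ : 0 ≤ θ)
    (hθ1 : θ ≤ 1) (hk : 1 ≤ k) :
    ∑ σ : Fin k → Fin n, PsiX k σ X * ind (¬ TupOK T (im σ) X θ) ≤
      ENNReal.ofReal ((n : ℝ) ^ 2 * (1 - θ) ^ k) := by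
  -- union over the directed edges
  have h1 : ∀ σ : Fin k → Fin n, PsiX k σ X * ind (¬ TupOK T (im σ) X θ) ≤
      ∑ ab : Fin n × Fin n, if θ * X.card < ((side T s(ab.1, ab.2) ab.1 ∩ X).card : ℝ) then
        PsiX k σ X * ind (Disjoint (im σ) (side T s(ab.1, ab.2) ab.1)) else 0 := by
    intro σ
    by_cases h : TupOK T (im σ) X θ
    · have : ind (¬ TupOK T (im σ) X θ) = 0 := by
        unfold ind; rw [if_neg (not_not.2 h)]
      rw [this, mul_zero]; exact zero_le
    · have h' := h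
      unfold TupOK at h
      push Not at h
      obtain ⟨a, b, hab, hlt⟩ := h
      have h2 : PsiX k σ X * ind (¬ TupOK T (im σ) X θ) ≤
          (if θ * X.card < ((side T s((a, b).1, (a, b).2) (a, b).1 ∩ X).card : ℝ) then
            PsiX k σ X * ind (Disjoint (im σ) (side T s((a, b).1, (a, b).2) (a, b).1)) else 0) := by
        rw [if_pos hlt]
        unfold ind
        rw [if_pos h', if_pos hab.2.symm]
      refine h2.trans ?_
      exact Finset.single_le_sum (f := fun ab : Fin n × Fin n =>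
        if θ * X.card < ((side T s(ab.1, ab.2) ab.1 ∩ X).card : ℝ) then
          PsiX k σ X * ind (Disjoint (im σ) (side T s(ab.1, ab.2) ab.1)) else 0)
        (fun _ _ => zero_le) (Finset.mem_univ (a, b))
  refine (Finset.sum_le_sum fun σ _ => h1 σ).trans ?_
  rw [Finset.sum_comm]
  have h2 : ∀ ab : Fin n × Fin n, (∑ σ : Fin k → Fin n,
      if θ * X.card < ((side T s(ab.1, ab.2) ab.1 ∩ X).card : ℝ) then
        PsiX k σ X * ind (Disjoint (im σ) (side T s(ab.1, ab.2) ab.1)) else 0) ≤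
      ENNReal.ofReal ((1 - θ) ^ k) := by
    intro ab
    by_cases h : θ * X.card < ((side T s(ab.1, ab.2) ab.1 ∩ X).card : ℝ)
    · simp only [if_pos h]
      exact tup_hit k hθ hθ1 (by rw [Finset.inter_comm]; exact h.le)
    · simp only [if_neg h]
      simp
  refine (Finset.sum_le_sum fun ab _ => h2 ab).trans ?_
  rw [Finset.sum_const, Finset.card_univ, Fintype.card_prod, Fintype.card_fin, nsmul_eq_mul,
    ENNReal.ofReal_mul (by positivity), sq, ENNReal.ofReal_mul (by positivity),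
    ENNReal.ofReal_natCast]
  push_cast
  rfl

/-- expectation for a uniform tuple of `X ω`, an environment and a tree -/
def E3 (β : ℝ) (k : ℕ) (X : Env n → Finset (Fin n))
    (F : (Fin k → Fin n) → Env n → SimpleGraph (Fin n) → ℝ≥0∞) : ℝ≥0∞ :=
  ∑ σ : Fin k → Fin n, EE β (fun ω T => F σ ω T * PsiX k σ (X ω))

/-- the same with a uniform vertex of `V` -/
def E3V (β : ℝ) (k : ℕ) (X : Env n → Finset (Fin n))
    (F : (Fin k → Fin n) → Fin n → Env n → SimpleGraph (Fin n) → ℝ≥0∞) : ℝ≥0∞ :=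
  ∑ v : Fin n, ∑ σ : Fin k → Fin n, EE β (fun ω T => F σ v ω T * (PsiX k σ (X ω) / n))

/-- the same with a uniform vertex of `X ω` -/
def E3X (β : ℝ) (k : ℕ) (X : Env n → Finset (Fin n))
    (F : (Fin k → Fin n) → Fin n → Env n → SimpleGraph (Fin n) → ℝ≥0∞) : ℝ≥0∞ :=
  ∑ z : Fin n, ∑ σ : Fin k → Fin n,
    EE β (fun ω T => F σ z ω T * (PsiX k σ (X ω) * ind (z ∈ X ω) / (X ω).card))

end RST
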