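import Pool.Agent.Work.MP_5ba30e_pr.Flow

/-!
# Zr : partition function after the exchange of two values, and large edges between
well connected vertices

Proof of `Zf_sw_le`.  Let `z₀, z_e, z_f, z_{ef}` be the sums over the trees which contain neither
`e` nor `f`, `e` but not `f`, `f` but not `e`, both, of the product of the weights of the OTHER
edges.  `Z ω = z₀ + w_e z_e + w_f z_f + w_e w_f z_{ef}`,
`Z (sw f e ω) = z₀ + w_f z_e + w_e z_f + w_e w_f z_{ef}`, so the difference is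
`(w_f - w_e) (z_e - z_f)`.  If `ω f ≤ ω e` (`w_f ≥ w_e`) it is at most `w_f (z_e - z_f)⁺`, and
`z_e ≤ z_f + ρ z₀`: for a tree `T ∋ e`, `T ∌ f`, the path `γ` (which joins the ends of `e` and
does not use `e`) has an edge `g` between the two sides of `e` in `T`; `T - e + g` is a tree
(`swp_isTree`); if `g = f` this is a tree counted by `z_f` with the same other weights; if
`g ≠ f` it is counted by `z₀` with weight `w(T - e) w_g`; given `g`, `T` is recovered from
`T - e + g`.  So `Z (sw f e ω) ≤ Z + w_f ρ z₀ ≤ (1 + w_f ρ) Z`.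
-/

open MeasureTheory Set Filter Finset
open scoped ENNReal Topology Classical

noncomputable section

namespace RST

variable {n : ℕ} {e f : Sym2 (Fin n)}

/-- the ends of `e` are joined by a path which does not use `e`, with cost `≤ ρ` when the edge
`f` is not counted -/
def PathCost (β : ℝ) (ω : Env n) (e f : Sym2 (Fin n)) (ρ : ℝ) : Prop :=
  ∃ (x y : Fin n) (γ : (⊤ : SimpleGraph (Fin n)).Walk x y), e = s(x, y) ∧ e ∉ γ.edges ∧
    ∑ g ∈ γ.edges.toFinset.erase f, (ww β ω g)⁻¹ ≤ ρ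

theorem ww_pos (β : ℝ) (ω : Env n) (e : Sym2 (Fin n)) : 0 < ww β ω e := Real.exp_pos _

/-- product of the weights of a set of edges -/
def wS (β : ℝ) (ω : Env n) (S : Finset (Sym2 (Fin n))) : ℝ := Real.exp (-(β * ∑ g ∈ S, ω g))

theorem wS_pos (β : ℝ) (ω : Env n) (S : Finset (Sym2 (Fin n))) : 0 < wS β ω S := Real.exp_pos _

theorem wS_insert {β : ℝ} {ω : Env n} {S : Finset (Sym2 (Fin n))} (h : e ∉ S) :
    wS β ω (insert e S) = ww β ω e * wS β ω S := by
  unfold wS ww
  rw [← Real.exp_add, Finset.sum_insert h]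
  congr 1; ring

theorem wS_erase {β : ℝ} {ω : Env n} {S : Finset (Sym2 (Fin n))} (h : e ∈ S) :
    wS β ω S = ww β ω e * wS β ω (S.erase e) := by
  rw [← wS_insert (Finset.notMem_erase e S), Finset.insert_erase h]

theorem wt_eq_wS (β : ℝ) (ω : Env n) (T : SimpleGraph (Fin n)) : wt β ω T = wS β ω (ef T) := rfl

theorem mem_efz {T : SimpleGraph (Fin n)} : e ∈ ef T ↔ e ∈ T.edgeSet := by simp [ef]

theorem mem_trees {T : SimpleGraph (Fin n)} : T ∈ trees n ↔ T.IsTree := by simp [trees]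

/-- `S - e - f` where `S` is the edge set is not changed by the exchange -/
theorem wS_sw {β : ℝ} {ω : Env n} {S : Finset (Sym2 (Fin n))} (he : e ∉ S) (hf : f ∉ S) :
    wS β (sw f e ω) S = wS β ω S := by
  unfold wS
  congr 2
  congr 1
  refine Finset.sum_congr rfl fun g hg => ?_
  have hge : g ≠ e := fun h => he (h ▸ hg)
  have hgf : g ≠ f := fun h => hf (h ▸ hg)
  simp [sw, Equiv.swap_apply_of_ne_of_ne hgf hge]

/-- trees which contain `a` and not `b` -/
def tab (n : ℕ) (a b : Sym2 (Fin n)) : Finset (SimpleGraph (Fin n)) :=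
  (trees n).filter fun T => a ∈ ef T ∧ b ∉ ef T

/-- the trees which contain `a` and not `b`, without the weight of `a` -/
def zab (β : ℝ) (ω : Env n) (a b : Sym2 (Fin n)) : ℝ :=
  ∑ T ∈ tab n a b, wS β ω ((ef T).erase a)

/-- the trees which contain neither `a` nor `b` -/
def z0 (β : ℝ) (ω : Env n) (a b : Sym2 (Fin n)) : ℝ :=
  ∑ T ∈ (trees n).filter fun T => a ∉ ef T ∧ b ∉ ef T, wS β ω (ef T)

/-- the trees which contain both -/
def z2 (β : ℝ) (ω : Env n) (a b : Sym2 (Fin n)) : ℝ :=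
  ∑ T ∈ (trees n).filter fun T => a ∈ ef T ∧ b ∈ ef T, wS β ω (((ef T).erase a).erase b)

theorem z0_nonneg (β : ℝ) (ω : Env n) (a b : Sym2 (Fin n)) : 0 ≤ z0 β ω a b :=
  Finset.sum_nonneg fun T _ => (wS_pos β ω _).le

theorem z0_comm (β : ℝ) (ω : Env n) (a b : Sym2 (Fin n)) : z0 β ω a b = z0 β ω b a := by
  unfold z0
  congr 1
  ext T
  simp [and_comm]

theorem z0_le (β : ℝ) (ω : Env n) (a b : Sym2 (Fin n)) : z0 β ω a b ≤ Zf β ω := by
  unfold z0 Zf
  refine Finset.sum_le_sum_of_subset_of_nonneg (Finset.filter_subset _ _) fun T _ _ => ?_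
  exact (wt_pos β ω T).le

theorem Zf_split {β : ℝ} (ω : Env n) (hfe : f ≠ e) : Zf β ω =
    z0 β ω e f + ww β ω e * zab β ω e f + ww β ω f * zab β ω f e +
      ww β ω e * ww β ω f * z2 β ω e f := by
  unfold Zf
  rw [← Finset.sum_filter_add_sum_filter_not (trees n) (fun T => e ∈ ef T),
    ← Finset.sum_filter_add_sum_filter_not ((trees n).filter fun T => e ∈ ef T)
      (fun T => f ∈ ef T),
    ← Finset.sum_filter_add_sum_filter_not ((trees n).filter fun T => ¬ e ∈ ef T)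
      (fun T => f ∈ ef T)]
  simp only [Finset.filter_filter]
  have h1 : ∑ T ∈ (trees n).filter (fun T => e ∈ ef T ∧ f ∈ ef T), wt β ω T =
      ww β ω e * ww β ω f * z2 β ω e f := by
    unfold z2
    rw [Finset.mul_sum]
    refine Finset.sum_congr rfl fun T hT => ?_
    obtain ⟨-, h1, h2⟩ := Finset.mem_filter.1 hT
    rw [wt_eq_wS, wS_erase h1, wS_erase (Finset.mem_erase.2 ⟨hfe, h2⟩)]
    ring
  have h2 : ∑ T ∈ (trees n).filter (fun T => e ∈ ef T ∧ ¬ f ∈ ef T), wt β ω T =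
      ww β ω e * zab β ω e f := by
    unfold zab tab
    rw [Finset.mul_sum]
    refine Finset.sum_congr rfl fun T hT => ?_
    obtain ⟨-, h1, h2⟩ := Finset.mem_filter.1 hT
    rw [wt_eq_wS, wS_erase h1]
  have h3 : ∑ T ∈ (trees n).filter (fun T => ¬ e ∈ ef T ∧ f ∈ ef T), wt β ω T =
      ww β ω f * zab β ω f e := by
    unfold zab tab
    rw [Finset.mul_sum]
    refine Finset.sum_congr (by ext T; simp [and_comm]) fun T hT => ?_
    obtain ⟨-, h1, h2⟩ := Finset.mem_filter.1 hT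
    rw [wt_eq_wS, wS_erase h1]
  have h4 : ∑ T ∈ (trees n).filter (fun T => ¬ e ∈ ef T ∧ ¬ f ∈ ef T), wt β ω T =
      z0 β ω e f := rfl
  rw [h1, h2, h3, h4]
  ring

theorem z0_sw {β : ℝ} (ω : Env n) : z0 β (sw f e ω) e f = z0 β ω e f := by
  unfold z0
  refine Finset.sum_congr rfl fun T hT => ?_
  obtain ⟨-, h1, h2⟩ := Finset.mem_filter.1 hT
  exact wS_sw h1 h2

theorem zab_sw {β : ℝ} (ω : Env n) : zab β (sw f e ω) e f = zab β ω e f := by
  unfold zab tab
  refine Finset.sum_congr rfl fun T hT => ?_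
  obtain ⟨-, h1, h2⟩ := Finset.mem_filter.1 hT
  exact wS_sw (Finset.notMem_erase _ _) fun h => h2 (Finset.mem_of_mem_erase h)

theorem zab_sw' {β : ℝ} (ω : Env n) : zab β (sw f e ω) f e = zab β ω f e := by
  unfold zab tab
  refine Finset.sum_congr rfl fun T hT => ?_
  obtain ⟨-, h1, h2⟩ := Finset.mem_filter.1 hT
  exact wS_sw (fun h => h2 (Finset.mem_of_mem_erase h)) (Finset.notMem_erase _ _)

theorem z2_sw {β : ℝ} (ω : Env n) : z2 β (sw f e ω) e f = z2 β ω e f := by
  unfold z2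
  refine Finset.sum_congr rfl fun T hT => ?_
  exact wS_sw (fun h => Finset.notMem_erase _ _ (Finset.mem_of_mem_erase h))
    (Finset.notMem_erase _ _)

theorem Zf_sw_split {β : ℝ} (ω : Env n) (hfe : f ≠ e) : Zf β (sw f e ω) =
    z0 β ω e f + ww β ω f * zab β ω e f + ww β ω e * zab β ω f e +
      ww β ω e * ww β ω f * z2 β ω e f := by
  have h1 : ww β (sw f e ω) e = ww β ω f := by simp [ww, sw]
  have h2 : ww β (sw f e ω) f = ww β ω e := by simp [ww, sw]
  rw [Zf_split (sw f e ω) hfe, z0_sw, zab_sw, zab_sw', z2_sw, h1, h2]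
  ring

/-- the exchange argument -/
theorem zab_le {β ρ : ℝ} {ω : Env n} (hfe : f ≠ e) (h : PathCost β ω e f ρ) :
    zab β ω e f ≤ zab β ω f e + ρ * z0 β ω e f := by
  obtain ⟨x, y, γ, rfl, hγ, hρ⟩ := h
  set e : Sym2 (Fin n) := s(x, y) with he
  -- the choice of an edge of `γ`
  have hch : ∀ T ∈ tab n e f, ∃ g ∈ γ.edges.toFinset, (swp T e g).IsTree ∧ g ∉ ef T ∧
      ¬ g.IsDiag := by
    intro T hT
    obtain ⟨hT1, hT2, hT3⟩ := Finset.mem_filter.1 hT
    have hT' := mem_trees.1 hT1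
    have hadj : T.Adj x y := by
      have := mem_efz.1 hT2
      rwa [he, SimpleGraph.mem_edgeSet] at this
    have hy : y ∉ side T e x := by
      intro hy
      have := (side_part hT' hadj y).1 self_mem_side
      exact this hy
    obtain ⟨a, b, h1, h2, h3⟩ := exists_cross γ hy
    have hne : s(a, b) ≠ s(x, y) := fun h => hγ (by rw [he, ← h]; exact h1)
    refine ⟨s(a, b), List.mem_toFinset.2 h1, swp_isTree hT' hadj h2 h3, ?_, ?_⟩
    · rw [mem_efz]
      exact not_mem_of_cross hT' hadj h2 h3 hne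
    · intro hd
      rw [Sym2.mk_isDiag_iff] at hd
      subst hd
      exact h3 h2
  have hne : Nonempty (Sym2 (Fin n)) := ⟨e⟩
  choose! G hG using hch
  unfold zab
  rw [← Finset.sum_fiberwise_of_maps_to (s := tab n e f) (t := γ.edges.toFinset) (g := G)
    (fun T hT => (hG T hT).1)]
  -- the bound for one edge
  have hinj : ∀ g, Set.InjOn (fun T => swp T e g)
      (((tab n e f).filter fun T => G T = g : Finset _) : Set (SimpleGraph (Fin n))) := by
    intro g T hT T' hT' h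
    obtain ⟨a1, a2⟩ := Finset.mem_filter.1 (Finset.mem_coe.1 hT)
    obtain ⟨b1, b2⟩ := Finset.mem_filter.1 (Finset.mem_coe.1 hT')
    have a3 := (Finset.mem_filter.1 a1).2.1
    have b3 := (Finset.mem_filter.1 b1).2.1
    have a4 := (hG T a1).2.2.1
    have b4 := (hG T' b1).2.2.1
    rw [a2] at a4
    rw [b2] at b4
    have h' : swp T e g = swp T' e g := h
    rw [← swp_swp (mem_efz.1 a3) (fun h => a4 (mem_efz.2 h)),
      ← swp_swp (mem_efz.1 b3) (fun h => b4 (mem_efz.2 h)), h']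
  have hef : ∀ T ∈ tab n e f, ef (swp T e (G T)) = insert (G T) ((ef T).erase e) := by
    intro T hT
    have h2 := hG T hT
    exact ef_swp (mem_efz.1 (Finset.mem_filter.1 hT).2.1) (fun h => h2.2.2.1 (mem_efz.2 h)) h2.2.2.2
  have hfγ : ∀ g ∈ γ.edges.toFinset, g ≠ f →
      ∑ T ∈ (tab n e f).filter (fun T => G T = g), wS β ω ((ef T).erase e) ≤
        (ww β ω g)⁻¹ * z0 β ω e f := by
    intro g hg hgf
    have hge : g ≠ e := fun h => hγ (h ▸ List.mem_toFinset.1 hg)
    have h1 : ∀ T ∈ (tab n e f).filter (fun T => G T = g), wS β ω ((ef T).erase e) =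
        (ww β ω g)⁻¹ * wS β ω (ef (swp T e g)) := by
      intro T hT
      obtain ⟨a1, a2⟩ := Finset.mem_filter.1 hT
      have a4 := (hG T a1).2.2.1
      rw [a2] at a4
      have := hef T a1
      rw [a2] at this
      rw [this, wS_insert (fun h => a4 (Finset.mem_of_mem_erase h)), inv_mul_cancel_left₀
        (ww_pos β ω g).ne']
    rw [Finset.sum_congr rfl h1, ← Finset.mul_sum]
    refine mul_le_mul_of_nonneg_left ?_ (inv_nonneg.2 (ww_pos β ω g).le)
    unfold z0
    rw [← Finset.sum_image (f := fun T => wS β ω (ef T)) (g := fun T => swp T e g)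
      (s := (tab n e f).filter fun T => G T = g) (hinj g)]
    refine Finset.sum_le_sum_of_subset_of_nonneg ?_ fun T _ _ => (wS_pos β ω _).le
    intro T' hT'
    obtain ⟨T, hT, rfl⟩ := Finset.mem_image.1 hT'
    obtain ⟨a1, a2⟩ := Finset.mem_filter.1 hT
    have h3 := hG T a1
    have h4 := hef T a1
    rw [a2] at h3 h4
    refine Finset.mem_filter.2 ⟨mem_trees.2 h3.2.1, ?_, ?_⟩
    · rw [h4, Finset.mem_insert, not_or]
      exact ⟨hge.symm, Finset.notMem_erase _ _⟩
    · rw [h4, Finset.mem_insert, not_or]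
      exact ⟨hgf.symm, fun h => (Finset.mem_filter.1 a1).2.2 (Finset.mem_of_mem_erase h)⟩
  have hff : ∑ T ∈ (tab n e f).filter (fun T => G T = f), wS β ω ((ef T).erase e) ≤
      ∑ T ∈ tab n f e, wS β ω ((ef T).erase f) := by
    have h1 : ∀ T ∈ (tab n e f).filter (fun T => G T = f), wS β ω ((ef T).erase e) =
        wS β ω ((ef (swp T e f)).erase f) := by
      intro T hT
      obtain ⟨a1, a2⟩ := Finset.mem_filter.1 hT
      have a4 := (hG T a1).2.2.1
      rw [a2] at a4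
      have := hef T a1
      rw [a2] at this
      rw [this, Finset.erase_insert (fun h => a4 (Finset.mem_of_mem_erase h))]
    rw [Finset.sum_congr rfl h1]
    rw [← Finset.sum_image (f := fun T => wS β ω ((ef T).erase f)) (g := fun T => swp T e f)
      (s := (tab n e f).filter fun T => G T = f) (hinj f)]
    refine Finset.sum_le_sum_of_subset_of_nonneg ?_ fun T _ _ => (wS_pos β ω _).le
    intro T' hT'
    obtain ⟨T, hT, rfl⟩ := Finset.mem_image.1 hT'
    obtain ⟨a1, a2⟩ := Finset.mem_filter.1 hT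
    have h3 := hG T a1
    have h4 := hef T a1
    rw [a2] at h3 h4
    refine Finset.mem_filter.2 ⟨mem_trees.2 h3.2.1, ?_, ?_⟩
    · rw [h4]; exact Finset.mem_insert_self _ _
    · rw [h4, Finset.mem_insert, not_or]
      exact ⟨hfe.symm, Finset.notMem_erase _ _⟩
  have hz0 := z0_nonneg β ω e f
  have hzf : 0 ≤ ∑ T ∈ tab n f e, wS β ω ((ef T).erase f) :=
    Finset.sum_nonneg fun T _ => (wS_pos β ω _).le
  have hrest : ∑ g ∈ γ.edges.toFinset.erase f, ∑ T ∈ (tab n e f).filter (fun T => G T = g),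
      wS β ω ((ef T).erase e) ≤ ρ * z0 β ω e f := by
    refine (Finset.sum_le_sum fun g hg => hfγ g (Finset.mem_of_mem_erase hg)
      (Finset.ne_of_mem_erase hg)).trans ?_
    rw [← Finset.sum_mul]
    exact mul_le_mul_of_nonneg_right hρ hz0
  by_cases hfm : f ∈ γ.edges.toFinset
  · rw [← Finset.add_sum_erase _ _ hfm]
    exact add_le_add hff hrest
  · rw [← Finset.erase_eq_of_notMem hfm]
    linarith

theorem Zf_sw_le (hn : 1 ≤ n) {β ρ : ℝ} (hβ : 0 ≤ β) (hρ : 0 ≤ ρ) {ω : Env n}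
    (hfe : f ≠ e) (hf : ¬ f.IsDiag) (he : ¬ e.IsDiag)
    (h1 : ω f ≤ ω e → PathCost β ω e f ρ) (h2 : ω e < ω f → PathCost β ω f e ρ) :
    Zf β (sw f e ω) ≤ (1 + max (ww β ω f) (ww β ω e) * ρ) * Zf β ω := by
  have hsw := Zf_sw_split (β := β) ω hfe
  have hs := Zf_split (β := β) ω hfe
  have hz := z0_le β ω e f
  have hz0 := z0_nonneg β ω e f
  have hZ := Zf_pos hn β ω
  have we := ww_pos β ω e
  have wf := ww_pos β ω f
  have hdiff : Zf β (sw f e ω) - Zf β ω =
      (ww β ω f - ww β ω e) * (zab β ω e f - zab β ω f e) := by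
    rw [hsw, hs]; ring
  have key : (ww β ω f - ww β ω e) * (zab β ω e f - zab β ω f e) ≤
      max (ww β ω f) (ww β ω e) * (ρ * z0 β ω e f) := by
    have hm0 : 0 ≤ ρ * z0 β ω e f := mul_nonneg hρ hz0
    rcases le_or_gt (ω f) (ω e) with hle | hlt
    · have h3 := zab_le hfe (h1 hle)
      have h4 : ww β ω e ≤ ww β ω f := by
        unfold ww
        apply Real.exp_le_exp.2
        nlinarith
      have h5 : ww β ω f ≤ max (ww β ω f) (ww β ω e) := le_max_left _ _
      calc (ww β ω f - ww β ω e) * (zab β ω e f - zab β ω f e)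
          ≤ (ww β ω f - ww β ω e) * (ρ * z0 β ω e f) :=
            mul_le_mul_of_nonneg_left (by linarith) (by linarith)
        _ ≤ max (ww β ω f) (ww β ω e) * (ρ * z0 β ω e f) :=
            mul_le_mul_of_nonneg_right (by linarith) hm0
    · have h3 := zab_le hfe.symm (h2 hlt)
      rw [z0_comm β ω f e] at h3
      have h4 : ww β ω f ≤ ww β ω e := by
        unfold ww
        apply Real.exp_le_exp.2
        nlinarith
      have h5 : ww β ω e ≤ max (ww β ω f) (ww β ω e) := le_max_right _ _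
      calc (ww β ω f - ww β ω e) * (zab β ω e f - zab β ω f e)
          = (ww β ω e - ww β ω f) * (zab β ω f e - zab β ω e f) := by ring
        _ ≤ (ww β ω e - ww β ω f) * (ρ * z0 β ω e f) :=
            mul_le_mul_of_nonneg_left (by linarith) (by linarith)
        _ ≤ max (ww β ω f) (ww β ω e) * (ρ * z0 β ω e f) :=
            mul_le_mul_of_nonneg_right (by linarith) hm0
  have hmax : 0 ≤ max (ww β ω f) (ww β ω e) := le_trans wf.le (le_max_left _ _)
  have h6 : max (ww β ω f) (ww β ω e) * (ρ * z0 β ω e f) ≤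
      max (ww β ω f) (ww β ω e) * ρ * Zf β ω := by
    rw [mul_assoc]
    exact mul_le_mul_of_nonneg_left (mul_le_mul_of_nonneg_left hz hρ) hmax
  nlinarith

theorem card_sym2_le (n : ℕ) : Fintype.card (Sym2 (Fin n)) ≤ n ^ 2 := by
  have h := Fintype.card_le_of_surjective (fun p : Fin n × Fin n => s(p.1, p.2))
    (by
      intro z
      induction z using Sym2.ind with
      | _ a b => exact ⟨(a, b), rfl⟩)
  simpa [sq] using h

/-- B4 : if `C` is connected at the level `p` then, at low temperature, the tree uses no edge of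
value `> p'` between two vertices of `C`.  Proof: let `T` be a tree, `x, y ∈ C`, `f` an edge of `T`
which separates them, `p' < ω f`. A walk of `Gr ω p` from `x` to `y` has an edge `g` which goes
from one side of `f` to the other (`exists_cross`), `ω g ≤ p`, `g ∉ T`, and
`wt T ≤ exp (-β (p' - p)) * wt (swp T f g) ≤ n^(-8) * wt (swp T f g)`.  `T` is determined by
`f, g, swp T f g`; there are at most `n^4` pairs `(f, g)` (at most `n^2` non-diagonal edges). -/
theorem B4pt (hn : 1 ≤ n) {β p p' : ℝ} (hβ : 0 ≤ β) {ω : Env n} (C : Finset (Fin n))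
    (hC : ∀ x ∈ C, ∀ y ∈ C, (Gr ω p).Reachable x y)
    (h : 8 * Real.log n ≤ β * (p' - p)) :
    ∑ T ∈ (trees n).filter (fun T => ∃ x ∈ C, ∃ y ∈ C, ∃ f, onp T x y f ∧ p' < ω f),
      gibbs β ω T ≤ 1 / (n : ℝ) ^ 4 := by
  set A := (trees n).filter (fun T => ∃ x ∈ C, ∃ y ∈ C, ∃ f, onp T x y f ∧ p' < ω f) with hA
  have hn0 : (0 : ℝ) < n := by exact_mod_cast hn
  -- the choice of `(f, g)`
  have hch : ∀ T ∈ A, ∃ q : Sym2 (Fin n) × Sym2 (Fin n), q.1 ∈ T.edgeSet ∧ q.2 ∉ T.edgeSet ∧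
      ¬ q.2.IsDiag ∧ (swp T q.1 q.2).IsTree ∧ ω q.2 ≤ p ∧ p' < ω q.1 := by
    intro T hT
    obtain ⟨hT1, x, hx, y, hy, f, ⟨hf, hyf⟩, hpf⟩ := Finset.mem_filter.1 hT
    have hT' := mem_trees.1 hT1
    obtain ⟨W⟩ := hC x hx y hy
    obtain ⟨a', b', hg, ha', hb'⟩ := exists_cross W hyf
    have hgp : (Gr ω p).Adj a' b' := W.adj_of_mem_edges hg
    have hab : a' ≠ b' := hgp.1
    have hgω : ω s(a', b') ≤ p := hgp.2
    induction f using Sym2.ind with
    | _ a b =>
    have hadj : T.Adj a b := by rwa [SimpleGraph.mem_edgeSet] at hf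
    -- `p < p'`
    have hpp : p < p' := by
      have hab' : a ≠ b := hadj.ne
      have hn2 : 2 ≤ n := by
        by_contra hlt
        have : n = 1 := by omega
        subst this
        exact hab' (Subsingleton.elim a b)
      have hlog : 0 < Real.log n := Real.log_pos (by exact_mod_cast hn2)
      have h1 : 0 < β * (p' - p) := by linarith
      by_contra hle
      push Not at hle
      have : β * (p' - p) ≤ 0 := mul_nonpos_of_nonneg_of_nonpos hβ (by linarith)
      linarith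
    have hne : s(a', b') ≠ s(a, b) := by
      intro h'
      rw [h'] at hgω
      linarith
    -- the tree
    have htree : (swp T s(a, b) s(a', b')).IsTree ∧ s(a', b') ∉ T.edgeSet := by
      by_cases hxa : x ∈ side T s(a, b) a
      · rw [side_eq_of_mem hxa] at ha' hb'
        exact ⟨swp_isTree hT' hadj ha' hb', not_mem_of_cross hT' hadj ha' hb' hne⟩
      · have hxb : x ∈ side T s(a, b) b := (side_part hT' hadj x).2 hxa
        rw [side_eq_of_mem hxb] at ha' hb'
        rw [Sym2.eq_swap (a := a) (b := b)] at ha' hb' hne ⊢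
        exact ⟨swp_isTree hT' hadj.symm ha' hb', not_mem_of_cross hT' hadj.symm ha' hb' hne⟩
    refine ⟨(s(a, b), s(a', b')), hf, htree.2, ?_, htree.1, hgω, hpf⟩
    simp only [Sym2.mk_isDiag_iff]
    exact hab
  have hne : Nonempty (Sym2 (Fin n) × Sym2 (Fin n)) :=
    ⟨(s(⟨0, hn⟩, ⟨0, hn⟩), s(⟨0, hn⟩, ⟨0, hn⟩))⟩
  choose! q hq using hch
  -- comparison of the weights
  have hw : ∀ T ∈ A, gibbs β ω T ≤ 1 / (n : ℝ) ^ 8 * gibbs β ω (swp T (q T).1 (q T).2) := by
    intro T hT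
    obtain ⟨h1, h2, h3, h4, h5, h6⟩ := hq T hT
    have hT' : T.IsTree := mem_trees.1 (Finset.mem_filter.1 hT).1
    have hZ := Zf_pos' hT' β ω
    have h7 : ef (swp T (q T).1 (q T).2) = insert (q T).2 ((ef T).erase (q T).1) :=
      ef_swp h1 h2 h3
    have h8 : wt β ω T ≤ 1 / (n : ℝ) ^ 8 * wt β ω (swp T (q T).1 (q T).2) := by
      rw [wt_eq_wS, wt_eq_wS, h7, wS_insert fun h => h2 (mem_efz.1 (Finset.mem_of_mem_erase h)),
        wS_erase (mem_efz.2 h1), ← mul_assoc]
      refine mul_le_mul_of_nonneg_right ?_ (wS_pos _ _ _).le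
      have e8 : 1 / (n : ℝ) ^ 8 = Real.exp (-(8 * Real.log n)) := by
        rw [Real.exp_neg, show (8 : ℝ) * Real.log n = ((8 : ℕ) : ℝ) * Real.log n by norm_num,
          Real.exp_nat_mul, Real.exp_log hn0, one_div]
      rw [e8]
      unfold ww
      rw [← Real.exp_add]
      apply Real.exp_le_exp.2
      have : β * (p' - p) ≤ β * (ω (q T).1 - ω (q T).2) :=
        mul_le_mul_of_nonneg_left (by linarith) hβ
      nlinarith
    unfold gibbs
    rw [← mul_div_assoc]
    exact div_le_div_of_nonneg_right h8 hZ.le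
  have h1 : ∑ T ∈ A, gibbs β ω T ≤ ∑ T ∈ A, 1 / (n : ℝ) ^ 8 * gibbs β ω (swp T (q T).1 (q T).2) :=
    Finset.sum_le_sum hw
  refine h1.trans ?_
  rw [← Finset.mul_sum, ← Finset.sum_fiberwise_of_maps_to (s := A) (t := Finset.univ) (g := q)
    (fun _ _ => Finset.mem_univ _)]
  have h2 : ∀ fg : Sym2 (Fin n) × Sym2 (Fin n), ∑ T ∈ A.filter (fun T => q T = fg),
      gibbs β ω (swp T (q T).1 (q T).2) ≤ 1 := by
    intro fg
    have h3 : ∑ T ∈ A.filter (fun T => q T = fg), gibbs β ω (swp T (q T).1 (q T).2) =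
        ∑ T ∈ A.filter (fun T => q T = fg), gibbs β ω (swp T fg.1 fg.2) :=
      Finset.sum_congr rfl fun T hT => by rw [(Finset.mem_filter.1 hT).2]
    have hinj : Set.InjOn (fun T => swp T fg.1 fg.2)
        ((A.filter fun T => q T = fg : Finset _) : Set (SimpleGraph (Fin n))) := by
      intro T hT T' hT' h
      obtain ⟨a1, a2⟩ := Finset.mem_filter.1 (Finset.mem_coe.1 hT)
      obtain ⟨b1, b2⟩ := Finset.mem_filter.1 (Finset.mem_coe.1 hT')
      have a3 := hq T a1
      have b3 := hq T' b1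
      rw [a2] at a3
      rw [b2] at b3
      have h' : swp T fg.1 fg.2 = swp T' fg.1 fg.2 := h
      rw [← swp_swp a3.1 a3.2.1, ← swp_swp b3.1 b3.2.1, h']
    rw [h3, ← Finset.sum_image (f := fun T => gibbs β ω T) (g := fun T => swp T fg.1 fg.2)
      (s := A.filter fun T => q T = fg) hinj, ← sum_gibbs hn β ω]
    refine Finset.sum_le_sum_of_subset_of_nonneg ?_ fun T _ _ => gibbs_nonneg β ω T
    intro T' hT'
    obtain ⟨T, hT, rfl⟩ := Finset.mem_image.1 hT'
    obtain ⟨a1, a2⟩ := Finset.mem_filter.1 hT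
    have a3 := hq T a1
    rw [a2] at a3
    exact mem_trees.2 a3.2.2.2.1
  have h3 : ∑ fg : Sym2 (Fin n) × Sym2 (Fin n), ∑ T ∈ A.filter (fun T => q T = fg),
      gibbs β ω (swp T (q T).1 (q T).2) ≤ (n : ℝ) ^ 4 := by
    refine (Finset.sum_le_sum fun fg _ => h2 fg).trans ?_
    rw [Finset.sum_const, Finset.card_univ, Fintype.card_prod, nsmul_eq_mul, mul_one]
    have hc : (Fintype.card (Sym2 (Fin n)) : ℝ) ≤ (n : ℝ) ^ 2 := by exact_mod_cast card_sym2_le n
    have hc0 : (0 : ℝ) ≤ (Fintype.card (Sym2 (Fin n)) : ℝ) := Nat.cast_nonneg _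
    push_cast
    calc (Fintype.card (Sym2 (Fin n)) : ℝ) * (Fintype.card (Sym2 (Fin n)) : ℝ)
        ≤ (n : ℝ) ^ 2 * (n : ℝ) ^ 2 := mul_le_mul hc hc hc0 (by positivity)
      _ = (n : ℝ) ^ 4 := by ring
  calc 1 / (n : ℝ) ^ 8 * _ ≤ 1 / (n : ℝ) ^ 8 * (n : ℝ) ^ 4 :=
        mul_le_mul_of_nonneg_left h3 (by positivity)
    _ = 1 / (n : ℝ) ^ 4 := by field_simp

/-- B4, averaged over the environment -/
theorem B4 (hn : 1 ≤ n) {β p p' : ℝ} (hβ : 0 ≤ β) (h : 8 * Real.log n ≤ β * (p' - p))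
    (C : Env n → Finset (Fin n)) (hCm : ∀ v, MeasurableSet {ω | v ∈ C ω}) :
    EE β (fun ω T => ind ((∀ x ∈ C ω, ∀ y ∈ C ω, (Gr ω p).Reachable x y) ∧
      ∃ x ∈ C ω, ∃ y ∈ C ω, ∃ f, onp T x y f ∧ p' < ω f)) ≤
      ENNReal.ofReal (1 / (n : ℝ) ^ 4) := by
  unfold EE
  refine (sum_lintegral_le _ _).trans ?_
  have hpt : ∀ ω : Env n, ∑ T ∈ trees n, ENNReal.ofReal (gibbs β ω T) *
      ind ((∀ x ∈ C ω, ∀ y ∈ C ω, (Gr ω p).Reachable x y) ∧
        ∃ x ∈ C ω, ∃ y ∈ C ω, ∃ f, onp T x y f ∧ p' < ω f) ≤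
      ENNReal.ofReal (1 / (n : ℝ) ^ 4) := by
    intro ω
    by_cases hC : ∀ x ∈ C ω, ∀ y ∈ C ω, (Gr ω p).Reachable x y
    · have h1 := B4pt hn hβ (C ω) hC h
      refine le_trans (le_of_eq ?_) (ENNReal.ofReal_le_ofReal h1)
      rw [ENNReal.ofReal_sum_of_nonneg fun T _ => gibbs_nonneg β ω T, Finset.sum_filter]
      refine Finset.sum_congr rfl fun T _ => ?_
      by_cases hP : ∃ x ∈ C ω, ∃ y ∈ C ω, ∃ f, onp T x y f ∧ p' < ω f
      · rw [if_pos hP]
        unfold ind
        rw [if_pos ⟨hC, hP⟩, mul_one]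
      · rw [if_neg hP]
        unfold ind
        rw [if_neg fun h => hP h.2, mul_zero]
    · have : ∀ T, ind ((∀ x ∈ C ω, ∀ y ∈ C ω, (Gr ω p).Reachable x y) ∧
          ∃ x ∈ C ω, ∃ y ∈ C ω, ∃ f, onp T x y f ∧ p' < ω f) = 0 := by
        intro T
        unfold ind
        rw [if_neg fun h => hC h.1]
      simp [this]
  calc ∫⁻ ω, ∑ T ∈ trees n, ENNReal.ofReal (gibbs β ω T) *
        (fun ω T => ind ((∀ x ∈ C ω, ∀ y ∈ C ω, (Gr ω p).Reachable x y) ∧
        ∃ x ∈ C ω, ∃ y ∈ C ω, ∃ f, onp T x y f ∧ p' < ω f)) ω T ∂(mu n)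
      ≤ ∫⁻ _, ENNReal.ofReal (1 / (n : ℝ) ^ 4) ∂(mu n) := lintegral_mono hpt
    _ = ENNReal.ofReal (1 / (n : ℝ) ^ 4) := by simp

end RST
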