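import Pool.Agent.Work.MP_5ba30e_pr.TreeD
import Pool.Agent.Work.MP_5ba30e_pr.Zr
import Pool.Agent.Work.MP_5ba30e_pr.Inv
import Pool.Agent.Work.MP_5ba30e_pr.Tup

/-!
# DmoveA : tools for the counting of moves (helper69)
-/

open MeasureTheory Set Filter Finset
open scoped ENNReal Topology Classical

noncomputable section

namespace RST

variable {n : ℕ}

/-! ### measurability of functions of a random finite set -/

theorem meas_fin {C : Env n → Finset (Fin n)} (hC : ∀ v, MeasurableSet {ω | v ∈ C ω})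
    {γ : Type*} [MeasurableSpace γ] (F : Finset (Fin n) → γ) :
    Measurable fun ω => F (C ω) := by
  have h1 : ∀ D : Finset (Fin n), MeasurableSet {ω | C ω = D} := by
    intro D
    have : {ω | C ω = D} = ⋂ v, {ω | v ∈ C ω ↔ v ∈ D} := by
      ext ω
      simp only [Set.mem_ofPred_eq, Set.mem_iInter]
      exact Finset.ext_iff
    rw [this]
    refine MeasurableSet.iInter fun v => ?_
    by_cases hv : v ∈ D
    · have : {ω | v ∈ C ω ↔ v ∈ D} = {ω | v ∈ C ω} := by
        ext ω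
        simp [hv]
      rw [this]
      exact hC v
    · have : {ω | v ∈ C ω ↔ v ∈ D} = {ω | v ∈ C ω}ᶜ := by
        ext ω
        simp [hv]
      rw [this]
      exact (hC v).compl
  intro s _
  have : (fun ω => F (C ω)) ⁻¹' s = ⋃ D : Finset (Fin n), ⋃ _ : F D ∈ s, {ω | C ω = D} := by
    ext ω
    simp only [Set.mem_preimage, Set.mem_iUnion, Set.mem_ofPred_eq]
    constructor
    · intro h
      exact ⟨C ω, h, rfl⟩
    · rintro ⟨D, h, rfl⟩
      exact h
  rw [this]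
  exact MeasurableSet.iUnion fun D => MeasurableSet.iUnion fun _ => h1 D

theorem meas_lt (p : ℝ) (e : Sym2 (Fin n)) : Measurable fun ω : Env n => (p < ω e : Prop) := by
  apply measurableSet_setOfPred.1
  exact measurableSet_lt measurable_const (measurable_pi_apply e)

/-! ### sums of indicators -/

theorem sum_ind {ι κ : Type*} [Fintype ι] [Fintype κ] (P : ι → κ → Prop) :
    ∑ f, ∑ e, ind (P f e) = (((Finset.univ : Finset (ι × κ)).filter fun fe =>
      P fe.1 fe.2).card : ℝ≥0∞) := by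
  rw [← Finset.sum_boole, Fintype.sum_prod_type]
  rfl

theorem ofReal_le_sum_ind {ι κ : Type*} [Fintype ι] [Fintype κ] {P : ι → κ → Prop} {r : ℝ}
    (h : r ≤ (((Finset.univ : Finset (ι × κ)).filter fun fe => P fe.1 fe.2).card : ℝ)) :
    ENNReal.ofReal r ≤ ∑ f, ∑ e, ind (P f e) := by
  rw [sum_ind, ← ENNReal.ofReal_natCast]
  exact ENNReal.ofReal_le_ofReal h

theorem sum_ind_le_ofReal {ι κ : Type*} [Fintype ι] [Fintype κ] {P : ι → κ → Prop} {r : ℝ}
    (h : (((Finset.univ : Finset (ι × κ)).filter fun fe => P fe.1 fe.2).card : ℝ) ≤ r) :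
    ∑ f, ∑ e, ind (P f e) ≤ ENNReal.ofReal r := by
  rw [sum_ind, ← ENNReal.ofReal_natCast]
  exact ENNReal.ofReal_le_ofReal h

/-! ### windows -/

/-- every window of length `ℓ` contains a marked index: number of marked indices -/
theorem window_count {P : ℕ → Prop} {ℓ s u : ℕ} (hℓ : 1 ≤ ℓ) (hu : ℓ ≤ u) (hus : u ≤ s)
    (h : ∀ i, i + ℓ ≤ s → ∃ j, i ≤ j ∧ j < i + ℓ ∧ P j) :
    (u : ℝ) / (2 * ℓ) ≤ (((Finset.range s).filter fun i => s ≤ i + u ∧ P i).card : ℝ) := by
  have h1 : ∀ k : ℕ, ∃ j, k < u / ℓ → (s - u + k * ℓ ≤ j ∧ j < s - u + k * ℓ + ℓ ∧ P j) := by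
    intro k
    by_cases hk : k < u / ℓ
    · have h2 : (k + 1) * ℓ ≤ u := (Nat.le_div_iff_mul_le (by omega)).1 hk
      have h3 : (k + 1) * ℓ = k * ℓ + ℓ := by ring
      obtain ⟨j, hj⟩ := h (s - u + k * ℓ) (by omega)
      exact ⟨j, fun _ => hj⟩
    · exact ⟨0, fun hk' => absurd hk' hk⟩
  choose J hJ using h1
  have h2 : u / ℓ ≤ ((Finset.range s).filter fun i => s ≤ i + u ∧ P i).card := by
    rw [← Finset.card_range (u / ℓ)]
    apply Finset.card_le_card_of_injOn J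
    · intro k hk
      rw [Finset.mem_coe, Finset.mem_range] at hk
      obtain ⟨a1, a2, a3⟩ := hJ k hk
      have h2 : (k + 1) * ℓ ≤ u := (Nat.le_div_iff_mul_le (by omega)).1 hk
      have h3 : (k + 1) * ℓ = k * ℓ + ℓ := by ring
      rw [Finset.mem_coe, Finset.mem_filter, Finset.mem_range]
      exact ⟨by omega, by omega, a3⟩
    · intro k hk k' hk' he
      rw [Finset.mem_coe, Finset.mem_range] at hk hk'
      obtain ⟨a1, a2, _⟩ := hJ k hk
      obtain ⟨b1, b2, _⟩ := hJ k' hk'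
      rw [he] at a1 a2
      by_contra hne
      rcases Nat.lt_or_gt_of_ne hne with hlt | hlt
      · have : (k + 1) * ℓ ≤ k' * ℓ := Nat.mul_le_mul_right _ hlt
        have h3 : (k + 1) * ℓ = k * ℓ + ℓ := by ring
        omega
      · have : (k' + 1) * ℓ ≤ k * ℓ := Nat.mul_le_mul_right _ hlt
        have h3 : (k' + 1) * ℓ = k' * ℓ + ℓ := by ring
        omega
  have h3 : u ≤ 2 * ℓ * (u / ℓ) := by
    have h4 : 1 ≤ u / ℓ := (Nat.one_le_div_iff (by omega)).2 hu
    have h5 : u < (u / ℓ + 1) * ℓ := (Nat.lt_mul_div_succ u (show 0 < ℓ by omega)).trans_eq (by ring)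
    have h6 : ℓ ≤ u / ℓ * ℓ := Nat.le_mul_of_pos_left _ h4
    have h7 : (u / ℓ + 1) * ℓ = u / ℓ * ℓ + ℓ := by ring
    have h8 : 2 * ℓ * (u / ℓ) = u / ℓ * ℓ + u / ℓ * ℓ := by ring
    omega
  have hℓ' : (0 : ℝ) < 2 * ℓ := by
    have : (1 : ℝ) ≤ ℓ := by exact_mod_cast hℓ
    linarith
  rw [div_le_iff₀ hℓ']
  calc (u : ℝ) ≤ ((2 * ℓ * (u / ℓ) : ℕ) : ℝ) := by exact_mod_cast h3
    _ = ((u / ℓ : ℕ) : ℝ) * (2 * ℓ) := by push_cast; ring
    _ ≤ _ := by
      apply mul_le_mul_of_nonneg_right _ hℓ'.le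
      exact_mod_cast h2

end RST
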