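import Pool.Agent.Work.MP_5ba30e_pr.TreeD
import Pool.Agent.Work.MP_5ba30e_pr.Zr
import Pool.Agent.Work.MP_5ba30e_pr.Inv
import Pool.Agent.Work.MP_5ba30e_pr.Tup
import Pool.Agent.Work.MP_5ba30e_pr.DmoveA

/-!
# Dmove : exchange of an edge `{a,b}` of the walk of `x` for the edge `{x,y}`

`S` is a nonempty set of marks, `x, y ∈ C0`, `f = {a,b}` is an edge of the walk of `x` to the
hull (`a = dn x i`, `b = dn x (i+1)`) with value `> pm`, `y` is outside of the branch of `a`,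
`e = {x,y}` has value `> pE`.
-/

open MeasureTheory Set Filter Finset
open scoped ENNReal Topology Classical

noncomputable section

namespace RST

variable {n : ℕ}

/-- the edge number `i` of the walk of `x` towards the hull -/
def we (T : SimpleGraph (Fin n)) (S : Finset (Fin n)) (x : Fin n) (i : ℕ) : Sym2 (Fin n) :=
  s(dn T S x i, dn T S x (i + 1))

/-- admissible move -/
def MOK (C0 : Env n → Finset (Fin n)) (pm pE : ℝ) (S : Finset (Fin n)) (ω : Env n)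
    (T : SimpleGraph (Fin n)) (x y : Fin n) (i : ℕ) : Prop :=
  x ∈ C0 ω ∧ y ∈ C0 ω ∧ i < hgt T S x ∧ pm < ω (we T S x i) ∧
    y ∉ side T (we T S x i) (dn T S x i) ∧ s(x, y) ≠ we T S x i ∧ pE < ω s(x, y)

/-- the conditions for the moves -/
structure DOK (β M Q θ Wm Δ pm pE : ℝ) (ℓw : ℕ) (S : Finset (Fin n))
    (C0 CX : Env n → Finset (Fin n)) (ω : Env n) (T : SimpleGraph (Fin n)) : Prop where
  sub : C0 ω ⊆ CX ω
  card : ((CX ω).card : ℝ) ≤ Q * (C0 ω).card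
  lite : TupOK T S (CX ω) θ
  inX : ∀ x ∈ C0 ω, ∀ i ≤ hgt T S x, dn T S x i ∈ CX ω
  dens : ∀ x ∈ C0 ω, ∀ i, i + ℓw ≤ hgt T S x → ∃ j, i ≤ j ∧ j < i + ℓw ∧ pm < ω (we T S x j)
  cnt : ∀ x ∈ C0 ω,
    (((Finset.range (hgt T S x)).filter fun i => pm < ω (we T S x i)).card : ℝ) ≤ Wm
  deg : ∀ x ∈ C0 ω, (((C0 ω).filter fun y => y ≠ x ∧ ω s(x, y) ≤ pE).card : ℝ) ≤ Δ
  zr : ∀ x y i, MOK C0 pm pE S ω T x y i → Zf β (sw (we T S x i) s(x, y) ω) ≤ M * Zf β ω
  invX : ∀ x y i, MOK C0 pm pE S ω T x y i → CX (sw (we T S x i) s(x, y) ω) = CX ω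

/-! ### one move -/

/-- the moves of `DL` -/
def DW (C0 : Env n → Finset (Fin n)) (pm pE : ℝ) (S : Finset (Fin n)) (s₁ u : ℕ) (ω : Env n)
    (T : SimpleGraph (Fin n)) (f e : Sym2 (Fin n)) : Prop :=
  ∃ x y i, MOK C0 pm pE S ω T x y i ∧ s₁ < hgt T S x ∧ s₁ < hgt T S y ∧ s₁ ≤ i + u ∧ i < s₁ ∧
    f = we T S x i ∧ e = s(x, y)

section

variable {T : SimpleGraph (Fin n)} {S : Finset (Fin n)} {C0 CX : Env n → Finset (Fin n)}
  {ω : Env n} {β M Q θ Wm Δ pm pE : ℝ} {ℓw : ℕ} {x y : Fin n} {i : ℕ}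

theorem MOK.offp (hT : T.IsTree) (hS : S.Nonempty) (h : MOK C0 pm pE S ω T x y i) :
    offp T S (dn T S x i) (dn T S x (i + 1)) := offp_dn hT hS h.2.2.1

theorem MOK.x_mem (hT : T.IsTree) (hS : S.Nonempty) (h : MOK C0 pm pE S ω T x y i) :
    x ∈ side T s(dn T S x i, dn T S x (i + 1)) (dn T S x i) :=
  dn_mem_side hT hS (Nat.zero_le i) h.2.2.1

theorem MOK.y_not (h : MOK C0 pm pE S ω T x y i) :
    y ∉ side T s(dn T S x i, dn T S x (i + 1)) (dn T S x i) := h.2.2.2.2.1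

theorem MOK.ne (h : MOK C0 pm pE S ω T x y i) :
    s(x, y) ≠ s(dn T S x i, dn T S x (i + 1)) := h.2.2.2.2.2.1

theorem MOK.basic (hT : T.IsTree) (hS : S.Nonempty) (h : MOK C0 pm pE S ω T x y i) :
    we T S x i ∈ T.edgeSet ∧ s(x, y) ∉ T.edgeSet ∧ ¬ (s(x, y)).IsDiag ∧
      (swp T (we T S x i) s(x, y)).IsTree := by
  have h1 := h.offp hT hS
  have h2 := h.x_mem hT hS
  have h3 := h.y_not
  refine ⟨h1.1, not_mem_of_cross hT h1.1 h2 h3 h.ne, ?_, swp_isTree hT h1.1 h2 h3⟩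
  rw [Sym2.mk_isDiag_iff]
  rintro rfl
  exact h3 h2

/-- the new height of the lower end of the removed edge -/
theorem MOK.hgt (hT : T.IsTree) (hS : S.Nonempty) (h : MOK C0 pm pE S ω T x y i) :
    RST.hgt (swp T (we T S x i) s(x, y)) S (dn T S x i) = i + 1 + RST.hgt T S y := by
  have h1 := hgt_swp_left hT hS (h.offp hT hS) (h.x_mem hT hS) h.y_not h.ne self_mem_side
  have h2 := dist_dn hT hS (Nat.zero_le i) h.2.2.1.le
  rw [SimpleGraph.dist_comm, dn_zero, Nat.sub_zero] at h2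
  rw [h2] at h1
  exact h1

/-- the marked edges of the new walk of the lower end of the removed edge -/
theorem MOK.cnt (hT : T.IsTree) (hS : S.Nonempty) (h : MOK C0 pm pE S ω T x y i)
    (D : DOK β M Q θ Wm Δ pm pE ℓw S C0 CX ω T) :
    (cntOff (swp T (we T S x i) s(x, y)) S
      (fun g => pm < sw (we T S x i) s(x, y) ω g) (dn T S x i) : ℝ) ≤ 2 * Wm + 1 := by
  have h1 := cntOff_swp_left hT hS (h.offp hT hS) (h.x_mem hT hS) h.y_not h.ne
    (fun g => pm < ω g) (fun g => pm < sw (we T S x i) s(x, y) ω g) (by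
      intro g g1 g2
      unfold sw
      rw [show Equiv.swap (we T S x i) s(x, y) g = g from Equiv.swap_apply_of_ne_of_ne g1 g2]
      exact id)
  rw [cntOff_eq hT hS, cntOff_eq hT hS] at h1
  have h2 := D.cnt x h.1
  have h3 := D.cnt y h.2.1
  have h4 : ((cntOff (swp T (we T S x i) s(x, y)) S
      (fun g => pm < sw (we T S x i) s(x, y) ω g) (dn T S x i) : ℕ) : ℝ) ≤
      (((Finset.range (RST.hgt T S x)).filter fun i => pm < ω (we T S x i)).card : ℝ) + 1 +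
      (((Finset.range (RST.hgt T S y)).filter fun i => pm < ω (we T S y i)).card : ℝ) := by
    exact_mod_cast h1
  linarith

/-- the new edge is a marked edge of the new walk -/
theorem MOK.new (hT : T.IsTree) (hS : S.Nonempty) (h : MOK C0 pm pE S ω T x y i) :
    RST.offp (swp T (we T S x i) s(x, y)) S x y ∧
      dn T S x i ∈ side (swp T (we T S x i) s(x, y)) s(x, y) x ∧
      pm < sw (we T S x i) s(x, y) ω s(x, y) := by
  refine ⟨offp_swp hT hS (h.offp hT hS) (h.x_mem hT hS) h.y_not h.ne,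
    new_on_walk hT hS (h.offp hT hS) (h.x_mem hT hS) h.y_not h.ne self_mem_side, ?_⟩
  unfold sw
  rw [Equiv.swap_apply_right]
  exact h.2.2.2.1

/-- a set of heights changes only in the branch -/
theorem MOK.high (hT : T.IsTree) (hS : S.Nonempty) (h : MOK C0 pm pE S ω T x y i)
    (D : DOK β M Q θ Wm Δ pm pE ℓw S C0 CX ω T) (P : ℕ → Prop) :
    ((((CX ω).filter fun z => P (RST.hgt (swp T (we T S x i) s(x, y)) S z)).card : ℕ) : ℝ) ≤
      (((CX ω).filter fun z => P (RST.hgt T S z)).card : ℝ) + θ * (CX ω).card := by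
  have h1 := D.lite _ _ (h.offp hT hS)
  have h2 : ((CX ω).filter fun z => P (RST.hgt (swp T (we T S x i) s(x, y)) S z)).card ≤
      ((CX ω).filter fun z => P (RST.hgt T S z)).card +
      (side T s(dn T S x i, dn T S x (i + 1)) (dn T S x i) ∩ CX ω).card := by
    rw [← Finset.card_union_add_card_inter]
    refine le_trans (Finset.card_le_card ?_) (Nat.le_add_right _ _)
    intro z hz
    rw [Finset.mem_filter] at hz
    rw [Finset.mem_union, Finset.mem_filter, Finset.mem_inter]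
    by_cases hz' : z ∈ side T s(dn T S x i, dn T S x (i + 1)) (dn T S x i)
    · exact Or.inr ⟨hz', hz.1⟩
    · left
      refine ⟨hz.1, ?_⟩
      have h3 := hgt_swp_right hT hS (h.offp hT hS) (h.x_mem hT hS) h.y_not h.ne hz'
      rw [← h3]
      exact hz.2
  have h3 : ((((CX ω).filter fun z =>
      P (RST.hgt (swp T (we T S x i) s(x, y)) S z)).card : ℕ) : ℝ) ≤
      (((CX ω).filter fun z => P (RST.hgt T S z)).card : ℝ) +
      ((side T s(dn T S x i, dn T S x (i + 1)) (dn T S x i) ∩ CX ω).card : ℝ) := by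
    exact_mod_cast h2
  linarith

/-- `(x, y, i)` is determined by the two edges -/
theorem MOK.inj (hT : T.IsTree) (hS : S.Nonempty) {x' y' : Fin n} {i' : ℕ}
    (h : MOK C0 pm pE S ω T x y i) (h' : MOK C0 pm pE S ω T x' y' i')
    (h1 : we T S x i = we T S x' i') (h2 : s(x, y) = s(x', y')) : x = x' ∧ y = y' ∧ i = i' := by
  have o := h.offp hT hS
  have o' := h'.offp hT hS
  have e : dn T S x i = dn T S x' i' ∧ dn T S x (i + 1) = dn T S x' (i' + 1) := by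
    rcases Sym2.eq_iff.1 h1 with e | ⟨e1, e2⟩
    · exact e
    · exfalso
      obtain ⟨s, hs⟩ := hS
      have d1 := Finset.disjoint_right.1 o.2 hs
      have d2 := Finset.disjoint_right.1 o'.2 hs
      rw [← e1, ← e2, Sym2.eq_swap] at d2
      exact d2 ((side_part hT o.1 s).2 d1)
  have m1 := h.x_mem hT hS
  have m2 := h'.x_mem hT hS
  have n1 := h.y_not
  have n2 := h'.y_not
  rw [← e.1, ← e.2] at m2 n2
  have hxy : x = x' ∧ y = y' := by
    rcases Sym2.eq_iff.1 h2 with e' | ⟨e1, e2⟩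
    · exact e'
    · exfalso
      rw [← e1] at n2
      exact n2 m1
  refine ⟨hxy.1, hxy.2, ?_⟩
  have h3 := e.1
  rw [← hxy.1] at h3
  refine dn_inj hT hS h.2.2.1.le ?_ h3
  rw [hxy.1]
  exact h'.2.2.1.le

/-- number of choices of `y` -/
theorem DOK.choices (hT : T.IsTree) (hS : S.Nonempty)
    (D : DOK β M Q θ Wm Δ pm pE ℓw S C0 CX ω T) (hx : x ∈ C0 ω) (hi : i < RST.hgt T S x)
    {H : Finset (Fin n)} (hH : H ⊆ C0 ω) :
    (H.card : ℝ) - θ * (CX ω).card - Δ - 1 ≤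
      ((H.filter fun y => y ∉ side T (we T S x i) (dn T S x i) ∧ s(x, y) ≠ we T S x i ∧
        pE < ω s(x, y)).card : ℝ) := by
  have o := offp_dn hT hS hi
  have m : x ∈ side T s(dn T S x i, dn T S x (i + 1)) (dn T S x i) :=
    dn_mem_side hT hS (Nat.zero_le i) hi
  have h1 := D.lite _ _ o
  have h2 := D.deg x hx
  have h3 : H ⊆ (H.filter fun y => y ∉ side T (we T S x i) (dn T S x i) ∧
      s(x, y) ≠ we T S x i ∧ pE < ω s(x, y)) ∪
      ((side T s(dn T S x i, dn T S x (i + 1)) (dn T S x i) ∩ CX ω) ∪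
      (((C0 ω).filter fun y => y ≠ x ∧ ω s(x, y) ≤ pE) ∪ {dn T S x (i + 1)})) := by
    intro y hy
    rw [Finset.mem_union, Finset.mem_union, Finset.mem_union, Finset.mem_filter,
      Finset.mem_inter, Finset.mem_filter, Finset.mem_singleton]
    by_cases c1 : y ∈ side T s(dn T S x i, dn T S x (i + 1)) (dn T S x i)
    · exact Or.inr (Or.inl ⟨c1, D.sub (hH hy)⟩)
    · have hyx : y ≠ x := by
        rintro rfl
        exact c1 m
      by_cases c2 : ω s(x, y) ≤ pE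
      · exact Or.inr (Or.inr (Or.inl ⟨hH hy, hyx, c2⟩))
      · by_cases c3 : s(x, y) = we T S x i
        · right; right; right
          rcases Sym2.eq_iff.1 c3 with ⟨_, e2⟩ | ⟨_, e2⟩
          · exact e2
          · exfalso
            rw [e2] at c1
            exact c1 self_mem_side
        · exact Or.inl ⟨hy, c1, c3, not_le.1 c2⟩
  have h4 := Finset.card_le_card h3
  have h5 := h4.trans ((Finset.card_union_le _ _).trans (Nat.add_le_add_left
    ((Finset.card_union_le _ _).trans (Nat.add_le_add_left (Finset.card_union_le _ _) _)) _))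
  rw [Finset.card_singleton] at h5
  have h6 : (H.card : ℝ) ≤ ((H.filter fun y => y ∉ side T (we T S x i) (dn T S x i) ∧
      s(x, y) ≠ we T S x i ∧ pE < ω s(x, y)).card : ℝ) +
      (((side T s(dn T S x i, dn T S x (i + 1)) (dn T S x i) ∩ CX ω).card : ℝ) +
      ((((C0 ω).filter fun y => y ≠ x ∧ ω s(x, y) ≤ pE).card : ℝ) + 1)) := by
    exact_mod_cast h5
  linarith

end

section

variable {T : SimpleGraph (Fin n)} {S : Finset (Fin n)} {C0 CX : Env n → Finset (Fin n)}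
  {ω : Env n} {β M Q θ Wm Δ pm pE : ℝ} {ℓw : ℕ}

/-- the number of moves -/
theorem DL_low (hℓ : 1 ≤ ℓw) (hT : T.IsTree) (hS : S.Nonempty)
    (D : DOK β M Q θ Wm Δ pm pE ℓw S C0 CX ω T) {a₁ : ℝ} {s₁ u : ℕ} (ha₁ : 0 < a₁)
    (hu : ℓw ≤ u) (hus : u ≤ s₁)
    (hc1 : θ * (CX ω).card + Δ + 2 ≤ a₁ * (C0 ω).card / 2)
    (hH : a₁ * (C0 ω).card ≤ (((C0 ω).filter fun x => s₁ < hgt T S x).card : ℝ)) :
    (a₁ * (C0 ω).card) * ((u : ℝ) / (2 * ℓw) * (a₁ * (C0 ω).card / 2)) ≤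
      (((Finset.univ : Finset (Sym2 (Fin n) × Sym2 (Fin n))).filter fun fe =>
        DW C0 pm pE S s₁ u ω T fe.1 fe.2).card : ℝ) := by
  set H := (C0 ω).filter fun x => s₁ < hgt T S x with hHdef
  set I : Fin n → Finset ℕ := fun x =>
    (Finset.range s₁).filter fun i => s₁ ≤ i + u ∧ pm < ω (we T S x i) with hI
  set Y : Fin n → ℕ → Finset (Fin n) := fun x i => H.filter fun y =>
    y ∉ side T (we T S x i) (dn T S x i) ∧ s(x, y) ≠ we T S x i ∧ pE < ω s(x, y) with hY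
  have key : (H.sigma fun x => (I x).sigma fun i => Y x i).card ≤
      ((Finset.univ : Finset (Sym2 (Fin n) × Sym2 (Fin n))).filter fun fe =>
        DW C0 pm pE S s₁ u ω T fe.1 fe.2).card := by
    have hmok : ∀ q : (Σ _ : Fin n, Σ _ : ℕ, Fin n),
        q ∈ (H.sigma fun x => (I x).sigma fun i => Y x i) →
        MOK C0 pm pE S ω T q.1 q.2.2 q.2.1 ∧ s₁ < hgt T S q.1 ∧ s₁ < hgt T S q.2.2 ∧
          s₁ ≤ q.2.1 + u ∧ q.2.1 < s₁ := by
      rintro ⟨x, i, y⟩ hq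
      rw [Finset.mem_sigma, Finset.mem_sigma] at hq
      obtain ⟨h1, h2, h3⟩ := hq
      simp only [hHdef, hI, hY, Finset.mem_filter, Finset.mem_range] at h1 h2 h3
      exact ⟨⟨h1.1, h3.1.1, lt_trans h2.1 h1.2, h2.2.2, h3.2.1, h3.2.2.1, h3.2.2.2⟩, h1.2,
        h3.1.2, h2.2.1, h2.1⟩
    apply Finset.card_le_card_of_injOn
      (fun q : (Σ _ : Fin n, Σ _ : ℕ, Fin n) => (we T S q.1 q.2.1, s(q.1, q.2.2)))
    · intro q hq
      obtain ⟨h1, h2, h3, h4, h5⟩ := hmok q (Finset.mem_coe.1 hq)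
      rw [Finset.mem_coe, Finset.mem_filter]
      exact ⟨Finset.mem_univ _, q.1, q.2.2, q.2.1, h1, h2, h3, h4, h5, rfl, rfl⟩
    · rintro ⟨x, i, y⟩ hq ⟨x', i', y'⟩ hq' he
      have h1 := (hmok _ (Finset.mem_coe.1 hq)).1
      have h2 := (hmok _ (Finset.mem_coe.1 hq')).1
      simp only [Prod.mk.injEq] at he
      obtain ⟨rfl, rfl, rfl⟩ := h1.inj hT hS h2 he.1 he.2
      rfl
  have hcard : ((H.sigma fun x => (I x).sigma fun i => Y x i).card : ℝ) =
      ∑ x ∈ H, ∑ i ∈ I x, ((Y x i).card : ℝ) := by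
    rw [Finset.card_sigma]
    push_cast
    apply Finset.sum_congr rfl
    intro x _
    rw [Finset.card_sigma]
    push_cast
    rfl
  have hpos : (0 : ℝ) ≤ a₁ * (C0 ω).card / 2 := by positivity
  have hlow : ∀ x ∈ H, (u : ℝ) / (2 * ℓw) * (a₁ * (C0 ω).card / 2) ≤
      ∑ i ∈ I x, ((Y x i).card : ℝ) := by
    intro x hx
    rw [hHdef, Finset.mem_filter] at hx
    have h1 : (u : ℝ) / (2 * ℓw) ≤ ((I x).card : ℝ) :=
      window_count hℓ hu hus fun i hi => D.dens x hx.1 i (by omega)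
    have h2 : ∀ i ∈ I x, a₁ * (C0 ω).card / 2 ≤ ((Y x i).card : ℝ) := by
      intro i hi
      rw [hI, Finset.mem_filter, Finset.mem_range] at hi
      have h3 := D.choices hT hS hx.1 (i := i) (by omega) (H := H) (Finset.filter_subset _ _)
      have h4 : ((Y x i).card : ℝ) ≥ (H.card : ℝ) - θ * (CX ω).card - Δ - 1 := h3
      linarith
    calc (u : ℝ) / (2 * ℓw) * (a₁ * (C0 ω).card / 2)
        ≤ ((I x).card : ℝ) * (a₁ * (C0 ω).card / 2) := mul_le_mul_of_nonneg_right h1 hpos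
      _ = ∑ _i ∈ I x, (a₁ * (C0 ω).card / 2) := by rw [Finset.sum_const, nsmul_eq_mul]
      _ ≤ _ := Finset.sum_le_sum h2
  calc (a₁ * (C0 ω).card) * ((u : ℝ) / (2 * ℓw) * (a₁ * (C0 ω).card / 2))
      ≤ (H.card : ℝ) * ((u : ℝ) / (2 * ℓw) * (a₁ * (C0 ω).card / 2)) :=
        mul_le_mul_of_nonneg_right hH (by positivity)
    _ = ∑ _x ∈ H, ((u : ℝ) / (2 * ℓw) * (a₁ * (C0 ω).card / 2)) := by
        rw [Finset.sum_const, nsmul_eq_mul]
    _ ≤ ∑ x ∈ H, ∑ i ∈ I x, ((Y x i).card : ℝ) := Finset.sum_le_sum hlow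
    _ = ((H.sigma fun x => (I x).sigma fun i => Y x i).card : ℝ) := hcard.symm
    _ ≤ _ := by exact_mod_cast key

end

/-- general count of the moves which lead to a given pair `(ω', T')`: the lower end of the removed
edge is in `Z`, the new edge is one of at most `2 Wm + 1` marked edges of its walk, the upper end
is in `B` -/
theorem back_count {S : Finset (Fin n)} {pm Wm : ℝ} (hW : 0 ≤ Wm) {ω' : Env n}
    {T' : SimpleGraph (Fin n)} (R : Sym2 (Fin n) → Sym2 (Fin n) → Prop)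
    (Z B : Finset (Fin n))
    (hR : ∀ f e, R f e → ∃ a b x y, f = s(a, b) ∧ e = s(x, y) ∧ a ∈ Z ∧ b ∈ B ∧
      offp T' S x y ∧ a ∈ side T' s(x, y) x ∧ pm < ω' s(x, y) ∧
      (cntOff T' S (fun g => pm < ω' g) a : ℝ) ≤ 2 * Wm + 1) :
    (((Finset.univ : Finset (Sym2 (Fin n) × Sym2 (Fin n))).filter fun fe =>
      R fe.1 fe.2).card : ℝ) ≤ Z.card * ((2 * Wm + 1) * B.card) := by
  set K : Fin n → Finset (Fin n × Fin n) := fun a => Finset.univ.filter fun cd : Fin n × Fin n =>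
    offp T' S cd.1 cd.2 ∧ a ∈ side T' s(cd.1, cd.2) cd.1 ∧ pm < ω' s(cd.1, cd.2) with hK
  have hKc : ∀ a, (K a).card = cntOff T' S (fun g => pm < ω' g) a := fun a => rfl
  set Z' := Z.filter fun a => ((K a).card : ℝ) ≤ 2 * Wm + 1 with hZ'
  have h1 : ((Finset.univ : Finset (Sym2 (Fin n) × Sym2 (Fin n))).filter fun fe =>
      R fe.1 fe.2) ⊆ (Z'.sigma fun a => K a ×ˢ B).image
      (fun q : (Σ _ : Fin n, (Fin n × Fin n) × Fin n) =>
        (s(q.1, q.2.2), s(q.2.1.1, q.2.1.2))) := by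
    rintro ⟨f, e⟩ hfe
    rw [Finset.mem_filter] at hfe
    obtain ⟨a, b, x, y, rfl, rfl, ha, hb, h2, h3, h4, h5⟩ := hR _ _ hfe.2
    rw [Finset.mem_image]
    refine ⟨⟨a, (x, y), b⟩, ?_, rfl⟩
    rw [Finset.mem_sigma, Finset.mem_product]
    refine ⟨Finset.mem_filter.2 ⟨ha, ?_⟩, ?_, hb⟩
    · rw [hKc]
      exact h5
    · rw [hK]
      simp only [Finset.mem_filter, Finset.mem_univ, true_and]
      exact ⟨h2, h3, h4⟩
  have h2 := (Finset.card_le_card h1).trans Finset.card_image_le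
  rw [Finset.card_sigma] at h2
  have h3 : ((∑ a ∈ Z', (K a ×ˢ B).card : ℕ) : ℝ) ≤ ∑ _a ∈ Z', ((2 * Wm + 1) * (B.card : ℝ)) := by
    push_cast
    apply Finset.sum_le_sum
    intro a ha
    rw [hZ', Finset.mem_filter] at ha
    rw [Finset.card_product]
    push_cast
    exact mul_le_mul_of_nonneg_right ha.2 (Nat.cast_nonneg _)
  rw [Finset.sum_const, nsmul_eq_mul] at h3
  have h4 : (Z'.card : ℝ) ≤ Z.card := by
    exact_mod_cast Finset.card_le_card (Finset.filter_subset _ _)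
  calc (((Finset.univ : Finset (Sym2 (Fin n) × Sym2 (Fin n))).filter fun fe =>
      R fe.1 fe.2).card : ℝ) ≤ ((∑ a ∈ Z', (K a ×ˢ B).card : ℕ) : ℝ) := by exact_mod_cast h2
    _ ≤ (Z'.card : ℝ) * ((2 * Wm + 1) * (B.card : ℝ)) := h3
    _ ≤ _ := mul_le_mul_of_nonneg_right h4 (by positivity)

/-- conclusion from the two counts -/
theorem flow_final {β M κ μ : ℝ} (hM : 0 ≤ M) (hκ : 0 < κ) (hμ : 0 ≤ μ)
    {CX : Env n → Finset (Fin n)} (hXm : ∀ v, MeasurableSet {ω | v ∈ CX ω})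
    (P : Env n → SimpleGraph (Fin n) → Prop)
    (V : Env n → SimpleGraph (Fin n) → Sym2 (Fin n) → Sym2 (Fin n) → Prop)
    (hmeas : ∀ T f e, MeasurableSet {ω | V ω T f e})
    (hV : ∀ ω T f e, V ω T f e → T.IsTree ∧ f ∈ T.edgeSet ∧ e ∉ T.edgeSet ∧ ¬ e.IsDiag ∧
      (swp T f e).IsTree ∧ Zf β (sw f e ω) ≤ M * Zf β ω ∧ CX (sw f e ω) = CX ω)
    (hP : ∀ ω T, T.IsTree → P ω T → 1 ≤ (CX ω).card)
    (hg : ∀ ω T, T.IsTree → P ω T → κ * ((CX ω).card : ℝ) ^ 2 ≤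
      (((Finset.univ : Finset (Sym2 (Fin n) × Sym2 (Fin n))).filter fun fe =>
        V ω T fe.1 fe.2).card : ℝ))
    (hm : ∀ ω T, T.IsTree →
      (((Finset.univ : Finset (Sym2 (Fin n) × Sym2 (Fin n))).filter fun fe =>
        ∃ ω₀ T₀, V ω₀ T₀ fe.1 fe.2 ∧ sw fe.1 fe.2 ω₀ = ω ∧ swp T₀ fe.1 fe.2 = T).card : ℝ) ≤
        μ * ((CX ω).card : ℝ) ^ 2)
    (ψ : Finset (Fin n) → ℝ≥0∞) :
    EE β (fun ω T => ind (P ω T) * ψ (CX ω)) ≤
      ENNReal.ofReal (M * μ / κ) * EE β (fun ω _ => ψ (CX ω)) := by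
  set φ : Finset (Fin n) → ℝ≥0∞ := fun C => if C.card = 0 then 0 else ψ C / (C.card : ℝ≥0∞) ^ 2
    with hφ
  have hreal : ∀ (c : ℝ) (k : ℕ), 0 ≤ c →
      ENNReal.ofReal (c * (k : ℝ) ^ 2) = ENNReal.ofReal c * (k : ℝ≥0∞) ^ 2 := by
    intro c k hc
    rw [ENNReal.ofReal_mul hc, ENNReal.ofReal_pow (Nat.cast_nonneg k), ENNReal.ofReal_natCast]
  have hcan : ∀ (c : ℝ) (C : Finset (Fin n)), 0 ≤ c → C.card ≠ 0 →
      ENNReal.ofReal (c * (C.card : ℝ) ^ 2) * φ C = ENNReal.ofReal c * ψ C := by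
    intro c C hc hC
    rw [hreal c _ hc, hφ]
    simp only [if_neg hC]
    have h0 : (C.card : ℝ≥0∞) ^ 2 ≠ 0 := pow_ne_zero _ (Nat.cast_ne_zero.2 hC)
    have h1 : (C.card : ℝ≥0∞) ^ 2 ≠ ∞ := ENNReal.pow_ne_top (ENNReal.natCast_ne_top _)
    rw [mul_assoc, ENNReal.mul_div_cancel h0 h1]
  have hfc := flow_count (β := β) hM V
    (fun ω T => ind (P ω T) * ENNReal.ofReal (κ * ((CX ω).card : ℝ) ^ 2))
    (fun ω _ => ENNReal.ofReal (μ * ((CX ω).card : ℝ) ^ 2)) (fun ω => φ (CX ω)) hmeas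
    (meas_fin hXm φ)
    (fun ω T f e h => by
      obtain ⟨h1, h2, h3, h4, h5, h6, h7⟩ := hV ω T f e h
      exact ⟨h1, h2, h3, h4, h5, h6, by simp only [h7]⟩)
    (fun ω T hT => by
      by_cases h : P ω T
      · rw [ind, if_pos h, one_mul]
        exact ofReal_le_sum_ind (hg ω T hT h)
      · rw [ind, if_neg h, zero_mul]
        exact zero_le)
    (fun ω T hT => sum_ind_le_ofReal (hm ω T hT))
  have h1 : ENNReal.ofReal κ * EE β (fun ω T => ind (P ω T) * ψ (CX ω)) ≤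
      EE β (fun ω T => ind (P ω T) * ENNReal.ofReal (κ * ((CX ω).card : ℝ) ^ 2) * φ (CX ω)) := by
    rw [← EE_const_mul _ ENNReal.ofReal_ne_top]
    apply EE_mono
    intro ω T hT
    by_cases h : P ω T
    · have h2 := hP ω T hT h
      rw [ind, if_pos h, one_mul, one_mul, hcan κ _ hκ.le (by omega)]
    · rw [ind, if_neg h, zero_mul, mul_zero]
      exact zero_le
  have h2 : EE β (fun ω _ => ENNReal.ofReal (μ * ((CX ω).card : ℝ) ^ 2) * φ (CX ω)) ≤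
      ENNReal.ofReal μ * EE β (fun ω _ => ψ (CX ω)) := by
    rw [← EE_const_mul _ ENNReal.ofReal_ne_top]
    apply EE_mono
    intro ω T _
    by_cases h : (CX ω).card = 0
    · rw [hφ]
      simp only [if_pos h, mul_zero]
      exact zero_le
    · rw [hcan μ _ hμ h]
  have h3 := h1.trans (hfc.trans (mul_le_mul_right h2 _))
  have hk0 : ENNReal.ofReal κ ≠ 0 := by
    rw [Ne, ENNReal.ofReal_eq_zero, not_le]
    exact hκ
  calc EE β (fun ω T => ind (P ω T) * ψ (CX ω))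
      = (ENNReal.ofReal κ)⁻¹ * (ENNReal.ofReal κ * EE β (fun ω T => ind (P ω T) * ψ (CX ω))) := by
        rw [← mul_assoc, ENNReal.inv_mul_cancel hk0 ENNReal.ofReal_ne_top, one_mul]
    _ ≤ (ENNReal.ofReal κ)⁻¹ * (ENNReal.ofReal M *
        (ENNReal.ofReal μ * EE β (fun ω _ => ψ (CX ω)))) := mul_le_mul_right h3 _
    _ = ENNReal.ofReal (M * μ / κ) * EE β (fun ω _ => ψ (CX ω)) := by
        rw [div_eq_mul_inv, ENNReal.ofReal_mul (by positivity), ENNReal.ofReal_mul hM,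
          ENNReal.ofReal_inv_of_pos hκ]
        ring

theorem meas_MOK {C0 : Env n → Finset (Fin n)} (h0m : ∀ v, MeasurableSet {ω | v ∈ C0 ω})
    (pm pE : ℝ) (S : Finset (Fin n)) (T : SimpleGraph (Fin n)) (x y : Fin n) (i : ℕ) :
    Measurable fun ω => MOK C0 pm pE S ω T x y i := by
  unfold MOK
  exact (measurableSet_setOfPred.1 (h0m x)).and ((measurableSet_setOfPred.1 (h0m y)).and
    (measurable_const.and ((meas_lt pm _).and (measurable_const.and (measurable_const.and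
      (meas_lt pE _))))))

/-- **DL**.  `flow_count` with `Ψ ω = ψ (CX ω) / |CX ω|²`,
`V ω T f e := A ω T ∧ T.IsTree ∧ a₁|C0| ≤ #{x ∈ C0 : s₁ < hgt x} ∧ #{z ∈ CX : s₂ < hgt z} ≤ a₂|CX| ∧
 ∃ x y i, MOK … ω T x y i ∧ s₁ < hgt x ∧ s₁ < hgt y ∧ s₁ - u ≤ i ∧ i < s₁ ∧ f = we T S x i ∧
 e = s(x,y)`.
*Number of moves*: `≥ a₁|C0|` choices of `x`; `≥ ⌊u/ℓw⌋ ≥ u/(2ℓw)` choices of `i` (`dens`);
`≥ a₁|C0| - θ|CX| - Δ - 2 ≥ a₁|C0|/2` choices of `y` (outside of the branch by `lite`, `y ≠ x`,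
`y ≠ b`, `pE < ω s(x,y)` by `deg`); `(x,y,i) ↦ (f,e)` is injective (`x` is the end of `e` in the
branch).
So `g = ind (…) * a₁² |C0|² u / (4 ℓw)`.
*Backwards*: let `(ω,T) → (ω',T')`, `f = s(a,b)`. `CX ω' = CX ω`. `hgt T' S a = i + 1 + hgt T S y
> 2 s₁ - u ≥ s₂` (`hgt_swp_left`, `dist_dn`) and `a ∈ CX ω'`: the number of possible `a` is at
most `#{z ∈ CX ω' : s₂ < hgt T' z} ≤ #{z ∈ CX ω: s₂ < hgt T z} + |side ∩ CX| ≤ (a₂+θ)|CX|`
(`hgt_swp_right`). Given `a`, `e` is an edge of the walk of `a` in `T'` with `pm < ω' e = ω f`, and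
this walk has at most `2Wm+1` such edges (`cntOff_swp_left`, `cnt`). Given `a` and `e`, `b ∈ CX ω'`:
`|CX|` choices. So `m = (a₂+θ)(2Wm+1)|CX ω|²`. -/
theorem DL (hn : 1 ≤ n) {β M Q θ Wm Δ pm pE : ℝ} {ℓw : ℕ} (hM : 0 ≤ M) (hQ : 1 ≤ Q)
    (hθ : 0 ≤ θ) (hW : 0 ≤ Wm) (hℓ : 1 ≤ ℓw)
    {S : Finset (Fin n)} (hS : S.Nonempty) {C0 CX : Env n → Finset (Fin n)}
    (h0m : ∀ v, MeasurableSet {ω | v ∈ C0 ω}) (hXm : ∀ v, MeasurableSet {ω | v ∈ CX ω})
    (A : Env n → SimpleGraph (Fin n) → Prop) (hA : ∀ T, MeasurableSet {ω | A ω T})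
    (h : ∀ ω T, T.IsTree → A ω T → DOK β M Q θ Wm Δ pm pE ℓw S C0 CX ω T)
    {a₁ a₂ : ℝ} {s₁ s₂ u : ℕ} (ha₁ : 0 < a₁) (ha₂ : 0 ≤ a₂) (hu : ℓw ≤ u) (hus : u ≤ s₁)
    (hs : s₂ + u ≤ 2 * s₁)
    (hc : ∀ ω T, T.IsTree → A ω T →
      1 ≤ (C0 ω).card ∧ θ * (CX ω).card + Δ + 2 ≤ a₁ * (C0 ω).card / 2)
    (ψ : Finset (Fin n) → ℝ≥0∞) :
    EE β (fun ω T => ind (A ω T ∧
        a₁ * (C0 ω).card ≤ (((C0 ω).filter fun x => s₁ < hgt T S x).card : ℝ) ∧
        (((CX ω).filter fun z => s₂ < hgt T S z).card : ℝ) ≤ a₂ * (CX ω).card) * ψ (CX ω)) ≤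
      ENNReal.ofReal (4 * M * Q ^ 2 * (2 * Wm + 1) * (a₂ + θ) * ℓw / (a₁ ^ 2 * u)) *
        EE β (fun ω _ => ψ (CX ω)) := by
  have hu0 : (0 : ℝ) < u := by
    have : 1 ≤ u := hℓ.trans hu
    exact_mod_cast this
  have hℓ0 : (0 : ℝ) < ℓw := by exact_mod_cast hℓ
  have hQ0 : 0 < Q := by linarith
  have hκ : 0 < a₁ ^ 2 * u / (4 * ℓw * Q ^ 2) := by positivity
  have hμ : 0 ≤ (a₂ + θ) * (2 * Wm + 1) := by positivity
  have hconst : 4 * M * Q ^ 2 * (2 * Wm + 1) * (a₂ + θ) * ℓw / (a₁ ^ 2 * u) =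
      M * ((a₂ + θ) * (2 * Wm + 1)) / (a₁ ^ 2 * u / (4 * ℓw * Q ^ 2)) := by
    field_simp
  rw [hconst]
  refine flow_final (κ := a₁ ^ 2 * u / (4 * ℓw * Q ^ 2)) (μ := (a₂ + θ) * (2 * Wm + 1)) hM hκ hμ
    hXm _ (fun ω T f e => (A ω T ∧
        a₁ * (C0 ω).card ≤ (((C0 ω).filter fun x => s₁ < hgt T S x).card : ℝ) ∧
        (((CX ω).filter fun z => s₂ < hgt T S z).card : ℝ) ≤ a₂ * (CX ω).card) ∧ T.IsTree ∧
        DW C0 pm pE S s₁ u ω T f e) ?_ ?_ ?_ ?_ ?_ ψ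
  · intro T f e
    apply measurableSet_setOfPred.2
    refine ((measurableSet_setOfPred.1 (hA T)).and ((meas_fin h0m fun D =>
      a₁ * (D.card : ℝ) ≤ ((D.filter fun x => s₁ < hgt T S x).card : ℝ)).and
      (meas_fin hXm fun D => ((D.filter fun z => s₂ < hgt T S z).card : ℝ) ≤
        a₂ * (D.card : ℝ)))).and (measurable_const.and ?_)
    unfold DW
    refine Measurable.exists fun x => Measurable.exists fun y => Measurable.exists fun i => ?_
    exact (meas_MOK h0m pm pE S T x y i).and measurable_const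
  · rintro ω _ f e ⟨⟨hA', h1, h2⟩, hT, x, y, i, hmok, h3, h4, h5, h6, rfl, rfl⟩
    have D := h ω _ hT hA'
    obtain ⟨b1, b2, b3, b4⟩ := hmok.basic hT hS
    exact ⟨hT, b1, b2, b3, b4, D.zr x y i hmok, D.invX x y i hmok⟩
  · rintro ω T hT ⟨hA', _, _⟩
    exact (hc ω T hT hA').1.trans (Finset.card_le_card (h ω T hT hA').sub)
  · rintro ω T hT ⟨hA', h1, h2⟩
    have D := h ω T hT hA'
    have h3 := DL_low hℓ hT hS D ha₁ hu hus (hc ω T hT hA').2 h1
    have h4 : ((CX ω).card : ℝ) ^ 2 ≤ Q ^ 2 * ((C0 ω).card : ℝ) ^ 2 := by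
      rw [← mul_pow]
      exact pow_le_pow_left₀ (Nat.cast_nonneg _) D.card 2
    have h5 : a₁ ^ 2 * u / (4 * ℓw * Q ^ 2) * ((CX ω).card : ℝ) ^ 2 ≤
        (a₁ * (C0 ω).card) * ((u : ℝ) / (2 * ℓw) * (a₁ * (C0 ω).card / 2)) := by
      calc a₁ ^ 2 * u / (4 * ℓw * Q ^ 2) * ((CX ω).card : ℝ) ^ 2
          ≤ a₁ ^ 2 * u / (4 * ℓw * Q ^ 2) * (Q ^ 2 * ((C0 ω).card : ℝ) ^ 2) :=
            mul_le_mul_of_nonneg_left h4 hκ.le
        _ = _ := by
            field_simp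
            ring
    have h6 : ((Finset.univ : Finset (Sym2 (Fin n) × Sym2 (Fin n))).filter fun fe =>
        DW C0 pm pE S s₁ u ω T fe.1 fe.2).card ≤
        ((Finset.univ : Finset (Sym2 (Fin n) × Sym2 (Fin n))).filter fun fe =>
        (A ω T ∧ a₁ * (C0 ω).card ≤ (((C0 ω).filter fun x => s₁ < hgt T S x).card : ℝ) ∧
        (((CX ω).filter fun z => s₂ < hgt T S z).card : ℝ) ≤ a₂ * (CX ω).card) ∧ T.IsTree ∧
        DW C0 pm pE S s₁ u ω T fe.1 fe.2).card := by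
      apply Finset.card_le_card
      intro fe hfe
      rw [Finset.mem_filter] at hfe ⊢
      exact ⟨hfe.1, ⟨hA', h1, h2⟩, hT, hfe.2⟩
    have h7 : ((((Finset.univ : Finset (Sym2 (Fin n) × Sym2 (Fin n))).filter fun fe =>
        DW C0 pm pE S s₁ u ω T fe.1 fe.2).card : ℕ) : ℝ) ≤
        (((Finset.univ : Finset (Sym2 (Fin n) × Sym2 (Fin n))).filter fun fe =>
        (A ω T ∧ a₁ * (C0 ω).card ≤ (((C0 ω).filter fun x => s₁ < hgt T S x).card : ℝ) ∧
        (((CX ω).filter fun z => s₂ < hgt T S z).card : ℝ) ≤ a₂ * (CX ω).card) ∧ T.IsTree ∧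
        DW C0 pm pE S s₁ u ω T fe.1 fe.2).card : ℝ) := by exact_mod_cast h6
    refine (h5.trans (h3.trans h7)).trans (le_of_eq ?_)
    congr!
  · intro ω' T' hT'
    by_cases hex : ∃ f e, ∃ ω₀ T₀, ((A ω₀ T₀ ∧
        a₁ * (C0 ω₀).card ≤ (((C0 ω₀).filter fun x => s₁ < hgt T₀ S x).card : ℝ) ∧
        (((CX ω₀).filter fun z => s₂ < hgt T₀ S z).card : ℝ) ≤ a₂ * (CX ω₀).card) ∧ T₀.IsTree ∧
        DW C0 pm pE S s₁ u ω₀ T₀ f e) ∧ sw f e ω₀ = ω' ∧ swp T₀ f e = T'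
    · have hb := back_count (S := S) (pm := pm) hW (ω' := ω') (T' := T')
        (fun f e => ∃ ω₀ T₀, ((A ω₀ T₀ ∧
        a₁ * (C0 ω₀).card ≤ (((C0 ω₀).filter fun x => s₁ < hgt T₀ S x).card : ℝ) ∧
        (((CX ω₀).filter fun z => s₂ < hgt T₀ S z).card : ℝ) ≤ a₂ * (CX ω₀).card) ∧ T₀.IsTree ∧
        DW C0 pm pE S s₁ u ω₀ T₀ f e) ∧ sw f e ω₀ = ω' ∧ swp T₀ f e = T')
        ((CX ω').filter fun z => s₂ < hgt T' S z) (CX ω') (by
          rintro f e ⟨ω₀, T₀, ⟨⟨hA', h1, h2⟩, hT, x, y, i, hmok, h3, h4, h5, h6, rfl, rfl⟩,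
            rfl, rfl⟩
          have D := h ω₀ _ hT hA'
          have hX := D.invX x y i hmok
          obtain ⟨n1, n2, n3⟩ := hmok.new hT hS
          refine ⟨dn T₀ S x i, dn T₀ S x (i + 1), x, y, rfl, rfl, ?_, ?_, n1, n2, n3,
            hmok.cnt hT hS D⟩
          · rw [Finset.mem_filter, hX, hmok.hgt hT hS]
            exact ⟨D.inX x hmok.1 i hmok.2.2.1.le, by omega⟩
          · rw [hX]
            exact D.inX x hmok.1 (i + 1) hmok.2.2.1)
      have hZ : ((((CX ω').filter fun z => s₂ < hgt T' S z).card : ℕ) : ℝ) ≤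
          (a₂ + θ) * (CX ω').card := by
        obtain ⟨f, e, ω₀, T₀, ⟨⟨hA', h1, h2⟩, hT, x, y, i, hmok, h3, h4, h5, h6, rfl, rfl⟩,
            rfl, rfl⟩ := hex
        have D := h ω₀ _ hT hA'
        have hX := D.invX x y i hmok
        have h7 := hmok.high hT hS D (fun k => s₂ < k)
        rw [hX]
        have h8 : (((CX ω₀).filter fun z => s₂ < hgt T₀ S z).card : ℝ) + θ * (CX ω₀).card ≤
            (a₂ + θ) * (CX ω₀).card := by
          rw [add_mul]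
          linarith
        refine le_trans ?_ h8
        convert h7
        rfl
      refine hb.trans ?_
      calc ((((CX ω').filter fun z => s₂ < hgt T' S z).card : ℕ) : ℝ) *
            ((2 * Wm + 1) * (CX ω').card)
          ≤ ((a₂ + θ) * (CX ω').card) * ((2 * Wm + 1) * (CX ω').card) :=
            mul_le_mul_of_nonneg_right hZ (by positivity)
        _ = _ := by ring
    · have h0 : ((Finset.univ : Finset (Sym2 (Fin n) × Sym2 (Fin n))).filter fun fe =>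
          ∃ ω₀ T₀, ((A ω₀ T₀ ∧
          a₁ * (C0 ω₀).card ≤ (((C0 ω₀).filter fun x => s₁ < hgt T₀ S x).card : ℝ) ∧
          (((CX ω₀).filter fun z => s₂ < hgt T₀ S z).card : ℝ) ≤ a₂ * (CX ω₀).card) ∧
          T₀.IsTree ∧ DW C0 pm pE S s₁ u ω₀ T₀ fe.1 fe.2) ∧ sw fe.1 fe.2 ω₀ = ω' ∧
          swp T₀ fe.1 fe.2 = T').card = 0 := by
        rw [Finset.card_eq_zero, Finset.filter_eq_empty_iff]
        intro fe _ hfe
        exact hex ⟨fe.1, fe.2, hfe⟩
      rw [h0, Nat.cast_zero]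
      positivity

end RST
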