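import Pool.Agent.Work.MP_5ba30e_pr.Dmove

/-!
# Dnear : exchange of the last edge of large value of the walk of `x` (T6L)
-/

open MeasureTheory Set Filter Finset
open scoped ENNReal Topology Classical

noncomputable section

namespace RST

variable {n : ℕ}

/-- the vertices whose walk to the hull has no edge with value `> pm` -/
def Near (T : SimpleGraph (Fin n)) (S : Finset (Fin n)) (pm : ℝ) (ω : Env n) :
    Finset (Fin n) :=
  Finset.univ.filter fun z => ∀ i < hgt T S z, ω (we T S z i) ≤ pm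

/-- a function of a random finite set is measurable -/
theorem dnear_meas {α : Type*} [MeasurableSpace α] {CX : Env n → Finset (Fin n)}
    (hXm : ∀ v, MeasurableSet {ω | v ∈ CX ω}) (φ : Finset (Fin n) → α) :
    Measurable fun ω => φ (CX ω) := by
  let _ : MeasurableSpace (Finset (Fin n)) := ⊤
  have h1 : Measurable CX := by
    apply measurable_to_countable'
    intro s
    have h2 : CX ⁻¹' {s} = ⋂ v, {ω | v ∈ CX ω ↔ v ∈ s} := by
      ext ω
      simp [Finset.ext_iff]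
    rw [h2]
    refine MeasurableSet.iInter fun v => ?_
    by_cases hv : v ∈ s
    · simpa [hv] using hXm v
    · have h3 : {ω | v ∈ CX ω ↔ v ∈ s} = {ω | v ∈ CX ω}ᶜ := by
        ext ω
        simp [hv]
      rw [h3]
      exact (hXm v).compl
  exact (measurable_from_top : Measurable φ).comp h1

/-- the moves of T6L -/
def VN (A : Env n → SimpleGraph (Fin n) → Prop) (C0 : Env n → Finset (Fin n)) (pm pE : ℝ)
    (S : Finset (Fin n)) (ω : Env n) (T : SimpleGraph (Fin n)) (f e : Sym2 (Fin n)) : Prop :=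
  T.IsTree ∧ A ω T ∧ ∃ x y i, MOK C0 pm pE S ω T x y i ∧
    (∀ j, i < j → j < hgt T S x → ω (we T S x j) ≤ pm) ∧ f = we T S x i ∧ e = s(x, y)

theorem VN_meas {C0 : Env n → Finset (Fin n)} (h0m : ∀ v, MeasurableSet {ω | v ∈ C0 ω})
    (A : Env n → SimpleGraph (Fin n) → Prop) (hA : ∀ T, MeasurableSet {ω | A ω T})
    (pm pE : ℝ) (S : Finset (Fin n)) (T : SimpleGraph (Fin n)) (f e : Sym2 (Fin n)) :
    MeasurableSet {ω | VN A C0 pm pE S ω T f e} := by
  have h1 : {ω : Env n | VN A C0 pm pE S ω T f e} = {ω | T.IsTree} ∩ {ω | A ω T} ∩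
      ⋃ x, ⋃ y, ⋃ i, ({ω | x ∈ C0 ω} ∩ {ω | y ∈ C0 ω} ∩ {ω | i < hgt T S x} ∩
        {ω | pm < ω (we T S x i)} ∩ {ω | y ∉ side T (we T S x i) (dn T S x i)} ∩
        {ω | s(x, y) ≠ we T S x i} ∩ {ω | pE < ω s(x, y)} ∩
        {ω | ∀ j, i < j → j < hgt T S x → ω (we T S x j) ≤ pm} ∩
        {ω | f = we T S x i} ∩ {ω | e = s(x, y)}) := by
    ext ω
    simp only [VN, MOK, Set.mem_ofPred_eq, Set.mem_inter_iff, Set.mem_iUnion]
    constructor
    · rintro ⟨h1, h2, x, y, i, ⟨h3, h4, h5, h6, h7, h8, h9⟩, h10, h11, h12⟩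
      exact ⟨⟨h1, h2⟩, x, y, i, ⟨⟨⟨⟨⟨⟨⟨⟨⟨h3, h4⟩, h5⟩, h6⟩, h7⟩, h8⟩, h9⟩, h10⟩, h11⟩, h12⟩⟩
    · rintro ⟨⟨h1, h2⟩, x, y, i, ⟨⟨⟨⟨⟨⟨⟨⟨⟨h3, h4⟩, h5⟩, h6⟩, h7⟩, h8⟩, h9⟩, h10⟩, h11⟩, h12⟩⟩
      exact ⟨h1, h2, x, y, i, ⟨h3, h4, h5, h6, h7, h8, h9⟩, h10, h11, h12⟩
  rw [h1]
  refine ((MeasurableSet.const _).inter (hA T)).inter ?_
  refine MeasurableSet.iUnion fun x => MeasurableSet.iUnion fun y => MeasurableSet.iUnion fun i => ?_
  refine ((((((((((h0m x).inter (h0m y)).inter (MeasurableSet.const _)).inter ?_).inter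
    (MeasurableSet.const _)).inter (MeasurableSet.const _)).inter ?_).inter ?_).inter
    (MeasurableSet.const _)).inter (MeasurableSet.const _))
  · exact measurableSet_lt measurable_const (measurable_pi_apply _)
  · exact measurableSet_lt measurable_const (measurable_pi_apply _)
  · have h2 : {ω : Env n | ∀ j, i < j → j < hgt T S x → ω (we T S x j) ≤ pm} =
        ⋂ j, ⋂ (_ : i < j), ⋂ (_ : j < hgt T S x), {ω | ω (we T S x j) ≤ pm} := by
      ext ω
      simp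
    rw [h2]
    refine MeasurableSet.iInter fun j => MeasurableSet.iInter fun _ => MeasurableSet.iInter fun _ => ?_
    exact measurableSet_le (measurable_pi_apply _) measurable_const

/-- geometry of an admissible move -/
theorem MOK_geom {C0 : Env n → Finset (Fin n)} {pm pE : ℝ} {S : Finset (Fin n)} {ω : Env n}
    {T : SimpleGraph (Fin n)} {x y : Fin n} {i : ℕ} (hT : T.IsTree) (hS : S.Nonempty)
    (h : MOK C0 pm pE S ω T x y i) :
    offp T S (dn T S x i) (dn T S x (i + 1)) ∧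
      x ∈ side T s(dn T S x i, dn T S x (i + 1)) (dn T S x i) ∧
      y ∉ side T s(dn T S x i, dn T S x (i + 1)) (dn T S x i) ∧
      s(x, y) ≠ s(dn T S x i, dn T S x (i + 1)) := by
  obtain ⟨h1, h2, h3, h4, h5, h6, h7⟩ := h
  refine ⟨offp_dn hT hS h3, ?_, h5, h6⟩
  have := dn_mem_side hT hS (i := 0) (j := i) (Nat.zero_le _) h3
  rwa [dn_zero] at this

/-- hypotheses of `flow_count` -/
theorem VN_hV {β M Q θ Wm Δ pm pE : ℝ} {ℓw : ℕ}
    {S : Finset (Fin n)} (hS : S.Nonempty) {C0 CX : Env n → Finset (Fin n)}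
    (A : Env n → SimpleGraph (Fin n) → Prop)
    (h : ∀ ω T, T.IsTree → A ω T → DOK β M Q θ Wm Δ pm pE ℓw S C0 CX ω T)
    {ω : Env n} {T : SimpleGraph (Fin n)} {f e : Sym2 (Fin n)}
    (hv : VN A C0 pm pE S ω T f e) :
    T.IsTree ∧ f ∈ T.edgeSet ∧ e ∉ T.edgeSet ∧ ¬ e.IsDiag ∧
      (swp T f e).IsTree ∧ Zf β (sw f e ω) ≤ M * Zf β ω ∧ CX (sw f e ω) = CX ω := by
  obtain ⟨hT, hA, x, y, i, hm, hlast, rfl, rfl⟩ := hv
  obtain ⟨ho, hx, hy, hne⟩ := MOK_geom hT hS hm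
  have hD := h ω T hT hA
  refine ⟨hT, ho.1, not_mem_of_cross hT ho.1 hx hy hne, ?_, swp_isTree hT ho.1 hx hy,
    hD.zr x y i hm, hD.invX x y i hm⟩
  rw [Sym2.mk_isDiag_iff]
  rintro rfl
  exact hy hx

/-- two directed edges to the hull with the same underlying edge are equal -/
theorem offp_sym2 {T : SimpleGraph (Fin n)} {S : Finset (Fin n)} {a b a' b' : Fin n}
    (hT : T.IsTree) (hS : S.Nonempty) (h : offp T S a b) (h' : offp T S a' b')
    (he : s(a, b) = s(a', b')) : a = a' ∧ b = b' := by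
  rcases Sym2.eq_iff.1 he with ⟨h1, h2⟩ | ⟨h1, h2⟩
  · exact ⟨h1, h2⟩
  · subst h1 h2
    have h3 := hgt_offp hT hS h
    have h4 := hgt_offp hT hS h'
    omega

/-- number of moves -/
theorem VN_hg {β M Q θ Wm Δ pm pE Nn N0 : ℝ} {ℓw : ℕ}
    {S : Finset (Fin n)} (hS : S.Nonempty) {C0 CX : Env n → Finset (Fin n)}
    (A : Env n → SimpleGraph (Fin n) → Prop)
    (h : ∀ ω T, T.IsTree → A ω T → DOK β M Q θ Wm Δ pm pE ℓw S C0 CX ω T)
    (hc : ∀ ω T, T.IsTree → A ω T → N0 ≤ (C0 ω).card ∧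
      θ * (CX ω).card + Δ + 2 ≤ ((C0 ω).card : ℝ) / 2 ∧
      ((Near T S pm ω).card : ℝ) ≤ Nn ∧ 2 * Nn ≤ (C0 ω).card)
    (ω : Env n) (T : SimpleGraph (Fin n)) (hT : T.IsTree) :
    ind (A ω T) * ENNReal.ofReal (((C0 ω).card : ℝ) ^ 2 / 4) ≤
      ∑ f, ∑ e, ind (VN A C0 pm pE S ω T f e) := by
  by_cases hA : A ω T
  swap
  · simp [ind, hA]
  have hD := h ω T hT hA
  obtain ⟨hc1, hc2, hc3, hc4⟩ := hc ω T hT hA
  -- the last large edge
  have hlast : ∀ x ∈ C0 ω \ Near T S pm ω, ∃ i, i < hgt T S x ∧ pm < ω (we T S x i) ∧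
      ∀ j, i < j → j < hgt T S x → ω (we T S x j) ≤ pm := by
    intro x hx
    rw [Finset.mem_sdiff, Near, Finset.mem_filter] at hx
    have hx2 := hx.2
    push Not at hx2
    obtain ⟨i0, hi0, hi0'⟩ := hx2 (Finset.mem_univ _)
    let F := (Finset.range (hgt T S x)).filter fun i => pm < ω (we T S x i)
    have hF : F.Nonempty := ⟨i0, by simp [F, hi0, hi0']⟩
    have hmax := F.max'_mem hF
    rw [Finset.mem_filter, Finset.mem_range] at hmax
    refine ⟨F.max' hF, hmax.1, hmax.2, fun j hj hj2 => ?_⟩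
    by_contra hcon
    push Not at hcon
    have : j ≤ F.max' hF := F.le_max' _ (by simp [F, hj2, hcon])
    omega
  choose! I hI1 hI2 hI3 using hlast
  -- the pairs
  let P : Finset (Fin n × Fin n) := ((C0 ω \ Near T S pm ω) ×ˢ C0 ω).filter fun xy =>
    MOK C0 pm pE S ω T xy.1 xy.2 (I xy.1)
  have hgood : ∀ x ∈ C0 ω \ Near T S pm ω, ((C0 ω).card : ℝ) / 2 ≤
      (((C0 ω).filter fun y => MOK C0 pm pE S ω T x y (I x)).card : ℝ) := by
    intro x hx
    have hx0 : x ∈ C0 ω := (Finset.mem_sdiff.1 hx).1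
    have hi := hI1 x hx
    have ho := offp_dn hT hS hi
    have hxs : x ∈ side T s(dn T S x (I x), dn T S x (I x + 1)) (dn T S x (I x)) := by
      have := dn_mem_side hT hS (i := 0) (j := I x) (Nat.zero_le _) hi
      rwa [dn_zero] at this
    have hB1 := hD.lite _ _ ho
    have hB2 := hD.deg x hx0
    let B3 : Finset (Fin n) := Finset.univ.filter fun y => s(x, y) = we T S x (I x)
    have hB3 : B3.card ≤ 1 := by
      rw [Finset.card_le_one]
      intro y hy y' hy'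
      simp only [B3, Finset.mem_filter, Finset.mem_univ, true_and] at hy hy'
      have : s(x, y) = s(x, y') := hy.trans hy'.symm
      exact Sym2.congr_right.1 this
    have hsub : C0 ω ⊆ (((C0 ω).filter fun y => MOK C0 pm pE S ω T x y (I x)) ∪
        (side T s(dn T S x (I x), dn T S x (I x + 1)) (dn T S x (I x)) ∩ CX ω)) ∪
        (((C0 ω).filter fun y => y ≠ x ∧ ω s(x, y) ≤ pE) ∪ B3) := by
      intro y hy
      simp only [Finset.mem_union, Finset.mem_filter, Finset.mem_inter, B3, Finset.mem_univ,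
        true_and]
      by_cases h1 : y ∈ side T s(dn T S x (I x), dn T S x (I x + 1)) (dn T S x (I x))
      · exact Or.inl (Or.inr ⟨h1, hD.sub hy⟩)
      have hyx : y ≠ x := by
        rintro rfl
        exact h1 hxs
      by_cases h2 : ω s(x, y) ≤ pE
      · exact Or.inr (Or.inl ⟨hy, hyx, h2⟩)
      by_cases h3 : s(x, y) = we T S x (I x)
      · exact Or.inr (Or.inr h3)
      exact Or.inl (Or.inl ⟨hy, hx0, hy, hi, hI2 x hx, h1, h3, lt_of_not_ge h2⟩)
    have hcard1 := Finset.card_le_card hsub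
    have hcard2 := (Finset.card_union_le (((C0 ω).filter fun y => MOK C0 pm pE S ω T x y (I x)) ∪
        (side T s(dn T S x (I x), dn T S x (I x + 1)) (dn T S x (I x)) ∩ CX ω))
        (((C0 ω).filter fun y => y ≠ x ∧ ω s(x, y) ≤ pE) ∪ B3))
    have hcard3 := (Finset.card_union_le ((C0 ω).filter fun y => MOK C0 pm pE S ω T x y (I x))
        (side T s(dn T S x (I x), dn T S x (I x + 1)) (dn T S x (I x)) ∩ CX ω))
    have hcard4 := (Finset.card_union_le ((C0 ω).filter fun y => y ≠ x ∧ ω s(x, y) ≤ pE) B3)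
    have hcard5 : ((C0 ω).card : ℝ) ≤
        (((C0 ω).filter fun y => MOK C0 pm pE S ω T x y (I x)).card : ℝ) +
        ((side T s(dn T S x (I x), dn T S x (I x + 1)) (dn T S x (I x)) ∩ CX ω).card : ℝ) +
        ((((C0 ω).filter fun y => y ≠ x ∧ ω s(x, y) ≤ pE).card : ℝ) + 1) := by
      have : (C0 ω).card ≤
        ((C0 ω).filter fun y => MOK C0 pm pE S ω T x y (I x)).card +
        (side T s(dn T S x (I x), dn T S x (I x + 1)) (dn T S x (I x)) ∩ CX ω).card +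
        (((C0 ω).filter fun y => y ≠ x ∧ ω s(x, y) ≤ pE).card + 1) := by omega
      exact_mod_cast this
    linarith
  have hNearc : ((C0 ω).card : ℝ) / 2 ≤ ((C0 ω \ Near T S pm ω).card : ℝ) := by
    have h1 : (C0 ω).card ≤ (C0 ω \ Near T S pm ω).card + (Near T S pm ω).card := by
      have := Finset.le_card_sdiff (Near T S pm ω) (C0 ω)
      omega
    have h2 : ((C0 ω).card : ℝ) ≤ (C0 ω \ Near T S pm ω).card + (Near T S pm ω).card := by
      exact_mod_cast h1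
    linarith
  have hP : ((C0 ω).card : ℝ) ^ 2 / 4 ≤ (P.card : ℝ) := by
    have h1 : P.card = ∑ x ∈ C0 ω \ Near T S pm ω,
        ((C0 ω).filter fun y => MOK C0 pm pE S ω T x y (I x)).card := by
      simp only [P, Finset.card_filter, Finset.sum_product]
    rw [h1]
    push_cast
    calc ((C0 ω).card : ℝ) ^ 2 / 4 = ((C0 ω).card : ℝ) / 2 * (((C0 ω).card : ℝ) / 2) := by ring
      _ ≤ ((C0 ω \ Near T S pm ω).card : ℝ) * (((C0 ω).card : ℝ) / 2) := by
        gcongr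
      _ = ∑ x ∈ C0 ω \ Near T S pm ω, ((C0 ω).card : ℝ) / 2 := by
        rw [Finset.sum_const, nsmul_eq_mul]
      _ ≤ _ := Finset.sum_le_sum hgood
  have hinj : Set.InjOn (fun xy : Fin n × Fin n => (we T S xy.1 (I xy.1), s(xy.1, xy.2)))
      (P : Set (Fin n × Fin n)) := by
    rintro ⟨x, y⟩ hxy ⟨x', y'⟩ hxy' heq
    simp only [Finset.mem_coe, P, Finset.mem_filter, Finset.mem_product] at hxy hxy'
    simp only [Prod.mk.injEq] at heq
    obtain ⟨ho, hx, hy, hne⟩ := MOK_geom hT hS hxy.2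
    obtain ⟨ho', hx', hy', hne'⟩ := MOK_geom hT hS hxy'.2
    rcases Sym2.eq_iff.1 heq.2 with ⟨h1, h2⟩ | ⟨h1, h2⟩
    · rw [h1, h2]
    · exfalso
      obtain ⟨h3, h4⟩ := offp_sym2 hT hS ho ho' heq.1
      apply hy
      rw [h3, h4, h2]
      exact hx'
  have hcard : P.card ≤ ((Finset.univ : Finset (Sym2 (Fin n) × Sym2 (Fin n))).filter
      fun fe => VN A C0 pm pE S ω T fe.1 fe.2).card := by
    refine Finset.card_le_card_of_injOn _ ?_ hinj
    rintro ⟨x, y⟩ hxy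
    simp only [Finset.mem_coe, P, Finset.mem_filter, Finset.mem_product] at hxy
    simp only [Finset.coe_filter, Finset.mem_univ, true_and, Set.mem_ofPred_eq]
    exact ⟨hT, hA, x, y, I x, hxy.2, hI3 x hxy.1.1, rfl, rfl⟩
  have hsum : ∑ f, ∑ e, ind (VN A C0 pm pE S ω T f e) =
      (((Finset.univ : Finset (Sym2 (Fin n) × Sym2 (Fin n))).filter
        fun fe => VN A C0 pm pE S ω T fe.1 fe.2).card : ℝ≥0∞) := by
    rw [← Finset.sum_product']
    simp [ind]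
  rw [hsum]
  have h5 : ind (A ω T) = 1 := by simp [ind, hA]
  rw [h5, one_mul]
  calc ENNReal.ofReal (((C0 ω).card : ℝ) ^ 2 / 4) ≤ ENNReal.ofReal (P.card : ℝ) :=
        ENNReal.ofReal_le_ofReal hP
    _ = (P.card : ℝ≥0∞) := ENNReal.ofReal_natCast _
    _ ≤ _ := by exact_mod_cast hcard

/-- the large edges of the walk of `a` -/
def EaN (T : SimpleGraph (Fin n)) (S : Finset (Fin n)) (pm : ℝ) (ω : Env n) (a : Fin n) :
    Finset (Sym2 (Fin n)) :=
  Finset.univ.filter fun e => ∃ j < hgt T S a, e = we T S a j ∧ pm < ω e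

theorem EaN_card {T : SimpleGraph (Fin n)} {S : Finset (Fin n)} (hT : T.IsTree)
    (hS : S.Nonempty) (pm : ℝ) (ω : Env n) (a : Fin n) :
    (EaN T S pm ω a).card ≤ cntOff T S (fun g => pm < ω g) a := by
  rw [cntOff_eq hT hS]
  have h1 : EaN T S pm ω a ⊆ (((Finset.range (hgt T S a)).filter fun i =>
      pm < ω s(dn T S a i, dn T S a (i + 1))).image fun i => we T S a i) := by
    intro e he
    rw [EaN, Finset.mem_filter] at he
    obtain ⟨-, j, hj, rfl, h2⟩ := he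
    rw [Finset.mem_image]
    exact ⟨j, by simp only [Finset.mem_filter, Finset.mem_range]; exact ⟨hj, h2⟩, rfl⟩
  exact (Finset.card_le_card h1).trans Finset.card_image_le

/-- data of a move, read off from its result -/
theorem VN_back {β M Q θ Wm Δ pm pE Nn N0 : ℝ} {ℓw : ℕ}
    {S : Finset (Fin n)} (hS : S.Nonempty) {C0 CX : Env n → Finset (Fin n)}
    (A : Env n → SimpleGraph (Fin n) → Prop)
    (h : ∀ ω T, T.IsTree → A ω T → DOK β M Q θ Wm Δ pm pE ℓw S C0 CX ω T)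
    (hc : ∀ ω T, T.IsTree → A ω T → N0 ≤ (C0 ω).card ∧
      θ * (CX ω).card + Δ + 2 ≤ ((C0 ω).card : ℝ) / 2 ∧
      ((Near T S pm ω).card : ℝ) ≤ Nn ∧ 2 * Nn ≤ (C0 ω).card)
    {ω₀ ω : Env n} {T₀ T : SimpleGraph (Fin n)} (hT : T.IsTree) {f e : Sym2 (Fin n)}
    (hv : VN A C0 pm pE S ω₀ T₀ f e) (hω : sw f e ω₀ = ω) (hTT : swp T₀ f e = T) :
    N0 ≤ ((CX ω).card : ℝ) ∧ ((Near T S pm ω).card : ℝ) ≤ Nn ∧
      ∃ a ∈ CX ω, ((EaN T S pm ω a).card : ℝ) ≤ 2 * Wm + 1 ∧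
        ∃ b ∈ Near T S pm ω, f = s(a, b) ∧ e ∈ EaN T S pm ω a := by
  have hV := VN_hV hS A h hv
  obtain ⟨hT₀, hA, x, y, i, hm, hlast, hf, he⟩ := hv
  obtain ⟨ho, hx, hy, hne⟩ := MOK_geom hT₀ hS hm
  have hD := h ω₀ T₀ hT₀ hA
  obtain ⟨hc1, hc2, hc3, hc4⟩ := hc ω₀ T₀ hT₀ hA
  obtain ⟨m1, m2, m3, m4, m5, m6, m7⟩ := hm
  set a := dn T₀ S x i with ha
  set b := dn T₀ S x (i + 1) with hb
  have hfab : f = s(a, b) := hf
  have hCX : CX ω = CX ω₀ := by rw [← hω]; exact hV.2.2.2.2.2.2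
  have hT' : T = swp T₀ s(a, b) s(x, y) := by rw [← hTT, hfab, he]
  have hωf : ω f = ω₀ e := by rw [← hω]; simp [sw]
  have hωe : ω e = ω₀ f := by rw [← hω]; simp [sw]
  have hωg : ∀ g, g ≠ f → g ≠ e → ω g = ω₀ g := by
    intro g hg1 hg2
    rw [← hω]
    simp only [sw]
    rw [Equiv.swap_apply_of_ne_of_ne hg1 hg2]
  have hef : pm < ω e := by rw [hωe, hf]; exact m4
  -- an edge with an end outside of the branch
  have hout : ∀ u v, u ∉ side T₀ s(a, b) a → v ∉ side T₀ s(a, b) a → ω s(u, v) = ω₀ s(u, v) := by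
    intro u v hu hv
    apply hωg
    · intro h1
      rw [hfab] at h1
      rcases Sym2.eq_iff.1 h1 with ⟨h2, h3⟩ | ⟨h2, h3⟩
      · exact hu (h2 ▸ self_mem_side)
      · exact hv (h3 ▸ self_mem_side)
    · intro h1
      rw [he] at h1
      rcases Sym2.eq_iff.1 h1 with ⟨h2, h3⟩ | ⟨h2, h3⟩
      · exact hu (h2 ▸ hx)
      · exact hv (h3 ▸ hx)
  have hbs : b ∉ side T₀ s(a, b) a := by
    have := dn_not_mem_side hT₀ hS (u := x) (i := i + 1) (j := i) (Nat.lt_succ_self i) m3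
    exact this
  -- the walk of vertices out of the branch
  have hwalk : ∀ z, z ∉ side T₀ s(a, b) a → hgt T S z = hgt T₀ S z ∧
      ∀ j < hgt T₀ S z, ω (we T S z j) = ω₀ (we T₀ S z j) := by
    intro z hz
    rw [hT']
    refine ⟨hgt_swp_right hT₀ hS ho hx hy hne hz, fun j hj => ?_⟩
    obtain ⟨h1, h2⟩ := dn_swp_right hT₀ hS ho hx hy hne hz j hj.le
    obtain ⟨h3, h4⟩ := dn_swp_right hT₀ hS ho hx hy hne hz (j + 1) hj
    rw [we, we, h1, h3]
    exact hout _ _ h2 h4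
  -- Near
  have hNsub : Near T S pm ω ⊆ Near T₀ S pm ω₀ := by
    intro z hz
    rw [Near, Finset.mem_filter] at hz ⊢
    refine ⟨Finset.mem_univ _, ?_⟩
    by_cases hzs : z ∈ side T₀ s(a, b) a
    · exfalso
      have h1 : offp T S x y := by rw [hT']; exact offp_swp hT₀ hS ho hx hy hne
      have h2 : z ∈ side T s(x, y) x := by
        rw [hT']; exact new_on_walk hT₀ hS ho hx hy hne hzs
      obtain ⟨j, hj, h3, h4⟩ := (off_iff_dn hT hS).1 ⟨h1, h2⟩
      have h5 := hz.2 j hj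
      rw [we, ← h3, ← h4, ← he] at h5
      exact absurd hef (not_lt.2 h5)
    · obtain ⟨h1, h2⟩ := hwalk z hzs
      intro j hj
      rw [← h2 j hj]
      exact hz.2 j (h1 ▸ hj)
  have hNc : ((Near T S pm ω).card : ℝ) ≤ Nn := by
    refine le_trans ?_ hc3
    exact_mod_cast Finset.card_le_card hNsub
  have hbN : b ∈ Near T S pm ω := by
    rw [Near, Finset.mem_filter]
    refine ⟨Finset.mem_univ _, ?_⟩
    obtain ⟨h1, h2⟩ := hwalk b hbs
    intro j hj
    rw [h1] at hj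
    rw [h2 j hj]
    have h3 : hgt T₀ S b = hgt T₀ S x - (i + 1) := hgt_dn hT₀ hS m3
    have h4 : we T₀ S b j = we T₀ S x (i + 1 + j) := by
      rw [we, we, hb, ← dn_add, ← dn_add, add_assoc (i + 1) j 1]
    rw [h4]
    exact hlast _ (by omega) (by omega)
  refine ⟨?_, hNc, a, ?_, ?_, b, hbN, hfab, ?_⟩
  · rw [hCX]
    refine hc1.trans ?_
    exact_mod_cast Finset.card_le_card hD.sub
  · rw [hCX]
    exact hD.inX x m1 i m3.le
  · have h1 := EaN_card hT hS pm ω a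
    have h2 : cntOff T S (fun g => pm < ω g) a ≤
        cntOff T₀ S (fun g => pm < ω₀ g) x + 1 + cntOff T₀ S (fun g => pm < ω₀ g) y := by
      rw [hT']
      refine cntOff_swp_left hT₀ hS ho hx hy hne _ _ ?_
      intro g hg1 hg2 hg3
      rw [← hfab] at hg1
      rw [← he] at hg2
      rwa [hωg g hg1 hg2] at hg3
    rw [cntOff_eq hT₀ hS, cntOff_eq hT₀ hS] at h2
    have h3 := hD.cnt x m1
    have h4 := hD.cnt y m2
    simp only [we] at h3 h4
    have h5 : ((EaN T S pm ω a).card : ℝ) ≤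
        ((((Finset.range (hgt T₀ S x)).filter fun i =>
          pm < ω₀ s(dn T₀ S x i, dn T₀ S x (i + 1))).card : ℝ)) + 1 +
        ((((Finset.range (hgt T₀ S y)).filter fun i =>
          pm < ω₀ s(dn T₀ S y i, dn T₀ S y (i + 1))).card : ℝ)) := by
      exact_mod_cast h1.trans h2
    linarith
  · rw [EaN, Finset.mem_filter]
    refine ⟨Finset.mem_univ _, ?_⟩
    have h1 : offp T S x y := by rw [hT']; exact offp_swp hT₀ hS ho hx hy hne
    have h2 : a ∈ side T s(x, y) x := by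
      rw [hT']; exact new_on_walk hT₀ hS ho hx hy hne self_mem_side
    obtain ⟨j, hj, h3, h4⟩ := (off_iff_dn hT hS).1 ⟨h1, h2⟩
    refine ⟨j, hj, ?_, hef⟩
    rw [we, ← h3, ← h4]
    exact he

/-- number of moves with a given result -/
theorem VN_hm {β M Q θ Wm Δ pm pE Nn N0 : ℝ} {ℓw : ℕ} (hW : 0 ≤ Wm) (hNn : 0 ≤ Nn)
    {S : Finset (Fin n)} (hS : S.Nonempty) {C0 CX : Env n → Finset (Fin n)}
    (A : Env n → SimpleGraph (Fin n) → Prop)
    (h : ∀ ω T, T.IsTree → A ω T → DOK β M Q θ Wm Δ pm pE ℓw S C0 CX ω T)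
    (hc : ∀ ω T, T.IsTree → A ω T → N0 ≤ (C0 ω).card ∧
      θ * (CX ω).card + Δ + 2 ≤ ((C0 ω).card : ℝ) / 2 ∧
      ((Near T S pm ω).card : ℝ) ≤ Nn ∧ 2 * Nn ≤ (C0 ω).card)
    (ω : Env n) (T : SimpleGraph (Fin n)) (hT : T.IsTree) :
    ∑ f, ∑ e, ind (∃ ω₀ T₀, VN A C0 pm pE S ω₀ T₀ f e ∧ sw f e ω₀ = ω ∧ swp T₀ f e = T) ≤
      if N0 ≤ ((CX ω).card : ℝ) then
        ENNReal.ofReal (Nn * (2 * Wm + 1) * (CX ω).card) else 0 := by
  let P : Finset (Sym2 (Fin n) × Sym2 (Fin n)) := Finset.univ.filter fun fe =>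
    ∃ ω₀ T₀, VN A C0 pm pE S ω₀ T₀ fe.1 fe.2 ∧ sw fe.1 fe.2 ω₀ = ω ∧ swp T₀ fe.1 fe.2 = T
  have hsum : ∑ f, ∑ e, ind (∃ ω₀ T₀, VN A C0 pm pE S ω₀ T₀ f e ∧ sw f e ω₀ = ω ∧
      swp T₀ f e = T) = (P.card : ℝ≥0∞) := by
    rw [← Finset.sum_product']
    simp [ind, P]
  rw [hsum]
  rcases P.eq_empty_or_nonempty with h0 | ⟨⟨f₀, e₀⟩, hP0⟩
  · simp [h0]
  simp only [P, Finset.mem_filter, Finset.mem_univ, true_and] at hP0
  obtain ⟨ω₀, T₀, hv0, hω0, hT0⟩ := hP0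
  obtain ⟨hN, hNear, -⟩ := VN_back hS A h hc hT hv0 hω0 hT0
  rw [if_pos hN]
  let X := (CX ω).filter fun a => ((EaN T S pm ω a).card : ℝ) ≤ 2 * Wm + 1
  have hsub : P ⊆ X.biUnion fun a => ((Near T S pm ω) ×ˢ (EaN T S pm ω a)).image
      fun be => (s(a, be.1), be.2) := by
    rintro ⟨f, e⟩ hfe
    simp only [P, Finset.mem_filter, Finset.mem_univ, true_and] at hfe
    obtain ⟨ω₁, T₁, hv1, hω1, hT1⟩ := hfe
    obtain ⟨-, -, a, ha, ha2, b, hb, hf, he⟩ := VN_back hS A h hc hT hv1 hω1 hT1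
    rw [Finset.mem_biUnion]
    refine ⟨a, by simp only [X, Finset.mem_filter]; exact ⟨ha, ha2⟩, ?_⟩
    rw [Finset.mem_image]
    exact ⟨(b, e), by simp only [Finset.mem_product]; exact ⟨hb, he⟩, by rw [hf]⟩
  have hcard : (P.card : ℝ) ≤ Nn * (2 * Wm + 1) * (CX ω).card := by
    have h1 : P.card ≤ ∑ a ∈ X, (Near T S pm ω).card * (EaN T S pm ω a).card := by
      refine (Finset.card_le_card hsub).trans (Finset.card_biUnion_le.trans ?_)
      refine Finset.sum_le_sum fun a _ => ?_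
      refine Finset.card_image_le.trans ?_
      rw [Finset.card_product]
    have h2 : (P.card : ℝ) ≤ ∑ a ∈ X, ((Near T S pm ω).card : ℝ) * ((EaN T S pm ω a).card : ℝ) := by
      exact_mod_cast h1
    calc (P.card : ℝ) ≤ ∑ a ∈ X, ((Near T S pm ω).card : ℝ) * ((EaN T S pm ω a).card : ℝ) := h2
      _ ≤ ∑ a ∈ X, Nn * (2 * Wm + 1) := by
        refine Finset.sum_le_sum fun a ha => ?_
        simp only [X, Finset.mem_filter] at ha
        exact mul_le_mul hNear ha.2 (Nat.cast_nonneg _) hNn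
      _ = (X.card : ℝ) * (Nn * (2 * Wm + 1)) := by rw [Finset.sum_const, nsmul_eq_mul]
      _ ≤ ((CX ω).card : ℝ) * (Nn * (2 * Wm + 1)) := by
        have : X.card ≤ (CX ω).card := Finset.card_filter_le _ _
        have h3 : (X.card : ℝ) ≤ (CX ω).card := by exact_mod_cast this
        have h4 : 0 ≤ Nn * (2 * Wm + 1) := by positivity
        exact mul_le_mul_of_nonneg_right h3 h4
      _ = _ := by ring
  calc (P.card : ℝ≥0∞) = ENNReal.ofReal (P.card : ℝ) := (ENNReal.ofReal_natCast _).symm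
    _ ≤ _ := ENNReal.ofReal_le_ofReal hcard

/-- **T6L**.  `flow_count` with `Ψ ω = ψ (CX ω) / |CX ω|²` and the moves `VN`: `f` is the last
edge of the walk of `x` with value `> pm`, so that `b = dn x (i+1) ∈ Near`. -/
theorem T6L (hn : 1 ≤ n) {β M Q θ Wm Δ pm pE Nn N0 : ℝ} {ℓw : ℕ} (hM : 0 ≤ M) (hQ : 1 ≤ Q)
    (hθ : 0 ≤ θ) (hW : 0 ≤ Wm) (hNn : 0 ≤ Nn) (hN0 : 0 < N0)
    {S : Finset (Fin n)} (hS : S.Nonempty) {C0 CX : Env n → Finset (Fin n)}
    (h0m : ∀ v, MeasurableSet {ω | v ∈ C0 ω}) (hXm : ∀ v, MeasurableSet {ω | v ∈ CX ω})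
    (A : Env n → SimpleGraph (Fin n) → Prop) (hA : ∀ T, MeasurableSet {ω | A ω T})
    (h : ∀ ω T, T.IsTree → A ω T → DOK β M Q θ Wm Δ pm pE ℓw S C0 CX ω T)
    (hc : ∀ ω T, T.IsTree → A ω T → N0 ≤ (C0 ω).card ∧
      θ * (CX ω).card + Δ + 2 ≤ ((C0 ω).card : ℝ) / 2 ∧
      ((Near T S pm ω).card : ℝ) ≤ Nn ∧ 2 * Nn ≤ (C0 ω).card)
    (ψ : Finset (Fin n) → ℝ≥0∞) :
    EE β (fun ω T => ind (A ω T) * ψ (CX ω)) ≤
      ENNReal.ofReal (4 * M * Q ^ 2 * (2 * Wm + 1) * Nn / N0) *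
        EE β (fun ω _ => ψ (CX ω)) := by
  set Ψ : Env n → ℝ≥0∞ := fun ω => ψ (CX ω) / ((CX ω).card : ℝ≥0∞) ^ 2 with hΨ
  set g : Env n → SimpleGraph (Fin n) → ℝ≥0∞ := fun ω T =>
    ind (A ω T) * ENNReal.ofReal (((C0 ω).card : ℝ) ^ 2 / 4) with hg
  set m : Env n → SimpleGraph (Fin n) → ℝ≥0∞ := fun ω _ =>
    if N0 ≤ ((CX ω).card : ℝ) then
        ENNReal.ofReal (Nn * (2 * Wm + 1) * (CX ω).card) else 0 with hm
  have hΨm : Measurable Ψ :=
    dnear_meas hXm (fun s => ψ s / ((s.card : ℝ≥0∞)) ^ 2)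
  have hflow := flow_count (β := β) hM (VN A C0 pm pE S) g m Ψ
    (fun T f e => VN_meas h0m A hA pm pE S T f e) hΨm
    (fun ω T f e hv => by
      obtain ⟨h1, h2, h3, h4, h5, h6, h7⟩ := VN_hV hS A h hv
      refine ⟨h1, h2, h3, h4, h5, h6, ?_⟩
      simp only [hΨ, h7])
    (fun ω T hT => VN_hg hS A h hc ω T hT)
    (fun ω T hT => VN_hm hW hNn hS A h hc ω T hT)
  have h1 : EE β (fun ω T => ind (A ω T) * ψ (CX ω)) ≤
      EE β (fun ω T => ENNReal.ofReal (4 * Q ^ 2) * (g ω T * Ψ ω)) := by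
    refine EE_mono fun ω T hT => ?_
    by_cases hAT : A ω T
    swap
    · simp [ind, hAT]
    have hD := h ω T hT hAT
    obtain ⟨hc1, -, -, -⟩ := hc ω T hT hAT
    have hC0 : (0 : ℝ) < (C0 ω).card := lt_of_lt_of_le hN0 hc1
    have hle : ((C0 ω).card : ℝ) ≤ (CX ω).card := by
      exact_mod_cast Finset.card_le_card hD.sub
    have hCXpos : (0 : ℝ) < (CX ω).card := lt_of_lt_of_le hC0 hle
    have hCXn : ((CX ω).card : ℝ≥0∞) ≠ 0 := by
      have : (CX ω).card ≠ 0 := by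
        intro h0
        rw [h0] at hCXpos
        simp at hCXpos
      exact_mod_cast this
    have h2 : ind (A ω T) = 1 := by simp [ind, hAT]
    simp only [hg, hΨ, h2, one_mul]
    rw [← mul_assoc, ← ENNReal.ofReal_mul (by positivity)]
    have h3 : ((CX ω).card : ℝ≥0∞) ^ 2 ≤
        ENNReal.ofReal (4 * Q ^ 2 * (((C0 ω).card : ℝ) ^ 2 / 4)) := by
      rw [← ENNReal.ofReal_natCast, ← ENNReal.ofReal_pow (Nat.cast_nonneg _)]
      apply ENNReal.ofReal_le_ofReal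
      have h4 := hD.card
      calc ((CX ω).card : ℝ) ^ 2 ≤ (Q * (C0 ω).card) ^ 2 := by gcongr
        _ = _ := by ring
    calc ψ (CX ω) = ((CX ω).card : ℝ≥0∞) ^ 2 * (ψ (CX ω) / ((CX ω).card : ℝ≥0∞) ^ 2) := by
          rw [ENNReal.mul_div_cancel]
          · exact pow_ne_zero _ hCXn
          · exact ENNReal.pow_ne_top (ENNReal.natCast_ne_top _)
      _ ≤ _ := by gcongr
  have h2 : EE β (fun ω T => m ω T * Ψ ω) ≤
      EE β (fun ω _ => ENNReal.ofReal (Nn * (2 * Wm + 1) / N0) * ψ (CX ω)) := by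
    refine EE_mono fun ω T hT => ?_
    by_cases hN : N0 ≤ ((CX ω).card : ℝ)
    swap
    · simp [hm, hN]
    simp only [hm, hΨ, if_pos hN]
    have hK : 0 ≤ Nn * (2 * Wm + 1) := by positivity
    have h3 : ENNReal.ofReal (Nn * (2 * Wm + 1) * (CX ω).card) ≤
        ENNReal.ofReal (Nn * (2 * Wm + 1) / N0) * ((CX ω).card : ℝ≥0∞) ^ 2 := by
      rw [← ENNReal.ofReal_natCast, ← ENNReal.ofReal_pow (Nat.cast_nonneg _),
        ← ENNReal.ofReal_mul (by positivity)]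
      apply ENNReal.ofReal_le_ofReal
      have h5 : (CX ω).card * N0 ≤ ((CX ω).card : ℝ) ^ 2 := by
        rw [sq]
        exact mul_le_mul_of_nonneg_left hN (Nat.cast_nonneg _)
      have h6 : ((CX ω).card : ℝ) ≤ ((CX ω).card : ℝ) ^ 2 / N0 := by
        rw [le_div_iff₀ hN0]
        exact h5
      calc Nn * (2 * Wm + 1) * (CX ω).card ≤ Nn * (2 * Wm + 1) * (((CX ω).card : ℝ) ^ 2 / N0) :=
            mul_le_mul_of_nonneg_left h6 hK
        _ = _ := by ring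
    calc ENNReal.ofReal (Nn * (2 * Wm + 1) * (CX ω).card) *
          (ψ (CX ω) / ((CX ω).card : ℝ≥0∞) ^ 2) ≤
          ENNReal.ofReal (Nn * (2 * Wm + 1) / N0) * ((CX ω).card : ℝ≥0∞) ^ 2 *
          (ψ (CX ω) / ((CX ω).card : ℝ≥0∞) ^ 2) := by gcongr
      _ = ENNReal.ofReal (Nn * (2 * Wm + 1) / N0) * (((CX ω).card : ℝ≥0∞) ^ 2 *
          (ψ (CX ω) / ((CX ω).card : ℝ≥0∞) ^ 2)) := mul_assoc _ _ _
      _ ≤ ENNReal.ofReal (Nn * (2 * Wm + 1) / N0) * ψ (CX ω) := by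
        gcongr
        exact ENNReal.mul_div_le
  have h3 : (0:ℝ) ≤ 4 * Q ^ 2 := by positivity
  have h4 : (0:ℝ) ≤ 4 * Q ^ 2 * M := by positivity
  calc EE β (fun ω T => ind (A ω T) * ψ (CX ω)) ≤
        EE β (fun ω T => ENNReal.ofReal (4 * Q ^ 2) * (g ω T * Ψ ω)) := h1
    _ = ENNReal.ofReal (4 * Q ^ 2) * EE β (fun ω T => g ω T * Ψ ω) :=
        EE_const_mul _ ENNReal.ofReal_ne_top
    _ ≤ ENNReal.ofReal (4 * Q ^ 2) * (ENNReal.ofReal M * EE β (fun ω T => m ω T * Ψ ω)) := by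
        gcongr
    _ ≤ ENNReal.ofReal (4 * Q ^ 2) * (ENNReal.ofReal M *
          EE β (fun ω _ => ENNReal.ofReal (Nn * (2 * Wm + 1) / N0) * ψ (CX ω))) := by
        gcongr
    _ = ENNReal.ofReal (4 * Q ^ 2) * (ENNReal.ofReal M *
          (ENNReal.ofReal (Nn * (2 * Wm + 1) / N0) * EE β (fun ω _ => ψ (CX ω)))) := by
        rw [EE_const_mul _ ENNReal.ofReal_ne_top]
    _ = _ := by
        rw [← mul_assoc, ← mul_assoc, ← ENNReal.ofReal_mul h3, ← ENNReal.ofReal_mul h4]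
        congr 2
        ring

end RST
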