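import Pool.Agent.Work.MP_5ba30e_pr.Explore

/-!
# Paths : first moment bounds for paths

All are consequences of `path_union` (a path of length `ℓ` is an injective map
`f : Fin (ℓ+1) → Fin n`; its `ℓ` edges are distinct) and of `mu_le_all`, `mu_box`.
-/

open MeasureTheory Set Filter Finset
open scoped ENNReal Topology Classical

noncomputable section

namespace RST

variable {n : ℕ}

/-- the edges of the path given by `f` -/
def pe {ℓ : ℕ} (f : Fin (ℓ + 1) → Fin n) : Finset (Sym2 (Fin n)) :=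
  Finset.univ.image fun i : Fin ℓ => s(f i.castSucc, f i.succ)

theorem pe_card {ℓ : ℕ} {f : Fin (ℓ + 1) → Fin n} (hf : Function.Injective f) :
    (pe f).card = ℓ := by
  unfold pe
  rw [Finset.card_image_of_injective, Finset.card_univ, Fintype.card_fin]
  intro a b hab
  have hab' : s(f a.castSucc, f a.succ) = s(f b.castSucc, f b.succ) := hab
  rw [Sym2.eq_iff] at hab'
  rcases hab' with ⟨h, -⟩ | ⟨h1, h2⟩
  · exact Fin.castSucc_injective _ (hf h)
  · exfalso
    have e1 := congrArg Fin.val (hf h1)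
    have e2 := congrArg Fin.val (hf h2)
    simp only [Fin.val_castSucc, Fin.val_succ] at e1 e2
    omega

/-- a path as an injective map -/
theorem exists_pe {G : SimpleGraph (Fin n)} {u v : Fin n} (w : G.Walk u v) (hw : w.IsPath) :
    ∃ f : Fin (w.length + 1) → Fin n, Function.Injective f ∧ f 0 = u ∧
      f (Fin.last _) = v ∧ (∀ e, e ∈ w.edges ↔ e ∈ pe f) ∧
      (∀ x, x ∈ w.support ↔ ∃ i, f i = x) ∧ ∀ e ∈ pe f, e ∈ G.edgeSet := by
  refine ⟨fun i => w.getVert i, ?_, by simp, by simp, ?_, ?_, ?_⟩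
  · intro a b hab
    exact Fin.ext (hw.getVert_injOn (by have := a.2; exact Nat.lt_succ_iff.1 this)
      (by have := b.2; exact Nat.lt_succ_iff.1 this) hab)
  · intro e
    unfold pe
    rw [Finset.mem_image]
    constructor
    · intro he
      obtain ⟨d, hd, rfl⟩ := List.mem_map.1 he
      obtain ⟨i, hi, rfl⟩ := List.mem_iff_getElem.1 hd
      refine ⟨⟨i, by simpa using hi⟩, Finset.mem_univ _, ?_⟩
      rw [SimpleGraph.Walk.darts_getElem_eq_getVert]
      rfl
    · rintro ⟨i, -, rfl⟩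
      have hi : (i : ℕ) < w.darts.length := by simp
      have h1 := SimpleGraph.Walk.darts_getElem_eq_getVert (i : ℕ) hi
      refine List.mem_map.2 ⟨_, List.getElem_mem hi, ?_⟩
      rw [h1]
      rfl
  · intro x
    rw [SimpleGraph.Walk.mem_support_iff_exists_getVert]
    constructor
    · rintro ⟨i, hi, hl⟩
      exact ⟨⟨i, by omega⟩, hi⟩
    · rintro ⟨i, hi⟩
      exact ⟨i, hi, by have := i.2; omega⟩
  · intro e he
    obtain ⟨i, -, rfl⟩ := Finset.mem_image.1 he
    exact w.adj_getVert_succ i.2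

/-- union bound over the paths of length `ℓ`; `E f` is an additional event -/
theorem path_union (p : ℝ) (ℓ : ℕ) (E : (Fin (ℓ + 1) → Fin n) → Set (Env n)) :
    mu n {ω | ∃ f : Fin (ℓ + 1) → Fin n, Function.Injective f ∧ (∀ e ∈ pe f, ω e ≤ p) ∧
      ω ∈ E f} ≤
    ∑ f : Fin (ℓ + 1) → Fin n, if Function.Injective f then
      mu n ({ω | ∀ e ∈ pe f, ω e ≤ p} ∩ E f) else 0 := by
  have hsub : {ω : Env n | ∃ f : Fin (ℓ + 1) → Fin n, Function.Injective f ∧
      (∀ e ∈ pe f, ω e ≤ p) ∧ ω ∈ E f} ⊆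
      ⋃ f ∈ (Finset.univ : Finset (Fin (ℓ + 1) → Fin n)),
        (if Function.Injective f then ({ω | ∀ e ∈ pe f, ω e ≤ p} ∩ E f) else ∅) := by
    rintro ω ⟨f, hf, h1, h2⟩
    simp only [Set.mem_iUnion]
    exact ⟨f, Finset.mem_univ _, by rw [if_pos hf]; exact ⟨h1, h2⟩⟩
  refine (measure_mono hsub).trans ((measure_biUnion_finset_le _ _).trans (le_of_eq ?_))
  refine Finset.sum_congr rfl fun f _ => ?_
  split_ifs
  · rfl
  · exact measure_empty

/-- paths of length `ℓ` which avoid `S` -/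
theorem path_avoid (S : Finset (Fin n)) {p : ℝ} (hp : 0 ≤ p) (hp1 : p ≤ 1) (ℓ : ℕ) :
    mu n {ω | ∃ (u v : Fin n) (w : (Gr ω p).Walk u v), w.IsPath ∧ w.length = ℓ ∧
      ∀ x ∈ w.support, x ∉ S} ≤
      ENNReal.ofReal (n * (((n : ℝ) - S.card) * p) ^ ℓ) := by
  have hSn : S.card ≤ n := by simpa using Finset.card_le_univ S
  have hsub : {ω : Env n | ∃ (u v : Fin n) (w : (Gr ω p).Walk u v), w.IsPath ∧ w.length = ℓ ∧
      ∀ x ∈ w.support, x ∉ S} ⊆
      {ω | ∃ f : Fin (ℓ + 1) → Fin n, Function.Injective f ∧ (∀ e ∈ pe f, ω e ≤ p) ∧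
      ω ∈ (if ∀ i, f i ∉ S then (Set.univ : Set (Env n)) else ∅)} := by
    rintro ω ⟨u, v, w, hw, rfl, hS⟩
    obtain ⟨f, hf, -, -, -, h4, h5⟩ := exists_pe w hw
    refine ⟨f, hf, fun e he => ?_, ?_⟩
    · have h6 := h5 e he
      obtain ⟨i, -, rfl⟩ := Finset.mem_image.1 he
      exact h6.2
    · rw [if_pos fun i => hS _ ((h4 _).2 ⟨i, rfl⟩)]
      exact Set.mem_univ _
  refine (measure_mono hsub).trans ((path_union p ℓ _).trans ?_)
  have h1 : ∀ f : Fin (ℓ + 1) → Fin n, (if Function.Injective f then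
      mu n ({ω | ∀ e ∈ pe f, ω e ≤ p} ∩ (if ∀ i, f i ∉ S then (Set.univ : Set (Env n)) else ∅))
      else 0) ≤ if f ∈ Fintype.piFinset (fun _ : Fin (ℓ + 1) => Sᶜ) then
        ENNReal.ofReal (p ^ ℓ) else 0 := by
    intro f
    by_cases hf : Function.Injective f
    · rw [if_pos hf]
      by_cases hS : ∀ i, f i ∉ S
      · rw [if_pos hS, Set.inter_univ, mu_le_all _ hp hp1, pe_card hf, if_pos]
        rw [Fintype.mem_piFinset]
        exact fun i => Finset.mem_compl.2 (hS i)
      · rw [if_neg hS, Set.inter_empty, measure_empty]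
        exact bot_le
    · rw [if_neg hf]
      exact bot_le
  refine (Finset.sum_le_sum fun f _ => h1 f).trans ?_
  rw [Finset.sum_ite_mem, Finset.univ_inter, Finset.sum_const, Fintype.card_piFinset_const,
    Finset.card_compl, Fintype.card_fin, nsmul_eq_mul, ← ENNReal.ofReal_natCast,
    ← ENNReal.ofReal_mul (Nat.cast_nonneg _)]
  refine ENNReal.ofReal_le_ofReal ?_
  push_cast [Nat.cast_sub hSn]
  have h2 : (0 : ℝ) ≤ n - S.card := by
    have : (S.card : ℝ) ≤ n := by exact_mod_cast hSn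
    linarith
  have h3 : ((n : ℝ) - S.card) ≤ n := by
    have : (0 : ℝ) ≤ S.card := Nat.cast_nonneg _
    linarith
  rw [pow_succ, mul_pow]
  calc ((n : ℝ) - S.card) ^ ℓ * (n - S.card) * p ^ ℓ
      = (n - S.card) * (((n : ℝ) - S.card) ^ ℓ * p ^ ℓ) := by ring
    _ ≤ n * (((n : ℝ) - S.card) ^ ℓ * p ^ ℓ) :=
        mul_le_mul_of_nonneg_right h3 (by positivity)

/-- general first moment bound: `B ω` consists of end points of paths which start at `v` and whose
other vertices are in `T` -/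
theorem exp_paths {p : ℝ} (hp : 0 ≤ p) (hp1 : p ≤ 1) (v : Fin n) (T : Finset (Fin n)) (L : ℕ)
    (B : Env n → Finset (Fin n))
    (hB : ∀ ω, ∀ u ∈ B ω, ∃ ℓ, ℓ < L ∧ ∃ f : Fin (ℓ + 1) → Fin n, Function.Injective f ∧ f 0 = v ∧
      f (Fin.last _) = u ∧ (∀ i, i ≠ 0 → f i ∈ T) ∧ ∀ e ∈ pe f, ω e ≤ p) :
    ∫⁻ ω, ((B ω).card : ℝ≥0∞) ∂(mu n) ≤
      ENNReal.ofReal (∑ ℓ ∈ Finset.range L, ((T.card : ℝ) * p) ^ ℓ) := by
  -- the paths
  let P : (Σ ℓ : Fin L, Fin ((ℓ : ℕ) + 1) → Fin n) → Prop := fun a =>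
    Function.Injective a.2 ∧ a.2 0 = v ∧ ∀ i, i ≠ 0 → a.2 i ∈ T
  have hpt : ∀ ω : Env n, ((B ω).card : ℝ≥0∞) ≤
      ∑ a : (Σ ℓ : Fin L, Fin ((ℓ : ℕ) + 1) → Fin n), if P a then
        ({ω : Env n | ∀ e ∈ pe a.2, ω e ≤ p}.indicator 1 ω : ℝ≥0∞) else 0 := by
    intro ω
    have h1 : B ω ⊆ ((Finset.univ : Finset (Σ ℓ : Fin L, Fin ((ℓ : ℕ) + 1) → Fin n)).filter
        fun a => P a ∧ ∀ e ∈ pe a.2, ω e ≤ p).image fun a => a.2 (Fin.last _) := by
      intro u hu
      obtain ⟨ℓ, hℓ, f, h2, h3, h4, h5, h6⟩ := hB ω u hu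
      exact Finset.mem_image.2 ⟨⟨⟨ℓ, hℓ⟩, f⟩, Finset.mem_filter.2 ⟨Finset.mem_univ _,
        ⟨h2, h3, h5⟩, h6⟩, h4⟩
    have h2 := (Finset.card_le_card h1).trans Finset.card_image_le
    calc ((B ω).card : ℝ≥0∞)
        ≤ (((Finset.univ : Finset (Σ ℓ : Fin L, Fin ((ℓ : ℕ) + 1) → Fin n)).filter
        fun a => P a ∧ ∀ e ∈ pe a.2, ω e ≤ p).card : ℝ≥0∞) := by exact_mod_cast h2
      _ = ∑ a : (Σ ℓ : Fin L, Fin ((ℓ : ℕ) + 1) → Fin n), if P a then
        ({ω : Env n | ∀ e ∈ pe a.2, ω e ≤ p}.indicator 1 ω : ℝ≥0∞) else 0 := by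
        rw [Finset.card_filter]
        push_cast
        refine Finset.sum_congr rfl fun a _ => ?_
        by_cases hP : P a
        · by_cases hE : ∀ e ∈ pe a.2, ω e ≤ p
          · simp only [hP, true_and, if_true]
            rw [if_pos hE, Set.indicator_of_mem (by exact hE)]; rfl
          · simp only [hP, true_and, if_true]
            rw [if_neg hE, Set.indicator_of_notMem (by exact hE)]
        · simp only [hP, false_and, if_false]
  have hmeas : ∀ a : (Σ ℓ : Fin L, Fin ((ℓ : ℕ) + 1) → Fin n),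
      MeasurableSet {ω : Env n | ∀ e ∈ pe a.2, ω e ≤ p} := by
    intro a
    have := measurableSet_pattern (n := n) (pe a.2) ∅ p
    simpa using this
  refine (lintegral_mono hpt).trans ?_
  rw [lintegral_finsetSum' _ (fun a _ => by
    split_ifs
    · exact ((measurable_one.indicator (hmeas a))).aemeasurable
    · exact aemeasurable_const)]
  have h3 : ∀ a : (Σ ℓ : Fin L, Fin ((ℓ : ℕ) + 1) → Fin n),
      (∫⁻ ω, (if P a then ({ω : Env n | ∀ e ∈ pe a.2, ω e ≤ p}.indicator 1 ω : ℝ≥0∞) else 0)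
        ∂(mu n)) ≤
      if a.2 ∈ Fintype.piFinset (fun i : Fin ((a.1 : ℕ) + 1) => if i = 0 then {v} else T) then
        ENNReal.ofReal (p ^ (a.1 : ℕ)) else 0 := by
    intro a
    by_cases hP : P a
    · simp only [if_pos hP]
      rw [lintegral_indicator_one (hmeas a), mu_le_all _ hp hp1, pe_card hP.1, if_pos]
      rw [Fintype.mem_piFinset]
      intro i
      by_cases hi : i = 0
      · rw [if_pos hi, hi, Finset.mem_singleton]; exact hP.2.1
      · rw [if_neg hi]; exact hP.2.2 i hi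
    · simp only [if_neg hP, lintegral_const, zero_mul]
      exact bot_le
  refine (Finset.sum_le_sum fun a _ => h3 a).trans ?_
  rw [Fintype.sum_sigma]
  have h4 : ∀ ℓ : Fin L, (∑ f : Fin ((ℓ : ℕ) + 1) → Fin n,
      if f ∈ Fintype.piFinset (fun i : Fin ((ℓ : ℕ) + 1) => if i = 0 then {v} else T) then
        ENNReal.ofReal (p ^ (ℓ : ℕ)) else 0) = ENNReal.ofReal (((T.card : ℝ) * p) ^ (ℓ : ℕ)) := by
    intro ℓ
    rw [Finset.sum_ite_mem, Finset.univ_inter, Finset.sum_const, Fintype.card_piFinset,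
      Fin.prod_univ_succ]
    simp only [if_true, Finset.card_singleton, one_mul, Fin.succ_ne_zero, if_false,
      Finset.prod_const, Finset.card_univ, Fintype.card_fin]
    rw [nsmul_eq_mul, ← ENNReal.ofReal_natCast, ← ENNReal.ofReal_mul (Nat.cast_nonneg _)]
    push_cast
    rw [mul_pow]
  simp only [h4]
  rw [← ENNReal.ofReal_sum_of_nonneg fun ℓ _ => by positivity, Fin.sum_univ_eq_sum_range
    (fun ℓ => ((T.card : ℝ) * p) ^ ℓ)]

/-- graph of the edges with value `≤ p` outside of `S` -/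
def Gout (ω : Env n) (p : ℝ) (S : Finset (Fin n)) : SimpleGraph (Fin n) where
  Adj i j := i ≠ j ∧ ω s(i, j) ≤ p ∧ i ∉ S ∧ j ∉ S
  symm := ⟨fun i j h => ⟨h.1.symm, by rw [Sym2.eq_swap]; exact h.2.1, h.2.2.2, h.2.2.1⟩⟩
  loopless := ⟨fun i h => h.1 rfl⟩

theorem geom_sum_le_one_div {x : ℝ} (h0 : 0 ≤ x) (h1 : x < 1) (m : ℕ) :
    ∑ i ∈ Finset.range m, x ^ i ≤ 1 / (1 - x) := by
  rw [one_div, ← tsum_geometric_of_lt_one h0 h1]
  exact (summable_geometric_of_lt_one h0 h1).sum_le_tsum _ fun i _ => pow_nonneg h0 i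

/-- expected size of a component outside of `S` -/
theorem exp_comp_avoid (S : Finset (Fin n)) {p : ℝ} (hp : 0 ≤ p) (hp1 : p ≤ 1)
    (h : ((n : ℝ) - S.card) * p < 1) (v : Fin n) :
    ∫⁻ ω, ((comp (Gout ω p S) v).card : ℝ≥0∞) ∂(mu n) ≤
      ENNReal.ofReal (1 / (1 - ((n : ℝ) - S.card) * p)) := by
  have hSn : S.card ≤ n := by simpa using Finset.card_le_univ S
  have hcard : ((Sᶜ.card : ℕ) : ℝ) = (n : ℝ) - S.card := by
    rw [Finset.card_compl, Fintype.card_fin, Nat.cast_sub hSn]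
  have h0 : (0 : ℝ) ≤ ((n : ℝ) - S.card) * p := by
    have : (S.card : ℝ) ≤ n := by exact_mod_cast hSn
    exact mul_nonneg (by linarith) hp
  refine (exp_paths hp hp1 v Sᶜ n _ fun ω u hu => ?_).trans ?_
  · obtain ⟨w⟩ := (Finset.mem_filter.1 hu).2
    obtain ⟨f, hf, h1, h2, -, h4, h5⟩ := exists_pe w.bypass w.bypass_isPath
    have hlen : w.bypass.length < n := by
      have := w.bypass_isPath.length_lt
      simpa using this
    refine ⟨_, hlen, f, hf, h1, h2, fun i hi => ?_, fun e he => ?_⟩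
    · obtain ⟨j, rfl⟩ := Fin.exists_succ_eq.2 hi
      have h6 : s(f j.castSucc, f j.succ) ∈ pe f := Finset.mem_image_of_mem _ (Finset.mem_univ j)
      exact Finset.mem_compl.2 (h5 _ h6).2.2.2
    · have h6 := h5 e he
      obtain ⟨i, -, rfl⟩ := Finset.mem_image.1 he
      exact h6.2.1
  · refine ENNReal.ofReal_le_ofReal ?_
    rw [hcard]
    exact geom_sum_le_one_div h0 h n

/-- probability of a component with more than `τ` vertices outside of `S`: the number of vertices
in such components is `0` or `> τ`, so the probability is at most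
`n * P(|comp v| > τ)/τ ≤ n * E|comp v|/τ²` -/
theorem big_avoid (S : Finset (Fin n)) {p τ : ℝ} (hp : 0 ≤ p) (hp1 : p ≤ 1) (hτ : 0 < τ)
    (h : ((n : ℝ) - S.card) * p < 1) :
    mu n {ω | ∃ v, τ < ((comp (Gout ω p S) v).card : ℝ)} ≤
      ENNReal.ofReal (n / ((1 - ((n : ℝ) - S.card) * p) * τ ^ 2)) := by
  have hlev : ∀ v, LevDep (fun ω : Env n => (comp (Gout ω p S) v).card) := by
    intro v
    refine ⟨{p}, fun ω ω' h => ?_⟩
    have h1 : Gout ω p S = Gout ω' p S := by
      have h2 := h p (Finset.mem_singleton_self p)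
      ext i j
      have h3 : (Gr ω p).Adj i j ↔ (Gr ω' p).Adj i j := by rw [h2]
      simp only [Gr] at h3
      simp only [Gout]
      tauto
    simp only [h1]
  have hmeas : MeasurableSet {ω : Env n | ∃ v, τ < ((comp (Gout ω p S) v).card : ℝ)} :=
    (LevDep.exists fun v => (hlev v).comp fun k => τ < ((k : ℕ) : ℝ)).measurableSet
  have hx : 0 < 1 - ((n : ℝ) - S.card) * p := by linarith
  rw [← lintegral_indicator_one hmeas]
  have hpt : ∀ ω : Env n,
      ({ω : Env n | ∃ v, τ < ((comp (Gout ω p S) v).card : ℝ)}.indicator 1 ω : ℝ≥0∞) ≤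
      ENNReal.ofReal (1 / τ ^ 2) * ∑ v : Fin n, ((comp (Gout ω p S) v).card : ℝ≥0∞) := by
    intro ω
    by_cases hω : ∃ v, τ < ((comp (Gout ω p S) v).card : ℝ)
    · rw [Set.indicator_of_mem (by exact hω)]
      obtain ⟨v, hv⟩ := hω
      have h1 : ∀ u ∈ comp (Gout ω p S) v, comp (Gout ω p S) u = comp (Gout ω p S) v := by
        intro u hu
        have hu' := (Finset.mem_filter.1 hu).2
        ext x
        simp only [comp, Finset.mem_filter, Finset.mem_univ, true_and]
        exact ⟨fun h => hu'.trans h, fun h => hu'.symm.trans h⟩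
      have h2 : ((comp (Gout ω p S) v).card : ℝ) * (comp (Gout ω p S) v).card ≤
          ∑ u : Fin n, ((comp (Gout ω p S) u).card : ℝ) := by
        calc ((comp (Gout ω p S) v).card : ℝ) * (comp (Gout ω p S) v).card
            = ∑ u ∈ comp (Gout ω p S) v, ((comp (Gout ω p S) u).card : ℝ) := by
              rw [Finset.sum_congr rfl fun u hu => by rw [h1 u hu], Finset.sum_const,
                nsmul_eq_mul]
          _ ≤ ∑ u : Fin n, ((comp (Gout ω p S) u).card : ℝ) :=
              Finset.sum_le_sum_of_subset_of_nonneg (Finset.subset_univ _)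
                fun _ _ _ => Nat.cast_nonneg _
      have h3 : τ ^ 2 ≤ ∑ u : Fin n, ((comp (Gout ω p S) u).card : ℝ) := by
        refine le_trans ?_ h2
        rw [sq]
        exact mul_le_mul hv.le hv.le hτ.le (hτ.le.trans hv.le)
      have h4 : (∑ u : Fin n, ((comp (Gout ω p S) u).card : ℝ≥0∞)) =
          ENNReal.ofReal (∑ u : Fin n, ((comp (Gout ω p S) u).card : ℝ)) := by
        rw [ENNReal.ofReal_sum_of_nonneg fun _ _ => Nat.cast_nonneg _]
        exact Finset.sum_congr rfl fun u _ => (ENNReal.ofReal_natCast _).symm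
      rw [h4, ← ENNReal.ofReal_mul (by positivity), Pi.one_apply, ← ENNReal.ofReal_one]
      refine ENNReal.ofReal_le_ofReal ?_
      rw [one_div, ← div_eq_inv_mul, le_div_iff₀ (by positivity), one_mul]
      exact h3
    · rw [Set.indicator_of_notMem (by exact hω)]
      exact bot_le
  refine (lintegral_mono hpt).trans ?_
  have hcm : ∀ v, Measurable fun ω : Env n => ((comp (Gout ω p S) v).card : ℝ≥0∞) := fun v =>
    ((hlev v).comp fun k : ℕ => (k : ℝ≥0∞)).measurable
  rw [lintegral_const_mul _ (Finset.measurable_sum _ fun v _ => hcm v),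
    lintegral_finsetSum _ fun v _ => hcm v]
  have h5 : (∑ v : Fin n, ∫⁻ ω, ((comp (Gout ω p S) v).card : ℝ≥0∞) ∂(mu n)) ≤
      ENNReal.ofReal (n * (1 / (1 - ((n : ℝ) - S.card) * p))) := by
    refine (Finset.sum_le_sum fun v _ => exp_comp_avoid S hp hp1 h v).trans (le_of_eq ?_)
    rw [Finset.sum_const, Finset.card_univ, Fintype.card_fin, nsmul_eq_mul,
      ENNReal.ofReal_mul (Nat.cast_nonneg _), ENNReal.ofReal_natCast]
  refine (mul_le_mul_right h5 _).trans ?_
  rw [← ENNReal.ofReal_mul (by positivity)]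
  refine ENNReal.ofReal_le_ofReal (le_of_eq ?_)
  field_simp

/-- expected size of a ball -/
theorem exp_ball {p : ℝ} (hp : 0 ≤ p) (hp1 : p ≤ 1) (x : Fin n) (r : ℕ) :
    ∫⁻ ω, ((bl (Gr ω p) x r).card : ℝ≥0∞) ∂(mu n) ≤
      ENNReal.ofReal (∑ i ∈ Finset.range (r + 1), ((n : ℝ) * p) ^ i) := by
  refine (exp_paths hp hp1 x Finset.univ (r + 1) _ fun ω u hu => ?_).trans ?_
  · obtain ⟨w, hw⟩ := (Finset.mem_filter.1 hu).2
    obtain ⟨f, hf, h1, h2, -, h4, h5⟩ := exists_pe w.bypass w.bypass_isPath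
    refine ⟨_, Nat.lt_succ_iff.2 (w.length_bypass_le_length.trans hw), f, hf, h1, h2,
      fun i hi => Finset.mem_univ _, fun e he => ?_⟩
    have h6 := h5 e he
    obtain ⟨i, -, rfl⟩ := Finset.mem_image.1 he
    exact h6.2
  · rw [Finset.card_univ, Fintype.card_fin]

theorem Gr_edge {ω : Env n} {p : ℝ} {e : Sym2 (Fin n)} (h : e ∈ (Gr ω p).edgeSet) : ω e ≤ p := by
  induction e using Sym2.ind with
  | _ i j => exact h.2

/-- edges of `M` are in `(p₁, p]`, the other edges of `F` are `≤ p` -/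
theorem mu_marked (F M : Finset (Sym2 (Fin n))) (hM : M ⊆ F) {p p₁ : ℝ} (hp₁ : 0 ≤ p₁)
    (hpp : p₁ ≤ p) (hp1 : p ≤ 1) :
    mu n {ω | (∀ e ∈ F, ω e ≤ p) ∧ ∀ e ∈ M, p₁ < ω e} =
      ENNReal.ofReal ((p - p₁) ^ M.card * p ^ (F.card - M.card)) := by
  have h1 : {ω : Env n | (∀ e ∈ F, ω e ≤ p) ∧ ∀ e ∈ M, p₁ < ω e} =
      {ω | ∀ e, ω e ∈ (if e ∈ M then Set.Ioc p₁ p else if e ∈ F \ M then Set.Iic p
        else Set.univ)} := by
    ext ω
    simp only [Set.mem_ofPred_eq]
    constructor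
    · rintro ⟨h1, h2⟩ e
      by_cases he : e ∈ M
      · simp only [he, if_true]
        exact ⟨h2 e he, h1 e (hM he)⟩
      · by_cases he' : e ∈ F
        · have : e ∈ F \ M := Finset.mem_sdiff.2 ⟨he', he⟩
          simp only [he, this, if_true, if_false]
          exact h1 e he'
        · have : e ∉ F \ M := fun h => he' (Finset.mem_sdiff.1 h).1
          simp [he, this]
    · intro h1
      refine ⟨fun e he => ?_, fun e he => ?_⟩
      · have := h1 e
        by_cases he' : e ∈ M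
        · rw [if_pos he'] at this
          exact this.2
        · rw [if_neg he', if_pos (Finset.mem_sdiff.2 ⟨he, he'⟩)] at this
          exact this
      · have := h1 e
        rw [if_pos he] at this
        exact this.1
  have h2 : ∀ e : Sym2 (Fin n), unif (if e ∈ M then Set.Ioc p₁ p else if e ∈ F \ M then Set.Iic p
        else Set.univ) =
      (if e ∈ M then ENNReal.ofReal (p - p₁) else 1) *
        (if e ∈ F \ M then ENNReal.ofReal p else 1) := by
    intro e
    by_cases he : e ∈ M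
    · have he' : e ∉ F \ M := fun h => (Finset.mem_sdiff.1 h).2 he
      simp only [he, he', if_true, if_false, mul_one]
      exact unif_Ioc hp₁ hp1
    · by_cases he' : e ∈ F \ M
      · simp only [he, he', if_true, if_false, one_mul]
        exact unif_Iic hp1
      · simp only [he, he', if_false, one_mul]
        exact unif_univ
  rw [h1, mu_pi, Finset.prod_congr rfl fun e _ => h2 e, Finset.prod_mul_distrib,
    Finset.prod_ite_mem, Finset.prod_ite_mem, Finset.univ_inter, Finset.univ_inter,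
    Finset.prod_const, Finset.prod_const, ENNReal.ofReal_mul (by positivity),
    ENNReal.ofReal_pow (by linarith), ENNReal.ofReal_pow (by linarith),
    Finset.card_sdiff_of_subset hM]

/-- paths of length `ℓ` of `Gr ω p` with at least `k` edges with value `> p₁`
(choose `k` of the edges) -/
theorem marks {p p₁ : ℝ} (hp₁ : 0 ≤ p₁) (hpp : p₁ ≤ p) (hp1 : p ≤ 1) (ℓ k : ℕ) (hk : k ≤ ℓ) :
    mu n {ω | ∃ (u v : Fin n) (w : (Gr ω p).Walk u v), w.IsPath ∧ w.length = ℓ ∧
      k ≤ cntW ω p₁ w} ≤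
      ENNReal.ofReal (n * (ℓ.choose k * (n * (p - p₁)) ^ k * (n * p) ^ (ℓ - k))) := by
  have hp : 0 ≤ p := hp₁.trans hpp
  have h1 : {ω : Env n | ∃ (u v : Fin n) (w : (Gr ω p).Walk u v), w.IsPath ∧ w.length = ℓ ∧
      k ≤ cntW ω p₁ w} ⊆
      ⋃ f ∈ (Finset.univ.filter fun f : Fin (ℓ + 1) → Fin n => Function.Injective f),
        ⋃ M ∈ (pe f).powersetCard k, {ω | (∀ e ∈ pe f, ω e ≤ p) ∧ ∀ e ∈ M, p₁ < ω e} := by
    rintro ω ⟨u, v, w, hw, hl, hc⟩
    subst hl
    obtain ⟨f, hf1, hf2, hf3, hf4, hf5, hf6⟩ := exists_pe w hw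
    have h2 : k ≤ ((pe f).filter fun e => p₁ < ω e).card := by
      refine hc.trans ?_
      have h3 : (w.edges.filter fun e => p₁ < ω e).Nodup :=
        hw.isTrail.edges_nodup.filter _
      rw [cntW, ← List.toFinset_card_of_nodup h3]
      refine Finset.card_le_card fun e he => ?_
      simp only [List.mem_toFinset, List.mem_filter, decide_eq_true_eq] at he
      exact Finset.mem_filter.2 ⟨(hf4 e).1 he.1, he.2⟩
    obtain ⟨M, hM1, hM2⟩ := Finset.exists_subset_card_eq h2
    simp only [Set.mem_iUnion, Finset.mem_powersetCard, Finset.mem_filter, Finset.mem_univ,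
      true_and, Set.mem_ofPred_eq]
    exact ⟨f, hf1, M, ⟨hM1.trans (Finset.filter_subset _ _), hM2⟩,
      fun e he => Gr_edge (hf6 e he), fun e he => (Finset.mem_filter.1 (hM1 he)).2⟩
  refine (measure_mono h1).trans ((measure_biUnion_finset_le _ _).trans ?_)
  have h3 : ∀ f ∈ (Finset.univ.filter fun f : Fin (ℓ + 1) → Fin n => Function.Injective f),
      mu n (⋃ M ∈ (pe f).powersetCard k, {ω | (∀ e ∈ pe f, ω e ≤ p) ∧ ∀ e ∈ M, p₁ < ω e}) ≤
        ENNReal.ofReal (ℓ.choose k * ((p - p₁) ^ k * p ^ (ℓ - k))) := by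
    intro f hf
    have hf1 := (Finset.mem_filter.1 hf).2
    refine (measure_biUnion_finset_le _ _).trans ?_
    calc ∑ M ∈ (pe f).powersetCard k, mu n {ω | (∀ e ∈ pe f, ω e ≤ p) ∧ ∀ e ∈ M, p₁ < ω e}
        = ∑ M ∈ (pe f).powersetCard k, ENNReal.ofReal ((p - p₁) ^ k * p ^ (ℓ - k)) := by
          refine Finset.sum_congr rfl fun M hM => ?_
          obtain ⟨hM1, hM2⟩ := Finset.mem_powersetCard.1 hM
          rw [mu_marked _ _ hM1 hp₁ hpp hp1, hM2, pe_card hf1]
      _ ≤ ENNReal.ofReal (ℓ.choose k * ((p - p₁) ^ k * p ^ (ℓ - k))) := by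
          refine le_of_eq ?_
          rw [Finset.sum_const, Finset.card_powersetCard, pe_card hf1, nsmul_eq_mul,
            ← ENNReal.ofReal_natCast, ← ENNReal.ofReal_mul (by positivity)]
  refine (Finset.sum_le_sum h3).trans ?_
  rw [Finset.sum_const, nsmul_eq_mul]
  have h4 : (Finset.univ.filter fun f : Fin (ℓ + 1) → Fin n => Function.Injective f).card ≤
      n ^ (ℓ + 1) := by
    refine (Finset.card_filter_le _ _).trans (le_of_eq ?_)
    simp
  refine (mul_le_mul_left (Nat.cast_le.2 h4) _).trans (le_of_eq ?_)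
  rw [← ENNReal.ofReal_natCast (n ^ (ℓ + 1)), ← ENNReal.ofReal_mul (by positivity)]
  congr 1
  push_cast
  obtain ⟨j, rfl⟩ := Nat.exists_eq_add_of_le hk
  rw [Nat.add_sub_cancel_left, mul_pow, mul_pow, pow_succ, pow_add]
  ring

/-- degrees: `P(∃ x, deg x ≥ k) ≤ n * C(n,k) p^k` -/
theorem max_deg {p : ℝ} (hp : 0 ≤ p) (hp1 : p ≤ 1) (k : ℕ) :
    mu n {ω | ∃ x, k ≤ (Finset.univ.filter fun y => (Gr ω p).Adj x y).card} ≤
      ENNReal.ofReal (n * (n.choose k * p ^ k)) := by
  have h1 : {ω : Env n | ∃ x, k ≤ (Finset.univ.filter fun y => (Gr ω p).Adj x y).card} ⊆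
      ⋃ x ∈ (Finset.univ : Finset (Fin n)),
        ⋃ A ∈ (Finset.univ : Finset (Fin n)).powersetCard k,
          {ω | ∀ y ∈ A, (Gr ω p).Adj x y} := by
    rintro ω ⟨x, hx⟩
    obtain ⟨A, hA1, hA2⟩ := Finset.exists_subset_card_eq hx
    simp only [Set.mem_iUnion, Finset.mem_powersetCard, Finset.mem_univ, Set.mem_ofPred_eq]
    exact ⟨x, trivial, A, ⟨Finset.subset_univ _, hA2⟩,
      fun y hy => (Finset.mem_filter.1 (hA1 hy)).2⟩
  refine (measure_mono h1).trans ((measure_biUnion_finset_le _ _).trans ?_)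
  have h3 : ∀ x ∈ (Finset.univ : Finset (Fin n)),
      mu n (⋃ A ∈ (Finset.univ : Finset (Fin n)).powersetCard k,
          {ω | ∀ y ∈ A, (Gr ω p).Adj x y}) ≤ ENNReal.ofReal (n.choose k * p ^ k) := by
    intro x _
    refine (measure_biUnion_finset_le _ _).trans ?_
    calc ∑ A ∈ (Finset.univ : Finset (Fin n)).powersetCard k,
          mu n {ω | ∀ y ∈ A, (Gr ω p).Adj x y}
        ≤ ∑ A ∈ (Finset.univ : Finset (Fin n)).powersetCard k, ENNReal.ofReal (p ^ k) := by
          refine Finset.sum_le_sum fun A hA => ?_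
          have hA2 := (Finset.mem_powersetCard.1 hA).2
          by_cases hx : x ∈ A
          · have : {ω : Env n | ∀ y ∈ A, (Gr ω p).Adj x y} = ∅ := by
              ext ω
              simp only [Set.mem_ofPred_eq, Set.mem_empty_iff_false, iff_false]
              exact fun h => (h x hx).1 rfl
            rw [this]
            simp
          · have h4 : {ω : Env n | ∀ y ∈ A, (Gr ω p).Adj x y} ⊆
                {ω | ∀ e ∈ A.image (fun y => s(x, y)), ω e ≤ p} := by
              intro ω h e he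
              obtain ⟨y, hy, rfl⟩ := Finset.mem_image.1 he
              exact (h y hy).2
            refine (measure_mono h4).trans ?_
            rw [mu_le_all _ hp hp1, Finset.card_image_of_injOn, hA2]
            intro y _ z _ hyz
            exact Sym2.congr_right.1 hyz
      _ = ENNReal.ofReal (n.choose k * p ^ k) := by
          rw [Finset.sum_const, Finset.card_powersetCard, Finset.card_univ, Fintype.card_fin,
            nsmul_eq_mul, ← ENNReal.ofReal_natCast, ← ENNReal.ofReal_mul (by positivity)]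
  refine (Finset.sum_le_sum h3).trans (le_of_eq ?_)
  rw [Finset.sum_const, nsmul_eq_mul, Finset.card_univ, Fintype.card_fin,
    ← ENNReal.ofReal_natCast, ← ENNReal.ofReal_mul (by positivity)]

/-- the edges between `S` and its complement -/
def bde (S : Finset (Fin n)) : Finset (Sym2 (Fin n)) :=
  (S ×ˢ Sᶜ).image fun xy => s(xy.1, xy.2)

theorem card_bde (S : Finset (Fin n)) : (bde S).card = S.card * (n - S.card) := by
  rw [bde, Finset.card_image_of_injOn, Finset.card_product, Finset.card_compl, Fintype.card_fin]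
  rintro ⟨a, b⟩ hab ⟨c, d⟩ hcd h
  simp only [Finset.coe_product, Set.mem_prod, Finset.mem_coe, Finset.mem_compl] at hab hcd
  rcases Sym2.eq_iff.1 h with ⟨h1, h2⟩ | ⟨h1, h2⟩
  · simp only at h1 h2
    rw [h1, h2]
  · simp only at h1 h2
    exact absurd (h1 ▸ hab.1) hcd.2

/-- connectivity: sum over the sets `S` with `1 ≤ |S| ≤ n/2` without edge to the complement -/
theorem not_conn {p : ℝ} (hp : 0 ≤ p) (hp1 : p ≤ 1) (h : 12 * Real.log n ≤ n * p)
    (hn : 2 ≤ n) :
    mu n {ω | ¬ ∀ u v, (Gr ω p).Reachable u v} ≤ ENNReal.ofReal (2 / (n : ℝ) ^ 4) := by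
  have hn0 : (0 : ℝ) < n := by positivity
  have hn2 : (2 : ℝ) ≤ n := by exact_mod_cast hn
  have h1 : {ω : Env n | ¬ ∀ u v, (Gr ω p).Reachable u v} ⊆
      ⋃ S ∈ (Finset.univ.filter fun S : Finset (Fin n) => S ≠ ∅ ∧ 2 * S.card ≤ n),
        {ω | ∀ e ∈ bde S, p < ω e} := by
    intro ω hω
    have hω2 : ∃ u v, ¬ (Gr ω p).Reachable u v := by
      by_contra hc
      push Not at hc
      exact hω hc
    obtain ⟨u, v, huv⟩ := hω2
    have key : ∀ x : Fin n, 2 * (comp (Gr ω p) x).card ≤ n →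
        ω ∈ ⋃ S ∈ (Finset.univ.filter fun S : Finset (Fin n) => S ≠ ∅ ∧ 2 * S.card ≤ n),
          {ω : Env n | ∀ e ∈ bde S, p < ω e} := by
      intro x hx
      simp only [Set.mem_iUnion, Finset.mem_filter, Finset.mem_univ, true_and,
        Set.mem_ofPred_eq]
      refine ⟨comp (Gr ω p) x, ⟨?_, hx⟩, ?_⟩
      · intro h0
        have : x ∈ comp (Gr ω p) x :=
          Finset.mem_filter.2 ⟨Finset.mem_univ _, SimpleGraph.Reachable.refl _⟩
        rw [h0] at this
        exact absurd this (Finset.notMem_empty x)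
      · intro e he
        obtain ⟨⟨a, b⟩, hab, rfl⟩ := Finset.mem_image.1 he
        obtain ⟨ha, hb⟩ := Finset.mem_product.1 hab
        simp only at ha hb ⊢
        by_contra hlt
        rw [Finset.mem_compl] at hb
        have ha2 := (Finset.mem_filter.1 ha).2
        refine hb (Finset.mem_filter.2 ⟨Finset.mem_univ _, ha2.trans ?_⟩)
        refine SimpleGraph.Adj.reachable ⟨?_, not_lt.1 hlt⟩
        rintro rfl
        exact hb ha
    by_cases hu : 2 * (comp (Gr ω p) u).card ≤ n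
    · exact key u hu
    · refine key v ?_
      have hd : Disjoint (comp (Gr ω p) u) (comp (Gr ω p) v) := by
        rw [Finset.disjoint_left]
        intro a ha hb
        exact huv ((Finset.mem_filter.1 ha).2.trans (Finset.mem_filter.1 hb).2.symm)
      have hc := Finset.card_le_univ (comp (Gr ω p) u ∪ comp (Gr ω p) v)
      rw [Finset.card_union_of_disjoint hd, Fintype.card_fin] at hc
      omega
  refine (measure_mono h1).trans ((measure_biUnion_finset_le _ _).trans ?_)
  have hx0 : (0 : ℝ) < 1 / (n : ℝ) ^ 6 := by positivity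
  have h2 : ∀ S ∈ (Finset.univ.filter fun S : Finset (Fin n) => S ≠ ∅ ∧ 2 * S.card ≤ n),
      mu n {ω | ∀ e ∈ bde S, p < ω e} ≤ ENNReal.ofReal ((1 / (n : ℝ) ^ 6) ^ S.card) := by
    intro S hS
    obtain ⟨_, hS2⟩ := (Finset.mem_filter.1 hS).2
    rw [mu_gt_all _ hp hp1, card_bde]
    refine ENNReal.ofReal_le_ofReal ?_
    have h3 : (1 - p) ^ (S.card * (n - S.card)) ≤ Real.exp (-(p * (S.card * (n - S.card) : ℕ))) := by
      have h4 : (1 - p) ≤ Real.exp (-p) := Real.one_sub_le_exp_neg p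
      calc (1 - p) ^ (S.card * (n - S.card)) ≤ (Real.exp (-p)) ^ (S.card * (n - S.card)) :=
            pow_le_pow_left₀ (by linarith) h4 _
        _ = Real.exp (-(p * (S.card * (n - S.card) : ℕ))) := by
            rw [← Real.exp_nat_mul]
            congr 1
            ring
    refine h3.trans ?_
    have h5 : (1 / (n : ℝ) ^ 6) ^ S.card = Real.exp (-(6 * Real.log n * S.card)) := by
      rw [Real.exp_neg, show 6 * Real.log n * S.card = S.card * (((6 : ℕ) : ℝ) * Real.log n) by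
        push_cast; ring, Real.exp_nat_mul, Real.exp_nat_mul, Real.exp_log hn0]
      rw [one_div, inv_pow]
    rw [h5]
    refine Real.exp_le_exp.2 (neg_le_neg ?_)
    have hS3 : S.card ≤ n := by omega
    have h6 : ((S.card * (n - S.card) : ℕ) : ℝ) = S.card * ((n : ℝ) - S.card) := by
      rw [Nat.cast_mul, Nat.cast_sub hS3]
    rw [h6]
    have h7 : (n : ℝ) / 2 ≤ (n : ℝ) - S.card := by
      have : (2 : ℝ) * S.card ≤ n := by exact_mod_cast hS2
      linarith
    have h8 : (0 : ℝ) ≤ S.card := Nat.cast_nonneg _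
    have h9 : p * (S.card * ((n : ℝ) / 2)) ≤ p * (S.card * ((n : ℝ) - S.card)) := by
      gcongr
    nlinarith [mul_le_mul_of_nonneg_right h h8]
  refine (Finset.sum_le_sum h2).trans ?_
  rw [← ENNReal.ofReal_sum_of_nonneg fun S _ => by positivity]
  refine ENNReal.ofReal_le_ofReal ?_
  have h3 : ∑ S ∈ (Finset.univ.filter fun S : Finset (Fin n) => S ≠ ∅ ∧ 2 * S.card ≤ n),
      (1 / (n : ℝ) ^ 6) ^ S.card ≤ (1 + 1 / (n : ℝ) ^ 6) ^ n - 1 := by
    have h4 : ∑ S ∈ (Finset.univ : Finset (Fin n)).powerset, (1 / (n : ℝ) ^ 6) ^ S.card =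
        (1 + 1 / (n : ℝ) ^ 6) ^ n := by
      have := Finset.prod_one_add (f := fun _ : Fin n => 1 / (n : ℝ) ^ 6) Finset.univ
      simp only [Finset.prod_const, Finset.card_univ, Fintype.card_fin] at this
      exact this.symm
    rw [← h4, Finset.powerset_univ, ← Finset.add_sum_erase _ _ (Finset.mem_univ ∅)]
    simp only [Finset.card_empty, pow_zero, add_sub_cancel_left]
    refine Finset.sum_le_sum_of_subset_of_nonneg ?_ fun _ _ _ => by positivity
    intro S hS
    exact Finset.mem_erase.2 ⟨(Finset.mem_filter.1 hS).2.1, Finset.mem_univ _⟩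
  refine h3.trans ?_
  have h5 : (1 + 1 / (n : ℝ) ^ 6) ^ n ≤ Real.exp (1 / (n : ℝ) ^ 5) := by
    calc (1 + 1 / (n : ℝ) ^ 6) ^ n ≤ (Real.exp (1 / (n : ℝ) ^ 6)) ^ n :=
          pow_le_pow_left₀ (by positivity) (by linarith [Real.add_one_le_exp (1 / (n : ℝ) ^ 6)]) _
      _ = Real.exp (1 / (n : ℝ) ^ 5) := by
          rw [← Real.exp_nat_mul]
          congr 1
          field_simp
  have h6 : (1 : ℝ) / (n : ℝ) ^ 5 ≤ 1 / 2 := by
    have : (2 : ℝ) ≤ (n : ℝ) ^ 5 := by
      calc (2 : ℝ) ≤ 2 ^ 5 := by norm_num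
        _ ≤ (n : ℝ) ^ 5 := by gcongr
    exact one_div_le_one_div_of_le (by norm_num) this
  have h7 : Real.exp (1 / (n : ℝ) ^ 5) ≤ 1 + 2 * (1 / (n : ℝ) ^ 5) := by
    set t := 1 / (n : ℝ) ^ 5 with ht
    have ht0 : 0 < t := by positivity
    have h8 := Real.one_sub_le_exp_neg t
    rw [Real.exp_neg] at h8
    have h9 : Real.exp t * (1 - t) ≤ 1 := by
      have h10 := mul_le_mul_of_nonneg_left h8 (Real.exp_pos t).le
      rwa [mul_inv_cancel₀ (Real.exp_pos t).ne'] at h10
    nlinarith [Real.exp_pos t]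
  have h8 : 2 * (1 / (n : ℝ) ^ 5) ≤ 2 / (n : ℝ) ^ 4 := by
    rw [mul_one_div]
    refine div_le_div_of_nonneg_left (by norm_num) (by positivity) ?_
    exact pow_le_pow_right₀ (by linarith) (by norm_num)
  linarith

end RST
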