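import Pool.Agent.Work.MP_5ba30e_pr.Chern
import Pool.Agent.Work.MP_5ba30e_pr.Paths

/-!
# Sub_L7 : subcritical level
-/

open MeasureTheory Set Filter Finset
open scoped ENNReal Topology Classical

noncomputable section

namespace RST

variable {n : ℕ}

theorem sub_one_lt_log (hn : 3 ≤ n) : 1 < Real.log n := by
  have h0 : (0 : ℝ) < n := by positivity
  rw [Real.lt_log_iff_exp_lt h0]
  have h1 : (3 : ℝ) ≤ n := by exact_mod_cast hn
  have h2 := Real.exp_one_lt_d9
  linarith

theorem sub_exp_neg_log (hn : 3 ≤ n) (k : ℕ) : Real.exp (-(k * Real.log n)) = 1 / (n : ℝ) ^ k := by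
  have h0 : (0 : ℝ) < n := by positivity
  rw [Real.exp_neg, Real.exp_nat_mul, Real.exp_log h0, one_div]

theorem sub_null : mu n {ω | ∃ e, ω e ≤ (-1 : ℝ)} = 0 := by
  have h : {ω : Env n | ∃ e, ω e ≤ (-1 : ℝ)} = ⋃ e, {ω : Env n | ω e ≤ (-1 : ℝ)} := by
    ext ω
    simp
  rw [h, measure_iUnion_null_iff]
  intro e
  have h1 : {ω : Env n | ω e ≤ (-1 : ℝ)} ⊆ {ω | ∀ e' ∈ ({e} : Finset (Sym2 (Fin n))), ω e' ≤ 0} := by
    intro ω hω e' he'
    rw [Finset.mem_singleton] at he'
    subst he'
    have : ω e' ≤ -1 := hω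
    linarith
  refine measure_mono_null h1 ?_
  rw [mu_le_all _ le_rfl zero_le_one]
  simp

theorem sub_adj_null {P : Env n → Prop} (h : ∀ ω, P ω → ∃ a b, (Gr ω (-1)).Adj a b) :
    mu n {ω | P ω} = 0 := by
  refine measure_mono_null (fun ω hω => ?_) (sub_null (n := n))
  obtain ⟨a, b, hab⟩ := h ω hω
  exact ⟨s(a, b), hab.2⟩

/-- paths at the level `(1-δ)/n`: `path_avoid` with `S = ∅` and length exactly `⌈10 log n/δ⌉`
(a longer path contains a path of this length): `n (1-δ)^ℓ ≤ n^{-9}`. Almost surely `ω ≥ 0`, so the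
graph `Gr ω (-1)` has no edge (`δ ≥ 1`). -/
theorem sub_path (hn : 3 ≤ n) {δ : ℝ} (hδ : 1 / (n : ℝ) ≤ δ) :
    mu n {ω | ¬ ∀ (u v : Fin n) (w : (Gr ω (pmin n δ)).Walk u v), w.IsPath →
      (w.length : ℝ) ≤ 20 * Real.log n / db δ} ≤ ENNReal.ofReal (1 / (n : ℝ) ^ 5) := by
  have hn0 : (0 : ℝ) < n := by positivity
  have hn3 : (3 : ℝ) ≤ n := by exact_mod_cast hn
  have hδ0 : 0 < δ := lt_of_lt_of_le (by positivity) hδ
  have hlog := sub_one_lt_log hn
  by_cases h1 : δ < 1
  · have hp : pmin n δ = (1 - δ) / n := if_pos h1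
    have hdb : db δ = δ := min_eq_left h1.le
    rw [hp, hdb]
    have hp0 : 0 ≤ (1 - δ) / (n : ℝ) := div_nonneg (by linarith) hn0.le
    have hp1 : (1 - δ) / (n : ℝ) ≤ 1 := by
      rw [div_le_one hn0]
      linarith
    set ℓ := ⌈10 * Real.log n / δ⌉₊ with hℓ
    have hx : 1 ≤ 10 * Real.log n / δ := by
      rw [le_div_iff₀ hδ0]
      nlinarith
    have hℓ1 : 10 * Real.log n / δ ≤ ℓ := Nat.le_ceil _
    have hℓ2 : (ℓ : ℝ) < 10 * Real.log n / δ + 1 := Nat.ceil_lt_add_one (by linarith)
    refine (measure_mono ?_).trans ((path_avoid (∅ : Finset (Fin n)) hp0 hp1 ℓ).trans ?_)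
    · intro ω hω
      simp only [Set.mem_ofPred_eq, not_forall, not_le] at hω
      obtain ⟨u, v, w, hw, hlt⟩ := hω
      have hle : ℓ ≤ w.length := by
        have h2 : (ℓ : ℝ) < w.length := by
          have h3 : 20 * Real.log n / δ = 10 * Real.log n / δ + 10 * Real.log n / δ := by ring
          linarith
        exact_mod_cast h2.le
      refine ⟨u, _, w.take ℓ, hw.take ℓ, ?_, fun x _ => Finset.notMem_empty x⟩
      rw [SimpleGraph.Walk.take_length, min_eq_left hle]
    · refine ENNReal.ofReal_le_ofReal ?_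
      rw [Finset.card_empty, Nat.cast_zero, sub_zero, mul_div_cancel₀ _ hn0.ne']
      have h2 : (1 - δ) ^ ℓ ≤ Real.exp (-δ) ^ ℓ :=
        pow_le_pow_left₀ (by linarith) (by have := Real.add_one_le_exp (-δ); linarith) _
      have h3 : Real.exp (-δ) ^ ℓ ≤ Real.exp (-((10 : ℕ) * Real.log n)) := by
        rw [← Real.exp_nat_mul]
        apply Real.exp_le_exp.2
        rw [div_le_iff₀ hδ0] at hℓ1
        push_cast
        linarith
      rw [sub_exp_neg_log hn] at h3
      calc (n : ℝ) * (1 - δ) ^ ℓ ≤ n * (1 / (n : ℝ) ^ 10) :=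
            mul_le_mul_of_nonneg_left (h2.trans h3) hn0.le
        _ = 1 / (n : ℝ) ^ 9 := by
            field_simp
        _ ≤ 1 / (n : ℝ) ^ 5 := by
            apply one_div_le_one_div_of_le (by positivity)
            exact pow_le_pow_right₀ (by linarith) (by norm_num)
  · have hp : pmin n δ = -1 := if_neg h1
    have hdb : db δ = 1 := min_eq_right (not_lt.1 h1)
    rw [hp, hdb]
    refine le_of_eq_of_le (sub_adj_null ?_) bot_le
    intro ω hω
    simp only [not_forall, not_le] at hω
    obtain ⟨u, v, w, hw, hlt⟩ := hω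
    cases w with
    | nil =>
      simp only [SimpleGraph.Walk.length_nil, Nat.cast_zero, div_one] at hlt
      linarith
    | cons h _ => exact ⟨_, _, h⟩

/-- components at the level `(1-δ)/n`: `E2` with one root and `bnd_sub`: the probability that
`comp v` has `τ` vertices is at most `exp(1 - δ²τ/2)`; sum over `τ ≥ 20 log n/δ²` and `v` -/
theorem sub_comp (hn : 3 ≤ n) {δ : ℝ} (hδ : 1 / (n : ℝ) ≤ δ) :
    mu n {ω | ¬ ∀ v, ((comp (Gr ω (pmin n δ)) v).card : ℝ) ≤ 20 * Real.log n / db δ ^ 2} ≤
      ENNReal.ofReal (1 / (n : ℝ) ^ 5) := by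
  have hn0 : (0 : ℝ) < n := by positivity
  have hn3 : (3 : ℝ) ≤ n := by exact_mod_cast hn
  have hδ0 : 0 < δ := lt_of_lt_of_le (by positivity) hδ
  have hlog := sub_one_lt_log hn
  by_cases h1 : δ < 1
  · have hp : pmin n δ = (1 - δ) / n := if_pos h1
    have hdb : db δ = δ := min_eq_left h1.le
    rw [hp, hdb]
    have hp0 : 0 ≤ (1 - δ) / (n : ℝ) := div_nonneg (by linarith) hn0.le
    have hp1 : (1 - δ) / (n : ℝ) ≤ 1 := by
      rw [div_le_one hn0]
      linarith
    set p := (1 - δ) / (n : ℝ) with hpdef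
    have hsub : {ω : Env n | ¬ ∀ v, ((comp (Gr ω p) v).card : ℝ) ≤ 20 * Real.log n / δ ^ 2} ⊆
        ⋃ v ∈ (Finset.univ : Finset (Fin n)),
          ⋃ τ ∈ (Finset.range (n + 1)).filter (fun τ : ℕ => 20 * Real.log n / δ ^ 2 < τ),
            {ω : Env n | (sat (Gr ω p) {v}).card = τ} := by
      intro ω hω
      simp only [Set.mem_ofPred_eq, not_forall, not_le] at hω
      obtain ⟨v, hv⟩ := hω
      simp only [Set.mem_iUnion, Finset.mem_filter, Finset.mem_range, Finset.mem_univ,
        Set.mem_ofPred_eq]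
      have h2 : sat (Gr ω p) {v} = comp (Gr ω p) v := by
        ext x
        simp [sat, comp]
      refine ⟨v, trivial, (comp (Gr ω p) v).card, ⟨?_, hv⟩, by rw [h2]⟩
      have := Finset.card_le_univ (comp (Gr ω p) v)
      rw [Fintype.card_fin] at this
      omega
    have hone : ∀ v : Fin n, ∀ τ ∈ (Finset.range (n + 1)).filter
        (fun τ : ℕ => 20 * Real.log n / δ ^ 2 < τ),
        mu n {ω : Env n | (sat (Gr ω p) {v}).card = τ} ≤
          ENNReal.ofReal (Real.exp 1 * (1 / (n : ℝ) ^ 10)) := by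
      intro v τ hτ
      rw [Finset.mem_filter, Finset.mem_range] at hτ
      have h2 := E2 (n := n) {v} (B := Set.univ) MeasurableSet.univ (fun _ _ _ => Iff.rfl) hp0 hp1 τ
      rw [Set.univ_inter, Finset.card_singleton] at h2
      have h3 : mu n (Set.univ : Set (Env n)) = 1 := by
        have := mu_le_all (n := n) ∅ le_rfl zero_le_one
        simp at this ⊢
      rw [h3, one_mul] at h2
      refine h2.trans (ENNReal.ofReal_le_ofReal ?_)
      have hτ1 : 1 ≤ τ := by
        by_contra h
        have : τ = 0 := by omega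
        subst this
        have h4 : (0 : ℝ) < 20 * Real.log n / δ ^ 2 := by positivity
        have := hτ.2
        rw [Nat.cast_zero] at this
        linarith
      refine (bnd_sub hδ0 h1 hτ1 (by omega)).trans ?_
      rw [← sub_exp_neg_log hn 10, ← Real.exp_add]
      apply Real.exp_le_exp.2
      have h5 := hτ.2
      rw [div_lt_iff₀ (by positivity)] at h5
      push_cast
      linarith
    refine (measure_mono hsub).trans ((measure_biUnion_finset_le _ _).trans ?_)
    calc _ ≤ ∑ v : Fin n, ENNReal.ofReal (((n : ℝ) + 1) * (Real.exp 1 * (1 / (n : ℝ) ^ 10))) := by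
          refine Finset.sum_le_sum fun v _ => ?_
          refine (measure_biUnion_finset_le _ _).trans ((Finset.sum_le_sum (hone v)).trans ?_)
          rw [Finset.sum_const, nsmul_eq_mul,
            ENNReal.ofReal_mul (p := (n : ℝ) + 1) (by positivity)]
          refine mul_le_mul' ?_ le_rfl
          rw [← ENNReal.ofReal_natCast]
          refine ENNReal.ofReal_le_ofReal ?_
          have := Finset.card_filter_le (Finset.range (n + 1))
            (fun τ : ℕ => 20 * Real.log n / δ ^ 2 < τ)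
          rw [Finset.card_range] at this
          exact_mod_cast this
      _ = ENNReal.ofReal (n * (((n : ℝ) + 1) * (Real.exp 1 * (1 / (n : ℝ) ^ 10)))) := by
          rw [Finset.sum_const, Finset.card_univ, Fintype.card_fin, nsmul_eq_mul,
            ENNReal.ofReal_mul (Nat.cast_nonneg _), ENNReal.ofReal_natCast]
      _ ≤ ENNReal.ofReal (1 / (n : ℝ) ^ 5) := by
          refine ENNReal.ofReal_le_ofReal ?_
          have he : Real.exp 1 ≤ n := by
            have := Real.exp_one_lt_d9
            linarith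
          have h6 : (n : ℝ) + 1 ≤ n ^ 2 := by nlinarith
          calc (n : ℝ) * (((n : ℝ) + 1) * (Real.exp 1 * (1 / (n : ℝ) ^ 10)))
              ≤ n * ((n : ℝ) ^ 2 * (n * (1 / (n : ℝ) ^ 10))) := by gcongr
            _ = 1 / (n : ℝ) ^ 6 := by field_simp
            _ ≤ 1 / (n : ℝ) ^ 5 := by
                apply one_div_le_one_div_of_le (by positivity)
                exact pow_le_pow_right₀ (by linarith) (by norm_num)
  · have hp : pmin n δ = -1 := if_neg h1
    have hdb : db δ = 1 := min_eq_right (not_lt.1 h1)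
    rw [hp, hdb]
    refine le_of_eq_of_le (sub_adj_null ?_) bot_le
    intro ω hω
    simp only [not_forall, not_le] at hω
    obtain ⟨v, hv⟩ := hω
    by_contra hno
    push Not at hno
    have h2 : comp (Gr ω (-1)) v ⊆ {v} := by
      intro u hu
      obtain ⟨w⟩ := (Finset.mem_filter.1 hu).2
      cases w with
      | nil => exact Finset.mem_singleton_self _
      | cons h _ => exact absurd h (hno _ _)
    have h3 := Finset.card_le_card h2
    rw [Finset.card_singleton] at h3
    have h4 : ((comp (Gr ω (-1)) v).card : ℝ) ≤ 1 := by exact_mod_cast h3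
    rw [one_pow, div_one] at hv
    linarith

end RST
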