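import Pool.Agent.Work.MP_5ba30e_pr.Paths

/-!
# Sub_marks : marked edges (`marks_conn`, `marks_cnt`) and degrees (`deg_small`)
-/

open MeasureTheory Set Filter Finset
open scoped ENNReal Topology Classical

noncomputable section

namespace RST

variable {n : ℕ}

/-- `x^k/k! ≤ exp (8 x - 2 k)` -/
theorem SubM.pow_div_le {x : ℝ} (hx : 0 ≤ x) (k : ℕ) :
    x ^ k / (k.factorial : ℝ) ≤ Real.exp (8 * x - 2 * k) := by
  have h1 := Real.pow_div_factorial_le_exp (Real.exp 2 * x) (by positivity) k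
  have h2 : Real.exp 2 ≤ 8 := by
    have h := Real.exp_one_lt_d9
    have h0 := Real.exp_pos 1
    have : Real.exp 2 = Real.exp 1 * Real.exp 1 := by rw [← Real.exp_add]; norm_num
    rw [this]; nlinarith
  have h3 : Real.exp (Real.exp 2 * x) ≤ Real.exp (8 * x) :=
    Real.exp_le_exp.2 (mul_le_mul_of_nonneg_right h2 hx)
  have h4 : (Real.exp 2 * x) ^ k / (k.factorial : ℝ) = Real.exp (2 * k) * (x ^ k / k.factorial) := by
    rw [mul_pow, ← Real.exp_nat_mul, mul_comm (k : ℝ) 2, mul_div_assoc]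
  rw [h4] at h1
  rw [Real.exp_sub, le_div_iff₀ (Real.exp_pos _), mul_comm]
  exact h1.trans h3

/-- one term of the union bound -/
theorem SubM.term_le {ℓ k : ℕ} {w d b : ℝ} (hw : 0 ≤ w) (hd : 0 ≤ d)
    (hb : 9 * w * ℓ + d * ℓ - 2 * k - w * ℓ ≤ b) :
    (ℓ.choose k : ℝ) * w ^ k * (1 + d) ^ (ℓ - k) ≤ Real.exp b := by
  have h1 : (ℓ.choose k : ℝ) ≤ (ℓ : ℝ) ^ k / k.factorial := Nat.choose_le_pow_div k ℓ
  have h2 : (1 + d) ^ (ℓ - k) ≤ Real.exp (d * ℓ) := by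
    calc (1 + d) ^ (ℓ - k) ≤ (1 + d) ^ ℓ := pow_le_pow_right₀ (by linarith) (Nat.sub_le _ _)
      _ ≤ Real.exp d ^ ℓ := by
          apply pow_le_pow_left₀ (by linarith)
          have := Real.add_one_le_exp d
          linarith
      _ = _ := by rw [← Real.exp_nat_mul]; congr 1; ring
  have h3 : (ℓ.choose k : ℝ) * w ^ k ≤ Real.exp (8 * (w * ℓ) - 2 * k) := by
    calc (ℓ.choose k : ℝ) * w ^ k ≤ (ℓ : ℝ) ^ k / k.factorial * w ^ k :=
          mul_le_mul_of_nonneg_right h1 (by positivity)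
      _ = (w * ℓ) ^ k / k.factorial := by rw [mul_pow]; ring
      _ ≤ _ := SubM.pow_div_le (by positivity) k
  calc (ℓ.choose k : ℝ) * w ^ k * (1 + d) ^ (ℓ - k)
      ≤ Real.exp (8 * (w * ℓ) - 2 * k) * Real.exp (d * ℓ) :=
        mul_le_mul h3 h2 (by positivity) (Real.exp_pos _).le
    _ = Real.exp (8 * (w * ℓ) - 2 * k + d * ℓ) := by rw [← Real.exp_add]
    _ ≤ _ := by apply Real.exp_le_exp.2; linarith

/-- `exp (-Q) ≤ n^{-10}` -/
theorem SubM.exp_neg_le (hn : 3 ≤ n) {Q : ℝ} (hQ : 10 * Real.log n ≤ Q) :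
    Real.exp (-Q) ≤ 1 / (n : ℝ) ^ 10 := by
  have hn0 : (0 : ℝ) < n := by positivity
  calc Real.exp (-Q) ≤ Real.exp (-(10 * Real.log n)) := Real.exp_le_exp.2 (by linarith)
    _ = 1 / (n : ℝ) ^ 10 := by
        rw [Real.exp_neg, one_div]
        congr 1
        have : (10 : ℝ) * Real.log n = ((10 : ℕ) : ℝ) * Real.log n := by norm_num
        rw [this, Real.exp_nat_mul, Real.exp_log hn0]

theorem SubM.cntW_le {G : SimpleGraph (Fin n)} (ω : Env n) (p : ℝ) {u v : Fin n}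
    (w : G.Walk u v) : cntW ω p w ≤ w.length := by
  unfold cntW
  calc (w.edges.filter fun e => p < ω e).length ≤ w.edges.length := List.length_filter_le _ _
    _ = w.length := w.length_edges

/-- the union over the lengths -/
theorem SubM.union_le (hn : 3 ≤ n) {p p₁ Q : ℝ} (hp₁ : 0 ≤ p₁) (hpp : p₁ ≤ p) (hp1 : p ≤ 1)
    (hQ : 10 * Real.log n ≤ Q) (A : Set (Env n)) (L : Finset ℕ) (hL : L ⊆ Finset.range n)
    (k : ℕ → ℕ)
    (hA : ∀ ω ∈ A, ∃ (u v : Fin n) (w : (Gr ω p).Walk u v), w.IsPath ∧ w.length ∈ L ∧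
      k w.length ≤ cntW ω p₁ w)
    (hk : ∀ ℓ ∈ L, k ℓ ≤ ℓ → (ℓ.choose (k ℓ) * (n * (p - p₁)) ^ (k ℓ) * (n * p) ^ (ℓ - k ℓ)) ≤
      Real.exp (-Q)) :
    mu n A ≤ ENNReal.ofReal (1 / (n : ℝ) ^ 2) := by
  have hn0 : (0 : ℝ) < n := by positivity
  have hn1 : (1 : ℝ) ≤ n := by exact_mod_cast (by omega : 1 ≤ n)
  set E : ℕ → Set (Env n) := fun ℓ => {ω | ∃ (u v : Fin n) (w : (Gr ω p).Walk u v),
    w.IsPath ∧ w.length = ℓ ∧ k ℓ ≤ cntW ω p₁ w} with hE
  have h1 : A ⊆ ⋃ ℓ ∈ L, E ℓ := by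
    intro ω hω
    obtain ⟨u, v, w, h1, h2, h3⟩ := hA ω hω
    exact Set.mem_biUnion h2 ⟨u, v, w, h1, rfl, h3⟩
  have h2 : ∀ ℓ ∈ L, mu n (E ℓ) ≤ ENNReal.ofReal (n * (1 / (n : ℝ) ^ 10)) := by
    intro ℓ hℓ
    by_cases hkl : k ℓ ≤ ℓ
    · refine (marks hp₁ hpp hp1 ℓ (k ℓ) hkl).trans (ENNReal.ofReal_le_ofReal ?_)
      exact mul_le_mul_of_nonneg_left ((hk ℓ hℓ hkl).trans (SubM.exp_neg_le hn hQ)) hn0.le
    · have : E ℓ = ∅ := by
        ext ω
        simp only [hE, Set.mem_ofPred_eq, Set.mem_empty_iff_false, iff_false]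
        rintro ⟨u, v, w, -, h3, h4⟩
        have := SubM.cntW_le ω p₁ w
        omega
      rw [this, measure_empty]
      exact bot_le
  calc mu n A ≤ mu n (⋃ ℓ ∈ L, E ℓ) := measure_mono h1
    _ ≤ ∑ ℓ ∈ L, mu n (E ℓ) := measure_biUnion_finset_le _ _
    _ ≤ ∑ _ℓ ∈ L, ENNReal.ofReal (n * (1 / (n : ℝ) ^ 10)) := Finset.sum_le_sum h2
    _ ≤ ∑ _ℓ ∈ Finset.range n, ENNReal.ofReal (n * (1 / (n : ℝ) ^ 10)) :=
        Finset.sum_le_sum_of_subset hL
    _ = ENNReal.ofReal (n * (n * (1 / (n : ℝ) ^ 10))) := by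
        rw [Finset.sum_const, Finset.card_range, nsmul_eq_mul, ENNReal.ofReal_mul hn0.le,
          ENNReal.ofReal_mul hn0.le, ENNReal.ofReal_mul hn0.le, ENNReal.ofReal_natCast]
    _ ≤ _ := by
        apply ENNReal.ofReal_le_ofReal
        have h3 : (n : ℝ) * (n * (1 / (n : ℝ) ^ 10)) = 1 / (n : ℝ) ^ 8 := by field_simp
        rw [h3]
        apply one_div_le_one_div_of_le (by positivity)
        exact pow_le_pow_right₀ hn1 (by norm_num)

theorem marks_conn (hn : 3 ≤ n) {δ W B Q₁ Q : ℝ} (hδ : 0 < δ) (hp : (1 + δ) / n ≤ 1)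
    (hB : 1 ≤ B) (hQ₁ : 1 ≤ Q₁) (hW : 0 ≤ W) (hW1 : δ < 1 → W ≤ B * δ)
    (hQ : 10 * B * Q₁ + 10 * Real.log n ≤ Q) :
    mu n {ω | ¬ ∀ (u v : Fin n) (w : (Gr ω ((1 + δ) / n)).Walk u v), w.IsPath →
      (w.length : ℝ) ≤ Q₁ / db δ → (cntW ω ((1 + δ) / n - W / n) w : ℝ) ≤ Q} ≤
      ENNReal.ofReal (1 / (n : ℝ) ^ 2) := by
  have hn0 : (0 : ℝ) < n := by positivity
  have hn1 : (1 : ℝ) ≤ n := by exact_mod_cast (by omega : 1 ≤ n)
  have hlog : 0 ≤ Real.log n := Real.log_nonneg hn1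
  have hBQ : 0 ≤ B * Q₁ := by positivity
  have hBQ1 : Q₁ ≤ B * Q₁ := by nlinarith
  have hQ0 : 0 ≤ Q := by nlinarith
  by_cases hδ1 : δ < 1
  · have hdb : db δ = δ := min_eq_left hδ1.le
    have hW2 := hW1 hδ1
    rw [hdb]
    by_cases hneg : W ≤ 1 + δ
    · have hp₁ : 0 ≤ (1 + δ) / (n : ℝ) - W / n := by
        rw [← sub_div]; exact div_nonneg (by linarith) hn0.le
      refine SubM.union_le hn hp₁ (sub_le_self _ (by positivity)) hp (by linarith : 10 * Real.log n ≤ Q)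
        _ ((Finset.range n).filter fun ℓ => (ℓ : ℝ) ≤ Q₁ / δ) (Finset.filter_subset _ _)
        (fun _ => ⌊Q⌋₊ + 1) ?_ ?_
      · rintro ω hω
        simp only [Set.mem_ofPred_eq, not_forall, not_le] at hω
        obtain ⟨u, v, w, h1, h2, h3⟩ := hω
        refine ⟨u, v, w, h1, Finset.mem_filter.2 ⟨?_, h2⟩, ?_⟩
        · rw [Finset.mem_range]
          have := h1.length_lt
          rwa [Fintype.card_fin] at this
        · exact Nat.succ_le_of_lt ((Nat.floor_lt hQ0).2 h3)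
      · intro ℓ hℓ hk
        have hℓ1 : (ℓ : ℝ) ≤ Q₁ / δ := (Finset.mem_filter.1 hℓ).2
        have hℓ2 : δ * ℓ ≤ Q₁ := by
          rw [le_div_iff₀ hδ] at hℓ1; linarith
        have e1 : (n : ℝ) * ((1 + δ) / n - ((1 + δ) / n - W / n)) = W := by field_simp; ring
        have e2 : (n : ℝ) * ((1 + δ) / n) = 1 + δ := by field_simp
        rw [e1, e2]
        apply SubM.term_le hW hδ.le
        have hkQ : Q ≤ ((⌊Q⌋₊ + 1 : ℕ) : ℝ) := by
          push_cast; exact (Nat.lt_floor_add_one Q).le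
        have h4 : W * ℓ ≤ B * Q₁ := by
          calc W * ℓ ≤ B * δ * ℓ := mul_le_mul_of_nonneg_right hW2 (by positivity)
            _ = B * (δ * ℓ) := by ring
            _ ≤ _ := mul_le_mul_of_nonneg_left hℓ2 (by linarith)
        nlinarith
    · have : {ω : Env n | ¬ ∀ (u v : Fin n) (w : (Gr ω ((1 + δ) / n)).Walk u v), w.IsPath →
          (w.length : ℝ) ≤ Q₁ / δ → (cntW ω ((1 + δ) / n - W / n) w : ℝ) ≤ Q} = ∅ := by
        ext ω
        simp only [Set.mem_ofPred_eq, Set.mem_empty_iff_false, iff_false, not_not]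
        intro u v w h1 h2
        have h3 : (cntW ω ((1 + δ) / n - W / n) w : ℝ) ≤ w.length := by
          exact_mod_cast SubM.cntW_le _ _ _
        have h4 : 1 ≤ B * δ := by linarith
        have h5 : Q₁ / δ ≤ B * Q₁ := by
          rw [div_le_iff₀ hδ]; nlinarith
        linarith
      rw [this, measure_empty]
      exact bot_le
  · have hdb : db δ = 1 := min_eq_right (not_lt.1 hδ1)
    have : {ω : Env n | ¬ ∀ (u v : Fin n) (w : (Gr ω ((1 + δ) / n)).Walk u v), w.IsPath →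
        (w.length : ℝ) ≤ Q₁ / db δ → (cntW ω ((1 + δ) / n - W / n) w : ℝ) ≤ Q} = ∅ := by
      ext ω
      simp only [Set.mem_ofPred_eq, Set.mem_empty_iff_false, iff_false, not_not]
      intro u v w h1 h2
      rw [hdb, div_one] at h2
      have h3 : (cntW ω ((1 + δ) / n - W / n) w : ℝ) ≤ w.length := by
        exact_mod_cast SubM.cntW_le _ _ _
      linarith
    rw [this, measure_empty]
    exact bot_le

theorem marks_cnt (hn : 3 ≤ n) {δ δ' B Q : ℝ} (hδ : 0 < δ) (hδ' : 0 ≤ δ')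
    (hp : (1 + δ') / n ≤ 1) (hB : 1 ≤ B) (hδB : δ' ≤ B * δ)
    (hQ : 10 * (B + 1) + 10 * Real.log n ≤ Q) :
    mu n {ω | ¬ ∀ (u v : Fin n) (w : (Gr ω ((1 + δ') / n)).Walk u v), w.IsPath →
      (cntW ω (pmin n δ) w : ℝ) ≤ Q * (db δ * w.length + 1)} ≤
      ENNReal.ofReal (1 / (n : ℝ) ^ 2) := by
  have hn0 : (0 : ℝ) < n := by positivity
  have hn1 : (1 : ℝ) ≤ n := by exact_mod_cast (by omega : 1 ≤ n)
  have hlog : 0 ≤ Real.log n := Real.log_nonneg hn1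
  have hQ0 : 0 ≤ Q := by linarith
  by_cases hδ1 : δ < 1
  · have hdb : db δ = δ := min_eq_left hδ1.le
    have hpm : pmin n δ = (1 - δ) / n := if_pos hδ1
    rw [hdb, hpm]
    have hp₁ : 0 ≤ (1 - δ) / (n : ℝ) := div_nonneg (by linarith) hn0.le
    have hpp : (1 - δ) / (n : ℝ) ≤ (1 + δ') / n := by gcongr; linarith
    refine SubM.union_le hn hp₁ hpp hp (by linarith : 10 * Real.log n ≤ Q)
      _ (Finset.range n) (Finset.Subset.refl _) (fun ℓ => ⌊Q * (δ * ℓ + 1)⌋₊ + 1) ?_ ?_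
    · rintro ω hω
      simp only [Set.mem_ofPred_eq, not_forall, not_le] at hω
      obtain ⟨u, v, w, h1, h3⟩ := hω
      refine ⟨u, v, w, h1, ?_, ?_⟩
      · rw [Finset.mem_range]
        have := h1.length_lt
        rwa [Fintype.card_fin] at this
      · exact Nat.succ_le_of_lt ((Nat.floor_lt (by positivity)).2 h3)
    · intro ℓ hℓ hk
      have e1 : (n : ℝ) * ((1 + δ') / n - (1 - δ) / n) = δ + δ' := by field_simp; ring
      have e2 : (n : ℝ) * ((1 + δ') / n) = 1 + δ' := by field_simp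
      rw [e1, e2]
      apply SubM.term_le (by linarith) hδ'
      have hkQ : Q * (δ * ℓ + 1) ≤ ((⌊Q * (δ * ℓ + 1)⌋₊ + 1 : ℕ) : ℝ) := by
        push_cast; exact (Nat.lt_floor_add_one _).le
      have hℓ0 : (0 : ℝ) ≤ δ * ℓ := by positivity
      have hℓ1 : (0 : ℝ) ≤ ℓ := by positivity
      have h4 : (δ + δ') * ℓ ≤ (B + 1) * (δ * ℓ) := by nlinarith
      have h5 : δ' * ℓ ≤ B * (δ * ℓ) := by nlinarith
      have h6 : 10 * (B + 1) * (δ * ℓ) ≤ Q * (δ * ℓ) :=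
        mul_le_mul_of_nonneg_right (by linarith) hℓ0
      nlinarith
  · have hdb : db δ = 1 := min_eq_right (not_lt.1 hδ1)
    have : {ω : Env n | ¬ ∀ (u v : Fin n) (w : (Gr ω ((1 + δ') / n)).Walk u v), w.IsPath →
      (cntW ω (pmin n δ) w : ℝ) ≤ Q * (db δ * w.length + 1)} = ∅ := by
      ext ω
      simp only [Set.mem_ofPred_eq, Set.mem_empty_iff_false, iff_false, not_not]
      intro u v w h1
      rw [hdb]
      have h3 : (cntW ω (pmin n δ) w : ℝ) ≤ w.length := by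
        exact_mod_cast SubM.cntW_le _ _ _
      have h4 : (0 : ℝ) ≤ w.length := by positivity
      nlinarith
    rw [this, measure_empty]
    exact bot_le

theorem deg_small (hn : 3 ≤ n) {A₂ Q p : ℝ} (hp : 0 ≤ p) (hA : 0 ≤ A₂)
    (hp1 : p ≤ (1 + A₂ * Real.log n) / n) (hQ : 10 * (1 + A₂ * Real.log n) ≤ Q)
    (hQ1 : 10 * Real.log n ≤ Q) (hp2 : p ≤ 1) :
    mu n {ω | ¬ ∀ x, ((Finset.univ.filter fun y => (Gr ω p).Adj x y).card : ℝ) ≤ Q} ≤
      ENNReal.ofReal (1 / (n : ℝ) ^ 2) := by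
  have hn0 : (0 : ℝ) < n := by positivity
  have hn1 : (1 : ℝ) ≤ n := by exact_mod_cast (by omega : 1 ≤ n)
  have hlog : 0 ≤ Real.log n := Real.log_nonneg hn1
  have hAl : 0 ≤ A₂ * Real.log n := by positivity
  have hQ0 : 0 ≤ Q := by linarith
  have h1 : {ω : Env n | ¬ ∀ x, ((Finset.univ.filter fun y => (Gr ω p).Adj x y).card : ℝ) ≤ Q} ⊆
      {ω | ∃ x, ⌊Q⌋₊ + 1 ≤ (Finset.univ.filter fun y => (Gr ω p).Adj x y).card} := by
    intro ω hω
    simp only [Set.mem_ofPred_eq, not_forall, not_le] at hω ⊢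
    obtain ⟨x, hx⟩ := hω
    exact ⟨x, Nat.succ_le_of_lt ((Nat.floor_lt hQ0).2 hx)⟩
  refine (measure_mono h1).trans ((max_deg hp hp2 _).trans (ENNReal.ofReal_le_ofReal ?_))
  set k := ⌊Q⌋₊ + 1 with hk
  have hkQ : Q ≤ (k : ℝ) := by
    rw [hk]; push_cast; exact (Nat.lt_floor_add_one Q).le
  have hnp : (n : ℝ) * p ≤ 1 + A₂ * Real.log n := by
    rw [le_div_iff₀ hn0] at hp1; linarith
  have h2 : (n.choose k : ℝ) * p ^ k ≤ Real.exp (-Q) := by
    calc (n.choose k : ℝ) * p ^ k ≤ (n : ℝ) ^ k / k.factorial * p ^ k :=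
          mul_le_mul_of_nonneg_right (Nat.choose_le_pow_div k n) (by positivity)
      _ = (n * p) ^ k / k.factorial := by rw [mul_pow]; ring
      _ ≤ Real.exp (8 * (n * p) - 2 * k) := SubM.pow_div_le (by positivity) k
      _ ≤ _ := by apply Real.exp_le_exp.2; linarith
  calc (n : ℝ) * (n.choose k * p ^ k) ≤ n * (1 / (n : ℝ) ^ 10) :=
        mul_le_mul_of_nonneg_left (h2.trans (SubM.exp_neg_le hn hQ1)) hn0.le
    _ = 1 / (n : ℝ) ^ 9 := by field_simp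
    _ ≤ _ := by
        apply one_div_le_one_div_of_le (by positivity)
        exact pow_le_pow_right₀ hn1 (by norm_num)

end RST
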