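import Pool.Agent.Work.MP_5ba30e_pr.Chern
import Pool.Agent.Work.MP_5ba30e_pr.Paths
import Pool.Agent.Work.MP_5ba30e_pr.Sub_L7
import Pool.Agent.Work.MP_5ba30e_pr.Sub_marks

/-!
# Sub : subcritical level, marked edges
-/

open MeasureTheory Set Filter Finset
open scoped ENNReal Topology Classical

noncomputable section

namespace RST

variable {n : ℕ}






end RST
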