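import Pool.Agent.Work.MP_5ba30e_pr.PairOK
import Pool.Agent.Work.MP_5ba30e_pr.Sub

/-!
# ERgood : the environment is good with high probability, uniformly in the parameters
-/

open MeasureTheory Set Filter Finset
open scoped ENNReal Topology Classical

noncomputable section

namespace RST

variable {n : ℕ}

theorem eg_dl_pos {δ₀ : ℝ} (h : 0 < δ₀) (j : ℕ) : 0 < dl δ₀ j := by
  unfold dl; positivity

theorem eg_dl_mono {δ₀ : ℝ} (h : 0 < δ₀) {i j : ℕ} (hij : i ≤ j) : dl δ₀ i ≤ dl δ₀ j := by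
  unfold dl
  exact mul_le_mul_of_nonneg_left (pow_le_pow_right₀ (by norm_num) hij) h.le

theorem eg_dl_zero (δ₀ : ℝ) : dl δ₀ 0 = δ₀ := by simp [dl]

theorem eg_dl_shift (δ₀ : ℝ) (j : ℕ) : dl (δ₀ * (5 / 6)) (j + 1) = dl δ₀ j := by
  unfold dl; rw [pow_succ]; ring

theorem eg_dl_scale (δ₀ : ℝ) (j : ℕ) : 1.2 * dl (δ₀ * (5 / 6)) j = dl δ₀ j := by
  unfold dl; ring

theorem eg_dl_succ (δ₀ : ℝ) (j : ℕ) : 1.2 * dl δ₀ j = dl δ₀ (j + 1) := by
  unfold dl; rw [pow_succ]; ring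

theorem eg_db_pos {δ : ℝ} (h : 0 < δ) : 0 < db δ := lt_min h one_pos

theorem eg_db_le_one (δ : ℝ) : db δ ≤ 1 := min_le_right _ _

theorem eg_db_scale {δ : ℝ} (h : 0 < δ) : 5 * db (1.2 * δ) ≤ 6 * db δ := by
  unfold db
  rcases min_cases (1.2 * δ) 1 with ⟨h1, h2⟩ | ⟨h1, h2⟩ <;>
    rcases min_cases δ 1 with ⟨h3, h4⟩ | ⟨h3, h4⟩ <;> rw [h1, h3] <;> linarith

/-- number of levels -/
theorem levels_le (c A₂ : ℝ) (hc : 0 < c) (hA : 0 < A₂) :
    ∃ n₀ : ℕ, ∀ n ≥ n₀, ∀ (δ₀ : ℝ) (J : ℕ), (n : ℝ) ^ (-(1 / 3 : ℝ) + c) ≤ δ₀ →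
      dl δ₀ J ≤ A₂ * Real.log n → (J : ℝ) ≤ 3 * Real.log n := by
  have h1 : ∀ᶠ x : ℝ in atTop, A₂ * Real.log x ≤ x ^ c := by
    have h2 := (isLittleO_log_rpow_atTop hc).bound (c := 1 / A₂) (by positivity)
    filter_upwards [h2, eventually_ge_atTop 1] with x hx hx1
    rw [Real.norm_of_nonneg (Real.log_nonneg hx1), Real.norm_of_nonneg (by positivity)] at hx
    calc A₂ * Real.log x ≤ A₂ * (1 / A₂ * x ^ c) := mul_le_mul_of_nonneg_left hx hA.le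
      _ = x ^ c := by field_simp
  obtain ⟨n₀, hn₀⟩ := eventually_atTop.1 (tendsto_natCast_atTop_atTop.eventually h1)
  refine ⟨max n₀ 1, fun n hn δ₀ J h3 h4 => ?_⟩
  have hn1 : 1 ≤ n := le_trans (le_max_right _ _) hn
  have hnpos : (0 : ℝ) < n := by exact_mod_cast hn1
  have h5 := hn₀ n (le_trans (le_max_left _ _) hn)
  have h6 : (n : ℝ) ^ (-(1 / 3 : ℝ) + c) * (6 / 5) ^ J ≤ (n : ℝ) ^ c := by
    refine le_trans (mul_le_mul_of_nonneg_right h3 (by positivity)) (h4.trans h5)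
  rw [Real.rpow_add hnpos, mul_right_comm] at h6
  have h7 : (n : ℝ) ^ (-(1 / 3 : ℝ)) * (6 / 5) ^ J ≤ 1 := by
    have h8 : (0 : ℝ) < (n : ℝ) ^ c := Real.rpow_pos_of_pos hnpos _
    by_contra h9
    push Not at h9
    nlinarith
  have h8 := Real.log_le_log (by positivity) h7
  rw [Real.log_mul (by positivity) (by positivity), Real.log_rpow hnpos, Real.log_pow,
    Real.log_one] at h8
  have h9 : (1 : ℝ) / 6 ≤ Real.log (6 / 5) := by
    have := Real.one_sub_inv_le_log_of_pos (x := 6 / 5) (by norm_num)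
    norm_num at this ⊢
    linarith
  have h10 : (J : ℝ) * (1 / 6) ≤ J * Real.log (6 / 5) :=
    mul_le_mul_of_nonneg_left h9 (Nat.cast_nonneg _)
  have h11 : 0 ≤ Real.log n := Real.log_nonneg (by exact_mod_cast hn1)
  linarith

/-- deterministic part: `GoodEnv` from the properties of all the pairs of levels
`(dl (δ₀ * (5/6)) j, dl (δ₀ * (5/6)) (j+1))`, `j ≤ J` (so `dl (δ₀*(5/6)) (j+1) = dl δ₀ j`), and from
the complements of the events of `Sub.lean` and of `not_conn`, `giant_upp`.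
Here `L = log n`, `Q = L^K`. -/
theorem good_of_pairs (hn : 3 ≤ n) {β δ₀ Q : ℝ} {J jX : ℕ} {ω : Env n} (hδ : 0 < δ₀)
    (hjX : jX ≤ J) (hL : 1 ≤ Real.log n) (hQ : 12 * Real.log n ^ 3 ≤ Q)
    (hpair : ∀ j ≤ J, PairOK n (dl (δ₀ * (5 / 6)) j) ω)
    (hlow : GLo n δ₀ ω)
    (hfull : ∀ u v, (Gr ω (pl n δ₀ J)).Reachable u v) (hthr : thr n (dl δ₀ J) < n)
    (hupp : ∀ j ≤ J, ((CC δ₀ j ω).card : ℝ) ≤ Q * db (dl δ₀ j) * n)
    (hmark : ∀ j ≤ J, ∀ (u v : Fin n) (w : (Gr ω (pl n δ₀ j)).Walk u v), w.IsPath →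
      (w.length : ℝ) ≤ 6 * Real.log n ^ 3 / db (dl δ₀ j) →
      (cntW ω (pl n δ₀ j - 2 * Real.log n / β) w : ℝ) ≤ Q)
    (hdeg : ∀ x, ((Finset.univ.filter fun y => (Gr ω (pl n δ₀ J)).Adj x y).card : ℝ) ≤ Q)
    (hsubp : ∀ (u v : Fin n) (w : (Gr ω (pmin n δ₀)).Walk u v), w.IsPath →
      (w.length : ℝ) ≤ Q / db δ₀)
    (hsubc : ∀ v, ((comp (Gr ω (pmin n δ₀)) v).card : ℝ) ≤ Q / db δ₀ ^ 2)
    (hcnt : ∀ (u v : Fin n) (w : (Gr ω (pl n δ₀ jX)).Walk u v), w.IsPath →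
      (cntW ω (pmin n δ₀) w : ℝ) ≤ Q * (db δ₀ * w.length + 1)) :
    GoodEnv β δ₀ Q J jX ω := by
  have hL3 : 1 ≤ Real.log n ^ 3 := one_le_pow₀ hL
  have hQ12 : 12 ≤ Q := by linarith
  refine ⟨?_, ?_, ?_, hupp, ?_, ?_, hdeg, hsubp, hsubc, hcnt⟩
  · intro j hj
    have h1 := (hpair (j + 1) hj).mono (by omega) (by rw [eg_dl_shift]; exact eg_dl_pos hδ j)
    rw [eg_dl_shift, eg_dl_succ] at h1
    exact h1
  · unfold CC bigC
    rw [Finset.filter_eq_self]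
    intro v _
    have h1 : comp (Gr ω (pl n δ₀ J)) v = Finset.univ := by
      unfold comp
      rw [Finset.filter_eq_self]
      intro u _
      exact hfull v u
    rw [h1, Finset.card_univ, Fintype.card_fin]
    exact hthr
  · obtain ⟨⟨v, hv⟩, h2⟩ := hlow
    have h3 := h2 v hv
    have hsub : comp (Gr ω ((1 + δ₀) / n)) v ⊆ CC δ₀ 0 ω := by
      intro u hu
      unfold CC pl
      rw [eg_dl_zero]
      unfold bigC at hv ⊢
      rw [Finset.mem_filter] at hv ⊢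
      refine ⟨Finset.mem_univ _, ?_⟩
      have h4 : comp (Gr ω ((1 + δ₀) / n)) u = comp (Gr ω ((1 + δ₀) / n)) v := by
        unfold comp at hu ⊢
        rw [Finset.mem_filter] at hu
        ext x
        rw [Finset.mem_filter, Finset.mem_filter]
        constructor
        · rintro ⟨_, hx⟩
          exact ⟨Finset.mem_univ _, hu.2.trans hx⟩
        · rintro ⟨_, hx⟩
          exact ⟨Finset.mem_univ _, hu.2.symm.trans hx⟩
      rw [h4]
      exact hv.2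
    have h4 : ((comp (Gr ω ((1 + δ₀) / n)) v).card : ℝ) ≤ (CC δ₀ 0 ω).card := by
      exact_mod_cast Finset.card_le_card hsub
    refine le_trans ?_ (h3.le.trans h4)
    have hnpos : (0 : ℝ) ≤ n := Nat.cast_nonneg _
    have h5 : db δ₀ / Q ≤ xs δ₀ := by
      unfold xs
      rw [div_le_div_iff₀ (by linarith) (by positivity)]
      have h6 : db δ₀ * (1 + 1.7 * δ₀) ≤ 1.7 * δ₀ * 12 := by
        unfold db
        rcases min_cases δ₀ 1 with ⟨h7, h8⟩ | ⟨h7, h8⟩ <;> rw [h7] <;> nlinarith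
      refine h6.trans (mul_le_mul_of_nonneg_left hQ12 (by positivity))
    calc db δ₀ * n / Q = db δ₀ / Q * n := by ring
      _ ≤ xs δ₀ * n := mul_le_mul_of_nonneg_right h5 hnpos
  · intro j hj u v w hw havoid
    have h1 := (hpair (j + 1) hj).long
    rw [eg_dl_shift, eg_dl_succ] at h1
    refine (h1 u v w hw havoid).trans ?_
    exact div_le_div_of_nonneg_right (by linarith) (eg_db_pos (eg_dl_pos hδ j)).le
  · intro j hj x hx y hy
    have hδ' : 0 < dl (δ₀ * (5 / 6)) j := eg_dl_pos (by positivity) j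
    have h1 := (hpair j hj).path hn hδ' (x := x) (y := y)
    have h2 := eg_db_scale hδ'
    rw [eg_dl_scale] at h1 h2
    obtain ⟨w, hw, hlen⟩ := h1 hx hy
    have hd1 := eg_db_pos hδ'
    have hd2 := eg_db_pos (eg_dl_pos hδ j)
    have hlen' : (w.length : ℝ) ≤ 6 * Real.log n ^ 3 / db (dl δ₀ j) := by
      refine hlen.trans ?_
      rw [div_le_div_iff₀ hd1 hd2]
      nlinarith
    refine ⟨w, hw, hlen'.trans ?_, hmark j hj x y w hw hlen'⟩
    exact div_le_div_of_nonneg_right (by linarith) hd2.le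

theorem eg_union {A B : Set (Env n)} {a b : ℝ} (ha : 0 ≤ a) (hb : 0 ≤ b)
    (hA : mu n A ≤ ENNReal.ofReal a) (hB : mu n B ≤ ENNReal.ofReal b) :
    mu n (A ∪ B) ≤ ENNReal.ofReal (a + b) := by
  rw [ENNReal.ofReal_add ha hb]
  exact (measure_union_le A B).trans (add_le_add hA hB)

theorem eg_biUnion {A : ℕ → Set (Env n)} {a : ℝ} (k : ℕ)
    (hA : ∀ j < k, mu n (A j) ≤ ENNReal.ofReal a) :
    mu n (⋃ j ∈ Finset.range k, A j) ≤ ENNReal.ofReal (k * a) := by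
  refine (measure_biUnion_finset_le _ _).trans ?_
  refine (Finset.sum_le_sum fun j hj => hA j (Finset.mem_range.1 hj)).trans ?_
  rw [Finset.sum_const, Finset.card_range, nsmul_eq_mul,
    ENNReal.ofReal_mul (Nat.cast_nonneg _), ENNReal.ofReal_natCast]

theorem eg_num {n J : ℕ} {L η : ℝ} (hL : 80 ≤ L) (hn : 1 ≤ (n : ℝ)) (hLn : L ≤ n) (hη : 0 < η)
    (hLη : 50 / η ≤ L) (hJ : (J : ℝ) ≤ 3 * L) :
    ((J + 1 : ℕ) : ℝ) * (5 / L ^ 4) + (((J + 1 : ℕ) : ℝ) * (1 / L ^ 4) +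
      (((J + 1 : ℕ) : ℝ) * (1 / (n : ℝ) ^ 2) + (1 / L ^ 4 + (2 / (n : ℝ) ^ 4 +
        (1 / (n : ℝ) ^ 2 + (1 / (n : ℝ) ^ 5 + (1 / (n : ℝ) ^ 5 + 1 / (n : ℝ) ^ 2))))))) ≤ η := by
  have hL0 : 0 < L := by linarith
  have hL1 : 1 ≤ L := by linarith
  have hJ1 : ((J + 1 : ℕ) : ℝ) ≤ 4 * L := by push_cast; linarith
  have i1 : 1 / L ≤ η / 50 := by
    rw [div_le_iff₀ hL0, ← mul_div_right_comm, le_div_iff₀ (by norm_num)]
    rw [div_le_iff₀ hη] at hLη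
    linarith
  have i2 : 1 / L ^ 4 ≤ 1 / L ^ 2 :=
    one_div_le_one_div_of_le (by positivity) (pow_le_pow_right₀ hL1 (by norm_num))
  have i3 : 1 / (n : ℝ) ^ 2 ≤ 1 / L ^ 2 :=
    one_div_le_one_div_of_le (by positivity) (pow_le_pow_left₀ hL0.le hLn 2)
  have i4 : 1 / (n : ℝ) ^ 4 ≤ 1 / (n : ℝ) ^ 2 :=
    one_div_le_one_div_of_le (by positivity) (pow_le_pow_right₀ hn (by norm_num))
  have i5 : 1 / (n : ℝ) ^ 5 ≤ 1 / (n : ℝ) ^ 2 :=
    one_div_le_one_div_of_le (by positivity) (pow_le_pow_right₀ hn (by norm_num))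
  have i6 : 4 * L * (1 / L ^ 2) = 4 * (1 / L) := by field_simp
  have i7 : 1 / L ^ 2 ≤ 1 / L := by
    refine one_div_le_one_div_of_le hL0 ?_
    calc L = L ^ 1 := (pow_one L).symm
      _ ≤ L ^ 2 := pow_le_pow_right₀ hL1 (by norm_num)
  have j0 : (0 : ℝ) ≤ ((J + 1 : ℕ) : ℝ) := Nat.cast_nonneg _
  have k0 : 0 ≤ 1 / L ^ 2 := by positivity
  have k1 : ((J + 1 : ℕ) : ℝ) * (1 / L ^ 2) ≤ 4 * L * (1 / L ^ 2) :=
    mul_le_mul_of_nonneg_right hJ1 k0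
  have k2 : ((J + 1 : ℕ) : ℝ) * (1 / L ^ 4) ≤ ((J + 1 : ℕ) : ℝ) * (1 / L ^ 2) :=
    mul_le_mul_of_nonneg_left i2 j0
  have k3 : ((J + 1 : ℕ) : ℝ) * (1 / (n : ℝ) ^ 2) ≤ ((J + 1 : ℕ) : ℝ) * (1 / L ^ 2) :=
    mul_le_mul_of_nonneg_left i3 j0
  have k4 : ((J + 1 : ℕ) : ℝ) * (5 / L ^ 4) = 5 * (((J + 1 : ℕ) : ℝ) * (1 / L ^ 4)) := by ring
  have k5 : 2 / (n : ℝ) ^ 4 = 2 * (1 / (n : ℝ) ^ 4) := by ring
  rw [k4, k5]
  linarith

/-- **Good environment**. Union bound: `pair_ok` (with `c/2`, for the `J+1 ≤ 3 log n + 1` levels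
`dl (δ₀*(5/6)) j`, each fails with probability `≤ 5/log^4 n`), `giant_low` at `δ₀`, `giant_upp` at the
levels `dl δ₀ j`, `not_conn` at `dl δ₀ J`, `sub_path`, `sub_comp`, `marks_cnt`, `deg_small`, and
`marks_conn` at the levels `dl δ₀ j` with `Q₁ = 6 log³ n`, `W = 2 n log n/β`
(`W ≤ B δ₀ ≤ B dl δ₀ j` if `δ₀ < 1`; if `δ₀ ≥ 1` then `dl δ₀ j ≥ 1` and nothing is needed; if
`β = 0` the value `2 log n/β` is `0`). `K = 10` is enough (for `n` large depending on `B, A₂`). -/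
theorem er_good (c B A₂ : ℝ) (hc : 0 < c) (hc1 : c ≤ 1 / 3) (hB : 1 ≤ B) (hA : 0 < A₂) :
    ∀ η : ℝ, 0 < η → ∃ n₀ : ℕ, ∀ n ≥ n₀, ∀ (β δ₀ : ℝ) (J jX : ℕ), 0 ≤ β →
      (n : ℝ) ^ (-(1 / 3 : ℝ) + c) ≤ δ₀ → 12 * Real.log n ≤ dl δ₀ J →
      dl δ₀ J ≤ A₂ * Real.log n → (δ₀ < 1 → 0 < β ∧ 2 * Real.log n * n ≤ B * δ₀ * β) →
      jX ≤ J → dl δ₀ jX ≤ B * δ₀ →
      mu n {ω | ¬ GoodEnv β δ₀ (Real.log n ^ 10) J jX ω} ≤ ENNReal.ofReal η := by
  intro η hη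
  obtain ⟨N1, hN1⟩ := pair_ok (c / 2) A₂ (by positivity) (by linarith) hA
  obtain ⟨N2, hN2⟩ := giant_low c A₂ hc hc1 hA
  obtain ⟨N3, hN3⟩ := giant_upp c A₂ hc hc1
  obtain ⟨N4, hN4⟩ := levels_le c A₂ hc hA
  -- the asymptotic conditions
  have e1 : ∀ᶠ x : ℝ in atTop, 60 * B + 20 + 20 * A₂ + 50 / η ≤ Real.log x :=
    Real.tendsto_log_atTop.eventually_ge_atTop _
  have e2 : ∀ᶠ x : ℝ in atTop, 1 + A₂ * Real.log x ≤ x := by
    have h2 := Real.isLittleO_log_id_atTop.bound (c := 1 / (2 * A₂)) (by positivity)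
    filter_upwards [h2, eventually_ge_atTop 2] with x hx hx1
    rw [Real.norm_of_nonneg (Real.log_nonneg (by linarith)), Real.norm_of_nonneg
      (by simp only [id]; linarith)] at hx
    have h3 : A₂ * Real.log x ≤ A₂ * (1 / (2 * A₂) * x) := mul_le_mul_of_nonneg_left hx hA.le
    have h4 : A₂ * (1 / (2 * A₂) * x) = x / 2 := by field_simp
    linarith
  have e3 : ∀ᶠ x : ℝ in atTop, 6 / 5 ≤ x ^ (c / 2) :=
    (tendsto_rpow_atTop (by positivity)).eventually_ge_atTop _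
  obtain ⟨N5, hN5⟩ := eventually_atTop.1 (tendsto_natCast_atTop_atTop.eventually
    (e1.and (e2.and e3)))
  refine ⟨N1 + N2 + N3 + N4 + N5 + 3, ?_⟩
  intro n hn β δ₀ J jX hβ hδn hJ1 hJ2 hWδ hjX hjX2
  obtain ⟨f1, f2, f3⟩ := hN5 n (by omega)
  have hn3 : 3 ≤ n := by omega
  have hnpos : (0 : ℝ) < n := by exact_mod_cast (by omega : 0 < n)
  have hn1 : (1 : ℝ) ≤ n := by exact_mod_cast (by omega : 1 ≤ n)
  have hηi : 0 < 50 / η := by positivity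
  obtain ⟨L, hLd⟩ : ∃ L, L = Real.log n := ⟨_, rfl⟩
  rw [← hLd] at f1 f2
  rw [← hLd]
  have hL80 : 80 ≤ L := by linarith
  have hL1 : 1 ≤ L := by linarith
  have hL0 : 0 < L := by linarith
  have hLn : L ≤ n := by rw [hLd]; exact (Real.log_le_sub_one_of_pos hnpos).trans (by linarith)
  have hL2 : L ^ 2 ≤ L ^ 10 := pow_le_pow_right₀ hL1 (by norm_num)
  have hL4 : L ^ 4 ≤ L ^ 10 := pow_le_pow_right₀ hL1 (by norm_num)
  have hL5 : L ^ 5 ≤ L ^ 10 := pow_le_pow_right₀ hL1 (by norm_num)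
  have hL13 : L ≤ L ^ 3 := by
    calc L = L ^ 1 := (pow_one L).symm
      _ ≤ L ^ 3 := pow_le_pow_right₀ hL1 (by norm_num)
  have hL3pos : 1 ≤ L ^ 3 := one_le_pow₀ hL1
  have hδ0 : 0 < δ₀ := lt_of_lt_of_le (Real.rpow_pos_of_pos hnpos _) hδn
  have hdlJ : ∀ j ≤ J, dl δ₀ j ≤ A₂ * L := fun j hj =>
    (eg_dl_mono hδ0 hj).trans (by rw [hLd]; exact hJ2)
  have hδA : δ₀ ≤ A₂ * L := by have := hdlJ 0 (Nat.zero_le _); rwa [eg_dl_zero] at this
  have hJ3 : (J : ℝ) ≤ 3 * L := by rw [hLd]; exact hN4 n (by omega) δ₀ J hδn hJ2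
  have hp1 : ∀ j ≤ J, (1 + dl δ₀ j) / n ≤ 1 := fun j hj => by
    rw [div_le_one hnpos]
    linarith [hdlJ j hj]
  have hδ1n : 1 / (n : ℝ) ≤ δ₀ := by
    refine le_trans ?_ hδn
    rw [one_div, ← Real.rpow_neg_one]
    exact Real.rpow_le_rpow_of_exponent_le hn1 (by linarith)
  -- the events
  have A1 : ∀ j < J + 1, mu n {ω | ¬ PairOK n (dl (δ₀ * (5 / 6)) j) ω} ≤
      ENNReal.ofReal (5 / L ^ 4) := by
    intro j hj
    rw [hLd]
    refine hN1 n (by omega) _ ⟨?_, ?_⟩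
    · have h1 : δ₀ * (5 / 6) ≤ dl (δ₀ * (5 / 6)) j := by
        have := eg_dl_mono (δ₀ := δ₀ * (5 / 6)) (by positivity) (Nat.zero_le j)
        rwa [eg_dl_zero] at this
      refine le_trans ?_ h1
      have h2 : (n : ℝ) ^ (-(1 / 3 : ℝ) + c) = (n : ℝ) ^ (-(1 / 3 : ℝ) + c / 2) *
          (n : ℝ) ^ (c / 2) := by
        rw [← Real.rpow_add hnpos]; congr 1; ring
      have h3 : 0 < (n : ℝ) ^ (-(1 / 3 : ℝ) + c / 2) := Real.rpow_pos_of_pos hnpos _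
      rw [h2] at hδn
      nlinarith
    · have h1 := eg_dl_scale δ₀ j
      have h2 := hdlJ j (by omega)
      have h3 : 0 < dl (δ₀ * (5 / 6)) j := eg_dl_pos (by positivity) j
      rw [← hLd]
      linarith
  have A2 : ∀ j < J + 1, mu n {ω | L ^ 5 * db (dl δ₀ j) * n <
      ((bigC (Gr ω ((1 + dl δ₀ j) / n)) (thr n (dl δ₀ j))).card : ℝ)} ≤
      ENNReal.ofReal (1 / L ^ 4) := by
    intro j hj
    rw [hLd]
    refine hN3 n (by omega) _ ⟨?_, ?_⟩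
    · refine hδn.trans ?_
      have := eg_dl_mono hδ0 (Nat.zero_le j)
      rwa [eg_dl_zero] at this
    · rw [← hLd]; exact hdlJ j (by omega)
  have hQm : 10 * B * (6 * L ^ 3) + 10 * Real.log n ≤ L ^ 10 := by
    rw [← hLd]
    have h1 : 10 * B * (6 * L ^ 3) + 10 * L ≤ (60 * B + 10) * L ^ 3 := by nlinarith
    have h2 : (60 * B + 10) * L ^ 3 ≤ L * L ^ 3 :=
      mul_le_mul_of_nonneg_right (by linarith) (by positivity)
    calc _ ≤ _ := h1
      _ ≤ _ := h2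
      _ = L ^ 4 := by ring
      _ ≤ _ := hL4
  have A3 : ∀ j < J + 1, mu n {ω | ¬ ∀ (u v : Fin n) (w : (Gr ω ((1 + dl δ₀ j) / n)).Walk u v),
      w.IsPath → (w.length : ℝ) ≤ 6 * L ^ 3 / db (dl δ₀ j) →
      (cntW ω ((1 + dl δ₀ j) / n - 2 * L * n / β / n) w : ℝ) ≤ L ^ 10} ≤
      ENNReal.ofReal (1 / (n : ℝ) ^ 2) := by
    intro j hj
    refine marks_conn hn3 (eg_dl_pos hδ0 j) (hp1 j (by omega)) hB ?_ ?_ ?_ hQm
    · linarith
    · positivity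
    · intro h1
      have h2 : δ₀ ≤ dl δ₀ j := by
        have := eg_dl_mono hδ0 (Nat.zero_le j)
        rwa [eg_dl_zero] at this
      obtain ⟨h3, h4⟩ := hWδ (lt_of_le_of_lt h2 h1)
      rw [← hLd] at h4
      rw [div_le_iff₀ h3]
      refine h4.trans ?_
      exact mul_le_mul_of_nonneg_right (mul_le_mul_of_nonneg_left h2 (by linarith)) hβ
  have A4 : mu n {ω | ¬ GLo n δ₀ ω} ≤ ENNReal.ofReal (1 / L ^ 4) := by
    rw [hLd]
    exact hN2 n (by omega) δ₀ ⟨hδn, by rw [← hLd]; exact hδA⟩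
  have A5 : mu n {ω | ¬ ∀ u v, (Gr ω (pl n δ₀ J)).Reachable u v} ≤
      ENNReal.ofReal (2 / (n : ℝ) ^ 4) := by
    refine not_conn ?_ (hp1 J le_rfl) ?_ (by omega)
    · have := eg_dl_pos hδ0 J
      unfold pl; positivity
    · unfold pl
      rw [mul_div_cancel₀ _ hnpos.ne']
      linarith
  have A6 : mu n {ω | ¬ ∀ x, ((Finset.univ.filter fun y =>
      (Gr ω (pl n δ₀ J)).Adj x y).card : ℝ) ≤ L ^ 10} ≤ ENNReal.ofReal (1 / (n : ℝ) ^ 2) := by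
    refine deg_small hn3 (A₂ := A₂) ?_ hA.le ?_ ?_ ?_ (hp1 J le_rfl)
    · have := eg_dl_pos hδ0 J
      unfold pl; positivity
    · unfold pl
      exact div_le_div_of_nonneg_right (by linarith) hnpos.le
    · rw [← hLd]
      refine le_trans ?_ hL2
      nlinarith
    · rw [← hLd]
      refine le_trans ?_ hL2
      nlinarith
  have A7 : mu n {ω | ¬ ∀ (u v : Fin n) (w : (Gr ω (pmin n δ₀)).Walk u v), w.IsPath →
      (w.length : ℝ) ≤ 20 * L / db δ₀} ≤ ENNReal.ofReal (1 / (n : ℝ) ^ 5) := by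
    rw [hLd]; exact sub_path hn3 hδ1n
  have A8 : mu n {ω | ¬ ∀ v, ((comp (Gr ω (pmin n δ₀)) v).card : ℝ) ≤ 20 * L / db δ₀ ^ 2} ≤
      ENNReal.ofReal (1 / (n : ℝ) ^ 5) := by
    rw [hLd]; exact sub_comp hn3 hδ1n
  have A9 : mu n {ω | ¬ ∀ (u v : Fin n) (w : (Gr ω ((1 + dl δ₀ jX) / n)).Walk u v), w.IsPath →
      (cntW ω (pmin n δ₀) w : ℝ) ≤ L ^ 10 * (db δ₀ * w.length + 1)} ≤
      ENNReal.ofReal (1 / (n : ℝ) ^ 2) := by
    refine marks_cnt hn3 hδ0 (eg_dl_pos hδ0 jX).le (hp1 jX hjX) hB hjX2 ?_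
    rw [← hLd]
    refine le_trans ?_ hL2
    nlinarith
  clear hN1 hN2 hN3 hN4 hN5
  have B1 := eg_biUnion (J + 1) A1
  have B2 := eg_biUnion (J + 1) A2
  have B3 := eg_biUnion (J + 1) A3
  have p4 : 0 ≤ 1 / L ^ 4 := by positivity
  have p5 : 0 ≤ 2 / (n : ℝ) ^ 4 := by positivity
  have p6 : 0 ≤ 1 / (n : ℝ) ^ 2 := by positivity
  have p7 : 0 ≤ 1 / (n : ℝ) ^ 5 := by positivity
  have pB1 : 0 ≤ ((J + 1 : ℕ) : ℝ) * (5 / L ^ 4) := by positivity
  have pB2 : 0 ≤ ((J + 1 : ℕ) : ℝ) * (1 / L ^ 4) := by positivity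
  have pB3 : 0 ≤ ((J + 1 : ℕ) : ℝ) * (1 / (n : ℝ) ^ 2) := by positivity
  have C8 := eg_union p7 p6 A8 A9
  have C7 := eg_union p7 (add_nonneg p7 p6) A7 C8
  have C6 := eg_union p6 (by linarith) A6 C7
  have C5 := eg_union p5 (by linarith) A5 C6
  have C4 := eg_union p4 (by linarith) A4 C5
  have C3 := eg_union pB3 (by linarith) B3 C4
  have C2 := eg_union pB2 (by linarith) B2 C3
  have C1 := eg_union pB1 (by linarith) B1 C2
  clear B1 B2 B3 A1 A2 A3 A4 A5 A6 A7 A8 A9 C2 C3 C4 C5 C6 C7 C8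
  refine (measure_mono ?_).trans (C1.trans (ENNReal.ofReal_le_ofReal ?_))
  · intro ω hω
    by_contra hn'
    simp only [Set.mem_union, not_or] at hn'
    obtain ⟨g1, g2, g3, g4, g5, g6, g7, g8, g9⟩ := hn'
    have hni : ∀ (F : ℕ → Set (Env n)), ω ∉ (⋃ j ∈ Finset.range (J + 1), F j) →
        ∀ j ≤ J, ω ∉ F j := by
      intro F hF j hj hωF
      exact hF (Set.mem_biUnion (Finset.mem_range.2 (by omega)) hωF)
    replace g1 := hni _ g1
    replace g2 := hni _ g2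
    replace g3 := hni _ g3
    replace g4 := not_not.1 g4
    replace g5 := not_not.1 g5
    replace g6 := not_not.1 g6
    replace g7 := not_not.1 g7
    replace g8 := not_not.1 g8
    replace g9 := not_not.1 g9
    apply hω
    refine good_of_pairs hn3 hδ0 hjX (by rw [← hLd]; exact hL1) ?_ (fun j hj => ?_) g4 g5 ?_
      (fun j hj => ?_) (fun j hj => ?_) g6 ?_ ?_ g9
    · rw [← hLd]
      calc 12 * L ^ 3 ≤ L * L ^ 3 := mul_le_mul_of_nonneg_right (by linarith) (by positivity)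
        _ = L ^ 4 := by ring
        _ ≤ _ := hL4
    · exact not_not.1 (g1 j hj)
    · unfold thr
      have h1 := eg_dl_pos hδ0 J
      rw [div_lt_iff₀ (by positivity), mul_comm]
      refine mul_lt_mul_of_pos_left ?_ hnpos
      nlinarith
    · have h1 := g2 j hj
      rw [Set.mem_ofPred_eq, not_lt] at h1
      refine h1.trans ?_
      have h2 := eg_db_pos (eg_dl_pos hδ0 j)
      exact mul_le_mul_of_nonneg_right (mul_le_mul_of_nonneg_right hL5 h2.le) hnpos.le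
    · have h1 := not_not.1 (g3 j hj)
      have h2 : (1 + dl δ₀ j) / n - 2 * L * n / β / n = pl n δ₀ j - 2 * Real.log n / β := by
        unfold pl
        rw [← hLd, div_right_comm, mul_div_cancel_right₀ _ hnpos.ne']
      rw [h2] at h1
      intro u v w hw hlen
      refine h1 u v w hw ?_
      rw [hLd]
      exact hlen
    · intro u v w hw
      refine (g7 u v w hw).trans ?_
      refine div_le_div_of_nonneg_right ?_ (eg_db_pos hδ0).le
      refine le_trans ?_ hL2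
      nlinarith
    · intro v
      refine (g8 v).trans ?_
      refine div_le_div_of_nonneg_right ?_ (sq_nonneg _)
      refine le_trans ?_ hL2
      nlinarith
  · exact eg_num hL80 hn1 hLn hη (by linarith) hJ3

end RST
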