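import Pool.Agent.Work.MP_5ba30e_pr.EngineL4

/-!
# Engine : from the moves to the height of typical vertices (`Eng` is in `EngineD`)
-/

open MeasureTheory Set Filter Finset
open scoped ENNReal Topology Classical

noncomputable section

namespace RST

variable {n : ℕ}

variable {β d Q θ pm pE : ℝ} {k ℓw : ℕ} {C0 CX : Env n → Finset (Fin n)}
  {A : (Fin k → Fin n) → Env n → SimpleGraph (Fin n) → Prop}






end RST
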