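import Pool.Agent.Work.MP_5ba30e_pr.Dnear

/-!
# Engine : from the moves to the height of typical vertices

`Eng` collects what is used: `C0 ⊆ CX` sets of vertices, `σ` a uniform tuple of `CX^k` (marks),
`A σ ω T` a good event, `d = min(δ₀, 1)`, all polylogarithmic factors are `≤ Q = n^a`.
-/

open MeasureTheory Set Filter Finset
open scoped ENNReal Topology Classical

noncomputable section

namespace RST

variable {n : ℕ}

structure Eng (β d Q θ pm pE : ℝ) (k ℓw : ℕ) (C0 CX : Env n → Finset (Fin n))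
    (A : (Fin k → Fin n) → Env n → SimpleGraph (Fin n) → Prop) : Prop where
  h0m : ∀ v, MeasurableSet {ω | v ∈ C0 ω}
  hXm : ∀ v, MeasurableSet {ω | v ∈ CX ω}
  hA : ∀ σ T, MeasurableSet {ω | A σ ω T}
  low : ∀ σ ω T, T.IsTree → A σ ω T → d * n / Q ≤ ((C0 ω).card : ℝ)
  upp : ∀ σ ω T, T.IsTree → A σ ω T → ((C0 ω).card : ℝ) ≤ Q * d * n
  dok : ∀ σ ω T (D0 : ℝ), T.IsTree → A σ ω T → (T.diam : ℝ) ≤ D0 →
    DOK β Q Q θ (Q * (d * D0 + 1)) Q pm pE ℓw (im σ) C0 CX ω T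
  near : ∀ σ ω T (D0 : ℝ), T.IsTree → A σ ω T → (T.diam : ℝ) ≤ D0 →
    ((Near T (im σ) pm ω).card : ℝ) ≤ Q * k * (d * D0 + 1) / d ^ 2
  hookV : E3V β k CX (fun σ v ω T => ind (A σ ω T) * (hook T (im σ) (C0 ω) v : ℝ≥0∞)) ≤
    ENNReal.ofReal (Q / d)
  hookX : E3X β k CX (fun σ z ω T => ind (A σ ω T) * (hook T (im σ) (C0 ω) z : ℝ≥0∞)) ≤
    ENNReal.ofReal (Q / d)
  relV : ∀ (s : ℕ) (b : ℝ), 0 ≤ b → E3V β k CX (fun σ v ω T => ind (A σ ω T ∧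
      s < hgt T (im σ) (dn T (im σ) v (hook T (im σ) (C0 ω) v)) ∧
      (((C0 ω).filter fun q => s < hgt T (im σ) q).card : ℝ) ≤ b)) ≤
    ENNReal.ofReal (Q * b / (d * n))
  relX : ∀ (s : ℕ) (b : ℝ), 0 ≤ b → E3X β k CX (fun σ z ω T => ind (A σ ω T ∧
      s < hgt T (im σ) (dn T (im σ) z (hook T (im σ) (C0 ω) z)) ∧
      (((C0 ω).filter fun q => s < hgt T (im σ) q).card : ℝ) ≤ b)) ≤
    ENNReal.ofReal (Q * b / (d * n))

variable {β d Q θ pm pE : ℝ} {k ℓw : ℕ} {C0 CX : Env n → Finset (Fin n)}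
  {A : (Fin k → Fin n) → Env n → SimpleGraph (Fin n) → Prop}

end RST
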