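import Pool.Agent.Work.MP_5ba30e_pr.Engine_L1

/-!
# Engine_eng_step : proof of `eng_step` (L3)
-/

open MeasureTheory Set Filter Finset
open scoped ENNReal Topology Classical

noncomputable section

namespace RST

variable {n : ℕ}

/-! ### tools for `E3` and `E3X` -/

theorem E3_mono {β : ℝ} {k : ℕ} {X : Env n → Finset (Fin n)}
    {F G : (Fin k → Fin n) → Env n → SimpleGraph (Fin n) → ℝ≥0∞}
    (h : ∀ σ ω T, T.IsTree → F σ ω T ≤ G σ ω T) : E3 β k X F ≤ E3 β k X G := by
  unfold E3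
  exact Finset.sum_le_sum fun σ _ => EE_mono fun ω T hT => mul_le_mul' (h σ ω T hT) le_rfl

theorem measurable_PsiX {X : Env n → Finset (Fin n)} (hX : ∀ v, MeasurableSet {ω | v ∈ X ω})
    {k : ℕ} (σ : Fin k → Fin n) : Measurable fun ω => PsiX k σ (X ω) :=
  meas_fin hX fun D => PsiX k σ D

theorem E3_add {β : ℝ} {k : ℕ} {X : Env n → Finset (Fin n)}
    (hX : ∀ v, MeasurableSet {ω | v ∈ X ω})
    {F G : (Fin k → Fin n) → Env n → SimpleGraph (Fin n) → ℝ≥0∞}
    (hF : ∀ σ T, Measurable fun ω => F σ ω T) :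
    E3 β k X (fun σ ω T => F σ ω T + G σ ω T) = E3 β k X F + E3 β k X G := by
  unfold E3
  rw [← Finset.sum_add_distrib]
  refine Finset.sum_congr rfl fun σ _ => ?_
  simp_rw [add_mul]
  exact EE_add fun T => (hF σ T).mul (measurable_PsiX hX σ)

theorem E3_const_mul {β : ℝ} {k : ℕ} {X : Env n → Finset (Fin n)} (c : ℝ≥0∞) (hc : c ≠ ∞)
    {F : (Fin k → Fin n) → Env n → SimpleGraph (Fin n) → ℝ≥0∞} :
    E3 β k X (fun σ ω T => c * F σ ω T) = c * E3 β k X F := by
  unfold E3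
  rw [Finset.mul_sum]
  refine Finset.sum_congr rfl fun σ _ => ?_
  rw [← EE_const_mul c hc]
  simp_rw [mul_assoc]

theorem measurable_PsiXX {X : Env n → Finset (Fin n)} (hX : ∀ v, MeasurableSet {ω | v ∈ X ω})
    {k : ℕ} (σ : Fin k → Fin n) (z : Fin n) :
    Measurable fun ω => PsiX k σ (X ω) * ind (z ∈ X ω) / (X ω).card :=
  meas_fin hX fun D => PsiX k σ D * ind (z ∈ D) / (D.card : ℝ≥0∞)

theorem E3X_add {β : ℝ} {k : ℕ} {X : Env n → Finset (Fin n)}
    (hX : ∀ v, MeasurableSet {ω | v ∈ X ω})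
    {F G : (Fin k → Fin n) → Fin n → Env n → SimpleGraph (Fin n) → ℝ≥0∞}
    (hF : ∀ σ z T, Measurable fun ω => F σ z ω T) :
    E3X β k X (fun σ z ω T => F σ z ω T + G σ z ω T) = E3X β k X F + E3X β k X G := by
  unfold E3X
  rw [← Finset.sum_add_distrib]
  refine Finset.sum_congr rfl fun z _ => ?_
  rw [← Finset.sum_add_distrib]
  refine Finset.sum_congr rfl fun σ _ => ?_
  simp_rw [add_mul]
  exact EE_add fun T => (hF σ z T).mul (measurable_PsiXX hX σ z)

theorem E3X_const_mul {β : ℝ} {k : ℕ} {X : Env n → Finset (Fin n)} (c : ℝ≥0∞) (hc : c ≠ ∞)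
    {F : (Fin k → Fin n) → Fin n → Env n → SimpleGraph (Fin n) → ℝ≥0∞} :
    E3X β k X (fun σ z ω T => c * F σ z ω T) = c * E3X β k X F := by
  unfold E3X
  rw [Finset.mul_sum]
  refine Finset.sum_congr rfl fun z _ => ?_
  rw [Finset.mul_sum]
  refine Finset.sum_congr rfl fun σ _ => ?_
  rw [← EE_const_mul c hc]
  simp_rw [mul_assoc]

/-- average over the vertices of `X` -/
theorem E3_avg {β : ℝ} {k : ℕ} {X : Env n → Finset (Fin n)}
    (hX : ∀ v, MeasurableSet {ω | v ∈ X ω})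
    {G : (Fin k → Fin n) → Fin n → Env n → SimpleGraph (Fin n) → ℝ≥0∞}
    (hG : ∀ σ z T, Measurable fun ω => G σ z ω T) :
    E3 β k X (fun σ ω T => ∑ z, G σ z ω T * (ind (z ∈ X ω) / (X ω).card)) = E3X β k X G := by
  unfold E3 E3X
  rw [Finset.sum_comm]
  refine Finset.sum_congr rfl fun σ _ => ?_
  have h1 : (fun (ω : Env n) (T : SimpleGraph (Fin n)) =>
      (∑ z, G σ z ω T * (ind (z ∈ X ω) / (X ω).card)) * PsiX k σ (X ω)) =
      fun ω T => ∑ z, G σ z ω T * (PsiX k σ (X ω) * ind (z ∈ X ω) / (X ω).card) := by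
    funext ω T
    rw [Finset.sum_mul]
    refine Finset.sum_congr rfl fun z _ => ?_
    simp only [div_eq_mul_inv]
    ring
  rw [h1]
  exact EE_sum _ fun z _ T => (hG σ z T).mul (measurable_PsiXX hX σ z)

variable {β d Q θ pm pE : ℝ} {k ℓw : ℕ} {C0 CX : Env n → Finset (Fin n)}
  {A : (Fin k → Fin n) → Env n → SimpleGraph (Fin n) → Prop}

theorem im_nonempty (hk1 : 1 ≤ k) (σ : Fin k → Fin n) : (im σ).Nonempty :=
  ⟨σ ⟨0, hk1⟩, Finset.mem_image_of_mem _ (Finset.mem_univ _)⟩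

theorem eng_step (he : Eng β d Q θ pm pE k ℓw C0 CX A) (hn : 1 ≤ n) (hd : 0 < d) (hd1 : d ≤ 1)
    (hQ : 1 ≤ Q) (hk1 : 1 ≤ k) (hθ : 0 ≤ θ) (hℓ : 1 ≤ ℓw) {D0 a' b b' : ℝ} (hD0 : 0 ≤ D0)
    (ha' : 0 < a') (hb : 0 < b) (hb' : 0 < b') {s hk : ℕ} (hhk : 1 ≤ hk) (hs : hk ≤ s / 4)
    (hsℓ : ℓw ≤ s / 4) (h1 : θ * Q ≤ b / (Q * d * n) / 4)
    (h2 : (Q + 2) ≤ b / (Q * d * n) * (d * n / Q) / 4) :
    E3 β k CX (fun σ ω T => ind (A σ ω T ∧ (T.diam : ℝ) ≤ D0 ∧
        b < (((C0 ω).filter fun q => s < hgt T (im σ) q).card : ℝ))) ≤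
      ENNReal.ofReal (4 * Q ^ 3 * (2 * (Q * (d * D0 + 1)) + 1) * (a' + θ) * ℓw /
        ((b / (Q * d * n)) ^ 2 * ((s / 4 : ℕ) : ℝ))) +
      ENNReal.ofReal (1 / a' * (Q / (d * hk) + Q * b' / (d * n))) +
      E3 β k CX (fun σ ω T => ind (A σ ω T ∧ (T.diam : ℝ) ≤ D0 ∧
        b' < (((C0 ω).filter fun q => s + s / 2 < hgt T (im σ) q).card : ℝ))) := by
  have hn0 : (0 : ℝ) < n := by exact_mod_cast hn
  have hQ0 : 0 < Q := by linarith
  have hhk0 : (0 : ℝ) < hk := by exact_mod_cast hhk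
  set a₁ : ℝ := b / (Q * d * n) with ha₁
  have ha₁0 : 0 < a₁ := by positivity
  set G : (Fin k → Fin n) → Fin n → Env n → SimpleGraph (Fin n) → ℝ≥0∞ := fun σ z ω T =>
    ENNReal.ofReal (1 / hk) * (ind (A σ ω T) * (hook T (im σ) (C0 ω) z : ℝ≥0∞)) +
      ind (A σ ω T ∧ s + s / 2 < hgt T (im σ) (dn T (im σ) z (hook T (im σ) (C0 ω) z)) ∧
      (((C0 ω).filter fun q => s + s / 2 < hgt T (im σ) q).card : ℝ) ≤ b') with hG
  have hAm : ∀ σ T, Measurable fun ω => (A σ ω T : Prop) := fun σ T =>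
    measurableSet_setOfPred.1 (he.hA σ T)
  have hG1 : ∀ σ z T, Measurable fun ω =>
      ENNReal.ofReal (1 / hk) * (ind (A σ ω T) * (hook T (im σ) (C0 ω) z : ℝ≥0∞)) := by
    intro σ z T
    exact measurable_const.mul ((measurable_ind (he.hA σ T)).mul
      (meas_fin he.h0m fun D => (hook T (im σ) D z : ℝ≥0∞)))
  have hG2 : ∀ σ z T, Measurable fun ω =>
      ind (A σ ω T ∧ s + s / 2 < hgt T (im σ) (dn T (im σ) z (hook T (im σ) (C0 ω) z)) ∧
      (((C0 ω).filter fun q => s + s / 2 < hgt T (im σ) q).card : ℝ) ≤ b') := by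
    intro σ z T
    apply measurable_ind
    apply measurableSet_setOfPred.2
    exact (hAm σ T).and ((meas_fin he.h0m fun D =>
      s + s / 2 < hgt T (im σ) (dn T (im σ) z (hook T (im σ) D z))).and
      (meas_fin he.h0m fun D =>
        ((D.filter fun q => s + s / 2 < hgt T (im σ) q).card : ℝ) ≤ b'))
  have hGm : ∀ σ z T, Measurable fun ω => G σ z ω T := fun σ z T =>
    (hG1 σ z T).add (hG2 σ z T)
  -- the three events
  set F1 : (Fin k → Fin n) → Env n → SimpleGraph (Fin n) → ℝ≥0∞ := fun σ ω T =>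
    ind ((A σ ω T ∧ (T.diam : ℝ) ≤ D0) ∧
        a₁ * (C0 ω).card ≤ (((C0 ω).filter fun x => s < hgt T (im σ) x).card : ℝ) ∧
        (((CX ω).filter fun z => 2 * s - s / 4 < hgt T (im σ) z).card : ℝ) ≤
          a' * (CX ω).card) with hF1
  set F2 : (Fin k → Fin n) → Env n → SimpleGraph (Fin n) → ℝ≥0∞ := fun σ ω T =>
    ENNReal.ofReal (1 / a') * ∑ z, G σ z ω T * (ind (z ∈ CX ω) / (CX ω).card) with hF2
  have hF1m : ∀ σ T, Measurable fun ω => F1 σ ω T := by
    intro σ T
    apply measurable_ind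
    apply measurableSet_setOfPred.2
    exact ((hAm σ T).and measurable_const).and ((meas_fin he.h0m fun D =>
      a₁ * (D.card : ℝ) ≤ ((D.filter fun x => s < hgt T (im σ) x).card : ℝ)).and
      (meas_fin he.hXm fun D => ((D.filter fun z => 2 * s - s / 4 < hgt T (im σ) z).card : ℝ) ≤
        a' * (D.card : ℝ)))
  have hF2m : ∀ σ T, Measurable fun ω => F2 σ ω T := by
    intro σ T
    refine measurable_const.mul ?_
    refine Finset.measurable_sum _ fun z _ => (hGm σ z T).mul ?_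
    exact meas_fin he.hXm fun D => ind (z ∈ D) / (D.card : ℝ≥0∞)
  have hpt : ∀ σ ω T, T.IsTree → ind (A σ ω T ∧ (T.diam : ℝ) ≤ D0 ∧
        b < (((C0 ω).filter fun q => s < hgt T (im σ) q).card : ℝ)) ≤
      F1 σ ω T + F2 σ ω T + ind (A σ ω T ∧ (T.diam : ℝ) ≤ D0 ∧
        b' < (((C0 ω).filter fun q => s + s / 2 < hgt T (im σ) q).card : ℝ)) := by
    intro σ ω T hT
    have hS := im_nonempty hk1 σ
    by_cases hE : A σ ω T ∧ (T.diam : ℝ) ≤ D0 ∧
        b < (((C0 ω).filter fun q => s < hgt T (im σ) q).card : ℝ)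
    swap
    · simp [ind, hE]
    obtain ⟨hA, hdi, hbq⟩ := hE
    refine (ind_le_one _).trans ?_
    by_cases h3 : b' < (((C0 ω).filter fun q => s + s / 2 < hgt T (im σ) q).card : ℝ)
    · refine le_trans ?_ le_add_self
      simp [ind, hA, hdi, h3]
    by_cases h4 : (((CX ω).filter fun z => 2 * s - s / 4 < hgt T (im σ) z).card : ℝ) ≤
          a' * (CX ω).card
    · refine le_trans ?_ (le_self_add.trans le_self_add)
      have h5 : a₁ * (C0 ω).card ≤ (((C0 ω).filter fun x => s < hgt T (im σ) x).card : ℝ) := by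
        refine le_trans ?_ hbq.le
        have h6 := he.upp σ ω T hT hA
        calc a₁ * (C0 ω).card ≤ a₁ * (Q * d * n) := by gcongr
          _ = b := by
            rw [ha₁]
            field_simp
      simp only [hF1, ind]
      rw [if_pos ⟨⟨hA, hdi⟩, h5, h4⟩]
    · refine le_trans ?_ (le_add_self.trans le_self_add)
      push Not at h3 h4
      have hcX : (0 : ℝ) < (CX ω).card := by
        rcases Nat.eq_zero_or_pos (CX ω).card with h0 | h0
        · rw [Finset.card_eq_zero] at h0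
          rw [h0] at h4
          simp at h4
        · exact_mod_cast h0
      have hz : ∀ z, 2 * s - s / 4 < hgt T (im σ) z → 1 ≤ G σ z ω T := by
        intro z hz
        by_cases h5 : hk ≤ hook T (im σ) (C0 ω) z
        · refine le_trans ?_ le_self_add
          have h6 : ind (A σ ω T) = 1 := by simp [ind, hA]
          rw [h6, one_mul, ← ENNReal.ofReal_natCast, ← ENNReal.ofReal_mul (by positivity)]
          rw [← ENNReal.ofReal_one]
          apply ENNReal.ofReal_le_ofReal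
          rw [one_div, inv_mul_eq_div, le_div_iff₀ hhk0, one_mul]
          exact_mod_cast h5
        · refine le_trans ?_ le_add_self
          push Not at h5
          have h6 : s + s / 2 < hgt T (im σ) (dn T (im σ) z (hook T (im σ) (C0 ω) z)) := by
            rw [hgt_dn hT hS (hook_le_hgt _)]
            omega
          simp only [ind]
          rw [if_pos ⟨hA, h6, h3⟩]
      have hsum : ENNReal.ofReal a' ≤ ∑ z, G σ z ω T * (ind (z ∈ CX ω) / (CX ω).card) := by
        calc ENNReal.ofReal a' ≤ ENNReal.ofReal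
              ((((CX ω).filter fun z => 2 * s - s / 4 < hgt T (im σ) z).card : ℝ) /
                (CX ω).card) := by
              apply ENNReal.ofReal_le_ofReal
              rw [le_div_iff₀ hcX]
              exact h4.le
          _ = ∑ z ∈ (CX ω).filter fun z => 2 * s - s / 4 < hgt T (im σ) z,
                1 / ((CX ω).card : ℝ≥0∞) := by
              rw [Finset.sum_const, nsmul_eq_mul, ENNReal.ofReal_div_of_pos hcX,
                ENNReal.ofReal_natCast, ENNReal.ofReal_natCast, mul_one_div]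
          _ ≤ ∑ z ∈ (CX ω).filter fun z => 2 * s - s / 4 < hgt T (im σ) z,
                G σ z ω T * (ind (z ∈ CX ω) / (CX ω).card) := by
              refine Finset.sum_le_sum fun z hz' => ?_
              rw [Finset.mem_filter] at hz'
              have h5 : ind (z ∈ CX ω) = 1 := by simp [ind, hz'.1]
              rw [h5]
              calc 1 / ((CX ω).card : ℝ≥0∞) = 1 * (1 / ((CX ω).card : ℝ≥0∞)) := by rw [one_mul]
                _ ≤ _ := mul_le_mul' (hz z hz'.2) le_rfl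
          _ ≤ _ := Finset.sum_le_sum_of_subset (Finset.subset_univ _)
      simp only [hF2]
      calc (1 : ℝ≥0∞) = ENNReal.ofReal (1 / a') * ENNReal.ofReal a' := by
            rw [← ENNReal.ofReal_mul (by positivity), one_div, inv_mul_cancel₀ ha'.ne',
              ENNReal.ofReal_one]
        _ ≤ _ := mul_le_mul' le_rfl hsum
  refine (E3_mono hpt).trans ?_
  rw [E3_add he.hXm (F := fun σ ω T => F1 σ ω T + F2 σ ω T)
    (fun σ T => (hF1m σ T).add (hF2m σ T)), E3_add he.hXm hF1m]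
  refine add_le_add (add_le_add ?_ ?_) le_rfl
  · -- DL
    have hDL : ∀ σ : Fin k → Fin n, EE β (fun ω T => F1 σ ω T * PsiX k σ (CX ω)) ≤
        ENNReal.ofReal (4 * Q * Q ^ 2 * (2 * (Q * (d * D0 + 1)) + 1) * (a' + θ) * ℓw /
          (a₁ ^ 2 * ((s / 4 : ℕ) : ℝ))) * EE β (fun ω _ => PsiX k σ (CX ω)) := by
      intro σ
      have hWm : 0 ≤ Q * (d * D0 + 1) := by positivity
      refine DL hn (M := Q) (pm := pm) (pE := pE) (Δ := Q) hQ0.le hQ hθ hWm hℓ (im_nonempty hk1 σ) he.h0m he.hXm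
        (fun ω T => A σ ω T ∧ (T.diam : ℝ) ≤ D0) ?_ ?_ ha₁0 ha'.le hsℓ ?_ ?_ ?_ (PsiX k σ)
      · intro T
        exact measurableSet_setOfPred.2 ((hAm σ T).and measurable_const)
      · exact fun ω T hT hh => he.dok σ ω T D0 hT hh.1 hh.2
      · omega
      · omega
      · intro ω T hT hh
        have h5 := he.low σ ω T hT hh.1
        have hD := he.dok σ ω T D0 hT hh.1 hh.2
        have h6 : (0 : ℝ) < (C0 ω).card := lt_of_lt_of_le (by positivity) h5
        refine ⟨by exact_mod_cast h6, ?_⟩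
        have h7 : θ * (CX ω).card ≤ a₁ / 4 * (C0 ω).card := by
          calc θ * (CX ω).card ≤ θ * (Q * (C0 ω).card) := by
                exact mul_le_mul_of_nonneg_left hD.card hθ
            _ = θ * Q * (C0 ω).card := by ring
            _ ≤ a₁ / 4 * (C0 ω).card := by gcongr
        have h8 : Q + 2 ≤ a₁ / 4 * (C0 ω).card := by
          calc Q + 2 ≤ a₁ * (d * n / Q) / 4 := h2
            _ = a₁ / 4 * (d * n / Q) := by ring
            _ ≤ _ := by gcongr
        calc θ * (CX ω).card + Q + 2 = θ * (CX ω).card + (Q + 2) := by ring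
          _ ≤ a₁ / 4 * (C0 ω).card + a₁ / 4 * (C0 ω).card := add_le_add h7 h8
          _ = _ := by ring
    calc E3 β k CX F1 = ∑ σ : Fin k → Fin n, EE β (fun ω T => F1 σ ω T * PsiX k σ (CX ω)) := rfl
      _ ≤ ∑ σ : Fin k → Fin n, ENNReal.ofReal (4 * Q * Q ^ 2 * (2 * (Q * (d * D0 + 1)) + 1) *
            (a' + θ) * ℓw / (a₁ ^ 2 * ((s / 4 : ℕ) : ℝ))) *
            EE β (fun ω _ => PsiX k σ (CX ω)) := Finset.sum_le_sum fun σ _ => hDL σ
      _ = ENNReal.ofReal (4 * Q * Q ^ 2 * (2 * (Q * (d * D0 + 1)) + 1) *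
            (a' + θ) * ℓw / (a₁ ^ 2 * ((s / 4 : ℕ) : ℝ))) *
            ∑ σ : Fin k → Fin n, EE β (fun ω _ => PsiX k σ (CX ω)) := by rw [Finset.mul_sum]
      _ ≤ ENNReal.ofReal (4 * Q * Q ^ 2 * (2 * (Q * (d * D0 + 1)) + 1) *
            (a' + θ) * ℓw / (a₁ ^ 2 * ((s / 4 : ℕ) : ℝ))) * 1 :=
          mul_le_mul' le_rfl (sum_EE_PsiX hn β hk1 he.hXm)
      _ = _ := by
          rw [mul_one]
          congr 1
          ring
  · -- hook and rel
    have h5 : E3 β k CX F2 = ENNReal.ofReal (1 / a') * E3X β k CX G := by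
      rw [← E3_avg he.hXm hGm, ← E3_const_mul _ ENNReal.ofReal_ne_top]
    rw [h5, hG, E3X_add he.hXm hG1, E3X_const_mul _ ENNReal.ofReal_ne_top]
    have h6 := he.hookX
    have h7 := he.relX (s + s / 2) b' hb'.le
    calc _ ≤ ENNReal.ofReal (1 / a') * (ENNReal.ofReal (1 / hk) * ENNReal.ofReal (Q / d) +
          ENNReal.ofReal (Q * b' / (d * n))) :=
          mul_le_mul' le_rfl (add_le_add (mul_le_mul' le_rfl h6) h7)
      _ = _ := by
          rw [← ENNReal.ofReal_mul (by positivity), ← ENNReal.ofReal_add (by positivity)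
            (by positivity), ← ENNReal.ofReal_mul (by positivity)]
          congr 1
          field_simp

end RST
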