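import Pool.Agent.Work.MP_5ba30e_pr.Engine_L2
import Pool.Agent.Work.MP_5ba30e_pr.Engine_eng_step

/-!
# EngineL4 : iteration of the steps and final asymptotics
-/

open MeasureTheory Set Filter Finset
open scoped ENNReal Topology Classical

noncomputable section

namespace RST

variable {n : ℕ}

variable {β d Q θ pm pE : ℝ} {k ℓw : ℕ} {C0 CX : Env n → Finset (Fin n)}
  {A : (Fin k → Fin n) → Env n → SimpleGraph (Fin n) → Prop}

/-- one step with all the factors simplified -/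
theorem engL4_step (he : Eng β d Q θ pm pE k ℓw C0 CX A) (hn : 1 ≤ n) (hd : 0 < d) (hd1 : d ≤ 1)
    (hQ : 3 ≤ Q) (hk1 : 1 ≤ k) {K g l D0 : ℝ} (hl : 0 < l) (hg : 1 ≤ g)
    (hθ : θ = Q / K) (hK : 4 * g ^ 2 * Q ^ 12 ≤ K) (hdn : K ≤ d * n) (hℓ : 1 ≤ ℓw)
    (hℓ2 : (ℓw : ℝ) ≤ 2 * Q / d) (hD0 : 1 ≤ d * D0) {s hk : ℕ} (hhk : K ≤ d * hk)
    (hs : hk ≤ s / 4) (hsℓ : ℓw ≤ s / 4) (hsl : l * D0 / 32 ≤ s) (hs8 : 8 ≤ s) :
    E3 β k CX (fun σ ω T => ind (A σ ω T ∧ (T.diam : ℝ) ≤ D0 ∧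
        d * n / g < (((C0 ω).filter fun q => s < hgt T (im σ) q).card : ℝ))) ≤
      ENNReal.ofReal ((20480 / l + 2) / Q ^ 2) +
      E3 β k CX (fun σ ω T => ind (A σ ω T ∧ (T.diam : ℝ) ≤ D0 ∧
        d * n / (g ^ 2 * Q ^ 12) <
          (((C0 ω).filter fun q => s + s / 2 < hgt T (im σ) q).card : ℝ))) := by
  have hn0 : (0 : ℝ) < n := by exact_mod_cast hn
  have hQ0 : 0 < Q := by linarith
  have hQ1 : 1 ≤ Q := by linarith
  have hg0 : 0 < g := by linarith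
  have hK0 : 0 < K := lt_of_lt_of_le (by positivity) hK
  have hdn0 : 0 < d * n := by positivity
  have hD00 : 0 < D0 := by
    by_contra h
    push Not at h
    nlinarith
  have hhk1 : 1 ≤ hk := by
    rcases Nat.eq_zero_or_pos hk with h | h
    · subst h; simp at hhk; linarith
    · exact h
  have hg2 : 1 ≤ g ^ 2 := one_le_pow₀ hg
  have hQ9 : (3 : ℝ) ≤ Q ^ 9 := by
    calc (3 : ℝ) ≤ Q := hQ
      _ = Q ^ 1 := (pow_one Q).symm
      _ ≤ Q ^ 9 := pow_le_pow_right₀ hQ1 (by norm_num)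
  -- `12 g Q³ ≤ K`
  have hK3 : 12 * g * Q ^ 3 ≤ K := by
    refine le_trans ?_ hK
    have h1 : g ≤ g ^ 2 := by nlinarith
    have h2 : 3 * Q ^ 3 ≤ Q ^ 12 := by
      have : Q ^ 12 = Q ^ 9 * Q ^ 3 := by ring
      rw [this]
      exact mul_le_mul_of_nonneg_right hQ9 (by positivity)
    calc 12 * g * Q ^ 3 = 4 * g * (3 * Q ^ 3) := by ring
      _ ≤ 4 * g ^ 2 * Q ^ 12 := by
        apply mul_le_mul _ h2 (by positivity) (by positivity)
        linarith
  have hbQ : d * n / g / (Q * d * n) = 1 / (g * Q) := by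
    field_simp
  have hstep := eng_step he hn hd hd1 hQ1 hk1 (by rw [hθ]; positivity) hℓ (D0 := D0)
    (a' := 1 / (g ^ 2 * Q ^ 9)) (b := d * n / g) (b' := d * n / (g ^ 2 * Q ^ 12)) hD00.le
    (by positivity) (by positivity) (by positivity) (s := s) (hk := hk) hhk1 hs hsℓ
    (by
      rw [hbQ, hθ]
      have : Q / K * Q = Q ^ 2 / K := by ring
      rw [this, div_div, div_le_div_iff₀ hK0 (by positivity)]
      have h3 : Q ^ 2 * (g * Q * 4) = 4 * g * Q ^ 3 := by ring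
      rw [h3, one_mul]
      nlinarith [mul_nonneg hg0.le (pow_nonneg hQ0.le 3)])
    (by
      rw [hbQ]
      have : 1 / (g * Q) * (d * n / Q) / 4 = d * n / (4 * g * Q ^ 2) := by
        field_simp
      rw [this, le_div_iff₀ (by positivity)]
      have h3 : (Q + 2) * (4 * g * Q ^ 2) ≤ 12 * g * Q ^ 3 := by
        have : (0 : ℝ) ≤ g * Q ^ 2 := by positivity
        nlinarith
      linarith)
  have hθ0 : 0 ≤ θ := by rw [hθ]; positivity
  refine hstep.trans (add_le_add_left ?_ _)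
  rw [← ENNReal.ofReal_add (by positivity) (by positivity)]
  apply ENNReal.ofReal_le_ofReal
  rw [hbQ]
  -- first term
  have hs4 : l * D0 / 256 ≤ ((s / 4 : ℕ) : ℝ) := by
    have h1 : (s : ℝ) / 8 ≤ ((s / 4 : ℕ) : ℝ) := by
      have h2 : s ≤ 8 * (s / 4) := by omega
      have h3 : (s : ℝ) ≤ 8 * ((s / 4 : ℕ) : ℝ) := by exact_mod_cast h2
      linarith
    linarith
  have hθa : θ ≤ 1 / (g ^ 2 * Q ^ 9) := by
    rw [hθ, div_le_div_iff₀ hK0 (by positivity)]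
    have h1 : Q * (g ^ 2 * Q ^ 9) ≤ 4 * g ^ 2 * Q ^ 12 := by
      have h2 : Q * (g ^ 2 * Q ^ 9) = g ^ 2 * Q ^ 10 := by ring
      rw [h2]
      have h3 : Q ^ 10 ≤ Q ^ 12 := pow_le_pow_right₀ hQ1 (by norm_num)
      nlinarith [mul_le_mul_of_nonneg_left h3 (by positivity : (0:ℝ) ≤ g ^ 2),
        pow_nonneg hQ0.le 12]
    linarith
  have hT1 : 4 * Q ^ 3 * (2 * (Q * (d * D0 + 1)) + 1) * (1 / (g ^ 2 * Q ^ 9) + θ) * ℓw /
        ((1 / (g * Q)) ^ 2 * ((s / 4 : ℕ) : ℝ)) ≤ 20480 / l / Q ^ 2 := by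
    have hX : 4 * Q ^ 3 * (2 * (Q * (d * D0 + 1)) + 1) * (1 / (g ^ 2 * Q ^ 9) + θ) * ℓw ≤
        4 * Q ^ 3 * (5 * Q * (d * D0)) * (2 * (1 / (g ^ 2 * Q ^ 9))) * (2 * Q / d) := by
      have hθ0 : 0 ≤ θ := by rw [hθ]; positivity
      gcongr
      · nlinarith [mul_nonneg hd.le hD00.le, mul_le_mul_of_nonneg_left hD0 hQ0.le]
      · linarith
    have hY : (1 / (g * Q)) ^ 2 * (l * D0 / 256) ≤ (1 / (g * Q)) ^ 2 * ((s / 4 : ℕ) : ℝ) := by
      gcongr
    calc _ ≤ (4 * Q ^ 3 * (5 * Q * (d * D0)) * (2 * (1 / (g ^ 2 * Q ^ 9))) * (2 * Q / d)) /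
          ((1 / (g * Q)) ^ 2 * (l * D0 / 256)) := by
          apply div_le_div₀ (by positivity) hX (by positivity) hY
      _ = 20480 / l / Q ^ 2 := by
          field_simp
          ring
  have hT2 : 1 / (1 / (g ^ 2 * Q ^ 9)) * (Q / (d * hk) + Q * (d * n / (g ^ 2 * Q ^ 12)) / (d * n)) ≤
      2 / Q ^ 2 := by
    have h1 : Q / (d * hk) ≤ Q / K := div_le_div_of_nonneg_left hQ0.le hK0 hhk
    have h2 : Q * (d * n / (g ^ 2 * Q ^ 12)) / (d * n) = 1 / (g ^ 2 * Q ^ 11) := by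
      field_simp
    have h3 : Q / K ≤ 1 / (g ^ 2 * Q ^ 11) := by
      rw [div_le_div_iff₀ hK0 (by positivity)]
      have : Q * (g ^ 2 * Q ^ 11) = g ^ 2 * Q ^ 12 := by ring
      rw [this]
      nlinarith [mul_nonneg (by positivity : (0:ℝ) ≤ g ^ 2) (pow_nonneg hQ0.le 12)]
    rw [h2, one_div_one_div]
    calc g ^ 2 * Q ^ 9 * (Q / (d * hk) + 1 / (g ^ 2 * Q ^ 11)) ≤
        g ^ 2 * Q ^ 9 * (1 / (g ^ 2 * Q ^ 11) + 1 / (g ^ 2 * Q ^ 11)) := by
          exact mul_le_mul_of_nonneg_left (add_le_add (h1.trans h3) le_rfl) (by positivity)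
      _ = 2 / Q ^ 2 := by field_simp; ring
  calc _ ≤ 20480 / l / Q ^ 2 + 2 / Q ^ 2 := add_le_add hT1 hT2
    _ = _ := by ring

/-- the heights -/
def engL4s (s0 : ℕ) : ℕ → ℕ
  | 0 => s0
  | i + 1 => engL4s s0 i + engL4s s0 i / 2

/-- the exponents -/
def engL4e : ℕ → ℕ
  | 0 => 3
  | i + 1 => 2 * engL4e i + 12

theorem engL4e_le (i : ℕ) : engL4e i + 12 = 15 * 2 ^ i := by
  induction i with
  | zero => rfl
  | succ i ih => rw [engL4e, pow_succ]; omega

theorem engL4s_mono (s0 i : ℕ) : s0 ≤ engL4s s0 i := by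
  induction i with
  | zero => exact le_rfl
  | succ i ih => rw [engL4s]; omega

theorem engL4s_ge {s0 : ℕ} (h : 5 ≤ s0) (i : ℕ) :
    (7 / 5 : ℝ) ^ i * s0 ≤ engL4s s0 i := by
  induction i with
  | zero => simp [engL4s]
  | succ i ih =>
    have h1 := engL4s_mono s0 i
    have h2 : 7 * engL4s s0 i ≤ 5 * engL4s s0 (i + 1) := by
      rw [engL4s]; omega
    have h3 : (7 : ℝ) * engL4s s0 i ≤ 5 * engL4s s0 (i + 1) := by exact_mod_cast h2
    rw [pow_succ]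
    nlinarith

theorem engL4_iter (he : Eng β d Q θ pm pE k ℓw C0 CX A) (hn : 1 ≤ n) (hd : 0 < d) (hd1 : d ≤ 1)
    (hQ : 3 ≤ Q) (hk1 : 1 ≤ k) {K l D0 : ℝ} {R : ℕ} (hl : 0 < l)
    (hθ : θ = Q / K) (hK : 4 * Q ^ (15 * 2 ^ R) ≤ K) (hdn : K ≤ d * n) (hℓ : 1 ≤ ℓw)
    (hℓ2 : (ℓw : ℝ) ≤ 2 * Q / d) (hD0 : 1 ≤ d * D0) {s0 hk : ℕ} (hhk : K ≤ d * hk)
    (hs : hk ≤ s0 / 4) (hsℓ : ℓw ≤ s0 / 4) (hsl : l * D0 / 32 ≤ s0) (hs8 : 8 ≤ s0)
    (hR : 32 / l ≤ (7 / 5 : ℝ) ^ R) :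
    ∀ j i, i + j = R → E3 β k CX (fun σ ω T => ind (A σ ω T ∧ (T.diam : ℝ) ≤ D0 ∧
        d * n / Q ^ engL4e i <
          (((C0 ω).filter fun q => engL4s s0 i < hgt T (im σ) q).card : ℝ))) ≤
      j * ENNReal.ofReal ((20480 / l + 2) / Q ^ 2) := by
  have hQ1 : 1 ≤ Q := by linarith
  have hQ0 : 0 < Q := by linarith
  have hn0 : (0 : ℝ) < n := by exact_mod_cast hn
  intro j
  induction j with
  | zero =>
    intro i hi
    have hi' : i = R := by omega
    subst hi'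
    rw [Nat.cast_zero, zero_mul]
    refine le_of_eq ?_
    unfold E3
    refine Finset.sum_eq_zero fun σ _ => ?_
    refine le_antisymm ((EE_mono (G := fun _ _ => 0) ?_).trans (by simp [EE])) zero_le
    intro ω T hT
    have : ¬ (A σ ω T ∧ (T.diam : ℝ) ≤ D0 ∧ d * n / Q ^ engL4e i <
          (((C0 ω).filter fun q => engL4s s0 i < hgt T (im σ) q).card : ℝ)) := by
      rintro ⟨-, h1, h2⟩
      have hne : (im σ).Nonempty := ⟨σ ⟨0, hk1⟩, Finset.mem_image_of_mem σ (Finset.mem_univ _)⟩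
      have hempty : ((C0 ω).filter fun q => engL4s s0 i < hgt T (im σ) q) = ∅ := by
        refine Finset.filter_eq_empty_iff.2 fun q _ hq => ?_
        have h3 : (hgt T (im σ) q : ℝ) ≤ T.diam := by exact_mod_cast hgt_le_diam hT hne
        have h4 : (engL4s s0 i : ℝ) < hgt T (im σ) q := by exact_mod_cast hq
        have h5 := engL4s_ge (s0 := s0) (by omega) i
        have h6 : D0 ≤ (7 / 5 : ℝ) ^ i * s0 := by
          calc D0 = 32 / l * (l * D0 / 32) := by field_simp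
            _ ≤ (7 / 5 : ℝ) ^ i * s0 := by
              apply mul_le_mul hR hsl _ (by positivity)
              have : 0 < D0 := by
                by_contra h
                push Not at h
                nlinarith
              positivity
        linarith
      rw [hempty, Finset.card_empty, Nat.cast_zero] at h2
      have : (0 : ℝ) < d * n / Q ^ engL4e i := by positivity
      linarith
    simp only [ind, if_neg this, zero_mul, le_refl]
  | succ j ih =>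
    intro i hi
    have hstep := engL4_step he hn hd hd1 hQ hk1 (K := K) (g := Q ^ engL4e i) (l := l) (D0 := D0)
      hl (one_le_pow₀ hQ1) hθ (by
        refine le_trans ?_ hK
        rw [mul_assoc, ← pow_mul, ← pow_add]
        have h1 : engL4e i * 2 + 12 ≤ 15 * 2 ^ R := by
          have h2 := engL4e_le (i + 1)
          have h3 : 2 ^ (i + 1) ≤ 2 ^ R := Nat.pow_le_pow_right (by norm_num) (by omega)
          rw [engL4e] at h2
          omega
        have := pow_le_pow_right₀ hQ1 h1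
        linarith) hdn hℓ hℓ2 hD0 (s := engL4s s0 i) (hk := hk) hhk
      (hs.trans (Nat.div_le_div_right (engL4s_mono s0 i)))
      (hsℓ.trans (Nat.div_le_div_right (engL4s_mono s0 i)))
      (hsl.trans (by exact_mod_cast engL4s_mono s0 i)) (hs8.trans (engL4s_mono s0 i))
    refine hstep.trans ?_
    have h2 : (Q ^ engL4e i) ^ 2 * Q ^ 12 = Q ^ engL4e (i + 1) := by
      rw [← pow_mul, ← pow_add, engL4e, mul_comm]
    rw [h2]
    have h3 := ih (i + 1) (by omega)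
    rw [engL4s] at h3
    refine (add_le_add le_rfl h3).trans (le_of_eq ?_)
    push_cast
    ring

/-- one dyadic scale -/
theorem engL4_scale (he : Eng β d Q θ pm pE k ℓw C0 CX A) (hn : 1 ≤ n) (hd : 0 < d) (hd1 : d ≤ 1)
    (hQ : 3 ≤ Q) (hk1 : 1 ≤ k) {K l D0 : ℝ} {R : ℕ} (hl : 0 < l) (hl1 : l ≤ 1)
    (hθ : θ = Q / K) (hK : 4 * Q ^ (15 * 2 ^ R) ≤ K) (hdn : K ≤ d * n) (hℓ : 1 ≤ ℓw)
    (hℓ2 : (ℓw : ℝ) ≤ 2 * Q / d) (hD0 : K ^ 2 ≤ d * D0) (hKl : 1024 ≤ K * l)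
    (hR : 32 / l ≤ (7 / 5 : ℝ) ^ R) :
    E3V β k CX (fun σ v ω T => ind (A σ ω T ∧ D0 / 2 < T.diam ∧ (T.diam : ℝ) ≤ D0 ∧
        l * T.diam / 4 < hgt T (im σ) v)) ≤
      (R + 1 : ℕ) * ENNReal.ofReal ((20480 / l + 2) / Q ^ 2) := by
  have hQ1 : 1 ≤ Q := by linarith
  have hQ0 : 0 < Q := by linarith
  have hn0 : (0 : ℝ) < n := by exact_mod_cast hn
  have hKQ : 4 * Q ^ 15 ≤ K := by
    refine le_trans ?_ hK
    have : Q ^ 15 ≤ Q ^ (15 * 2 ^ R) := pow_le_pow_right₀ hQ1 (by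
      have : 1 ≤ 2 ^ R := Nat.one_le_two_pow
      omega)
    linarith
  have hQ15 : 1 ≤ Q ^ 15 := one_le_pow₀ hQ1
  have hK1 : 1 ≤ K := by linarith
  have hK0 : 0 < K := by linarith
  have hD00 : 0 < D0 := by
    by_contra h
    push Not at h
    nlinarith [mul_pos hK0 hK0]
  have hdD1 : 1 ≤ d * D0 := by nlinarith
  -- `K²/d ≤ D0`, so `1024 K/d ≤ l D0`
  have hlD : 1024 * (K / d) ≤ l * D0 := by
    rw [← mul_div_assoc, div_le_iff₀ hd]
    nlinarith [mul_nonneg hl.le hD00.le]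
  have hKd : 1 ≤ K / d := by rw [le_div_iff₀ hd]; linarith
  set hk : ℕ := ⌈K / d⌉₊ with hhk
  have hk_ge : K / d ≤ hk := Nat.le_ceil _
  have hk_le : (hk : ℝ) ≤ 2 * (K / d) := by
    have := Nat.ceil_lt_add_one (by positivity : 0 ≤ K / d)
    linarith
  set s0 : ℕ := ⌊l * D0 / 16⌋₊ with hs0
  have hs0_le : (s0 : ℝ) ≤ l * D0 / 16 := Nat.floor_le (by positivity)
  have hs0_ge : l * D0 / 16 - 1 < s0 := by
    have := Nat.lt_floor_add_one (l * D0 / 16)
    linarith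
  have hs0_ge2 : l * D0 / 32 ≤ s0 := by linarith
  have hs0_8 : (32 : ℝ) * (K / d) ≤ s0 := by linarith
  have hstart := eng_start he hn hd hQ1 hk1 (l := l) (D0 := D0) (b := d * n / Q ^ 3) hl hD00
    (by positivity) (s₀ := s0) (hk := hk) (by
      have : (1 : ℝ) ≤ hk := hKd.trans hk_ge
      exact_mod_cast this) (by linarith)
  have hiter := engL4_iter he hn hd hd1 hQ hk1 (K := K) (l := l) (D0 := D0) (R := R) hl hθ hK hdn hℓ
    hℓ2 hdD1 (s0 := s0) (hk := hk) (by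
      rw [div_le_iff₀ hd] at hk_ge
      linarith) (by
      rw [Nat.le_div_iff_mul_le (by norm_num)]
      have : (hk : ℝ) * 4 ≤ s0 := by linarith
      exact_mod_cast this) (by
      rw [Nat.le_div_iff_mul_le (by norm_num)]
      have h1 : Q ≤ K := by
        calc Q = Q ^ 1 := (pow_one Q).symm
          _ ≤ Q ^ 15 := pow_le_pow_right₀ hQ1 (by norm_num)
          _ ≤ K := by linarith
      have h2 : 2 * Q / d ≤ 2 * (K / d) := by
        rw [← mul_div_assoc]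
        gcongr
      have : (ℓw : ℝ) * 4 ≤ s0 := by linarith
      exact_mod_cast this) hs0_ge2 (by
      have : (8 : ℝ) ≤ s0 := by linarith
      exact_mod_cast this) hR R 0 (by omega)
  refine hstart.trans ?_
  have h3 : engL4e 0 = 3 := rfl
  have h4 : engL4s s0 0 = s0 := rfl
  rw [h3, h4] at hiter
  refine (add_le_add le_rfl hiter).trans ?_
  have h5 : ENNReal.ofReal (Q / (d * hk)) + ENNReal.ofReal (Q * (d * n / Q ^ 3) / (d * n)) ≤
      ENNReal.ofReal ((20480 / l + 2) / Q ^ 2) := by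
    rw [← ENNReal.ofReal_add (by positivity) (by positivity)]
    apply ENNReal.ofReal_le_ofReal
    have h6 : Q * (d * n / Q ^ 3) / (d * n) = 1 / Q ^ 2 := by field_simp
    have h7 : Q / (d * hk) ≤ 1 / Q ^ 2 := by
      have hdk : K ≤ d * hk := by
        rw [div_le_iff₀ hd] at hk_ge
        linarith
      calc Q / (d * hk) ≤ Q / K := div_le_div_of_nonneg_left hQ0.le hK0 hdk
        _ ≤ 1 / Q ^ 2 := by
          rw [div_le_div_iff₀ hK0 (by positivity)]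
          have : Q * Q ^ 2 = Q ^ 3 := by ring
          rw [this, one_mul]
          have : Q ^ 3 ≤ Q ^ 15 := pow_le_pow_right₀ hQ1 (by norm_num)
          linarith
    rw [h6]
    have h8 : (0 : ℝ) ≤ 20480 / l / Q ^ 2 := by positivity
    have h9 : (20480 / l + 2) / Q ^ 2 = 20480 / l / Q ^ 2 + 2 / Q ^ 2 := by ring
    have h10 : 2 / Q ^ 2 = 1 / Q ^ 2 + 1 / Q ^ 2 := by ring
    rw [h9, h10]
    linarith
  refine (add_le_add h5 le_rfl).trans (le_of_eq ?_)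
  push_cast
  ring

theorem diam_lt {T : SimpleGraph (Fin n)} (hT : T.IsTree) : T.diam < n := by
  have hne : Nonempty (Fin n) := hT.connected.nonempty
  obtain ⟨u, v, huv⟩ := T.exists_dist_eq_diam
  obtain ⟨p, hp, hpl⟩ := hT.connected.exists_path_of_dist u v
  rw [← huv, ← hpl]
  have := hp.length_lt
  simpa using this

theorem meas_ind_PsiX (hXm : ∀ v, MeasurableSet {ω | v ∈ CX ω})
    (hA : ∀ σ T, MeasurableSet {ω | A σ ω T}) (σ : Fin k → Fin n) (T : SimpleGraph (Fin n))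
    (P : Prop) : Measurable fun ω => ind (A σ ω T ∧ P) * (PsiX k σ (CX ω) / n) := by
  refine (measurable_ind ?_).mul (meas_fin hXm fun X => PsiX k σ X / n)
  by_cases hP : P
  · have : {ω | A σ ω T ∧ P} = {ω | A σ ω T} := by ext ω; simp [hP]
    rw [this]; exact hA σ T
  · have : {ω | A σ ω T ∧ P} = ∅ := by ext ω; simp [hP]
    rw [this]; exact MeasurableSet.empty

theorem engL4_cover (hXm : ∀ v, MeasurableSet {ω | v ∈ CX ω})
    (hA : ∀ σ T, MeasurableSet {ω | A σ ω T}) (hn : 1 ≤ n) {l Ds : ℝ} (hDs : 1 ≤ Ds)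
    {M : ℕ} (hM : n ≤ 2 ^ M) (B : ℝ≥0∞)
    (hB : ∀ m : ℕ, Ds ≤ 2 ^ m → E3V β k CX (fun σ v ω T => ind (A σ ω T ∧
      (2 : ℝ) ^ m / 2 < T.diam ∧ (T.diam : ℝ) ≤ 2 ^ m ∧ l * T.diam / 4 < hgt T (im σ) v)) ≤ B) :
    E3V β k CX (fun σ v ω T => ind (A σ ω T ∧ l * T.diam / 4 < hgt T (im σ) v)) ≤
      E3 β k CX (fun σ ω T => ind (A σ ω T ∧ (T.diam : ℝ) ≤ Ds)) + (M + 1 : ℕ) * B := by
  have hnn : (n : ℝ≥0∞) ≠ 0 := by
    have : n ≠ 0 := by omega
    exact_mod_cast this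
  have hnt : (n : ℝ≥0∞) ≠ ⊤ := ENNReal.natCast_ne_top n
  let G : ℕ → (Fin k → Fin n) → Fin n → Env n → SimpleGraph (Fin n) → ℝ≥0∞ :=
    fun m σ v ω T => if Ds ≤ (2 : ℝ) ^ m then ind (A σ ω T ∧
      ((2 : ℝ) ^ m / 2 < T.diam ∧ (T.diam : ℝ) ≤ 2 ^ m ∧ l * T.diam / 4 < hgt T (im σ) v)) else 0
  have hpt : ∀ σ v ω T, T.IsTree → ind (A σ ω T ∧ l * T.diam / 4 < hgt T (im σ) v) ≤
      ind (A σ ω T ∧ (T.diam : ℝ) ≤ Ds) + ∑ m ∈ Finset.range (M + 1), G m σ v ω T := by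
    intro σ v ω T hT
    by_cases h : A σ ω T ∧ l * T.diam / 4 < hgt T (im σ) v
    swap
    · rw [ind, if_neg h]; exact zero_le
    by_cases hd : (T.diam : ℝ) ≤ Ds
    · have h1 : ind (A σ ω T ∧ (T.diam : ℝ) ≤ Ds) = 1 := by rw [ind, if_pos ⟨h.1, hd⟩]
      rw [h1]
      exact (ind_le_one _).trans le_self_add
    · push Not at hd
      have hex : ∃ m, T.diam ≤ 2 ^ m := ⟨M, (diam_lt hT).le.trans hM⟩
      set m := Nat.find hex with hm
      have hm1 : T.diam ≤ 2 ^ m := Nat.find_spec hex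
      have hmM : m ≤ M := Nat.find_min' hex ((diam_lt hT).le.trans hM)
      have hm1' : (T.diam : ℝ) ≤ 2 ^ m := by exact_mod_cast hm1
      have hDm : Ds ≤ (2 : ℝ) ^ m := (hd.trans_le hm1').le
      have hm0 : m ≠ 0 := by
        intro h0
        rw [h0, pow_zero] at hm1'
        linarith
      obtain ⟨m', hm'⟩ := Nat.exists_eq_succ_of_ne_zero hm0
      have hlt : 2 ^ m' < T.diam := by
        by_contra hcon
        push Not at hcon
        exact absurd (Nat.find_min' hex hcon) (by omega)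
      have hlt' : (2 : ℝ) ^ m / 2 < T.diam := by
        rw [hm', pow_succ, mul_div_cancel_right₀ _ (by norm_num : (2 : ℝ) ≠ 0)]
        exact_mod_cast hlt
      have hG : G m σ v ω T = 1 := by
        simp only [G]
        rw [if_pos hDm, ind, if_pos ⟨h.1, hlt', hm1', h.2⟩]
      have hsum : G m σ v ω T ≤ ∑ m ∈ Finset.range (M + 1), G m σ v ω T :=
        Finset.single_le_sum (f := fun m => G m σ v ω T) (fun _ _ => zero_le)
          (Finset.mem_range.2 (by omega))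
      calc ind (A σ ω T ∧ l * T.diam / 4 < hgt T (im σ) v) ≤ 1 := ind_le_one _
        _ = G m σ v ω T := hG.symm
        _ ≤ _ := hsum
        _ ≤ _ := le_add_self
  have hGm : ∀ m σ v (T : SimpleGraph (Fin n)),
      Measurable fun ω => G m σ v ω T * (PsiX k σ (CX ω) / n) := by
    intro m σ v T
    by_cases hm : Ds ≤ (2 : ℝ) ^ m
    · simp only [G, if_pos hm]
      exact meas_ind_PsiX hXm hA σ T _
    · simp only [G, if_neg hm, zero_mul]
      exact measurable_const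
  have h1 : ∀ v σ, EE β (fun ω T => ind (A σ ω T ∧ l * T.diam / 4 < hgt T (im σ) v) *
      (PsiX k σ (CX ω) / n)) ≤
      EE β (fun ω T => ind (A σ ω T ∧ (T.diam : ℝ) ≤ Ds) * (PsiX k σ (CX ω) / n)) +
        ∑ m ∈ Finset.range (M + 1), EE β (fun ω T => G m σ v ω T * (PsiX k σ (CX ω) / n)) := by
    intro v σ
    rw [← EE_sum (Finset.range (M + 1)) (F := fun m ω T => G m σ v ω T * (PsiX k σ (CX ω) / n))
      fun m _ T => hGm m σ v T]
    rw [← EE_add (F := fun ω T => ind (A σ ω T ∧ (T.diam : ℝ) ≤ Ds) * (PsiX k σ (CX ω) / n))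
      fun T => meas_ind_PsiX hXm hA σ T _]
    refine EE_mono fun ω T hT => ?_
    rw [← Finset.sum_mul, ← add_mul]
    exact mul_le_mul' (hpt σ v ω T hT) le_rfl
  have h2 : ∀ m, E3V β k CX (G m) ≤ B := by
    intro m
    by_cases hm : Ds ≤ (2 : ℝ) ^ m
    · simp only [G, if_pos hm]
      exact hB m hm
    · simp only [G, if_neg hm]
      refine le_trans (le_of_eq ?_) (zero_le (a := B))
      simp [E3V, EE]
  calc E3V β k CX (fun σ v ω T => ind (A σ ω T ∧ l * T.diam / 4 < hgt T (im σ) v)) ≤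
      ∑ v : Fin n, ∑ σ : Fin k → Fin n,
        (EE β (fun ω T => ind (A σ ω T ∧ (T.diam : ℝ) ≤ Ds) * (PsiX k σ (CX ω) / n)) +
        ∑ m ∈ Finset.range (M + 1), EE β (fun ω T => G m σ v ω T * (PsiX k σ (CX ω) / n))) :=
        Finset.sum_le_sum fun v _ => Finset.sum_le_sum fun σ _ => h1 v σ
    _ = ∑ v : Fin n, ∑ σ : Fin k → Fin n,
        EE β (fun ω T => ind (A σ ω T ∧ (T.diam : ℝ) ≤ Ds) * (PsiX k σ (CX ω) / n)) +
        ∑ m ∈ Finset.range (M + 1), E3V β k CX (G m) := by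
        simp only [Finset.sum_add_distrib]
        congr 1
        unfold E3V
        rw [Finset.sum_comm (s := Finset.range (M + 1))]
        exact Finset.sum_congr rfl fun v _ => Finset.sum_comm
    _ ≤ E3 β k CX (fun σ ω T => ind (A σ ω T ∧ (T.diam : ℝ) ≤ Ds)) +
        ∑ m ∈ Finset.range (M + 1), B := by
        refine add_le_add (le_of_eq ?_) (Finset.sum_le_sum fun m _ => h2 m)
        unfold E3
        rw [Finset.sum_comm]
        refine Finset.sum_congr rfl fun σ _ => ?_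
        rw [Finset.sum_const, Finset.card_univ, Fintype.card_fin, nsmul_eq_mul]
        have h3 : EE β (fun ω T => ind (A σ ω T ∧ (T.diam : ℝ) ≤ Ds) * (PsiX k σ (CX ω) / n)) =
            (n : ℝ≥0∞)⁻¹ * EE β (fun ω T => ind (A σ ω T ∧ (T.diam : ℝ) ≤ Ds) *
              PsiX k σ (CX ω)) := by
          rw [← EE_const_mul _ (ENNReal.inv_ne_top.2 hnn)]
          congr 1
          funext ω T
          rw [div_eq_mul_inv]
          ring
        rw [h3, ← mul_assoc, ENNReal.mul_inv_cancel hnn hnt, one_mul]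
    _ = _ := by rw [Finset.sum_const, Finset.card_range, nsmul_eq_mul]

/-- all scales together -/
theorem engL4_all (he : Eng β d Q θ pm pE k ℓw C0 CX A) (hn : 1 ≤ n) (hd : 0 < d) (hd1 : d ≤ 1)
    (hQ : 3 ≤ Q) (hk1 : 1 ≤ k) {K l : ℝ} {R M : ℕ} (hl : 0 < l) (hl1 : l ≤ 1)
    (hθ : θ = Q / K) (hK : 4 * Q ^ (15 * 2 ^ R) ≤ K) (hdn : K ^ 6 ≤ d ^ 3 * n) (hℓ : 1 ≤ ℓw)
    (hℓ2 : (ℓw : ℝ) ≤ 2 * Q / d) (hkK : (k : ℝ) ≤ 2 * K) (hKl : 1024 ≤ K * l)
    (hR : 32 / l ≤ (7 / 5 : ℝ) ^ R) (hM : n ≤ 2 ^ M)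
    (hMQ : ((M + 1 : ℕ) : ℝ) * ((R + 1 : ℕ) : ℝ) * (20480 / l + 2) ≤ Q / 2) :
    E3V β k CX (fun σ v ω T => ind (A σ ω T ∧ l * T.diam / 4 < hgt T (im σ) v)) ≤
      ENNReal.ofReal (1 / Q) := by
  have hQ1 : 1 ≤ Q := by linarith
  have hQ0 : 0 < Q := by linarith
  have hn0 : (0 : ℝ) < n := by exact_mod_cast hn
  have hKQ : 4 * Q ^ 15 ≤ K := by
    refine le_trans ?_ hK
    have : Q ^ 15 ≤ Q ^ (15 * 2 ^ R) := pow_le_pow_right₀ hQ1 (by
      have : 1 ≤ 2 ^ R := Nat.one_le_two_pow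
      omega)
    linarith
  have hQ15 : 1 ≤ Q ^ 15 := one_le_pow₀ hQ1
  have hK1 : 1 ≤ K := by linarith
  have hK0 : 0 < K := by linarith
  have hd3 : d ^ 3 * n ≤ d * n := by
    have : d ^ 3 ≤ d := by
      calc d ^ 3 ≤ d ^ 1 := pow_le_pow_of_le_one hd.le hd1 (by norm_num)
        _ = d := pow_one d
    exact mul_le_mul_of_nonneg_right this hn0.le
  have hKK : K ≤ K ^ 6 := by
    calc K = K ^ 1 := (pow_one K).symm
      _ ≤ K ^ 6 := pow_le_pow_right₀ hK1 (by norm_num)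
  have hdn1 : K ≤ d * n := hKK.trans (hdn.trans hd3)
  have hQ7 : 160 * Q ^ 7 ≤ K := by
    have h1 : (40 : ℝ) ≤ Q ^ 8 := by
      calc (40 : ℝ) ≤ 3 ^ 8 := by norm_num
        _ ≤ Q ^ 8 := pow_le_pow_left₀ (by norm_num) hQ 8
    have h2 : 40 * Q ^ 7 ≤ Q ^ 8 * Q ^ 7 := mul_le_mul_of_nonneg_right h1 (by positivity)
    have h3 : Q ^ 8 * Q ^ 7 = Q ^ 15 := by ring
    rw [h3] at h2
    linarith
  have hQ2 : 16 * Q ^ 2 ≤ K := by
    have : Q ^ 2 ≤ Q ^ 7 := pow_le_pow_right₀ hQ1 (by norm_num)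
    nlinarith [pow_nonneg hQ0.le 7]
  have hDs : 1 ≤ K ^ 2 / d := by
    rw [le_div_iff₀ hd]
    nlinarith
  have hdD : d * (K ^ 2 / d) = K ^ 2 := by field_simp
  have hK21 : 1 ≤ K ^ 2 := one_le_pow₀ hK1
  have hsmall : E3 β k CX (fun σ ω T => ind (A σ ω T ∧ (T.diam : ℝ) ≤ K ^ 2 / d)) ≤
      ENNReal.ofReal (1 / (2 * Q)) := by
    refine (eng_T6 he hn hd hd1 hQ1 hk1 (by rw [hθ]; positivity) ?_ ?_ (D0 := K ^ 2 / d)
      (by positivity) ?_).trans (ENNReal.ofReal_le_ofReal ?_)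
    · rw [hθ, div_mul_eq_mul_div, div_le_iff₀ hK0]
      nlinarith
    · have : 4 * (Q + 2) * Q ≤ 12 * Q ^ 2 := by nlinarith
      nlinarith
    · rw [hdD]
      refine le_trans ?_ hdn
      calc 2 * Q ^ 2 * k * (K ^ 2 + 1) ≤ 2 * Q ^ 2 * (2 * K) * (2 * K ^ 2) := by
            gcongr
            linarith
        _ = 8 * Q ^ 2 * K ^ 3 := by ring
        _ ≤ K * K ^ 3 := by
            apply mul_le_mul_of_nonneg_right _ (by positivity)
            linarith [pow_nonneg hQ0.le 2]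
        _ = K ^ 4 := by ring
        _ ≤ K ^ 6 := pow_le_pow_right₀ hK1 (by norm_num)
    · rw [hdD]
      calc 4 * Q ^ 3 * (2 * (Q * (K ^ 2 + 1)) + 1) * (Q * k * (K ^ 2 + 1) / d ^ 2) / (d * n / Q)
          ≤ 4 * Q ^ 3 * (5 * Q * K ^ 2) * (Q * (2 * K) * (2 * K ^ 2) / d ^ 2) / (d * n / Q) := by
            gcongr
            · nlinarith
            · linarith
        _ = 80 * Q ^ 6 * K ^ 5 / (d ^ 3 * n) := by
            field_simp
            ring
        _ ≤ 80 * Q ^ 6 * K ^ 5 / K ^ 6 := by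
            apply div_le_div_of_nonneg_left (by positivity) (by positivity) hdn
        _ = 80 * Q ^ 6 / K := by
            field_simp
        _ ≤ 1 / (2 * Q) := by
            rw [div_le_div_iff₀ hK0 (by positivity)]
            nlinarith
  have hcov := engL4_cover (β := β) (k := k) (CX := CX) (A := A) he.hXm he.hA hn (l := l)
    (Ds := K ^ 2 / d) hDs hM ((R + 1 : ℕ) * ENNReal.ofReal ((20480 / l + 2) / Q ^ 2))
    (fun m hm => engL4_scale he hn hd hd1 hQ hk1 hl hl1 hθ hK hdn1 hℓ hℓ2 (by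
      rw [div_le_iff₀ hd] at hm
      linarith) hKl hR)
  refine hcov.trans ?_
  refine (add_le_add hsmall le_rfl).trans ?_
  have h1 : ((M + 1 : ℕ) : ℝ≥0∞) * (((R + 1 : ℕ) : ℝ≥0∞) *
      ENNReal.ofReal ((20480 / l + 2) / Q ^ 2)) =
      ENNReal.ofReal (((M + 1 : ℕ) : ℝ) * (((R + 1 : ℕ) : ℝ) * ((20480 / l + 2) / Q ^ 2))) := by
    rw [ENNReal.ofReal_mul (by positivity), ENNReal.ofReal_mul (by positivity),
      ENNReal.ofReal_natCast, ENNReal.ofReal_natCast]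
  rw [h1, ← ENNReal.ofReal_add (by positivity) (by positivity)]
  apply ENNReal.ofReal_le_ofReal
  have h2 : ((M + 1 : ℕ) : ℝ) * (((R + 1 : ℕ) : ℝ) * ((20480 / l + 2) / Q ^ 2)) =
      ((M + 1 : ℕ) : ℝ) * ((R + 1 : ℕ) : ℝ) * (20480 / l + 2) / Q ^ 2 := by ring
  rw [h2]
  have h3 : ((M + 1 : ℕ) : ℝ) * ((R + 1 : ℕ) : ℝ) * (20480 / l + 2) / Q ^ 2 ≤ Q / 2 / Q ^ 2 := by
    gcongr
  have h4 : Q / 2 / Q ^ 2 = 1 / (2 * Q) := by field_simp
  have h5 : 1 / Q = 1 / (2 * Q) + 1 / (2 * Q) := by field_simp; norm_num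
  rw [h5]
  linarith

theorem engine (c l : ℝ) (hc : 0 < c) (hc1 : c ≤ 1 / 3) (hl : 0 < l) (hl1 : l ≤ 1) :
    ∃ a > 0, a ≤ c / 16 ∧ ∃ n₀ : ℕ, ∀ n ≥ n₀, ∀ (β d pm pE : ℝ) (ℓw : ℕ)
      (C0 CX : Env n → Finset (Fin n))
      (A : (Fin ⌈(n : ℝ) ^ (c / 2)⌉₊ → Fin n) → Env n → SimpleGraph (Fin n) → Prop),
      (n : ℝ) ^ (-(1 / 3 : ℝ) + c) ≤ d → d ≤ 1 → 1 ≤ ℓw → (ℓw : ℝ) ≤ 2 * (n : ℝ) ^ a / d →
      Eng β d ((n : ℝ) ^ a) ((n : ℝ) ^ (-(c / 2) + a)) pm pE ⌈(n : ℝ) ^ (c / 2)⌉₊ ℓw C0 CX A →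
      E3V β ⌈(n : ℝ) ^ (c / 2)⌉₊ CX (fun σ v ω T => ind (A σ ω T ∧
        l * T.diam / 4 < hgt T (im σ) v)) ≤ ENNReal.ofReal ((n : ℝ) ^ (-a)) := by
  obtain ⟨R, hR⟩ := pow_unbounded_of_one_lt (32 / l) (by norm_num : (1 : ℝ) < 7 / 5)
  set a : ℝ := c / (120 * 2 ^ R) with ha
  have h2R : (1 : ℝ) ≤ 2 ^ R := one_le_pow₀ (by norm_num)
  have ha0 : 0 < a := by positivity
  have hac : a ≤ c / 16 := by
    apply div_le_div_of_nonneg_left hc.le (by norm_num)
    linarith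
  have haP : a * (15 * 2 ^ R) = c / 8 := by
    rw [ha]; field_simp; norm_num
  refine ⟨a, ha0, hac, ?_⟩
  -- conditions for large `n`
  have hT : Tendsto (fun n : ℕ => (n : ℝ)) atTop atTop := tendsto_natCast_atTop_atTop
  have e1 : ∀ᶠ n : ℕ in atTop, (3 : ℝ) ≤ (n : ℝ) ^ a :=
    ((tendsto_rpow_atTop ha0).comp hT).eventually_ge_atTop 3
  have e2 : ∀ᶠ n : ℕ in atTop, (4 : ℝ) ≤ (n : ℝ) ^ (3 * c / 8) :=
    ((tendsto_rpow_atTop (by positivity : 0 < 3 * c / 8)).comp hT).eventually_ge_atTop 4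
  have e3 : ∀ᶠ n : ℕ in atTop, (1024 : ℝ) / l ≤ (n : ℝ) ^ (c / 2) :=
    ((tendsto_rpow_atTop (by positivity : 0 < c / 2)).comp hT).eventually_ge_atTop (1024 / l)
  have e4 : ∀ᶠ n : ℕ in atTop, (Real.log n / Real.log 2 + 2) * (((R + 1 : ℕ) : ℝ) *
      (20480 / l + 2)) ≤ (n : ℝ) ^ a / 2 := by
    have h1 : (fun x : ℝ => (Real.log x / Real.log 2 + 2) * (((R + 1 : ℕ) : ℝ) *
        (20480 / l + 2))) =o[atTop] fun x : ℝ => x ^ a := by
      have h2 : (fun x : ℝ => Real.log x / Real.log 2 + 2) =o[atTop] fun x : ℝ => x ^ a := by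
        refine Asymptotics.IsLittleO.add ?_ ?_
        · have := (isLittleO_log_rpow_atTop ha0).const_mul_left (1 / Real.log 2)
          refine this.congr_left fun x => by ring
        · exact (Asymptotics.isLittleO_const_left.2 (Or.inr
            ((tendsto_rpow_atTop ha0).congr' (by
              filter_upwards [eventually_ge_atTop 0] with x hx
              rw [Function.comp_apply, Real.norm_of_nonneg (Real.rpow_nonneg hx a)]))))
      refine (h2.const_mul_left (((R + 1 : ℕ) : ℝ) * (20480 / l + 2))).congr_left fun x => by ring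
    have h3 := (h1.comp_tendsto hT).bound (by norm_num : (0 : ℝ) < 1 / 2)
    filter_upwards [h3] with n hn
    simp only [Function.comp_apply] at hn
    refine (le_abs_self _).trans (hn.trans (le_of_eq ?_))
    rw [Real.norm_of_nonneg (by positivity)]
    ring
  obtain ⟨n₀, hn₀⟩ := eventually_atTop.1 (e1.and (e2.and (e3.and (e4.and (eventually_ge_atTop 2)))))
  refine ⟨n₀, fun n hn β d pm pE ℓw C0 CX A hd0 hd1 hℓ hℓ2 he => ?_⟩
  obtain ⟨f1, f2, f3, f4, f5⟩ := hn₀ n hn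
  have hn1 : 1 ≤ n := by omega
  have hN : (0 : ℝ) < n := by exact_mod_cast hn1
  have hN1 : (1 : ℝ) ≤ n := by exact_mod_cast hn1
  have hd : 0 < d := lt_of_lt_of_le (Real.rpow_pos_of_pos hN _) hd0
  have hK1 : 1 ≤ (n : ℝ) ^ (c / 2) := Real.one_le_rpow hN1 (by positivity)
  have hclog : (Nat.clog 2 n : ℝ) ≤ Real.log n / Real.log 2 + 1 := by
    have h1 : 2 ^ (Nat.clog 2 n - 1) < n := Nat.pow_pred_clog_lt_self (by norm_num) (by omega)
    have h2 : ((Nat.clog 2 n - 1 : ℕ) : ℝ) * Real.log 2 ≤ Real.log n := by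
      rw [← Real.log_pow]
      apply Real.log_le_log (by positivity)
      exact_mod_cast h1.le
    have hlog2 : 0 < Real.log 2 := Real.log_pos (by norm_num)
    rw [← le_div_iff₀ hlog2] at h2
    have h3 : (Nat.clog 2 n : ℝ) ≤ ((Nat.clog 2 n - 1 : ℕ) : ℝ) + 1 := by
      have : Nat.clog 2 n ≤ (Nat.clog 2 n - 1) + 1 := by omega
      exact_mod_cast this
    linarith
  have hfin := engL4_all he hn1 hd hd1 f1 (Nat.one_le_ceil_iff.2 (by positivity))
    (K := (n : ℝ) ^ (c / 2)) (R := R) (M := Nat.clog 2 n) hl hl1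
    (by rw [← Real.rpow_sub hN]; congr 1; ring)
    (by
      have h1 : ((n : ℝ) ^ a) ^ (15 * 2 ^ R) = (n : ℝ) ^ (c / 8) := by
        rw [← Real.rpow_natCast, ← Real.rpow_mul hN.le]
        congr 1
        push_cast
        exact haP
      rw [h1]
      have h2 : (n : ℝ) ^ (c / 2) = (n : ℝ) ^ (3 * c / 8) * (n : ℝ) ^ (c / 8) := by
        rw [← Real.rpow_add hN]; congr 1; ring
      rw [h2]
      exact mul_le_mul_of_nonneg_right f2 (by positivity))
    (by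
      have h1 : ((n : ℝ) ^ (c / 2)) ^ 6 = ((n : ℝ) ^ (-(1 / 3 : ℝ) + c)) ^ 3 * n := by
        rw [← Real.rpow_natCast, ← Real.rpow_natCast, ← Real.rpow_mul hN.le,
          ← Real.rpow_mul hN.le]
        nth_rewrite 3 [← Real.rpow_one (n : ℝ)]
        rw [← Real.rpow_add hN]
        congr 1
        push_cast
        ring
      rw [h1]
      gcongr) hℓ hℓ2
    (by
      have := Nat.ceil_lt_add_one (by positivity : 0 ≤ (n : ℝ) ^ (c / 2))
      linarith)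
    (by rw [div_le_iff₀ hl] at f3; linarith) hR.le (Nat.le_pow_clog (by norm_num) n)
    (by
      refine le_trans ?_ f4
      rw [mul_assoc]
      apply mul_le_mul_of_nonneg_right _ (by positivity)
      push_cast
      linarith)
  refine hfin.trans (le_of_eq ?_)
  rw [Real.rpow_neg hN.le, one_div]

end RST
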