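import Pool.Agent.Work.MP_5ba30e_pr.EngineD

/-!
# L1 (helper53): proofs of `sum_EE_PsiX`, `eng_T6` (primed names; paste into Engine.lean without the primes)
-/

open MeasureTheory Set Filter Finset
open scoped ENNReal Topology Classical

noncomputable section

namespace RST

variable {n : ℕ} {β d Q θ pm pE : ℝ} {k ℓw : ℕ} {C0 CX : Env n → Finset (Fin n)}
  {A : (Fin k → Fin n) → Env n → SimpleGraph (Fin n) → Prop}

theorem sum_EE_PsiX (hn : 1 ≤ n) (β : ℝ) (hk : 1 ≤ k)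
    (hXm : ∀ v, MeasurableSet {ω | v ∈ CX ω}) :
    ∑ σ : Fin k → Fin n, EE β (fun ω _ => PsiX k σ (CX ω)) ≤ 1 := by
  have hm : ∀ σ : Fin k → Fin n, Measurable fun ω => PsiX k σ (CX ω) := fun σ =>
    dnear_meas hXm (fun s => PsiX k σ s)
  have : IsProbabilityMeasure ((volume : Measure ℝ).restrict (Set.Icc (0 : ℝ) 1)) := ⟨by simp⟩
  have hprob : IsProbabilityMeasure (mu n) := by unfold mu; infer_instance
  calc ∑ σ : Fin k → Fin n, EE β (fun ω _ => PsiX k σ (CX ω))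
      = ∑ σ : Fin k → Fin n, ∫⁻ ω, PsiX k σ (CX ω) ∂(mu n) :=
        Finset.sum_congr rfl fun σ _ => EE_env hn (hm σ)
    _ = ∫⁻ ω, ∑ σ : Fin k → Fin n, PsiX k σ (CX ω) ∂(mu n) :=
        (lintegral_finsetSum _ fun σ _ => hm σ).symm
    _ ≤ ∫⁻ _, 1 ∂(mu n) := by
        refine lintegral_mono fun ω => ?_
        rcases (CX ω).eq_empty_or_nonempty with h | h
        · have h0 : ∀ σ : Fin k → Fin n, PsiX k σ (CX ω) = 0 := by
            intro σ
            unfold PsiX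
            rw [if_neg]
            intro h1
            have := h1 ⟨0, hk⟩
            rw [h] at this
            simp at this
          simp [h0]
        · exact (sum_PsiX k h).le
    _ = 1 := by simp

theorem eng_T6 (he : Eng β d Q θ pm pE k ℓw C0 CX A) (hn : 1 ≤ n) (hd : 0 < d) (hd1 : d ≤ 1)
    (hQ : 1 ≤ Q) (hk : 1 ≤ k) (hθ : 0 ≤ θ) (h1 : θ * Q ≤ 1 / 4)
    (h2 : 4 * (Q + 2) * Q ≤ d * n) {D0 : ℝ} (hD0 : 0 ≤ D0)
    (h3 : 2 * Q ^ 2 * k * (d * D0 + 1) ≤ d ^ 3 * n) :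
    E3 β k CX (fun σ ω T => ind (A σ ω T ∧ (T.diam : ℝ) ≤ D0)) ≤
      ENNReal.ofReal (4 * Q ^ 3 * (2 * (Q * (d * D0 + 1)) + 1) *
        (Q * k * (d * D0 + 1) / d ^ 2) / (d * n / Q)) := by
  have hn' : (0 : ℝ) < n := by exact_mod_cast hn
  have hQ0 : 0 < Q := by linarith
  have hk' : (0 : ℝ) < k := by exact_mod_cast hk
  have hdD : 0 < d * D0 + 1 := by positivity
  unfold E3
  have key : ∀ σ : Fin k → Fin n,
      EE β (fun ω T => ind (A σ ω T ∧ (T.diam : ℝ) ≤ D0) * PsiX k σ (CX ω)) ≤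
      ENNReal.ofReal (4 * Q ^ 3 * (2 * (Q * (d * D0 + 1)) + 1) *
        (Q * k * (d * D0 + 1) / d ^ 2) / (d * n / Q)) * EE β (fun ω _ => PsiX k σ (CX ω)) := by
    intro σ
    have hS : (im σ).Nonempty := ⟨σ ⟨0, hk⟩, Finset.mem_image_of_mem σ (Finset.mem_univ _)⟩
    have h := T6L (n := n) hn (β := β) (M := Q) (Q := Q) (θ := θ) (Wm := Q * (d * D0 + 1))
      (Δ := Q) (pm := pm) (pE := pE) (Nn := Q * k * (d * D0 + 1) / d ^ 2) (N0 := d * n / Q)
      (ℓw := ℓw) hQ0.le hQ hθ (by positivity) (by positivity) (by positivity)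
      hS he.h0m he.hXm (fun ω T => A σ ω T ∧ (T.diam : ℝ) ≤ D0)
      (fun T => by
        by_cases hT : (T.diam : ℝ) ≤ D0
        · simpa [hT] using he.hA σ T
        · simp [hT])
      (fun ω T hT hA => he.dok σ ω T D0 hT hA.1 hA.2)
      (fun ω T hT hA => by
        have hlow := he.low σ ω T hT hA.1
        have hD := he.dok σ ω T D0 hT hA.1 hA.2
        have hnear := he.near σ ω T D0 hT hA.1 hA.2
        refine ⟨hlow, ?_, hnear, ?_⟩
        · have e1 : θ * ((CX ω).card : ℝ) ≤ 1 / 4 * ((C0 ω).card : ℝ) := by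
            calc θ * ((CX ω).card : ℝ) ≤ θ * (Q * ((C0 ω).card : ℝ)) :=
                  mul_le_mul_of_nonneg_left hD.card hθ
              _ = (θ * Q) * ((C0 ω).card : ℝ) := by ring
              _ ≤ 1 / 4 * ((C0 ω).card : ℝ) := mul_le_mul_of_nonneg_right h1 (Nat.cast_nonneg _)
          have e2 : 4 * (Q + 2) ≤ d * n / Q := by
            rw [le_div_iff₀ hQ0]; exact h2
          linarith
        · refine le_trans ?_ hlow
          rw [le_div_iff₀ hQ0, mul_div_assoc', div_mul_eq_mul_div, div_le_iff₀ (by positivity)]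
          calc 2 * (Q * k * (d * D0 + 1)) * Q = 2 * Q ^ 2 * k * (d * D0 + 1) := by ring
            _ ≤ d ^ 3 * n := h3
            _ = d * n * d ^ 2 := by ring)
      (PsiX k σ)
    have e3 : 4 * Q * Q ^ 2 * (2 * (Q * (d * D0 + 1)) + 1) * (Q * k * (d * D0 + 1) / d ^ 2) /
        (d * n / Q) = 4 * Q ^ 3 * (2 * (Q * (d * D0 + 1)) + 1) *
        (Q * k * (d * D0 + 1) / d ^ 2) / (d * n / Q) := by ring
    rw [e3] at h
    exact h
  refine (Finset.sum_le_sum fun σ _ => key σ).trans ?_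
  rw [← Finset.mul_sum]
  calc _ ≤ _ * (1 : ℝ≥0∞) := mul_le_mul' le_rfl (sum_EE_PsiX hn β hk he.hXm)
    _ = _ := mul_one _

end RST
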