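import Pool.Agent.Work.MP_5ba30e_pr.Engine_L1

/-!
# L2 (helper53): proof of `eng_start` (primed name; paste into Engine.lean without the prime)
-/

open MeasureTheory Set Filter Finset
open scoped ENNReal Topology Classical

noncomputable section

namespace RST

variable {n : ℕ} {β d Q θ pm pE : ℝ} {k ℓw : ℕ} {C0 CX : Env n → Finset (Fin n)}
  {A : (Fin k → Fin n) → Env n → SimpleGraph (Fin n) → Prop}

/-- pointwise comparison gives a comparison of the triple expectations -/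
theorem E3V_le_of {β : ℝ} {k : ℕ} {X : Env n → Finset (Fin n)}
    (hX : ∀ v, MeasurableSet {ω | v ∈ X ω}) (c : ℝ≥0∞) (hc : c ≠ ∞)
    {F G H : (Fin k → Fin n) → Fin n → Env n → SimpleGraph (Fin n) → ℝ≥0∞}
    {K : (Fin k → Fin n) → Env n → SimpleGraph (Fin n) → ℝ≥0∞}
    (hG : ∀ σ v T, Measurable fun ω => G σ v ω T)
    (hH : ∀ σ v T, Measurable fun ω => H σ v ω T)
    (h : ∀ σ v ω T, T.IsTree → (∀ i, σ i ∈ X ω) →
      F σ v ω T ≤ c * G σ v ω T + H σ v ω T + K σ ω T) :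
    E3V β k X F ≤ c * E3V β k X G + E3V β k X H + E3 β k X K := by
  have hP : ∀ σ : Fin k → Fin n, Measurable fun ω => PsiX k σ (X ω) / (n : ℝ≥0∞) := fun σ =>
    dnear_meas hX (fun s => PsiX k σ s / (n : ℝ≥0∞))
  have h1 : ∀ v (σ : Fin k → Fin n), EE β (fun ω T => F σ v ω T * (PsiX k σ (X ω) / n)) ≤
      c * EE β (fun ω T => G σ v ω T * (PsiX k σ (X ω) / n)) +
      EE β (fun ω T => H σ v ω T * (PsiX k σ (X ω) / n)) +
      EE β (fun ω T => K σ ω T * (PsiX k σ (X ω) / n)) := by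
    intro v σ
    have m1 : ∀ T, Measurable fun ω => c * (G σ v ω T * (PsiX k σ (X ω) / (n : ℝ≥0∞))) :=
      fun T => ((hG σ v T).mul (hP σ)).const_mul c
    have m2 : ∀ T, Measurable fun ω => H σ v ω T * (PsiX k σ (X ω) / (n : ℝ≥0∞)) :=
      fun T => (hH σ v T).mul (hP σ)
    have m3 : ∀ T, Measurable fun ω => c * (G σ v ω T * (PsiX k σ (X ω) / (n : ℝ≥0∞))) +
      H σ v ω T * (PsiX k σ (X ω) / (n : ℝ≥0∞)) := fun T => (m1 T).add (m2 T)
    rw [← EE_const_mul c hc,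
      ← EE_add (F := fun ω T => c * (G σ v ω T * (PsiX k σ (X ω) / (n : ℝ≥0∞)))) m1,
      ← EE_add (F := fun ω T => c * (G σ v ω T * (PsiX k σ (X ω) / (n : ℝ≥0∞))) +
        H σ v ω T * (PsiX k σ (X ω) / (n : ℝ≥0∞))) m3]
    refine EE_mono fun ω T hT => ?_
    by_cases hσ : ∀ i, σ i ∈ X ω
    · have := mul_le_mul' (h σ v ω T hT hσ) (le_refl (PsiX k σ (X ω) / (n : ℝ≥0∞)))
      refine this.trans (le_of_eq ?_)
      ring
    · have h0 : PsiX k σ (X ω) = 0 := by unfold PsiX; rw [if_neg hσ]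
      simp [h0]
  have h2 : ∀ σ : Fin k → Fin n, ∑ v : Fin n, EE β (fun ω T => K σ ω T * (PsiX k σ (X ω) / n)) ≤
      EE β (fun ω T => K σ ω T * PsiX k σ (X ω)) := by
    intro σ
    rw [Finset.sum_const, Finset.card_univ, Fintype.card_fin, nsmul_eq_mul,
      ← EE_const_mul _ (ENNReal.natCast_ne_top n)]
    refine EE_mono fun ω T _ => ?_
    rcases Nat.eq_zero_or_pos n with hn | hn
    · have : (n : ℝ≥0∞) = 0 := by rw [hn]; simp
      rw [this, zero_mul]
      exact zero_le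
    · have h3 : (n : ℝ≥0∞) ≠ 0 := by
        simpa using hn.ne'
      have h4 : (n : ℝ≥0∞) ≠ ⊤ := ENNReal.natCast_ne_top n
      rw [mul_left_comm, ENNReal.mul_div_cancel h3 h4]
  unfold E3V E3
  calc ∑ v : Fin n, ∑ σ : Fin k → Fin n, EE β (fun ω T => F σ v ω T * (PsiX k σ (X ω) / n))
      ≤ ∑ v : Fin n, ∑ σ : Fin k → Fin n,
          (c * EE β (fun ω T => G σ v ω T * (PsiX k σ (X ω) / n)) +
            EE β (fun ω T => H σ v ω T * (PsiX k σ (X ω) / n)) +
            EE β (fun ω T => K σ ω T * (PsiX k σ (X ω) / n))) :=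
        Finset.sum_le_sum fun v _ => Finset.sum_le_sum fun σ _ => h1 v σ
    _ = c * (∑ v : Fin n, ∑ σ : Fin k → Fin n, EE β (fun ω T => G σ v ω T *
            (PsiX k σ (X ω) / n))) +
          (∑ v : Fin n, ∑ σ : Fin k → Fin n, EE β (fun ω T => H σ v ω T *
            (PsiX k σ (X ω) / n))) +
          ∑ σ : Fin k → Fin n, ∑ v : Fin n, EE β (fun ω T => K σ ω T *
            (PsiX k σ (X ω) / n)) := by
        rw [Finset.sum_comm (s := (Finset.univ : Finset (Fin k → Fin n)))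
          (t := (Finset.univ : Finset (Fin n)))]
        simp only [Finset.sum_add_distrib, Finset.mul_sum]
    _ ≤ _ := add_le_add le_rfl (Finset.sum_le_sum fun σ _ => h2 σ)

theorem eng_start (he : Eng β d Q θ pm pE k ℓw C0 CX A) (hn : 1 ≤ n) (hd : 0 < d)
    (hQ : 1 ≤ Q) (hk1 : 1 ≤ k) {l D0 b : ℝ} (hl : 0 < l) (hD0 : 0 < D0) (hb : 0 ≤ b) {s₀ hk : ℕ}
    (hhk : 1 ≤ hk) (hs : (s₀ : ℝ) + hk ≤ l * D0 / 8) :
    E3V β k CX (fun σ v ω T => ind (A σ ω T ∧ D0 / 2 < T.diam ∧ (T.diam : ℝ) ≤ D0 ∧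
        l * T.diam / 4 < hgt T (im σ) v)) ≤
      ENNReal.ofReal (Q / (d * hk)) + ENNReal.ofReal (Q * b / (d * n)) +
      E3 β k CX (fun σ ω T => ind (A σ ω T ∧ (T.diam : ℝ) ≤ D0 ∧
        b < (((C0 ω).filter fun q => s₀ < hgt T (im σ) q).card : ℝ))) := by
  have hhk' : (0 : ℝ) < hk := by exact_mod_cast hhk
  have hc0 : ((hk : ℕ) : ℝ≥0∞) ≠ 0 := by
    simp only [ne_eq, Nat.cast_eq_zero]; omega
  have key := E3V_le_of (β := β) (k := k) he.hXm ((hk : ℝ≥0∞)⁻¹) (ENNReal.inv_ne_top.2 hc0)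
    (F := fun σ v ω T => ind (A σ ω T ∧ D0 / 2 < T.diam ∧ (T.diam : ℝ) ≤ D0 ∧
        l * T.diam / 4 < hgt T (im σ) v))
    (G := fun σ v ω T => ind (A σ ω T) * (hook T (im σ) (C0 ω) v : ℝ≥0∞))
    (H := fun σ v ω T => ind (A σ ω T ∧
      s₀ < hgt T (im σ) (dn T (im σ) v (hook T (im σ) (C0 ω) v)) ∧
      (((C0 ω).filter fun q => s₀ < hgt T (im σ) q).card : ℝ) ≤ b))
    (K := fun σ ω T => ind (A σ ω T ∧ (T.diam : ℝ) ≤ D0 ∧
        b < (((C0 ω).filter fun q => s₀ < hgt T (im σ) q).card : ℝ)))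
    (fun σ v T => (measurable_ind (he.hA σ T)).mul
      (dnear_meas he.h0m fun C => (hook T (im σ) C v : ℝ≥0∞)))
    (fun σ v T => measurable_ind ((he.hA σ T).inter
      (measurableSet_setOfPred.2 (dnear_meas he.h0m fun C =>
        (s₀ < hgt T (im σ) (dn T (im σ) v (hook T (im σ) C v)) ∧
          ((C.filter fun q => s₀ < hgt T (im σ) q).card : ℝ) ≤ b)))))
    (fun σ v ω T hT _ => by
      have hS : (im σ).Nonempty := ⟨σ ⟨0, hk1⟩, Finset.mem_image_of_mem σ (Finset.mem_univ _)⟩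
      by_cases h : A σ ω T ∧ D0 / 2 < T.diam ∧ (T.diam : ℝ) ≤ D0 ∧
          l * T.diam / 4 < hgt T (im σ) v
      · obtain ⟨h1, h2, h3, h4⟩ := h
        refine (ind_le_one _).trans ?_
        rcases le_or_gt hk (hook T (im σ) (C0 ω) v) with h5 | h5
        · have h6 : (1 : ℝ≥0∞) ≤ (hk : ℝ≥0∞)⁻¹ *
              (ind (A σ ω T) * (hook T (im σ) (C0 ω) v : ℝ≥0∞)) := by
            have h7 : ind (A σ ω T) = 1 := by unfold ind; rw [if_pos h1]
            rw [h7, one_mul, ← ENNReal.inv_mul_cancel hc0 (ENNReal.natCast_ne_top hk)]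
            exact mul_le_mul' le_rfl (by exact_mod_cast h5)
          exact h6.trans (le_add_right le_self_add)
        · have hg : hgt T (im σ) (dn T (im σ) v (hook T (im σ) (C0 ω) v)) =
              hgt T (im σ) v - hook T (im σ) (C0 ω) v := hgt_dn hT hS (hook_le_hgt _)
          have hh := hook_le_hgt (T := T) (S := im σ) (u := v) (C0 ω)
          have h6 : s₀ < hgt T (im σ) (dn T (im σ) v (hook T (im σ) (C0 ω) v)) := by
            rw [hg]
            have h7 : (s₀ : ℝ) + hk < hgt T (im σ) v := by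
              have : l * D0 / 8 < l * T.diam / 4 := by nlinarith
              linarith
            have h8 : s₀ + hk < hgt T (im σ) v := by exact_mod_cast h7
            omega
          rcases le_or_gt (((C0 ω).filter fun q => s₀ < hgt T (im σ) q).card : ℝ) b with h7 | h7
          · have h8 : ind (A σ ω T ∧
                s₀ < hgt T (im σ) (dn T (im σ) v (hook T (im σ) (C0 ω) v)) ∧
                (((C0 ω).filter fun q => s₀ < hgt T (im σ) q).card : ℝ) ≤ b) = 1 := by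
              unfold ind; rw [if_pos ⟨h1, h6, h7⟩]
            simp only [h8]
            exact le_add_right le_add_self
          · have h8 : ind (A σ ω T ∧ (T.diam : ℝ) ≤ D0 ∧
                b < (((C0 ω).filter fun q => s₀ < hgt T (im σ) q).card : ℝ)) = 1 := by
              unfold ind; rw [if_pos ⟨h1, h3, h7⟩]
            simp only [h8]
            exact le_add_self
      · have : ind (A σ ω T ∧ D0 / 2 < T.diam ∧ (T.diam : ℝ) ≤ D0 ∧
          l * T.diam / 4 < hgt T (im σ) v) = 0 := by unfold ind; rw [if_neg h]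
        simp only [this]
        exact zero_le)
  refine key.trans ?_
  refine add_le_add (add_le_add ?_ (he.relV s₀ b hb)) le_rfl
  calc (hk : ℝ≥0∞)⁻¹ * _ ≤ (hk : ℝ≥0∞)⁻¹ * ENNReal.ofReal (Q / d) := mul_le_mul' le_rfl he.hookV
    _ = ENNReal.ofReal (Q / (d * hk)) := by
      rw [← ENNReal.ofReal_natCast hk, ← ENNReal.ofReal_inv_of_pos hhk',
        ← ENNReal.ofReal_mul (by positivity)]
      congr 1
      field_simp

end RST
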