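import Pool.Agent.Work.MP_5ba30e_pr.Prod

/-!
# Explore : exploration lemma

`E1`. `f(R,J)` = probability that all vertices of `J` can be reached from `R` inside `R ∪ J`
(edges inside `R` are useless). Claim `f(R,J) ≤ (1 - q^{r+j})^j`, `q = 1-p`, `r = |R|`, `j = |J|`.
Induction on `r + j` (or on `r + j` with `j`): `j = 0` trivial; `r = 0 < j`: the event is empty.
Otherwise take `r₀ ∈ R` and let `N` be the set of the neighbours of `r₀` in `J`. The event implies
that all vertices of `J \ N` can be reached from `(R \ {r₀}) ∪ N` inside `(R ∪ J) \ {r₀}` (cut the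
path at its last visit of `r₀`), which only depends on the edges inside `(R ∪ J) \ {r₀}`; so
`f(R,J) ≤ ∑_N p^{|N|} q^{j-|N|} (1 - q^{r+j-1})^{j-|N|} = (p + q (1 - q^{r+j-1}))^j = (1 - q^{r+j})^j`.

`E2`. If `sat R = R ∪ J` then `ExpEv R J p` holds and there is no edge `≤ p` between `R ∪ J` and its
complement; `B`, `ExpEv R J p` and this last event depend on disjoint sets of edges; there are
`(n-ℓ).choose (τ-ℓ)` sets `J`.
-/

open MeasureTheory Set Filter Finset
open scoped ENNReal Topology Classical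

noncomputable section

namespace RST

variable {n : ℕ}

/-- edges of value `≤ p` inside `R ∪ J`, without those inside `R` -/
def Gin (ω : Env n) (p : ℝ) (R J : Finset (Fin n)) : SimpleGraph (Fin n) where
  Adj i j := i ≠ j ∧ ω s(i, j) ≤ p ∧ i ∈ R ∪ J ∧ j ∈ R ∪ J ∧ ¬ (i ∈ R ∧ j ∈ R)
  symm := ⟨fun i j h => ⟨h.1.symm, by rw [Sym2.eq_swap]; exact h.2.1, h.2.2.2.1, h.2.2.1,
    fun h' => h.2.2.2.2 ⟨h'.2, h'.1⟩⟩⟩
  loopless := ⟨fun i h => h.1 rfl⟩

/-- all vertices of `J` can be reached from `R` inside `R ∪ J` -/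
def ExpEv (R J : Finset (Fin n)) (p : ℝ) : Set (Env n) :=
  {ω | ∀ v ∈ J, ∃ r ∈ R, (Gin ω p R J).Reachable r v}

theorem measurableSet_expEv (R J : Finset (Fin n)) (p : ℝ) : MeasurableSet (ExpEv R J p) := by
  have h : LevDep (fun ω : Env n => ∀ v ∈ J, ∃ r ∈ R, (Gin ω p R J).Reachable r v) := by
    refine ⟨{p}, fun ω ω' h => ?_⟩
    have h1 : Gin ω p R J = Gin ω' p R J := by
      have h2 := h p (Finset.mem_singleton_self p)
      ext i j
      have h3 : (Gr ω p).Adj i j ↔ (Gr ω' p).Adj i j := by rw [h2]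
      simp only [Gr] at h3
      simp only [Gin]
      tauto
    simp only [h1]
  exact h.measurableSet

/-- `ExpEv` only depends on the edges inside `R ∪ J` which are not inside `R` -/
theorem depOn_expEv (R J : Finset (Fin n)) (p : ℝ) :
    DepOn ((R ∪ J).sym2 \ R.sym2) (ExpEv R J p) := by
  intro ω ω' h
  have h1 : Gin ω p R J = Gin ω' p R J := by
    ext i j
    simp only [Gin]
    constructor
    · rintro ⟨h1, h2, h3, h4, h5⟩
      refine ⟨h1, ?_, h3, h4, h5⟩
      rw [← h s(i, j) (by
        rw [Finset.mem_sdiff, Finset.mk_mem_sym2_iff, Finset.mk_mem_sym2_iff]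
        exact ⟨⟨h3, h4⟩, h5⟩)]
      exact h2
    · rintro ⟨h1, h2, h3, h4, h5⟩
      refine ⟨h1, ?_, h3, h4, h5⟩
      rw [h s(i, j) (by
        rw [Finset.mem_sdiff, Finset.mk_mem_sym2_iff, Finset.mk_mem_sym2_iff]
        exact ⟨⟨h3, h4⟩, h5⟩)]
      exact h2
  simp only [ExpEv, Set.mem_ofPred_eq, h1]

theorem DepOn.mono {F F' : Finset (Sym2 (Fin n))} {B : Set (Env n)} (h : DepOn F B)
    (hF : F ⊆ F') : DepOn F' B := fun ω ω' h' => h ω ω' fun e he => h' e (hF he)

/-- the pattern of the edges from `r₀` to `J` -/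
def Pat (r₀ : Fin n) (N M : Finset (Fin n)) (p : ℝ) : Set (Env n) :=
  {ω | (∀ e ∈ N.image fun v => s(r₀, v), ω e ≤ p) ∧ ∀ e ∈ M.image fun v => s(r₀, v), p < ω e}

theorem measurableSet_pattern (F F' : Finset (Sym2 (Fin n))) (p : ℝ) :
    MeasurableSet {ω : Env n | (∀ e ∈ F, ω e ≤ p) ∧ ∀ e ∈ F', p < ω e} := by
  have h1 : {ω : Env n | (∀ e ∈ F, ω e ≤ p) ∧ ∀ e ∈ F', p < ω e} =
      (⋂ e ∈ F, {ω : Env n | ω e ≤ p}) ∩ ⋂ e ∈ F', {ω : Env n | p < ω e} := by
    ext ω; simp
  rw [h1]
  exact (Finset.measurableSet_biInter _ fun e _ =>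
    measurableSet_le (measurable_pi_apply _) measurable_const).inter
    (Finset.measurableSet_biInter _ fun e _ =>
    measurableSet_lt measurable_const (measurable_pi_apply _))

theorem inj_mk (r₀ : Fin n) : Function.Injective fun v => s(r₀, v) := by
  intro a b h
  exact (Sym2.congr_right).1 h

/-- one step of the exploration -/
theorem expEv_step {R J : Finset (Fin n)} (hRJ : Disjoint R J) {p : ℝ} {r₀ : Fin n}
    (hr : r₀ ∈ R) {ω : Env n} (hω : ω ∈ ExpEv R J p) :
    ω ∈ ExpEv (R.erase r₀ ∪ J.filter fun v => ω s(r₀, v) ≤ p)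
      (J \ J.filter fun v => ω s(r₀, v) ≤ p) p := by
  set N := J.filter fun v => ω s(r₀, v) ≤ p with hN
  have hr0J : r₀ ∉ J := fun h => Finset.disjoint_left.1 hRJ hr h
  intro v hv
  rw [Finset.mem_sdiff] at hv
  obtain ⟨r, hrR, hreach⟩ := hω v hv.1
  have hmemN : ∀ x, x ∈ N ↔ x ∈ J ∧ ω s(r₀, x) ≤ p := fun x => by rw [hN, Finset.mem_filter]
  -- invariant along walks
  have key : ∀ x y, (Gin ω p R J).Adj x y →
      (x ∈ R ∪ N ∨ ∃ r' ∈ R.erase r₀ ∪ N, (Gin ω p (R.erase r₀ ∪ N) (J \ N)).Reachable r' x) →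
      (y ∈ R ∪ N ∨ ∃ r' ∈ R.erase r₀ ∪ N, (Gin ω p (R.erase r₀ ∪ N) (J \ N)).Reachable r' y) := by
    intro x y hadj hx
    by_cases hy : y ∈ R ∪ N
    · exact Or.inl hy
    · right
      obtain ⟨hne, hle, hxm, hym, hnot⟩ := hadj
      rw [Finset.mem_union, not_or] at hy
      have hyJ : y ∈ J := (Finset.mem_union.1 hym).resolve_left hy.1
      have hyR' : y ∉ R.erase r₀ ∪ N := by
        rw [Finset.mem_union, not_or]
        exact ⟨fun h => hy.1 (Finset.mem_of_mem_erase h), hy.2⟩
      have hyJ' : y ∈ J \ N := Finset.mem_sdiff.2 ⟨hyJ, hy.2⟩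
      have hx0 : x ≠ r₀ := by
        rintro rfl
        exact hy.2 ((hmemN y).2 ⟨hyJ, hle⟩)
      -- `x` is in the new vertex set
      have hx' : x ∈ (R.erase r₀ ∪ N) ∪ (J \ N) := by
        rcases Finset.mem_union.1 hxm with h | h
        · exact Finset.mem_union_left _ (Finset.mem_union_left _ (Finset.mem_erase.2 ⟨hx0, h⟩))
        · by_cases hxN : x ∈ N
          · exact Finset.mem_union_left _ (Finset.mem_union_right _ hxN)
          · exact Finset.mem_union_right _ (Finset.mem_sdiff.2 ⟨h, hxN⟩)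
      have hadj' : (Gin ω p (R.erase r₀ ∪ N) (J \ N)).Adj x y :=
        ⟨hne, hle, hx', Finset.mem_union_right _ hyJ', fun h => hyR' h.2⟩
      by_cases hxR : x ∈ R.erase r₀ ∪ N
      · exact ⟨x, hxR, hadj'.reachable⟩
      · rcases hx with h | ⟨r', hr', h⟩
        · exfalso
          apply hxR
          rcases Finset.mem_union.1 h with h | h
          · exact Finset.mem_union_left _ (Finset.mem_erase.2 ⟨hx0, h⟩)
          · exact Finset.mem_union_right _ h
        · exact ⟨r', hr', h.trans hadj'.reachable⟩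
  have hwalk : ∀ (a b : Fin n), (Gin ω p R J).Walk a b →
      (a ∈ R ∪ N ∨ ∃ r' ∈ R.erase r₀ ∪ N, (Gin ω p (R.erase r₀ ∪ N) (J \ N)).Reachable r' a) →
      (b ∈ R ∪ N ∨ ∃ r' ∈ R.erase r₀ ∪ N, (Gin ω p (R.erase r₀ ∪ N) (J \ N)).Reachable r' b) := by
    intro a b w
    induction w with
    | nil => exact id
    | cons h _ ih => exact fun ha => ih (key _ _ h ha)
  obtain ⟨w⟩ := hreach
  rcases hwalk r v w (Or.inl (Finset.mem_union_left _ hrR)) with h | h
  · exfalso
    rcases Finset.mem_union.1 h with h | h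
    · exact Finset.disjoint_left.1 hRJ h hv.1
    · exact hv.2 h
  · exact h

theorem E1 {R J : Finset (Fin n)} (hRJ : Disjoint R J) {p : ℝ} (hp : 0 ≤ p) (hp1 : p ≤ 1) :
    mu n (ExpEv R J p) ≤
      ENNReal.ofReal ((1 - (1 - p) ^ (R.card + J.card)) ^ J.card) := by
  obtain ⟨s, hs⟩ : ∃ s, R.card + J.card = s := ⟨_, rfl⟩
  induction s generalizing R J with
  | zero =>
    have : J.card = 0 := by omega
    rw [this, pow_zero, ENNReal.ofReal_one]
    exact prob_le_one
  | succ s ih =>
    rcases Nat.eq_zero_or_pos J.card with hJ | hJ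
    · rw [hJ, pow_zero, ENNReal.ofReal_one]
      exact prob_le_one
    rcases R.eq_empty_or_nonempty with hR | ⟨r₀, hr⟩
    · subst hR
      obtain ⟨v, hv⟩ := Finset.card_pos.1 hJ
      have : ExpEv (∅ : Finset (Fin n)) J p = ∅ := by
        ext ω
        simp only [ExpEv, Set.mem_ofPred_eq, Set.mem_empty_iff_false, iff_false]
        intro h
        obtain ⟨r, hr, -⟩ := h v hv
        exact absurd hr (Finset.notMem_empty _)
      rw [this, measure_empty]
      exact bot_le
    have hr0J : r₀ ∉ J := fun h => Finset.disjoint_left.1 hRJ hr h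
    set q : ℝ := 1 - p with hq
    have hq0 : 0 ≤ q := by rw [hq]; linarith
    have hq1 : q ≤ 1 := by rw [hq]; linarith
    -- union bound over the neighbours of `r₀`
    have hsub : ExpEv R J p ⊆ ⋃ N ∈ J.powerset,
        (Pat r₀ N (J \ N) p ∩ ExpEv (R.erase r₀ ∪ N) (J \ N) p) := by
      intro ω hω
      simp only [Set.mem_iUnion]
      refine ⟨J.filter fun v => ω s(r₀, v) ≤ p, Finset.mem_powerset.2 (Finset.filter_subset _ _),
        ⟨?_, ?_⟩, expEv_step hRJ hr hω⟩
      · intro e he
        obtain ⟨v, hv, rfl⟩ := Finset.mem_image.1 he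
        exact (Finset.mem_filter.1 hv).2
      · intro e he
        obtain ⟨v, hv, rfl⟩ := Finset.mem_image.1 he
        rw [Finset.mem_sdiff, Finset.mem_filter, not_and, not_le] at hv
        exact hv.2 hv.1
    have hterm : ∀ N ∈ J.powerset,
        mu n (Pat r₀ N (J \ N) p ∩ ExpEv (R.erase r₀ ∪ N) (J \ N) p) ≤
          ENNReal.ofReal (p ^ N.card * (q * (1 - q ^ s)) ^ (J.card - N.card)) := by
      intro N hN
      rw [Finset.mem_powerset] at hN
      have hcardJN : (J \ N).card = J.card - N.card := Finset.card_sdiff_of_subset hN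
      have hdisj : Disjoint (R.erase r₀ ∪ N) (J \ N) := by
        rw [Finset.disjoint_union_left]
        refine ⟨?_, Finset.disjoint_sdiff⟩
        exact (hRJ.mono_left (Finset.erase_subset _ _)).mono_right Finset.sdiff_subset
      have hcardR : (R.erase r₀ ∪ N).card = R.card - 1 + N.card := by
        rw [Finset.card_union_of_disjoint, Finset.card_erase_of_mem hr]
        exact (hRJ.mono_left (Finset.erase_subset _ _)).mono_right hN
      have hNJ := Finset.card_le_card hN
      have hR1 : 1 ≤ R.card := Finset.card_pos.2 ⟨r₀, hr⟩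
      have hih := ih hdisj (by rw [hcardR, hcardJN]; omega)
      have hsum : (R.erase r₀ ∪ N).card + (J \ N).card = s := by rw [hcardR, hcardJN]; omega
      rw [hsum] at hih
      have hdisjF : Disjoint (N.image (fun v => s(r₀, v)) ∪ (J \ N).image fun v => s(r₀, v))
          (((R.erase r₀ ∪ N) ∪ (J \ N)).sym2 \ (R.erase r₀ ∪ N).sym2) := by
        rw [Finset.disjoint_left]
        intro e he he'
        obtain ⟨v, -, rfl⟩ : ∃ v, v ∈ (Finset.univ : Finset (Fin n)) ∧ s(r₀, v) = e := by
          rcases Finset.mem_union.1 he with h | h <;>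
          · obtain ⟨v, -, h⟩ := Finset.mem_image.1 h
            exact ⟨v, Finset.mem_univ _, h⟩
        rw [Finset.mem_sdiff, Finset.mk_mem_sym2_iff] at he'
        have h1 := he'.1.1
        rw [Finset.mem_union, Finset.mem_union, Finset.mem_sdiff] at h1
        rcases h1 with (h | h) | h
        · exact absurd rfl (Finset.ne_of_mem_erase h)
        · exact hr0J (hN h)
        · exact hr0J h.1
      have hind := mu_inter hdisjF (measurableSet_pattern _ _ p)
        (measurableSet_expEv (R.erase r₀ ∪ N) (J \ N) p)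
        (B := Pat r₀ N (J \ N) p) (by
          intro ω ω' h
          simp only [Pat, Set.mem_ofPred_eq]
          constructor
          · rintro ⟨h1, h2⟩
            exact ⟨fun e he => by rw [← h e (Finset.mem_union_left _ he)]; exact h1 e he,
              fun e he => by rw [← h e (Finset.mem_union_right _ he)]; exact h2 e he⟩
          · rintro ⟨h1, h2⟩
            exact ⟨fun e he => by rw [h e (Finset.mem_union_left _ he)]; exact h1 e he,
              fun e he => by rw [h e (Finset.mem_union_right _ he)]; exact h2 e he⟩)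
        (depOn_expEv _ _ p)
      rw [hind]
      have hpat : mu n (Pat r₀ N (J \ N) p) =
          ENNReal.ofReal (p ^ N.card * (1 - p) ^ (J.card - N.card)) := by
        have h1 := mu_pattern (N.image fun v => s(r₀, v)) ((J \ N).image fun v => s(r₀, v))
          (by
            rw [Finset.disjoint_left]
            intro e he he'
            obtain ⟨v, hv, rfl⟩ := Finset.mem_image.1 he
            obtain ⟨v', hv', h⟩ := Finset.mem_image.1 he'
            have := inj_mk r₀ h
            subst this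
            exact (Finset.mem_sdiff.1 hv').2 hv) hp hp1
        rw [Finset.card_image_of_injective _ (inj_mk r₀),
          Finset.card_image_of_injective _ (inj_mk r₀), hcardJN] at h1
        exact h1
      rw [hpat, hcardJN] at *
      refine (mul_le_mul_right hih _).trans ?_
      rw [← ENNReal.ofReal_mul (by positivity), mul_pow, ← mul_assoc]
    refine (measure_mono hsub).trans ((measure_biUnion_finset_le _ _).trans
      ((Finset.sum_le_sum hterm).trans ?_))
    have hqs : q ^ s ≤ 1 := pow_le_one₀ hq0 hq1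
    rw [← ENNReal.ofReal_sum_of_nonneg fun N _ => by
      have : 0 ≤ q * (1 - q ^ s) := mul_nonneg hq0 (by linarith)
      positivity]
    refine ENNReal.ofReal_le_ofReal (le_of_eq ?_)
    rw [Finset.sum_pow_mul_eq_add_pow, hs]
    congr 1
    rw [pow_succ]
    have : p = 1 - q := by rw [hq]; ring
    rw [this]
    ring

/-- union of the components which meet `R` -/
def sat (G : SimpleGraph (Fin n)) (R : Finset (Fin n)) : Finset (Fin n) :=
  Finset.univ.filter fun v => ∃ r ∈ R, G.Reachable r v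

/-- the binomial probability `P(Bin(n-ℓ, 1-q^τ) = τ-ℓ)`, `q = 1-p` -/
def bnd (n : ℕ) (p : ℝ) (ℓ τ : ℕ) : ℝ :=
  ((n - ℓ).choose (τ - ℓ) : ℝ) * (1 - (1 - p) ^ τ) ^ (τ - ℓ) * (1 - p) ^ (τ * (n - τ))

/-- the edges between `U` and its complement -/
def cross (U : Finset (Fin n)) : Finset (Sym2 (Fin n)) :=
  (U ×ˢ Uᶜ).image fun x => s(x.1, x.2)

theorem card_cross (U : Finset (Fin n)) : (cross U).card = U.card * (n - U.card) := by
  unfold cross
  rw [Finset.card_image_of_injOn, Finset.card_product, Finset.card_compl, Fintype.card_fin]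
  rintro ⟨a, b⟩ h1 ⟨a', b'⟩ h2 h
  rw [Finset.mem_coe, Finset.mem_product, Finset.mem_compl] at h1 h2
  simp only at h1 h2
  dsimp only at h
  rw [Sym2.eq_iff] at h
  rcases h with ⟨rfl, rfl⟩ | ⟨rfl, rfl⟩
  · rfl
  · exact absurd h1.1 h2.2

theorem subset_sat (G : SimpleGraph (Fin n)) (R : Finset (Fin n)) : R ⊆ sat G R := by
  intro r hr
  exact Finset.mem_filter.2 ⟨Finset.mem_univ _, r, hr, SimpleGraph.Reachable.refl _⟩

theorem expEv_sat {R : Finset (Fin n)} {p : ℝ} (ω : Env n) :
    ω ∈ ExpEv R (sat (Gr ω p) R \ R) p := by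
  intro v hv
  rw [Finset.mem_sdiff] at hv
  obtain ⟨r, hrR, ⟨w⟩⟩ := (Finset.mem_filter.1 hv.1).2
  have hU : R ∪ (sat (Gr ω p) R \ R) = sat (Gr ω p) R := by
    rw [Finset.union_sdiff_of_subset (subset_sat _ _)]
  have key : ∀ x y, (Gr ω p).Adj x y → x ∈ sat (Gr ω p) R →
      (x ∈ R ∨ ∃ r' ∈ R, (Gin ω p R (sat (Gr ω p) R \ R)).Reachable r' x) →
      (y ∈ R ∨ ∃ r' ∈ R, (Gin ω p R (sat (Gr ω p) R \ R)).Reachable r' y) := by
    intro x y hadj hxs hx
    by_cases hyR : y ∈ R
    · exact Or.inl hyR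
    · right
      have hys : y ∈ sat (Gr ω p) R := by
        obtain ⟨r', hr', h⟩ := (Finset.mem_filter.1 hxs).2
        exact Finset.mem_filter.2 ⟨Finset.mem_univ _, r', hr', h.trans hadj.reachable⟩
      have hadj' : (Gin ω p R (sat (Gr ω p) R \ R)).Adj x y :=
        ⟨hadj.1, hadj.2, by rw [hU]; exact hxs, by rw [hU]; exact hys, fun h => hyR h.2⟩
      rcases hx with h | ⟨r', hr', h⟩
      · exact ⟨x, h, hadj'.reachable⟩
      · exact ⟨r', hr', h.trans hadj'.reachable⟩
  have hwalk : ∀ (a b : Fin n), (Gr ω p).Walk a b → a ∈ sat (Gr ω p) R →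
      (a ∈ R ∨ ∃ r' ∈ R, (Gin ω p R (sat (Gr ω p) R \ R)).Reachable r' a) →
      (b ∈ R ∨ ∃ r' ∈ R, (Gin ω p R (sat (Gr ω p) R \ R)).Reachable r' b) := by
    intro a b w
    induction w with
    | nil => exact fun _ h => h
    | cons h _ ih =>
      intro ha h'
      refine ih ?_ (key _ _ h ha h')
      obtain ⟨r', hr', h2⟩ := (Finset.mem_filter.1 ha).2
      exact Finset.mem_filter.2 ⟨Finset.mem_univ _, r', hr', h2.trans h.reachable⟩
  rcases hwalk r v w (subset_sat _ _ hrR) (Or.inl hrR) with h | h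
  · exact absurd h hv.2
  · exact h

theorem E2 (R : Finset (Fin n)) {B : Set (Env n)} (hB : MeasurableSet B)
    (hdep : DepOn R.sym2 B) {p : ℝ} (hp : 0 ≤ p) (hp1 : p ≤ 1) (τ : ℕ) :
    mu n (B ∩ {ω | (sat (Gr ω p) R).card = τ}) ≤
      mu n B * ENNReal.ofReal (bnd n p R.card τ) := by
  rcases Nat.lt_or_ge τ R.card with hτ | hτ
  · have : B ∩ {ω | (sat (Gr ω p) R).card = τ} = ∅ := by
      ext ω
      simp only [Set.mem_inter_iff, Set.mem_ofPred_eq, Set.mem_empty_iff_false, iff_false, not_and]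
      intro _ h
      have := Finset.card_le_card (subset_sat (Gr ω p) R)
      omega
    rw [this, measure_empty]
    exact bot_le
  have hRn : R.card ≤ n := by simpa using Finset.card_le_univ R
  set q : ℝ := 1 - p with hq
  have hq0 : 0 ≤ q := by rw [hq]; linarith
  have hq1 : q ≤ 1 := by rw [hq]; linarith
  have hqs : q ^ τ ≤ 1 := pow_le_one₀ hq0 hq1
  have hsub : B ∩ {ω | (sat (Gr ω p) R).card = τ} ⊆
      ⋃ J ∈ (Rᶜ : Finset (Fin n)).powersetCard (τ - R.card),
        (B ∩ (ExpEv R J p ∩ {ω | ∀ e ∈ cross (R ∪ J), p < ω e})) := by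
    rintro ω ⟨hωB, hω⟩
    simp only [Set.mem_iUnion]
    have hU : R ∪ (sat (Gr ω p) R \ R) = sat (Gr ω p) R := by
      rw [Finset.union_sdiff_of_subset (subset_sat _ _)]
    refine ⟨sat (Gr ω p) R \ R, ?_, hωB, expEv_sat ω, ?_⟩
    · rw [Finset.mem_powersetCard]
      refine ⟨fun x hx => Finset.mem_compl.2 (Finset.mem_sdiff.1 hx).2, ?_⟩
      rw [Finset.card_sdiff_of_subset (subset_sat _ _), hω]
    · intro e he
      rw [hU] at he
      obtain ⟨⟨a, b⟩, hab, rfl⟩ := Finset.mem_image.1 he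
      rw [Finset.mem_product, Finset.mem_compl] at hab
      simp only at hab ⊢
      by_contra hcon
      rw [not_lt] at hcon
      apply hab.2
      obtain ⟨r', hr', h⟩ := (Finset.mem_filter.1 hab.1).2
      have hne : a ≠ b := by
        rintro rfl
        exact hab.2 hab.1
      have hadj : (Gr ω p).Adj a b := ⟨hne, hcon⟩
      exact Finset.mem_filter.2 ⟨Finset.mem_univ _, r', hr', h.trans hadj.reachable⟩
  have hterm : ∀ J ∈ (Rᶜ : Finset (Fin n)).powersetCard (τ - R.card),
      mu n (B ∩ (ExpEv R J p ∩ {ω | ∀ e ∈ cross (R ∪ J), p < ω e})) ≤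
        mu n B * ENNReal.ofReal ((1 - q ^ τ) ^ (τ - R.card) * q ^ (τ * (n - τ))) := by
    intro J hJ
    rw [Finset.mem_powersetCard] at hJ
    have hdisj : Disjoint R J := by
      rw [Finset.disjoint_left]
      intro x hx hx'
      exact Finset.mem_compl.1 (hJ.1 hx') hx
    have hcardU : (R ∪ J).card = τ := by
      rw [Finset.card_union_of_disjoint hdisj, hJ.2]; omega
    have hmC : MeasurableSet {ω : Env n | ∀ e ∈ cross (R ∪ J), p < ω e} := by
      have := measurableSet_pattern (n := n) ∅ (cross (R ∪ J)) p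
      simpa using this
    have hdC : DepOn (cross (R ∪ J)) {ω : Env n | ∀ e ∈ cross (R ∪ J), p < ω e} := by
      intro ω ω' h
      simp only [Set.mem_ofPred_eq]
      constructor
      · intro h1 e he; rw [← h e he]; exact h1 e he
      · intro h1 e he; rw [h e he]; exact h1 e he
    have hcrossU : Disjoint (R ∪ J).sym2 (cross (R ∪ J)) := by
      rw [Finset.disjoint_left]
      intro e he he'
      obtain ⟨⟨a, b⟩, hab, rfl⟩ := Finset.mem_image.1 he'
      rw [Finset.mem_product, Finset.mem_compl] at hab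
      rw [Finset.mk_mem_sym2_iff] at he
      exact hab.2 he.2
    have h1 := mu_inter (F := R.sym2) (F' := ((R ∪ J).sym2 \ R.sym2) ∪ cross (R ∪ J))
      (by
        rw [Finset.disjoint_union_right]
        refine ⟨Finset.disjoint_sdiff, hcrossU.mono_left ?_⟩
        exact Finset.sym2_mono Finset.subset_union_left)
      hB ((measurableSet_expEv R J p).inter hmC) hdep (by
        intro ω ω' h
        have e1 := depOn_expEv R J p ω ω' fun e he => h e (Finset.mem_union_left _ he)
        have e2 := hdC ω ω' fun e he => h e (Finset.mem_union_right _ he)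
        simp only [Set.mem_inter_iff, e1, e2])
    have h2 := mu_inter (F := (R ∪ J).sym2 \ R.sym2) (F' := cross (R ∪ J))
      (hcrossU.mono_left Finset.sdiff_subset)
      (measurableSet_expEv R J p) hmC (depOn_expEv R J p) hdC
    rw [h1, h2, mu_gt_all _ hp hp1, card_cross, hcardU]
    have h3 := E1 hdisj hp hp1
    rw [← Finset.card_union_of_disjoint hdisj, hcardU, hJ.2] at h3
    have h4 : mu n (ExpEv R J p) * ENNReal.ofReal ((1 - p) ^ (τ * (n - τ))) ≤
        ENNReal.ofReal ((1 - q ^ τ) ^ (τ - R.card) * q ^ (τ * (n - τ))) := by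
      rw [ENNReal.ofReal_mul (pow_nonneg (by linarith) _)]
      gcongr
    gcongr
  refine (measure_mono hsub).trans ((measure_biUnion_finset_le _ _).trans
    ((Finset.sum_le_sum hterm).trans ?_))
  rw [Finset.sum_const, Finset.card_powersetCard, Finset.card_compl, Fintype.card_fin,
    nsmul_eq_mul]
  have h5 : 0 ≤ (1 - q ^ τ) ^ (τ - R.card) * q ^ (τ * (n - τ)) :=
    mul_nonneg (pow_nonneg (by linarith) _) (pow_nonneg hq0 _)
  have h6 : bnd n p R.card τ = ((n - R.card).choose (τ - R.card) : ℝ) *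
      ((1 - q ^ τ) ^ (τ - R.card) * q ^ (τ * (n - τ))) := by
    unfold bnd; ring
  rw [h6, ENNReal.ofReal_mul (Nat.cast_nonneg _), ENNReal.ofReal_natCast]
  rw [mul_left_comm]

end RST
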