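import Pool.Agent.Work.MP_5ba30e_pr.Far_exc_incr

/-!
# Far_M3 : cyclomatic number at the critical window
-/

open MeasureTheory Set Filter Finset
open scoped ENNReal Topology Classical

noncomputable section

namespace RST

variable {n : ℕ}

theorem measurable_exc (p : ℝ) : Measurable fun ω : Env n => ENNReal.ofReal (exc (Gr ω p) : ℝ) :=
  ((LevDep.gr p).comp fun G => ENNReal.ofReal ((exc G : ℤ) : ℝ)).measurable

theorem Gr_zero_ae : ∀ᵐ ω ∂(mu n), Gr ω 0 = ⊥ := by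
  have h1 : ∀ e : Sym2 (Fin n), ∀ᵐ ω ∂(mu n), 0 < ω e := by
    intro e
    rw [MeasureTheory.ae_iff]
    have h2 := mu_le_all (n := n) {e} (p := 0) le_rfl zero_le_one
    simpa using h2
  have h3 : ∀ᵐ ω ∂(mu n), ∀ e : Sym2 (Fin n), 0 < ω e := by
    rw [MeasureTheory.ae_all_iff]
    exact h1
  filter_upwards [h3] with ω hω
  ext i j
  simp only [SimpleGraph.bot_adj, iff_false]
  exact fun h => absurd h.2 (not_le.2 (hω _))

theorem exc_one : ∫⁻ ω, ENNReal.ofReal (exc (Gr ω 0) : ℝ) ∂(mu n) = 0 := by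
  rw [lintegral_eq_zero_iff (measurable_exc 0)]
  filter_upwards [Gr_zero_ae] with ω hω
  rw [hω, exc_bot]
  simp

theorem exc_split {p₁ p₂ : ℝ} (B : Env n → Prop) :
    ∫⁻ ω, ENNReal.ofReal (exc (Gr ω p₂) : ℝ) * ind (B ω) ∂(mu n) ≤
      ∫⁻ ω, ENNReal.ofReal ((exc (Gr ω p₂) : ℝ) - exc (Gr ω p₁)) * ind (B ω) ∂(mu n) +
      ∫⁻ ω, ENNReal.ofReal (exc (Gr ω p₁) : ℝ) ∂(mu n) := by
  rw [← lintegral_add_right _ (measurable_exc p₁)]
  refine lintegral_mono fun ω => ?_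
  by_cases h : B ω
  · simp only [ind, h, if_true, mul_one]
    have h2 : (exc (Gr ω p₂) : ℝ) = ((exc (Gr ω p₂) : ℝ) - exc (Gr ω p₁)) + exc (Gr ω p₁) := by ring
    calc ENNReal.ofReal (exc (Gr ω p₂) : ℝ)
        = ENNReal.ofReal (((exc (Gr ω p₂) : ℝ) - exc (Gr ω p₁)) + exc (Gr ω p₁)) := by rw [← h2]
      _ ≤ _ := ENNReal.ofReal_add_le
  · simp [ind, h]

theorem exp_comp_sub (hn : 3 ≤ n) {δ : ℝ} (hδ : 0 < δ) (hδ1 : δ ≤ 1) (v : Fin n) :
    ∫⁻ ω, ((comp (Gr ω ((1 - δ) / n)) v).card : ℝ≥0∞) ∂(mu n) ≤ ENNReal.ofReal (1 / δ) := by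
  have hn0 : (0 : ℝ) < n := by exact_mod_cast (by omega : 0 < n)
  have h1 : ∀ ω : Env n, Gout ω ((1 - δ) / n) ∅ = Gr ω ((1 - δ) / n) := by
    intro ω
    ext i j
    simp [Gout, Gr]
  have hnp : ((n : ℝ) - (∅ : Finset (Fin n)).card) * ((1 - δ) / n) = 1 - δ := by
    simp only [Finset.card_empty, Nat.cast_zero, sub_zero]
    field_simp
  have h2 := exp_comp_avoid (n := n) ∅ (p := (1 - δ) / n)
    (div_nonneg (by linarith) hn0.le) (by
      rw [div_le_one hn0]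
      have : (3 : ℝ) ≤ n := by exact_mod_cast hn
      linarith) (by rw [hnp]; linarith) v
  rw [hnp] at h2
  simp only [h1] at h2
  refine h2.trans (ENNReal.ofReal_le_ofReal (le_of_eq ?_))
  congr 1
  ring

theorem exc_step (hn : 3 ≤ n) {δ δ' : ℝ} (hδ : 0 < δ) (h : δ ≤ δ') (h2 : δ' ≤ 2 * δ)
    (hδ1 : δ' ≤ 1) :
    ∫⁻ ω, ENNReal.ofReal (exc (Gr ω ((1 - δ) / n)) : ℝ) ∂(mu n) ≤
      1 + ∫⁻ ω, ENNReal.ofReal (exc (Gr ω ((1 - δ') / n)) : ℝ) ∂(mu n) := by
  have hn0 : (0 : ℝ) < n := by exact_mod_cast (by omega : 0 < n)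
  have hn3 : (3 : ℝ) ≤ n := by exact_mod_cast hn
  have h3 := exc_split (n := n) (p₁ := (1 - δ') / n) (p₂ := (1 - δ) / n)
    (fun ω => ∀ v, ((comp (Gr ω ((1 - δ) / n)) v).card : ℝ) ≤ n)
  have h4 : ∀ ω : Env n, ∀ v, ((comp (Gr ω ((1 - δ) / n)) v).card : ℝ) ≤ n := by
    intro ω v
    have := Finset.card_le_univ (comp (Gr ω ((1 - δ) / n)) v)
    rw [Fintype.card_fin] at this
    exact_mod_cast this
  have h5 := exc_incr (n := n) (p₁ := (1 - δ') / n) (p₂ := (1 - δ) / n) (M := n)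
    (div_nonneg (by linarith) hn0.le) (by gcongr) (by
      rw [div_le_iff₀ hn0]
      linarith)
  have h6 : ∑ v : Fin n, ∫⁻ ω, (if ((comp (Gr ω ((1 - δ) / n)) v).card : ℝ) ≤ n then
      ((comp (Gr ω ((1 - δ) / n)) v).card : ℝ≥0∞) else 0) ∂(mu n) ≤
      ENNReal.ofReal (n * (1 / δ)) := by
    calc ∑ v : Fin n, ∫⁻ ω, (if ((comp (Gr ω ((1 - δ) / n)) v).card : ℝ) ≤ n then
          ((comp (Gr ω ((1 - δ) / n)) v).card : ℝ≥0∞) else 0) ∂(mu n)
        ≤ ∑ v : Fin n, ENNReal.ofReal (1 / δ) := by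
          refine Finset.sum_le_sum fun v _ => ?_
          refine le_trans (lintegral_mono fun ω => ?_) (exp_comp_sub hn hδ (by linarith) v)
          simp only [h4, if_true]
          exact le_rfl
      _ = ENNReal.ofReal (n * (1 / δ)) := by
          rw [Finset.sum_const, Finset.card_univ, Fintype.card_fin, nsmul_eq_mul,
            ENNReal.ofReal_mul (Nat.cast_nonneg _), ENNReal.ofReal_natCast]
  have h7 : ENNReal.ofReal ((1 - δ) / n - (1 - δ') / n) * ENNReal.ofReal (n * (1 / δ)) ≤ 1 := by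
    rw [← ENNReal.ofReal_mul (by
      rw [← sub_div]
      exact div_nonneg (by linarith) hn0.le)]
    rw [ENNReal.ofReal_le_one]
    have h8 : ((1 - δ) / n - (1 - δ') / n) * (n * (1 / δ)) = (δ' - δ) / δ := by
      field_simp
      ring
    rw [h8, div_le_one hδ]
    linarith
  have h9 := h5.trans ((mul_le_mul_right h6 _).trans h7)
  simp only [h4, implies_true, ind, if_true, mul_one] at h3 h9
  exact h3.trans (add_le_add h9 le_rfl)

theorem exc_dyadic (hn : 3 ≤ n) (k : ℕ) : ∀ δ : ℝ, 0 < δ → δ ≤ 1 → 1 ≤ 2 ^ k * δ →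
    ∫⁻ ω, ENNReal.ofReal (exc (Gr ω ((1 - δ) / n)) : ℝ) ∂(mu n) ≤ k := by
  induction k with
  | zero =>
    intro δ hδ hδ1 h
    have h1 : δ = 1 := by
      simp only [pow_zero, one_mul] at h
      linarith
    subst h1
    simp only [sub_self, zero_div, exc_one]
    simp
  | succ k ih =>
    intro δ hδ hδ1 h
    have h1 : 0 < min (2 * δ) 1 := lt_min (by linarith) one_pos
    have h2 : 1 ≤ 2 ^ k * min (2 * δ) 1 := by
      rcases le_total (2 * δ) 1 with h3 | h3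
      · rw [min_eq_left h3]
        rw [pow_succ] at h
        linarith
      · rw [min_eq_right h3, mul_one]
        exact one_le_pow₀ (by norm_num)
    have h4 := exc_step hn hδ (le_min (by linarith) hδ1) (min_le_left (2 * δ) 1)
      (min_le_right _ _)
    refine h4.trans ?_
    rw [Nat.cast_succ, add_comm (k : ℝ≥0∞)]
    exact add_le_add le_rfl (ih _ h1 (min_le_right _ _) h2)

/-- expected cyclomatic number at the level `(1-δ)/n` -/
theorem exc_sub (hn : 3 ≤ n) {δ : ℝ} (hδ : 1 / (n : ℝ) ≤ δ) (hδ1 : δ ≤ 1) :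
    ∫⁻ ω, ENNReal.ofReal (exc (Gr ω ((1 - δ) / n)) : ℝ) ∂(mu n) ≤
      ENNReal.ofReal (4 * Real.log n) := by
  have hn0 : (0 : ℝ) < n := by exact_mod_cast (by omega : 0 < n)
  have hn3 : (3 : ℝ) ≤ n := by exact_mod_cast hn
  have hδ0 : 0 < δ := lt_of_lt_of_le (by positivity) hδ
  have h1 : 1 ≤ (2 : ℝ) ^ (Nat.clog 2 n) * δ := by
    have h2 : (n : ℝ) ≤ 2 ^ (Nat.clog 2 n) := by
      exact_mod_cast Nat.le_pow_clog (by norm_num) n
    calc (1 : ℝ) = n * (1 / n) := by field_simp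
      _ ≤ 2 ^ (Nat.clog 2 n) * δ := by gcongr
  refine (exc_dyadic hn _ δ hδ0 hδ1 h1).trans ?_
  rw [← ENNReal.ofReal_natCast]
  refine ENNReal.ofReal_le_ofReal ?_
  have hk1 : 1 ≤ Nat.clog 2 n := Nat.clog_pos (by norm_num) (by omega)
  have h3 : (2 : ℝ) ^ (Nat.clog 2 n - 1) < n := by
    have := Nat.pow_pred_clog_lt_self (b := 2) (by norm_num) (x := n) (by omega)
    exact_mod_cast this
  have h4 : ((Nat.clog 2 n - 1 : ℕ) : ℝ) * Real.log 2 ≤ Real.log n := by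
    rw [← Real.log_pow]
    exact Real.log_le_log (by positivity) h3.le
  rw [Nat.cast_sub hk1, Nat.cast_one] at h4
  have h5 : (0.69 : ℝ) ≤ Real.log 2 := by
    have := Real.log_two_gt_d9
    linarith
  have h6 : 1 ≤ Real.log n := by
    rw [Real.le_log_iff_exp_le hn0]
    have := Real.exp_one_lt_d9
    linarith
  have h7 : (0 : ℝ) ≤ (Nat.clog 2 n : ℝ) - 1 := by
    have : (1 : ℝ) ≤ Nat.clog 2 n := by exact_mod_cast hk1
    linarith
  nlinarith

theorem db_eq {δ : ℝ} (h : δ ≤ 1) : db δ = δ := min_eq_left h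

theorem comp_le_of_bigC {δ K : ℝ} {ω : Env n} (hK : thr n δ ≤ K)
    (h : ((bigC (Gr ω ((1 + δ) / n)) (thr n δ)).card : ℝ) ≤ K) (v : Fin n) :
    ((comp (Gr ω ((1 + δ) / n)) v).card : ℝ) ≤ K := by
  by_cases hv : v ∈ bigC (Gr ω ((1 + δ) / n)) (thr n δ)
  · refine le_trans (Nat.cast_le.2 (Finset.card_le_card fun u hu => ?_)) h
    have h1 : (Gr ω ((1 + δ) / n)).Reachable v u := (Finset.mem_filter.1 hu).2
    have h2 : comp (Gr ω ((1 + δ) / n)) u = comp (Gr ω ((1 + δ) / n)) v := by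
      ext z
      simp only [comp, Finset.mem_filter, Finset.mem_univ, true_and]
      exact ⟨fun h => h1.trans h, fun h => h1.symm.trans h⟩
    refine Finset.mem_filter.2 ⟨Finset.mem_univ _, ?_⟩
    rw [h2]
    exact (Finset.mem_filter.1 hv).2
  · have h3 : ¬ thr n δ < ((comp (Gr ω ((1 + δ) / n)) v).card : ℝ) := fun h4 =>
      hv (Finset.mem_filter.2 ⟨Finset.mem_univ _, h4⟩)
    exact (not_lt.1 h3).trans hK

/-- cyclomatic number at the level `(1+δ)/n` -/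
theorem exc_small (c : ℝ) (hc : 0 < c) (hc1 : c ≤ 1 / 3) :
    ∃ n₀ : ℕ, ∀ n ≥ n₀, ∀ δ, (n : ℝ) ^ (-(1 / 3 : ℝ) + c) ≤ δ → δ ≤ 1 →
      mu n {ω | Real.log n ^ 7 * δ ^ 3 * n < (exc (Gr ω ((1 + δ) / n)) : ℝ)} ≤
        ENNReal.ofReal (1 / Real.log n) := by
  obtain ⟨n₁, h₁⟩ := giant_upp c 1 hc hc1
  have e4 : ∀ᶠ n : ℕ in atTop, 7000 ≤ Real.log n :=
    (Real.tendsto_log_atTop.comp tendsto_natCast_atTop_atTop).eventually_ge_atTop 7000
  obtain ⟨n₀, h₀⟩ := Filter.eventually_atTop.1 (e4.and (Filter.eventually_ge_atTop n₁))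
  refine ⟨max n₀ 4, fun n hn δ hδ hδ1 => ?_⟩
  obtain ⟨g4, gn⟩ := h₀ n (le_trans (le_max_left _ _) hn)
  have hn4 : 4 ≤ n := le_trans (le_max_right _ _) hn
  have hn0 : (0 : ℝ) < n := by exact_mod_cast (by omega : 0 < n)
  have hn4' : (4 : ℝ) ≤ n := by exact_mod_cast hn4
  have hδ0 : 0 < δ := lt_of_lt_of_le (Real.rpow_pos_of_pos hn0 _) hδ
  set L := Real.log n with hL
  have hL0 : 0 < L := by linarith
  have hL1 : 1 ≤ L := by linarith
  have hupp := h₁ n gn δ ⟨hδ, by linarith⟩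
  rw [db_eq hδ1] at hupp
  -- `X = δ³ n ≥ 1`
  have hX1 : 1 ≤ δ ^ 3 * n := by
    have h13 : ((n : ℝ) ^ (-(1 / 3 : ℝ) + c)) ^ 3 ≤ δ ^ 3 :=
      pow_le_pow_left₀ (Real.rpow_nonneg hn0.le _) hδ 3
    have h14 : ((n : ℝ) ^ (-(1 / 3 : ℝ) + c)) ^ 3 * n = (n : ℝ) ^ (3 * c) := by
      rw [← Real.rpow_natCast, ← Real.rpow_mul hn0.le]
      nth_rewrite 2 [← Real.rpow_one (n : ℝ)]
      rw [← Real.rpow_add hn0]
      congr 1
      push_cast
      ring
    calc (1 : ℝ) ≤ (n : ℝ) ^ (3 * c) := Real.one_le_rpow (by linarith) (by positivity)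
      _ = ((n : ℝ) ^ (-(1 / 3 : ℝ) + c)) ^ 3 * n := h14.symm
      _ ≤ δ ^ 3 * n := by gcongr
  set X : ℝ := δ ^ 3 * n with hX
  have hδn : 1 / (n : ℝ) ≤ δ := by
    refine le_trans ?_ hδ
    rw [one_div, ← Real.rpow_neg_one]
    exact Real.rpow_le_rpow_of_exponent_le (by linarith) (by linarith)
  have hdX : X ≤ δ * n := by
    rw [hX]
    have : δ ^ 3 ≤ δ := by
      calc δ ^ 3 = δ * δ ^ 2 := by ring
        _ ≤ δ * 1 := by
            gcongr
            exact pow_le_one₀ hδ0.le hδ1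
        _ = δ := mul_one δ
    gcongr
  set M : ℝ := L ^ 5 * δ * n with hM
  have hL5 : 1 ≤ L ^ 5 := one_le_pow₀ hL1
  have hM1 : δ * n ≤ M := by
    rw [hM, mul_assoc]
    exact le_mul_of_one_le_left (by positivity) hL5
  have hM2 : 1 ≤ M := by linarith
  have hthr : thr n δ ≤ M := by
    refine le_trans ?_ hM1
    unfold thr
    refine div_le_self (by positivity) ?_
    nlinarith
  -- expectation on the good event
  have h3 := exc_split (n := n) (p₁ := (1 - δ) / n) (p₂ := (1 + δ) / n)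
    (fun ω => ∀ v, ((comp (Gr ω ((1 + δ) / n)) v).card : ℝ) ≤ M)
  have h5 := exc_incr (n := n) (p₁ := (1 - δ) / n) (p₂ := (1 + δ) / n) (M := M)
    (div_nonneg (by linarith) hn0.le) (by gcongr; linarith) (by
      rw [div_le_iff₀ hn0]
      linarith)
  have h6 : ∑ v : Fin n, ∫⁻ ω, (if ((comp (Gr ω ((1 + δ) / n)) v).card : ℝ) ≤ M then
      ((comp (Gr ω ((1 + δ) / n)) v).card : ℝ≥0∞) else 0) ∂(mu n) ≤
      ENNReal.ofReal (n * (2000 * Real.sqrt M + 1000 * δ * M)) := by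
    calc ∑ v : Fin n, ∫⁻ ω, (if ((comp (Gr ω ((1 + δ) / n)) v).card : ℝ) ≤ M then
          ((comp (Gr ω ((1 + δ) / n)) v).card : ℝ≥0∞) else 0) ∂(mu n)
        ≤ ∑ v : Fin n, ENNReal.ofReal (2000 * Real.sqrt M + 1000 * δ * M) :=
          Finset.sum_le_sum fun v _ => surv_trunc (by omega) hδn hδ1 hM2 v
      _ = ENNReal.ofReal (n * (2000 * Real.sqrt M + 1000 * δ * M)) := by
          rw [Finset.sum_const, Finset.card_univ, Fintype.card_fin, nsmul_eq_mul,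
            ENNReal.ofReal_mul (Nat.cast_nonneg _), ENNReal.ofReal_natCast]
  have h7 : ENNReal.ofReal ((1 + δ) / n - (1 - δ) / n) *
      ENNReal.ofReal (n * (2000 * Real.sqrt M + 1000 * δ * M)) ≤
      ENNReal.ofReal (6000 * (L ^ 5 * X)) := by
    rw [← ENNReal.ofReal_mul (by
      rw [← sub_div]
      exact div_nonneg (by linarith) hn0.le)]
    refine ENNReal.ofReal_le_ofReal ?_
    have h8 : ((1 + δ) / n - (1 - δ) / n) * (n * (2000 * Real.sqrt M + 1000 * δ * M)) =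
        4000 * (δ * Real.sqrt M) + 2000 * (δ * (δ * M)) := by
      field_simp
      ring
    have h9 : δ * Real.sqrt M = Real.sqrt (L ^ 5 * X) := by
      rw [show L ^ 5 * X = δ ^ 2 * M by rw [hX, hM]; ring,
        Real.sqrt_mul (by positivity : (0 : ℝ) ≤ δ ^ 2) M, Real.sqrt_sq hδ0.le]
    have h10 : δ * (δ * M) = L ^ 5 * X := by
      rw [hX, hM]
      ring
    have h11 : 1 ≤ L ^ 5 * X := one_le_mul_of_one_le_of_one_le hL5 hX1
    have h12 : Real.sqrt (L ^ 5 * X) ≤ L ^ 5 * X := by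
      rw [Real.sqrt_le_left (by linarith)]
      nlinarith
    rw [h8, h9, h10]
    linarith
  have h13 := exc_sub (n := n) (by omega) hδn hδ1
  have hE : ∫⁻ ω, ENNReal.ofReal (exc (Gr ω ((1 + δ) / n)) : ℝ) *
      ind (∀ v, ((comp (Gr ω ((1 + δ) / n)) v).card : ℝ) ≤ M) ∂(mu n) ≤
      ENNReal.ofReal (6004 * (L ^ 5 * X)) := by
    refine h3.trans ((add_le_add (h5.trans ((mul_le_mul_right h6 _).trans h7)) h13).trans ?_)
    rw [← ENNReal.ofReal_add (by positivity) (by positivity)]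
    refine ENNReal.ofReal_le_ofReal ?_
    have h14 : L ≤ L ^ 5 * X := by
      calc L = L * 1 * 1 := by ring
        _ ≤ L * L ^ 4 * X := by
            have : 1 ≤ L ^ 4 := one_le_pow₀ hL1
            gcongr
        _ = L ^ 5 * X := by ring
    linarith
  -- Markov
  have hm : Measurable fun ω : Env n => ENNReal.ofReal (exc (Gr ω ((1 + δ) / n)) : ℝ) *
      ind (∀ v, ((comp (Gr ω ((1 + δ) / n)) v).card : ℝ) ≤ M) :=
    ((LevDep.gr _).comp fun G => ENNReal.ofReal ((exc G : ℤ) : ℝ) *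
      ind (∀ v, ((comp G v).card : ℝ) ≤ M)).measurable
  have hK : 0 < L ^ 7 * X := by positivity
  have hMk := meas_ge_le_lintegral_div (μ := mu n) hm.aemeasurable
    (ε := ENNReal.ofReal (L ^ 7 * X)) (by simpa using hK) ENNReal.ofReal_ne_top
  have hMk2 := hMk.trans (ENNReal.div_le_div_right hE _)
  rw [← ENNReal.ofReal_div_of_pos hK] at hMk2
  have hsub : {ω : Env n | L ^ 7 * δ ^ 3 * n < (exc (Gr ω ((1 + δ) / n)) : ℝ)} ⊆
      {ω | L ^ 5 * δ * n < ((bigC (Gr ω ((1 + δ) / n)) (thr n δ)).card : ℝ)} ∪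
      {ω | ENNReal.ofReal (L ^ 7 * X) ≤ ENNReal.ofReal (exc (Gr ω ((1 + δ) / n)) : ℝ) *
        ind (∀ v, ((comp (Gr ω ((1 + δ) / n)) v).card : ℝ) ≤ M)} := by
    intro ω hω
    by_cases hb : L ^ 5 * δ * n < ((bigC (Gr ω ((1 + δ) / n)) (thr n δ)).card : ℝ)
    · exact Or.inl hb
    · right
      have h15 := comp_le_of_bigC hthr (not_lt.1 hb)
      show ENNReal.ofReal (L ^ 7 * X) ≤ ENNReal.ofReal (exc (Gr ω ((1 + δ) / n)) : ℝ) *
        ind (∀ v, ((comp (Gr ω ((1 + δ) / n)) v).card : ℝ) ≤ M)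
      rw [ind, if_pos h15, mul_one]
      refine ENNReal.ofReal_le_ofReal ?_
      have h16 : L ^ 7 * δ ^ 3 * n < (exc (Gr ω ((1 + δ) / n)) : ℝ) := hω
      rw [hX]
      linarith
  refine (measure_mono hsub).trans ((measure_union_le _ _).trans
    ((add_le_add hupp hMk2).trans ?_))
  rw [← ENNReal.ofReal_add (by positivity) (by positivity)]
  refine ENNReal.ofReal_le_ofReal ?_
  have h17 : 6004 * (L ^ 5 * X) / (L ^ 7 * X) = 6004 / L ^ 2 := by
    have : X ≠ 0 := by positivity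
    field_simp
  rw [h17]
  have h18 : 1 / L ^ 4 ≤ 1 / L ^ 2 := by
    refine one_div_le_one_div_of_le (by positivity) ?_
    exact pow_le_pow_right₀ hL1 (by norm_num)
  have h19 : 6005 / L ^ 2 ≤ 1 / L := by
    rw [div_le_div_iff₀ (by positivity) hL0]
    nlinarith
  have h20 : 1 / L ^ 2 + 6004 / L ^ 2 = 6005 / L ^ 2 := by
    rw [← add_div]
    norm_num
  linarith

end RST
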