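import Pool.Agent.Work.MP_5ba30e_pr.Far_M1
import Pool.Agent.Work.MP_5ba30e_pr.Far_M3

/-!
# Far : lower bound for the diameter of the giant component, and its excess
(used at very low temperature)

* `far` is in `Far_M1`;
* `exc_incr` is in `Far_exc_incr`;
* `exc_sub` and `exc_small` are in `Far_M3`.
-/
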