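import Pool.Agent.Work.MP_5ba30e_pr.TreeA

/-!
# Piece : pieces of small diameter for the trace of a spanning tree on a component

`exc G = |E(G)| - n + number of components` is the cyclomatic number.
-/

open MeasureTheory Set Filter Finset
open scoped ENNReal Topology Classical

set_option linter.unusedVariables false

noncomputable section

namespace RST

variable {n : ℕ}

/-- number of components -/
def ncomp (G : SimpleGraph (Fin n)) : ℕ := Nat.card G.ConnectedComponent

/-- cyclomatic number -/
def exc (G : SimpleGraph (Fin n)) : ℤ := ((ef G).card : ℤ) - n + ncomp G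

theorem reach_del {H : SimpleGraph (Fin n)} {x y a b : Fin n} (h : H.Reachable a b) :
    (H.deleteEdges {s(x, y)}).Reachable a b ∨
      ((H.deleteEdges {s(x, y)}).Reachable a x ∧ (H.deleteEdges {s(x, y)}).Reachable y b) ∨
      ((H.deleteEdges {s(x, y)}).Reachable a y ∧ (H.deleteEdges {s(x, y)}).Reachable x b) := by
  obtain ⟨w⟩ := h
  induction w with
  | nil => exact Or.inl (SimpleGraph.Reachable.refl _)
  | @cons u v t huv w ih =>
    by_cases he : s(u, v) = s(x, y)
    · rw [Sym2.eq_iff] at he
      rcases he with ⟨rfl, rfl⟩ | ⟨rfl, rfl⟩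
      · rcases ih with ih | ih | ih
        · exact Or.inr (Or.inl ⟨SimpleGraph.Reachable.refl _, ih⟩)
        · exact Or.inr (Or.inl ⟨SimpleGraph.Reachable.refl _, ih.2⟩)
        · exact Or.inl ih.2
      · rcases ih with ih | ih | ih
        · exact Or.inr (Or.inr ⟨SimpleGraph.Reachable.refl _, ih⟩)
        · exact Or.inl ih.2
        · exact Or.inr (Or.inr ⟨SimpleGraph.Reachable.refl _, ih.2⟩)
    · have hadj : (H.deleteEdges {s(x, y)}).Adj u v := by
        rw [SimpleGraph.deleteEdges_adj]
        exact ⟨huv, by simpa using he⟩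
      rcases ih with ih | ih | ih
      · exact Or.inl (hadj.reachable.trans ih)
      · exact Or.inr (Or.inl ⟨hadj.reachable.trans ih.1, ih.2⟩)
      · exact Or.inr (Or.inr ⟨hadj.reachable.trans ih.1, ih.2⟩)

theorem ncomp_del {H : SimpleGraph (Fin n)} (x y : Fin n) :
    ncomp (H.deleteEdges {s(x, y)}) ≤ ncomp H + 1 := by
  set H' := H.deleteEdges {s(x, y)} with hH'
  have hle : H' ≤ H := SimpleGraph.deleteEdges_le _
  let φ : H'.ConnectedComponent → Option H.ConnectedComponent := fun c =>
    if c = H'.connectedComponentMk x then none else some (c.map (SimpleGraph.Hom.ofLE hle))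
  have hφ : Function.Injective φ := by
    intro c c' h
    simp only [φ] at h
    by_cases h1 : c = H'.connectedComponentMk x
    · by_cases h2 : c' = H'.connectedComponentMk x
      · rw [h1, h2]
      · rw [if_pos h1, if_neg h2] at h
        exact absurd h (by simp)
    · by_cases h2 : c' = H'.connectedComponentMk x
      · rw [if_neg h1, if_pos h2] at h
        exact absurd h (by simp)
      · rw [if_neg h1, if_neg h2, Option.some_inj] at h
        induction c using SimpleGraph.ConnectedComponent.ind with
        | h a =>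
          induction c' using SimpleGraph.ConnectedComponent.ind with
          | h b =>
            rw [SimpleGraph.ConnectedComponent.map_mk, SimpleGraph.ConnectedComponent.map_mk,
              SimpleGraph.ConnectedComponent.eq] at h
            rw [SimpleGraph.ConnectedComponent.eq] at h1 h2 ⊢
            have h' : H.Reachable a b := h
            rcases reach_del (x := x) (y := y) h' with h3 | h3 | h3
            · exact h3
            · exact absurd h3.1 h1
            · exact absurd h3.2.symm h2
  unfold ncomp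
  calc Nat.card H'.ConnectedComponent ≤ Nat.card (Option H.ConnectedComponent) :=
        Nat.card_le_card_of_injective φ hφ
    _ = Nat.card H.ConnectedComponent + 1 := by
        rw [Nat.card_eq_fintype_card, Nat.card_eq_fintype_card, Fintype.card_option]

theorem mem_ef {G : SimpleGraph (Fin n)} {g : Sym2 (Fin n)} : g ∈ ef G ↔ g ∈ G.edgeSet := by
  unfold ef
  rw [Finset.mem_filter]
  simp

theorem ef_del {H : SimpleGraph (Fin n)} (e : Sym2 (Fin n)) :
    ef (H.deleteEdges {e}) = (ef H).erase e := by
  ext g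
  rw [mem_ef, Finset.mem_erase, mem_ef, SimpleGraph.edgeSet_deleteEdges, Set.mem_sdiff,
    Set.mem_singleton_iff]
  tauto

/-- adding an edge increases `exc` by `0` or `1` -/
theorem exc_mono {G H : SimpleGraph (Fin n)} (h : G ≤ H) : exc G ≤ exc H := by
  obtain ⟨k, hk⟩ : ∃ k, (ef H \ ef G).card = k := ⟨_, rfl⟩
  induction k generalizing H with
  | zero =>
    rw [Finset.card_eq_zero, Finset.sdiff_eq_empty_iff_subset] at hk
    have : G = H := by
      refine le_antisymm h ?_
      rw [← SimpleGraph.edgeSet_subset_edgeSet]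
      intro e he
      exact mem_ef.1 (hk (mem_ef.2 he))
    rw [this]
  | succ k ih =>
    have hne : (ef H \ ef G).Nonempty := by
      rw [← Finset.card_pos, hk]; omega
    obtain ⟨e, he⟩ := hne
    rw [Finset.mem_sdiff, mem_ef, mem_ef] at he
    have h1 : G ≤ H.deleteEdges {e} := by
      rw [← SimpleGraph.edgeSet_subset_edgeSet, SimpleGraph.edgeSet_deleteEdges]
      intro g hg
      refine ⟨SimpleGraph.edgeSet_subset_edgeSet.2 h hg, ?_⟩
      rintro rfl
      exact he.2 hg
    have h2 : (ef (H.deleteEdges {e}) \ ef G).card = k := by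
      rw [ef_del]
      have h3 : (ef H).erase e \ ef G = (ef H \ ef G).erase e := by
        ext g
        simp only [Finset.mem_sdiff, Finset.mem_erase]
        tauto
      rw [h3, Finset.card_erase_of_mem, hk]
      · rfl
      · rw [Finset.mem_sdiff, mem_ef, mem_ef]; exact he
    refine (ih h1 h2).trans ?_
    unfold exc
    have h4 : (ef (H.deleteEdges {e})).card + 1 = (ef H).card := by
      rw [ef_del, Finset.card_erase_add_one (mem_ef.2 he.1)]
    have h5 : ncomp (H.deleteEdges {e}) ≤ ncomp H + 1 := by
      induction e with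
      | h x y => exact ncomp_del x y
    omega

theorem exc_bot : exc (⊥ : SimpleGraph (Fin n)) = 0 := by
  unfold exc
  have h1 : ef (⊥ : SimpleGraph (Fin n)) = ∅ := by
    ext g
    rw [mem_ef]
    simp
  have h2 : ncomp (⊥ : SimpleGraph (Fin n)) = n := by
    unfold ncomp
    have hb : Function.Bijective
        (fun v : Fin n => (⊥ : SimpleGraph (Fin n)).connectedComponentMk v) := by
      constructor
      · intro a b hab
        simp only [SimpleGraph.ConnectedComponent.eq] at hab
        obtain ⟨w⟩ := hab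
        cases w with
        | nil => rfl
        | cons h _ => exact absurd h (by simp)
      · intro c
        induction c using SimpleGraph.ConnectedComponent.ind with
        | h a => exact ⟨a, rfl⟩
    rw [← Nat.card_eq_of_bijective _ hb]
    simp
  rw [h1, h2]
  simp

theorem exc_nonneg (G : SimpleGraph (Fin n)) : 0 ≤ exc G := by
  rw [← exc_bot (n := n)]
  exact exc_mono bot_le

/-- a graph which contains `T₀` and does not connect more -/
theorem ncomp_le {G K : SimpleGraph (Fin n)} (hle : G ≤ K)
    (h : ∀ a b, K.Adj a b → G.Reachable a b) : ncomp G ≤ ncomp K := by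
  have hr : ∀ a b, K.Reachable a b → G.Reachable a b := by
    rintro a b ⟨w⟩
    induction w with
    | nil => exact SimpleGraph.Reachable.refl _
    | cons huv w ih => exact (h _ _ huv).trans ih
  unfold ncomp
  refine Nat.card_le_card_of_injective
    (fun c => c.map (SimpleGraph.Hom.ofLE hle)) ?_
  intro c c' hc
  induction c using SimpleGraph.ConnectedComponent.ind with
  | h a =>
    induction c' using SimpleGraph.ConnectedComponent.ind with
    | h b =>
      simp only [SimpleGraph.ConnectedComponent.map_mk] at hc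
      rw [SimpleGraph.ConnectedComponent.eq] at hc ⊢
      exact hr a b hc

/-- Let `C` be a set of vertices such that the graph `G` (think of `Gr ω p₀`) restricted to `C` is
a union of components of `G`: `C = comp G x₀`. Let `T` be a tree whose edges on the paths between
vertices of `C` are in `H ≥ G`. Suppose that each ball of `G` of radius `R` and center in `C` has at
least `v₀` elements. Then `C` is covered by at most `|C|/v₀ + exc H` sets of `T`-diameter `≤ 4R`. -/
theorem piece {G H T : SimpleGraph (Fin n)} (hT : T.IsTree) (hGH : G ≤ H) (x₀ : Fin n)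
    (hTH : ∀ x ∈ comp G x₀, ∀ y ∈ comp G x₀, ∀ f, onp T x y f → f ∈ H.edgeSet)
    (R : ℕ) {v₀ : ℝ} (hv₀ : 0 < v₀) (hball : ∀ x ∈ comp G x₀, v₀ ≤ ((bl G x R).card : ℝ)) :
    ∃ c : Fin n → Fin n, (((comp G x₀).image c).card : ℝ) ≤ (comp G x₀).card / v₀ + exc H ∧
      ∀ x ∈ comp G x₀, ∀ y ∈ comp G x₀, c x = c y → T.dist x y ≤ 4 * R := by
  set C := comp G x₀ with hC
  have hmemC : ∀ u, u ∈ C ↔ G.Reachable x₀ u := by
    intro u; rw [hC]; unfold comp; rw [Finset.mem_filter]; simp
  have hblC : ∀ x ∈ C, bl G x R ⊆ C := by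
    intro x hx y hy
    unfold bl at hy
    rw [Finset.mem_filter] at hy
    obtain ⟨-, w, -⟩ := hy
    rw [hmemC] at hx ⊢
    exact hx.trans w.reachable
  have hself : ∀ x, x ∈ bl G x R := by
    intro x
    unfold bl
    rw [Finset.mem_filter]
    exact ⟨Finset.mem_univ _, SimpleGraph.Walk.nil, by simp⟩
  -- the centers
  obtain ⟨X, hXmem, hXmax⟩ := Finset.exists_max_image
    (C.powerset.filter fun Y : Finset (Fin n) =>
      (Y : Set (Fin n)).PairwiseDisjoint fun x => bl G x R)
    (fun Y => Y.card) ⟨∅, by simp⟩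
  rw [Finset.mem_filter, Finset.mem_powerset] at hXmem
  obtain ⟨hXC, hXd⟩ := hXmem
  have hXcard : (X.card : ℝ) ≤ C.card / v₀ := by
    rw [le_div_iff₀ hv₀]
    have h1 : (X.biUnion fun x => bl G x R).card = ∑ x ∈ X, (bl G x R).card :=
      Finset.card_biUnion hXd
    have h2 : (X.biUnion fun x => bl G x R) ⊆ C := by
      intro y hy
      rw [Finset.mem_biUnion] at hy
      obtain ⟨x, hx, hy⟩ := hy
      exact hblC x (hXC hx) hy
    have h3 : (∑ x ∈ X, ((bl G x R).card : ℝ)) ≤ C.card := by
      have := Finset.card_le_card h2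
      rw [h1] at this
      exact_mod_cast this
    have h4 : (X.card : ℝ) * v₀ ≤ ∑ x ∈ X, ((bl G x R).card : ℝ) := by
      rw [← nsmul_eq_mul]
      exact Finset.card_nsmul_le_sum _ _ _ fun x hx => hball x (hXC hx)
    exact h4.trans h3
  have hcov : ∀ v ∈ C, ∃ x ∈ X, ∃ w : G.Walk v x, w.length ≤ 2 * R := by
    intro v hv
    by_contra hcon
    push Not at hcon
    have hdis : ∀ x ∈ X, Disjoint (bl G v R) (bl G x R) := by
      intro x hx
      rw [Finset.disjoint_left]
      intro y hy hy'
      unfold bl at hy hy'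
      rw [Finset.mem_filter] at hy hy'
      obtain ⟨-, w, hw⟩ := hy
      obtain ⟨-, w', hw'⟩ := hy'
      have := hcon x hx (w.append w'.reverse)
      rw [SimpleGraph.Walk.length_append, SimpleGraph.Walk.length_reverse] at this
      omega
    have hvX : v ∉ X := by
      intro h
      have := hdis v h
      rw [disjoint_self] at this
      have h2 := hself v
      rw [this] at h2
      simp at h2
    have h1 := hXmax (insert v X) (by
      rw [Finset.mem_filter, Finset.mem_powerset]
      refine ⟨Finset.insert_subset hv hXC, ?_⟩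
      rw [Finset.coe_insert]
      apply Set.PairwiseDisjoint.insert hXd
      intro j hj _
      exact hdis j (Finset.mem_coe.1 hj))
    rw [Finset.card_insert_of_notMem hvX] at h1
    omega
  -- distance to the centers
  set P : Fin n → ℕ → Prop := fun v k => ∃ x ∈ X, ∃ w : G.Walk v x, w.length = k with hP
  set d : Fin n → ℕ := fun v => sInf {k | P v k} with hd
  have hdle : ∀ v k, P v k → d v ≤ k := fun v k h => Nat.sInf_le h
  have hdmem : ∀ v ∈ C, P v (d v) := by
    intro v hv
    obtain ⟨x, hx, w, hw⟩ := hcov v hv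
    exact Nat.sInf_mem (s := {k | P v k}) ⟨w.length, x, hx, w, rfl⟩
  have hd2 : ∀ v ∈ C, d v ≤ 2 * R := by
    intro v hv
    obtain ⟨x, hx, w, hw⟩ := hcov v hv
    exact (hdle v _ ⟨x, hx, w, rfl⟩).trans hw
  have hpar : ∀ v, ∃ u, v ∈ C → v ∉ X → G.Adj v u ∧ d u < d v ∧ u ∈ C := by
    intro v
    by_cases hv : v ∈ C ∧ v ∉ X
    · obtain ⟨hv, hvX⟩ := hv
      obtain ⟨x, hx, w, hw⟩ := hdmem v hv
      cases w with
      | nil => exact absurd hx hvX
      | @cons _ u _ h w =>
        refine ⟨u, fun _ _ => ⟨h, ?_, ?_⟩⟩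
        · have := hdle u w.length ⟨x, hx, w, rfl⟩
          rw [SimpleGraph.Walk.length_cons] at hw
          omega
        · rw [hmemC] at hv ⊢
          exact hv.trans h.reachable
    · exact ⟨v, fun h1 h2 => absurd ⟨h1, h2⟩ hv⟩
  choose π hπ using hpar
  -- the cut vertices
  set D := (C \ X).filter fun v => s(v, π v) ∉ T.edgeSet with hD
  have hreach : ∀ k, ∀ v ∈ C, d v ≤ k → ∃ u ∈ X ∪ D, T.dist v u ≤ k := by
    intro k
    induction k with
    | zero =>
      intro v hv hk
      refine ⟨v, ?_, by simp⟩
      by_contra hcon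
      rw [Finset.mem_union, not_or] at hcon
      have := (hπ v hv hcon.1).2.1
      omega
    | succ k ih =>
      intro v hv hk
      by_cases hvD : v ∈ X ∪ D
      · exact ⟨v, hvD, by simp⟩
      · have hvD' := hvD
        rw [Finset.mem_union, not_or] at hvD'
        obtain ⟨h1, h2, h3⟩ := hπ v hv hvD'.1
        have h4 : T.Adj v (π v) := by
          by_contra h5
          apply hvD'.2
          rw [hD, Finset.mem_filter, Finset.mem_sdiff]
          exact ⟨⟨hv, hvD'.1⟩, h5⟩
        obtain ⟨u, hu, hu'⟩ := ih (π v) h3 (by omega)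
        refine ⟨u, hu, ?_⟩
        have h5 := hT.connected.dist_triangle (u := v) (v := π v) (w := u)
        have h6 : T.dist v (π v) = 1 := SimpleGraph.dist_eq_one_iff_adj.2 h4
        omega
  have hex : ∀ v, ∃ u, v ∈ C → u ∈ X ∪ D ∧ T.dist v u ≤ 2 * R := by
    intro v
    by_cases hv : v ∈ C
    · obtain ⟨u, hu, hu'⟩ := hreach (2 * R) v hv (hd2 v hv)
      exact ⟨u, fun _ => ⟨hu, hu'⟩⟩
    · exact ⟨v, fun h => absurd h hv⟩
  choose c hc using hex
  -- the graph spanned by `C` in `T`
  let T₀ : SimpleGraph (Fin n) := SimpleGraph.fromEdgeSet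
    {f | ∃ x ∈ C, ∃ y ∈ C, onp T x y f}
  have hT₀le : T₀ ≤ T := by
    intro a b hab
    rw [SimpleGraph.fromEdgeSet_adj] at hab
    obtain ⟨⟨x, hx, y, hy, h⟩, -⟩ := hab
    exact h.1
  have hT₀r : ∀ x ∈ C, ∀ y ∈ C, T₀.Reachable x y := by
    intro x hx y hy
    obtain ⟨p, hp, -⟩ := exists_path hT x y
    refine ⟨p.transfer T₀ ?_⟩
    intro e he
    have h1 := (onp_iff_mem_path hT p hp e).2 he
    rw [SimpleGraph.edgeSet_fromEdgeSet]
    refine ⟨⟨x, hx, y, hy, h1⟩, ?_⟩
    have h2 := p.edges_subset_edgeSet he
    exact T.not_isDiag_of_mem_edgeSet h2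
  let Φ : SimpleGraph (Fin n) := SimpleGraph.fromEdgeSet {f | ∃ v ∈ C \ X, f = s(v, π v)}
  have hΦG : Φ ≤ G := by
    intro a b hab
    rw [SimpleGraph.fromEdgeSet_adj] at hab
    obtain ⟨⟨v, hv, h⟩, -⟩ := hab
    rw [Finset.mem_sdiff] at hv
    have h1 : s(v, π v) ∈ G.edgeSet := (hπ v hv.1 hv.2).1
    rw [← h] at h1
    exact h1
  have hKH : T₀ ⊔ Φ ≤ H := by
    refine sup_le ?_ (hΦG.trans hGH)
    intro a b hab
    rw [SimpleGraph.fromEdgeSet_adj] at hab
    obtain ⟨⟨x, hx, y, hy, h⟩, -⟩ := hab
    exact hTH x hx y hy _ h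
  have hnc : ncomp T₀ ≤ ncomp (T₀ ⊔ Φ) := by
    refine ncomp_le le_sup_left ?_
    intro a b hab
    rcases hab with hab | hab
    · exact SimpleGraph.Adj.reachable hab
    · rw [SimpleGraph.fromEdgeSet_adj] at hab
      obtain ⟨⟨v, hv, h⟩, -⟩ := hab
      rw [Finset.mem_sdiff] at hv
      have h1 := hT₀r v hv.1 (π v) (hπ v hv.1 hv.2).2.2
      rw [Sym2.eq_iff] at h
      rcases h with ⟨rfl, rfl⟩ | ⟨rfl, rfl⟩
      · exact h1
      · exact h1.symm
  have hinj : Set.InjOn (fun v => s(v, π v)) (D : Set (Fin n)) := by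
    intro v hv w hw h
    rw [Finset.mem_coe, hD, Finset.mem_filter, Finset.mem_sdiff] at hv hw
    simp only [Sym2.eq_iff] at h
    rcases h with h | h
    · exact h.1
    · exfalso
      have h1 := (hπ v hv.1.1 hv.1.2).2.1
      have h2 := (hπ w hw.1.1 hw.1.2).2.1
      rw [h.2] at h1
      rw [← h.1] at h2
      omega
  have hcardK : (ef T₀).card + D.card ≤ (ef (T₀ ⊔ Φ)).card := by
    rw [← Finset.card_image_of_injOn hinj, ← Finset.card_union_of_disjoint]
    · refine Finset.card_le_card ?_
      intro g hg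
      rw [Finset.mem_union] at hg
      rw [mem_ef, SimpleGraph.edgeSet_sup]
      rcases hg with hg | hg
      · exact Or.inl (mem_ef.1 hg)
      · right
        rw [Finset.mem_image] at hg
        obtain ⟨v, hv, rfl⟩ := hg
        rw [hD, Finset.mem_filter] at hv
        rw [SimpleGraph.edgeSet_fromEdgeSet]
        refine ⟨⟨v, hv.1, rfl⟩, ?_⟩
        have hv2 := hv.1
        rw [Finset.mem_sdiff] at hv2
        exact G.not_isDiag_of_mem_edgeSet (hπ v hv2.1 hv2.2).1
    · rw [Finset.disjoint_left]
      intro g hg hg'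
      rw [Finset.mem_image] at hg'
      obtain ⟨v, hv, rfl⟩ := hg'
      rw [hD, Finset.mem_filter] at hv
      apply hv.2
      exact SimpleGraph.edgeSet_subset_edgeSet.2 hT₀le (mem_ef.1 hg)
  have hDcard : (D.card : ℤ) ≤ exc H := by
    have h1 := exc_mono hKH
    have h2 := exc_nonneg T₀
    unfold exc at h1 h2 ⊢
    omega
  refine ⟨c, ?_, ?_⟩
  · have h1 : C.image c ⊆ X ∪ D := by
      intro u hu
      rw [Finset.mem_image] at hu
      obtain ⟨v, hv, rfl⟩ := hu
      exact (hc v hv).1
    have h2 := (Finset.card_le_card h1).trans (Finset.card_union_le _ _)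
    have h3 : ((C.image c).card : ℝ) ≤ X.card + D.card := by exact_mod_cast h2
    have h4 : (D.card : ℝ) ≤ exc H := by exact_mod_cast hDcard
    linarith
  · intro x hx y hy hxy
    have h1 := (hc x hx).2
    have h2 := (hc y hy).2
    rw [← hxy, SimpleGraph.dist_comm] at h2
    have h3 := hT.connected.dist_triangle (u := x) (v := c x) (w := y)
    omega

end RST
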