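import Pool.Agent.Work.MP_5ba30e_pr.Giant
import Pool.Agent.Work.MP_5ba30e_pr.Piece

/-!
# Far_M1 : lower bound for the diameter of the giant component
-/

open MeasureTheory Set Filter Finset
open scoped ENNReal Topology Classical

noncomputable section

namespace RST

variable {n : ℕ}

theorem comp_subset_bigC {G : SimpleGraph (Fin n)} {τ : ℝ} {v : Fin n} (hv : v ∈ bigC G τ) :
    comp G v ⊆ bigC G τ := by
  intro u hu
  have h1 : G.Reachable v u := (Finset.mem_filter.1 hu).2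
  have h2 : comp G u = comp G v := by
    ext z
    simp only [comp, Finset.mem_filter, Finset.mem_univ, true_and]
    exact ⟨fun h => h1.trans h, fun h => h1.symm.trans h⟩
  refine Finset.mem_filter.2 ⟨Finset.mem_univ _, ?_⟩
  rw [h2]
  exact (Finset.mem_filter.1 hv).2

theorem far_geom {δ : ℝ} (hδ : 0 < δ) (hδ1 : δ ≤ 1) {r : ℕ} (hr : (r : ℝ) ≤ 1 / δ) :
    ∑ i ∈ Finset.range (r + 1), (1 + 1.2 * δ) ^ i ≤ 8 / δ := by
  have h1 : ∀ i ∈ Finset.range (r + 1), (1 + 1.2 * δ) ^ i ≤ 4 := by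
    intro i hi
    have hi' : (i : ℝ) ≤ r := by exact_mod_cast Nat.lt_succ_iff.1 (Finset.mem_range.1 hi)
    have h2 : (1 + 1.2 * δ) ^ i ≤ Real.exp (1.2) := by
      calc (1 + 1.2 * δ) ^ i ≤ (Real.exp (1.2 * δ)) ^ i :=
            pow_le_pow_left₀ (by positivity) (by linarith [Real.add_one_le_exp (1.2 * δ)]) _
        _ = Real.exp (i * (1.2 * δ)) := by rw [← Real.exp_nat_mul]
        _ ≤ Real.exp 1.2 := by
            refine Real.exp_le_exp.2 ?_
            have h3 : (i : ℝ) * δ ≤ 1 := by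
              calc (i : ℝ) * δ ≤ (1 / δ) * δ := by
                    gcongr
                    exact hi'.trans hr
                _ = 1 := by field_simp
            nlinarith
    have h3 : Real.exp 1.2 ≤ 4 := by
      have h4 : Real.exp 1.2 = Real.exp 1 * Real.exp 0.2 := by
        rw [← Real.exp_add]
        norm_num
      have h5 : Real.exp 1 ≤ 2.7182818286 := Real.exp_one_lt_d9.le
      have h6 : Real.exp 0.2 ≤ 1.25 := by
        have h7 := Real.one_sub_le_exp_neg 0.2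
        rw [Real.exp_neg] at h7
        have h8 := mul_le_mul_of_nonneg_left h7 (Real.exp_pos 0.2).le
        rw [mul_inv_cancel₀ (Real.exp_pos 0.2).ne'] at h8
        norm_num at h8 ⊢
        linarith
      rw [h4]
      calc Real.exp 1 * Real.exp 0.2 ≤ 2.7182818286 * 1.25 := by
            gcongr
        _ ≤ 4 := by norm_num
    exact h2.trans h3
  calc ∑ i ∈ Finset.range (r + 1), (1 + 1.2 * δ) ^ i ≤ ∑ i ∈ Finset.range (r + 1), (4 : ℝ) :=
        Finset.sum_le_sum h1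
    _ = ((r : ℝ) + 1) * 4 := by
        rw [Finset.sum_const, Finset.card_range, nsmul_eq_mul]
        push_cast
        ring
    _ ≤ (1 / δ + 1 / δ) * 4 := by
        have : 1 ≤ 1 / δ := by rw [le_div_iff₀ hδ]; linarith
        gcongr
    _ = 8 / δ := by ring

/-- sum of the volumes of all balls -/
theorem markov_bl (p : ℝ) (hp : 0 ≤ p) (hp1 : p ≤ 1) (r : ℕ) {S K : ℝ} (hK : 0 < K)
    (hS : ∑ i ∈ Finset.range (r + 1), ((n : ℝ) * p) ^ i ≤ S) :
    mu n {ω | K ≤ ∑ x, ((bl (Gr ω p) x r).card : ℝ)} ≤ ENNReal.ofReal (n * S / K) := by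
  have hS0 : 0 ≤ S := le_trans (Finset.sum_nonneg fun i _ => by positivity) hS
  have hm : ∀ x : Fin n, Measurable fun ω : Env n => ((bl (Gr ω p) x r).card : ℝ≥0∞) :=
    fun x => ((LevDep.gr p).comp fun G => (((bl G x r).card : ℕ) : ℝ≥0∞)).measurable
  have hm2 : Measurable fun ω : Env n => ∑ x, ((bl (Gr ω p) x r).card : ℝ≥0∞) :=
    Finset.measurable_sum _ fun x _ => hm x
  have h1 : {ω : Env n | K ≤ ∑ x, ((bl (Gr ω p) x r).card : ℝ)} ⊆
      {ω | ENNReal.ofReal K ≤ ∑ x, ((bl (Gr ω p) x r).card : ℝ≥0∞)} := by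
    intro ω hω
    have h2 : ENNReal.ofReal K ≤ ENNReal.ofReal (∑ x, ((bl (Gr ω p) x r).card : ℝ)) :=
      ENNReal.ofReal_le_ofReal hω
    rw [ENNReal.ofReal_sum_of_nonneg fun _ _ => Nat.cast_nonneg _] at h2
    simpa using h2
  refine (measure_mono h1).trans ((meas_ge_le_lintegral_div hm2.aemeasurable
    (by simpa using hK) ENNReal.ofReal_ne_top).trans ?_)
  rw [lintegral_finsetSum _ fun x _ => hm x, ENNReal.ofReal_div_of_pos hK]
  refine ENNReal.div_le_div_right ?_ _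
  calc ∑ x : Fin n, ∫⁻ ω, ((bl (Gr ω p) x r).card : ℝ≥0∞) ∂(mu n)
      ≤ ∑ x : Fin n, ENNReal.ofReal S := Finset.sum_le_sum fun x _ =>
        (exp_ball hp hp1 x r).trans (ENNReal.ofReal_le_ofReal hS)
    _ = ENNReal.ofReal (n * S) := by
        rw [Finset.sum_const, Finset.card_univ, Fintype.card_fin, nsmul_eq_mul,
          ENNReal.ofReal_mul (Nat.cast_nonneg _), ENNReal.ofReal_natCast]

/-- Two points of the giant component at distance `≥ 1/δ` at the level `p' = (1+1.2δ)/n`. -/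
theorem far (c : ℝ) (hc : 0 < c) (hc1 : c ≤ 1 / 3) :
    ∃ n₀ : ℕ, ∀ n ≥ n₀, ∀ δ, (n : ℝ) ^ (-(1 / 3 : ℝ) + c) ≤ δ → δ ≤ 1 →
      mu n {ω | ¬ ∃ x ∈ bigC (Gr ω ((1 + δ) / n)) (thr n δ),
        ∃ y ∈ bigC (Gr ω ((1 + δ) / n)) (thr n δ),
        ∀ w : (Gr ω ((1 + 1.2 * δ) / n)).Walk x y, 1 / δ ≤ (w.length : ℝ)} ≤
        ENNReal.ofReal (1 / Real.log n) := by
  obtain ⟨n₁, h₁⟩ := giant_low c 1 hc hc1 one_pos
  have e1 := ev_log 64 1 (s := 3 * c) (by positivity)
  have e4 : ∀ᶠ n : ℕ in atTop, 2 ≤ Real.log n :=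
    (Real.tendsto_log_atTop.comp tendsto_natCast_atTop_atTop).eventually_ge_atTop 2
  obtain ⟨n₀, h₀⟩ := Filter.eventually_atTop.1 (e1.and (e4.and (Filter.eventually_ge_atTop n₁)))
  refine ⟨max n₀ 3, fun n hn δ hδ hδ1 => ?_⟩
  obtain ⟨g1, g4, gn⟩ := h₀ n (le_trans (le_max_left _ _) hn)
  have hn3 : 3 ≤ n := le_trans (le_max_right _ _) hn
  have hn0 : (0 : ℝ) < n := by exact_mod_cast (by omega : 0 < n)
  have hδ0 : 0 < δ := lt_of_lt_of_le (Real.rpow_pos_of_pos hn0 _) hδ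
  have hlow := h₁ n gn δ ⟨hδ, by linarith⟩
  set L := Real.log n with hL
  set p' : ℝ := (1 + 1.2 * δ) / n with hp'
  have hp0 : 0 ≤ p' := by positivity
  have hp1 : p' ≤ 1 := by
    rw [hp', div_le_one hn0]
    have : (3 : ℝ) ≤ n := by exact_mod_cast hn3
    linarith
  set r : ℕ := ⌈1 / δ⌉₊ - 1 with hr
  have hinv : 1 ≤ 1 / δ := by rw [le_div_iff₀ hδ0]; linarith
  have hrlt : (r : ℝ) ≤ 1 / δ := by
    have h2 : (⌈1 / δ⌉₊ : ℝ) < 1 / δ + 1 := Nat.ceil_lt_add_one (by positivity)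
    have h3 : (r : ℝ) ≤ (⌈1 / δ⌉₊ : ℝ) - 1 := by
      have h4 : 1 ≤ ⌈1 / δ⌉₊ := Nat.one_le_ceil_iff.2 (by positivity)
      rw [hr, Nat.cast_sub h4, Nat.cast_one]
    linarith
  have hxs := Chern.xs_pos hδ0
  have hK : 0 < (xs δ * n) ^ 2 := by positivity
  have hnp : (n : ℝ) * p' = 1 + 1.2 * δ := by
    rw [hp']
    field_simp
  have hS : ∑ i ∈ Finset.range (r + 1), ((n : ℝ) * p') ^ i ≤ 8 / δ := by
    rw [hnp]
    exact far_geom hδ0 hδ1 hrlt
  have hM := markov_bl (n := n) p' hp0 hp1 r hK hS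
  have hsub : {ω : Env n | ¬ ∃ x ∈ bigC (Gr ω ((1 + δ) / n)) (thr n δ),
        ∃ y ∈ bigC (Gr ω ((1 + δ) / n)) (thr n δ),
        ∀ w : (Gr ω p').Walk x y, 1 / δ ≤ (w.length : ℝ)} ⊆
      {ω | ¬ GLo n δ ω} ∪ {ω | (xs δ * n) ^ 2 ≤ ∑ x, ((bl (Gr ω p') x r).card : ℝ)} := by
    intro ω hω
    by_cases hG : GLo n δ ω
    · right
      set C := bigC (Gr ω ((1 + δ) / n)) (thr n δ) with hC
      obtain ⟨⟨v, hv⟩, hG2⟩ := hG
      have hCc : xs δ * n < (C.card : ℝ) :=
        lt_of_lt_of_le (hG2 v hv) (Nat.cast_le.2 (Finset.card_le_card (comp_subset_bigC hv)))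
      have hball : ∀ x ∈ C, (C.card : ℝ) ≤ ((bl (Gr ω p') x r).card : ℝ) := by
        intro x hx
        refine Nat.cast_le.2 (Finset.card_le_card fun y hy => ?_)
        refine Finset.mem_filter.2 ⟨Finset.mem_univ _, ?_⟩
        by_contra hcon
        push Not at hcon
        refine hω ⟨x, hx, y, hy, fun w => ?_⟩
        have h5 := hcon w
        have h6 : ⌈1 / δ⌉₊ ≤ w.length := by omega
        exact (Nat.le_ceil _).trans (Nat.cast_le.2 h6)
      show (xs δ * n) ^ 2 ≤ ∑ x, ((bl (Gr ω p') x r).card : ℝ)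
      calc (xs δ * n) ^ 2 ≤ (C.card : ℝ) ^ 2 := pow_le_pow_left₀ (by positivity) hCc.le 2
        _ = ∑ x ∈ C, (C.card : ℝ) := by
            rw [Finset.sum_const, nsmul_eq_mul, sq]
        _ ≤ ∑ x ∈ C, ((bl (Gr ω p') x r).card : ℝ) := Finset.sum_le_sum hball
        _ ≤ ∑ x, ((bl (Gr ω p') x r).card : ℝ) :=
            Finset.sum_le_sum_of_subset_of_nonneg (Finset.subset_univ _)
              fun _ _ _ => Nat.cast_nonneg _
    · left
      exact hG
  refine (measure_mono hsub).trans ((measure_union_le _ _).trans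
    ((add_le_add hlow hM).trans ?_))
  rw [← ENNReal.ofReal_add (by positivity) (by positivity)]
  refine ENNReal.ofReal_le_ofReal ?_
  have hL0 : 0 < L := by linarith
  have h7 : 1 / L ^ 4 ≤ 1 / (2 * L) := by
    refine one_div_le_one_div_of_le (by positivity) ?_
    have : 8 ≤ L ^ 3 := by
      calc (8 : ℝ) = 2 ^ 3 := by norm_num
        _ ≤ L ^ 3 := pow_le_pow_left₀ (by norm_num) g4 3
    nlinarith
  have h8 : (n : ℝ) * (8 / δ) / (xs δ * n) ^ 2 ≤ 1 / (2 * L) := by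
    have h9 : δ / 2 * n ≤ xs δ * n := by
      have := xs_ge1 hδ0 hδ1
      gcongr
    have h10 : (δ / 2 * n) ^ 2 ≤ (xs δ * n) ^ 2 := pow_le_pow_left₀ (by positivity) h9 2
    have h11 : 64 * L ≤ δ ^ 3 * n := by
      have h12 : (n : ℝ) ^ (3 * c) ≤ δ ^ 3 * n := by
        have h13 : ((n : ℝ) ^ (-(1 / 3 : ℝ) + c)) ^ 3 ≤ δ ^ 3 :=
          pow_le_pow_left₀ (Real.rpow_nonneg hn0.le _) hδ 3
        have h14 : ((n : ℝ) ^ (-(1 / 3 : ℝ) + c)) ^ 3 * n = (n : ℝ) ^ (3 * c) := by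
          rw [← Real.rpow_natCast, ← Real.rpow_mul hn0.le]
          nth_rewrite 2 [← Real.rpow_one (n : ℝ)]
          rw [← Real.rpow_add hn0]
          congr 1
          push_cast
          ring
        rw [← h14]
        gcongr
      refine le_trans ?_ h12
      simpa using g1
    calc (n : ℝ) * (8 / δ) / (xs δ * n) ^ 2 ≤ (n : ℝ) * (8 / δ) / (δ / 2 * n) ^ 2 := by
          gcongr
      _ = 32 / (δ ^ 3 * n) := by
          field_simp
          ring
      _ ≤ 32 / (64 * L) := by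
          gcongr
      _ = 1 / (2 * L) := by
          field_simp
          norm_num
  have h15 : 1 / (2 * L) + 1 / (2 * L) = 1 / L := by
    field_simp
    norm_num
  linarith

end RST
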