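import Pool.Agent.Work.MP_5ba30e_pr.Giant
import Pool.Agent.Work.MP_5ba30e_pr.Piece

/-!
# Far_exc_incr : increase of the cyclomatic number between two levels
-/

open MeasureTheory Set Filter Finset
open scoped ENNReal Topology Classical

noncomputable section

namespace RST

variable {n : ℕ}

theorem ncomp_anti {G H : SimpleGraph (Fin n)} (h : G ≤ H) : ncomp H ≤ ncomp G := by
  unfold ncomp
  refine Nat.card_le_card_of_surjective
    (fun c : G.ConnectedComponent => c.map (SimpleGraph.Hom.ofLE h)) ?_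
  intro c
  induction c using SimpleGraph.ConnectedComponent.ind with
  | h a => exact ⟨G.connectedComponentMk a, rfl⟩

/-- removing a bridge increases the number of components -/
theorem ncomp_bridge {H : SimpleGraph (Fin n)} {u v : Fin n} (huv : H.Adj u v)
    (h : ¬ (H.deleteEdges {s(u, v)}).Reachable u v) :
    ncomp H + 1 ≤ ncomp (H.deleteEdges {s(u, v)}) := by
  set H' := H.deleteEdges {s(u, v)} with hH'
  have hle : H' ≤ H := SimpleGraph.deleteEdges_le _
  unfold ncomp
  rw [Nat.card_eq_fintype_card, Nat.card_eq_fintype_card]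
  have h1 := Fintype.card_lt_of_surjective_not_injective
    (fun c : H'.ConnectedComponent => c.map (SimpleGraph.Hom.ofLE hle)) (by
      intro c
      induction c using SimpleGraph.ConnectedComponent.ind with
      | h a => exact ⟨H'.connectedComponentMk a, rfl⟩) (by
      intro hinj
      have h2 : H'.connectedComponentMk u = H'.connectedComponentMk v := by
        apply hinj
        show (H'.connectedComponentMk u).map (SimpleGraph.Hom.ofLE hle) =
          (H'.connectedComponentMk v).map (SimpleGraph.Hom.ofLE hle)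
        rw [SimpleGraph.ConnectedComponent.map_mk, SimpleGraph.ConnectedComponent.map_mk,
          SimpleGraph.ConnectedComponent.eq]
        exact huv.reachable
      exact h (SimpleGraph.ConnectedComponent.eq.1 h2))
  omega

/-- pairs `u < v` -/
def prs (n : ℕ) : Finset (Fin n × Fin n) := Finset.univ.filter fun q => q.1 < q.2

/-- edges of `H`, not of `G`, whose ends are connected without them -/
def cycs (G H : SimpleGraph (Fin n)) : Finset (Fin n × Fin n) :=
  (prs n).filter fun q => H.Adj q.1 q.2 ∧ ¬ G.Adj q.1 q.2 ∧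
    (H.deleteEdges {s(q.1, q.2)}).Reachable q.1 q.2

theorem mem_cycs {G H : SimpleGraph (Fin n)} {q : Fin n × Fin n} : q ∈ cycs G H ↔
    q ∈ prs n ∧ H.Adj q.1 q.2 ∧ ¬ G.Adj q.1 q.2 ∧
      (H.deleteEdges {s(q.1, q.2)}).Reachable q.1 q.2 := Finset.mem_filter

theorem cycs_sub {G H : SimpleGraph (Fin n)} (u v : Fin n) :
    cycs G (H.deleteEdges {s(u, v)}) ⊆ (cycs G H).erase (u, v) := by
  intro q hq
  obtain ⟨h1, h2, h3, h4⟩ := mem_cycs.1 hq
  rw [SimpleGraph.deleteEdges_adj] at h2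
  refine Finset.mem_erase.2 ⟨?_, mem_cycs.2 ⟨h1, h2.1, h3, ?_⟩⟩
  · rintro rfl
    exact h2.2 (Set.mem_singleton _)
  · refine h4.mono ?_
    intro a b hab
    rw [SimpleGraph.deleteEdges_adj, SimpleGraph.deleteEdges_adj] at hab
    rw [SimpleGraph.deleteEdges_adj]
    exact ⟨hab.1.1, hab.2⟩

theorem exc_diff_le {G H : SimpleGraph (Fin n)} (h : G ≤ H) :
    exc H - exc G ≤ ((cycs G H).card : ℤ) := by
  obtain ⟨k, hk⟩ : ∃ k, (ef H \ ef G).card = k := ⟨_, rfl⟩
  induction k generalizing H with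
  | zero =>
    rw [Finset.card_eq_zero, Finset.sdiff_eq_empty_iff_subset] at hk
    have : G = H := by
      refine le_antisymm h ?_
      rw [← SimpleGraph.edgeSet_subset_edgeSet]
      intro e he
      exact mem_ef.1 (hk (mem_ef.2 he))
    rw [this, sub_self]
    exact Int.natCast_nonneg _
  | succ k ih =>
    obtain ⟨e, he⟩ : (ef H \ ef G).Nonempty := by
      rw [← Finset.card_pos, hk]; omega
    obtain ⟨u, v, rfl, huv⟩ : ∃ u v, e = s(u, v) ∧ u < v := by
      have heH : e ∈ H.edgeSet := mem_ef.1 (Finset.mem_sdiff.1 he).1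
      induction e using Sym2.ind with
      | _ a b =>
        rw [SimpleGraph.mem_edgeSet] at heH
        rcases lt_or_gt_of_ne heH.ne with h1 | h1
        · exact ⟨a, b, rfl, h1⟩
        · exact ⟨b, a, Sym2.eq_swap, h1⟩
    obtain ⟨heH, heG⟩ := Finset.mem_sdiff.1 he
    have hadj : H.Adj u v := (SimpleGraph.mem_edgeSet _).1 (mem_ef.1 heH)
    have hnadj : ¬ G.Adj u v := fun h' => heG (mem_ef.2 ((SimpleGraph.mem_edgeSet _).2 h'))
    set H' := H.deleteEdges {s(u, v)} with hH'
    have hGH' : G ≤ H' := by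
      intro a b hab
      rw [hH', SimpleGraph.deleteEdges_adj]
      refine ⟨h hab, fun h' => heG ?_⟩
      rw [← Set.mem_singleton_iff.1 h']
      exact mem_ef.2 ((SimpleGraph.mem_edgeSet _).2 hab)
    have hef : ef H' = (ef H).erase s(u, v) := ef_del _
    have hcard : (ef H').card + 1 = (ef H).card := by
      rw [hef]; exact Finset.card_erase_add_one heH
    have hk' : (ef H' \ ef G).card = k := by
      have h1 : ef H' \ ef G = (ef H \ ef G).erase s(u, v) := by
        rw [hef]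
        ext g
        simp only [Finset.mem_sdiff, Finset.mem_erase]
        tauto
      rw [h1, Finset.card_erase_of_mem he, hk]
      omega
    have h1 := ih hGH' hk'
    have h2 := Finset.card_le_card (cycs_sub (G := G) (H := H) u v)
    have hle : H' ≤ H := SimpleGraph.deleteEdges_le _
    by_cases hc : H'.Reachable u v
    · have h3 : (u, v) ∈ cycs G H := Finset.mem_filter.2 ⟨Finset.mem_filter.2 ⟨Finset.mem_univ _,
        huv⟩, hadj, hnadj, hc⟩
      have h4 := Finset.card_erase_add_one h3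
      have h5 := ncomp_anti hle
      unfold exc at h1 ⊢
      have h6 : ((ef H').card : ℤ) + 1 = (ef H).card := by exact_mod_cast hcard
      have h7 : ((cycs G H').card : ℤ) + 1 ≤ (cycs G H).card := by
        rw [← hH'] at h2
        exact_mod_cast (by omega : (cycs G H').card + 1 ≤ (cycs G H).card)
      have h8 : (ncomp H : ℤ) ≤ ncomp H' := by exact_mod_cast h5
      linarith
    · have h5 := ncomp_bridge hadj hc
      have h4 : ((cycs G H).erase (u, v)).card ≤ (cycs G H).card := Finset.card_erase_le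
      unfold exc at h1 ⊢
      have h6 : ((ef H').card : ℤ) + 1 = (ef H).card := by exact_mod_cast hcard
      have h7 : ((cycs G H').card : ℤ) ≤ (cycs G H).card := by
        rw [← hH'] at h2
        exact_mod_cast h2.trans h4
      have h8 : (ncomp H : ℤ) + 1 ≤ ncomp H' := by exact_mod_cast h5
      linarith

/-- the ends of `{u,v}` are connected without it, in a small component -/
def Wq (H : SimpleGraph (Fin n)) (M : ℝ) (u v : Fin n) : Prop :=
  (H.deleteEdges {s(u, v)}).Reachable u v ∧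
    ((comp (H.deleteEdges {s(u, v)}) u).card : ℝ) ≤ M

theorem comp_mono {G H : SimpleGraph (Fin n)} (h : G ≤ H) (u : Fin n) : comp G u ⊆ comp H u := by
  intro v hv
  simp only [comp, Finset.mem_filter, Finset.mem_univ, true_and] at hv ⊢
  exact hv.mono h

theorem exc_incr_pt {p₁ p₂ M : ℝ} (h12 : p₁ ≤ p₂) (ω : Env n) :
    ENNReal.ofReal ((exc (Gr ω p₂) : ℝ) - exc (Gr ω p₁)) *
        ind (∀ v, ((comp (Gr ω p₂) v).card : ℝ) ≤ M) ≤
      ∑ q ∈ prs n, ({ω : Env n | p₁ < ω s(q.1, q.2) ∧ ω s(q.1, q.2) ≤ p₂} ∩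
        {ω : Env n | Wq (Gr ω p₂) M q.1 q.2}).indicator 1 ω := by
  by_cases hM : ∀ v, ((comp (Gr ω p₂) v).card : ℝ) ≤ M
  · have e1 : ind (∀ v, ((comp (Gr ω p₂) v).card : ℝ) ≤ M) = 1 := by
      unfold ind; rw [if_pos hM]
    rw [e1, mul_one]
    have hle : Gr ω p₁ ≤ Gr ω p₂ := fun a b hab => ⟨hab.1, hab.2.trans h12⟩
    have h1 := exc_diff_le hle
    have h2 : (exc (Gr ω p₂) : ℝ) - exc (Gr ω p₁) ≤ ((cycs (Gr ω p₁) (Gr ω p₂)).card : ℝ) := by
      exact_mod_cast h1
    refine (ENNReal.ofReal_le_ofReal h2).trans ?_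
    rw [ENNReal.ofReal_natCast]
    unfold cycs
    rw [Finset.card_filter]
    push_cast
    refine Finset.sum_le_sum fun q _ => ?_
    split_ifs with hq
    · obtain ⟨q1, q2, q3⟩ := hq
      rw [Set.indicator_of_mem]
      · rfl
      · refine ⟨⟨?_, q1.2⟩, q3, ?_⟩
        · by_contra hlt
          push Not at hlt
          exact q2 ⟨q1.1, hlt⟩
        · refine le_trans ?_ (hM q.1)
          exact_mod_cast Finset.card_le_card (comp_mono (SimpleGraph.deleteEdges_le _) _)
    · exact zero_le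
  · have e1 : ind (∀ v, ((comp (Gr ω p₂) v).card : ℝ) ≤ M) = 0 := by
      unfold ind; rw [if_neg hM]
    rw [e1, mul_zero]
    exact zero_le

theorem measurableSet_Wq (p M : ℝ) (u v : Fin n) :
    MeasurableSet {ω : Env n | Wq (Gr ω p) M u v} :=
  ((LevDep.gr p).comp fun H => Wq H M u v).measurableSet

/-- probability that `u` and `v` are in a common small component -/
def Rq (n : ℕ) (p M : ℝ) (u v : Fin n) : ℝ≥0∞ :=
  mu n {ω | (Gr ω p).Reachable u v ∧ ((comp (Gr ω p) u).card : ℝ) ≤ M}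

theorem Rq_symm (p M : ℝ) (u v : Fin n) : Rq n p M u v = Rq n p M v u := by
  unfold Rq
  congr 1
  ext ω
  simp only [Set.mem_ofPred_eq]
  have key : ∀ a b : Fin n, (Gr ω p).Reachable a b → comp (Gr ω p) a = comp (Gr ω p) b := by
    intro a b hab
    ext x
    simp only [comp, Finset.mem_filter, Finset.mem_univ, true_and]
    exact ⟨fun h => hab.symm.trans h, fun h => hab.trans h⟩
  constructor
  · rintro ⟨h1, h2⟩
    exact ⟨h1.symm, by rw [← key u v h1]; exact h2⟩
  · rintro ⟨h1, h2⟩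
    exact ⟨h1.symm, by rw [← key v u h1]; exact h2⟩

theorem mu_Wq_le {p M : ℝ} (hp : 0 ≤ p) (hp2 : p ≤ 1 / 2) {u v : Fin n} (huv : u ≠ v) :
    mu n {ω | Wq (Gr ω p) M u v} ≤ 2 * Rq n p M u v := by
  have hdep : DepOn (Finset.univ.erase s(u, v)) {ω : Env n | Wq (Gr ω p) M u v} := by
    intro ω ω' h
    have : (Gr ω p).deleteEdges {s(u, v)} = (Gr ω' p).deleteEdges {s(u, v)} := by
      ext a b
      rw [SimpleGraph.deleteEdges_adj, SimpleGraph.deleteEdges_adj]
      by_cases hab : s(a, b) = s(u, v)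
      · simp [hab]
      · have := h s(a, b) (Finset.mem_erase.2 ⟨hab, Finset.mem_univ _⟩)
        show ((a ≠ b ∧ ω s(a, b) ≤ p) ∧ _) ↔ ((a ≠ b ∧ ω' s(a, b) ≤ p) ∧ _)
        rw [this]
    simp only [Set.mem_ofPred_eq, Wq, this]
  have hdep2 : DepOn {s(u, v)} {ω : Env n | ∀ e ∈ ({s(u, v)} : Finset (Sym2 (Fin n))), p < ω e} := by
    intro ω ω' h
    simp only [Set.mem_ofPred_eq, Finset.mem_singleton, forall_eq]
    rw [h _ (Finset.mem_singleton_self _)]
  have hm2 : MeasurableSet {ω : Env n | ∀ e ∈ ({s(u, v)} : Finset (Sym2 (Fin n))), p < ω e} := by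
    simp only [Finset.mem_singleton, forall_eq]
    exact measurableSet_lt measurable_const (measurable_pi_apply _)
  have h1 := mu_inter (Finset.disjoint_singleton_left.2 (Finset.notMem_erase _ _)) hm2
    (measurableSet_Wq p M u v) hdep2 hdep
  rw [mu_gt_all _ hp (by linarith), Finset.card_singleton, pow_one] at h1
  have h2 : {ω : Env n | ∀ e ∈ ({s(u, v)} : Finset (Sym2 (Fin n))), p < ω e} ∩
      {ω : Env n | Wq (Gr ω p) M u v} ⊆
      {ω | (Gr ω p).Reachable u v ∧ ((comp (Gr ω p) u).card : ℝ) ≤ M} := by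
    rintro ω ⟨h3, h4⟩
    simp only [Set.mem_ofPred_eq, Finset.mem_singleton, forall_eq] at h3
    have h5 : (Gr ω p).deleteEdges {s(u, v)} = Gr ω p := by
      ext a b
      rw [SimpleGraph.deleteEdges_adj]
      refine ⟨fun h => h.1, fun h => ⟨h, fun h' => ?_⟩⟩
      have := h.2
      rw [Set.mem_singleton_iff.1 h'] at this
      linarith
    have h6 : Wq (Gr ω p) M u v := h4
    unfold Wq at h6
    rw [h5] at h6
    exact h6
  have h3 : ENNReal.ofReal (1 - p) * mu n {ω | Wq (Gr ω p) M u v} ≤ Rq n p M u v := by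
    rw [← h1]
    exact measure_mono h2
  have h4 : (1 : ℝ≥0∞) ≤ 2 * ENNReal.ofReal (1 - p) := by
    rw [show (2 : ℝ≥0∞) = ENNReal.ofReal 2 by norm_num, ← ENNReal.ofReal_mul (by norm_num),
      ← ENNReal.ofReal_one]
    apply ENNReal.ofReal_le_ofReal
    linarith
  calc mu n {ω | Wq (Gr ω p) M u v} = 1 * mu n {ω | Wq (Gr ω p) M u v} := (one_mul _).symm
    _ ≤ 2 * ENNReal.ofReal (1 - p) * mu n {ω | Wq (Gr ω p) M u v} := mul_le_mul' h4 le_rfl
    _ = 2 * (ENNReal.ofReal (1 - p) * mu n {ω | Wq (Gr ω p) M u v}) := by rw [mul_assoc]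
    _ ≤ 2 * Rq n p M u v := mul_le_mul' le_rfl h3

theorem mu_AW_le {p₁ p₂ M : ℝ} (hp₁ : 0 ≤ p₁) (h12 : p₁ ≤ p₂) (hp₂ : p₂ ≤ 1 / 2) {u v : Fin n}
    (huv : u ≠ v) :
    mu n ({ω : Env n | p₁ < ω s(u, v) ∧ ω s(u, v) ≤ p₂} ∩ {ω : Env n | Wq (Gr ω p₂) M u v}) ≤
      ENNReal.ofReal (p₂ - p₁) * (2 * Rq n p₂ M u v) := by
  have hdep : DepOn (Finset.univ.erase s(u, v)) {ω : Env n | Wq (Gr ω p₂) M u v} := by
    intro ω ω' h
    have : (Gr ω p₂).deleteEdges {s(u, v)} = (Gr ω' p₂).deleteEdges {s(u, v)} := by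
      ext a b
      rw [SimpleGraph.deleteEdges_adj, SimpleGraph.deleteEdges_adj]
      by_cases hab : s(a, b) = s(u, v)
      · simp [hab]
      · have := h s(a, b) (Finset.mem_erase.2 ⟨hab, Finset.mem_univ _⟩)
        show ((a ≠ b ∧ ω s(a, b) ≤ p₂) ∧ _) ↔ ((a ≠ b ∧ ω' s(a, b) ≤ p₂) ∧ _)
        rw [this]
    simp only [Set.mem_ofPred_eq, Wq, this]
  have hdep2 : DepOn {s(u, v)} {ω : Env n | p₁ < ω s(u, v) ∧ ω s(u, v) ≤ p₂} := by
    intro ω ω' h
    simp only [Set.mem_ofPred_eq]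
    rw [h _ (Finset.mem_singleton_self _)]
  have hm2 : MeasurableSet {ω : Env n | p₁ < ω s(u, v) ∧ ω s(u, v) ≤ p₂} :=
    (measurableSet_lt measurable_const (measurable_pi_apply _)).inter
      (measurableSet_le (measurable_pi_apply _) measurable_const)
  rw [mu_inter (Finset.disjoint_singleton_left.2 (Finset.notMem_erase _ _)) hm2
    (measurableSet_Wq p₂ M u v) hdep2 hdep]
  have h1 := mu_box ({s(u, v)} : Finset (Sym2 (Fin n))) (fun _ => p₁) (fun _ => p₂)
    (fun _ _ => ⟨hp₁, h12, by linarith⟩)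
  simp only [Finset.mem_singleton, forall_eq, Finset.prod_singleton] at h1
  rw [h1]
  exact mul_le_mul' le_rfl (mu_Wq_le (hp₁.trans h12) hp₂ huv)

theorem sum_Rq (p M : ℝ) (u : Fin n) : ∑ v, Rq n p M u v =
    ∫⁻ ω, (if ((comp (Gr ω p) u).card : ℝ) ≤ M then
      ((comp (Gr ω p) u).card : ℝ≥0∞) else 0) ∂(mu n) := by
  have hm : ∀ v, MeasurableSet {ω : Env n | (Gr ω p).Reachable u v ∧
      ((comp (Gr ω p) u).card : ℝ) ≤ M} := fun v =>
    ((LevDep.gr p).comp fun H : SimpleGraph (Fin n) =>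
      H.Reachable u v ∧ ((comp H u).card : ℝ) ≤ M).measurableSet
  unfold Rq
  rw [Finset.sum_congr rfl fun v _ => (lintegral_indicator_one (hm v)).symm,
    ← lintegral_finsetSum _ fun v _ => measurable_one.indicator (hm v)]
  refine lintegral_congr fun ω => ?_
  by_cases h : ((comp (Gr ω p) u).card : ℝ) ≤ M
  · rw [if_pos h]
    unfold comp
    rw [Finset.card_filter]
    push_cast
    refine Finset.sum_congr rfl fun v _ => ?_
    by_cases hv : (Gr ω p).Reachable u v
    · rw [if_pos hv, Set.indicator_of_mem (by exact ⟨hv, h⟩)]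
      rfl
    · rw [if_neg hv, Set.indicator_of_notMem (fun h' => hv h'.1)]
  · rw [if_neg h]
    refine Finset.sum_eq_zero fun v _ => ?_
    rw [Set.indicator_of_notMem (fun h' => h h'.2)]

/-- Increase of the cyclomatic number between the levels `p₁ ≤ p₂ ≤ 1/2`, truncated at component
size `M`.  `exc (Gr p₂) - exc (Gr p₁)` is at most the number of the edges `e = {u,v}` with
`p₁ < ω e ≤ p₂` whose ends are connected in `Gr p₂ - e` (add the edges one by one). The event
`{p₁ < ω e ≤ p₂}` is independent of `Gr p₂ - e`, and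
`P(u ~ v in Gr p₂ - e, |comp| ≤ M) ≤ P(u ~ v in Gr p₂, |comp| ≤ M)/(1-p₂)` (condition on
`p₂ < ω e`). Sum over the unordered pairs. -/
theorem exc_incr {p₁ p₂ M : ℝ} (hp₁ : 0 ≤ p₁) (h12 : p₁ ≤ p₂) (hp₂ : p₂ ≤ 1 / 2) :
    ∫⁻ ω, ENNReal.ofReal ((exc (Gr ω p₂) : ℝ) - exc (Gr ω p₁)) *
        ind (∀ v, ((comp (Gr ω p₂) v).card : ℝ) ≤ M) ∂(mu n) ≤
      ENNReal.ofReal (p₂ - p₁) * ∑ v : Fin n,
        ∫⁻ ω, (if ((comp (Gr ω p₂) v).card : ℝ) ≤ M then
          ((comp (Gr ω p₂) v).card : ℝ≥0∞) else 0) ∂(mu n) := by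
  have hmA : ∀ q : Fin n × Fin n, MeasurableSet
      ({ω : Env n | p₁ < ω s(q.1, q.2) ∧ ω s(q.1, q.2) ≤ p₂} ∩
        {ω : Env n | Wq (Gr ω p₂) M q.1 q.2}) := fun q =>
    ((measurableSet_lt measurable_const (measurable_pi_apply _)).inter
      (measurableSet_le (measurable_pi_apply _) measurable_const)).inter
        (measurableSet_Wq p₂ M q.1 q.2)
  refine (lintegral_mono fun ω => exc_incr_pt (M := M) h12 ω).trans ?_
  rw [lintegral_finsetSum _ fun q _ => measurable_one.indicator (hmA q)]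
  rw [Finset.sum_congr rfl fun q _ => lintegral_indicator_one (hmA q)]
  have h1 : ∀ q ∈ prs n, mu n ({ω : Env n | p₁ < ω s(q.1, q.2) ∧ ω s(q.1, q.2) ≤ p₂} ∩
        {ω : Env n | Wq (Gr ω p₂) M q.1 q.2}) ≤
      ENNReal.ofReal (p₂ - p₁) * (2 * Rq n p₂ M q.1 q.2) := fun q hq =>
    mu_AW_le hp₁ h12 hp₂ (Finset.mem_filter.1 hq).2.ne
  refine (Finset.sum_le_sum h1).trans ?_
  rw [← Finset.mul_sum]
  refine mul_le_mul' le_rfl ?_
  rw [Finset.sum_congr rfl fun v _ => (sum_Rq p₂ M v).symm, ← Finset.sum_product']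
  have h2 : ∑ q ∈ prs n, 2 * Rq n p₂ M q.1 q.2 =
      ∑ q ∈ prs n, Rq n p₂ M q.1 q.2 +
        ∑ q ∈ Finset.univ.filter (fun q : Fin n × Fin n => q.2 < q.1), Rq n p₂ M q.1 q.2 := by
    have h3 : ∑ q ∈ Finset.univ.filter (fun q : Fin n × Fin n => q.2 < q.1), Rq n p₂ M q.1 q.2 =
        ∑ q ∈ prs n, Rq n p₂ M q.1 q.2 := by
      refine Finset.sum_equiv (Equiv.prodComm _ _) ?_ ?_
      · intro q
        simp [prs]
      · intro q _
        exact Rq_symm _ _ _ _
    rw [h3, ← Finset.sum_add_distrib]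
    exact Finset.sum_congr rfl fun q _ => two_mul _
  rw [h2, ← Finset.sum_union]
  · exact Finset.sum_le_sum_of_subset (by intro q _; simp)
  · rw [Finset.disjoint_left]
    intro q hq hq'
    have h4 := (Finset.mem_filter.1 hq).2
    have h5 := (Finset.mem_filter.1 hq').2
    exact absurd h4 (not_lt.2 h5.le)

end RST
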