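import Pool.Agent.Work.MP_5ba30e_pr.Flow

/-!
# Final1_Q1_of_uniform : Q1 from the uniform theorem
-/

open MeasureTheory Set Filter Finset
open scoped ENNReal Topology Classical

noncomputable section

namespace RST

namespace QU

variable {n : ℕ}

theorem prob_mu (n : ℕ) : IsProbabilityMeasure (mu n) := by
  have : IsProbabilityMeasure ((volume : Measure ℝ).restrict (Set.Icc (0 : ℝ) 1)) :=
    ⟨by simp⟩
  unfold mu
  infer_instance

/-- total mass one: complementary properties -/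
theorem EE_compl (hn : 1 ≤ n) (β : ℝ) (A : SimpleGraph (Fin n) → Fin n → Prop) :
    EE β (fun _ T => ((Finset.univ.filter (A T)).card : ℝ≥0∞) / n) +
      EE β (fun _ T => ((Finset.univ.filter fun v => ¬ A T v).card : ℝ≥0∞) / n) = 1 := by
  rw [← EE_add (F := fun (_ : Env n) T => ((Finset.univ.filter (A T)).card : ℝ≥0∞) / n)
    (G := fun (_ : Env n) T => ((Finset.univ.filter fun v => ¬ A T v).card : ℝ≥0∞) / n)
    fun T => measurable_const]
  have h1 : ∀ T : SimpleGraph (Fin n),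
      ((Finset.univ.filter (A T)).card : ℝ≥0∞) / n +
        ((Finset.univ.filter fun v => ¬ A T v).card : ℝ≥0∞) / n = 1 := by
    intro T
    rw [← ENNReal.add_div, ← Nat.cast_add, Finset.card_filter_add_card_filter_not,
      Finset.card_univ, Fintype.card_fin]
    exact ENNReal.div_self (by exact_mod_cast (by omega : n ≠ 0)) (ENNReal.natCast_ne_top n)
  simp_rw [h1]
  rw [EE_env hn measurable_const]
  have := prob_mu n
  simp

theorem EE_compl_ind (hn : 1 ≤ n) (β : ℝ) (A : SimpleGraph (Fin n) → Prop) :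
    EE β (fun _ T => ind (A T)) + EE β (fun (_ : Env n) T => ind (¬ A T)) = 1 := by
  rw [← EE_add (F := fun (_ : Env n) T => ind (A T)) (G := fun (_ : Env n) T => ind (¬ A T))
    fun T => measurable_const]
  have h1 : ∀ T : SimpleGraph (Fin n), ind (A T) + ind (¬ A T) = 1 := by
    intro T
    unfold ind
    by_cases h : A T <;> simp [h]
  simp_rw [h1]
  rw [EE_env hn measurable_const]
  have := prob_mu n
  simp

theorem le_of_add_one {x y : ℝ≥0∞} {η : ℝ} (h : x + y = 1)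
    (hx : ENNReal.ofReal (1 - η) ≤ x) : y ≤ ENNReal.ofReal η := by
  have hxt : x ≠ ∞ := by
    intro h'
    rw [h', top_add] at h
    exact ENNReal.one_ne_top h.symm
  have h1 : x + y ≤ x + ENNReal.ofReal η := by
    rw [h]
    calc (1 : ℝ≥0∞) = ENNReal.ofReal 1 := ENNReal.ofReal_one.symm
      _ ≤ ENNReal.ofReal ((1 - η) + η) := by apply ENNReal.ofReal_le_ofReal; linarith
      _ ≤ ENNReal.ofReal (1 - η) + ENNReal.ofReal η := ENNReal.ofReal_add_le
      _ ≤ x + ENNReal.ofReal η := by gcongr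
  exact (ENNReal.add_le_add_iff_left hxt).1 h1

theorem ge_of_add_one {x y : ℝ≥0∞} {η : ℝ} (hη : 0 ≤ η) (hη1 : η ≤ 1) (h : x + y = 1)
    (hy : y ≤ ENNReal.ofReal η) : ENNReal.ofReal (1 - η) ≤ x := by
  have h1 : ENNReal.ofReal (1 - η) + ENNReal.ofReal η ≤ x + ENNReal.ofReal η := by
    rw [← ENNReal.ofReal_add (by linarith) hη]
    simp only [sub_add_cancel, ENNReal.ofReal_one]
    rw [← h]
    gcongr
  exact (ENNReal.add_le_add_iff_right ENNReal.ofReal_ne_top).1 h1

/-- the deterministic part -/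
theorem det_part {α ε ε' δ' l : ℝ} (hn : 1 ≤ n) (hl : 0 < l) (hl1 : l ≤ 1)
    (hδ1 : δ' ≤ 1)
    (hu : 1 ≤ l ^ (1 / α + ε) * (n : ℝ) ^ ((α - ε') * (1 / α + ε) - 1))
    (hb : 0 < 1 / α + ε)
    (hlow : 0 ≤ 1 / α - ε → (α + ε') * (1 / α - ε) ≤ 1 - δ')
    (hln : 1 ≤ l * (n : ℝ) ^ (α - ε'))
    (T : SimpleGraph (Fin n)) (v : Fin n)
    (hD1 : (n : ℝ) ^ (α - ε') ≤ T.diam) (hD2 : (T.diam : ℝ) ≤ (n : ℝ) ^ (α + ε'))
    (hB : (n : ℝ) ^ (1 - δ') ≤ ballT T v (l * T.diam)) :
    (l * T.diam) ^ (1 / α - ε) ≤ ballT T v (l * T.diam) ∧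
      (ballT T v (l * T.diam) : ℝ) ≤ (l * T.diam) ^ (1 / α + ε) := by
  have hn1 : (1 : ℝ) ≤ n := by exact_mod_cast hn
  have hn0 : (0 : ℝ) < n := by linarith
  have hD0 : (0 : ℝ) ≤ T.diam := Nat.cast_nonneg _
  have hlD : l * (n : ℝ) ^ (α - ε') ≤ l * T.diam := by gcongr
  have hlD1 : 1 ≤ l * T.diam := hln.trans hlD
  constructor
  · by_cases ha : 0 ≤ 1 / α - ε
    · calc (l * T.diam) ^ (1 / α - ε) ≤ ((n : ℝ) ^ (α + ε')) ^ (1 / α - ε) := by
            apply Real.rpow_le_rpow (by linarith) _ ha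
            calc l * (T.diam : ℝ) ≤ 1 * T.diam := by gcongr
              _ ≤ (n : ℝ) ^ (α + ε') := by rw [one_mul]; exact hD2
        _ = (n : ℝ) ^ ((α + ε') * (1 / α - ε)) := by rw [← Real.rpow_mul hn0.le]
        _ ≤ (n : ℝ) ^ (1 - δ') := Real.rpow_le_rpow_of_exponent_le hn1 (hlow ha)
        _ ≤ _ := hB
    · push Not at ha
      calc (l * T.diam) ^ (1 / α - ε) ≤ 1 :=
            Real.rpow_le_one_of_one_le_of_nonpos hlD1 ha.le
        _ ≤ (n : ℝ) ^ (1 - δ') := Real.one_le_rpow hn1 (by linarith)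
        _ ≤ _ := hB
  · have h1 : ballT T v (l * T.diam) ≤ n := by
      unfold ballT
      simpa using Finset.card_le_univ
        (Finset.univ.filter fun u => (T.dist v u : ℝ) ≤ l * T.diam)
    calc (ballT T v (l * T.diam) : ℝ) ≤ n := by exact_mod_cast h1
      _ = n * 1 := (mul_one _).symm
      _ ≤ n * (l ^ (1 / α + ε) * (n : ℝ) ^ ((α - ε') * (1 / α + ε) - 1)) := by gcongr
      _ = l ^ (1 / α + ε) * (n : ℝ) ^ ((α - ε') * (1 / α + ε)) := by
          rw [show (α - ε') * (1 / α + ε) = ((α - ε') * (1 / α + ε) - 1) + 1 by ring,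
            Real.rpow_add_one hn0.ne']
          ring_nf
      _ = (l * (n : ℝ) ^ (α - ε')) ^ (1 / α + ε) := by
          rw [Real.mul_rpow hl.le (by positivity), ← Real.rpow_mul hn0.le]
      _ ≤ (l * T.diam) ^ (1 / α + ε) :=
          Real.rpow_le_rpow (by positivity) hlD hb.le

theorem ev_rpow {K s : ℝ} (hK : 0 < K) (hs : 0 < s) :
    ∀ᶠ n : ℕ in atTop, 1 ≤ K * (n : ℝ) ^ s := by
  have h1 : Tendsto (fun n : ℕ => K * (n : ℝ) ^ s) atTop atTop :=
    ((tendsto_rpow_atTop hs).comp tendsto_natCast_atTop_atTop).const_mul_atTop hK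
  exact h1.eventually_ge_atTop 1

end QU

open QU in
theorem Q1_of_uniform
    (hU : ∀ δ' l : ℝ, 0 < δ' → δ' ≤ 1 → 0 < l → l ≤ 1 →
      ∀ η : ℝ, 0 < η → ∃ n₀ : ℕ, ∀ n ≥ n₀, ∀ β : ℝ, 0 ≤ β →
      EE β (fun _ T => ((Finset.univ.filter fun v : Fin n =>
        (ballT T v (l * T.diam) : ℝ) < (n : ℝ) ^ (1 - δ')).card : ℝ≥0∞) / n) ≤
        ENNReal.ofReal η) : Q1 := by
  intro β α hβ hα hα1 hdiam l hl hl1 ε hε
  set b : ℝ := 1 / α + ε with hb
  have hb0 : 0 < b := by positivity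
  set ε' : ℝ := min (α / 2) (α * ε / (2 * b)) with hε'def
  have hε' : 0 < ε' := lt_min (by positivity) (by positivity)
  have hε'1 : ε' ≤ α / 2 := min_le_left _ _
  have hε'2 : ε' * b ≤ α * ε / 2 := by
    calc ε' * b ≤ α * ε / (2 * b) * b := by gcongr; exact min_le_right _ _
      _ = α * ε / 2 := by field_simp
  set δ' : ℝ := min (α * ε / 2) 1 with hδ'def
  have hδ' : 0 < δ' := lt_min (by positivity) one_pos
  have hδ1 : δ' ≤ 1 := min_le_right _ _
  have hδ2 : δ' ≤ α * ε / 2 := min_le_left _ _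
  have hαb : α * b = 1 + α * ε := by rw [hb]; field_simp
  have hexp : α * ε / 2 ≤ (α - ε') * b - 1 := by nlinarith
  have hlow : 0 ≤ 1 / α - ε → (α + ε') * (1 / α - ε) ≤ 1 - δ' := by
    intro ha
    have h1 : α * (1 / α - ε) = 1 - α * ε := by field_simp
    have h2 : ε' * (1 / α - ε) ≤ ε' * b := by
      apply mul_le_mul_of_nonneg_left _ hε'.le
      rw [hb]; linarith
    nlinarith
  clear_value b ε' δ'
  rw [Metric.tendsto_atTop]
  intro η hη
  set η' : ℝ := min (η / 4) (1 / 4) with hη'def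
  have hη' : 0 < η' := lt_min (by positivity) (by norm_num)
  have hη'1 : η' ≤ η / 4 := min_le_left _ _
  have hη'2 : η' ≤ 1 / 4 := min_le_right _ _
  clear_value η'
  obtain ⟨n₀, hn₀⟩ := hU δ' l hδ' hδ1 hl hl1 η' hη'
  have hd := hdiam ε' hε'
  rw [Metric.tendsto_atTop] at hd
  obtain ⟨n₁, hn₁⟩ := hd η' hη'
  obtain ⟨n₂, hn₂⟩ := Filter.eventually_atTop.1
    ((ev_rpow (K := l ^ b) (s := (α - ε') * b - 1) (by positivity)
      (lt_of_lt_of_le (by positivity) hexp)).and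
      (ev_rpow (K := l) (s := α - ε') hl (by linarith)))
  refine ⟨max 1 (max n₀ (max n₁ n₂)), fun n hn => ?_⟩
  have hn1 : 1 ≤ n := le_trans (le_max_left _ _) hn
  have hn0' : n₀ ≤ n := le_trans (le_trans (le_max_left _ _) (le_max_right _ _)) hn
  have hn1' : n₁ ≤ n := le_trans (le_trans (le_trans (le_max_left _ _) (le_max_right _ _))
    (le_max_right _ _)) hn
  have hn2' : n₂ ≤ n := le_trans (le_trans (le_trans (le_max_right _ _) (le_max_right _ _))
    (le_max_right _ _)) hn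
  obtain ⟨hu, hln⟩ := hn₂ n hn2'
  -- the diameter
  have hD := hn₁ n hn1'
  rw [Real.dist_eq, abs_lt] at hD
  have hD1 : ENNReal.ofReal (1 - η') ≤ EE (β n) (fun (_ : Env n) T =>
      ind ((n : ℝ) ^ (α - ε') ≤ T.diam ∧ (T.diam : ℝ) ≤ (n : ℝ) ^ (α + ε'))) := by
    rw [← Phat_eq hn1]
    exact ENNReal.ofReal_le_ofReal (by linarith [hD.1])
  have hD2 := le_of_add_one (EE_compl_ind hn1 (β n) (fun T =>
    (n : ℝ) ^ (α - ε') ≤ T.diam ∧ (T.diam : ℝ) ≤ (n : ℝ) ^ (α + ε'))) hD1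
  -- the balls
  have hB := hn₀ n hn0' (β n) (hβ n)
  set A : SimpleGraph (Fin n) → Fin n → Prop := fun T v =>
    (l * T.diam) ^ (1 / α - ε) ≤ ballT T v (l * T.diam) ∧
        (ballT T v (l * T.diam) : ℝ) ≤ (l * T.diam) ^ b with hA
  have hneg : EE (β n) (fun (_ : Env n) T =>
      ((Finset.univ.filter fun v => ¬ A T v).card : ℝ≥0∞) / n) ≤ ENNReal.ofReal (2 * η') := by
    have h1 : EE (β n) (fun (_ : Env n) T =>
        ((Finset.univ.filter fun v => ¬ A T v).card : ℝ≥0∞) / n) ≤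
        EE (β n) (fun (_ : Env n) T => ind (¬ ((n : ℝ) ^ (α - ε') ≤ T.diam ∧
          (T.diam : ℝ) ≤ (n : ℝ) ^ (α + ε'))) + ((Finset.univ.filter fun v : Fin n =>
        (ballT T v (l * T.diam) : ℝ) < (n : ℝ) ^ (1 - δ')).card : ℝ≥0∞) / n) := by
      refine EE_mono fun ω T _ => ?_
      by_cases hT : (n : ℝ) ^ (α - ε') ≤ T.diam ∧ (T.diam : ℝ) ≤ (n : ℝ) ^ (α + ε')
      · refine le_trans ?_ le_add_self
        refine ENNReal.div_le_div_right (Nat.cast_le.2 (Finset.card_le_card ?_)) _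
        intro v hv
        simp only [Finset.mem_filter, Finset.mem_univ, true_and] at hv ⊢
        by_contra hcon
        push Not at hcon
        apply hv
        rw [hA]
        rw [hb] at hu hb0 ⊢
        exact det_part hn1 hl hl1 hδ1 hu hb0 hlow hln T v hT.1 hT.2 hcon
      · refine le_trans ?_ le_self_add
        unfold ind
        rw [if_pos hT]
        refine ENNReal.div_le_of_le_mul ?_
        rw [one_mul]
        have : (Finset.univ.filter fun v => ¬ A T v).card ≤ n := by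
          simpa using Finset.card_le_univ (Finset.univ.filter fun v => ¬ A T v)
        exact_mod_cast this
    refine h1.trans ?_
    rw [EE_add (F := fun (_ : Env n) T => ind (¬ ((n : ℝ) ^ (α - ε') ≤ T.diam ∧
          (T.diam : ℝ) ≤ (n : ℝ) ^ (α + ε')))) (G := fun (_ : Env n) T =>
            ((Finset.univ.filter fun v : Fin n =>
        (ballT T v (l * T.diam) : ℝ) < (n : ℝ) ^ (1 - δ')).card : ℝ≥0∞) / n)
        fun T => measurable_const, two_mul, ENNReal.ofReal_add hη'.le hη'.le]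
    exact add_le_add hD2 hB
  have hsum := EE_compl hn1 (β n) A
  have hlo : ENNReal.ofReal (1 - 2 * η') ≤ ENNReal.ofReal (PhatV n (β n) A) := by
    rw [PhatV_eq hn1]
    refine ge_of_add_one (by linarith) (by linarith) hsum ?_
    convert hneg
  have hhi : ENNReal.ofReal (PhatV n (β n) A) ≤ ENNReal.ofReal 1 := by
    rw [PhatV_eq hn1, ENNReal.ofReal_one, ← hsum]
    exact le_self_add
  have hPpos : 0 < PhatV n (β n) A := by
    by_contra hc
    rw [ENNReal.ofReal_of_nonpos (not_lt.1 hc)] at hlo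
    have h3 : ENNReal.ofReal (1 - 2 * η') = 0 := le_antisymm hlo zero_le
    rw [ENNReal.ofReal_eq_zero] at h3
    linarith
  have hlo' : 1 - 2 * η' ≤ PhatV n (β n) A := by
    rwa [ENNReal.ofReal_le_ofReal_iff hPpos.le] at hlo
  have hhi' : PhatV n (β n) A ≤ 1 := by
    rwa [ENNReal.ofReal_le_ofReal_iff (by norm_num)] at hhi
  change dist (PhatV n (β n) A) 1 < η
  rw [Real.dist_eq, abs_lt]
  constructor <;> linarith

end RST
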