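import Pool.Agent.Work.MP_5ba30e_pr.FinalC_M12

/-!
# FinalC : the low temperature regime `β ≥ n^{1+1/3-δ'/16}`

`hook_exp_C`, `diam_C` are proved in `FinalC_M10.lean`, `near_C0`, `det_C` in `FinalC_M11.lean`,
`reg_C` in `FinalC_M12.lean`.
-/
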