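import Pool.Agent.Work.MP_5ba30e_pr.FinalV
import Pool.Agent.Work.MP_5ba30e_pr.FinalC
import Pool.Agent.Work.MP_5ba30e_pr.Final1_Q1_of_uniform

/-!
# Final1 : the uniform theorem and Q1
-/

open MeasureTheory Set Filter Finset
open scoped ENNReal Topology Classical

noncomputable section

namespace RST

/-- the uniform theorem: no hypothesis on `β` -/
theorem uniform (δ' l : ℝ) (hδ : 0 < δ') (hδ1 : δ' ≤ 1) (hl : 0 < l) (hl1 : l ≤ 1) :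
    ∀ η : ℝ, 0 < η → ∃ n₀ : ℕ, ∀ n ≥ n₀, ∀ β : ℝ, 0 ≤ β →
      EE β (fun _ T => ((Finset.univ.filter fun v : Fin n =>
        (ballT T v (l * T.diam) : ℝ) < (n : ℝ) ^ (1 - δ')).card : ℝ≥0∞) / n) ≤
        ENNReal.ofReal η := by
  intro η hη
  obtain ⟨κ₀, hκ₀, hV⟩ := reg_V δ' l hδ hδ1 hl hl1
  obtain ⟨n₁, h₁⟩ := hV η hη
  obtain ⟨n₂, h₂⟩ := reg_B δ' l κ₀ hδ hδ1 hl hl1 hκ₀ η hη
  obtain ⟨n₃, h₃⟩ := reg_C δ' l hδ hδ1 hl hl1 η hη
  refine ⟨max n₁ (max n₂ n₃), fun n hn β hβ => ?_⟩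
  have hn₁ : n₁ ≤ n := le_trans (le_max_left _ _) hn
  have hn₂ : n₂ ≤ n := le_trans (le_trans (le_max_left _ _) (le_max_right _ _)) hn
  have hn₃ : n₃ ≤ n := le_trans (le_trans (le_max_right _ _) (le_max_right _ _)) hn
  rcases le_or_gt β (κ₀ * n) with hb | hb
  · exact h₁ n hn₁ β hβ hb
  · rcases le_or_gt β (n * (n : ℝ) ^ (1 / 3 - δ' / 16)) with hc | hc
    · exact h₂ n hn₂ β hb.le hc
    · exact h₃ n hn₃ β hc.le


theorem q1 : Q1 := Q1_of_uniform uniform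

end RST
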