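import Pool.Agent.Work.MP_5ba30e_pr.FinalB_reg_B

/-!
# FinalB : the intermediate regime `κ₀ n ≤ β ≤ n^{1+1/3-c}`

* `AB`, `AB_meas` : `FinalB_AB`;
* `engB` : `FinalB_M5`;
* `ball_of_E3` : `FinalB_ball_of_E3`;
* `AB_prob` : `FinalB_AB_prob`;
* `reg_B` : `FinalB_reg_B`.
-/
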