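import Pool.Agent.Work.MP_5ba30e_pr.Engine
import Pool.Agent.Work.MP_5ba30e_pr.BridgeR
import Pool.Agent.Work.MP_5ba30e_pr.BridgeD

/-!
# FinalB_AB : the good event of the intermediate regime
-/

open MeasureTheory Set Filter Finset
open scoped ENNReal Topology Classical

noncomputable section

namespace RST

variable {n : ℕ}

/-- the good event in the intermediate regime -/
def AB (β δ₀ QL θ : ℝ) (J jX jx : ℕ) (k : ℕ) (σ : Fin k → Fin n) (ω : Env n)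
    (T : SimpleGraph (Fin n)) : Prop :=
  GoodEnv β δ₀ QL J jX ω ∧ (∀ e, 0 ≤ ω e) ∧ im σ ⊆ CC δ₀ jx ω ∧
    TupOK T (im σ) (CC δ₀ jx ω) θ ∧ ¬ Disjoint (im σ) (CC δ₀ 0 ω) ∧
    TPath ω T (CC δ₀ 0 ω) (pl n δ₀ jx) ∧ TPath ω T (CC δ₀ jx ω) (pl n δ₀ jX)

/-- a condition on a large component -/
theorem fb_CC_meas (δ₀ : ℝ) (j : ℕ) (P : Finset (Fin n) → Prop) :
    MeasurableSet {ω : Env n | P (CC δ₀ j ω)} :=
  ((LevDep.CC δ₀ j).comp P).measurableSet

theorem fb_TPath_meas (δ₀ : ℝ) (j : ℕ) (p : ℝ) (T : SimpleGraph (Fin n)) :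
    MeasurableSet {ω : Env n | TPath ω T (CC δ₀ j ω) p} := by
  have h1 : {ω : Env n | TPath ω T (CC δ₀ j ω) p} =
      ⋂ x : Fin n, ⋂ y : Fin n, ⋂ f : Sym2 (Fin n),
        ({ω : Env n | ¬ (x ∈ CC δ₀ j ω ∧ y ∈ CC δ₀ j ω ∧ onp T x y f)} ∪
          {ω : Env n | ω f ≤ p}) := by
    ext ω
    simp only [TPath, Set.mem_iInter, Set.mem_union, Set.mem_ofPred_eq]
    constructor
    · intro h x y f
      by_cases hh : x ∈ CC δ₀ j ω ∧ y ∈ CC δ₀ j ω ∧ onp T x y f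
      · exact Or.inr (h x hh.1 y hh.2.1 f hh.2.2)
      · exact Or.inl hh
    · intro h x hx y hy f hf
      rcases h x y f with h2 | h2
      · exact absurd ⟨hx, hy, hf⟩ h2
      · exact h2
  rw [h1]
  refine MeasurableSet.iInter fun x => MeasurableSet.iInter fun y => MeasurableSet.iInter fun f =>
    MeasurableSet.union ?_ ?_
  · exact fb_CC_meas δ₀ j fun C => ¬ (x ∈ C ∧ y ∈ C ∧ onp T x y f)
  · exact measurableSet_le (measurable_pi_apply _) measurable_const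

/-- `AB` is measurable (`LevDep.goodEnv`, `LevDep.CC`, `TPath` by `LevDep.lt`) -/
theorem AB_meas (β δ₀ QL θ : ℝ) (J jX jx k : ℕ) (σ : Fin k → Fin n)
    (T : SimpleGraph (Fin n)) : MeasurableSet {ω | AB β δ₀ QL θ J jX jx k σ ω T} := by
  have h1 : {ω : Env n | AB β δ₀ QL θ J jX jx k σ ω T} =
      {ω : Env n | GoodEnv β δ₀ QL J jX ω} ∩ ((⋂ e, {ω : Env n | 0 ≤ ω e}) ∩
      ({ω : Env n | im σ ⊆ CC δ₀ jx ω} ∩ ({ω : Env n | TupOK T (im σ) (CC δ₀ jx ω) θ} ∩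
      ({ω : Env n | ¬ Disjoint (im σ) (CC δ₀ 0 ω)} ∩
      ({ω : Env n | TPath ω T (CC δ₀ 0 ω) (pl n δ₀ jx)} ∩
        {ω : Env n | TPath ω T (CC δ₀ jx ω) (pl n δ₀ jX)}))))) := by
    ext ω
    simp only [AB, Set.mem_iInter, Set.mem_inter_iff, Set.mem_ofPred_eq]
  rw [h1]
  refine (LevDep.goodEnv β δ₀ QL J jX).measurableSet.inter (MeasurableSet.inter ?_
    (MeasurableSet.inter ?_ (MeasurableSet.inter ?_ (MeasurableSet.inter ?_
      (MeasurableSet.inter ?_ ?_)))))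
  · exact MeasurableSet.iInter fun e => measurableSet_le measurable_const (measurable_pi_apply _)
  · exact fb_CC_meas δ₀ jx fun C => im σ ⊆ C
  · exact fb_CC_meas δ₀ jx fun C => TupOK T (im σ) C θ
  · exact fb_CC_meas δ₀ 0 fun C => ¬ Disjoint (im σ) C
  · exact fb_TPath_meas δ₀ 0 _ T
  · exact fb_TPath_meas δ₀ jx _ T

end RST
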