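import Pool.Agent.Work.MP_5ba30e_pr.TreeB
import Pool.Agent.Work.MP_5ba30e_pr.Tup

/-!
# Net : from the distance to the hull to the volume of the balls
-/

open MeasureTheory Set Filter Finset
open scoped ENNReal Topology Classical

noncomputable section

namespace RST

variable {n : ℕ}

/-- a covering lemma: if `n` vertices, except those of `B`, are covered by `N` sets of diameter
`≤ r` (for the distance of `T`), then at most `|B| + N τ` vertices have a ball of radius `r` with
less than `τ` elements -/
theorem cover_card {T : SimpleGraph (Fin n)} {r τ : ℝ} (hτ : 0 ≤ τ) {ι : Type*}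
    (s : Finset ι) (B : Finset (Fin n)) (c : Fin n → ι)
    (hc : ∀ v, v ∉ B → c v ∈ s)
    (hd : ∀ u v, u ∉ B → v ∉ B → c u = c v → (T.dist v u : ℝ) ≤ r) :
    ((Finset.univ.filter fun v => (ballT T v r : ℝ) < τ).card : ℝ) ≤
      (B.card : ℝ) + s.card * τ := by
  set W : Finset (Fin n) := Finset.univ.filter fun v => (ballT T v r : ℝ) < τ with hW
  have h1 : W.card ≤ B.card + (W \ B).card := by
    have h := Finset.card_le_card (Finset.subset_union_right (s₁ := B) (s₂ := W))
    rw [← Finset.union_sdiff_self_eq_union] at h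
    exact h.trans (Finset.card_union_le _ _)
  have h2 : ((W \ B).card : ℝ) ≤ s.card * τ := by
    have h3 : (W \ B).card = ∑ i ∈ s, ((W \ B).filter fun v => c v = i).card := by
      refine Finset.card_eq_sum_card_fiberwise ?_
      intro v hv
      rw [Finset.mem_coe, Finset.mem_sdiff] at hv
      exact hc v hv.2
    rw [h3]
    push_cast
    rw [← nsmul_eq_mul]
    refine Finset.sum_le_card_nsmul _ _ _ ?_
    intro i hi
    rcases ((W \ B).filter fun v => c v = i).eq_empty_or_nonempty with h | ⟨v, hv⟩
    · rw [h]
      simpa using hτ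
    · rw [Finset.mem_filter, Finset.mem_sdiff, hW, Finset.mem_filter] at hv
      refine le_trans ?_ hv.1.1.2.le
      unfold ballT
      refine Nat.cast_le.2 (Finset.card_le_card ?_)
      intro u hu
      rw [Finset.mem_filter, Finset.mem_sdiff] at hu
      rw [Finset.mem_filter]
      exact ⟨Finset.mem_univ _, hd u v hu.1.2 hv.1.2 (hu.2.trans hv.2.symm)⟩
  have h3 : (W.card : ℝ) ≤ (B.card : ℝ) + ((W \ B).card : ℝ) := by exact_mod_cast h1
  linarith

/-- the vertex at distance `a` of `s` on the path from `s` to `t` -/
theorem getVert_of_dist {T : SimpleGraph (Fin n)} (hT : T.IsTree) {s t z : Fin n}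
    {p : T.Walk s t} (hp : p.IsPath) (h : T.dist s z + T.dist z t = T.dist s t) :
    p.getVert (T.dist s z) = z := by
  obtain ⟨q₁, hq₁⟩ := (hT.connected s z).exists_walk_length_eq_dist
  obtain ⟨q₂, hq₂⟩ := (hT.connected z t).exists_walk_length_eq_dist
  have h1 : (q₁.append q₂).length = T.dist s t := by
    rw [SimpleGraph.Walk.length_append, hq₁, hq₂, h]
  have h2 := SimpleGraph.Walk.isPath_of_length_eq_dist _ h1
  rw [(hT.existsUnique_path s t).unique hp h2, ← hq₁, SimpleGraph.Walk.getVert_append]
  simp

/-- distance of two vertices of a path -/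
theorem dist_getVert_le {T : SimpleGraph (Fin n)} {s t : Fin n} (p : T.Walk s t) {a b : ℕ}
    (hab : a ≤ b) : T.dist (p.getVert a) (p.getVert b) ≤ b - a := by
  have h1 := SimpleGraph.dist_le ((p.drop a).take (b - a))
  rw [SimpleGraph.Walk.take_length, SimpleGraph.Walk.drop_getVert] at h1
  have h2 : a + (b - a) = b := by omega
  rw [h2] at h1
  exact h1.trans (min_le_left _ _)

/-- Let `D = diam T`, `l ∈ (0,1]`, `r = l D`. Choose `s₀ ∈ S`; the hull is the union of the paths
of `T` from `s₀` to `t ∈ S`, of length `≤ D`; on each of them choose the points at distance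
`0, m, 2m, …` of `s₀` with `m = max 1 ⌊l D/4⌋`: at most `D/m + 1 ≤ 8/l + 2` points, and each point
of the path is at distance `≤ m - 1 < l D/4` of one of them.  A vertex `v` with
`hgt v ≤ l D/4` is at distance `≤ l D/2` of a point `g v` of the net; two vertices with the same
`g v` are at distance `≤ l D`; so if the class of `v` has at least `τ` elements, the ball of radius
`l D` of `v` has at least `τ` elements. The vertices in classes with `< τ` elements are at most
`(number of points of the net) * τ`. (If `D = 0` then `n ≤ 1`.) -/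
theorem net_card {T : SimpleGraph (Fin n)} (hT : T.IsTree) {S : Finset (Fin n)}
    (hS : S.Nonempty) {l τ : ℝ} (hl : 0 < l) (hl1 : l ≤ 1) (hτ : 1 ≤ τ) :
    ((Finset.univ.filter fun v => (ballT T v (l * T.diam) : ℝ) < τ).card : ℝ) ≤
      ((Finset.univ.filter fun v => l * T.diam / 4 < hgt T S v).card : ℝ) +
        S.card * (8 / l + 3) * τ := by
  obtain ⟨s₀, hs₀⟩ := hS
  have hS : S.Nonempty := ⟨s₀, hs₀⟩
  have : Nonempty (Fin n) := ⟨s₀⟩
  have hdd : ∀ u v, T.dist u v ≤ T.diam := fun u v =>
    SimpleGraph.dist_le_diam (SimpleGraph.connected_iff_ediam_ne_top.1 hT.connected)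
  set D : ℕ := T.diam with hD
  set m : ℕ := max 1 ⌊l * D / 4⌋₊ with hm
  have hm1 : 1 ≤ m := le_max_left _ _
  have hlD : 0 ≤ l * D / 4 := by positivity
  have hm2 : ((m - 1 : ℕ) : ℝ) ≤ l * D / 4 := by
    rcases le_total ⌊l * D / 4⌋₊ 1 with h | h
    · have : m = 1 := by rw [hm]; exact max_eq_left h
      rw [this]
      simpa using hlD
    · have h3 : m = ⌊l * D / 4⌋₊ := by rw [hm]; exact max_eq_right h
      have h4 := Nat.floor_le hlD
      rw [← h3] at h4
      refine le_trans ?_ h4
      exact_mod_cast Nat.sub_le _ _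
  have hm3 : (D : ℝ) ≤ m * (8 / l) := by
    have h1 : l * D / 4 < 2 * m := by
      have h2 := Nat.lt_floor_add_one (l * D / 4)
      have h3 : ((⌊l * D / 4⌋₊ : ℕ) : ℝ) ≤ m := by
        rw [hm]; exact_mod_cast le_max_right _ _
      have h4 : (1 : ℝ) ≤ m := by exact_mod_cast hm1
      linarith
    rw [mul_div_assoc', le_div_iff₀ hl]
    linarith
  choose! tt htt htt' using fun z (hz : hgt T S z = 0) => exists_of_hgt_zero hT hz hs₀
  set g : Fin n → Fin n := fun v => dn T S v (hgt T S v) with hg
  have hg0 : ∀ v, hgt T S (g v) = 0 := by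
    intro v
    rw [hg]
    simp only
    rw [hgt_dn hT hS le_rfl, Nat.sub_self]
  have hgd : ∀ v, T.dist v (g v) = hgt T S v := by
    intro v
    have := dist_dn hT hS (u := v) (Nat.zero_le _) le_rfl
    rw [dn_zero] at this
    simpa using this
  have key := cover_card (T := T) (r := l * D) (τ := τ) (by linarith)
    (S ×ˢ Finset.range (D / m + 1)) (Finset.univ.filter fun v => l * D / 4 < hgt T S v)
    (fun v => (tt (g v), T.dist s₀ (g v) / m)) ?_ ?_
  · refine key.trans ?_
    have h1 : ((S ×ˢ Finset.range (D / m + 1)).card : ℝ) ≤ S.card * (8 / l + 3) := by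
      rw [Finset.card_product, Finset.card_range]
      push_cast
      refine mul_le_mul_of_nonneg_left ?_ (by positivity)
      have h2 : ((D / m : ℕ) : ℝ) ≤ (D : ℝ) / m := Nat.cast_div_le
      have h3 : (D : ℝ) / m ≤ 8 / l := by
        rw [div_le_iff₀ (by exact_mod_cast hm1)]
        linarith
      linarith
    have h2 := mul_le_mul_of_nonneg_right h1 (show (0 : ℝ) ≤ τ by linarith)
    linarith
  · intro v _
    rw [Finset.mem_product]
    refine ⟨htt _ (hg0 v), ?_⟩
    rw [Finset.mem_range]
    exact Nat.lt_succ_of_le (Nat.div_le_div_right (hdd _ _))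
  · intro u v hu hv huv
    rw [Finset.mem_filter] at hu hv
    push Not at hu hv
    have hu := hu (Finset.mem_univ _)
    have hv := hv (Finset.mem_univ _)
    simp only [Prod.mk.injEq] at huv
    obtain ⟨h1, h2⟩ := huv
    obtain ⟨p, hp, -⟩ := exists_path hT s₀ (tt (g v))
    have h3 := getVert_of_dist hT hp (htt' _ (hg0 v))
    have h4 : T.dist s₀ (g u) + T.dist (g u) (tt (g v)) = T.dist s₀ (tt (g v)) := by
      rw [← h1]; exact htt' _ (hg0 u)
    have h4 := getVert_of_dist hT hp h4
    have h5 : T.dist (g v) (g u) ≤ m - 1 := by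
      set a := T.dist s₀ (g v) with ha
      set b := T.dist s₀ (g u) with hb
      have h6 : a ≤ b + (m - 1) := by
        have := Nat.div_add_mod a m
        have := Nat.div_add_mod b m
        have := Nat.mod_lt a hm1
        have := Nat.mod_lt b hm1
        rw [h2] at *
        omega
      have h7 : b ≤ a + (m - 1) := by
        have := Nat.div_add_mod a m
        have := Nat.div_add_mod b m
        have := Nat.mod_lt a hm1
        have := Nat.mod_lt b hm1
        rw [h2] at *
        omega
      rcases le_total a b with h | h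
      · have h8 := dist_getVert_le p h
        rw [h3, h4] at h8
        omega
      · have h8 := dist_getVert_le p h
        rw [h3, h4, SimpleGraph.dist_comm] at h8
        omega
    have h6 : T.dist v u ≤ hgt T S v + ((m - 1) + hgt T S u) := by
      have h7 := hT.connected.dist_triangle (u := v) (v := g v) (w := u)
      have h8 := hT.connected.dist_triangle (u := g v) (v := g u) (w := u)
      rw [hgd] at h7
      rw [SimpleGraph.dist_comm (u := g u) (v := u), hgd] at h8
      omega
    have h7 : (T.dist v u : ℝ) ≤ hgt T S v + (((m - 1 : ℕ) : ℝ) + hgt T S u) := by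
      exact_mod_cast h6
    have h8 : 0 ≤ l * D / 4 := hlD
    linarith

end RST
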