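import Pool.Agent.Work.MP_5ba30e_pr.FinalB_AB
import Pool.Agent.Work.MP_5ba30e_pr.ERgood
import Pool.Agent.Work.MP_5ba30e_pr.Net

/-!
# FinalB_AB_prob : proof of `AB_prob` (named `AB_prob'` here, since the stub is in `FinalB`)
-/

open MeasureTheory Set Filter Finset
open scoped ENNReal Topology Classical

noncomputable section

namespace RST

variable {n : ℕ}

theorem abp_sum_EE_le {ι : Type*} (s : Finset ι) (β : ℝ)
    (F : ι → Env n → SimpleGraph (Fin n) → ℝ≥0∞) :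
    ∑ i ∈ s, EE β (F i) ≤ EE β (fun ω T => ∑ i ∈ s, F i ω T) := by
  unfold EE
  rw [Finset.sum_comm]
  refine Finset.sum_le_sum fun T _ => ?_
  refine (sum_lintegral_le s _).trans (lintegral_mono fun ω => ?_)
  show ∑ i ∈ s, ENNReal.ofReal (gibbs β ω T) * F i ω T ≤
    ENNReal.ofReal (gibbs β ω T) * ∑ i ∈ s, F i ω T
  rw [Finset.mul_sum]

theorem abp_sum_PsiX_le {k : ℕ} (hk : 1 ≤ k) (X : Finset (Fin n)) : ∑ σ, PsiX k σ X ≤ 1 := by
  rcases X.eq_empty_or_nonempty with rfl | hX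
  · have : ∀ σ : Fin k → Fin n, PsiX k σ (∅ : Finset (Fin n)) = 0 := by
      intro σ
      unfold PsiX
      rw [if_neg]
      intro h
      exact absurd (h ⟨0, hk⟩) (Finset.notMem_empty _)
    simp [this]
  · exact (sum_PsiX k hX).le

/-- bad event of `B4` -/
def abpP (δ₀ : ℝ) (j : ℕ) (p' : ℝ) (ω : Env n) (T : SimpleGraph (Fin n)) : Prop :=
  (∀ x ∈ CC δ₀ j ω, ∀ y ∈ CC δ₀ j ω, (Gr ω (pl n δ₀ j)).Reachable x y) ∧
    ∃ x ∈ CC δ₀ j ω, ∃ y ∈ CC δ₀ j ω, ∃ f, onp T x y f ∧ p' < ω f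

theorem abpP_meas (δ₀ : ℝ) (j : ℕ) (p' : ℝ) (T : SimpleGraph (Fin n)) :
    MeasurableSet {ω : Env n | abpP δ₀ j p' ω T} := by
  have h : LevDep (fun ω : Env n => abpP δ₀ j p' ω T) := by
    refine ⟨{pl n δ₀ j, p'}, fun ω ω' h => ?_⟩
    have h1 : Gr ω (pl n δ₀ j) = Gr ω' (pl n δ₀ j) := h _ (by simp)
    have h2 : Gr ω p' = Gr ω' p' := h _ (by simp)
    have hC : CC δ₀ j ω = CC δ₀ j ω' := by unfold CC; rw [h1]
    have h3 : ∀ (x y : Fin n) (f : Sym2 (Fin n)), (onp T x y f ∧ p' < ω f) ↔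
        (onp T x y f ∧ p' < ω' f) := by
      intro x y f
      refine and_congr_right fun hf => ?_
      exact lt_iff_of_Gr h2 (T.not_isDiag_of_mem_edgeSet hf.1)
    unfold abpP
    simp only [h1, hC, h3]
  exact h.measurableSet

theorem abp_nonempty {β δ₀ QL : ℝ} {J jX jx : ℕ} (hn : 2 ≤ n) (hQL : 1 ≤ QL)
    (hδ : 1 / (n : ℝ) ≤ δ₀) (hx : jx ≤ J) {ω : Env n} (h : GoodEnv β δ₀ QL J jX ω) :
    (CC δ₀ 0 ω).Nonempty ∧ (CC δ₀ jx ω).Nonempty := by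
  have hn0 : (0 : ℝ) < n := by
    have : 0 < n := by omega
    exact_mod_cast this
  have hδ0 : 0 < δ₀ := lt_of_lt_of_le (by positivity) hδ
  have hdb : 0 < db δ₀ := lt_min hδ0 one_pos
  have h1 : 0 < ((CC δ₀ 0 ω).card : ℝ) := lt_of_lt_of_le (by positivity) h.low
  have h2 : (CC δ₀ 0 ω).Nonempty := by
    rw [← Finset.card_pos]
    exact_mod_cast h1
  exact ⟨h2, h2.mono (CC_mono h (Nat.zero_le _) hx)⟩

theorem abp_ratio {β δ₀ QL Q : ℝ} {J jX jx : ℕ} (hn : 2 ≤ n) (hQL : 1 ≤ QL)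
    (hδ : 1 / (n : ℝ) ≤ δ₀) (hx : jx ≤ J) (h2 : QL ^ 2 * (6 / 5) ^ jx ≤ Q)
    {ω : Env n} (h : GoodEnv β δ₀ QL J jX ω) :
    ((CC δ₀ jx ω).card : ℝ) ≤ Q * (CC δ₀ 0 ω).card := by
  have hn0 : (0 : ℝ) < n := by
    have : 0 < n := by omega
    exact_mod_cast this
  have hδ0 : 0 < δ₀ := lt_of_lt_of_le (by positivity) hδ
  have hQL0 : 0 < QL := by linarith
  have h3 := h.upp jx hx
  have h4 := h.low
  have hr : (1 : ℝ) ≤ (6 / 5) ^ jx := one_le_pow₀ (by norm_num)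
  have h5 : db (dl δ₀ jx) ≤ (6 / 5) ^ jx * db δ₀ := by
    unfold db dl
    rcases le_total δ₀ 1 with h6 | h6
    · rw [min_eq_left h6]
      refine (min_le_left _ _).trans ?_
      rw [mul_comm]
    · rw [min_eq_right h6, mul_one]
      exact (min_le_right _ _).trans hr
  rw [div_le_iff₀ hQL0] at h4
  calc ((CC δ₀ jx ω).card : ℝ) ≤ QL * db (dl δ₀ jx) * n := h3
    _ ≤ QL * ((6 / 5) ^ jx * db δ₀) * n := by gcongr
    _ = QL * (6 / 5) ^ jx * (db δ₀ * n) := by ring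
    _ ≤ QL * (6 / 5) ^ jx * ((CC δ₀ 0 ω).card * QL) := by gcongr
    _ = QL ^ 2 * (6 / 5) ^ jx * (CC δ₀ 0 ω).card := by ring
    _ ≤ Q * (CC δ₀ 0 ω).card := by gcongr

/-- the pointwise bound -/
theorem abp_pt (hn : 2 ≤ n) {β δ₀ QL Q θ : ℝ} {J jX jx k : ℕ} (hk : 1 ≤ k)
    (hQL : 1 ≤ QL) (hQ : 1 ≤ Q) (hδ : 1 / (n : ℝ) ≤ δ₀) (hx : jx ≤ jX) (hX : jX ≤ J)
    (hθ : 0 ≤ θ) (hθ1 : θ ≤ 1) (h2 : QL ^ 2 * (6 / 5) ^ jx ≤ Q) {ω : Env n}
    (h0 : ∀ e, 0 ≤ ω e) (T : SimpleGraph (Fin n)) :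
    ∑ σ : Fin k → Fin n, ind (¬ AB β δ₀ QL θ J jX jx k σ ω T) * PsiX k σ (CC δ₀ jx ω) ≤
      ind (¬ GoodEnv β δ₀ QL J jX ω) +
        ((ENNReal.ofReal ((n : ℝ) ^ 2 * (1 - θ) ^ k) + ENNReal.ofReal ((1 - 1 / Q) ^ k)) +
          (ind (abpP δ₀ 0 (pl n δ₀ jx) ω T) + ind (abpP δ₀ jx (pl n δ₀ jX) ω T))) := by
  by_cases hG : GoodEnv β δ₀ QL J jX ω
  swap
  · refine le_trans ?_ le_self_add
    have h3 : ind (¬ GoodEnv β δ₀ QL J jX ω) = 1 := by simp [ind, hG]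
    rw [h3]
    refine le_trans (Finset.sum_le_sum fun σ _ => ?_) (abp_sum_PsiX_le hk (CC δ₀ jx ω))
    calc ind (¬ AB β δ₀ QL θ J jX jx k σ ω T) * PsiX k σ (CC δ₀ jx ω) ≤
          1 * PsiX k σ (CC δ₀ jx ω) := by
          gcongr
          exact ind_le_one _
      _ = _ := one_mul _
  · refine le_trans ?_ le_add_self
    obtain ⟨hne0, hneX⟩ := abp_nonempty hn hQL hδ (hx.trans hX) hG
    have hrat := abp_ratio hn hQL hδ (hx.trans hX) h2 hG
    have hQ0 : 0 < Q := by linarith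
    have hsubX : CC δ₀ 0 ω ⊆ CC δ₀ jx ω := CC_mono hG (Nat.zero_le _) (hx.trans hX)
    have hsum := sum_PsiX k hneX
    have hbad := tup_bad T k (X := CC δ₀ jx ω) hθ hθ1 hk
    have hhit := tup_hit k (X := CC δ₀ jx ω) (Y := CC δ₀ 0 ω) (θ := 1 / Q) (by positivity)
      (by rw [div_le_one hQ0]; exact hQ) (by
        rw [Finset.inter_eq_right.2 hsubX, div_mul_eq_mul_div, one_mul, div_le_iff₀ hQ0]
        linarith)
    have hr0 : ∀ x ∈ CC δ₀ 0 ω, ∀ y ∈ CC δ₀ 0 ω, (Gr ω (pl n δ₀ 0)).Reachable x y := by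
      intro x hx' y hy'
      obtain ⟨w, -⟩ := hG.conn 0 (Nat.zero_le _) x hx' y hy'
      exact ⟨w⟩
    have hrX : ∀ x ∈ CC δ₀ jx ω, ∀ y ∈ CC δ₀ jx ω, (Gr ω (pl n δ₀ jx)).Reachable x y := by
      intro x hx' y hy'
      obtain ⟨w, -⟩ := hG.conn jx (hx.trans hX) x hx' y hy'
      exact ⟨w⟩
    have hσ : ∀ σ : Fin k → Fin n,
        ind (¬ AB β δ₀ QL θ J jX jx k σ ω T) * PsiX k σ (CC δ₀ jx ω) ≤
        (PsiX k σ (CC δ₀ jx ω) * ind (¬ TupOK T (im σ) (CC δ₀ jx ω) θ) +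
          PsiX k σ (CC δ₀ jx ω) * ind (Disjoint (im σ) (CC δ₀ 0 ω))) +
        (PsiX k σ (CC δ₀ jx ω) * ind (abpP δ₀ 0 (pl n δ₀ jx) ω T) +
          PsiX k σ (CC δ₀ jx ω) * ind (abpP δ₀ jx (pl n δ₀ jX) ω T)) := by
      intro σ
      by_cases hσX : ∀ i, σ i ∈ CC δ₀ jx ω
      swap
      · have : PsiX k σ (CC δ₀ jx ω) = 0 := by
          unfold PsiX
          rw [if_neg hσX]
        simp [this]
      have himX : im σ ⊆ CC δ₀ jx ω := by
        intro v hv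
        obtain ⟨i, -, rfl⟩ := Finset.mem_image.1 hv
        exact hσX i
      rw [← mul_add, ← mul_add, ← mul_add, mul_comm]
      gcongr
      by_cases hAB : AB β δ₀ QL θ J jX jx k σ ω T
      · simp [ind, hAB]
      by_cases c1 : TupOK T (im σ) (CC δ₀ jx ω) θ
      swap
      · have : ind (¬ TupOK T (im σ) (CC δ₀ jx ω) θ) = 1 := by simp [ind, c1]
        rw [this]
        refine (ind_le_one _).trans ?_
        rw [add_assoc]
        exact le_self_add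
      by_cases c2 : Disjoint (im σ) (CC δ₀ 0 ω)
      · have : ind (Disjoint (im σ) (CC δ₀ 0 ω)) = 1 := by simp [ind, c2]
        rw [this]
        refine (ind_le_one _).trans ?_
        rw [add_comm (ind (¬ TupOK T (im σ) (CC δ₀ jx ω) θ)), add_assoc]
        exact le_self_add
      by_cases c3 : TPath ω T (CC δ₀ 0 ω) (pl n δ₀ jx)
      swap
      · have h3 : abpP δ₀ 0 (pl n δ₀ jx) ω T := by
          refine ⟨hr0, ?_⟩
          unfold TPath at c3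
          push Not at c3
          obtain ⟨x, hx', y, hy', f, hf, hf'⟩ := c3
          exact ⟨x, hx', y, hy', f, hf, hf'⟩
        have : ind (abpP δ₀ 0 (pl n δ₀ jx) ω T) = 1 := by simp [ind, h3]
        rw [this]
        refine (ind_le_one _).trans ?_
        refine le_trans ?_ le_add_self
        exact le_self_add
      by_cases c4 : TPath ω T (CC δ₀ jx ω) (pl n δ₀ jX)
      swap
      · have h3 : abpP δ₀ jx (pl n δ₀ jX) ω T := by
          refine ⟨hrX, ?_⟩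
          unfold TPath at c4
          push Not at c4
          obtain ⟨x, hx', y, hy', f, hf, hf'⟩ := c4
          exact ⟨x, hx', y, hy', f, hf, hf'⟩
        have : ind (abpP δ₀ jx (pl n δ₀ jX) ω T) = 1 := by simp [ind, h3]
        rw [this]
        refine (ind_le_one _).trans ?_
        refine le_trans ?_ le_add_self
        exact le_add_self
      exact absurd ⟨hG, h0, himX, c1, c2, c3, c4⟩ hAB
    refine (Finset.sum_le_sum fun σ _ => hσ σ).trans ?_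
    rw [Finset.sum_add_distrib, Finset.sum_add_distrib, Finset.sum_add_distrib,
      ← Finset.sum_mul, ← Finset.sum_mul, hsum, one_mul, one_mul]
    gcongr

/-- probability of the bad event: `tup_bad`, `tup_hit`, `B4` (twice) -/
theorem AB_prob (hn : 2 ≤ n) {β δ₀ QL Q θ : ℝ} {J jX jx k : ℕ} (hβ : 0 < β) (hk : 1 ≤ k)
    (hQL : 1 ≤ QL) (hQ : 1 ≤ Q) (hδ : 1 / (n : ℝ) ≤ δ₀) (hx : jx ≤ jX) (hX : jX ≤ J)
    (hθ : 0 ≤ θ) (hθ1 : θ ≤ 1)
    (h2 : QL ^ 2 * (6 / 5) ^ jx ≤ Q)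
    (h7 : 8 * Real.log n ≤ β * (pl n δ₀ jx - pl n δ₀ 0))
    (h8 : 8 * Real.log n ≤ β * (pl n δ₀ jX - pl n δ₀ jx)) :
    E3 (n := n) β k (CC δ₀ jx) (fun σ ω T => ind (¬ AB β δ₀ QL θ J jX jx k σ ω T)) +
        EE (n := n) β (fun ω _ => ind (CC δ₀ jx ω = ∅)) ≤
      2 * mu n {ω | ¬ GoodEnv β δ₀ QL J jX ω} +
        ENNReal.ofReal (2 / (n : ℝ) ^ 4 + (n : ℝ) ^ 2 * (1 - θ) ^ k + (1 - 1 / Q) ^ k) := by
  have hn1 : 1 ≤ n := by omega
  have hQ0 : 0 < Q := by linarith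
  set c3 := ENNReal.ofReal ((n : ℝ) ^ 2 * (1 - θ) ^ k) with hc3
  set c4 := ENNReal.ofReal ((1 - 1 / Q) ^ k) with hc4
  have hGm : MeasurableSet {ω : Env n | ¬ GoodEnv β δ₀ QL J jX ω} :=
    (LevDep.goodEnv β δ₀ QL J jX).measurableSet.compl
  have hF1m : Measurable fun ω : Env n => ind (¬ GoodEnv β δ₀ QL J jX ω) := measurable_ind hGm
  have hEF1 : EE β (fun (ω : Env n) _ => ind (¬ GoodEnv β δ₀ QL J jX ω)) =
      mu n {ω | ¬ GoodEnv β δ₀ QL J jX ω} := by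
    rw [EE_env hn1 hF1m, ← lintegral_indicator_one hGm]
    refine lintegral_congr fun ω => ?_
    by_cases hG : GoodEnv β δ₀ QL J jX ω <;> simp [ind, hG]
  have hE3 : E3 (n := n) β k (CC δ₀ jx) (fun σ ω T => ind (¬ AB β δ₀ QL θ J jX jx k σ ω T)) ≤
      mu n {ω | ¬ GoodEnv β δ₀ QL J jX ω} + ((c3 + c4) +
        (ENNReal.ofReal (1 / (n : ℝ) ^ 4) + ENNReal.ofReal (1 / (n : ℝ) ^ 4))) := by
    unfold E3
    refine (abp_sum_EE_le _ β _).trans ?_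
    have h3 : EE β (fun (ω : Env n) T => ∑ σ : Fin k → Fin n,
        ind (¬ AB β δ₀ QL θ J jX jx k σ ω T) * PsiX k σ (CC δ₀ jx ω)) ≤
        EE β (fun (ω : Env n) T => ind (¬ GoodEnv β δ₀ QL J jX ω) + ((c3 + c4) +
          (ind (abpP δ₀ 0 (pl n δ₀ jx) ω T) + ind (abpP δ₀ jx (pl n δ₀ jX) ω T)))) := by
      refine EE_mono_ae ?_
      filter_upwards [ae_mem n] with ω hω T _
      exact abp_pt hn hk hQL hQ hδ hx hX hθ hθ1 h2 (fun e => (hω e).1) T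
    refine h3.trans ?_
    rw [EE_add (F := fun (ω : Env n) (_ : SimpleGraph (Fin n)) => ind (¬ GoodEnv β δ₀ QL J jX ω))
      (fun _ => hF1m),
      EE_add (F := fun (_ : Env n) (_ : SimpleGraph (Fin n)) => c3 + c4)
      (fun _ => measurable_const),
      EE_add (F := fun (ω : Env n) (T : SimpleGraph (Fin n)) => ind (abpP δ₀ 0 (pl n δ₀ jx) ω T))
      (fun T => measurable_ind (abpP_meas δ₀ 0 (pl n δ₀ jx) T)), hEF1,
      EE_env hn1 (F := fun _ => c3 + c4) measurable_const]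
    have h4 : ∫⁻ _ : Env n, (c3 + c4) ∂(mu n) = c3 + c4 := by simp
    rw [h4]
    have hCm : ∀ j, ∀ v, MeasurableSet {ω : Env n | v ∈ CC δ₀ j ω} := fun j v =>
      ((LevDep.CC δ₀ j).comp fun s => v ∈ s).measurableSet
    have h5 := B4 hn1 hβ.le h7 (CC δ₀ 0) (hCm 0)
    have h6 := B4 hn1 hβ.le h8 (CC δ₀ jx) (hCm jx)
    gcongr
    · exact h5
    · exact h6
  have hEX : EE (n := n) β (fun ω _ => ind (CC δ₀ jx ω = ∅)) ≤
      mu n {ω | ¬ GoodEnv β δ₀ QL J jX ω} := by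
    rw [← hEF1]
    refine EE_mono fun ω T _ => ind_mono ?_
    intro h3 h4
    exact (abp_nonempty hn hQL hδ (hx.trans hX) h4).2.ne_empty h3
  refine (add_le_add hE3 hEX).trans ?_
  have hθ2 : 0 ≤ (1 - θ) ^ k := pow_nonneg (by linarith) _
  have hQ2 : 0 ≤ (1 - 1 / Q) ^ k := by
    apply pow_nonneg
    have : 1 / Q ≤ 1 := by rw [div_le_one hQ0]; exact hQ
    linarith
  have h9 : ENNReal.ofReal (2 / (n : ℝ) ^ 4 + (n : ℝ) ^ 2 * (1 - θ) ^ k + (1 - 1 / Q) ^ k) =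
      (c3 + c4) + (ENNReal.ofReal (1 / (n : ℝ) ^ 4) + ENNReal.ofReal (1 / (n : ℝ) ^ 4)) := by
    rw [hc3, hc4, ← ENNReal.ofReal_add (by positivity) (by positivity),
      ← ENNReal.ofReal_add (by positivity) (by positivity),
      ← ENNReal.ofReal_add (by positivity) (by positivity)]
    congr 1
    ring
  rw [h9, two_mul]
  refine le_of_eq ?_
  ring

end RST
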