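import Pool.Agent.Work.MP_5ba30e_pr.FinalB_AB

/-!
# FinalB_M5 : `Eng` in the intermediate regime
-/

open MeasureTheory Set Filter Finset
open scoped ENNReal Topology Classical

noncomputable section

namespace RST

variable {n : ℕ}

theorem DOK.mono {β M Q θ Wm Δ pm pE M' Q' Wm' Δ' : ℝ} {ℓw : ℕ} {S : Finset (Fin n)}
    {C0 CX : Env n → Finset (Fin n)} {ω : Env n} {T : SimpleGraph (Fin n)} (hT : T.IsTree)
    (h : DOK β M Q θ Wm Δ pm pE ℓw S C0 CX ω T) (hM : M ≤ M') (hQ : Q ≤ Q') (hW : Wm ≤ Wm')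
    (hD : Δ ≤ Δ') : DOK β M' Q' θ Wm' Δ' pm pE ℓw S C0 CX ω T := by
  refine ⟨h.sub, h.card.trans ?_, h.lite, h.inX, h.dens, fun x hx => (h.cnt x hx).trans hW,
    fun x hx => (h.deg x hx).trans hD, fun x y i hm => (h.zr x y i hm).trans ?_, h.invX⟩
  · exact mul_le_mul_of_nonneg_right hQ (Nat.cast_nonneg _)
  · exact mul_le_mul_of_nonneg_right hM (Zf_pos' hT β ω).le

theorem fb_im_nonempty {k : ℕ} (hk : 1 ≤ k) (σ : Fin k → Fin n) : (im σ).Nonempty :=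
  ⟨σ ⟨0, hk⟩, Finset.mem_image_of_mem σ (Finset.mem_univ _)⟩

theorem fb_im_card {k : ℕ} (σ : Fin k → Fin n) : (im σ).card ≤ k := by
  have h := Finset.card_image_le (s := (Finset.univ : Finset (Fin k))) (f := σ)
  rw [Finset.card_univ, Fintype.card_fin] at h
  exact h

theorem fb_dl_zero (δ₀ : ℝ) : dl δ₀ 0 = δ₀ := by simp [dl]

/-- `db (a * c) ≤ c * db a` for `c ≥ 1` -/
theorem fb_db_mul {a c : ℝ} (hc : 1 ≤ c) : db (a * c) ≤ c * db a := by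
  unfold db
  rcases le_total a 1 with h | h
  · rw [min_eq_left h]
    exact (min_le_left _ _).trans (by rw [mul_comm])
  · rw [min_eq_right h, mul_one]
    exact (min_le_right _ _).trans hc

/-- sum of the weights -/
theorem fb_sum (hn : 1 ≤ n) (β : ℝ) {k : ℕ} (hk : 1 ≤ k) {CX : Env n → Finset (Fin n)}
    (hXm : ∀ v, MeasurableSet {ω | v ∈ CX ω}) (ψ : Fin n → Finset (Fin n) → ℝ≥0∞)
    (hψ : ∀ X, ∑ z, ψ z X ≤ 1) :
    ∑ z : Fin n, ∑ σ : Fin k → Fin n, EE β (fun ω _ => PsiX k σ (CX ω) * ψ z (CX ω)) ≤ 1 := by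
  rw [Finset.sum_comm]
  refine le_trans (Finset.sum_le_sum fun σ _ => ?_) (sum_EE_PsiX hn β hk hXm)
  rw [← EE_sum Finset.univ (F := fun z ω _ => PsiX k σ (CX ω) * ψ z (CX ω)) (fun z _ T =>
    dnear_meas hXm fun X => PsiX k σ X * ψ z X)]
  refine EE_mono fun ω T _ => ?_
  rw [← Finset.mul_sum]
  calc PsiX k σ (CX ω) * ∑ z, ψ z (CX ω) ≤ PsiX k σ (CX ω) * 1 := mul_le_mul' le_rfl (hψ _)
    _ = _ := mul_one _

section

variable {β δ₀ QL Q θ : ℝ} {J jX jx k ℓw : ℕ}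

/-- consequences of `AB` -/
theorem fb_card (hδ0 : 0 < δ₀) (hQL : 1 ≤ QL) (hxJ : jx ≤ J) (h2 : QL ^ 2 * (6 / 5) ^ jx ≤ Q)
    {ω : Env n} (h : GoodEnv β δ₀ QL J jX ω) :
    ((CC δ₀ jx ω).card : ℝ) ≤ Q * (CC δ₀ 0 ω).card := by
  have h1 := h.upp jx hxJ
  have h3 := h.low
  have h4 : db (dl δ₀ jx) ≤ (6 / 5) ^ jx * db δ₀ := by
    unfold dl
    exact fb_db_mul (one_le_pow₀ (by norm_num))
  have hQ0 : 0 < QL := by linarith
  rw [div_le_iff₀ hQ0] at h3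
  have hd : 0 < db δ₀ := db_pos hδ0
  calc ((CC δ₀ jx ω).card : ℝ) ≤ QL * db (dl δ₀ jx) * n := h1
    _ ≤ QL * ((6 / 5) ^ jx * db δ₀) * n := by gcongr
    _ = QL * (6 / 5) ^ jx * (db δ₀ * n) := by ring
    _ ≤ QL * (6 / 5) ^ jx * ((CC δ₀ 0 ω).card * QL) := by gcongr
    _ = QL ^ 2 * (6 / 5) ^ jx * (CC δ₀ 0 ω).card := by ring
    _ ≤ Q * (CC δ₀ 0 ω).card := by gcongr

theorem fb_lite (hδ0 : 0 < δ₀) (hQL : 1 ≤ QL) (hθ : 0 ≤ θ) (hxJ : jx ≤ J)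
    (h2 : QL ^ 2 * (6 / 5) ^ jx ≤ Q) (h5 : θ * Q ≤ 1 / 8)
    (h6 : 4 * (QL + 1) * QL ≤ db δ₀ * n) {ω : Env n} (h : GoodEnv β δ₀ QL J jX ω) :
    2 * (θ * (CC δ₀ jx ω).card + QL + 1) ≤ (CC δ₀ 0 ω).card := by
  have h1 := fb_card hδ0 hQL hxJ h2 h
  have h3 := h.low
  have hQ0 : 0 < QL := by linarith
  rw [div_le_iff₀ hQ0] at h3
  have hc : (0 : ℝ) ≤ (CC δ₀ 0 ω).card := Nat.cast_nonneg _
  have h7 : 4 * (QL + 1) ≤ (CC δ₀ 0 ω).card := by
    have h8 : 4 * (QL + 1) * QL ≤ (CC δ₀ 0 ω).card * QL := h6.trans h3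
    exact le_of_mul_le_mul_right h8 hQ0
  have h9 : θ * (CC δ₀ jx ω).card ≤ 1 / 8 * (CC δ₀ 0 ω).card := by
    calc θ * (CC δ₀ jx ω).card ≤ θ * (Q * (CC δ₀ 0 ω).card) := by gcongr
      _ = θ * Q * (CC δ₀ 0 ω).card := by ring
      _ ≤ 1 / 8 * (CC δ₀ 0 ω).card := by gcongr
  linarith

/-- the hook, for a family of weights -/
theorem fb_hook (hn : 2 ≤ n) (hβ : 0 < β) (hk : 1 ≤ k)
    (hQL : 1 ≤ QL) (hδ : 1 / (n : ℝ) ≤ δ₀) (hxJ : jx ≤ J) (hθ : 0 ≤ θ)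
    (h2 : QL ^ 2 * (6 / 5) ^ jx ≤ Q) (h3 : 100 * J * QL ^ 4 ≤ Q) (h5 : θ * Q ≤ 1 / 8)
    (h6 : 4 * (QL + 1) * QL ≤ db δ₀ * n) (ψ : Fin n → Finset (Fin n) → ℝ≥0∞)
    (hψ : ∀ X, ∑ z, ψ z X ≤ 1) :
    ∑ z : Fin n, ∑ σ : Fin k → Fin n, EE β (fun ω T => ind (AB β δ₀ QL θ J jX jx k σ ω T) *
      (hook T (im σ) (CC δ₀ 0 ω) z : ℝ≥0∞) * (PsiX k σ (CC δ₀ jx ω) * ψ z (CC δ₀ jx ω))) ≤
      ENNReal.ofReal (Q / db δ₀) := by
  have hn0 : (0 : ℝ) < n := by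
    have : 0 < n := by omega
    exact_mod_cast this
  have hδ0 : 0 < δ₀ := lt_of_lt_of_le (by positivity) hδ
  have hd : 0 < db δ₀ := db_pos hδ0
  have key : ∀ (z : Fin n) (σ : Fin k → Fin n), EE β (fun ω T =>
      ind (AB β δ₀ QL θ J jX jx k σ ω T) *
      (hook T (im σ) (CC δ₀ 0 ω) z : ℝ≥0∞) * (PsiX k σ (CC δ₀ jx ω) * ψ z (CC δ₀ jx ω))) ≤
      ENNReal.ofReal (Q / db δ₀) *
        EE β (fun ω _ => PsiX k σ (CC δ₀ jx ω) * ψ z (CC δ₀ jx ω)) := by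
    intro z σ
    refine (hook_exp hn hβ hQL hδ hxJ (fb_im_nonempty hk σ) z (AB β δ₀ QL θ J jX jx k σ)
      (AB_meas β δ₀ QL θ J jX jx k σ) (fun ω T h => ⟨h.1, h.2.2.2.1,
        fb_lite hδ0 hQL hθ hxJ h2 h5 h6 h.1⟩) (fun X => PsiX k σ X * ψ z X)).trans ?_
    refine mul_le_mul' (ENNReal.ofReal_le_ofReal ?_) le_rfl
    gcongr
  refine (Finset.sum_le_sum fun z _ => Finset.sum_le_sum fun σ _ => key z σ).trans ?_
  simp_rw [← Finset.mul_sum]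
  calc _ ≤ ENNReal.ofReal (Q / db δ₀) * 1 := mul_le_mul' le_rfl
        (fb_sum (by omega) β hk (measurableSet_mem_CC δ₀ jx) ψ hψ)
    _ = _ := mul_one _

/-- the relocation, for a family of weights -/
theorem fb_rel (hn : 2 ≤ n) (hβ : 0 < β) (hk : 1 ≤ k)
    (hQL : 1 ≤ QL) (hδ : 1 / (n : ℝ) ≤ δ₀) (hxJ : jx ≤ J) (hθ : 0 ≤ θ)
    (h2 : QL ^ 2 * (6 / 5) ^ jx ≤ Q) (h4 : 10 * QL ^ 2 ≤ Q) (h5 : θ * Q ≤ 1 / 8)
    (h6 : 4 * (QL + 1) * QL ≤ db δ₀ * n) (ψ : Fin n → Finset (Fin n) → ℝ≥0∞)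
    (hψ : ∀ X, ∑ z, ψ z X ≤ 1) (s : ℕ) {b : ℝ} (hb : 0 ≤ b)
    (hψc : ∀ ω, GoodEnv β δ₀ QL J jX ω → ∀ z ∈ CC δ₀ 0 ω, ψ z (CC δ₀ jx ω) ≤
      ENNReal.ofReal (QL / (db δ₀ * n))) :
    ∑ z : Fin n, ∑ σ : Fin k → Fin n, EE β (fun ω T => ind (AB β δ₀ QL θ J jX jx k σ ω T ∧
      s < hgt T (im σ) (dn T (im σ) z (hook T (im σ) (CC δ₀ 0 ω) z)) ∧
      (((CC δ₀ 0 ω).filter fun q => s < hgt T (im σ) q).card : ℝ) ≤ b) *
        (PsiX k σ (CC δ₀ jx ω) * ψ z (CC δ₀ jx ω))) ≤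
      ENNReal.ofReal (Q * b / (db δ₀ * n)) := by
  have hn0 : (0 : ℝ) < n := by
    have : 0 < n := by omega
    exact_mod_cast this
  have hδ0 : 0 < δ₀ := lt_of_lt_of_le (by positivity) hδ
  have hd : 0 < db δ₀ := db_pos hδ0
  have h0m := measurableSet_mem_CC (n := n) δ₀ 0
  have hXm := measurableSet_mem_CC (n := n) δ₀ jx
  -- the two events
  set E1 : Fin n → (Fin k → Fin n) → Env n → SimpleGraph (Fin n) → Prop := fun z σ ω T =>
    AB β δ₀ QL θ J jX jx k σ ω T ∧ z ∈ CC δ₀ 0 ω ∧ s < hgt T (im σ) z ∧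
      (((CC δ₀ 0 ω).filter fun q => s < hgt T (im σ) q).card : ℝ) ≤ b with hE1
  set E2 : Fin n → (Fin k → Fin n) → Env n → SimpleGraph (Fin n) → Prop := fun z σ ω T =>
    AB β δ₀ QL θ J jX jx k σ ω T ∧ z ∉ CC δ₀ 0 ω ∧
        hook T (im σ) (CC δ₀ 0 ω) z < hgt T (im σ) z ∧
        s < hgt T (im σ) (dn T (im σ) z (hook T (im σ) (CC δ₀ 0 ω) z)) ∧
        (((CC δ₀ 0 ω).filter fun q => s < hgt T (im σ) q).card : ℝ) ≤ b with hE2
  have hE1m : ∀ z σ T, MeasurableSet {ω | E1 z σ ω T} := by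
    intro z σ T
    have e1 : {ω | E1 z σ ω T} = {ω | AB β δ₀ QL θ J jX jx k σ ω T} ∩
        {ω : Env n | z ∈ CC δ₀ 0 ω ∧ s < hgt T (im σ) z ∧
          (((CC δ₀ 0 ω).filter fun q => s < hgt T (im σ) q).card : ℝ) ≤ b} := by
      ext ω
      simp only [hE1, Set.mem_inter_iff, Set.mem_ofPred_eq]
    rw [e1]
    exact (AB_meas β δ₀ QL θ J jX jx k σ T).inter (fb_CC_meas δ₀ 0 fun C =>
      z ∈ C ∧ s < hgt T (im σ) z ∧ ((C.filter fun q => s < hgt T (im σ) q).card : ℝ) ≤ b)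
  have mΨ : ∀ z (σ : Fin k → Fin n), Measurable fun ω : Env n =>
      PsiX k σ (CC δ₀ jx ω) * ψ z (CC δ₀ jx ω) := fun z σ =>
    dnear_meas hXm fun X => PsiX k σ X * ψ z X
  have hsplit : ∀ (z : Fin n) (σ : Fin k → Fin n), EE β (fun ω T =>
      ind (AB β δ₀ QL θ J jX jx k σ ω T ∧
      s < hgt T (im σ) (dn T (im σ) z (hook T (im σ) (CC δ₀ 0 ω) z)) ∧
      (((CC δ₀ 0 ω).filter fun q => s < hgt T (im σ) q).card : ℝ) ≤ b) *
        (PsiX k σ (CC δ₀ jx ω) * ψ z (CC δ₀ jx ω))) ≤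
      EE β (fun ω T => ind (E1 z σ ω T) * (PsiX k σ (CC δ₀ jx ω) * ψ z (CC δ₀ jx ω))) +
      EE β (fun ω T => ind (E2 z σ ω T) * (PsiX k σ (CC δ₀ jx ω) * ψ z (CC δ₀ jx ω))) := by
    intro z σ
    rw [← EE_add (F := fun ω T => ind (E1 z σ ω T) *
      (PsiX k σ (CC δ₀ jx ω) * ψ z (CC δ₀ jx ω))) (fun T =>
        (measurable_ind (hE1m z σ T)).mul (mΨ z σ))]
    refine EE_mono fun ω T hT => ?_
    rw [← add_mul]
    refine mul_le_mul' ?_ le_rfl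
    by_cases hcase : AB β δ₀ QL θ J jX jx k σ ω T ∧
      s < hgt T (im σ) (dn T (im σ) z (hook T (im σ) (CC δ₀ 0 ω) z)) ∧
      (((CC δ₀ 0 ω).filter fun q => s < hgt T (im σ) q).card : ℝ) ≤ b
    · obtain ⟨c1, c2, c3⟩ := hcase
      have hS := fb_im_nonempty hk σ
      by_cases hz : z ∈ CC δ₀ 0 ω
      · have h7 : hook T (im σ) (CC δ₀ 0 ω) z = 0 := by
          by_contra h8
          exact dn_notMem_of_lt_hook (CC δ₀ 0 ω) (Nat.pos_of_ne_zero h8) hz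
        have h9 : E1 z σ ω T := by
          rw [h7] at c2
          exact ⟨c1, hz, c2, c3⟩
        have h10 : ind (E1 z σ ω T) = 1 := by simp [ind, h9]
        rw [h10]
        exact (ind_le_one _).trans le_self_add
      · have h7 : hook T (im σ) (CC δ₀ 0 ω) z < hgt T (im σ) z := by
          refine lt_of_le_of_ne (hook_le_hgt _) fun h8 => ?_
          rw [h8, hgt_dn hT hS le_rfl, Nat.sub_self] at c2
          omega
        have h9 : E2 z σ ω T := ⟨c1, hz, h7, c2, c3⟩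
        have h10 : ind (E2 z σ ω T) = 1 := by simp [ind, h9]
        rw [h10]
        exact (ind_le_one _).trans le_add_self
    · have h7 : ind (AB β δ₀ QL θ J jX jx k σ ω T ∧
        s < hgt T (im σ) (dn T (im σ) z (hook T (im σ) (CC δ₀ 0 ω) z)) ∧
        (((CC δ₀ 0 ω).filter fun q => s < hgt T (im σ) q).card : ℝ) ≤ b) = 0 := by
        simp [ind, hcase]
      rw [h7]
      exact zero_le
  -- the first event
  have hP1 : ∑ z : Fin n, ∑ σ : Fin k → Fin n, EE β (fun ω T =>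
      ind (E1 z σ ω T) * (PsiX k σ (CC δ₀ jx ω) * ψ z (CC δ₀ jx ω))) ≤
      ENNReal.ofReal (QL * b / (db δ₀ * n)) := by
    rw [Finset.sum_comm]
    have key : ∀ σ : Fin k → Fin n, ∑ z : Fin n, EE β (fun ω T =>
        ind (E1 z σ ω T) * (PsiX k σ (CC δ₀ jx ω) * ψ z (CC δ₀ jx ω))) ≤
        ENNReal.ofReal (QL * b / (db δ₀ * n)) * EE β (fun ω _ => PsiX k σ (CC δ₀ jx ω)) := by
      intro σ
      rw [← EE_sum Finset.univ (F := fun z ω T => ind (E1 z σ ω T) *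
        (PsiX k σ (CC δ₀ jx ω) * ψ z (CC δ₀ jx ω))) (fun z _ T =>
          (measurable_ind (hE1m z σ T)).mul (mΨ z σ)),
        ← EE_const_mul _ ENNReal.ofReal_ne_top]
      refine EE_mono fun ω T hT => ?_
      by_cases hg : GoodEnv β δ₀ QL J jX ω ∧
          (((CC δ₀ 0 ω).filter fun q => s < hgt T (im σ) q).card : ℝ) ≤ b
      · obtain ⟨hg1, hg2⟩ := hg
        have h7 : ∀ z : Fin n, ind (E1 z σ ω T) * (PsiX k σ (CC δ₀ jx ω) * ψ z (CC δ₀ jx ω)) ≤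
            if z ∈ (CC δ₀ 0 ω).filter (fun q => s < hgt T (im σ) q) then
              PsiX k σ (CC δ₀ jx ω) * ENNReal.ofReal (QL / (db δ₀ * n)) else 0 := by
          intro z
          by_cases hz : E1 z σ ω T
          · obtain ⟨z1, z2, z3, z4⟩ := hz
            rw [if_pos (Finset.mem_filter.2 ⟨z2, z3⟩)]
            calc ind (E1 z σ ω T) * (PsiX k σ (CC δ₀ jx ω) * ψ z (CC δ₀ jx ω))
                ≤ 1 * (PsiX k σ (CC δ₀ jx ω) * ENNReal.ofReal (QL / (db δ₀ * n))) :=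
                  mul_le_mul' (ind_le_one _) (mul_le_mul' le_rfl (hψc ω hg1 z z2))
              _ = _ := one_mul _
          · have h8 : ind (E1 z σ ω T) = 0 := by simp [ind, hz]
            rw [h8, zero_mul]
            exact zero_le
        refine (Finset.sum_le_sum fun z _ => h7 z).trans ?_
        rw [Finset.sum_ite_mem, Finset.univ_inter, Finset.sum_const, nsmul_eq_mul]
        have h9 : (((CC δ₀ 0 ω).filter fun q => s < hgt T (im σ) q).card : ℝ≥0∞) ≤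
            ENNReal.ofReal b := by
          rw [← ENNReal.ofReal_natCast]
          exact ENNReal.ofReal_le_ofReal hg2
        calc (((CC δ₀ 0 ω).filter fun q => s < hgt T (im σ) q).card : ℝ≥0∞) *
              (PsiX k σ (CC δ₀ jx ω) * ENNReal.ofReal (QL / (db δ₀ * n)))
            ≤ ENNReal.ofReal b * (PsiX k σ (CC δ₀ jx ω) * ENNReal.ofReal (QL / (db δ₀ * n))) :=
              mul_le_mul' h9 le_rfl
          _ = (ENNReal.ofReal b * ENNReal.ofReal (QL / (db δ₀ * n))) *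
              PsiX k σ (CC δ₀ jx ω) := by ring
          _ = ENNReal.ofReal (QL * b / (db δ₀ * n)) * PsiX k σ (CC δ₀ jx ω) := by
              rw [← ENNReal.ofReal_mul hb]
              congr 2
              ring
      · have h7 : ∀ z : Fin n, ind (E1 z σ ω T) = 0 := by
          intro z
          have h8 : ¬ E1 z σ ω T := fun h9 => hg ⟨h9.1.1, h9.2.2.2⟩
          simp [ind, h8]
        simp [h7]
    refine (Finset.sum_le_sum fun σ _ => key σ).trans ?_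
    rw [← Finset.mul_sum]
    calc _ ≤ ENNReal.ofReal (QL * b / (db δ₀ * n)) * 1 := mul_le_mul' le_rfl
          (sum_EE_PsiX (by omega) β hk hXm)
      _ = _ := mul_one _
  -- the second event
  have hP2 : ∑ z : Fin n, ∑ σ : Fin k → Fin n, EE β (fun ω T =>
      ind (E2 z σ ω T) * (PsiX k σ (CC δ₀ jx ω) * ψ z (CC δ₀ jx ω))) ≤
      ENNReal.ofReal (8 * QL ^ 2 * b / (db δ₀ * n)) := by
    have key : ∀ (z : Fin n) (σ : Fin k → Fin n), EE β (fun ω T =>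
        ind (E2 z σ ω T) * (PsiX k σ (CC δ₀ jx ω) * ψ z (CC δ₀ jx ω))) ≤
        ENNReal.ofReal (8 * QL ^ 2 * b / (db δ₀ * n)) *
          EE β (fun ω _ => PsiX k σ (CC δ₀ jx ω) * ψ z (CC δ₀ jx ω)) := fun z σ =>
      rel_exp hn hβ hQL hδ hxJ (fb_im_nonempty hk σ) z (AB β δ₀ QL θ J jX jx k σ)
        (AB_meas β δ₀ QL θ J jX jx k σ) (fun ω T h => ⟨h.1, h.2.2.2.1,
          fb_lite hδ0 hQL hθ hxJ h2 h5 h6 h.1⟩) s hb (fun X => PsiX k σ X * ψ z X)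
    refine (Finset.sum_le_sum fun z _ => Finset.sum_le_sum fun σ _ => key z σ).trans ?_
    simp_rw [← Finset.mul_sum]
    calc _ ≤ ENNReal.ofReal (8 * QL ^ 2 * b / (db δ₀ * n)) * 1 := mul_le_mul' le_rfl
          (fb_sum (by omega) β hk hXm ψ hψ)
      _ = _ := mul_one _
  refine (Finset.sum_le_sum fun z _ => Finset.sum_le_sum fun σ _ => hsplit z σ).trans ?_
  simp_rw [Finset.sum_add_distrib]
  refine (add_le_add hP1 hP2).trans ?_
  rw [← ENNReal.ofReal_add (by positivity) (by positivity)]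
  refine ENNReal.ofReal_le_ofReal ?_
  rw [← add_div]
  refine div_le_div_of_nonneg_right ?_ (by positivity)
  nlinarith [mul_nonneg (sub_nonneg.2 hQL) hb, mul_nonneg (mul_nonneg (sub_nonneg.2 hQL) hb)
    (by linarith : (0 : ℝ) ≤ QL), mul_le_mul_of_nonneg_right h4 hb]

/-- **Eng in the intermediate regime**. `|CC jx| ≤ QL db(δ_jx) n ≤ QL (6/5)^jx db(δ₀) n ≤ Q |CC 0|`.
`low`, `upp` from `GoodEnv`. `dok`: `dok_of_good` and monotonicity of `DOK` in `M, Q, Wm, Δ`.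
`near`: `near_card` (with `jx`), `(im σ).card ≤ k`, `(QL x + 1) QL ≤ 2 QL² x` for `x ≥ 1`.
`hookV`, `hookX`: `hook_exp` for each `σ` and `v` with `ψ = PsiX k σ / n`, resp.
`ψ X = PsiX k σ X * ind (z ∈ X)/|X|`; then `∑_σ ∑_v EE ψ ≤ 1`.
`relV`, `relX`: if `v ∈ CC 0`, `hook = 0` and the event is `{v ∈ CC 0, s < hgt v, #… ≤ b}`, whose
average over `v` is at most `b/n` (`b/|CX| ≤ b QL/(d n)` for `z` uniform in `CX`); if `v ∉ CC 0`
and `hook = hgt`, `dn v hgt` has height `0`; otherwise `rel_exp`. -/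
theorem engB (hn : 2 ≤ n) {β δ₀ QL Q θ : ℝ} {J jX jx k ℓw : ℕ} (hβ : 0 < β) (hk : 1 ≤ k)
    (hQL : 1 ≤ QL) (hδ : 1 / (n : ℝ) ≤ δ₀) (hx : jx ≤ jX) (hX : jX ≤ J) (hℓ : QL / db δ₀ < ℓw)
    (hθ : 0 ≤ θ)
    (h1 : 1 + 2 * QL * Real.exp (2 * β * δ₀ / n) ≤ Q) (h2 : QL ^ 2 * (6 / 5) ^ jx ≤ Q)
    (h3 : 100 * J * QL ^ 4 ≤ Q) (h4 : 10 * QL ^ 2 ≤ Q) (h5 : θ * Q ≤ 1 / 8)
    (h6 : 4 * (QL + 1) * QL ≤ db δ₀ * n) :
    Eng (n := n) β (db δ₀) Q θ (pmin n δ₀) (pl n δ₀ jx) k ℓw (CC δ₀ 0) (CC δ₀ jx)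
      (AB β δ₀ QL θ J jX jx k) := by
  have hn0 : (0 : ℝ) < n := by
    have : 0 < n := by omega
    exact_mod_cast this
  have hδ0 : 0 < δ₀ := lt_of_lt_of_le (by positivity) hδ
  have hd : 0 < db δ₀ := db_pos hδ0
  have hd1 : db δ₀ ≤ 1 := min_le_right _ _
  have hxJ : jx ≤ J := hx.trans hX
  have hQL2 : QL ≤ QL ^ 2 := by nlinarith
  have hQLQ : QL ≤ Q := by nlinarith
  have hQL0 : 0 < QL := by linarith
  have hQ0 : 0 < Q := by linarith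
  -- the two families of weights
  have hψV : ∀ X : Finset (Fin n), ∑ _z : Fin n, (1 : ℝ≥0∞) / (n : ℝ≥0∞) ≤ 1 := by
    intro X
    rw [Finset.sum_const, Finset.card_univ, Fintype.card_fin, nsmul_eq_mul, one_div]
    exact ENNReal.mul_inv_le_one _
  have hψX : ∀ X : Finset (Fin n), ∑ z : Fin n, ind (z ∈ X) / (X.card : ℝ≥0∞) ≤ 1 := by
    intro X
    have e1 : ∀ z : Fin n, ind (z ∈ X) / (X.card : ℝ≥0∞) =
        if z ∈ X then (X.card : ℝ≥0∞)⁻¹ else 0 := by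
      intro z
      unfold ind
      by_cases hz : z ∈ X
      · rw [if_pos hz, if_pos hz, one_div]
      · rw [if_neg hz, if_neg hz, ENNReal.zero_div]
    rw [Finset.sum_congr rfl fun z _ => e1 z, Finset.sum_ite_mem, Finset.univ_inter,
      Finset.sum_const, nsmul_eq_mul]
    exact ENNReal.mul_inv_le_one _
  have hψVc : ∀ ω : Env n, GoodEnv β δ₀ QL J jX ω → ∀ z ∈ CC δ₀ 0 ω,
      (1 : ℝ≥0∞) / (n : ℝ≥0∞) ≤ ENNReal.ofReal (QL / (db δ₀ * n)) := by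
    intro ω _ z _
    have e1 : (1 : ℝ≥0∞) / (n : ℝ≥0∞) = ENNReal.ofReal (1 / n) := by
      rw [ENNReal.ofReal_div_of_pos hn0, ENNReal.ofReal_one, ENNReal.ofReal_natCast]
    rw [e1]
    refine ENNReal.ofReal_le_ofReal ?_
    rw [div_le_div_iff₀ hn0 (by positivity)]
    nlinarith
  have hψXc : ∀ ω : Env n, GoodEnv β δ₀ QL J jX ω → ∀ z ∈ CC δ₀ 0 ω,
      ind (z ∈ CC δ₀ jx ω) / ((CC δ₀ jx ω).card : ℝ≥0∞) ≤
        ENNReal.ofReal (QL / (db δ₀ * n)) := by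
    intro ω hω z hz
    have hsub := Finset.card_le_card (CC_mono hω (Nat.zero_le jx) hxJ)
    have hlow := hω.low
    have h7 : db δ₀ * n / QL ≤ ((CC δ₀ jx ω).card : ℝ) :=
      hlow.trans (by exact_mod_cast hsub)
    have h8 : (0 : ℝ) < (CC δ₀ jx ω).card := lt_of_lt_of_le (by positivity) h7
    have e1 : (1 : ℝ≥0∞) / ((CC δ₀ jx ω).card : ℝ≥0∞) =
        ENNReal.ofReal (1 / ((CC δ₀ jx ω).card : ℝ)) := by
      rw [ENNReal.ofReal_div_of_pos h8, ENNReal.ofReal_one, ENNReal.ofReal_natCast]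
    refine (ENNReal.div_le_div_right (ind_le_one _) _).trans ?_
    rw [e1]
    refine ENNReal.ofReal_le_ofReal ?_
    rw [div_le_div_iff₀ h8 (by positivity)]
    rw [div_le_iff₀ hQL0] at h7
    linarith
  refine ⟨measurableSet_mem_CC δ₀ 0, measurableSet_mem_CC δ₀ jx, AB_meas β δ₀ QL θ J jX jx k,
    ?_, ?_, ?_, ?_, ?_, ?_, ?_, ?_⟩
  · -- low
    intro σ ω T _ hA
    refine le_trans ?_ hA.1.low
    gcongr
  · -- upp
    intro σ ω T _ hA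
    have h7 := hA.1.upp 0 (Nat.zero_le _)
    rw [fb_dl_zero] at h7
    refine h7.trans ?_
    gcongr
  · -- dok
    intro σ ω T D0 hT hA hD
    obtain ⟨a1, a2, a3, a4, a5, a6, a7⟩ := hA
    have h7 := dok_of_good hn hβ hQL hδ a1 a2 hx hX hℓ hT a4 a5 a6
      (fb_card hδ0 hQL hxJ h2 a1) hD
    have hD0 : 0 ≤ D0 := (Nat.cast_nonneg _).trans hD
    refine h7.mono hT h1 le_rfl ?_ hQLQ
    gcongr
  · -- near
    intro σ ω T D0 hT hA hD
    obtain ⟨a1, a2, a3, a4, a5, a6, a7⟩ := hA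
    have h7 := near_card hn hQL hδ0 a1 (fb_im_nonempty hk σ) hT a3 a7 hD
    have hD0 : 0 ≤ D0 := (Nat.cast_nonneg _).trans hD
    have hx1 : 1 ≤ db δ₀ * D0 + 1 := by
      have : 0 ≤ db δ₀ * D0 := by positivity
      linarith
    refine h7.trans ?_
    set x := db δ₀ * D0 + 1 with hxdef
    have hcard : ((im σ).card : ℝ) ≤ k := by exact_mod_cast fb_im_card σ
    have h8 : (QL * x + 1) * QL ≤ Q * x := by
      nlinarith [mul_le_mul_of_nonneg_right h4 (by linarith : 0 ≤ x)]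
    calc ((im σ).card : ℝ) * (QL * x + 1) * (QL / db δ₀ ^ 2)
        ≤ k * (QL * x + 1) * (QL / db δ₀ ^ 2) := by gcongr
      _ = k * ((QL * x + 1) * QL) / db δ₀ ^ 2 := by ring
      _ ≤ k * (Q * x) / db δ₀ ^ 2 := by gcongr
      _ = Q * k * x / db δ₀ ^ 2 := by ring
  · -- hookV
    have h7 := fb_hook (jX := jX) hn hβ hk hQL hδ hxJ hθ h2 h3 h5 h6
      (fun _ _ => 1 / (n : ℝ≥0∞)) hψV
    simp only [mul_one_div] at h7
    exact h7
  · -- hookX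
    have h7 := fb_hook (jX := jX) hn hβ hk hQL hδ hxJ hθ h2 h3 h5 h6
      (fun z X => ind (z ∈ X) / (X.card : ℝ≥0∞)) hψX
    refine le_trans (le_of_eq ?_) h7
    unfold E3X
    refine Finset.sum_congr rfl fun z _ => Finset.sum_congr rfl fun σ _ => ?_
    congr 1
    funext ω T
    rw [mul_div_assoc]
  · -- relV
    intro s b hb
    have h7 := fb_rel (jX := jX) hn hβ hk hQL hδ hxJ hθ h2 h4 h5 h6
      (fun _ _ => 1 / (n : ℝ≥0∞)) hψV s hb hψVc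
    simp only [mul_one_div] at h7
    exact h7
  · -- relX
    intro s b hb
    have h7 := fb_rel (jX := jX) hn hβ hk hQL hδ hxJ hθ h2 h4 h5 h6
      (fun z X => ind (z ∈ X) / (X.card : ℝ≥0∞)) hψX s hb hψXc
    refine le_trans (le_of_eq ?_) h7
    unfold E3X
    refine Finset.sum_congr rfl fun z _ => Finset.sum_congr rfl fun σ _ => ?_
    congr 1
    funext ω T
    rw [mul_div_assoc]

end

end RST
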