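import Pool.Agent.Work.MP_5ba30e_pr.Engine
import Pool.Agent.Work.MP_5ba30e_pr.BridgeR
import Pool.Agent.Work.MP_5ba30e_pr.BridgeD
import Pool.Agent.Work.MP_5ba30e_pr.Net
import Pool.Agent.Work.MP_5ba30e_pr.ERgood

/-!
# M4 (helper52): proof of `ball_of_E3` (paste into FinalB.lean)
-/

open MeasureTheory Set Filter Finset
open scoped ENNReal Topology Classical

noncomputable section

namespace RST

variable {n : ℕ}

theorem ind_measurable' {P : Env n → Prop} (h : MeasurableSet {ω | P ω}) :
    Measurable fun ω => ind (P ω) := by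
  unfold ind
  exact Measurable.ite h measurable_const measurable_const

/-- from the height to the volume of the balls: pointwise, if `CX ω ≠ ∅` (`∑_σ PsiX = 1`),
`#{v : ball < τ}/n = ∑_σ PsiX k σ (CX ω) * (…) ≤ ∑_σ PsiX (ind (¬A) + ind A * (#{v : l diam/4 < hgt}/n
+ k (8/l+3) τ/n))` by `net_card`, `(im σ).card ≤ k` -/
theorem ball_of_E3 (hn : 1 ≤ n) {β l τ : ℝ} {k : ℕ} (hk : 1 ≤ k) (hl : 0 < l) (hl1 : l ≤ 1)
    (hτ : 1 ≤ τ) {CX : Env n → Finset (Fin n)} (hXm : ∀ v, MeasurableSet {ω | v ∈ CX ω})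
    {A : (Fin k → Fin n) → Env n → SimpleGraph (Fin n) → Prop}
    (hA : ∀ σ T, MeasurableSet {ω | A σ ω T}) :
    EE β (fun _ T => ((Finset.univ.filter fun v : Fin n =>
        (ballT T v (l * T.diam) : ℝ) < τ).card : ℝ≥0∞) / n) ≤
      E3 β k CX (fun σ ω T => ind (¬ A σ ω T)) +
      E3V β k CX (fun σ v ω T => ind (A σ ω T ∧ l * T.diam / 4 < hgt T (im σ) v)) +
      ENNReal.ofReal (k * (8 / l + 3) * τ / n) +
      EE β (fun ω _ => ind (CX ω = ∅)) := by
  have hn' : (0 : ℝ) < n := by exact_mod_cast hn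
  have hnE : (n : ℝ≥0∞) ≠ 0 := by exact_mod_cast (by omega : n ≠ 0)
  have hnT : (n : ℝ≥0∞) ≠ ⊤ := ENNReal.natCast_ne_top n
  set K : ℝ≥0∞ := ENNReal.ofReal (k * (8 / l + 3) * τ / n) with hK
  -- measurability
  have hPm : ∀ σ : Fin k → Fin n, Measurable fun ω => PsiX k σ (CX ω) := fun σ =>
    measurable_fin_comp hXm (fun s => PsiX k σ s)
  have hEm : Measurable fun ω => ind (CX ω = ∅) :=
    measurable_fin_comp hXm (fun s => ind (s = ∅))
  have h1m : ∀ (σ : Fin k → Fin n) (T : SimpleGraph (Fin n)),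
      Measurable fun ω => ind (¬ A σ ω T) * PsiX k σ (CX ω) := fun σ T =>
    (ind_measurable' (hA σ T).compl).mul (hPm σ)
  have h2m : ∀ (v : Fin n) (σ : Fin k → Fin n) (T : SimpleGraph (Fin n)),
      Measurable fun ω => ind (A σ ω T ∧ l * T.diam / 4 < hgt T (im σ) v) *
        (PsiX k σ (CX ω) / n) := by
    intro v σ T
    refine Measurable.mul (ind_measurable' ?_) ((hPm σ).div_const _)
    by_cases h : l * T.diam / 4 < hgt T (im σ) v
    · simpa [h] using hA σ T
    · simp [h]
  -- the pointwise inequality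
  have hpt : ∀ (ω : Env n) (T : SimpleGraph (Fin n)), T.IsTree →
      (((Finset.univ.filter fun v : Fin n =>
        (ballT T v (l * T.diam) : ℝ) < τ).card : ℝ≥0∞) / n) ≤
      (((∑ σ : Fin k → Fin n, ind (¬ A σ ω T) * PsiX k σ (CX ω)) +
        (∑ v : Fin n, ∑ σ : Fin k → Fin n, ind (A σ ω T ∧ l * T.diam / 4 < hgt T (im σ) v) *
          (PsiX k σ (CX ω) / n))) + K) + ind (CX ω = ∅) := by
    intro ω T hT
    set N : ℕ := (Finset.univ.filter fun v : Fin n =>
      (ballT T v (l * T.diam) : ℝ) < τ).card with hN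
    have hle1 : (N : ℝ≥0∞) / n ≤ 1 := by
      rw [ENNReal.div_le_iff hnE hnT, one_mul]
      have h3 : N ≤ n := by
        rw [hN]
        exact (Finset.card_le_univ _).trans (by simp)
      exact_mod_cast h3
    rcases (CX ω).eq_empty_or_nonempty with hE | hNE
    · have h4 : ind (CX ω = ∅) = 1 := by unfold ind; rw [if_pos hE]
      rw [h4]
      exact hle1.trans le_add_self
    · refine le_trans ?_ (le_add_of_nonneg_right zero_le)
      have h5 : (N : ℝ≥0∞) / n = ∑ σ : Fin k → Fin n, (N : ℝ≥0∞) / n * PsiX k σ (CX ω) := by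
        rw [← Finset.mul_sum, sum_PsiX k hNE, mul_one]
      have h6 : K = ∑ σ : Fin k → Fin n, K * PsiX k σ (CX ω) := by
        rw [← Finset.mul_sum, sum_PsiX k hNE, mul_one]
      rw [h5, h6, Finset.sum_comm, ← Finset.sum_add_distrib, ← Finset.sum_add_distrib]
      refine Finset.sum_le_sum fun σ _ => ?_
      by_cases hAσ : A σ ω T
      · -- `net_card`
        have hS : (im σ).Nonempty := ⟨σ ⟨0, hk⟩, Finset.mem_image_of_mem σ (Finset.mem_univ _)⟩
        have h7 := net_card hT hS hl hl1 hτ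
        have h8 : ((im σ).card : ℝ) ≤ k := by
          have : (im σ).card ≤ k := by
            unfold im
            exact Finset.card_image_le.trans (by simp)
          exact_mod_cast this
        have h9 : (N : ℝ) ≤ ((Finset.univ.filter fun v => l * T.diam / 4 <
            hgt T (im σ) v).card : ℝ) + k * (8 / l + 3) * τ := by
          refine h7.trans (add_le_add le_rfl ?_)
          have : 0 ≤ (8 / l + 3) * τ := by positivity
          nlinarith
        have h10 : (N : ℝ≥0∞) / n ≤ ((Finset.univ.filter fun v => l * T.diam / 4 <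
            hgt T (im σ) v).card : ℝ≥0∞) / n + K := by
          have h11 : (N : ℝ) / n ≤ ((Finset.univ.filter fun v => l * T.diam / 4 <
            hgt T (im σ) v).card : ℝ) / n + k * (8 / l + 3) * τ / n := by
            rw [← add_div]
            exact div_le_div_of_nonneg_right h9 hn'.le
          have h12 := ENNReal.ofReal_le_ofReal h11
          rw [ENNReal.ofReal_add (div_nonneg (Nat.cast_nonneg _) hn'.le)
            (by positivity), ENNReal.ofReal_div_of_pos hn' (x := (N : ℝ)),
            ENNReal.ofReal_div_of_pos hn' (x := ((Finset.univ.filter fun v =>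
              l * T.diam / 4 < hgt T (im σ) v).card : ℝ)),
            ENNReal.ofReal_natCast, ENNReal.ofReal_natCast, ENNReal.ofReal_natCast] at h12
          exact h12
        have h13 : (∑ v : Fin n, ind (A σ ω T ∧ l * T.diam / 4 < hgt T (im σ) v) *
            (PsiX k σ (CX ω) / n)) = ((Finset.univ.filter fun v => l * T.diam / 4 <
            hgt T (im σ) v).card : ℝ≥0∞) / n * PsiX k σ (CX ω) := by
          rw [← Finset.sum_mul]
          have h14 : ∑ v : Fin n, ind (A σ ω T ∧ l * T.diam / 4 < hgt T (im σ) v) =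
              ((Finset.univ.filter fun v => l * T.diam / 4 <
            hgt T (im σ) v).card : ℝ≥0∞) := by
            rw [Finset.card_filter]
            push_cast
            refine Finset.sum_congr rfl fun v _ => ?_
            unfold ind
            simp only [hAσ, true_and]
          rw [h14, ← mul_div_assoc, ENNReal.mul_div_right_comm]
        rw [h13]
        calc (N : ℝ≥0∞) / n * PsiX k σ (CX ω) ≤ (((Finset.univ.filter fun v => l * T.diam / 4 <
            hgt T (im σ) v).card : ℝ≥0∞) / n + K) * PsiX k σ (CX ω) := mul_le_mul' h10 le_rfl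
          _ = ((Finset.univ.filter fun v => l * T.diam / 4 <
            hgt T (im σ) v).card : ℝ≥0∞) / n * PsiX k σ (CX ω) + K * PsiX k σ (CX ω) := by
              rw [add_mul]
          _ ≤ _ := add_le_add le_add_self le_rfl
      · have h15 : ind (¬ A σ ω T) = 1 := by unfold ind; rw [if_pos hAσ]
        rw [h15, one_mul]
        calc (N : ℝ≥0∞) / n * PsiX k σ (CX ω) ≤ 1 * PsiX k σ (CX ω) := mul_le_mul' hle1 le_rfl
          _ = PsiX k σ (CX ω) := one_mul _
          _ ≤ _ := le_self_add.trans le_self_add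
  -- conclusion
  refine (EE_mono hpt).trans ?_
  have hF12 : ∀ T : SimpleGraph (Fin n), Measurable fun ω =>
      (∑ σ : Fin k → Fin n, ind (¬ A σ ω T) * PsiX k σ (CX ω)) +
        (∑ v : Fin n, ∑ σ : Fin k → Fin n, ind (A σ ω T ∧ l * T.diam / 4 < hgt T (im σ) v) *
          (PsiX k σ (CX ω) / n)) := fun T =>
    (Finset.measurable_fun_sum _ fun σ _ => h1m σ T).add
      (Finset.measurable_fun_sum _ fun v _ => Finset.measurable_fun_sum _ fun σ _ => h2m v σ T)
  rw [EE_add (F := fun ω T => ((∑ σ : Fin k → Fin n, ind (¬ A σ ω T) * PsiX k σ (CX ω)) +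
        (∑ v : Fin n, ∑ σ : Fin k → Fin n, ind (A σ ω T ∧ l * T.diam / 4 < hgt T (im σ) v) *
          (PsiX k σ (CX ω) / n))) + K) (fun T => (hF12 T).add measurable_const),
    EE_add (F := fun ω T => (∑ σ : Fin k → Fin n, ind (¬ A σ ω T) * PsiX k σ (CX ω)) +
        (∑ v : Fin n, ∑ σ : Fin k → Fin n, ind (A σ ω T ∧ l * T.diam / 4 < hgt T (im σ) v) *
          (PsiX k σ (CX ω) / n))) hF12,
    EE_add (F := fun ω T => ∑ σ : Fin k → Fin n, ind (¬ A σ ω T) * PsiX k σ (CX ω))
      (fun T => Finset.measurable_fun_sum _ fun σ _ => h1m σ T)]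
  refine add_le_add (add_le_add (add_le_add ?_ ?_) ?_) le_rfl
  · unfold E3
    rw [EE_sum Finset.univ (F := fun (σ : Fin k → Fin n) ω T =>
      ind (¬ A σ ω T) * PsiX k σ (CX ω)) (fun σ _ T => h1m σ T)]
  · unfold E3V
    rw [EE_sum Finset.univ (F := fun (v : Fin n) ω T => ∑ σ : Fin k → Fin n,
      ind (A σ ω T ∧ l * T.diam / 4 < hgt T (im σ) v) * (PsiX k σ (CX ω) / n))
      (fun v _ T => Finset.measurable_fun_sum _ fun σ _ => h2m v σ T)]
    refine Finset.sum_le_sum fun v _ => ?_
    rw [EE_sum Finset.univ (F := fun (σ : Fin k → Fin n) ω T =>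
      ind (A σ ω T ∧ l * T.diam / 4 < hgt T (im σ) v) * (PsiX k σ (CX ω) / n))
      (fun σ _ T => h2m v σ T)]
  · have : IsProbabilityMeasure ((volume : Measure ℝ).restrict (Set.Icc (0 : ℝ) 1)) :=
      ⟨by simp⟩
    have hprob : IsProbabilityMeasure (mu n) := by unfold mu; infer_instance
    rw [EE_env hn measurable_const]
    simp

end RST
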