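import Pool.Agent.Work.MP_5ba30e_pr.Paths

/-!
# Surv : tail of the size of a component at the level `(1+δ)/n`, `1/n ≤ δ ≤ 1`

(i) Let `SP G r W v` say that there is a path with `r` edges of `G` which starts at `v` and stays
in `W ∋ v`. Claim: `P(SP (Gr ω p) r W v) ≤ 1/s_r` with `s_0 = 1`, `s_{r+1} = s_r/a + 1/4`, if
`exp(-a/n) ≤ 1-p`. Induction: a path of length `r+1` from `v` in `W` gives `w` with `{v,w}` an
edge and a path of length `r` from `w` in `W \ {v}`. Let `N` be the number of `w` with such a path,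
it depends on the edges inside `W \ {v}`; given them the probability is
`1 - (1-p)^N ≤ 1 - exp(-aN/n) ≤ 1 - exp(-y₀) (1 + y₀ - aN/n)`, `y₀ = a/s_r`, and `E N ≤ n/s_r`, so
the probability is at most `1 - exp(-y₀) ≤ y₀ - y₀²/4 ≤ 1/(1/y₀ + 1/4)`.
(ii) `s_r ≥ (r/4) a^{-r}`.
(iii) `P(|comp v| ≥ m) ≤ P(∃ path of length r from v) + E|B_{r-1}(v)|/m`
with `r = ⌈min(√m, 1/(10δ))⌉` and `E|B_{r-1}| ≤ ∑_{i<r} (1+δ)^i` (`exp_ball`).
-/

open MeasureTheory Set Filter Finset
open scoped ENNReal Topology Classical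

noncomputable section

namespace RST

variable {n : ℕ}

/-- there is a path with `r` edges starting at `v` and staying in `W ∋ v` -/
def SP (G : SimpleGraph (Fin n)) : ℕ → Finset (Fin n) → Fin n → Prop
  | 0, _, _ => True
  | r + 1, W, v => ∃ w ∈ W.erase v, G.Adj v w ∧ SP G r (W.erase v) w

theorem SP_of_walk {G : SimpleGraph (Fin n)} {v u : Fin n} (w : G.Walk v u) (hw : w.IsPath) :
    ∀ (r : ℕ) (W : Finset (Fin n)), (∀ x ∈ w.support, x ∈ W) → r ≤ w.length → SP G r W v := by
  induction w with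
  | nil =>
    intro r W _ hr
    have : r = 0 := by simpa using hr
    subst this
    trivial
  | @cons v' x' u' h w' ih =>
    intro r W hW hr
    cases r with
    | zero => trivial
    | succ r =>
      rw [SimpleGraph.Walk.cons_isPath_iff] at hw
      rw [SimpleGraph.Walk.length_cons] at hr
      have hsub : ∀ x ∈ w'.support, x ∈ W.erase v' := fun x hx =>
        Finset.mem_erase.2 ⟨fun h' => hw.2 (by rwa [← h']), hW x (by
          rw [SimpleGraph.Walk.support_cons]; exact List.mem_cons_of_mem _ hx)⟩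
      exact ⟨_, hsub _ w'.start_mem_support, h, ih hw.1 r _ hsub (by omega)⟩

theorem SP_congr {G G' : SimpleGraph (Fin n)} : ∀ (r : ℕ) (W : Finset (Fin n)) (v : Fin n),
    v ∈ W → (∀ x ∈ W, ∀ y ∈ W, G.Adj x y ↔ G'.Adj x y) → (SP G r W v ↔ SP G' r W v) := by
  intro r
  induction r with
  | zero => intro W v _ _; exact Iff.rfl
  | succ r ih =>
    intro W v hv h
    have h2 : ∀ w ∈ W.erase v, (SP G r (W.erase v) w ↔ SP G' r (W.erase v) w) := fun w hw =>
      ih _ w hw fun x hx y hy => h x (Finset.mem_of_mem_erase hx) y (Finset.mem_of_mem_erase hy)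
    constructor
    · rintro ⟨w, hw, h3, h4⟩
      exact ⟨w, hw, (h v hv w (Finset.mem_of_mem_erase hw)).1 h3, (h2 w hw).1 h4⟩
    · rintro ⟨w, hw, h3, h4⟩
      exact ⟨w, hw, (h v hv w (Finset.mem_of_mem_erase hw)).2 h3, (h2 w hw).2 h4⟩

/-- the sequence `s_r` -/
def ss (a : ℝ) : ℕ → ℝ
  | 0 => 1
  | r + 1 => ss a r / a + 1 / 4

theorem one_le_ss {a : ℝ} (ha : 1 ≤ a) (ha2 : a ≤ 4 / 3) (r : ℕ) : 1 ≤ ss a r := by
  induction r with
  | zero => exact le_rfl
  | succ r ih =>
    have h1 : 3 / 4 ≤ ss a r / a := by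
      rw [le_div_iff₀ (by linarith)]
      linarith
    show 1 ≤ ss a r / a + 1 / 4
    linarith

theorem ss_ge {a : ℝ} (ha : 1 ≤ a) (r : ℕ) : (r : ℝ) / (4 * a ^ r) ≤ ss a r := by
  induction r with
  | zero => simp [ss]
  | succ r ih =>
    have ha0 : 0 < a := by linarith
    have h1 : (1 : ℝ) ≤ a ^ (r + 1) := one_le_pow₀ ha
    have h2 : (r : ℝ) / (4 * a ^ (r + 1)) ≤ ss a r / a := by
      rw [pow_succ, ← mul_assoc, ← div_div]
      exact div_le_div_of_nonneg_right ih ha0.le
    have h3 : 1 / (4 * a ^ (r + 1)) ≤ 1 / 4 :=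
      one_div_le_one_div_of_le (by norm_num) (by linarith)
    show ((r + 1 : ℕ) : ℝ) / (4 * a ^ (r + 1)) ≤ ss a r / a + 1 / 4
    push_cast
    rw [add_div]
    linarith

theorem surv_exp_ineq {y : ℝ} (hy : 0 < y) (hy2 : y ≤ 2) : 1 - Real.exp (-y) ≤ 1 / (1 / y + 1 / 4) := by
  have h1 : 1 - y / 2 ≤ Real.exp (-(y / 2)) := by
    have := Real.add_one_le_exp (-(y / 2)); linarith
  have h2 : (1 - y / 2) ^ 2 ≤ Real.exp (-y) := by
    have h3 : Real.exp (-y) = Real.exp (-(y / 2)) ^ 2 := by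
      rw [← Real.exp_nat_mul]; congr 1; push_cast; ring
    rw [h3]
    exact pow_le_pow_left₀ (by linarith) h1 2
  have h4 : 1 / y + 1 / 4 = (4 + y) / (4 * y) := by field_simp
  rw [h4, one_div_div, le_div_iff₀ (by linarith)]
  nlinarith [sq_nonneg y, mul_pos hy hy]

theorem surv_pow_ineq {p a y : ℝ} (hexp : Real.exp (-(a / n)) ≤ 1 - p) (k : ℕ) :
    1 - (1 - p) ^ k ≤ 1 - Real.exp (-y) * (1 + y) + Real.exp (-y) * (a / n) * k := by
  have h1 : Real.exp (-(a / n)) ^ k ≤ (1 - p) ^ k :=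
    pow_le_pow_left₀ (Real.exp_pos _).le hexp k
  have h2 : Real.exp (-(a / n)) ^ k = Real.exp (-y) * Real.exp (y - a / n * k) := by
    rw [← Real.exp_nat_mul, ← Real.exp_add]; congr 1; ring
  have h3 : y - a / n * k + 1 ≤ Real.exp (y - a / n * k) := Real.add_one_le_exp _
  have h4 := mul_le_mul_of_nonneg_left h3 (Real.exp_pos (-y)).le
  nlinarith [h1, h2, h4]

theorem SP_meas (p : ℝ) (r : ℕ) (W : Finset (Fin n)) (v : Fin n) :
    MeasurableSet {ω : Env n | SP (Gr ω p) r W v} :=
  ((LevDep.gr p).comp fun G => SP G r W v).measurableSet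

/-- bound for the probability of a path of length `r` -/
theorem SP_prob (hn : 0 < n) {p a : ℝ} (hp : 0 ≤ p) (hp1 : p ≤ 1) (ha : 1 ≤ a)
    (ha2 : a ≤ 4 / 3) (hexp : Real.exp (-(a / n)) ≤ 1 - p) : ∀ (r : ℕ) (W : Finset (Fin n))
    (v : Fin n), mu n {ω | SP (Gr ω p) r W v} ≤ ENNReal.ofReal (1 / ss a r) := by
  intro r
  induction r with
  | zero =>
    intro W v
    have : ENNReal.ofReal (1 / ss a 0) = 1 := by simp [ss]
    rw [this]
    exact prob_le_one
  | succ r ih =>
    intro W v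
    have hs := one_le_ss ha ha2 r
    set s := ss a r with hsdef
    set y := a / s with hy
    have hy0 : 0 < y := by positivity
    have hy2 : y ≤ 2 := by
      rw [hy, div_le_iff₀ (by linarith)]
      nlinarith
    set W' := W.erase v with hW'
    set c0 : ℝ := 1 - Real.exp (-y) * (1 + y) with hc0
    set c1 : ℝ := Real.exp (-y) * (a / n) with hc1
    have hnR : (0 : ℝ) < n := by exact_mod_cast hn
    have hc1' : 0 ≤ c1 := by positivity
    have hc0' : 0 ≤ c0 := by
      have h1 : 1 + y ≤ Real.exp y := by have := Real.add_one_le_exp y; linarith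
      have h2 : Real.exp (-y) * Real.exp y = 1 := by rw [← Real.exp_add]; simp
      have h3 := mul_le_mul_of_nonneg_left h1 (Real.exp_pos (-y)).le
      rw [hc0]; linarith
    let S : Env n → Finset (Fin n) := fun ω => W'.filter fun w => SP (Gr ω p) r W' w
    have hSmeas : ∀ A, MeasurableSet {ω | S ω = A} := fun A =>
      ((LevDep.gr p).comp fun G => (W'.filter fun w => SP G r W' w) = A).measurableSet
    -- covering
    have hcov : {ω | SP (Gr ω p) (r + 1) W v} ⊆
        ⋃ A ∈ W'.powerset, ({ω | S ω = A} ∩ {ω | ∃ w ∈ A, ω s(v, w) ≤ p}) := by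
      intro ω hω
      obtain ⟨w, hw, hadj, hsp⟩ := hω
      simp only [Set.mem_iUnion]
      refine ⟨S ω, Finset.mem_powerset.2 (Finset.filter_subset _ _), rfl, w, ?_, hadj.2⟩
      exact Finset.mem_filter.2 ⟨hw, hsp⟩
    -- one term
    have hterm : ∀ A ∈ W'.powerset, mu n ({ω | S ω = A} ∩ {ω | ∃ w ∈ A, ω s(v, w) ≤ p}) ≤
        mu n {ω | S ω = A} * ENNReal.ofReal (c0 + c1 * A.card) := by
      intro A hA
      have hAW := Finset.mem_powerset.1 hA
      have hmH : MeasurableSet {ω : Env n | ∃ w ∈ A, ω s(v, w) ≤ p} := by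
        have : {ω : Env n | ∃ w ∈ A, ω s(v, w) ≤ p} =
            ⋃ w ∈ A, {ω : Env n | ω s(v, w) ≤ p} := by
          ext ω; simp
        rw [this]
        exact Finset.measurableSet_biUnion _ fun w _ =>
          measurableSet_le (measurable_pi_apply _) measurable_const
      have hdis : Disjoint ((W' ×ˢ W').image fun x : Fin n × Fin n => s(x.1, x.2))
          (A.image fun w => s(v, w)) := by
        rw [Finset.disjoint_left]
        intro e he he'
        obtain ⟨⟨x, z⟩, hx, rfl⟩ := Finset.mem_image.1 he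
        obtain ⟨w, hw, hw2⟩ := Finset.mem_image.1 he'
        rw [Finset.mem_product] at hx
        have hv : v ∈ (s(x, z) : Sym2 (Fin n)) := by
          rw [← hw2]; exact Sym2.mem_mk_left v w
        rw [Sym2.mem_iff] at hv
        rcases hv with rfl | rfl
        · exact absurd hx.1 (Finset.notMem_erase _ _)
        · exact absurd hx.2 (Finset.notMem_erase _ _)
      have hd1 : DepOn ((W' ×ˢ W').image fun x : Fin n × Fin n => s(x.1, x.2))
          {ω : Env n | S ω = A} := by
        intro ω ω' h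
        have hS : S ω = S ω' := by
          refine Finset.filter_congr fun w hw => ?_
          refine SP_congr r W' w hw fun x hx z hz => ?_
          have e1 := h s(x, z) (Finset.mem_image.2 ⟨(x, z), Finset.mem_product.2 ⟨hx, hz⟩, rfl⟩)
          simp only [Gr, e1]
        simp only [Set.mem_ofPred_eq, hS]
      have hd2 : DepOn (A.image fun w => s(v, w)) {ω : Env n | ∃ w ∈ A, ω s(v, w) ≤ p} := by
        intro ω ω' h
        simp only [Set.mem_ofPred_eq]
        constructor
        · rintro ⟨w, hw, h1⟩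
          exact ⟨w, hw, by rw [← h _ (Finset.mem_image_of_mem _ hw)]; exact h1⟩
        · rintro ⟨w, hw, h1⟩
          exact ⟨w, hw, by rw [h _ (Finset.mem_image_of_mem _ hw)]; exact h1⟩
      rw [mu_inter hdis (hSmeas A) hmH hd1 hd2]
      refine mul_le_mul_right ?_ _
      have hcompl : {ω : Env n | ∃ w ∈ A, ω s(v, w) ≤ p} =
          {ω : Env n | ∀ e ∈ A.image fun w => s(v, w), p < ω e}ᶜ := by
        ext ω
        simp
      have hmC : MeasurableSet {ω : Env n | ∀ e ∈ A.image fun w => s(v, w), p < ω e} := by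
        rw [← MeasurableSet.compl_iff, ← hcompl]; exact hmH
      rw [hcompl, prob_compl_eq_one_sub hmC, mu_gt_all _ hp hp1]
      have hcard : (A.image fun w => s(v, w)).card = A.card := by
        exact Finset.card_image_of_injective _ fun w w' h => Sym2.congr_right.1 h
      rw [hcard]
      have hpow : (0 : ℝ) ≤ (1 - p) ^ A.card := pow_nonneg (by linarith) _
      rw [← ENNReal.ofReal_one, ← ENNReal.ofReal_sub _ hpow]
      exact ENNReal.ofReal_le_ofReal (surv_pow_ineq hexp _)
    -- sum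
    have hNsum : ∫⁻ ω, ((S ω).card : ℝ≥0∞) ∂(mu n) ≤ ENNReal.ofReal (n / s) := by
      have h1 : ∀ ω, ((S ω).card : ℝ≥0∞) =
          ∑ w ∈ W', Set.indicator {ω : Env n | SP (Gr ω p) r W' w} (fun _ => (1 : ℝ≥0∞)) ω := by
        intro ω
        simp only [S, Finset.card_filter, Nat.cast_sum, Nat.cast_ite, Nat.cast_one, Nat.cast_zero]
        refine Finset.sum_congr rfl fun w _ => ?_
        simp only [Set.indicator_apply, Set.mem_ofPred_eq]
      simp only [h1]
      rw [lintegral_finsetSum _ fun w _ => (measurable_const.indicator (SP_meas p r W' w))]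
      calc ∑ w ∈ W', ∫⁻ ω, Set.indicator {ω : Env n | SP (Gr ω p) r W' w}
            (fun _ => (1 : ℝ≥0∞)) ω ∂(mu n)
          = ∑ w ∈ W', mu n {ω : Env n | SP (Gr ω p) r W' w} := by
            refine Finset.sum_congr rfl fun w _ => ?_
            rw [lintegral_indicator_const (SP_meas p r W' w), one_mul]
        _ ≤ ∑ _w ∈ W', ENNReal.ofReal (1 / s) := Finset.sum_le_sum fun w _ => ih W' w
        _ = (W'.card : ℝ≥0∞) * ENNReal.ofReal (1 / s) := by
            rw [Finset.sum_const, nsmul_eq_mul]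
        _ ≤ (n : ℝ≥0∞) * ENNReal.ofReal (1 / s) := by
            refine mul_le_mul_left ?_ _
            have := Finset.card_le_univ W'
            rw [Fintype.card_fin] at this
            exact_mod_cast this
        _ = ENNReal.ofReal (n / s) := by
            rw [← ENNReal.ofReal_natCast, ← ENNReal.ofReal_mul hnR.le, mul_one_div]
    calc mu n {ω | SP (Gr ω p) (r + 1) W v}
        ≤ mu n (⋃ A ∈ W'.powerset, ({ω | S ω = A} ∩ {ω | ∃ w ∈ A, ω s(v, w) ≤ p})) :=
          measure_mono hcov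
      _ ≤ ∑ A ∈ W'.powerset, mu n ({ω | S ω = A} ∩ {ω | ∃ w ∈ A, ω s(v, w) ≤ p}) :=
          measure_biUnion_finset_le _ _
      _ ≤ ∑ A ∈ W'.powerset, mu n {ω | S ω = A} * ENNReal.ofReal (c0 + c1 * A.card) :=
          Finset.sum_le_sum hterm
      _ = ∫⁻ ω, ENNReal.ofReal (c0 + c1 * (S ω).card) ∂(mu n) := by
          have h1 : ∀ ω, ENNReal.ofReal (c0 + c1 * (S ω).card) = ∑ A ∈ W'.powerset,
              Set.indicator {ω : Env n | S ω = A}
                (fun _ => ENNReal.ofReal (c0 + c1 * A.card)) ω := by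
            intro ω
            rw [Finset.sum_eq_single (S ω)]
            · simp
            · intro A _ hA
              simp [Ne.symm hA]
            · intro h
              exact absurd (Finset.mem_powerset.2 (Finset.filter_subset _ _)) h
          simp only [h1]
          rw [lintegral_finsetSum _ fun A _ => (measurable_const.indicator (hSmeas A))]
          refine Finset.sum_congr rfl fun A _ => ?_
          rw [lintegral_indicator_const (hSmeas A), mul_comm]
      _ = ∫⁻ ω, (ENNReal.ofReal c0 + ENNReal.ofReal c1 * ((S ω).card : ℝ≥0∞)) ∂(mu n) := by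
          refine lintegral_congr fun ω => ?_
          rw [ENNReal.ofReal_add hc0' (by positivity), ENNReal.ofReal_mul hc1',
            ENNReal.ofReal_natCast]
      _ = ENNReal.ofReal c0 + ENNReal.ofReal c1 * ∫⁻ ω, ((S ω).card : ℝ≥0∞) ∂(mu n) := by
          rw [lintegral_add_left measurable_const, lintegral_const_mul' _ _ ENNReal.ofReal_ne_top,
            lintegral_const, measure_univ, mul_one]
      _ ≤ ENNReal.ofReal c0 + ENNReal.ofReal c1 * ENNReal.ofReal (n / s) := by
          gcongr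
      _ = ENNReal.ofReal (c0 + c1 * (n / s)) := by
          rw [← ENNReal.ofReal_mul hc1', ← ENNReal.ofReal_add hc0' (by positivity)]
      _ ≤ ENNReal.ofReal (1 / ss a (r + 1)) := by
          refine ENNReal.ofReal_le_ofReal ?_
          have h1 : c1 * (n / s) = Real.exp (-y) * y := by
            rw [hc1, hy]; field_simp
          have h2 : ss a (r + 1) = 1 / y + 1 / 4 := by
            show ss a r / a + 1 / 4 = _
            rw [hy, one_div_div]
          rw [h1, h2, hc0]
          have := surv_exp_ineq hy0 hy2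
          linarith

/-- the real inequality for the parameter -/
theorem surv_exp_le {δ : ℝ} {n : ℕ} (hn : 0 < n) (hδ : 1 / (n : ℝ) ≤ δ)
    (hδ1 : δ < 1 / 1000) :
    Real.exp (-((1 + 3 * δ) / n)) ≤ 1 - (1 + δ) / n := by
  have hnR : (0 : ℝ) < n := by exact_mod_cast hn
  have hδ0 : 0 < δ := lt_of_lt_of_le (by positivity) hδ
  have h1 : (1 + 3 * δ) / n + 1 ≤ Real.exp ((1 + 3 * δ) / n) := Real.add_one_le_exp _
  have hp : (1 + δ) / n ≤ (1 + δ) * δ := by
    rw [div_eq_mul_one_div]
    exact mul_le_mul_of_nonneg_left hδ (by linarith)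
  have hp0 : 0 < (1 + δ) / (n : ℝ) := by positivity
  have hp3 : (1 + δ) * δ ≤ 1.001 * δ := by nlinarith
  have h2 : 1 ≤ ((1 + 3 * δ) / n + 1) * (1 - (1 + δ) / n) := by
    have h3 : 0 ≤ (1 + 3 * δ) * (1 - (1 + δ) / n) - (1 + δ) := by nlinarith
    have h4 : ((1 + 3 * δ) / n + 1) * (1 - (1 + δ) / n) - 1 =
        ((1 + 3 * δ) * (1 - (1 + δ) / n) - (1 + δ)) / n := by
      field_simp
      ring
    have h5 : 0 ≤ ((1 + 3 * δ) * (1 - (1 + δ) / n) - (1 + δ)) / n := div_nonneg h3 hnR.le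
    linarith
  have h6 : 0 < 1 - (1 + δ) / (n : ℝ) := by nlinarith
  rw [Real.exp_neg, inv_le_comm₀ (Real.exp_pos _) h6]
  refine le_trans ?_ h1
  rw [inv_le_iff_one_le_mul₀ h6]
  linarith

theorem surv {δ : ℝ} (hn : 2 ≤ n) (hδ : 1 / (n : ℝ) ≤ δ) (_hδ1 : δ ≤ 1) {m : ℕ} (hm : 1 ≤ m)
    (v : Fin n) :
    mu n {ω | m ≤ (comp (Gr ω ((1 + δ) / n)) v).card} ≤
      ENNReal.ofReal (1000 / Real.sqrt m + 1000 * δ) := by
  have hnR : (0 : ℝ) < n := by exact_mod_cast (by omega : 0 < n)
  have hδ0 : 0 < δ := lt_of_lt_of_le (by positivity) hδ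
  have hm0 : (1 : ℝ) ≤ m := by exact_mod_cast hm
  set x := Real.sqrt m with hx
  have hx1 : 1 ≤ x := by rw [hx]; exact Real.one_le_sqrt.2 hm0
  have hxx : x * x = m := Real.mul_self_sqrt (by linarith)
  by_cases htriv : 1 ≤ 1000 / x + 1000 * δ
  · calc mu n {ω | m ≤ (comp (Gr ω ((1 + δ) / n)) v).card} ≤ 1 := prob_le_one
      _ = ENNReal.ofReal 1 := ENNReal.ofReal_one.symm
      _ ≤ _ := ENNReal.ofReal_le_ofReal htriv
  push Not at htriv
  have hd : δ < 1 / 1000 := by
    have : 0 < 1000 / x := by positivity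
    linarith
  set p : ℝ := (1 + δ) / n with hp
  have hp0 : 0 ≤ p := by positivity
  have hexp := surv_exp_le (by omega : 0 < n) hδ hd
  have hp1 : p ≤ 1 := by
    have := Real.exp_pos (-((1 + 3 * δ) / (n : ℝ)))
    linarith
  -- the length
  set c : ℝ := min x (1 / (10 * δ)) with hc
  have hc0 : 0 < c := lt_min (by linarith) (by positivity)
  set r : ℕ := ⌈c⌉₊ with hr
  have hr1 : 1 ≤ r := Nat.one_le_iff_ne_zero.2 (Nat.ceil_pos.2 hc0).ne'
  have hrc : c ≤ r := Nat.le_ceil c
  have hrc2 : (r : ℝ) < c + 1 := Nat.ceil_lt_add_one hc0.le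
  have hrx : (r : ℝ) ≤ x + 1 := by
    have := min_le_left x (1 / (10 * δ)); linarith
  have hrδ : (r : ℝ) * δ ≤ 1 / 10 + δ := by
    have h1 := min_le_right x (1 / (10 * δ))
    have h2 : (r : ℝ) ≤ 1 / (10 * δ) + 1 := by linarith
    calc (r : ℝ) * δ ≤ (1 / (10 * δ) + 1) * δ := mul_le_mul_of_nonneg_right h2 hδ0.le
      _ = 1 / 10 + δ := by field_simp
  have hrinv : 1 / (r : ℝ) ≤ 1 / x + 10 * δ := by
    have h1 : 1 / (r : ℝ) ≤ 1 / c := one_div_le_one_div_of_le hc0 hrc
    have h2 : 1 / c ≤ 1 / x + 10 * δ := by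
      rcases min_choice x (1 / (10 * δ)) with h | h
      · rw [hc, h]; linarith
      · rw [hc, h, one_div_one_div]
        have : 0 < 1 / x := by positivity
        linarith
    linarith
  -- powers
  have hpow : ∀ (b : ℝ), 0 ≤ b → b ≤ 3 * δ → (1 + b) ^ r ≤ 2 := by
    intro b hb hb3
    have h1 : 1 + b ≤ Real.exp b := by have := Real.add_one_le_exp b; linarith
    have h2 : (1 + b) ^ r ≤ Real.exp (r * b) := by
      rw [Real.exp_nat_mul]
      exact pow_le_pow_left₀ (by linarith) h1 r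
    have h3 : (r : ℝ) * b ≤ 1 / 2 := by
      have : (r : ℝ) * b ≤ r * (3 * δ) := mul_le_mul_of_nonneg_left hb3 (Nat.cast_nonneg r)
      nlinarith
    have h4 : Real.exp (r * b) ≤ Real.exp (1 / 2) := Real.exp_le_exp.2 h3
    have h5 : Real.exp (1 / 2) ≤ 2 := by
      have h6 : Real.exp (1 / 2) * Real.exp (1 / 2) = Real.exp 1 := by
        rw [← Real.exp_add]; norm_num
      have h7 := Real.exp_one_lt_d9
      nlinarith [Real.exp_pos (1 / 2 : ℝ)]
    linarith
  -- the probability of a long path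
  have hP1 : mu n {ω | SP (Gr ω p) r Finset.univ v} ≤ ENNReal.ofReal (8 / x + 80 * δ) := by
    refine (SP_prob (by omega) hp0 hp1 (a := 1 + 3 * δ) (by linarith) (by linarith) hexp r
      Finset.univ v).trans (ENNReal.ofReal_le_ofReal ?_)
    have h1 := ss_ge (a := 1 + 3 * δ) (by linarith) r
    have h2 := hpow (3 * δ) (by linarith) le_rfl
    have hr0 : (0 : ℝ) < r := by exact_mod_cast hr1
    have h3 : (r : ℝ) / 8 ≤ ss (1 + 3 * δ) r := by
      refine le_trans ?_ h1
      refine div_le_div_of_nonneg_left hr0.le (by positivity) (by linarith)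
    calc 1 / ss (1 + 3 * δ) r ≤ 1 / ((r : ℝ) / 8) :=
          one_div_le_one_div_of_le (by positivity) h3
      _ = 8 * (1 / r) := by field_simp
      _ ≤ 8 * (1 / x + 10 * δ) := by linarith
      _ = 8 / x + 80 * δ := by ring
  -- the balls
  have hmeasB : Measurable fun ω : Env n => ((bl (Gr ω p) v (r - 1)).card : ℝ≥0∞) :=
    ((LevDep.gr p).comp fun G => ((bl G v (r - 1)).card : ℝ≥0∞)).measurable
  have hP2 : mu n {ω | (m : ℝ≥0∞) ≤ ((bl (Gr ω p) v (r - 1)).card : ℝ≥0∞)} ≤
      ENNReal.ofReal (4 / x) := by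
    have h1 := meas_ge_le_lintegral_div (μ := mu n) hmeasB.aemeasurable
      (ε := (m : ℝ≥0∞)) (by simpa using (by omega : m ≠ 0)) (ENNReal.natCast_ne_top m)
    refine h1.trans ?_
    have h2 := exp_ball hp0 hp1 v (r - 1)
    have h3 : ∑ i ∈ Finset.range (r - 1 + 1), ((n : ℝ) * p) ^ i ≤ 2 * r := by
      have h4 : ∀ i ∈ Finset.range (r - 1 + 1), ((n : ℝ) * p) ^ i ≤ 2 := by
        intro i hi
        have h5 : (n : ℝ) * p = 1 + δ := by rw [hp]; field_simp
        rw [h5]
        have h6 : i ≤ r := by have := Finset.mem_range.1 hi; omega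
        exact (pow_le_pow_right₀ (by linarith) h6).trans (hpow δ hδ0.le (by linarith))
      calc ∑ i ∈ Finset.range (r - 1 + 1), ((n : ℝ) * p) ^ i
          ≤ ∑ _i ∈ Finset.range (r - 1 + 1), (2 : ℝ) := Finset.sum_le_sum h4
        _ = 2 * r := by
          rw [Finset.sum_const, Finset.card_range, Nat.sub_add_cancel hr1, nsmul_eq_mul]; ring
    calc (∫⁻ ω, ((bl (Gr ω p) v (r - 1)).card : ℝ≥0∞) ∂(mu n)) / (m : ℝ≥0∞)
        ≤ ENNReal.ofReal (2 * r) / (m : ℝ≥0∞) :=
          ENNReal.div_le_div_right (h2.trans (ENNReal.ofReal_le_ofReal h3)) _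
      _ = ENNReal.ofReal (2 * r / m) := by
          rw [ENNReal.ofReal_div_of_pos (by linarith), ENNReal.ofReal_natCast]
      _ ≤ ENNReal.ofReal (4 / x) := by
          refine ENNReal.ofReal_le_ofReal ?_
          rw [div_le_div_iff₀ (by linarith) (by linarith), ← hxx]
          nlinarith
  -- covering
  have hcov : {ω : Env n | m ≤ (comp (Gr ω p) v).card} ⊆
      {ω | SP (Gr ω p) r Finset.univ v} ∪
        {ω | (m : ℝ≥0∞) ≤ ((bl (Gr ω p) v (r - 1)).card : ℝ≥0∞)} := by
    intro ω hω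
    by_cases hsp : SP (Gr ω p) r Finset.univ v
    · exact Or.inl hsp
    · right
      have hsub : comp (Gr ω p) v ⊆ bl (Gr ω p) v (r - 1) := by
        intro u hu
        have hu' : (Gr ω p).Reachable v u := (Finset.mem_filter.1 hu).2
        obtain ⟨w, hw⟩ := hu'.exists_isPath
        refine Finset.mem_filter.2 ⟨Finset.mem_univ _, w, ?_⟩
        by_contra hcon
        exact hsp (SP_of_walk w hw r Finset.univ (fun _ _ => Finset.mem_univ _) (by omega))
      have h1 : m ≤ (bl (Gr ω p) v (r - 1)).card := le_trans hω (Finset.card_le_card hsub)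
      exact_mod_cast h1
  calc mu n {ω | m ≤ (comp (Gr ω p) v).card}
      ≤ mu n ({ω | SP (Gr ω p) r Finset.univ v} ∪
        {ω | (m : ℝ≥0∞) ≤ ((bl (Gr ω p) v (r - 1)).card : ℝ≥0∞)}) := measure_mono hcov
    _ ≤ _ := measure_union_le _ _
    _ ≤ ENNReal.ofReal (8 / x + 80 * δ) + ENNReal.ofReal (4 / x) := add_le_add hP1 hP2
    _ = ENNReal.ofReal (8 / x + 80 * δ + 4 / x) :=
        (ENNReal.ofReal_add (by positivity) (by positivity)).symm
    _ ≤ ENNReal.ofReal (1000 / x + 1000 * δ) := by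
        refine ENNReal.ofReal_le_ofReal ?_
        have : 8 / x + 80 * δ + 4 / x = 12 / x + 80 * δ := by ring
        rw [this]
        have h1 : 12 / x ≤ 1000 / x := div_le_div_of_nonneg_right (by norm_num) (by linarith)
        linarith

theorem surv_sum_inv_sqrt (M : ℕ) :
    ∑ i ∈ Finset.range M, 1 / Real.sqrt ((i + 1 : ℕ) : ℝ) ≤ 2 * Real.sqrt M := by
  induction M with
  | zero => simp
  | succ M ih =>
    rw [Finset.sum_range_succ]
    have h0 : 0 < Real.sqrt ((M + 1 : ℕ) : ℝ) := Real.sqrt_pos.2 (by positivity)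
    have h1 : Real.sqrt (M : ℝ) ≤ Real.sqrt ((M + 1 : ℕ) : ℝ) :=
      Real.sqrt_le_sqrt (by push_cast; linarith)
    have h2 : Real.sqrt (M : ℝ) * Real.sqrt M = M := Real.mul_self_sqrt (Nat.cast_nonneg M)
    have h3 : Real.sqrt ((M + 1 : ℕ) : ℝ) * Real.sqrt ((M + 1 : ℕ) : ℝ) = M + 1 := by
      rw [Real.mul_self_sqrt (Nat.cast_nonneg _)]; push_cast; ring
    have h4 : 1 / Real.sqrt ((M + 1 : ℕ) : ℝ) ≤
        2 * (Real.sqrt ((M + 1 : ℕ) : ℝ) - Real.sqrt M) := by
      rw [div_le_iff₀ h0]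
      nlinarith [Real.sqrt_nonneg (M : ℝ)]
    linarith

/-- `E (|comp v| ; |comp v| ≤ m) ≤ ∑_{i=1}^m P(|comp v| ≥ i)` -/
theorem surv_trunc {δ : ℝ} (hn : 2 ≤ n) (hδ : 1 / (n : ℝ) ≤ δ) (hδ1 : δ ≤ 1) {m : ℝ}
    (hm : 1 ≤ m) (v : Fin n) :
    ∫⁻ ω, (if ((comp (Gr ω ((1 + δ) / n)) v).card : ℝ) ≤ m then
        ((comp (Gr ω ((1 + δ) / n)) v).card : ℝ≥0∞) else 0) ∂(mu n) ≤
      ENNReal.ofReal (2000 * Real.sqrt m + 1000 * δ * m) := by
  have hnR : (0 : ℝ) < n := by exact_mod_cast (by omega : 0 < n)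
  have hδ0 : 0 < δ := lt_of_lt_of_le (by positivity) hδ
  set M : ℕ := ⌊m⌋₊ with hM
  have hMm : (M : ℝ) ≤ m := Nat.floor_le (by linarith)
  have hmeas : ∀ i : ℕ, MeasurableSet {ω : Env n | i ≤ (comp (Gr ω ((1 + δ) / n)) v).card} :=
    fun i => ((LevDep.gr ((1 + δ) / n)).comp fun G => i ≤ (comp G v).card).measurableSet
  calc ∫⁻ ω, (if ((comp (Gr ω ((1 + δ) / n)) v).card : ℝ) ≤ m then
        ((comp (Gr ω ((1 + δ) / n)) v).card : ℝ≥0∞) else 0) ∂(mu n)
      ≤ ∫⁻ ω, ∑ i ∈ Finset.range M,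
          Set.indicator {ω : Env n | i + 1 ≤ (comp (Gr ω ((1 + δ) / n)) v).card}
            (fun _ => (1 : ℝ≥0∞)) ω ∂(mu n) := by
        refine lintegral_mono fun ω => ?_
        dsimp only
        split_ifs with h
        · have h1 : (comp (Gr ω ((1 + δ) / n)) v).card ≤ M := Nat.le_floor h
          have h2 : ((comp (Gr ω ((1 + δ) / n)) v).card : ℝ≥0∞) =
              ∑ i ∈ Finset.range (comp (Gr ω ((1 + δ) / n)) v).card, (1 : ℝ≥0∞) := by simp
          rw [h2]
          calc ∑ i ∈ Finset.range (comp (Gr ω ((1 + δ) / n)) v).card, (1 : ℝ≥0∞)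
              = ∑ i ∈ Finset.range (comp (Gr ω ((1 + δ) / n)) v).card,
                Set.indicator {ω : Env n | i + 1 ≤ (comp (Gr ω ((1 + δ) / n)) v).card}
                  (fun _ => (1 : ℝ≥0∞)) ω := by
                refine Finset.sum_congr rfl fun i hi => ?_
                rw [Set.indicator_of_mem]
                have := Finset.mem_range.1 hi
                exact this
            _ ≤ _ := Finset.sum_le_sum_of_subset (Finset.range_subset_range.2 h1)
        · exact zero_le
    _ = ∑ i ∈ Finset.range M, mu n {ω | i + 1 ≤ (comp (Gr ω ((1 + δ) / n)) v).card} := by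
        rw [lintegral_finsetSum _ fun i _ => (measurable_const.indicator (hmeas (i + 1)))]
        refine Finset.sum_congr rfl fun i _ => ?_
        rw [lintegral_indicator_const (hmeas (i + 1)), one_mul]
    _ ≤ ∑ i ∈ Finset.range M,
          ENNReal.ofReal (1000 / Real.sqrt ((i + 1 : ℕ) : ℝ) + 1000 * δ) :=
        Finset.sum_le_sum fun i _ => surv hn hδ hδ1 (by omega) v
    _ = ENNReal.ofReal (∑ i ∈ Finset.range M,
          (1000 / Real.sqrt ((i + 1 : ℕ) : ℝ) + 1000 * δ)) := by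
        rw [ENNReal.ofReal_sum_of_nonneg fun i _ => by positivity]
    _ ≤ ENNReal.ofReal (2000 * Real.sqrt m + 1000 * δ * m) := by
        refine ENNReal.ofReal_le_ofReal ?_
        rw [Finset.sum_add_distrib, Finset.sum_const, Finset.card_range, nsmul_eq_mul]
        have h1 : ∑ i ∈ Finset.range M, 1000 / Real.sqrt ((i + 1 : ℕ) : ℝ) =
            1000 * ∑ i ∈ Finset.range M, 1 / Real.sqrt ((i + 1 : ℕ) : ℝ) := by
          rw [Finset.mul_sum]
          exact Finset.sum_congr rfl fun i _ => by ring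
        have h2 := surv_sum_inv_sqrt M
        have h3 : Real.sqrt (M : ℝ) ≤ Real.sqrt m := Real.sqrt_le_sqrt hMm
        rw [h1]
        have h4 : (M : ℝ) * (1000 * δ) ≤ 1000 * δ * m := by nlinarith
        linarith

end RST
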