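import Pool.Agent.Work.MP_5ba30e_pr.Chern
import Pool.Agent.Work.MP_5ba30e_pr.Surv

/-!
# GiantUpp : upper bound for the size of the large components

`giant_upp'` is `giant_upp` of `Giant.lean` with `Rng` unfolded.
-/

open MeasureTheory Set Filter Finset
open scoped ENNReal Topology Classical

noncomputable section

namespace RST

variable {n : ℕ}

theorem levDep_bigC (p τ : ℝ) : LevDep (fun ω : Env n => bigC (Gr ω p) τ) :=
  (LevDep.gr p).comp fun G => bigC G τ

theorem levDep_comp (p : ℝ) (v : Fin n) : LevDep (fun ω : Env n => comp (Gr ω p) v) :=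
  (LevDep.gr p).comp fun G => comp G v

/-- expected number of vertices in large components -/
theorem lintegral_bigC (p τ : ℝ) :
    ∫⁻ ω, ((bigC (Gr ω p) τ).card : ℝ≥0∞) ∂(mu n) =
      ∑ v, mu n {ω | τ < ((comp (Gr ω p) v).card : ℝ)} := by
  have h1 : ∀ ω : Env n, ((bigC (Gr ω p) τ).card : ℝ≥0∞) =
      ∑ v, Set.indicator {ω : Env n | τ < ((comp (Gr ω p) v).card : ℝ)} 1 ω := by
    intro ω
    unfold bigC
    rw [Finset.card_filter]
    push_cast
    refine Finset.sum_congr rfl fun v _ => ?_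
    by_cases h : τ < ((comp (Gr ω p) v).card : ℝ)
    · rw [if_pos h, Set.indicator_of_mem (by exact h)]
      rfl
    · rw [if_neg h, Set.indicator_of_notMem (by exact h)]
  have hm : ∀ v, MeasurableSet {ω : Env n | τ < ((comp (Gr ω p) v).card : ℝ)} := fun v =>
    ((levDep_comp p v).comp fun C => τ < ((C.card : ℕ) : ℝ)).measurableSet
  simp_rw [h1]
  rw [lintegral_finsetSum _ fun v _ => measurable_one.indicator (hm v)]
  exact Finset.sum_congr rfl fun v _ => lintegral_indicator_one (hm v)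

/-- Markov's inequality for the number of vertices in large components -/
theorem markov_bigC (p τ L : ℝ) (hL : 0 < L) :
    mu n {ω | L < ((bigC (Gr ω p) τ).card : ℝ)} ≤
      (∑ v, mu n {ω | τ < ((comp (Gr ω p) v).card : ℝ)}) / ENNReal.ofReal L := by
  rw [← lintegral_bigC]
  have hmeas : Measurable fun ω : Env n => ((bigC (Gr ω p) τ).card : ℝ≥0∞) :=
    ((levDep_bigC p τ).comp fun C => ((C.card : ℕ) : ℝ≥0∞)).measurable
  refine le_trans (measure_mono ?_) (meas_ge_le_lintegral_div hmeas.aemeasurable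
    (by simpa using hL) ENNReal.ofReal_ne_top)
  intro ω hω
  have h1 : L < ((bigC (Gr ω p) τ).card : ℝ) := hω
  show ENNReal.ofReal L ≤ ((bigC (Gr ω p) τ).card : ℝ≥0∞)
  rw [← ENNReal.ofReal_natCast]
  exact ENNReal.ofReal_le_ofReal h1.le

theorem giant_upp' (c A₂ : ℝ) (hc : 0 < c) (hc1 : c ≤ 1 / 3) :
    ∃ n₀ : ℕ, ∀ n ≥ n₀, ∀ δ : ℝ, ((n : ℝ) ^ (-(1 / 3 : ℝ) + c) ≤ δ ∧ δ ≤ A₂ * Real.log n) →
      mu n {ω | Real.log n ^ 5 * db δ * n <
        ((bigC (Gr ω ((1 + δ) / n)) (thr n δ)).card : ℝ)} ≤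
        ENNReal.ofReal (1 / Real.log n ^ 4) := by
  refine ⟨⌈Real.exp 11000⌉₊ + 2, fun n hn δ hδ => ?_⟩
  obtain ⟨hδ1, -⟩ := hδ
  have hn2 : 2 ≤ n := by omega
  have hnexp : Real.exp 11000 ≤ n :=
    (Nat.le_ceil _).trans (by exact_mod_cast (by omega : ⌈Real.exp 11000⌉₊ ≤ n))
  have hlog : 11000 ≤ Real.log n := by
    have h := Real.log_le_log (Real.exp_pos _) hnexp
    rwa [Real.log_exp] at h
  have hn0 : (0 : ℝ) < n := by exact_mod_cast (by omega : 0 < n)
  have hn1 : (1 : ℝ) ≤ n := by exact_mod_cast (by omega : 1 ≤ n)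
  rcases le_or_gt 1 δ with h1 | h1
  · -- `δ ≥ 1`: the set is empty
    have hempty : {ω : Env n | Real.log n ^ 5 * db δ * n <
        ((bigC (Gr ω ((1 + δ) / n)) (thr n δ)).card : ℝ)} = ∅ := by
      rw [Set.eq_empty_iff_forall_notMem]
      intro ω hω
      have hω' : Real.log n ^ 5 * db δ * n <
        ((bigC (Gr ω ((1 + δ) / n)) (thr n δ)).card : ℝ) := hω
      have hcard : ((bigC (Gr ω ((1 + δ) / n)) (thr n δ)).card : ℝ) ≤ n := by
        exact_mod_cast (Finset.card_le_univ _).trans (by simp)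
      have hdb : db δ = 1 := min_eq_right h1
      have h5 : 1 ≤ Real.log n ^ 5 := one_le_pow₀ (by linarith)
      rw [hdb, mul_one] at hω'
      nlinarith
    rw [hempty]
    simp
  · have hδ0 : 0 < δ := lt_of_lt_of_le (Real.rpow_pos_of_pos hn0 _) hδ1
    have hdb : db δ = δ := min_eq_left h1.le
    have h3 : 1 ≤ δ ^ 3 * n := by
      have h4 : ((n : ℝ) ^ (-(1 / 3 : ℝ) + c)) ^ 3 ≤ δ ^ 3 :=
        pow_le_pow_left₀ (by positivity) hδ1 3
      have h5 : ((n : ℝ) ^ (-(1 / 3 : ℝ) + c)) ^ 3 * n = (n : ℝ) ^ (3 * c) := by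
        rw [← Real.rpow_natCast, ← Real.rpow_mul hn0.le]
        nth_rewrite 2 [← Real.rpow_one (n : ℝ)]
        rw [← Real.rpow_add hn0]
        congr 1
        push_cast
        ring
      have h6 : (1 : ℝ) ≤ (n : ℝ) ^ (3 * c) := Real.one_le_rpow hn1 (by positivity)
      calc (1 : ℝ) ≤ ((n : ℝ) ^ (-(1 / 3 : ℝ) + c)) ^ 3 * n := by rw [h5]; exact h6
        _ ≤ δ ^ 3 * n := mul_le_mul_of_nonneg_right h4 hn0.le
    have hδn : 1 / (n : ℝ) ≤ δ := by
      rw [div_le_iff₀ hn0]
      have : δ ^ 3 ≤ δ := by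
        calc δ ^ 3 = δ * (δ * δ) := by ring
          _ ≤ δ * 1 := mul_le_mul_of_nonneg_left (by nlinarith) hδ0.le
          _ = δ := mul_one δ
      nlinarith
    set τ := thr n δ with hτ
    have hτ0 : δ * n / 80 ≤ τ := by
      rw [hτ]
      unfold thr
      apply div_le_div_of_nonneg_left (by positivity) (by positivity)
      nlinarith
    set m := ⌊τ⌋₊ + 1 with hm
    have hmτ : τ < m := by rw [hm]; push_cast; exact Nat.lt_floor_add_one τ
    have hm0 : (0 : ℝ) < m := by rw [hm]; positivity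
    have hterm : ∀ v, mu n {ω | τ < ((comp (Gr ω ((1 + δ) / n)) v).card : ℝ)} ≤
        ENNReal.ofReal (10000 * δ) := by
      intro v
      refine le_trans (measure_mono ?_) ((surv hn2 hδn h1.le (m := m) (by omega) v).trans
        (ENNReal.ofReal_le_ofReal ?_))
      · intro ω hω
        have hω' : τ < ((comp (Gr ω ((1 + δ) / n)) v).card : ℝ) := hω
        show m ≤ (comp (Gr ω ((1 + δ) / n)) v).card
        exact (Nat.floor_lt (le_trans (by positivity) hτ0)).2 hω'
      · have h6 : 1 / (9 * δ) ≤ Real.sqrt m := by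
          apply Real.le_sqrt_of_sq_le
          have h7 : 1 / δ ^ 2 ≤ δ * n := by
            rw [div_le_iff₀ (by positivity)]
            calc (1 : ℝ) ≤ δ ^ 3 * n := h3
              _ = δ * n * δ ^ 2 := by ring
          calc (1 / (9 * δ)) ^ 2 = (1 / δ ^ 2) / 81 := by field_simp; norm_num
            _ ≤ (δ * n) / 81 := by gcongr
            _ ≤ δ * n / 80 := by
                apply div_le_div_of_nonneg_left (by positivity) (by norm_num) (by norm_num)
            _ ≤ m := hτ0.trans hmτ.le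
        have h8 : 1000 / Real.sqrt m ≤ 9000 * δ := by
          rw [div_le_iff₀ (Real.sqrt_pos.2 hm0)]
          calc (1000 : ℝ) = 9000 * δ * (1 / (9 * δ)) := by field_simp; norm_num
            _ ≤ 9000 * δ * Real.sqrt m := mul_le_mul_of_nonneg_left h6 (by positivity)
        linarith
    have hL : 0 < Real.log n ^ 5 * δ * n := by
      have : 0 < Real.log n := by linarith
      positivity
    rw [hdb]
    refine (markov_bigC _ _ _ hL).trans ?_
    have hsum : (∑ v, mu n {ω | τ < ((comp (Gr ω ((1 + δ) / n)) v).card : ℝ)}) ≤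
        ENNReal.ofReal (n * (10000 * δ)) := by
      refine (Finset.sum_le_sum fun v _ => hterm v).trans ?_
      rw [Finset.sum_const, Finset.card_univ, Fintype.card_fin, nsmul_eq_mul,
        ENNReal.ofReal_mul hn0.le, ENNReal.ofReal_natCast]
    refine (ENNReal.div_le_div_right hsum _).trans ?_
    rw [← ENNReal.ofReal_div_of_pos hL]
    apply ENNReal.ofReal_le_ofReal
    have hlogpos : 0 < Real.log n := by linarith
    rw [div_le_div_iff₀ hL (by positivity)]
    have h9 : (n : ℝ) * (10000 * δ) * Real.log n ^ 4 ≤ (n : ℝ) * (Real.log n * δ) * Real.log n ^ 4 := by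
      have : 10000 * δ ≤ Real.log n * δ := by nlinarith
      gcongr
    calc (n : ℝ) * (10000 * δ) * Real.log n ^ 4 ≤ (n : ℝ) * (Real.log n * δ) * Real.log n ^ 4 := h9
      _ = 1 * (Real.log n ^ 5 * δ * n) := by ring

end RST
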