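import Pool.Agent.Work.MP_5ba30e_pr.Chern
import Pool.Agent.Work.MP_5ba30e_pr.Surv
import Pool.Agent.Work.MP_5ba30e_pr.GiantUpp

/-!
# Giant : existence and size of the large components
-/

open MeasureTheory Set Filter Finset
open scoped ENNReal Topology Classical

noncomputable section

namespace RST

variable {n : ℕ}

/-- the range of the parameter `δ` -/
def Rng (n : ℕ) (c A₂ δ : ℝ) : Prop :=
  (n : ℝ) ^ (-(1 / 3 : ℝ) + c) ≤ δ ∧ δ ≤ A₂ * Real.log n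

/-- all components above the threshold have at least `xs δ * n` vertices, and there is one -/
def GLo (n : ℕ) (δ : ℝ) (ω : Env n) : Prop :=
  (bigC (Gr ω ((1 + δ) / n)) (thr n δ)).Nonempty ∧
    ∀ v ∈ bigC (Gr ω ((1 + δ) / n)) (thr n δ),
      xs δ * n < ((comp (Gr ω ((1 + δ) / n)) v).card : ℝ)

theorem self_mem_comp (G : SimpleGraph (Fin n)) (v : Fin n) : v ∈ comp G v := by
  simp [comp]

theorem one_le_card_comp (G : SimpleGraph (Fin n)) (v : Fin n) : 1 ≤ (comp G v).card :=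
  Finset.card_pos.2 ⟨v, self_mem_comp G v⟩

theorem sat_singleton (G : SimpleGraph (Fin n)) (v : Fin n) : sat G {v} = comp G v := by
  simp [sat, comp]

theorem subset_sat' (G : SimpleGraph (Fin n)) (R : Finset (Fin n)) : R ⊆ sat G R := by
  intro v hv
  simp only [sat, Finset.mem_filter, Finset.mem_univ, true_and]
  exact ⟨v, hv, SimpleGraph.Reachable.refl _⟩

theorem sat_eq_biUnion (G : SimpleGraph (Fin n)) (R : Finset (Fin n)) :
    sat G R = R.biUnion fun r => comp G r := by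
  ext v
  simp [sat, comp]

/-- the probability that `sat R` has exactly `τ` vertices, for `160 log n ≤ γ² τ + 4 γ ℓ/(1+1.7 δ)` -/
theorem sat_eq_le {δ : ℝ} (hn : 2 ≤ n) (hδ : 0 < δ) (hp : (1 + δ) / n ≤ 1) (R : Finset (Fin n))
    (hR1 : 1 ≤ R.card) (hR2 : 2 * R.card ≤ n) (τ : ℕ) (hτ1 : R.card ≤ τ)
    (hτ : (τ : ℝ) ≤ xs δ * n)
    (h : 10 * Real.log n ≤ gm δ ^ 2 * τ / 16 + gm δ * R.card / (4 * (1 + 1.7 * δ))) :
    mu n {ω | (sat (Gr ω ((1 + δ) / n)) R).card = τ} ≤ ENNReal.ofReal (1 / (n : ℝ) ^ 10) := by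
  have hn0 : (0 : ℝ) < n := by exact_mod_cast (by omega : 0 < n)
  have h1 := E2 R (B := Set.univ) MeasurableSet.univ (fun _ _ _ => Iff.rfl)
    (p := (1 + δ) / n) (by positivity) hp τ
  rw [Set.univ_inter, measure_univ, one_mul] at h1
  refine h1.trans (ENNReal.ofReal_le_ofReal ?_)
  refine (bnd_super hδ hp hR1 hτ1 hR2 hτ).trans ?_
  have e10 : 1 / (n : ℝ) ^ 10 = Real.exp (-(10 * Real.log n)) := by
    rw [Real.exp_neg, show (10 : ℝ) * Real.log n = ((10 : ℕ) : ℝ) * Real.log n by norm_num,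
      Real.exp_nat_mul, Real.exp_log hn0, one_div]
  rw [e10]
  apply Real.exp_le_exp.2
  linarith

/-- gap: no component has its size between `τ₀ = 160 log n/γ²` and `xs δ * n`. `E2` with one root
`v` (`sat {v} = comp v`) and `bnd_super` (`ℓ = 1`): each size has probability `≤ n^{-10}`; union
over the sizes and the vertices. -/
theorem gap {δ : ℝ} (hn : 2 ≤ n) (hδ : 0 < δ) (hp : (1 + δ) / n ≤ 1) :
    mu n {ω | ∃ v, 160 * Real.log n / gm δ ^ 2 ≤ ((comp (Gr ω ((1 + δ) / n)) v).card : ℝ) ∧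
      ((comp (Gr ω ((1 + δ) / n)) v).card : ℝ) ≤ xs δ * n} ≤
      ENNReal.ofReal (1 / (n : ℝ) ^ 5) := by
  have hn0 : (0 : ℝ) < n := by exact_mod_cast (by omega : 0 < n)
  have hg := Chern.gm_pos hδ
  have hsub : {ω : Env n | ∃ v, 160 * Real.log n / gm δ ^ 2 ≤
      ((comp (Gr ω ((1 + δ) / n)) v).card : ℝ) ∧
      ((comp (Gr ω ((1 + δ) / n)) v).card : ℝ) ≤ xs δ * n} ⊆
      ⋃ v ∈ (Finset.univ : Finset (Fin n)), ⋃ τ ∈ (Finset.range (n + 1)).filter (fun τ : ℕ => 1 ≤ τ ∧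
        160 * Real.log n / gm δ ^ 2 ≤ (τ : ℝ) ∧ (τ : ℝ) ≤ xs δ * n),
        {ω : Env n | (sat (Gr ω ((1 + δ) / n)) {v}).card = τ} := by
    rintro ω ⟨v, h1, h2⟩
    simp only [Set.mem_iUnion]
    refine ⟨v, Finset.mem_univ v, (comp (Gr ω ((1 + δ) / n)) v).card, ?_, ?_⟩
    · refine Finset.mem_filter.2 ⟨Finset.mem_range.2 ?_, one_le_card_comp _ _, h1, h2⟩
      have := Finset.card_le_univ (comp (Gr ω ((1 + δ) / n)) v)
      rw [Fintype.card_fin] at this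
      omega
    · show (sat (Gr ω ((1 + δ) / n)) {v}).card = _
      rw [sat_singleton]
  refine (measure_mono hsub).trans ?_
  refine (measure_biUnion_finset_le _ _).trans ?_
  have h1 : ∀ v ∈ (Finset.univ : Finset (Fin n)), mu n (⋃ τ ∈ (Finset.range (n + 1)).filter
      (fun τ : ℕ => 1 ≤ τ ∧ 160 * Real.log n / gm δ ^ 2 ≤ (τ : ℝ) ∧ (τ : ℝ) ≤ xs δ * n),
        {ω : Env n | (sat (Gr ω ((1 + δ) / n)) {v}).card = τ}) ≤
        ENNReal.ofReal ((n + 1) * (1 / (n : ℝ) ^ 10)) := by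
    intro v _
    refine (measure_biUnion_finset_le _ _).trans ?_
    have h2 : ∀ τ ∈ (Finset.range (n + 1)).filter (fun τ : ℕ => 1 ≤ τ ∧
        160 * Real.log n / gm δ ^ 2 ≤ (τ : ℝ) ∧ (τ : ℝ) ≤ xs δ * n),
        mu n {ω : Env n | (sat (Gr ω ((1 + δ) / n)) {v}).card = τ} ≤
          ENNReal.ofReal (1 / (n : ℝ) ^ 10) := by
      intro τ hτ
      obtain ⟨-, h3, h4, h5⟩ := Finset.mem_filter.1 hτ
      refine sat_eq_le hn hδ hp {v} (by simp) (by simpa using hn) τ (by simpa using h3) h5 ?_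
      rw [div_le_iff₀ (by positivity)] at h4
      have h6 : 0 ≤ gm δ * (({v} : Finset (Fin n)).card : ℝ) / (4 * (1 + 1.7 * δ)) := by
        positivity
      nlinarith
    refine (Finset.sum_le_sum h2).trans ?_
    rw [Finset.sum_const, nsmul_eq_mul, ENNReal.ofReal_mul (by positivity)]
    refine mul_le_mul' ?_ le_rfl
    rw [← ENNReal.ofReal_natCast]
    apply ENNReal.ofReal_le_ofReal
    have h7 : ((Finset.range (n + 1)).filter (fun τ : ℕ => 1 ≤ τ ∧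
        160 * Real.log n / gm δ ^ 2 ≤ (τ : ℝ) ∧ (τ : ℝ) ≤ xs δ * n)).card ≤ n + 1 :=
      (Finset.card_filter_le _ _).trans (by simp)
    exact_mod_cast h7
  refine (Finset.sum_le_sum h1).trans ?_
  rw [Finset.sum_const, Finset.card_univ, Fintype.card_fin, nsmul_eq_mul,
    ← ENNReal.ofReal_natCast, ← ENNReal.ofReal_mul (by positivity)]
  apply ENNReal.ofReal_le_ofReal
  have hn2 : (2 : ℝ) ≤ n := by exact_mod_cast hn
  rw [mul_one_div, ← mul_div_assoc, div_le_div_iff₀ (by positivity) (by positivity)]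
  have h8 : (n : ℝ) * (n + 1) ≤ (n : ℝ) ^ 5 := by
    have : (n : ℝ) + 1 ≤ n ^ 2 := by nlinarith
    calc (n : ℝ) * (n + 1) ≤ n * n ^ 2 := mul_le_mul_of_nonneg_left this hn0.le
      _ = (n : ℝ) ^ 3 := by ring
      _ ≤ (n : ℝ) ^ 5 := pow_le_pow_right₀ (by linarith) (by norm_num)
  calc (n : ℝ) * (n + 1) * n ^ 5 ≤ (n : ℝ) ^ 5 * n ^ 5 := by gcongr
    _ = 1 * (n : ℝ) ^ 10 := by ring

/-- the components which meet a set `R` of `ℓ` vertices, `ℓ ≥ 40 log n (1+1.7δ)/γ`: their union has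
more than `xs δ * n` vertices -/
theorem sat_large {δ : ℝ} (hn : 2 ≤ n) (hδ : 0 < δ) (hp : (1 + δ) / n ≤ 1) (R : Finset (Fin n))
    (hR : 40 * Real.log n * (1 + 1.7 * δ) / gm δ ≤ R.card) (hR1 : 1 ≤ R.card)
    (hR2 : 2 * R.card ≤ n) :
    mu n {ω | ((sat (Gr ω ((1 + δ) / n)) R).card : ℝ) ≤ xs δ * n} ≤
      ENNReal.ofReal (1 / (n : ℝ) ^ 5) := by
  have hn0 : (0 : ℝ) < n := by exact_mod_cast (by omega : 0 < n)
  have hg := Chern.gm_pos hδ
  have hsub : {ω : Env n | ((sat (Gr ω ((1 + δ) / n)) R).card : ℝ) ≤ xs δ * n} ⊆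
      ⋃ τ ∈ (Finset.range (n + 1)).filter (fun τ : ℕ => R.card ≤ τ ∧ (τ : ℝ) ≤ xs δ * n),
        {ω : Env n | (sat (Gr ω ((1 + δ) / n)) R).card = τ} := by
    intro ω h1
    simp only [Set.mem_iUnion]
    refine ⟨(sat (Gr ω ((1 + δ) / n)) R).card, ?_, rfl⟩
    refine Finset.mem_filter.2 ⟨Finset.mem_range.2 ?_, Finset.card_le_card (subset_sat' _ _), h1⟩
    have := Finset.card_le_univ (sat (Gr ω ((1 + δ) / n)) R)
    rw [Fintype.card_fin] at this
    omega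
  refine (measure_mono hsub).trans ?_
  refine (measure_biUnion_finset_le _ _).trans ?_
  have h2 : ∀ τ ∈ (Finset.range (n + 1)).filter (fun τ : ℕ => R.card ≤ τ ∧
      (τ : ℝ) ≤ xs δ * n),
      mu n {ω : Env n | (sat (Gr ω ((1 + δ) / n)) R).card = τ} ≤
        ENNReal.ofReal (1 / (n : ℝ) ^ 10) := by
    intro τ hτ
    obtain ⟨-, h3, h5⟩ := Finset.mem_filter.1 hτ
    refine sat_eq_le hn hδ hp R hR1 hR2 τ h3 h5 ?_
    have h6 : 0 ≤ gm δ ^ 2 * τ / 16 := by positivity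
    have h7 : 10 * Real.log n ≤ gm δ * R.card / (4 * (1 + 1.7 * δ)) := by
      rw [div_le_iff₀ hg] at hR
      rw [le_div_iff₀ (by positivity)]
      nlinarith
    linarith
  refine (Finset.sum_le_sum h2).trans ?_
  rw [Finset.sum_const, nsmul_eq_mul, ← ENNReal.ofReal_natCast,
    ← ENNReal.ofReal_mul (by positivity)]
  apply ENNReal.ofReal_le_ofReal
  have h7 : ((Finset.range (n + 1)).filter (fun τ : ℕ => R.card ≤ τ ∧
      (τ : ℝ) ≤ xs δ * n)).card ≤ n + 1 :=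
    (Finset.card_filter_le _ _).trans (by simp)
  have h7' : ((((Finset.range (n + 1)).filter (fun τ : ℕ => R.card ≤ τ ∧
      (τ : ℝ) ≤ xs δ * n)).card : ℕ) : ℝ) ≤ (n : ℝ) + 1 := by exact_mod_cast h7
  have hn2 : (2 : ℝ) ≤ n := by exact_mod_cast hn
  rw [mul_one_div, div_le_div_iff₀ (by positivity) (by positivity)]
  have h8 : (n : ℝ) + 1 ≤ (n : ℝ) ^ 5 := by
    have : (n : ℝ) + 1 ≤ n ^ 2 := by nlinarith
    exact this.trans (pow_le_pow_right₀ (by linarith) (by norm_num))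
  calc _ * (n : ℝ) ^ 5 ≤ (n : ℝ) ^ 5 * n ^ 5 := by
        gcongr
        exact h7'.trans h8
    _ = 1 * (n : ℝ) ^ 10 := by ring

/-! ### numerical facts for `giant_low` -/

/-- powers of the logarithm are small -/
theorem ev_log (C : ℝ) (k : ℕ) {s : ℝ} (hs : 0 < s) :
    ∀ᶠ n : ℕ in atTop, C * Real.log n ^ k ≤ (n : ℝ) ^ s := by
  have h1 := (isLittleO_log_rpow_rpow_atTop (k : ℝ) hs).comp_tendsto tendsto_natCast_atTop_atTop
  have h2 := h1.def (c := 1 / (|C| + 1)) (by positivity)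
  filter_upwards [h2, Filter.eventually_ge_atTop 1] with n hn hn1
  have hn1' : (1 : ℝ) ≤ n := by exact_mod_cast hn1
  have hl : 0 ≤ Real.log n := Real.log_nonneg hn1'
  simp only [Function.comp, Real.rpow_natCast] at hn
  rw [Real.norm_of_nonneg (pow_nonneg hl k), Real.norm_of_nonneg (by positivity)] at hn
  have h3 : C * Real.log n ^ k ≤ (|C| + 1) * Real.log n ^ k :=
    mul_le_mul_of_nonneg_right (by linarith [le_abs_self C]) (pow_nonneg hl k)
  refine h3.trans ?_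
  calc (|C| + 1) * Real.log n ^ k ≤ (|C| + 1) * (1 / (|C| + 1) * (n : ℝ) ^ s) :=
        mul_le_mul_of_nonneg_left hn (by positivity)
    _ = (n : ℝ) ^ s := by field_simp

theorem gm_inv_le1 {δ : ℝ} (hδ : 0 < δ) (h1 : δ ≤ 1) : 1 / gm δ ≤ 40 / δ := by
  unfold gm
  rw [one_div_div, div_le_div_iff_of_pos_right hδ]
  nlinarith

theorem gm_inv_le2 {δ : ℝ} (h1 : 1 ≤ δ) : 1 / gm δ ≤ 40 * δ := by
  unfold gm
  rw [one_div_div, div_le_iff₀ (by linarith)]
  nlinarith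

theorem tau_eq (L δ : ℝ) : 160 * L / gm δ ^ 2 = 160 * L * (1 / gm δ) ^ 2 := by
  rw [one_div, inv_pow, div_eq_mul_inv]

theorem tau_le1 {L δ : ℝ} (hL : 1 ≤ L) (hδ : 0 < δ) (h1 : δ ≤ 1) :
    160 * L / gm δ ^ 2 ≤ 256000 * L / δ ^ 2 := by
  rw [tau_eq]
  have h2 : (1 / gm δ) ^ 2 ≤ (40 / δ) ^ 2 :=
    pow_le_pow_left₀ (one_div_nonneg.2 (Chern.gm_pos hδ).le) (gm_inv_le1 hδ h1) 2
  calc 160 * L * (1 / gm δ) ^ 2 ≤ 160 * L * (40 / δ) ^ 2 :=
        mul_le_mul_of_nonneg_left h2 (by linarith)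
    _ = 256000 * L / δ ^ 2 := by rw [div_pow]; ring

theorem tau_le2 {L δ : ℝ} (hL : 1 ≤ L) (h1 : 1 ≤ δ) :
    160 * L / gm δ ^ 2 ≤ 256000 * L * δ ^ 2 := by
  rw [tau_eq]
  have h2 : (1 / gm δ) ^ 2 ≤ (40 * δ) ^ 2 :=
    pow_le_pow_left₀ (one_div_nonneg.2 (Chern.gm_pos (by linarith)).le) (gm_inv_le2 h1) 2
  calc 160 * L * (1 / gm δ) ^ 2 ≤ 160 * L * (40 * δ) ^ 2 :=
        mul_le_mul_of_nonneg_left h2 (by linarith)
    _ = 256000 * L * δ ^ 2 := by ring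

theorem gm_le_one {δ : ℝ} (hδ : 0 < δ) : gm δ ≤ 1 := by
  unfold gm
  rw [div_le_one (by positivity)]
  nlinarith

theorem one_le_tau {L δ : ℝ} (hL : 1 ≤ L) (hδ : 0 < δ) : 1 ≤ 160 * L / gm δ ^ 2 := by
  have h1 := Chern.gm_pos hδ
  have h2 := gm_le_one hδ
  rw [le_div_iff₀ (by positivity)]
  nlinarith

/-- the number of marked vertices -/
def ell (L δ : ℝ) : ℕ := ⌈40 * L * (1 + 1.7 * δ) / gm δ⌉₊ + 1

theorem ell_ge (L δ : ℝ) : 40 * L * (1 + 1.7 * δ) / gm δ ≤ ell L δ := by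
  unfold ell
  push_cast
  have := Nat.le_ceil (40 * L * (1 + 1.7 * δ) / gm δ)
  linarith

theorem ell_le {L δ : ℝ} (hL : 1 ≤ L) (hδ : 0 < δ) :
    (ell L δ : ℝ) ≤ 40 * L * (1 + 1.7 * δ) * (1 / gm δ) + 2 := by
  unfold ell
  push_cast
  have h0 : 0 ≤ 40 * L * (1 + 1.7 * δ) / gm δ := by
    have := Chern.gm_pos hδ
    positivity
  have := (Nat.ceil_lt_add_one h0).le
  rw [mul_one_div]
  linarith

theorem ell_le1 {L δ : ℝ} (hL : 1 ≤ L) (hδ : 0 < δ) (h1 : δ ≤ 1) :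
    (ell L δ : ℝ) ≤ 5000 * L / δ := by
  refine (ell_le hL hδ).trans ?_
  have h2 := gm_inv_le1 hδ h1
  have h0 : 0 ≤ 1 / gm δ := one_div_nonneg.2 (Chern.gm_pos hδ).le
  have h3 : 40 * L * (1 + 1.7 * δ) * (1 / gm δ) ≤ 40 * L * 2.7 * (40 / δ) :=
    mul_le_mul (mul_le_mul_of_nonneg_left (by linarith) (by linarith)) h2 h0 (by positivity)
  have h4 : 1 ≤ L / δ := by rw [le_div_iff₀ hδ]; linarith
  calc 40 * L * (1 + 1.7 * δ) * (1 / gm δ) + 2 ≤ 40 * L * 2.7 * (40 / δ) + 2 * (L / δ) := by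
        linarith
    _ = 4322 * (L / δ) := by ring
    _ ≤ 5000 * (L / δ) := by linarith
    _ = 5000 * L / δ := by ring

theorem ell_le2 {L δ : ℝ} (hL : 1 ≤ L) (h1 : 1 ≤ δ) :
    (ell L δ : ℝ) ≤ 5000 * L * δ ^ 2 := by
  refine (ell_le hL (by linarith)).trans ?_
  have h2 := gm_inv_le2 h1
  have h3 : 40 * L * (1 + 1.7 * δ) * (1 / gm δ) ≤ 40 * L * (2.7 * δ) * (40 * δ) := by
    have : 0 ≤ 1 / gm δ := one_div_nonneg.2 (Chern.gm_pos (by linarith)).le
    gcongr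
    linarith
  have h4 : 1 ≤ L * δ ^ 2 := by nlinarith [one_le_pow₀ h1 (n := 2)]
  nlinarith

theorem xs_ge1 {δ : ℝ} (hδ : 0 < δ) (h1 : δ ≤ 1) : δ / 2 ≤ xs δ := by
  unfold xs
  rw [div_le_div_iff₀ (by norm_num) (by positivity)]
  nlinarith

theorem xs_ge2 {δ : ℝ} (h1 : 1 ≤ δ) : 1 / 2 ≤ xs δ := by
  unfold xs
  rw [div_le_div_iff₀ (by norm_num) (by positivity)]
  nlinarith

theorem thr_le_xs {δ : ℝ} (hδ : 0 < δ) (n : ℕ) : thr n δ ≤ xs δ * n := by
  unfold thr xs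
  rw [div_mul_eq_mul_div]
  rw [div_le_div_iff₀ (by positivity) (by positivity)]
  have h0 : 1 + 1.7 * δ ≤ 34 * (1 + δ) ^ 2 := by nlinarith
  have h1 : δ * (1 + 1.7 * δ) ≤ 1.7 * δ * (20 * (1 + δ) ^ 2) := by
    calc δ * (1 + 1.7 * δ) ≤ δ * (34 * (1 + δ) ^ 2) := mul_le_mul_of_nonneg_left h0 hδ.le
      _ = 1.7 * δ * (20 * (1 + δ) ^ 2) := by ring
  have hn : (0 : ℝ) ≤ n := Nat.cast_nonneg n
  nlinarith

theorem num1 {L δ N : ℝ} (hL : 1 ≤ L) (hδ : 0 < δ) (h1 : δ ≤ 1)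
    (hN : 10 ^ 14 * L ^ 6 ≤ δ ^ 3 * N) :
    160 * L / gm δ ^ 2 ≤ δ * N / (20 * (1 + δ) ^ 2) ∧ 2 * (ell L δ : ℝ) ≤ N ∧ 1 ≤ δ * N ∧
    (ell L δ : ℝ) * (2000 * Real.sqrt (160 * L / gm δ ^ 2) + 1000 * δ * (160 * L / gm δ ^ 2)) ≤
      1 / (2 * L ^ 4) * (xs δ * N) := by
  have hL6 : 1 ≤ L ^ 6 := one_le_pow₀ hL
  have hLL6 : L ≤ L ^ 6 := by
    calc L = L ^ 1 := (pow_one L).symm
      _ ≤ L ^ 6 := pow_le_pow_right₀ hL (by norm_num)
  have hN0 : 0 < N := by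
    by_contra h
    push Not at h
    have : δ ^ 3 * N ≤ 0 := mul_nonpos_of_nonneg_of_nonpos (by positivity) h
    nlinarith
  have hdN : δ ^ 3 * N ≤ δ * N := by
    have : δ ^ 3 ≤ δ := by
      calc δ ^ 3 = δ * (δ * δ) := by ring
        _ ≤ δ * 1 := mul_le_mul_of_nonneg_left (by nlinarith) hδ.le
        _ = δ := mul_one δ
    exact mul_le_mul_of_nonneg_right this hN0.le
  have hτ := tau_le1 hL hδ h1
  have hl := ell_le1 hL hδ h1
  have hl0 : (0 : ℝ) ≤ ell L δ := Nat.cast_nonneg _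
  have hτ1 := one_le_tau hL hδ
  refine ⟨?_, ?_, by linarith, ?_⟩
  · have h3 : 256000 * L / δ ^ 2 ≤ δ * N / 80 := by
      rw [div_le_div_iff₀ (by positivity) (by norm_num)]
      have : δ * N * δ ^ 2 = δ ^ 3 * N := by ring
      rw [this]
      linarith
    refine hτ.trans (h3.trans ?_)
    apply div_le_div_of_nonneg_left (by positivity) (by positivity)
    nlinarith
  · have h3 : 5000 * L / δ ≤ N / 2 := by
      rw [div_le_div_iff₀ hδ (by norm_num)]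
      nlinarith
    linarith
  · have hs : Real.sqrt (160 * L / gm δ ^ 2) ≤ 506 * (L / δ) := by
      apply Real.sqrt_le_iff.2
      refine ⟨by positivity, hτ.trans ?_⟩
      calc 256000 * L / δ ^ 2 ≤ 256036 * (L * L) / δ ^ 2 := by
            apply div_le_div_of_nonneg_right _ (by positivity)
            nlinarith
        _ = (506 * (L / δ)) ^ 2 := by rw [mul_pow, div_pow]; ring
    have h3 : 2000 * Real.sqrt (160 * L / gm δ ^ 2) + 1000 * δ * (160 * L / gm δ ^ 2) ≤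
        257012000 * (L / δ) := by
      have h4 : 1000 * δ * (160 * L / gm δ ^ 2) ≤ 1000 * δ * (256000 * L / δ ^ 2) :=
        mul_le_mul_of_nonneg_left hτ (by positivity)
      have h5 : 1000 * δ * (256000 * L / δ ^ 2) = 256000000 * (L / δ) := by
        field_simp
        norm_num
      linarith
    have h6 : (ell L δ : ℝ) *
        (2000 * Real.sqrt (160 * L / gm δ ^ 2) + 1000 * δ * (160 * L / gm δ ^ 2)) ≤
        (5000 * (L / δ)) * (257012000 * (L / δ)) := by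
      refine mul_le_mul ?_ h3 (by positivity) (by positivity)
      rw [← mul_div_assoc]
      exact hl
    refine h6.trans ?_
    have h7 : 1 / (2 * L ^ 4) * (δ / 2 * N) ≤ 1 / (2 * L ^ 4) * (xs δ * N) := by
      have := xs_ge1 hδ h1
      gcongr
    refine le_trans ?_ h7
    have h8 : (5000 * (L / δ)) * (257012000 * (L / δ)) = 1285060000000 * L ^ 2 / δ ^ 2 := by
      field_simp
      norm_num
    have h9 : 1 / (2 * L ^ 4) * (δ / 2 * N) = δ * N / (4 * L ^ 4) := by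
      field_simp
      norm_num
    rw [h8, h9, div_le_div_iff₀ (by positivity) (by positivity)]
    have h10 : δ * N * δ ^ 2 = δ ^ 3 * N := by ring
    rw [h10]
    nlinarith

theorem num2 {L δ N B : ℝ} (hL : 1 ≤ L) (h1 : 1 ≤ δ) (hB : 1 ≤ B) (hδB : δ ≤ B * L)
    (hN : 10 ^ 14 * B ^ 8 * L ^ 12 ≤ N) :
    160 * L / gm δ ^ 2 ≤ δ * N / (20 * (1 + δ) ^ 2) ∧ 2 * (ell L δ : ℝ) ≤ N ∧ 1 + δ ≤ N ∧
    (ell L δ : ℝ) * (160 * L / gm δ ^ 2) ≤ 1 / (2 * L ^ 4) * (xs δ * N) := by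
  have hδ0 : 0 < δ := by linarith
  have hτ := tau_le2 hL h1
  have hl := ell_le2 hL h1
  have hl0 : (0 : ℝ) ≤ ell L δ := Nat.cast_nonneg _
  have hτ1 := one_le_tau hL hδ0
  have hBL : 1 ≤ B * L := by nlinarith
  -- `δ^4 L^6 ≤ B^8 L^12`
  have hk : ∀ i j : ℕ, i ≤ 8 → j + i ≤ 12 → δ ^ i * L ^ j ≤ B ^ 8 * L ^ 12 := by
    intro i j hi hj
    calc δ ^ i * L ^ j ≤ (B * L) ^ i * L ^ j := by gcongr
      _ = B ^ i * L ^ (j + i) := by rw [mul_pow, pow_add]; ring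
      _ ≤ B ^ 8 * L ^ 12 := mul_le_mul (pow_le_pow_right₀ hB hi) (pow_le_pow_right₀ hL hj)
          (by positivity) (by positivity)
  have hN0 : 0 < N := by
    have : 0 < 10 ^ 14 * B ^ 8 * L ^ 12 := by positivity
    linarith
  refine ⟨?_, ?_, ?_, ?_⟩
  · have h3 : 256000 * L * δ ^ 2 ≤ N / (80 * δ) := by
      rw [le_div_iff₀ (by positivity)]
      have := hk 3 1 (by norm_num) (by norm_num)
      calc 256000 * L * δ ^ 2 * (80 * δ) = 20480000 * (δ ^ 3 * L ^ 1) := by ring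
        _ ≤ 10 ^ 14 * B ^ 8 * L ^ 12 := by nlinarith
        _ ≤ N := hN
    refine hτ.trans (h3.trans ?_)
    rw [div_le_div_iff₀ (by positivity) (by positivity)]
    have h4 : (1 + δ) ^ 2 ≤ 4 * δ ^ 2 := by nlinarith
    nlinarith [mul_le_mul_of_nonneg_left h4 hN0.le]
  · have h3 : 5000 * L * δ ^ 2 ≤ N / 2 := by
      have := hk 2 1 (by norm_num) (by norm_num)
      nlinarith
    linarith
  · have := hk 1 0 (by norm_num) (by norm_num)
    nlinarith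
  · have h6 : (ell L δ : ℝ) * (160 * L / gm δ ^ 2) ≤
        (5000 * L * δ ^ 2) * (256000 * L * δ ^ 2) :=
      mul_le_mul hl hτ (by positivity) (by positivity)
    refine h6.trans ?_
    have h7 : 1 / (2 * L ^ 4) * (1 / 2 * N) ≤ 1 / (2 * L ^ 4) * (xs δ * N) := by
      have := xs_ge2 h1
      gcongr
    refine le_trans ?_ h7
    have h9 : 1 / (2 * L ^ 4) * (1 / 2 * N) = N / (4 * L ^ 4) := by
      field_simp
      norm_num
    rw [h9, le_div_iff₀ (by positivity)]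
    have := hk 4 6 (by norm_num) (by norm_num)
    calc (5000 * L * δ ^ 2) * (256000 * L * δ ^ 2) * (4 * L ^ 4) =
        5120000000 * (δ ^ 4 * L ^ 6) := by ring
      _ ≤ 10 ^ 14 * B ^ 8 * L ^ 12 := by
          have h0 : 0 ≤ B ^ 8 * L ^ 12 := by positivity
          nlinarith
      _ ≤ N := hN

/-- Markov's inequality for truncated components -/
theorem trunc_markov {τ₀ X E : ℝ} (p : ℝ) (R : Finset (Fin n)) (hX : 0 < X) (hE0 : 0 ≤ E)
    (hE : ∀ v, ∫⁻ ω, (if ((comp (Gr ω p) v).card : ℝ) ≤ τ₀ then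
      ((comp (Gr ω p) v).card : ℝ≥0∞) else 0) ∂(mu n) ≤ ENNReal.ofReal E) :
    mu n {ω | X ≤ ∑ r ∈ R, if ((comp (Gr ω p) r).card : ℝ) ≤ τ₀ then
      ((comp (Gr ω p) r).card : ℝ) else 0} ≤ ENNReal.ofReal (R.card * E / X) := by
  have hm : ∀ r : Fin n, Measurable fun ω : Env n =>
      (if ((comp (Gr ω p) r).card : ℝ) ≤ τ₀ then ((comp (Gr ω p) r).card : ℝ≥0∞) else 0) :=
    fun r => ((levDep_comp p r).comp fun C : Finset (Fin n) =>
      (if ((C.card : ℕ) : ℝ) ≤ τ₀ then ((C.card : ℕ) : ℝ≥0∞) else 0)).measurable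
  have hmeas : Measurable fun ω : Env n => ∑ r ∈ R,
      (if ((comp (Gr ω p) r).card : ℝ) ≤ τ₀ then ((comp (Gr ω p) r).card : ℝ≥0∞) else 0) :=
    Finset.measurable_fun_sum _ fun r _ => hm r
  have h1 : mu n {ω | X ≤ ∑ r ∈ R, if ((comp (Gr ω p) r).card : ℝ) ≤ τ₀ then
      ((comp (Gr ω p) r).card : ℝ) else 0} ≤
      (∫⁻ ω, ∑ r ∈ R, (if ((comp (Gr ω p) r).card : ℝ) ≤ τ₀ then
        ((comp (Gr ω p) r).card : ℝ≥0∞) else 0) ∂(mu n)) / ENNReal.ofReal X := by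
    refine le_trans (measure_mono ?_) (meas_ge_le_lintegral_div hmeas.aemeasurable
      (by simpa using hX) ENNReal.ofReal_ne_top)
    intro ω hω
    have h2 : X ≤ ∑ r ∈ R, if ((comp (Gr ω p) r).card : ℝ) ≤ τ₀ then
      ((comp (Gr ω p) r).card : ℝ) else 0 := hω
    show ENNReal.ofReal X ≤ ∑ r ∈ R, (if ((comp (Gr ω p) r).card : ℝ) ≤ τ₀ then
        ((comp (Gr ω p) r).card : ℝ≥0∞) else 0)
    refine (ENNReal.ofReal_le_ofReal h2).trans (le_of_eq ?_)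
    rw [ENNReal.ofReal_sum_of_nonneg fun r _ => by split_ifs <;> positivity]
    refine Finset.sum_congr rfl fun r _ => ?_
    split_ifs
    · rw [ENNReal.ofReal_natCast]
    · rw [ENNReal.ofReal_zero]
  refine h1.trans ?_
  rw [ENNReal.ofReal_div_of_pos hX]
  refine ENNReal.div_le_div_right ?_ _
  rw [lintegral_finsetSum _ fun r _ => hm r]
  refine (Finset.sum_le_sum fun r _ => hE r).trans ?_
  rw [Finset.sum_const, nsmul_eq_mul, ENNReal.ofReal_mul (Nat.cast_nonneg _),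
    ENNReal.ofReal_natCast]

theorem glo_of {δ τ₀ : ℝ} (hδ : 0 < δ) {ω : Env n} (R : Finset (Fin n)) (hτ : τ₀ ≤ thr n δ)
    (hA : ∀ v, τ₀ ≤ ((comp (Gr ω ((1 + δ) / n)) v).card : ℝ) →
      xs δ * n < ((comp (Gr ω ((1 + δ) / n)) v).card : ℝ))
    (hB : xs δ * n < ((sat (Gr ω ((1 + δ) / n)) R).card : ℝ))
    (hC : (∑ r ∈ R, if ((comp (Gr ω ((1 + δ) / n)) r).card : ℝ) ≤ τ₀ then
      ((comp (Gr ω ((1 + δ) / n)) r).card : ℝ) else 0) < xs δ * n) : GLo n δ ω := by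
  constructor
  · obtain ⟨r, hr, hr1⟩ : ∃ r ∈ R, τ₀ < ((comp (Gr ω ((1 + δ) / n)) r).card : ℝ) := by
      by_contra h
      push Not at h
      have h1 : ((sat (Gr ω ((1 + δ) / n)) R).card : ℝ) ≤
          ∑ r ∈ R, if ((comp (Gr ω ((1 + δ) / n)) r).card : ℝ) ≤ τ₀ then
            ((comp (Gr ω ((1 + δ) / n)) r).card : ℝ) else 0 := by
        rw [sat_eq_biUnion]
        have h2 : (R.biUnion fun r => comp (Gr ω ((1 + δ) / n)) r).card ≤
            ∑ r ∈ R, (comp (Gr ω ((1 + δ) / n)) r).card := Finset.card_biUnion_le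
        have h3 : ((R.biUnion fun r => comp (Gr ω ((1 + δ) / n)) r).card : ℝ) ≤
            ∑ r ∈ R, ((comp (Gr ω ((1 + δ) / n)) r).card : ℝ) := by exact_mod_cast h2
        refine h3.trans (le_of_eq (Finset.sum_congr rfl fun r hr => ?_))
        rw [if_pos (h r hr)]
      linarith
    have h2 := hA r hr1.le
    refine ⟨r, Finset.mem_filter.2 ⟨Finset.mem_univ _, ?_⟩⟩
    exact (thr_le_xs hδ n).trans_lt h2
  · intro v hv
    have h1 : thr n δ < ((comp (Gr ω ((1 + δ) / n)) v).card : ℝ) := (Finset.mem_filter.1 hv).2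
    exact hA v (hτ.trans h1.le)

/-- **giant component, lower bound**. If no component has more than `thr` vertices then (by `gap`)
all components have at most `τ₀ = 160 log n/γ²` vertices; take `R` with
`ℓ = ⌈40 log n (1+1.7δ)/γ⌉ + 1` elements; `sat R` has more than `xs δ * n` vertices, but is a union
of components with at most `τ₀` vertices, and the expected number of vertices of these components is
at most `ℓ * (2000 √τ₀ + 1000 δ τ₀)` (`surv_trunc`, if `δ ≤ 1`), `≤ ℓ τ₀` if `δ > 1`. The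
ratio to `xs δ * n` is at most `polylog/(δ³ n)` if `δ ≤ 1` (`polylog/n` if `δ > 1`), and
`δ³ n ≥ n^{3c}`. Note `τ₀ ≤ thr n δ` for `n` large. -/
theorem giant_low (c A₂ : ℝ) (hc : 0 < c) (hc1 : c ≤ 1 / 3) (hA : 0 < A₂) :
    ∃ n₀ : ℕ, ∀ n ≥ n₀, ∀ δ, Rng n c A₂ δ →
      mu n {ω | ¬ GLo n δ ω} ≤ ENNReal.ofReal (1 / Real.log n ^ 4) := by
  have e1 := ev_log (10 ^ 14) 6 (s := 3 * c) (by positivity)
  have e2 := ev_log (10 ^ 14 * (1 + A₂) ^ 8) 12 (s := 1) one_pos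
  have e3 := ev_log 4 4 (s := 1) one_pos
  have e4 : ∀ᶠ n : ℕ in atTop, 1 ≤ Real.log n :=
    (Real.tendsto_log_atTop.comp tendsto_natCast_atTop_atTop).eventually_ge_atTop 1
  obtain ⟨n₀, h₀⟩ := Filter.eventually_atTop.1 (e1.and (e2.and (e3.and
    (e4.and (Filter.eventually_ge_atTop 4)))))
  refine ⟨n₀, fun n hn δ hδ => ?_⟩
  obtain ⟨h1, h2, h3, hL, hn4⟩ := h₀ n hn
  obtain ⟨hd1, hd2⟩ := hδ
  rw [Real.rpow_one] at h2 h3
  set L := Real.log n with hLdef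
  have hn0 : (0 : ℝ) < n := by exact_mod_cast (by omega : 0 < n)
  have hn1 : (1 : ℝ) ≤ n := by exact_mod_cast (by omega : 1 ≤ n)
  have hn4' : (4 : ℝ) ≤ n := by exact_mod_cast hn4
  have hδ0 : 0 < δ := lt_of_lt_of_le (Real.rpow_pos_of_pos hn0 _) hd1
  have hL4 : 1 ≤ L ^ 4 := one_le_pow₀ hL
  -- numerical facts
  have hnum : 160 * L / gm δ ^ 2 ≤ thr n δ ∧ 2 * (ell L δ : ℝ) ≤ n ∧ (1 + δ) / n ≤ 1 ∧
      ∃ E : ℝ, 0 ≤ E ∧ (∀ v : Fin n, ∫⁻ ω, (if ((comp (Gr ω ((1 + δ) / n)) v).card : ℝ) ≤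
        160 * L / gm δ ^ 2 then ((comp (Gr ω ((1 + δ) / n)) v).card : ℝ≥0∞) else 0) ∂(mu n) ≤
        ENNReal.ofReal E) ∧ (ell L δ : ℝ) * E ≤ 1 / (2 * L ^ 4) * (xs δ * n) := by
    rcases le_or_gt δ 1 with h5 | h5
    · -- `δ ≤ 1`
      have hN : 10 ^ 14 * L ^ 6 ≤ δ ^ 3 * n := by
        have h6 : ((n : ℝ) ^ (-(1 / 3 : ℝ) + c)) ^ 3 ≤ δ ^ 3 :=
          pow_le_pow_left₀ (by positivity) hd1 3
        have h7 : ((n : ℝ) ^ (-(1 / 3 : ℝ) + c)) ^ 3 * n = (n : ℝ) ^ (3 * c) := by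
          rw [← Real.rpow_natCast, ← Real.rpow_mul hn0.le]
          nth_rewrite 2 [← Real.rpow_one (n : ℝ)]
          rw [← Real.rpow_add hn0]
          congr 1
          push_cast
          ring
        calc 10 ^ 14 * L ^ 6 ≤ (n : ℝ) ^ (3 * c) := h1
          _ = ((n : ℝ) ^ (-(1 / 3 : ℝ) + c)) ^ 3 * n := h7.symm
          _ ≤ δ ^ 3 * n := mul_le_mul_of_nonneg_right h6 hn0.le
      obtain ⟨a1, a2, a3, a4⟩ := num1 hL hδ0 h5 hN
      refine ⟨a1, a2, ?_, _, ?_, ?_, a4⟩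
      · rw [div_le_one hn0]; linarith
      · have : 0 ≤ 160 * L / gm δ ^ 2 := by positivity
        positivity
      · intro v
        exact surv_trunc (by omega) (by rw [div_le_iff₀ hn0]; exact a3) h5
          (one_le_tau hL hδ0) v
    · -- `δ > 1`
      obtain ⟨a1, a2, a3, a4⟩ := num2 (B := 1 + A₂) hL h5.le (by linarith)
        (hd2.trans (mul_le_mul_of_nonneg_right (by linarith) (by linarith))) h2
      refine ⟨a1, a2, ?_, _, ?_, ?_, a4⟩
      · rw [div_le_one hn0]; exact a3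
      · positivity
      · intro v
        calc ∫⁻ ω, (if ((comp (Gr ω ((1 + δ) / n)) v).card : ℝ) ≤
              160 * L / gm δ ^ 2 then ((comp (Gr ω ((1 + δ) / n)) v).card : ℝ≥0∞) else 0) ∂(mu n)
            ≤ ∫⁻ _, ENNReal.ofReal (160 * L / gm δ ^ 2) ∂(mu n) := by
              refine lintegral_mono fun ω => ?_
              split_ifs with h
              · rw [← ENNReal.ofReal_natCast]
                exact ENNReal.ofReal_le_ofReal h
              · exact zero_le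
          _ = ENNReal.ofReal (160 * L / gm δ ^ 2) := by simp
  obtain ⟨b1, b2, b3, E, b4, b5, b6⟩ := hnum
  -- the marked vertices
  have hell : ell L δ ≤ (Finset.univ : Finset (Fin n)).card := by
    rw [Finset.card_univ, Fintype.card_fin]
    have h6 : (ell L δ : ℝ) ≤ n := by
      have : (0 : ℝ) ≤ ell L δ := Nat.cast_nonneg _
      linarith
    exact_mod_cast h6
  obtain ⟨R, -, hR⟩ := Finset.exists_subset_card_eq hell
  have hR1 : 1 ≤ R.card := by rw [hR]; unfold ell; omega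
  have hR2 : 2 * R.card ≤ n := by
    rw [hR]
    exact_mod_cast b2
  have hX : 0 < xs δ * n := mul_pos (Chern.xs_pos hδ0) hn0
  have pA := gap (n := n) (δ := δ) (by omega) hδ0 b3
  have pB := sat_large (n := n) (δ := δ) (by omega) hδ0 b3 R (by rw [hR]; exact ell_ge L δ)
    hR1 hR2
  have pC := trunc_markov ((1 + δ) / n) R hX b4 b5
  have hsub : {ω : Env n | ¬ GLo n δ ω} ⊆
      ({ω | ∃ v, 160 * Real.log n / gm δ ^ 2 ≤ ((comp (Gr ω ((1 + δ) / n)) v).card : ℝ) ∧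
        ((comp (Gr ω ((1 + δ) / n)) v).card : ℝ) ≤ xs δ * n} ∪
      {ω | ((sat (Gr ω ((1 + δ) / n)) R).card : ℝ) ≤ xs δ * n}) ∪
      {ω | xs δ * n ≤ ∑ r ∈ R, if ((comp (Gr ω ((1 + δ) / n)) r).card : ℝ) ≤
        160 * L / gm δ ^ 2 then ((comp (Gr ω ((1 + δ) / n)) r).card : ℝ) else 0} := by
    intro ω hω
    by_contra hcon
    simp only [Set.mem_union, Set.mem_ofPred_eq, not_or, not_exists, not_and, not_le] at hcon
    obtain ⟨⟨c1, c2⟩, c3⟩ := hcon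
    exact hω (glo_of hδ0 R b1 (fun v hv => c1 v hv) c2 c3)
  refine (measure_mono hsub).trans ((measure_union_le _ _).trans ?_)
  refine (add_le_add ((measure_union_le _ _).trans (add_le_add pA pB)) pC).trans ?_
  rw [← ENNReal.ofReal_add (by positivity) (by positivity), ← ENNReal.ofReal_add (by positivity)
    (by have := Nat.cast_nonneg (α := ℝ) R.card; positivity)]
  apply ENNReal.ofReal_le_ofReal
  have h7 : (R.card : ℝ) * E / (xs δ * n) ≤ 1 / (2 * L ^ 4) := by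
    rw [div_le_iff₀ hX, hR]
    exact b6
  have h8 : 1 / (n : ℝ) ^ 5 ≤ 1 / (4 * L ^ 4) := by
    apply one_div_le_one_div_of_le (by positivity)
    refine h3.trans ?_
    calc (n : ℝ) = (n : ℝ) ^ 1 := (pow_one _).symm
      _ ≤ (n : ℝ) ^ 5 := pow_le_pow_right₀ hn1 (by norm_num)
  have h9 : 1 / (4 * L ^ 4) + 1 / (4 * L ^ 4) + 1 / (2 * L ^ 4) = 1 / L ^ 4 := by
    field_simp
    norm_num
  linarith

/-- **giant component, upper bound**: `E |bigC| ≤ n (1000/√thr + 1000 δ) ≤ 11000 δ n`, Markov -/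
theorem giant_upp (c A₂ : ℝ) (hc : 0 < c) (hc1 : c ≤ 1 / 3) :
    ∃ n₀ : ℕ, ∀ n ≥ n₀, ∀ δ, Rng n c A₂ δ →
      mu n {ω | Real.log n ^ 5 * db δ * n <
        ((bigC (Gr ω ((1 + δ) / n)) (thr n δ)).card : ℝ)} ≤
        ENNReal.ofReal (1 / Real.log n ^ 4) :=
  giant_upp' c A₂ hc hc1

end RST
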