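import Pool.Agent.Work.MP_5ba30e_pr.FinalB_M5
import Pool.Agent.Work.MP_5ba30e_pr.FinalB_AB_prob
import Pool.Agent.Work.MP_5ba30e_pr.FinalB_ball_of_E3
import Pool.Agent.Work.MP_5ba30e_pr.ERgood
import Pool.Agent.Work.MP_5ba30e_pr.Giant

/-!
# reg_B : asymptotic assembly in the intermediate regime
-/

open MeasureTheory Set Filter Finset
open scoped ENNReal Topology Classical

noncomputable section

namespace RST

theorem regB.exp_small {s : ℝ} (hs : 0 < s) {η : ℝ} (hη : 0 < η) (m : ℕ) :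
    ∀ᶠ n : ℕ in atTop, (n : ℝ) ^ m * Real.exp (-((n : ℝ) ^ s)) ≤ η := by
  have h1 : Tendsto (fun x : ℝ => x ^ (m / s) * Real.exp (-x)) atTop (𝓝 0) := by
    have := tendsto_rpow_mul_exp_neg_mul_atTop_nhds_zero (m / s) 1 one_pos
    simpa using this
  have h2 : Tendsto (fun n : ℕ => (n : ℝ) ^ s) atTop atTop :=
    (tendsto_rpow_atTop hs).comp tendsto_natCast_atTop_atTop
  have h3 := (h1.comp h2).eventually_le_const hη
  filter_upwards [h3] with n hn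
  simp only [Function.comp] at hn
  rw [← Real.rpow_mul (Nat.cast_nonneg n), mul_div_cancel₀ _ hs.ne', Real.rpow_natCast] at hn
  exact hn

theorem regB.rpow_small {s : ℝ} (hs : 0 < s) {η : ℝ} (hη : 0 < η) (C : ℝ) :
    ∀ᶠ n : ℕ in atTop, C * (n : ℝ) ^ (-s) ≤ η := by
  have h1 : Tendsto (fun n : ℕ => C * (n : ℝ) ^ (-s)) atTop (𝓝 (C * 0)) :=
    ((tendsto_rpow_neg_atTop hs).comp tendsto_natCast_atTop_atTop).const_mul C
  rw [mul_zero] at h1
  exact h1.eventually_le_const hη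

theorem dl_succ' (δ₀ : ℝ) (j : ℕ) : dl δ₀ (j + 1) = 6 / 5 * dl δ₀ j := by
  unfold dl
  ring

theorem dl_mono' {δ₀ : ℝ} (h : 0 ≤ δ₀) {i j : ℕ} (hij : i ≤ j) : dl δ₀ i ≤ dl δ₀ j := by
  unfold dl
  exact mul_le_mul_of_nonneg_left (pow_le_pow_right₀ (by norm_num) hij) h

/-- choice of the number of levels -/
theorem regB.exists_J {δ₀ L D : ℝ} (hδ : 0 < δ₀) (hL : 0 < L) (jX : ℕ) (hD : δ₀ ≤ D * L) :
    ∃ J, jX ≤ J ∧ 12 * L ≤ dl δ₀ J ∧ dl δ₀ J ≤ max 15 ((6 / 5) ^ jX * D) * L := by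
  have hex : ∃ J, 12 * L ≤ dl δ₀ J := by
    obtain ⟨J, hJ⟩ := pow_unbounded_of_one_lt (12 * L / δ₀) (show (1 : ℝ) < 6 / 5 by norm_num)
    refine ⟨J, ?_⟩
    unfold dl
    rw [div_lt_iff₀ hδ] at hJ
    linarith
  have hX : dl δ₀ jX ≤ (6 / 5) ^ jX * D * L := by
    unfold dl
    have := mul_le_mul_of_nonneg_left hD (show (0 : ℝ) ≤ (6 / 5) ^ jX by positivity)
    linarith
  have hX' : (6 / 5 : ℝ) ^ jX * D * L ≤ max 15 ((6 / 5) ^ jX * D) * L :=
    mul_le_mul_of_nonneg_right (le_max_right _ _) hL.le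
  rcases le_total (12 * L) (dl δ₀ jX) with h | h
  · exact ⟨jX, le_rfl, h, hX.trans hX'⟩
  · have hfs := Nat.find_spec hex
    have hJX : jX ≤ Nat.find hex := by
      by_contra hlt
      push Not at hlt
      have h1 := dl_mono' hδ.le hlt.le
      have h2 : dl δ₀ (Nat.find hex) < dl δ₀ jX := by
        unfold dl
        exact mul_lt_mul_of_pos_left (pow_lt_pow_right₀ (by norm_num) hlt) hδ
      linarith
    refine ⟨Nat.find hex, hJX, hfs, ?_⟩
    rcases Nat.eq_zero_or_pos (Nat.find hex) with h0 | h0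
    · have : jX = 0 := by omega
      subst this
      rw [h0]
      exact hX.trans hX'
    · obtain ⟨m, hm⟩ := Nat.exists_eq_succ_of_ne_zero h0.ne'
      have h3 : ¬ 12 * L ≤ dl δ₀ m := Nat.find_min hex (by omega)
      push Not at h3
      have h4 : dl δ₀ (Nat.find hex) = 6 / 5 * dl δ₀ m := by
        rw [hm, Nat.succ_eq_add_one, dl_succ']
      rw [h4]
      have h5 : 15 * L ≤ max 15 ((6 / 5) ^ jX * D) * L :=
        mul_le_mul_of_nonneg_right (le_max_left _ _) hL.le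
      linarith

theorem reg_B (δ' l κ₀ : ℝ) (hδ : 0 < δ') (hδ1 : δ' ≤ 1) (hl : 0 < l) (hl1 : l ≤ 1)
    (hκ : 0 < κ₀) : ∀ η : ℝ, 0 < η → ∃ n₀ : ℕ, ∀ n ≥ n₀, ∀ β : ℝ, κ₀ * n ≤ β →
      β ≤ n * (n : ℝ) ^ (1 / 3 - δ' / 16) →
      EE β (fun _ T => ((Finset.univ.filter fun v : Fin n =>
        (ballT T v (l * T.diam) : ℝ) < (n : ℝ) ^ (1 - δ')).card : ℝ≥0∞) / n) ≤
        ENNReal.ofReal η := by
  intro η hη
  set c : ℝ := δ' / 16 with hc
  have hc0 : 0 < c := by positivity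
  have hc1 : c ≤ 1 / 16 := by rw [hc]; linarith
  obtain ⟨a, ha0, ha1, nE, hE⟩ := engine (c / 2) l (by linarith) (by linarith) hl hl1
  have ha2 : a ≤ c / 32 := by linarith
  set aB : ℝ := a / 8 with haB
  have haB0 : 0 < aB := by positivity
  obtain ⟨jx, hjx⟩ := pow_unbounded_of_one_lt (1 + 8 / aB) (show (1 : ℝ) < 6 / 5 by norm_num)
  obtain ⟨jX, hjX⟩ := pow_unbounded_of_one_lt ((6 / 5) ^ jx + 8 / aB)
    (show (1 : ℝ) < 6 / 5 by norm_num)
  have h8aB : 0 < 8 / aB := by positivity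
  have hjxX : jx ≤ jX := by
    by_contra h
    push Not at h
    have := pow_le_pow_right₀ (show (1 : ℝ) ≤ 6 / 5 by norm_num) h.le
    linarith
  set B : ℝ := max (max 1 (2 / aB)) ((6 / 5) ^ jX) with hB
  have hB1 : 1 ≤ B := (le_max_left _ _).trans (le_max_left _ _)
  have hB2 : 2 / aB ≤ B := (le_max_right _ _).trans (le_max_left _ _)
  have hB3 : (6 / 5 : ℝ) ^ jX ≤ B := le_max_right _ _
  set A₂ : ℝ := max 15 ((6 / 5) ^ jX * (aB / κ₀)) with hA₂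
  have hA0 : 0 < A₂ := lt_of_lt_of_le (by norm_num) (le_max_left _ _)
  obtain ⟨nL, hLv⟩ := levels_le (c / 2) A₂ (by linarith) hA0
  obtain ⟨nG, hG⟩ := er_good (c / 2) B A₂ (by linarith) (by linarith) hB1 hA0 (η / 16)
    (by positivity)
  have hev : ∀ᶠ n : ℕ in atTop, (1 ≤ Real.log n ∧ 1 / aB ≤ Real.log n ∧ 2 ≤ n) ∧
      (4 * Real.log n ^ 10 ≤ (n : ℝ) ^ (3 * a / 4) ∧ 2 * Real.log n ^ 0 ≤ (n : ℝ) ^ a) ∧
      ((6 / 5) ^ jx * Real.log n ^ 20 ≤ (n : ℝ) ^ a ∧ 300 * Real.log n ^ 41 ≤ (n : ℝ) ^ a ∧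
        10 * Real.log n ^ 20 ≤ (n : ℝ) ^ a) ∧
      (8 * (n : ℝ) ^ (-(c / 4 - 2 * a)) ≤ 1 ∧ 8 * Real.log n ^ 20 ≤ (n : ℝ) ^ (2 / 3 + c / 2)) ∧
      (1 * (n : ℝ) ^ (-a) ≤ η / 8 ∧ 2 * (n : ℝ) ^ (-(4 : ℝ)) ≤ η / 8 ∧
        (n : ℝ) ^ 2 * Real.exp (-((n : ℝ) ^ a)) ≤ η / 8 ∧
        (n : ℝ) ^ 0 * Real.exp (-((n : ℝ) ^ (c / 4 - a))) ≤ η / 8) ∧
      2 * (8 / l + 3) * (n : ℝ) ^ (-(δ' - c / 4)) ≤ η / 8 := by
    have hlog : Tendsto (fun n : ℕ => Real.log n) atTop atTop :=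
      Real.tendsto_log_atTop.comp tendsto_natCast_atTop_atTop
    refine ((hlog.eventually_ge_atTop 1).and ((hlog.eventually_ge_atTop (1 / aB)).and
      (eventually_ge_atTop 2))).and (((ev_log 4 10 (by positivity)).and
      (ev_log 2 0 ha0)).and (((ev_log _ 20 ha0).and ((ev_log 300 41 ha0).and
      (ev_log 10 20 ha0))).and (((regB.rpow_small (by linarith) one_pos 8).and
      (ev_log 8 20 (by positivity))).and (((regB.rpow_small ha0 (by positivity) 1).and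
      ((regB.rpow_small (by norm_num) (by positivity) 2).and
      ((regB.exp_small ha0 (by positivity) 2).and
      (regB.exp_small (by linarith) (by positivity) 0)))).and
      (regB.rpow_small (by linarith) (by positivity) _)))))
  obtain ⟨nV, hV⟩ := Filter.eventually_atTop.1 hev
  refine ⟨max (max nE nL) (max nG nV), fun n hn β hβ1 hβ2 => ?_⟩
  have hnE : nE ≤ n := (le_max_left _ _).trans ((le_max_left _ _).trans hn)
  have hnL : nL ≤ n := (le_max_right _ _).trans ((le_max_left _ _).trans hn)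
  have hnG : nG ≤ n := (le_max_left _ _).trans ((le_max_right _ _).trans hn)
  have hnV : nV ≤ n := (le_max_right _ _).trans ((le_max_right _ _).trans hn)
  obtain ⟨⟨hlog1, hlog2, hn2⟩, ⟨v1, v2⟩, ⟨v3, v4, v5⟩, ⟨v6, v7⟩, ⟨v8, v9, v10, v11⟩, v12⟩ :=
    hV n hnV
  rw [pow_zero, mul_one] at v2
  rw [pow_zero, one_mul] at v11
  rw [one_mul] at v8
  set L : ℝ := Real.log n with hLdef
  have hL0 : 0 < L := by linarith
  have hn0 : (0 : ℝ) < n := by exact_mod_cast (by omega : 0 < n)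
  have hn1 : (1 : ℝ) ≤ n := by exact_mod_cast (by omega : 1 ≤ n)
  have hβ0 : 0 < β := lt_of_lt_of_le (by positivity) hβ1
  set δ₀ : ℝ := aB * n * L / β with hδ₀
  have hδ₀0 : 0 < δ₀ := by positivity
  have hβδ : β * δ₀ = aB * n * L := by rw [hδ₀]; field_simp
  have hδ₀u : δ₀ ≤ aB / κ₀ * L := by
    rw [hδ₀, div_le_iff₀ hβ0]
    have : aB / κ₀ * L * (κ₀ * n) ≤ aB / κ₀ * L * β :=
      mul_le_mul_of_nonneg_left hβ1 (by positivity)
    have e : aB / κ₀ * L * (κ₀ * n) = aB * n * L := by field_simp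
    linarith
  have hδ₀l : (n : ℝ) ^ (-(1 / 3 : ℝ) + c / 2) ≤ δ₀ := by
    rw [hδ₀, le_div_iff₀ hβ0]
    have h1 : (n : ℝ) ^ (-(1 / 3 : ℝ) + c / 2) * β ≤
        (n : ℝ) ^ (-(1 / 3 : ℝ) + c / 2) * (n * (n : ℝ) ^ (1 / 3 - c)) :=
      mul_le_mul_of_nonneg_left hβ2 (by positivity)
    have h2 : (n : ℝ) ^ (-(1 / 3 : ℝ) + c / 2) * (n * (n : ℝ) ^ (1 / 3 - c)) =
        n * (n : ℝ) ^ (-(c / 2)) := by
      rw [mul_left_comm, ← Real.rpow_add hn0]
      congr 2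
      ring
    have h3 : (n : ℝ) ^ (-(c / 2)) ≤ 1 := Real.rpow_le_one_of_one_le_of_nonpos hn1 (by linarith)
    have h4 : 1 ≤ aB * L := by
      rw [div_le_iff₀ haB0] at hlog2
      linarith
    calc _ ≤ _ := h1
      _ = n * (n : ℝ) ^ (-(c / 2)) := h2
      _ ≤ n * 1 := mul_le_mul_of_nonneg_left h3 hn0.le
      _ ≤ n * (aB * L) := mul_le_mul_of_nonneg_left h4 hn0.le
      _ = aB * n * L := by ring
  obtain ⟨J, hJX, hJ1, hJ2⟩ := regB.exists_J hδ₀0 hL0 jX hδ₀u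
  have hJ3 : (J : ℝ) ≤ 3 * L := hLv n hnL δ₀ J hδ₀l hJ2
  have hgood : mu n {ω | ¬ GoodEnv β δ₀ (L ^ 10) J jX ω} ≤ ENNReal.ofReal (η / 16) := by
    refine hG n hnG β δ₀ J jX hβ0.le hδ₀l hJ1 hJ2 (fun _ => ⟨hβ0, ?_⟩) hJX ?_
    · have h1 : B * δ₀ * β = B * (aB * n * L) := by rw [mul_assoc, mul_comm δ₀, hβδ]
      rw [h1]
      rw [div_le_iff₀ haB0] at hB2
      have := mul_le_mul_of_nonneg_right hB2 (by positivity : (0 : ℝ) ≤ n * L)
      calc 2 * L * n = 2 * (n * L) := by ring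
        _ ≤ B * aB * (n * L) := this
        _ = _ := by ring
    · unfold dl
      have := mul_le_mul_of_nonneg_left hB3 hδ₀0.le
      linarith
  have hdb0 : 0 < db δ₀ := lt_min hδ₀0 one_pos
  have hdb1 : db δ₀ ≤ 1 := min_le_right _ _
  have hdbl : (n : ℝ) ^ (-(1 / 3 : ℝ) + c / 2) ≤ db δ₀ :=
    le_min hδ₀l (Real.rpow_le_one_of_one_le_of_nonpos hn1 (by linarith))
  have hQL : 1 ≤ L ^ 10 := one_le_pow₀ hlog1
  have hδn : 1 / (n : ℝ) ≤ δ₀ := by
    refine le_trans ?_ hδ₀l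
    rw [one_div, ← Real.rpow_neg_one]
    exact Real.rpow_le_rpow_of_exponent_le hn1 (by linarith)
  set Q : ℝ := (n : ℝ) ^ a with hQ
  have hQ0 : 0 < Q := by positivity
  have hQ1 : 1 ≤ Q := Real.one_le_rpow hn1 ha0.le
  set k : ℕ := ⌈(n : ℝ) ^ (c / 4)⌉₊ with hk
  have hk1 : 1 ≤ k := Nat.one_le_ceil_iff.2 (by positivity)
  have hkl : (n : ℝ) ^ (c / 4) ≤ k := Nat.le_ceil _
  have hku : (k : ℝ) ≤ 2 * (n : ℝ) ^ (c / 4) := by
    have h1 := (Nat.ceil_lt_add_one (show (0 : ℝ) ≤ (n : ℝ) ^ (c / 4) by positivity)).le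
    have h2 : 1 ≤ (n : ℝ) ^ (c / 4) := Real.one_le_rpow hn1 (by positivity)
    linarith
  set θ : ℝ := (n : ℝ) ^ (-(c / 4) + a) with hθ
  have hθ0 : 0 < θ := by positivity
  have hθ1 : θ ≤ 1 := Real.rpow_le_one_of_one_le_of_nonpos hn1 (by linarith)
  set ℓw : ℕ := ⌊L ^ 10 / db δ₀⌋₊ + 1 with hℓw
  have hℓ : L ^ 10 / db δ₀ < ℓw := by
    rw [hℓw]; push_cast; exact Nat.lt_floor_add_one _
  have hLQ : L ^ 10 ≤ Q := by
    have h1 : L ^ 10 ≤ L ^ 20 := pow_le_pow_right₀ hlog1 (by norm_num)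
    have h2 : 0 ≤ L ^ 20 := by positivity
    linarith
  have hℓ2 : (ℓw : ℝ) ≤ 2 * Q / db δ₀ := by
    have h1 : (ℓw : ℝ) ≤ L ^ 10 / db δ₀ + 1 := by
      rw [hℓw]; push_cast
      have := Nat.floor_le (show 0 ≤ L ^ 10 / db δ₀ by positivity)
      linarith
    have h2 : 1 ≤ Q / db δ₀ := by
      rw [le_div_iff₀ hdb0]; linarith
    have h3 : L ^ 10 / db δ₀ ≤ Q / db δ₀ := div_le_div_of_nonneg_right hLQ hdb0.le
    have h4 : 2 * Q / db δ₀ = Q / db δ₀ + Q / db δ₀ := by ring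
    linarith
  have hθQ : θ * Q ≤ 1 / 8 := by
    rw [hθ, hQ, ← Real.rpow_add hn0]
    have e : -(c / 4) + a + a = -(c / 4 - 2 * a) := by ring
    rw [e]
    linarith
  have hexp : Real.exp (2 * β * δ₀ / n) = (n : ℝ) ^ (a / 4) := by
    have e : 2 * β * δ₀ / n = L * (a / 4) := by
      rw [mul_assoc, hβδ, haB]; field_simp; ring
    rw [e, Real.rpow_def_of_pos hn0]
  have heng : Eng (n := n) β (db δ₀) Q θ (pmin n δ₀) (pl n δ₀ jx) k ℓw (CC δ₀ 0) (CC δ₀ jx)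
      (AB β δ₀ (L ^ 10) θ J jX jx k) := by
    refine engB hn2 hβ0 hk1 hQL hδn hjxX hJX hℓ hθ0.le ?_ ?_ ?_ ?_ hθQ ?_
    · rw [hexp]
      have h1 : 4 * L ^ 10 * (n : ℝ) ^ (a / 4) ≤ (n : ℝ) ^ (3 * a / 4) * (n : ℝ) ^ (a / 4) :=
        mul_le_mul_of_nonneg_right v1 (by positivity)
      rw [← Real.rpow_add hn0] at h1
      have e : 3 * a / 4 + a / 4 = a := by ring
      rw [e] at h1
      linarith
    · have e : (L ^ 10) ^ 2 * (6 / 5) ^ jx = (6 / 5) ^ jx * L ^ 20 := by ring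
      rw [e]; exact v3
    · have h1 : 100 * (J : ℝ) * (L ^ 10) ^ 4 ≤ 100 * (3 * L) * (L ^ 10) ^ 4 := by gcongr
      have e : 100 * (3 * L) * (L ^ 10) ^ 4 = 300 * L ^ 41 := by ring
      linarith
    · have e : 10 * (L ^ 10) ^ 2 = 10 * L ^ 20 := by ring
      rw [e]; exact v5
    · have h1 : 4 * (L ^ 10 + 1) * L ^ 10 ≤ 8 * L ^ 20 := by nlinarith
      have h2 : (n : ℝ) ^ (2 / 3 + c / 2) ≤ db δ₀ * n := by
        have h3 := mul_le_mul_of_nonneg_right hdbl hn0.le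
        refine le_trans (le_of_eq ?_) h3
        nth_rewrite 3 [← Real.rpow_one (n : ℝ)]
        rw [← Real.rpow_add hn0]
        congr 1
        ring
      linarith
  have hkc : k = ⌈(n : ℝ) ^ (c / 2 / 2)⌉₊ := by rw [hk]; congr 2; ring
  have hV3 : E3V (n := n) β k (CC δ₀ jx) (fun σ v ω T => ind (AB β δ₀ (L ^ 10) θ J jX jx k σ ω T ∧
        l * T.diam / 4 < hgt T (im σ) v)) ≤ ENNReal.ofReal ((n : ℝ) ^ (-a)) := by
    have hθc : θ = (n : ℝ) ^ (-(c / 2 / 2) + a) := by rw [hθ]; congr 2; ring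
    have := hE n hnE β (db δ₀) (pmin n δ₀) (pl n δ₀ jx) ℓw (CC δ₀ 0) (CC δ₀ jx)
    rw [← hkc, ← hθc] at this
    exact this _ hdbl hdb1 (by omega) hℓ2 heng
  have hprob := AB_prob (n := n) hn2 hβ0 hk1 hQL hQ1 hδn hjxX hJX hθ0.le hθ1
    (θ := θ) (β := β) (QL := L ^ 10) (Q := Q) (by
      have e : (L ^ 10) ^ 2 * (6 / 5) ^ jx = (6 / 5) ^ jx * L ^ 20 := by ring
      rw [e]; exact v3) (by
      have e : β * (pl n δ₀ jx - pl n δ₀ 0) = aB * L * ((6 / 5) ^ jx - 1) := by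
        unfold pl dl
        have : β * ((1 + δ₀ * (6 / 5) ^ jx) / n - (1 + δ₀ * (6 / 5) ^ 0) / n) =
          β * δ₀ * ((6 / 5) ^ jx - 1) / n := by ring
        rw [this, hβδ]
        field_simp
      rw [e]
      have h1 : 8 / aB ≤ (6 / 5) ^ jx - 1 := by linarith
      rw [div_le_iff₀ haB0] at h1
      nlinarith) (by
      have e : β * (pl n δ₀ jX - pl n δ₀ jx) = aB * L * ((6 / 5) ^ jX - (6 / 5) ^ jx) := by
        unfold pl dl
        have : β * ((1 + δ₀ * (6 / 5) ^ jX) / n - (1 + δ₀ * (6 / 5) ^ jx) / n) =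
          β * δ₀ * ((6 / 5) ^ jX - (6 / 5) ^ jx) / n := by ring
        rw [this, hβδ]
        field_simp
      rw [e]
      have h1 : 8 / aB ≤ (6 / 5 : ℝ) ^ jX - (6 / 5) ^ jx := by linarith
      rw [div_le_iff₀ haB0] at h1
      nlinarith)
  have hball := ball_of_E3 (n := n) (by omega : 1 ≤ n) (β := β) (l := l)
    (τ := (n : ℝ) ^ (1 - δ')) hk1 hl hl1 (Real.one_le_rpow hn1 (by linarith))
    heng.hXm (A := AB β δ₀ (L ^ 10) θ J jX jx k) heng.hA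
  refine hball.trans ?_
  have t1 : 2 * mu n {ω | ¬ GoodEnv β δ₀ (L ^ 10) J jX ω} ≤ ENNReal.ofReal (η / 8) := by
    calc 2 * mu n {ω | ¬ GoodEnv β δ₀ (L ^ 10) J jX ω} ≤ 2 * ENNReal.ofReal (η / 16) := by
          gcongr
      _ = ENNReal.ofReal (η / 8) := by
          rw [show (2 : ℝ≥0∞) = ENNReal.ofReal 2 by simp, ← ENNReal.ofReal_mul (by norm_num)]
          congr 1
          ring
  have hθk : (n : ℝ) ^ a ≤ θ * k := by
    calc (n : ℝ) ^ a = θ * (n : ℝ) ^ (c / 4) := by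
          rw [hθ, ← Real.rpow_add hn0]; congr 1; ring
      _ ≤ θ * k := mul_le_mul_of_nonneg_left hkl hθ0.le
  have t2 : (n : ℝ) ^ 2 * (1 - θ) ^ k ≤ η / 8 := by
    refine le_trans ?_ v10
    refine mul_le_mul_of_nonneg_left ?_ (by positivity)
    have h1 : 1 - θ ≤ Real.exp (-θ) := by
      have := Real.add_one_le_exp (-θ)
      linarith
    have h2 := pow_le_pow_left₀ (by linarith : 0 ≤ 1 - θ) h1 k
    rw [← Real.exp_nat_mul] at h2
    refine h2.trans (Real.exp_le_exp.2 ?_)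
    linarith
  have t3 : (1 - 1 / Q) ^ k ≤ η / 8 := by
    refine le_trans ?_ v11
    have h0 : 1 / Q ≤ 1 := by rw [div_le_one hQ0]; exact hQ1
    have h1 : 1 - 1 / Q ≤ Real.exp (-(1 / Q)) := by
      have := Real.add_one_le_exp (-(1 / Q))
      linarith
    have h2 := pow_le_pow_left₀ (by linarith : 0 ≤ 1 - 1 / Q) h1 k
    rw [← Real.exp_nat_mul] at h2
    refine h2.trans (Real.exp_le_exp.2 ?_)
    have h3 : (n : ℝ) ^ (c / 4 - a) ≤ k * (1 / Q) := by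
      rw [Real.rpow_sub hn0, ← hQ, div_eq_mul_one_div]
      exact mul_le_mul_of_nonneg_right hkl (by positivity)
    linarith
  have t4 : 2 / (n : ℝ) ^ 4 ≤ η / 8 := by
    have e : (n : ℝ) ^ (-(4 : ℝ)) = 1 / (n : ℝ) ^ 4 := by
      rw [Real.rpow_neg hn0.le, one_div]
      norm_cast
    rw [e] at v9
    linarith [show 2 / (n : ℝ) ^ 4 = 2 * (1 / (n : ℝ) ^ 4) by ring]
  have t5 : k * (8 / l + 3) * (n : ℝ) ^ (1 - δ') / n ≤ η / 8 := by
    refine le_trans ?_ v12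
    have h1 : (n : ℝ) ^ (1 - δ') / n = (n : ℝ) ^ (-δ') := by
      rw [Real.rpow_sub hn0, Real.rpow_one, Real.rpow_neg hn0.le]
      field_simp
    have h2 : k * (8 / l + 3) * (n : ℝ) ^ (1 - δ') / n = (8 / l + 3) * (n : ℝ) ^ (-δ') * k := by
      rw [← h1]; ring
    rw [h2]
    calc (8 / l + 3) * (n : ℝ) ^ (-δ') * k ≤
          (8 / l + 3) * (n : ℝ) ^ (-δ') * (2 * (n : ℝ) ^ (c / 4)) :=
          mul_le_mul_of_nonneg_left hku (by positivity)
      _ = 2 * (8 / l + 3) * ((n : ℝ) ^ (-δ') * (n : ℝ) ^ (c / 4)) := by ring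
      _ = 2 * (8 / l + 3) * (n : ℝ) ^ (-(δ' - c / 4)) := by
          rw [← Real.rpow_add hn0]; congr 2; ring
  calc _ = (E3 (n := n) β k (CC δ₀ jx) (fun σ ω T => ind (¬ AB β δ₀ (L ^ 10) θ J jX jx k σ ω T)) +
        EE (n := n) β (fun ω _ => ind (CC δ₀ jx ω = ∅))) +
        (E3V (n := n) β k (CC δ₀ jx) (fun σ v ω T => ind (AB β δ₀ (L ^ 10) θ J jX jx k σ ω T ∧
        l * T.diam / 4 < hgt T (im σ) v)) +
        ENNReal.ofReal (k * (8 / l + 3) * (n : ℝ) ^ (1 - δ') / n)) := by ring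
    _ ≤ (ENNReal.ofReal (η / 8) + ENNReal.ofReal (3 * (η / 8))) +
        (ENNReal.ofReal (η / 8) + ENNReal.ofReal (η / 8)) := by
        refine add_le_add (hprob.trans (add_le_add t1 (ENNReal.ofReal_le_ofReal ?_)))
          (add_le_add (hV3.trans (ENNReal.ofReal_le_ofReal v8)) (ENNReal.ofReal_le_ofReal t5))
        linarith
    _ ≤ ENNReal.ofReal η := by
        rw [← ENNReal.ofReal_add (by positivity) (by positivity),
          ← ENNReal.ofReal_add (by positivity) (by positivity),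
          ← ENNReal.ofReal_add (by positivity) (by positivity)]
        apply ENNReal.ofReal_le_ofReal
        linarith

end RST
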