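import Pool.Agent.Work.MP_5ba30e_pr.BridgeR
import Pool.Agent.Work.MP_5ba30e_pr.BridgeD

/-!
# FinalC_M10 : expected distance to the large component, lower bound for the diameter
-/

open MeasureTheory Set Filter Finset
open scoped ENNReal Topology Classical

noncomputable section

namespace RST

variable {n : ℕ}

/-- expected distance to the large component -/
theorem hook_exp_C (hn : 2 ≤ n) {β δ₀ Q : ℝ} {J jX : ℕ} (hβ : 0 < β) (hQ : 1 ≤ Q)
    (hδ : 1 / (n : ℝ) ≤ δ₀) (z : Fin n)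
    (A : Env n → SimpleGraph (Fin n) → Prop) (hA : ∀ T, MeasurableSet {ω | A ω T})
    (h : ∀ ω T, A ω T → GoodEnv β δ₀ Q J jX ω ∧ (CC δ₀ 0 ω).Nonempty ∧
      2 * (Q + 1) ≤ (CC δ₀ 0 ω).card) :
    EE β (fun ω T => ind (A ω T) * (hook T (CC δ₀ 0 ω) (CC δ₀ 0 ω) z : ℝ≥0∞)) ≤
      ENNReal.ofReal (100 * J * Q ^ 4 / db δ₀) := by
  have hCCm : ∀ v, MeasurableSet {ω : Env n | v ∈ CC δ₀ 0 ω} :=
    fun v => measurableSet_mem_CC δ₀ 0 v
  have hCS : ∀ S, Measurable fun ω : Env n => CC δ₀ 0 ω = S := fun S =>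
    measurable_fin_comp hCCm (fun X => X = S)
  set F : Finset (Fin n) → Env n → SimpleGraph (Fin n) → ℝ≥0∞ := fun S ω T =>
    ind (A ω T ∧ CC δ₀ 0 ω = S) * (hook T S (CC δ₀ 0 ω) z : ℝ≥0∞) * ind (CC δ₀ 0 ω = S) with hF
  have hAS : ∀ S T, MeasurableSet {ω | A ω T ∧ CC δ₀ 0 ω = S} := fun S T =>
    (hA T).inter (measurableSet_setOfPred.2 (hCS S))
  have hFm : ∀ S, ∀ T, Measurable fun ω => F S ω T := by
    intro S T
    refine ((measurable_ind (hAS S T)).mul ?_).mul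
      (measurable_ind (measurableSet_setOfPred.2 (hCS S)))
    exact measurable_fin_comp hCCm (fun X => (hook T S X z : ℝ≥0∞))
  set E : Finset (Finset (Fin n)) := Finset.univ.filter fun S => S.Nonempty with hE
  -- decomposition
  have h1 : EE β (fun ω T => ind (A ω T) * (hook T (CC δ₀ 0 ω) (CC δ₀ 0 ω) z : ℝ≥0∞)) ≤
      EE β (fun ω T => ∑ S ∈ E, F S ω T) := by
    refine EE_mono fun ω T _ => ?_
    by_cases hAT : A ω T
    · have hmem : CC δ₀ 0 ω ∈ E := by
        rw [hE, Finset.mem_filter]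
        exact ⟨Finset.mem_univ _, (h ω T hAT).2.1⟩
      refine le_trans ?_ (Finset.single_le_sum (fun S _ => zero_le) hmem)
      simp only [hF, ind, hAT, if_true, and_self, mul_one, le_refl]
    · have : ind (A ω T) = 0 := by simp [ind, hAT]
      rw [this, zero_mul]
      exact zero_le
  refine h1.trans ?_
  rw [EE_sum E (fun S _ T => hFm S T)]
  have h2 : ∀ S ∈ E, EE β (F S) ≤ ENNReal.ofReal (100 * J * Q ^ 4 / db δ₀) *
      EE β (fun ω (_ : SimpleGraph (Fin n)) => ind (CC δ₀ 0 ω = S)) := by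
    intro S hS
    rw [hE, Finset.mem_filter] at hS
    have := hook_exp hn hβ hQ hδ (J := J) (jX := jX) (jx := 0) (Nat.zero_le _) hS.2 z (θ := 0)
      (fun ω T => A ω T ∧ CC δ₀ 0 ω = S) (hAS S) (fun ω T hAT => ?_) (fun X => ind (X = S))
    · exact this
    · obtain ⟨g1, g2, g3⟩ := h ω T hAT.1
      refine ⟨g1, ?_, ?_⟩
      · intro a b hab
        have h3 : side T s(a, b) a ∩ CC δ₀ 0 ω = ∅ := by
          rw [hAT.2, ← Finset.disjoint_iff_inter_eq_empty]
          exact hab.2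
        rw [h3]
        simp
      · rw [zero_mul, zero_add]
        exact g3
  refine (Finset.sum_le_sum h2).trans ?_
  rw [← Finset.mul_sum, ← EE_sum E (F := fun S ω _ => ind (CC δ₀ 0 ω = S))
    (fun S _ T => measurable_ind (measurableSet_setOfPred.2 (hCS S)))]
  have h3 : EE β (fun ω (_ : SimpleGraph (Fin n)) => ∑ S ∈ E, ind (CC δ₀ 0 ω = S)) ≤ 1 := by
    have h4 : EE β (fun ω (_ : SimpleGraph (Fin n)) => ∑ S ∈ E, ind (CC δ₀ 0 ω = S)) ≤
        EE β (fun (_ : Env n) (_ : SimpleGraph (Fin n)) => (1 : ℝ≥0∞)) := by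
      refine EE_mono fun ω T _ => ?_
      calc ∑ S ∈ E, ind (CC δ₀ 0 ω = S) ≤ ∑ S, ind (CC δ₀ 0 ω = S) :=
            Finset.sum_le_sum_of_subset (Finset.subset_univ _)
        _ = ind (CC δ₀ 0 ω = CC δ₀ 0 ω) :=
            Finset.sum_eq_single _ (fun S _ hS => by simp [ind, hS.symm]) (by simp)
        _ ≤ 1 := ind_le_one _
    refine h4.trans (le_of_eq ?_)
    rw [EE_env (by omega : 1 ≤ n) (F := fun _ => (1 : ℝ≥0∞)) measurable_const]
    simp
  calc _ ≤ ENNReal.ofReal (100 * J * Q ^ 4 / db δ₀) * 1 := mul_le_mul' le_rfl h3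
    _ = _ := mul_one _

/-- lower bound for the diameter: the path of `T` between the two points of `far` has its edges
`≤ (1+1.2 δ_a)/n` -/
theorem diam_C {δ : ℝ} {ω : Env n} {T : SimpleGraph (Fin n)} (hT : T.IsTree)
    {C : Finset (Fin n)} (hTP : TPath ω T C ((1 + 1.2 * δ) / n))
    (hfar : ∃ x ∈ C, ∃ y ∈ C, ∀ w : (Gr ω ((1 + 1.2 * δ) / n)).Walk x y,
      1 / δ ≤ (w.length : ℝ)) : 1 / δ ≤ (T.diam : ℝ) := by
  obtain ⟨x, hx, y, hy, hw⟩ := hfar
  haveI : Nonempty (Fin n) := ⟨x⟩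
  obtain ⟨p, hp, hpl⟩ := exists_path hT x y
  have htr : ∀ e ∈ p.edges, e ∈ (Gr ω ((1 + 1.2 * δ) / n)).edgeSet := by
    intro e he
    have h1 := hTP x hx y hy e ((onp_iff_mem_path hT p hp e).2 he)
    have h2 := p.edges_subset_edgeSet he
    induction e with
    | h a b =>
      exact ⟨(show T.Adj a b from h2).ne, h1⟩
  have h1 := hw (p.transfer _ htr)
  rw [SimpleGraph.Walk.length_transfer, hpl] at h1
  refine h1.trans ?_
  have h2 : T.dist x y ≤ T.diam :=
    SimpleGraph.dist_le_diam (SimpleGraph.connected_iff_ediam_ne_top.1 hT.connected)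
  exact_mod_cast h2

end RST
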