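import Pool.Agent.Work.MP_5ba30e_pr.BridgeD
import Pool.Agent.Work.MP_5ba30e_pr.Net
import Pool.Agent.Work.MP_5ba30e_pr.Piece

/-!
# M11 : `near_C0`, `det_C`
-/

open MeasureTheory Set Filter Finset
open scoped ENNReal Topology Classical

noncomputable section

namespace RST

variable {n : ℕ}

theorem M11.dl_zero (δ₀ : ℝ) : dl δ₀ 0 = δ₀ := by simp [dl]

theorem M11.first_hit {T : SimpleGraph (Fin n)} {C : Finset (Fin n)} {h t : Fin n}
    (q : T.Walk h t) (hq : q.IsPath) (hh : h ∉ C) (ht : t ∈ C) :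
    ∃ g ∈ C, ∃ u, ∃ q1 : T.Walk h u, q1.IsPath ∧ (∀ x ∈ q1.support, x ∉ C) ∧ T.Adj u g ∧
      q1.edges ⊆ q.edges ∧ q1.support ⊆ q.support := by
  induction q with
  | nil => exact absurd ht hh
  | @cons h v t hadj q' ih =>
    rw [SimpleGraph.Walk.cons_isPath_iff] at hq
    by_cases hv : v ∈ C
    · refine ⟨v, hv, h, SimpleGraph.Walk.nil, SimpleGraph.Walk.IsPath.nil, ?_, hadj, ?_, ?_⟩
      · intro x hx
        rw [SimpleGraph.Walk.support_nil, List.mem_singleton] at hx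
        rwa [hx]
      · simp
      · simp
    · obtain ⟨g, hg, u, q1, h1, h2, h3, h4, h5⟩ := ih hq.1 hv ht
      refine ⟨g, hg, u, SimpleGraph.Walk.cons hadj q1, ?_, ?_, h3, ?_, ?_⟩
      · rw [SimpleGraph.Walk.cons_isPath_iff]
        exact ⟨h1, fun hc => hq.2 (h5 hc)⟩
      · intro x hx
        rw [SimpleGraph.Walk.support_cons, List.mem_cons] at hx
        rcases hx with rfl | hx
        · exact hh
        · exact h2 x hx
      · rw [SimpleGraph.Walk.edges_cons, SimpleGraph.Walk.edges_cons]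
        exact List.cons_subset_cons _ h4
      · rw [SimpleGraph.Walk.support_cons, SimpleGraph.Walk.support_cons]
        exact List.cons_subset_cons _ h5

theorem M11.mem_Gr {ω : Env n} {p : ℝ} {T : SimpleGraph (Fin n)} {e : Sym2 (Fin n)}
    (he : e ∈ T.edgeSet) (hω : ω e ≤ p) : e ∈ (Gr ω p).edgeSet := by
  induction e using Sym2.ind with | _ a b
  have h1 : T.Adj a b := he
  exact ⟨h1.ne, hω⟩

/-- deterministic part: a vertex `z` with `hook z ≤ hk` is at distance `≤ hk + Q/db δ₀ + 1` of a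
point `g z` of `C0 = CC δ₀ 0 ω` -/
theorem near_C0 (hn : 2 ≤ n) {β δ₀ Q : ℝ} {J jX : ℕ} {ω : Env n} (hδ : 0 < δ₀)
    (h : GoodEnv β δ₀ Q J jX ω) (hJ : 1 ≤ J) {T : SimpleGraph (Fin n)} (hT : T.IsTree)
    (hne : (CC δ₀ 0 ω).Nonempty) (hTP : TPath ω T (CC δ₀ 0 ω) (pl n δ₀ 1)) (z : Fin n) :
    ∃ g ∈ CC δ₀ 0 ω, (T.dist z g : ℝ) ≤
      hook T (CC δ₀ 0 ω) (CC δ₀ 0 ω) z + Q / db δ₀ + 1 := by
  set C := CC δ₀ 0 ω with hC
  have hpath := h.path 0 (by omega)
  rw [M11.dl_zero] at hpath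
  have hQ0 : 0 ≤ Q / db δ₀ := by
    obtain ⟨x, hx⟩ := hne
    obtain ⟨w, -, hw, -⟩ := h.conn 0 (by omega) x hx x hx
    rw [M11.dl_zero] at hw
    exact le_trans (Nat.cast_nonneg _) hw
  set k := hook T C C z with hk
  have hdist : T.dist z (dn T C z k) = k := by
    have := dist_dn hT hne (u := z) (Nat.zero_le k) (hook_le_hgt C)
    rw [dn_zero] at this
    rw [this]; omega
  by_cases hmem : dn T C z k ∈ C
  · refine ⟨_, hmem, ?_⟩
    rw [hdist]
    linarith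
  · have hkh : k = hgt T C z := by
      rcases Nat.lt_or_ge k (hgt T C z) with h1 | h1
      · exact absurd (dn_hook_mem C h1) hmem
      · exact le_antisymm (hook_le_hgt C) h1
    set a := dn T C z k with ha
    have ha0 : hgt T C a = 0 := by
      rw [ha, hkh, hgt_dn hT hne le_rfl]; omega
    obtain ⟨s, hs⟩ := hne
    obtain ⟨t, ht, hst⟩ := exists_of_hgt_zero hT ha0 hs
    obtain ⟨p1, hp1, hp1'⟩ := exists_path hT s a
    obtain ⟨q, hq, hq'⟩ := exists_path hT a t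
    have hw : (p1.append q).IsPath := by
      apply SimpleGraph.Walk.isPath_of_length_eq_dist
      rw [SimpleGraph.Walk.length_append, hp1', hq', hst]
    obtain ⟨g, hg, u, q1, h1, h2, h3, h4, -⟩ := M11.first_hit q hq hmem ht
    have hle : ∀ e ∈ q1.edges, e ∈ (Gr ω (pl n δ₀ 1)).edgeSet := by
      intro e he
      have h5 : e ∈ (p1.append q).edges := by
        rw [SimpleGraph.Walk.edges_append, List.mem_append]
        exact Or.inr (h4 he)
      have h6 := (onp_iff_mem_path hT _ hw e).2 h5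
      exact M11.mem_Gr h6.1 (hTP s hs t ht e h6)
    have h7 := hpath _ _ (q1.transfer _ hle) (h1.transfer hle) (by
      intro x hx
      rw [SimpleGraph.Walk.support_transfer] at hx
      exact h2 x hx)
    rw [SimpleGraph.Walk.length_transfer] at h7
    refine ⟨g, hg, ?_⟩
    have h8 : T.dist a g ≤ q1.length + 1 := by
      have := SimpleGraph.dist_le (q1.concat h3)
      rwa [SimpleGraph.Walk.length_concat] at this
    have h9 := hT.connected.dist_triangle (u := z) (v := a) (w := g)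
    rw [hdist] at h9
    have h10 : (T.dist z g : ℝ) ≤ (k : ℝ) + ((q1.length : ℝ) + 1) := by
      exact_mod_cast h9.trans (Nat.add_le_add_left h8 _)
    linarith

theorem M11.CC_eq_comp {β δ₀ Q : ℝ} {J jX : ℕ} {ω : Env n} (h : GoodEnv β δ₀ Q J jX ω)
    {x₀ : Fin n} (hx₀ : x₀ ∈ CC δ₀ 0 ω) : CC δ₀ 0 ω = comp (Gr ω (pl n δ₀ 0)) x₀ := by
  ext y
  constructor
  · intro hy
    obtain ⟨w, -⟩ := h.conn 0 (by omega) x₀ hx₀ y hy
    exact Finset.mem_filter.2 ⟨Finset.mem_univ _, ⟨w⟩⟩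
  · intro hy
    have h1 := (Finset.mem_filter.1 hy).2
    have h2 : comp (Gr ω (pl n δ₀ 0)) y = comp (Gr ω (pl n δ₀ 0)) x₀ := by
      ext z
      simp only [comp, Finset.mem_filter, Finset.mem_univ, true_and]
      exact ⟨fun h3 => h1.trans h3, fun h3 => h1.symm.trans h3⟩
    unfold CC bigC at hx₀ ⊢
    rw [Finset.mem_filter] at hx₀ ⊢
    rw [h2]
    exact ⟨Finset.mem_univ _, hx₀.2⟩

/-- deterministic conclusion -/
theorem det_C (hn : 2 ≤ n) {β δ₀ Q : ℝ} {J jX : ℕ} {ω : Env n} (hδ : 0 < δ₀)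
    (h : GoodEnv β δ₀ Q J jX ω) (hJ : 1 ≤ J) {T : SimpleGraph (Fin n)} (hT : T.IsTree)
    (hne : (CC δ₀ 0 ω).Nonempty) (hTP : TPath ω T (CC δ₀ 0 ω) (pl n δ₀ 1))
    {hk R : ℕ} {v₀ r τ : ℝ} (hv₀ : 0 < v₀) (hτ : 0 ≤ τ)
    (hball : ∀ x ∈ CC δ₀ 0 ω, v₀ ≤ ((bl (Gr ω (pl n δ₀ 0)) x R).card : ℝ))
    (hr : 2 * (hk + Q / db δ₀ + 1) + 4 * R ≤ r) :
    ((Finset.univ.filter fun v => (ballT T v r : ℝ) < τ).card : ℝ) ≤
      ((Finset.univ.filter fun v => hk < hook T (CC δ₀ 0 ω) (CC δ₀ 0 ω) v).card : ℝ) +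
        (((CC δ₀ 0 ω).card : ℝ) / v₀ + exc (Gr ω (pl n δ₀ 1))) * τ := by
  have hnear := near_C0 hn hδ h hJ hT hne hTP
  choose g hg hgd using hnear
  obtain ⟨x₀, hx₀⟩ := hne
  have hCC := M11.CC_eq_comp h hx₀
  have hpl : pl n δ₀ 0 ≤ pl n δ₀ 1 := by
    unfold pl dl
    apply div_le_div_of_nonneg_right _ (Nat.cast_nonneg _)
    nlinarith
  have hGH : Gr ω (pl n δ₀ 0) ≤ Gr ω (pl n δ₀ 1) := by
    intro a b hab
    exact ⟨hab.1, hab.2.trans hpl⟩
  obtain ⟨c, hc1, hc2⟩ := piece hT hGH x₀ (R := R) (v₀ := v₀) (by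
    intro x hx y hy f hf
    rw [← hCC] at hx hy
    exact M11.mem_Gr hf.1 (hTP x hx y hy f hf)) hv₀ (by
    intro x hx
    rw [← hCC] at hx
    exact hball x hx)
  rw [← hCC] at hc1 hc2
  refine (cover_card (T := T) (r := r) hτ ((CC δ₀ 0 ω).image c)
    (Finset.univ.filter fun v => hk < hook T (CC δ₀ 0 ω) (CC δ₀ 0 ω) v)
    (fun v => c (g v)) ?_ ?_).trans ?_
  · intro v _
    exact Finset.mem_image_of_mem c (hg v)
  · intro u v hu hv huv
    have hu' : hook T (CC δ₀ 0 ω) (CC δ₀ 0 ω) u ≤ hk := by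
      by_contra hc; exact hu (Finset.mem_filter.2 ⟨Finset.mem_univ _, not_le.1 hc⟩)
    have hv' : hook T (CC δ₀ 0 ω) (CC δ₀ 0 ω) v ≤ hk := by
      by_contra hc; exact hv (Finset.mem_filter.2 ⟨Finset.mem_univ _, not_le.1 hc⟩)
    have h1 := hc2 (g v) (hg v) (g u) (hg u) huv.symm
    have h2 := hT.connected.dist_triangle (u := v) (v := g v) (w := u)
    have h3 := hT.connected.dist_triangle (u := g v) (v := g u) (w := u)
    rw [SimpleGraph.dist_comm (u := g u) (v := u)] at h3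
    have h4 := hgd u
    have h5 := hgd v
    have h6 : (T.dist v u : ℝ) ≤ T.dist v (g v) + (4 * R + T.dist u (g u)) := by
      exact_mod_cast h2.trans (Nat.add_le_add_left (h3.trans (Nat.add_le_add_right h1 _)) _)
    have h7 : (hook T (CC δ₀ 0 ω) (CC δ₀ 0 ω) u : ℝ) ≤ hk := by exact_mod_cast hu'
    have h8 : (hook T (CC δ₀ 0 ω) (CC δ₀ 0 ω) v : ℝ) ≤ hk := by exact_mod_cast hv'
    linarith
  · have := mul_le_mul_of_nonneg_right hc1 hτ
    linarith

end RST
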