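import Pool.Agent.Work.MP_5ba30e_pr.FinalC_M10
import Pool.Agent.Work.MP_5ba30e_pr.FinalC_M11
import Pool.Agent.Work.MP_5ba30e_pr.ERgood
import Pool.Agent.Work.MP_5ba30e_pr.Far

/-!
# FinalC_M12 : the low temperature regime `β ≥ n^{1+1/3-δ'/16}`
-/

open MeasureTheory Set Filter Finset
open scoped ENNReal Topology Classical

noncomputable section

namespace RST

variable {n : ℕ}

/-- the bad event of `B4` for `CC δ 0` and the levels `pl n δ 0`, `pl n δ 1` -/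
def m12P (δ : ℝ) (ω : Env n) (T : SimpleGraph (Fin n)) : Prop :=
  (∀ x ∈ CC δ 0 ω, ∀ y ∈ CC δ 0 ω, (Gr ω (pl n δ 0)).Reachable x y) ∧
    ∃ x ∈ CC δ 0 ω, ∃ y ∈ CC δ 0 ω, ∃ f, onp T x y f ∧ pl n δ 1 < ω f

theorem m12P_meas (δ : ℝ) (T : SimpleGraph (Fin n)) :
    MeasurableSet {ω : Env n | m12P δ ω T} := by
  have h : LevDep (fun ω : Env n => m12P δ ω T) := by
    refine ⟨{pl n δ 0, pl n δ 1}, fun ω ω' h => ?_⟩
    have h1 : Gr ω (pl n δ 0) = Gr ω' (pl n δ 0) := h _ (by simp)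
    have h2 : Gr ω (pl n δ 1) = Gr ω' (pl n δ 1) := h _ (by simp)
    have hC : CC δ 0 ω = CC δ 0 ω' := by unfold CC; rw [h1]
    have h3 : ∀ (x y : Fin n) (f : Sym2 (Fin n)), (onp T x y f ∧ pl n δ 1 < ω f) ↔
        (onp T x y f ∧ pl n δ 1 < ω' f) := by
      intro x y f
      refine and_congr_right fun hf => ?_
      exact lt_iff_of_Gr h2 (T.not_isDiag_of_mem_edgeSet hf.1)
    unfold m12P
    simp only [h1, hC, h3]
  exact h.measurableSet

theorem m12_B4 (hn : 1 ≤ n) {β δ : ℝ} (hβ : 0 ≤ β)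
    (h : 8 * Real.log n ≤ β * (pl n δ 1 - pl n δ 0)) :
    EE β (fun (ω : Env n) T => ind (m12P δ ω T)) ≤ ENNReal.ofReal (1 / (n : ℝ) ^ 4) :=
  B4 hn hβ h (fun ω => CC δ 0 ω) fun v => measurableSet_mem_CC δ 0 v

theorem m12_tpath {δ : ℝ} {ω : Env n} {T : SimpleGraph (Fin n)}
    (hc : ∀ x ∈ CC δ 0 ω, ∀ y ∈ CC δ 0 ω, (Gr ω (pl n δ 0)).Reachable x y)
    (h : ¬ m12P δ ω T) : TPath ω T (CC δ 0 ω) (pl n δ 1) := by
  intro x hx y hy f hf
  by_contra h1
  exact h ⟨hc, x, hx, y, hy, f, hf, not_le.1 h1⟩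

theorem m12_pl_zero (n : ℕ) (δ : ℝ) : pl n δ 0 = (1 + δ) / n := by
  simp [pl, dl]

theorem m12_pl_one (n : ℕ) (δ : ℝ) : pl n δ 1 = (1 + 1.2 * δ) / n := by
  have h : dl δ 1 = 1.2 * δ := by
    unfold dl
    norm_num
    ring
  unfold pl
  rw [h]

theorem m12_CC (δ : ℝ) (ω : Env n) :
    CC δ 0 ω = bigC (Gr ω ((1 + δ) / n)) (thr n δ) := by
  unfold CC
  rw [m12_pl_zero, M11.dl_zero]

theorem m12_meas_ind {P : Env n → Prop} (h : MeasurableSet {ω | P ω}) :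
    Measurable fun ω => ind (P ω) := by
  unfold ind
  exact Measurable.ite h measurable_const measurable_const

theorem m12_env (hn : 1 ≤ n) {β : ℝ} {S : Set (Env n)} (hS : MeasurableSet S) :
    EE β (fun ω _ => ind (ω ∈ S)) = mu n S := by
  rw [EE_env hn (m12_meas_ind (P := fun ω => ω ∈ S) hS)]
  have h : (fun ω : Env n => ind (ω ∈ S)) = S.indicator 1 := by
    funext ω
    unfold ind
    by_cases h : ω ∈ S <;> simp [h]
  rw [h, lintegral_indicator_one hS]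

/-- the five bad events for the environment -/
def m12S (β δa δb Q : ℝ) (J Ja : ℕ) : Set (Env n) :=
  {ω | ¬ GoodEnv β δb Q J 0 ω} ∪ ({ω | ¬ GoodEnv β δa Q Ja 0 ω} ∪
  ({ω | ¬ ∃ x ∈ bigC (Gr ω ((1 + δa) / n)) (thr n δa),
        ∃ y ∈ bigC (Gr ω ((1 + δa) / n)) (thr n δa),
        ∀ w : (Gr ω ((1 + 1.2 * δa) / n)).Walk x y, 1 / δa ≤ (w.length : ℝ)} ∪
  ({ω | ∃ x ∈ bigC (Gr ω ((1 + δb) / n)) (thr n δb), ∃ r : ℕ,
        (r : ℝ) ≤ Real.log n ^ 2 / db δb ∧ Real.log n ^ 2 / db δb < r + 1 ∧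
        ((bl (Gr ω ((1 + δb) / n)) x r).card : ℝ) < 400 * Real.log n / db δb ^ 2} ∪
  {ω | Real.log n ^ 7 * (1.2 * δb) ^ 3 * n < (exc (Gr ω ((1 + 1.2 * δb) / n)) : ℝ)})))

/-- deterministic estimate on the good event -/
theorem m12_det (hn : 2 ≤ n) {β δa δb Q l τ : ℝ} {J Ja hk : ℕ} (hQ : 1 ≤ Q)
    (hδb : 1 / (n : ℝ) ≤ δb) (hJ : 1 ≤ J) (hl : 0 < l) (hτ : 0 ≤ τ)
    (hL : 0 < Real.log n)
    (hlow : 2 * (Q + 1) * Q ≤ db δb * n)
    (hhk : 0 < hk)
    (hr : 2 * (hk + Q / db δb + 1) + 4 * (Real.log n ^ 2 / db δb) ≤ l * (1 / δa))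
    {ω : Env n} (hω : ω ∉ m12S β δa δb Q J Ja)
    {T : SimpleGraph (Fin n)} (hT : T.IsTree)
    (hPa : ¬ m12P δa ω T) (hPb : ¬ m12P δb ω T) :
    (GoodEnv β δb Q J 0 ω ∧ (CC δb 0 ω).Nonempty ∧ 2 * (Q + 1) ≤ (CC δb 0 ω).card) ∧
    ((Finset.univ.filter fun v : Fin n => (ballT T v (l * T.diam) : ℝ) < τ).card : ℝ) ≤
      (∑ z, (hook T (CC δb 0 ω) (CC δb 0 ω) z : ℝ)) / hk +
      (Q * db δb * n / (400 * Real.log n / db δb ^ 2) +
        Real.log n ^ 7 * (1.2 * δb) ^ 3 * n) * τ := by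
  have hn0 : (0 : ℝ) < n := by positivity
  have hδb0 : 0 < δb := lt_of_lt_of_le (by positivity) hδb
  have hdb : 0 < db δb := lt_min hδb0 one_pos
  simp only [m12S, Set.mem_union, Set.mem_ofPred_eq, not_or, not_not] at hω
  obtain ⟨h1, h2, h3, h4, h5⟩ := hω
  have hca : ∀ x ∈ CC δa 0 ω, ∀ y ∈ CC δa 0 ω, (Gr ω (pl n δa 0)).Reachable x y := by
    intro x hx y hy
    obtain ⟨w, -⟩ := h2.conn 0 (Nat.zero_le _) x hx y hy
    exact ⟨w⟩
  have hcb : ∀ x ∈ CC δb 0 ω, ∀ y ∈ CC δb 0 ω, (Gr ω (pl n δb 0)).Reachable x y := by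
    intro x hx y hy
    obtain ⟨w, -⟩ := h1.conn 0 (Nat.zero_le _) x hx y hy
    exact ⟨w⟩
  have hta := m12_tpath hca hPa
  have htb := m12_tpath hcb hPb
  have hcard : 2 * (Q + 1) ≤ ((CC δb 0 ω).card : ℝ) := by
    refine le_trans ?_ h1.low
    rw [le_div_iff₀ (by linarith)]
    exact hlow
  have hne : (CC δb 0 ω).Nonempty := by
    rw [← Finset.card_pos]
    have : (0 : ℝ) < ((CC δb 0 ω).card : ℝ) := by linarith
    exact_mod_cast this
  refine ⟨⟨h1, hne, hcard⟩, ?_⟩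
  have hdiam : 1 / δa ≤ (T.diam : ℝ) := by
    refine diam_C (ω := ω) hT (C := CC δa 0 ω) ?_ ?_
    · rw [m12_pl_one] at hta
      exact hta
    · rw [m12_CC]
      exact h3
  set R : ℕ := ⌊Real.log n ^ 2 / db δb⌋₊ with hR
  have hR1 : (R : ℝ) ≤ Real.log n ^ 2 / db δb := Nat.floor_le (by positivity)
  have hR2 : Real.log n ^ 2 / db δb < R + 1 := Nat.lt_floor_add_one _
  have hball : ∀ x ∈ CC δb 0 ω, 400 * Real.log n / db δb ^ 2 ≤
      ((bl (Gr ω (pl n δb 0)) x R).card : ℝ) := by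
    intro x hx
    by_contra hlt
    rw [m12_CC] at hx
    rw [m12_pl_zero] at hlt
    exact h4 ⟨x, hx, R, hR1, hR2, not_le.1 hlt⟩
  have hv₀ : 0 < 400 * Real.log n / db δb ^ 2 := by positivity
  have hr' : 2 * (hk + Q / db δb + 1) + 4 * (R : ℝ) ≤ l * T.diam := by
    have h6 : l * (1 / δa) ≤ l * T.diam := mul_le_mul_of_nonneg_left hdiam hl.le
    linarith
  have hdet := det_C hn hδb0 h1 hJ hT hne htb hv₀ hτ hball hr'
  refine hdet.trans ?_
  have hup := h1.upp 0 (Nat.zero_le _)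
  rw [M11.dl_zero] at hup
  have hexc : (exc (Gr ω (pl n δb 1)) : ℝ) ≤ Real.log n ^ 7 * (1.2 * δb) ^ 3 * n := by
    rw [m12_pl_one]
    exact not_lt.1 h5
  have hhk' : (0 : ℝ) < hk := by exact_mod_cast hhk
  have hmk : ((Finset.univ.filter fun v => hk < hook T (CC δb 0 ω) (CC δb 0 ω) v).card : ℝ) ≤
      (∑ z, (hook T (CC δb 0 ω) (CC δb 0 ω) z : ℝ)) / hk := by
    rw [le_div_iff₀ hhk', Finset.card_filter]
    push_cast
    rw [Finset.sum_mul]
    refine Finset.sum_le_sum fun z _ => ?_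
    split_ifs with h
    · have : (hk : ℝ) < hook T (CC δb 0 ω) (CC δb 0 ω) z := by exact_mod_cast h
      linarith
    · rw [zero_mul]
      positivity
  refine add_le_add hmk (mul_le_mul_of_nonneg_right (add_le_add ?_ hexc) hτ)
  exact div_le_div_of_nonneg_right hup hv₀.le

theorem m12_core (hn : 2 ≤ n) {β δa δb Q l τ : ℝ} {J Ja hk : ℕ} (hβ : 0 < β) (hQ : 1 ≤ Q)
    (hδb : 1 / (n : ℝ) ≤ δb) (hJ : 1 ≤ J) (hl : 0 < l) (hτ : 0 ≤ τ)
    (hL : 0 < Real.log n)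
    (hlow : 2 * (Q + 1) * Q ≤ db δb * n)
    (ha : 8 * Real.log n ≤ β * (pl n δa 1 - pl n δa 0))
    (hb : 8 * Real.log n ≤ β * (pl n δb 1 - pl n δb 0))
    (hhk : 0 < hk)
    (hr : 2 * (hk + Q / db δb + 1) + 4 * (Real.log n ^ 2 / db δb) ≤ l * (1 / δa)) :
    EE β (fun _ T => ((Finset.univ.filter fun v : Fin n =>
        (ballT T v (l * T.diam) : ℝ) < τ).card : ℝ≥0∞) / n) ≤
      mu n (m12S β δa δb Q J Ja) + (ENNReal.ofReal (1 / (n : ℝ) ^ 4) +
        (ENNReal.ofReal (1 / (n : ℝ) ^ 4) + (ENNReal.ofReal (100 * J * Q ^ 4 / db δb / hk) +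
        ENNReal.ofReal ((Q * db δb * n / (400 * Real.log n / db δb ^ 2) +
        Real.log n ^ 7 * (1.2 * δb) ^ 3 * n) * τ / n)))) := by
  have hn1 : 1 ≤ n := by omega
  have hn0 : (0 : ℝ) < n := by positivity
  have hδb0 : 0 < δb := lt_of_lt_of_le (by positivity) hδb
  have hdb : 0 < db δb := lt_min hδb0 one_pos
  have hhk' : (0 : ℝ) < hk := by exact_mod_cast hhk
  set S : Set (Env n) := toMeasurable (mu n) (m12S β δa δb Q J Ja) with hS
  have hSm : MeasurableSet S := measurableSet_toMeasurable _ _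
  have hSsub : m12S β δa δb Q J Ja ⊆ S := subset_toMeasurable _ _
  have hSmu : mu n S = mu n (m12S β δa δb Q J Ja) := measure_toMeasurable _
  set A : Env n → SimpleGraph (Fin n) → Prop := fun ω _ =>
    GoodEnv β δb Q J 0 ω ∧ (CC δb 0 ω).Nonempty ∧ 2 * (Q + 1) ≤ ((CC δb 0 ω).card : ℝ) with hA
  have hAl : LevDep (fun ω : Env n => GoodEnv β δb Q J 0 ω ∧ (CC δb 0 ω).Nonempty ∧
      2 * (Q + 1) ≤ ((CC δb 0 ω).card : ℝ)) :=
    (LevDep.goodEnv β δb Q J 0).and (((LevDep.CC δb 0).comp fun s => s.Nonempty).and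
      ((LevDep.CC δb 0).comp fun s => 2 * (Q + 1) ≤ ((s.card : ℕ) : ℝ)))
  have hAm : ∀ T, MeasurableSet {ω | A ω T} := fun T => hAl.measurableSet
  set c : ℝ≥0∞ := ENNReal.ofReal (1 / (hk * n)) with hc
  set K : ℝ := (Q * db δb * n / (400 * Real.log n / db δb ^ 2) +
        Real.log n ^ 7 * (1.2 * δb) ^ 3 * n) * τ / n with hK
  have hK0 : 0 ≤ K := by positivity
  set H : Fin n → Env n → SimpleGraph (Fin n) → ℝ≥0∞ := fun z ω T =>
    ind (A ω T) * (hook T (CC δb 0 ω) (CC δb 0 ω) z : ℝ≥0∞) with hH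
  have hHm : ∀ z T, Measurable fun ω => H z ω T := by
    intro z T
    exact (hAl.comp₂ (LevDep.CC δb 0)
      (fun a s => ind a * (hook T s s z : ℝ≥0∞))).measurable
  have hpt : ∀ (ω : Env n) (T : SimpleGraph (Fin n)), T.IsTree →
      ((Finset.univ.filter fun v : Fin n =>
        (ballT T v (l * T.diam) : ℝ) < τ).card : ℝ≥0∞) / n ≤
      ind (ω ∈ S) + (ind (m12P δa ω T) + (ind (m12P δb ω T) +
        ((∑ z, c * H z ω T) + ENNReal.ofReal K))) := by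
    intro ω T hT
    have hone : ((Finset.univ.filter fun v : Fin n =>
        (ballT T v (l * T.diam) : ℝ) < τ).card : ℝ≥0∞) / n ≤ 1 := by
      refine ENNReal.div_le_of_le_mul ?_
      rw [one_mul]
      have := Finset.card_le_univ (Finset.univ.filter fun v : Fin n =>
        (ballT T v (l * T.diam) : ℝ) < τ)
      rw [Fintype.card_fin] at this
      exact_mod_cast this
    by_cases h1 : ω ∈ S
    · refine hone.trans ?_
      have : ind (ω ∈ S) = 1 := by unfold ind; rw [if_pos h1]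
      rw [this]
      exact le_self_add
    by_cases h2 : m12P δa ω T
    · refine hone.trans ?_
      have : ind (m12P δa ω T) = 1 := by unfold ind; rw [if_pos h2]
      rw [this]
      exact le_self_add.trans le_add_self
    by_cases h3 : m12P δb ω T
    · refine hone.trans ?_
      have : ind (m12P δb ω T) = 1 := by unfold ind; rw [if_pos h3]
      rw [this]
      exact (le_self_add.trans le_add_self).trans le_add_self
    have hω : ω ∉ m12S β δa δb Q J Ja := fun h => h1 (hSsub h)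
    obtain ⟨hAω, hd⟩ := m12_det hn hQ hδb hJ hl hτ hL hlow hhk hr hω hT h2 h3
    have hAω' : ind (A ω T) = 1 := by unfold ind; rw [if_pos hAω]
    have hdrop : ∀ a b c d : ℝ≥0∞, d ≤ a + (b + (c + d)) := fun a b c d =>
      le_add_self.trans (le_add_self.trans le_add_self)
    refine le_trans ?_ (hdrop _ _ _ _)
    have e1 : ∑ z, c * H z ω T = ENNReal.ofReal
        ((∑ z, (hook T (CC δb 0 ω) (CC δb 0 ω) z : ℝ)) / hk / n) := by
      rw [div_div, Finset.sum_div, ENNReal.ofReal_sum_of_nonneg fun z _ => by positivity]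
      refine Finset.sum_congr rfl fun z _ => ?_
      rw [hH]
      simp only
      rw [hAω', one_mul, hc, div_eq_mul_one_div (hook T (CC δb 0 ω) (CC δb 0 ω) z : ℝ),
        mul_comm (hook T (CC δb 0 ω) (CC δb 0 ω) z : ℝ),
        ENNReal.ofReal_mul (by positivity), ENNReal.ofReal_natCast]
    rw [e1, ← ENNReal.ofReal_add (by positivity) hK0]
    have e2 : ((Finset.univ.filter fun v : Fin n =>
        (ballT T v (l * T.diam) : ℝ) < τ).card : ℝ≥0∞) / n = ENNReal.ofReal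
        (((Finset.univ.filter fun v : Fin n =>
        (ballT T v (l * T.diam) : ℝ) < τ).card : ℝ) / n) := by
      rw [ENNReal.ofReal_div_of_pos hn0, ENNReal.ofReal_natCast, ENNReal.ofReal_natCast]
    rw [e2]
    refine ENNReal.ofReal_le_ofReal ?_
    rw [hK, ← add_div]
    exact div_le_div_of_nonneg_right hd hn0.le
  refine (EE_mono (β := β) (G := fun ω T => ind (ω ∈ S) + (ind (m12P δa ω T) +
    (ind (m12P δb ω T) + ((∑ z, c * H z ω T) + ENNReal.ofReal K)))) hpt).trans ?_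
  rw [EE_add (fun T => m12_meas_ind (P := fun ω => ω ∈ S) hSm),
    EE_add (fun T => m12_meas_ind (m12P_meas δa T)),
    EE_add (fun T => m12_meas_ind (m12P_meas δb T)),
    EE_add (fun T => Finset.measurable_fun_sum _ fun z _ => (hHm z T).const_mul c)]
  refine add_le_add ?_ (add_le_add (m12_B4 hn1 hβ.le ha) (add_le_add (m12_B4 hn1 hβ.le hb)
    (add_le_add ?_ ?_)))
  · rw [m12_env hn1 hSm, hSmu]
  · rw [EE_sum _ fun z _ T => (hHm z T).const_mul c]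
    have hz : ∀ z : Fin n, EE β (fun ω T => c * H z ω T) ≤
        c * ENNReal.ofReal (100 * J * Q ^ 4 / db δb) := by
      intro z
      rw [EE_const_mul c ENNReal.ofReal_ne_top]
      refine mul_le_mul' le_rfl ?_
      exact hook_exp_C hn hβ hQ hδb z A hAm fun ω T h => h
    refine (Finset.sum_le_sum fun z _ => hz z).trans ?_
    rw [Finset.sum_const, Finset.card_univ, Fintype.card_fin, nsmul_eq_mul, hc,
      ← ENNReal.ofReal_natCast, ← ENNReal.ofReal_mul (by positivity),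
      ← ENNReal.ofReal_mul (by positivity)]
    refine ENNReal.ofReal_le_ofReal (le_of_eq ?_)
    field_simp
  · rw [EE_env hn1 measurable_const, lintegral_const]
    have : mu n Set.univ = 1 := measure_univ
    rw [this, mul_one]

/-! ### asymptotics -/

/-- numeric facts, in terms of `X = n^{δ'/32}`, `y = n^{1/3}`, `N = y³` -/
theorem m12_num {X y L l η N : ℝ} (hX : 1 ≤ X) (hL : 1 ≤ L) (hl : 0 < l)
    (hη : 0 < η) (hN : N = y ^ 3) (hXy : 6 / 5 * X ^ 8 ≤ y)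
    (h1 : 40 * L ≤ X) (h2 : 4 * L ^ 20 ≤ X) (h3 : 9 / l ≤ X)
    (h4 : 3000 / η * L ^ 41 ≤ X) (h5 : 30 / η * L ^ 9 ≤ X) {β : ℝ} (hβ : N * (y / X ^ 2) ≤ β) :
    X ^ 8 / y ≤ 5 / 6 ∧ X ^ 4 / y ≤ X ^ 8 / y ∧ 1 / N ≤ X ^ 8 / y ∧
    2 * L * N ≤ 1 * (X ^ 8 / y) * β ∧ 2 * L * N ≤ 1 * (X ^ 4 / y) * β ∧
    8 * L ≤ β * ((1 + 1.2 * (X ^ 4 / y)) / N - (1 + X ^ 4 / y) / N) ∧
    8 * L ≤ β * ((1 + 1.2 * (X ^ 8 / y)) / N - (1 + X ^ 8 / y) / N) ∧
    2 * (L ^ 10 + 1) * L ^ 10 ≤ (X ^ 8 / y) * N ∧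
    (∀ hk : ℝ, hk ≤ X / (X ^ 8 / y) + 1 →
      2 * (hk + L ^ 10 / (X ^ 8 / y) + 1) + 4 * (L ^ 2 / (X ^ 8 / y)) ≤ l * (1 / (X ^ 4 / y))) ∧
    (∀ J hk : ℝ, X / (X ^ 8 / y) ≤ hk → J ≤ 3 * L →
      100 * J * (L ^ 10) ^ 4 / (X ^ 8 / y) / hk ≤ η / 10) ∧
    (L ^ 10 * (X ^ 8 / y) * N / (400 * L / (X ^ 8 / y) ^ 2) +
        L ^ 7 * (1.2 * (X ^ 8 / y)) ^ 3 * N) * (N / X ^ 32) / N ≤ η / 10 := by
  have hX0 : 0 < X := by linarith
  have hL0 : 0 < L := by linarith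
  have hX8 : 1 ≤ X ^ 8 := one_le_pow₀ hX
  have hy0 : 0 < y := by linarith
  have hy1 : 1 ≤ y := by linarith
  have hN0 : 0 < N := by rw [hN]; positivity
  have hN1 : 1 ≤ N := by rw [hN]; exact one_le_pow₀ hy1
  have hβ0 : 0 < β := lt_of_lt_of_le (by positivity) hβ
  have hXX : ∀ k : ℕ, 1 ≤ k → X ≤ X ^ k := fun k hk => le_self_pow₀ hX (by omega)
  have hβa : N * X ^ 2 ≤ (X ^ 4 / y) * β := by
    calc N * X ^ 2 = (X ^ 4 / y) * (N * (y / X ^ 2)) := by field_simp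
      _ ≤ _ := mul_le_mul_of_nonneg_left hβ (by positivity)
  have hab : X ^ 4 / y ≤ X ^ 8 / y :=
    div_le_div_of_nonneg_right (pow_le_pow_right₀ hX (by norm_num)) hy0.le
  have hβb : N * X ^ 2 ≤ (X ^ 8 / y) * β :=
    hβa.trans (mul_le_mul_of_nonneg_right hab hβ0.le)
  have hLX2 : 40 * L ≤ X ^ 2 := h1.trans (hXX 2 (by norm_num))
  refine ⟨?_, hab, ?_, ?_, ?_, ?_, ?_, ?_, ?_, ?_, ?_⟩
  · rw [div_le_iff₀ hy0]
    linarith
  · rw [div_le_div_iff₀ hN0 hy0, hN]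
    nlinarith [pow_pos hy0 2, pow_pos hy0 3, one_le_pow₀ hy1 (n := 2)]
  · rw [one_mul]
    refine le_trans ?_ hβb
    nlinarith
  · rw [one_mul]
    refine le_trans ?_ hβa
    nlinarith
  · have e : β * ((1 + 1.2 * (X ^ 4 / y)) / N - (1 + X ^ 4 / y) / N) =
        0.2 * ((X ^ 4 / y) * β) / N := by
      field_simp
      ring
    rw [e, le_div_iff₀ hN0]
    nlinarith
  · have e : β * ((1 + 1.2 * (X ^ 8 / y)) / N - (1 + X ^ 8 / y) / N) =
        0.2 * ((X ^ 8 / y) * β) / N := by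
      field_simp
      ring
    rw [e, le_div_iff₀ hN0]
    nlinarith
  · have e : (X ^ 8 / y) * N = X ^ 8 * y ^ 2 := by
      rw [hN]
      field_simp
    rw [e]
    have hL10 : 1 ≤ L ^ 10 := one_le_pow₀ hL
    have e1 : 2 * (L ^ 10 + 1) * L ^ 10 ≤ 4 * L ^ 20 := by
      have : L ^ 20 = L ^ 10 * L ^ 10 := by ring
      rw [this]
      nlinarith
    have e2 : X ≤ X ^ 8 * y ^ 2 := by
      have := hXX 8 (by norm_num)
      nlinarith [one_le_pow₀ hy1 (n := 2)]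
    linarith
  · intro hk hhk
    have e1 : X / (X ^ 8 / y) = y / X ^ 7 := by field_simp
    have e2 : 1 / (X ^ 4 / y) = y / X ^ 7 * X ^ 3 := by field_simp
    have e3 : L ^ 10 / (X ^ 8 / y) = y / X ^ 7 * (L ^ 10 / X) := by field_simp
    have e4 : L ^ 2 / (X ^ 8 / y) = y / X ^ 7 * (L ^ 2 / X) := by field_simp
    rw [e1] at hhk
    rw [e2, e3, e4]
    set Y := y / X ^ 7 with hY
    have hY1 : 1 ≤ Y := by
      rw [hY, one_le_div (by positivity)]
      have : X ^ 7 ≤ X ^ 8 := pow_le_pow_right₀ hX (by norm_num)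
      linarith
    have h10 : L ^ 10 / X ≤ 1 := by
      rw [div_le_one hX0]
      have h11 : L ^ 10 ≤ L ^ 20 := pow_le_pow_right₀ hL (by norm_num)
      have h12 : 0 < L ^ 20 := by positivity
      linarith
    have h2' : L ^ 2 / X ≤ 1 / 4 := by
      rw [div_le_iff₀ hX0]
      have h11 : L ^ 2 ≤ L ^ 20 := pow_le_pow_right₀ hL (by norm_num)
      linarith
    have hX3 : 9 / l ≤ X ^ 3 := h3.trans (hXX 3 (by norm_num))
    have h9 : 9 ≤ l * X ^ 3 := by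
      rw [div_le_iff₀ hl] at hX3
      linarith
    have f1 : Y * (L ^ 10 / X) ≤ Y := by
      calc Y * (L ^ 10 / X) ≤ Y * 1 := mul_le_mul_of_nonneg_left h10 (by linarith)
        _ = Y := mul_one Y
    have f2 : Y * (L ^ 2 / X) ≤ Y * (1 / 4) := mul_le_mul_of_nonneg_left h2' (by linarith)
    have f3 : 9 * Y ≤ l * (Y * X ^ 3) := by
      calc 9 * Y ≤ (l * X ^ 3) * Y := mul_le_mul_of_nonneg_right h9 (by linarith)
        _ = l * (Y * X ^ 3) := by ring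
    linarith
  · intro J hk hhk hJ
    have hd : 0 < X ^ 8 / y := by positivity
    have hhk0 : 0 < hk := lt_of_lt_of_le (by positivity) hhk
    rw [div_div, div_le_iff₀ (by positivity)]
    have hXk : X ≤ X ^ 8 / y * hk := by
      rw [div_le_iff₀ hd] at hhk
      linarith
    have e1 : 100 * J * (L ^ 10) ^ 4 ≤ 300 * L ^ 41 := by
      have : 300 * L ^ 41 = 100 * (3 * L) * (L ^ 10) ^ 4 := by ring
      rw [this]
      gcongr
    have e2 : 300 * L ^ 41 ≤ η / 10 * X := by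
      have : 300 * L ^ 41 = η / 10 * (3000 / η * L ^ 41) := by field_simp; ring
      rw [this]
      exact mul_le_mul_of_nonneg_left h4 (by positivity)
    have e3 : η / 10 * X ≤ η / 10 * (X ^ 8 / y * hk) :=
      mul_le_mul_of_nonneg_left hXk (by positivity)
    linarith
  · have e1 : (L ^ 10 * (X ^ 8 / y) * N / (400 * L / (X ^ 8 / y) ^ 2) +
        L ^ 7 * (1.2 * (X ^ 8 / y)) ^ 3 * N) * (N / X ^ 32) / N =
        (L ^ 9 / 400 + 1.728 * L ^ 7) / X ^ 8 := by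
      rw [hN]
      field_simp
      ring
    rw [e1, div_le_iff₀ (by positivity)]
    have h79 : L ^ 7 ≤ L ^ 9 := pow_le_pow_right₀ hL (by norm_num)
    have e2 : 3 * L ^ 9 ≤ η / 10 * X := by
      have : 3 * L ^ 9 = η / 10 * (30 / η * L ^ 9) := by field_simp; ring
      rw [this]
      exact mul_le_mul_of_nonneg_left h5 (by positivity)
    have e3 : η / 10 * X ≤ η / 10 * X ^ 8 :=
      mul_le_mul_of_nonneg_left (hXX 8 (by norm_num)) (by positivity)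
    have h9 : 0 < L ^ 9 := by positivity
    linarith

theorem m12_levels {δ L : ℝ} (hδ : 0 < δ) (hδ1 : δ ≤ 1) (hL : 1 ≤ L) :
    ∃ J : ℕ, 1 ≤ J ∧ 12 * L ≤ dl δ J ∧ dl δ J ≤ 15 * L := by
  obtain ⟨m, h1, h2⟩ := exists_nat_pow_near (x := 12 * L / δ) (y := (6 / 5 : ℝ))
    (by rw [one_le_div hδ]; linarith) (by norm_num)
  rw [le_div_iff₀ hδ] at h1
  rw [div_lt_iff₀ hδ] at h2
  refine ⟨m + 1, by omega, ?_, ?_⟩
  · unfold dl
    linarith
  · unfold dl
    rw [pow_succ]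
    nlinarith

theorem reg_C (δ' l : ℝ) (hδ : 0 < δ') (hδ1 : δ' ≤ 1) (hl : 0 < l) (hl1 : l ≤ 1) :
    ∀ η : ℝ, 0 < η → ∃ n₀ : ℕ, ∀ n ≥ n₀, ∀ β : ℝ, n * (n : ℝ) ^ (1 / 3 - δ' / 16) ≤ β →
      EE β (fun _ T => ((Finset.univ.filter fun v : Fin n =>
        (ballT T v (l * T.diam) : ℝ) < (n : ℝ) ^ (1 - δ')).card : ℝ≥0∞) / n) ≤
        ENNReal.ofReal η := by
  intro η hη
  obtain ⟨n₁, h₁⟩ := er_good (δ' / 8) 1 15 (by positivity) (by linarith) le_rfl (by norm_num)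
    (η / 10) (by positivity)
  obtain ⟨n₂, h₂⟩ := levels_le (δ' / 8) 15 (by positivity) (by norm_num)
  obtain ⟨n₃, h₃⟩ := far (δ' / 8) (by positivity) (by linarith)
  obtain ⟨n₄, h₄⟩ := ball_vol (δ' / 8) 15 (by positivity) (by linarith) (by norm_num)
  obtain ⟨n₅, h₅⟩ := exc_small (δ' / 8) (by positivity) (by linarith)
  have hs : 0 < δ' / 32 := by positivity
  have e1 := ev_log 40 1 hs
  have e2 := ev_log 4 20 hs
  have e3 := ev_log (9 / l) 0 hs
  have e4 := ev_log (3000 / η) 41 hs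
  have e5 := ev_log (30 / η) 9 hs
  have e6 := ev_log (6 / 5) 0 (show (0 : ℝ) < 1 / 12 by norm_num)
  have e7 : ∀ᶠ n : ℕ in atTop, max 1 (10 / η) ≤ Real.log n :=
    (Real.tendsto_log_atTop.comp tendsto_natCast_atTop_atTop).eventually_ge_atTop _
  obtain ⟨n₀, h₀⟩ := Filter.eventually_atTop.1 (e1.and (e2.and (e3.and (e4.and (e5.and (e6.and
    (e7.and (Filter.eventually_ge_atTop (max 3 (max n₁ (max n₂ (max n₃ (max n₄ n₅)))))))))))))
  refine ⟨n₀, fun n hn β hβ => ?_⟩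
  obtain ⟨f1, f2, f3, f4, f5, f6, f7, f8⟩ := h₀ n hn
  simp only [max_le_iff] at f8
  obtain ⟨g0, g1, g2, g3, g4, g5⟩ := f8
  rw [pow_zero, mul_one] at f3 f6
  rw [pow_one] at f1
  set N : ℝ := (n : ℝ) with hNdef
  set L : ℝ := Real.log n with hLdef
  have hL : 1 ≤ L := (le_max_left _ _).trans f7
  have hL0 : 0 < L := by linarith
  have hLη : 10 / η ≤ L := (le_max_right _ _).trans f7
  have hN3 : (3 : ℝ) ≤ N := by rw [hNdef]; exact_mod_cast g0
  have hN0 : (0 : ℝ) < N := by linarith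
  have hN1 : (1 : ℝ) ≤ N := by linarith
  set X : ℝ := N ^ (δ' / 32) with hX
  set y : ℝ := N ^ ((1 : ℝ) / 3) with hy
  have hX0 : 0 < X := Real.rpow_pos_of_pos hN0 _
  have hy0 : 0 < y := Real.rpow_pos_of_pos hN0 _
  have hX1 : 1 ≤ X := Real.one_le_rpow hN1 hs.le
  have hNy : N = y ^ 3 := by
    rw [hy, ← Real.rpow_natCast, ← Real.rpow_mul hN0.le]
    norm_num
  have hXk : ∀ k : ℕ, N ^ (k * (δ' / 32)) = X ^ k := by
    intro k
    rw [hX, ← Real.rpow_natCast, ← Real.rpow_mul hN0.le]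
    congr 1
    ring
  have hXy : 6 / 5 * X ^ 8 ≤ y := by
    have a1 : y = N ^ ((1 : ℝ) / 3 - δ' / 4) * X ^ 8 := by
      rw [← hXk 8, ← Real.rpow_add hN0, hy]
      congr 1
      push_cast
      ring
    rw [a1]
    refine mul_le_mul_of_nonneg_right ?_ (by positivity)
    refine f6.trans (Real.rpow_le_rpow_of_exponent_le hN1 (by linarith))
  have hda : N ^ (-(1 / 3 : ℝ) + δ' / 8) = X ^ 4 / y := by
    have a1 : -(1 / 3 : ℝ) + δ' / 8 = ((4 : ℕ) : ℝ) * (δ' / 32) - 1 / 3 := by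
      push_cast
      ring
    rw [a1, Real.rpow_sub hN0, hXk 4]
  have hβ' : N * (y / X ^ 2) ≤ β := by
    refine le_trans (le_of_eq ?_) hβ
    have a1 : (1 / 3 : ℝ) - δ' / 16 = 1 / 3 - ((2 : ℕ) : ℝ) * (δ' / 32) := by
      push_cast
      ring
    rw [a1, Real.rpow_sub hN0, hXk 2]
  have hτ : N ^ (1 - δ') = N / X ^ 32 := by
    have a1 : (1 : ℝ) - δ' = 1 - ((32 : ℕ) : ℝ) * (δ' / 32) := by
      push_cast
      ring
    rw [a1, Real.rpow_sub hN0, hXk 32, Real.rpow_one]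
  obtain ⟨k1, k2, k3, k4, k5, k6, k7, k8, k9, k10, k11⟩ :=
    m12_num hX1 hL hl hη hNy hXy f1 f2 f3 f4 f5 hβ'
  set δa : ℝ := X ^ 4 / y with hδa
  set δb : ℝ := X ^ 8 / y with hδb
  have hδa0 : 0 < δa := by positivity
  have hδb0 : 0 < δb := by positivity
  have hδb1 : δb ≤ 1 := by linarith
  have hδa1 : δa ≤ 1 := by linarith
  have hβ0 : 0 < β := lt_of_lt_of_le (by positivity) hβ'
  have hdbb : db δb = δb := min_eq_left hδb1
  obtain ⟨J, hJ1, hJ2, hJ3⟩ := m12_levels hδb0 hδb1 hL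
  obtain ⟨Ja, hJa1, hJa2, hJa3⟩ := m12_levels hδa0 hδa1 hL
  have hda' : (n : ℝ) ^ (-(1 / 3 : ℝ) + δ' / 8) ≤ δa := hda.le
  have hdb' : (n : ℝ) ^ (-(1 / 3 : ℝ) + δ' / 8) ≤ δb := hda'.trans k2
  have hJL : (J : ℝ) ≤ 3 * L := h₂ n g2 δb J hdb' hJ3
  set hk : ℕ := ⌈X / δb⌉₊ with hhk
  have hk1 : X / δb ≤ hk := Nat.le_ceil _
  have hk2 : (hk : ℝ) ≤ X / δb + 1 := (Nat.ceil_lt_add_one (by positivity)).le
  have hk0 : 0 < hk := Nat.ceil_pos.2 (by positivity)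
  have hcore := m12_core (n := n) (by omega) (β := β) (δa := δa) (δb := δb) (Q := L ^ 10)
    (l := l) (τ := (n : ℝ) ^ (1 - δ')) (J := J) (Ja := Ja) (hk := hk) hβ0 (one_le_pow₀ hL)
    k3 hJ1 hl (by positivity) hL0 (by rw [hdbb]; exact k8)
    (by rw [m12_pl_one, m12_pl_zero]; exact k6) (by rw [m12_pl_one, m12_pl_zero]; exact k7)
    hk0 (by rw [hdbb]; exact k9 _ hk2)
  refine hcore.trans ?_
  rw [hdbb]
  have hS : mu n (m12S β δa δb (L ^ 10) J Ja) ≤ ENNReal.ofReal (η / 10) + (ENNReal.ofReal (η / 10)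
      + (ENNReal.ofReal (η / 10) + (ENNReal.ofReal (η / 10) + ENNReal.ofReal (η / 10)))) := by
    have hLinv : 1 / L ≤ η / 10 := by
      rw [div_le_iff₀ hL0]
      rw [div_le_iff₀ hη] at hLη
      linarith
    have hLinv4 : 1 / L ^ 4 ≤ η / 10 := by
      refine le_trans ?_ hLinv
      exact one_div_le_one_div_of_le hL0 (le_self_pow₀ hL (by norm_num))
    unfold m12S
    refine (measure_union_le _ _).trans (add_le_add ?_ ((measure_union_le _ _).trans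
      (add_le_add ?_ ((measure_union_le _ _).trans (add_le_add ?_ ((measure_union_le _ _).trans
      (add_le_add ?_ ?_)))))))
    · exact h₁ n g1 β δb J 0 hβ0.le hdb' hJ2 hJ3 (fun _ => ⟨hβ0, k4⟩) (Nat.zero_le _)
        (by rw [M11.dl_zero, one_mul])
    · exact h₁ n g1 β δa Ja 0 hβ0.le hda' hJa2 hJa3 (fun _ => ⟨hβ0, k5⟩) (Nat.zero_le _)
        (by rw [M11.dl_zero, one_mul])
    · exact (h₃ n g3 δa hda' hδa1).trans (ENNReal.ofReal_le_ofReal hLinv)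
    · exact (h₄ n g4 δb ⟨hdb', by linarith⟩).trans (ENNReal.ofReal_le_ofReal hLinv4)
    · exact (h₅ n g5 (1.2 * δb) (by linarith) (by linarith)).trans
        (ENNReal.ofReal_le_ofReal hLinv)
  have hN4 : 1 / (n : ℝ) ^ 4 ≤ η / 10 := by
    have hLN : L ≤ N := by
      have := Real.log_le_sub_one_of_pos hN0
      rw [hLdef]
      linarith
    have a1 : 10 / η ≤ N ^ 4 := hLη.trans (hLN.trans (le_self_pow₀ hN1 (by norm_num)))
    rw [div_le_iff₀ (by positivity)]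
    rw [div_le_iff₀ hη] at a1
    linarith
  have h10 := k10 J hk hk1 hJL
  rw [hτ]
  refine (add_le_add hS (add_le_add (ENNReal.ofReal_le_ofReal hN4)
    (add_le_add (ENNReal.ofReal_le_ofReal hN4) (add_le_add (ENNReal.ofReal_le_ofReal h10)
    (ENNReal.ofReal_le_ofReal k11))))).trans ?_
  repeat rw [← ENNReal.ofReal_add (by positivity) (by positivity)]
  refine ENNReal.ofReal_le_ofReal ?_
  linarith

end RST
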