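import Pool.Agent.Work.MP_5ba30e_pr.Engine
import Pool.Agent.Work.MP_5ba30e_pr.BridgeR

/-!
# FinalV_engV : the engine data at high temperature (M8)
-/

open MeasureTheory Set Filter Finset
open scoped ENNReal Topology Classical

noncomputable section

namespace RST

variable {n : ℕ}

/-- the good event at high temperature: `GoodEnv` with `δ₀ = 12 log n`, `J = 0`: then
`CC δ₀ 0 ω = univ`, `conn` gives a path of length `≤ QL` between any two vertices at the level
`pl n δ₀ 0 = (1+12 log n)/n`, and `deg` bounds the degrees -/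
def AV (β QL θ : ℝ) (k : ℕ) (σ : Fin k → Fin n) (ω : Env n)
    (T : SimpleGraph (Fin n)) : Prop :=
  GoodEnv β (12 * Real.log n) QL 0 0 ω ∧ (∀ e, 0 ≤ ω e) ∧ TupOK T (im σ) Finset.univ θ

/-- cost of a walk of `Gr ω r` -/
theorem fv_walk_cost {β r : ℝ} (hβ : 0 ≤ β) {ω : Env n} {u v : Fin n} (w : (Gr ω r).Walk u v)
    {L : ℝ} (hl : (w.length : ℝ) ≤ L) :
    ∑ g ∈ w.edges.toFinset, (ww β ω g)⁻¹ ≤ L * Real.exp (β * r) := by
  have h1 : ∑ g ∈ w.edges.toFinset, (ww β ω g)⁻¹ ≤
      ∑ g ∈ w.edges.toFinset, Real.exp (β * r) := by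
    refine Finset.sum_le_sum fun g hg => ?_
    rw [List.mem_toFinset] at hg
    have h2 := w.edges_subset_edgeSet hg
    have h3 : ω g ≤ r := by
      induction g with
      | _ a b => exact (Gr_adj.1 ((SimpleGraph.mem_edgeSet _).1 h2)).2
    unfold ww
    rw [← Real.exp_neg, neg_neg]
    exact Real.exp_le_exp.2 (mul_le_mul_of_nonneg_left h3 hβ)
  rw [Finset.sum_const, nsmul_eq_mul] at h1
  refine h1.trans (mul_le_mul_of_nonneg_right (le_trans ?_ hl) (Real.exp_pos _).le)
  have h4 := w.edges.toFinset_card_le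
  rw [SimpleGraph.Walk.length_edges] at h4
  exact_mod_cast h4

theorem fv_pathCost {β r ρ : ℝ} {ω : Env n} {u v : Fin n} (hb : r < ω s(u, v))
    (w : (Gr ω r).Walk u v) (hc : ∑ g ∈ w.edges.toFinset, (ww β ω g)⁻¹ ≤ ρ)
    (f : Sym2 (Fin n)) : PathCost β ω s(u, v) f ρ := by
  have hle : Gr ω r ≤ ⊤ := le_top
  refine ⟨u, v, w.mapLe hle, rfl, ?_, ?_⟩
  · rw [SimpleGraph.Walk.edges_mapLe_eq_edges]
    intro h1
    have h2 := w.edges_subset_edgeSet h1
    exact absurd (Gr_adj.1 ((SimpleGraph.mem_edgeSet _).1 h2)).2 (not_le.2 hb)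
  · rw [SimpleGraph.Walk.edges_mapLe_eq_edges]
    refine le_trans (Finset.sum_le_sum_of_subset_of_nonneg (Finset.erase_subset _ _) ?_) hc
    intro g _ _
    exact inv_nonneg.2 (ww_pos β ω g).le

/-- number of vertices of the hull -/
theorem fv_hull_card {T : SimpleGraph (Fin n)} (hT : T.IsTree) {S : Finset (Fin n)}
    (hS : S.Nonempty) :
    (Finset.univ.filter fun z => hgt T S z = 0).card ≤ S.card * (T.diam + 1) := by
  obtain ⟨s, hs⟩ := hS
  choose P hP hPl using fun t : Fin n => exists_path hT s t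
  have hsub : (Finset.univ.filter fun z => hgt T S z = 0) ⊆
      S.biUnion fun t => (P t).support.toFinset := by
    intro w hw
    rw [Finset.mem_filter] at hw
    obtain ⟨t, ht, htd⟩ := exists_of_hgt_zero hT hw.2 hs
    obtain ⟨q1, hq1, hq1l⟩ := exists_path hT s w
    obtain ⟨q2, hq2, hq2l⟩ := exists_path hT w t
    have hq : (q1.append q2).IsPath := by
      apply SimpleGraph.Walk.isPath_of_length_eq_dist
      rw [SimpleGraph.Walk.length_append, hq1l, hq2l]
      exact htd
    have hqP : P t = q1.append q2 := (hT.existsUnique_path s t).unique (hP t) hq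
    rw [Finset.mem_biUnion]
    refine ⟨t, ht, ?_⟩
    rw [List.mem_toFinset, hqP, SimpleGraph.Walk.mem_support_append_iff]
    exact Or.inl q1.end_mem_support
  refine (Finset.card_le_card hsub).trans (Finset.card_biUnion_le_card_mul _ _ _ ?_)
  intro t _
  refine (List.toFinset_card_le _).trans ?_
  rw [SimpleGraph.Walk.length_support, hPl t]
  have : Nonempty (Fin n) := ⟨s⟩
  have h1 : T.dist s t ≤ T.diam :=
    SimpleGraph.dist_le_diam (SimpleGraph.connected_iff_ediam_ne_top.1 hT.connected)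
  omega

theorem fv_im_nonempty {k : ℕ} (hk : 1 ≤ k) (σ : Fin k → Fin n) : (im σ).Nonempty :=
  ⟨σ ⟨0, hk⟩, Finset.mem_image_of_mem _ (Finset.mem_univ _)⟩

theorem fv_im_card {k : ℕ} (σ : Fin k → Fin n) : (im σ).card ≤ k := by
  refine Finset.card_image_le.trans ?_
  rw [Finset.card_univ, Fintype.card_fin]

theorem fv_hook (T : SimpleGraph (Fin n)) (S : Finset (Fin n)) (v : Fin n) :
    hook T S Finset.univ v = 0 := by
  unfold hook
  rw [Finset.card_eq_zero, Finset.filter_eq_empty_iff]
  intro i _ h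
  exact h 0 (Nat.zero_le _) (Finset.mem_univ _)

/-- superadditivity -/
theorem sum_EE_le {ι : Type*} (s : Finset ι) {β : ℝ}
    (F : ι → Env n → SimpleGraph (Fin n) → ℝ≥0∞) :
    ∑ i ∈ s, EE β (F i) ≤ EE β (fun ω T => ∑ i ∈ s, F i ω T) := by
  unfold EE
  rw [Finset.sum_comm]
  refine Finset.sum_le_sum fun T _ => ?_
  refine (sum_lintegral_le s _).trans (le_of_eq ?_)
  refine lintegral_congr fun ω => ?_
  rw [Finset.mul_sum]

/-- total mass -/
theorem fv_mass (hn : 1 ≤ n) (β : ℝ) (k : ℕ) :
    ∑ σ : Fin k → Fin n, EE β (fun (_ : Env n) _ => PsiX k σ (Finset.univ : Finset (Fin n))) ≤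
      1 := by
  have h1 : ∀ c : ℝ≥0∞, EE β (fun (_ : Env n) (_ : SimpleGraph (Fin n)) => c) = c := by
    intro c
    have h2 := EE_env hn (β := β) (F := fun _ : Env n => c) measurable_const
    rw [h2]
    simp
  have hne : (Finset.univ : Finset (Fin n)).Nonempty := ⟨⟨0, hn⟩, Finset.mem_univ _⟩
  simp_rw [h1]
  rw [sum_PsiX k hne]

/-- the average over the vertices of an event which holds for at most `b` vertices -/
theorem fv_rel (hn : 1 ≤ n) (β : ℝ) (k : ℕ) {b : ℝ}
    (B : (Fin k → Fin n) → Fin n → Env n → SimpleGraph (Fin n) → Prop)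
    (hB : ∀ σ ω T, T.IsTree → ∑ v, ind (B σ v ω T) ≤ ENNReal.ofReal b) :
    ∑ v : Fin n, ∑ σ : Fin k → Fin n, EE β (fun ω T => ind (B σ v ω T) *
      (PsiX k σ (Finset.univ : Finset (Fin n)) / n)) ≤ ENNReal.ofReal (b / n) := by
  have hn0 : (0 : ℝ) < n := by exact_mod_cast hn
  rw [Finset.sum_comm]
  calc ∑ σ : Fin k → Fin n, ∑ v : Fin n, EE β (fun ω T => ind (B σ v ω T) *
        (PsiX k σ (Finset.univ : Finset (Fin n)) / n))
      ≤ ∑ σ : Fin k → Fin n, EE β (fun (_ : Env n) _ => ENNReal.ofReal (b / n) *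
        PsiX k σ (Finset.univ : Finset (Fin n))) := by
        refine Finset.sum_le_sum fun σ _ => (sum_EE_le _ _).trans (EE_mono fun ω T hT => ?_)
        rw [← Finset.sum_mul]
        have h1 := hB σ ω T hT
        refine (mul_le_mul' h1 le_rfl).trans (le_of_eq ?_)
        rw [ENNReal.ofReal_div_of_pos hn0, ENNReal.ofReal_natCast, ENNReal.div_eq_inv_mul,
          ENNReal.div_eq_inv_mul]
        ring
    _ = ENNReal.ofReal (b / n) * ∑ σ : Fin k → Fin n, EE β (fun (_ : Env n) _ =>
        PsiX k σ (Finset.univ : Finset (Fin n))) := by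
        rw [Finset.mul_sum]
        refine Finset.sum_congr rfl fun σ _ => ?_
        rw [EE_const_mul _ ENNReal.ofReal_ne_top]
    _ ≤ ENNReal.ofReal (b / n) * 1 := mul_le_mul' le_rfl (fv_mass hn β k)
    _ = _ := mul_one _

/-- **Eng at high temperature**, `d = 1`, `ℓw = 1`. `dok`: `cnt`: at most `hgt ≤ diam ≤ D0` edges;
`dens`: `-1 < ω`; `zr`: `f = we T S x i`, `e = s(x,y)`, `f ≠ e`, `pE < ω e`. If `ω f ≤ ω e`: the
path from `x` to `y` given by `conn` has its edges `≤ pE < ω e`, its cost is
`≤ QL e^{β pE}`, `ww ≤ 1`. If `ω e < ω f`: then `pE < ω f` too and the same holds for `f`.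
`Zf_sw_le`. `invX`: trivial (`CX = univ`). `near`: `Near` is the set of the vertices of height `0`
(values are `> -1`), at most `k (D0 + 1)` vertices by `exists_of_hgt_zero`.
`hook = 0` since all vertices are in `C0`. `relV`: `#{v : s < hgt v}/n ≤ b/n`. -/
theorem engV (hn : 2 ≤ n) {β QL Q θ : ℝ} {k : ℕ} (hβ : 0 ≤ β) (hk : 1 ≤ k)
    (hQL : 1 ≤ QL) (hθ : 0 ≤ θ)
    (h1 : 1 + QL * Real.exp (β * ((1 + 12 * Real.log n) / n)) ≤ Q) (h4 : 2 * QL ≤ Q) :
    Eng β 1 Q θ (-1) ((1 + 12 * Real.log n) / n) k 1 (fun _ : Env n => Finset.univ)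
      (fun _ => Finset.univ) (AV β QL θ k) := by
  have hn1 : (0 : ℝ) < n := by
    have : 0 < n := by omega
    exact_mod_cast this
  have hn1' : 1 ≤ n := by omega
  have hQ : 1 ≤ Q := by linarith
  have hpl : pl n (12 * Real.log n) 0 = (1 + 12 * Real.log n) / n := by
    unfold pl dl
    rw [pow_zero, mul_one]
  have hlog : 1 ≤ 12 * Real.log n := by
    have h2 : Real.log 2 ≤ Real.log n := Real.log_le_log (by norm_num) (by exact_mod_cast hn)
    have h3 := Real.log_two_gt_d9
    linarith
  have hdb : db (dl (12 * Real.log n) 0) = 1 := by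
    unfold db dl
    rw [pow_zero, mul_one]
    exact min_eq_right hlog
  have hrel : ∀ (s : ℕ) (b : ℝ), 0 ≤ b → ∑ v : Fin n, ∑ σ : Fin k → Fin n,
      EE β (fun ω T => ind (AV β QL θ k σ ω T ∧
        s < hgt T (im σ) (dn T (im σ) v (hook T (im σ) Finset.univ v)) ∧
        (((Finset.univ : Finset (Fin n)).filter fun q => s < hgt T (im σ) q).card : ℝ) ≤ b) *
      (PsiX k σ (Finset.univ : Finset (Fin n)) / n)) ≤ ENNReal.ofReal (Q * b / (1 * n)) := by
    intro s b hb
    refine (fv_rel hn1' β k (b := b) (fun σ v ω T => AV β QL θ k σ ω T ∧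
        s < hgt T (im σ) (dn T (im σ) v (hook T (im σ) Finset.univ v)) ∧
        (((Finset.univ : Finset (Fin n)).filter fun q => s < hgt T (im σ) q).card : ℝ) ≤ b)
        ?_).trans ?_
    · intro σ ω T _
      simp only [fv_hook, dn_zero]
      by_cases h : (((Finset.univ : Finset (Fin n)).filter fun q =>
          s < hgt T (im σ) q).card : ℝ) ≤ b
      · have h2 : ∑ v : Fin n, ind (s < hgt T (im σ) v) =
            (((Finset.univ : Finset (Fin n)).filter fun q => s < hgt T (im σ) q).card : ℝ≥0∞) := by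
          unfold ind
          rw [Finset.card_filter]
          push_cast
          refine Finset.sum_congr rfl fun i _ => ?_
          congr
        calc ∑ v, ind (AV β QL θ k σ ω T ∧ s < hgt T (im σ) v ∧
              (((Finset.univ : Finset (Fin n)).filter fun q =>
                s < hgt T (im σ) q).card : ℝ) ≤ b)
            ≤ ∑ v : Fin n, ind (s < hgt T (im σ) v) :=
              Finset.sum_le_sum fun v _ => ind_mono fun hv => hv.2.1
          _ = _ := h2
          _ ≤ ENNReal.ofReal b := by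
              rw [← ENNReal.ofReal_natCast]
              exact ENNReal.ofReal_le_ofReal h
      · have h2 : ∀ v : Fin n, ind (AV β QL θ k σ ω T ∧ s < hgt T (im σ) v ∧
            (((Finset.univ : Finset (Fin n)).filter fun q =>
              s < hgt T (im σ) q).card : ℝ) ≤ b) = 0 := by
          intro v
          unfold ind
          rw [if_neg]
          intro hv
          exact h hv.2.2
        rw [Finset.sum_congr rfl fun v _ => h2 v]
        simp
    · apply ENNReal.ofReal_le_ofReal
      rw [one_mul]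
      have : b ≤ Q * b := by nlinarith
      gcongr
  have hX : ∀ σ : Fin k → Fin n, ∀ z : Fin n,
      PsiX k σ (Finset.univ : Finset (Fin n)) * ind (z ∈ (Finset.univ : Finset (Fin n))) /
        ((Finset.univ : Finset (Fin n)).card : ℝ≥0∞) =
      PsiX k σ (Finset.univ : Finset (Fin n)) / n := by
    intro σ z
    rw [Finset.card_univ, Fintype.card_fin]
    simp [ind]
  refine ⟨fun v => by simp, fun v => by simp, ?_, ?_, ?_, ?_, ?_, ?_, ?_, ?_, ?_⟩
  · intro σ T
    unfold AV
    refine measurableSet_setOfPred.2 ((measurableSet_setOfPred.1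
      (LevDep.goodEnv _ _ _ _ _).measurableSet).and (Measurable.and ?_ measurable_const))
    exact Measurable.forall fun e => measurableSet_setOfPred.1
      (measurableSet_le measurable_const (measurable_pi_apply e))
  · intro σ ω T _ _
    rw [Finset.card_univ, Fintype.card_fin, one_mul, div_le_iff₀ (by linarith)]
    nlinarith
  · intro σ ω T _ _
    rw [Finset.card_univ, Fintype.card_fin]
    nlinarith
  · rintro σ ω T D0 hT ⟨hG, h0, hlite⟩ hD
    have hS := fv_im_nonempty hk σ
    have hD0 : 0 ≤ D0 := (Nat.cast_nonneg _).trans hD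
    have hconn : ∀ x y : Fin n, ∃ w : (Gr ω ((1 + 12 * Real.log n) / n)).Walk x y,
        (w.length : ℝ) ≤ QL := by
      intro x y
      have hf := hG.full
      obtain ⟨w, -, w2, -⟩ := hG.conn 0 le_rfl x (by rw [hf]; exact Finset.mem_univ _) y
        (by rw [hf]; exact Finset.mem_univ _)
      rw [hdb, div_one] at w2
      rw [← hpl]
      exact ⟨w, w2⟩
    refine ⟨Finset.Subset.refl _, ?_, hlite, fun _ _ _ _ => Finset.mem_univ _, ?_, ?_, ?_, ?_,
      fun _ _ _ _ => rfl⟩
    · have : (0 : ℝ) ≤ ((Finset.univ : Finset (Fin n)).card : ℝ) := Nat.cast_nonneg _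
      nlinarith
    · intro x _ i _
      exact ⟨i, le_rfl, Nat.lt_succ_self i, by have := h0 (we T (im σ) x i); linarith⟩
    · intro x _
      have h2 : (((Finset.range (hgt T (im σ) x)).filter fun i =>
          -1 < ω (we T (im σ) x i)).card : ℝ) ≤ T.diam := by
        have h3 := (Finset.card_filter_le (Finset.range (hgt T (im σ) x)) (fun i =>
          -1 < ω (we T (im σ) x i)))
        rw [Finset.card_range] at h3
        exact_mod_cast h3.trans (hgt_le_diam hT hS)
      nlinarith
    · intro x _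
      have h2 := hG.deg x
      rw [hpl] at h2
      have h3 : (((Finset.univ : Finset (Fin n)).filter fun y => y ≠ x ∧
          ω s(x, y) ≤ (1 + 12 * Real.log n) / n).card : ℝ) ≤ QL := by
        refine le_trans ?_ h2
        have h4 : ((Finset.univ : Finset (Fin n)).filter fun y => y ≠ x ∧
          ω s(x, y) ≤ (1 + 12 * Real.log n) / n).card ≤
          (Finset.univ.filter fun y => (Gr ω ((1 + 12 * Real.log n) / n)).Adj x y).card := by
          refine Finset.card_le_card fun y hy => ?_
          rw [Finset.mem_filter] at hy ⊢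
          exact ⟨hy.1, Gr_adj.2 ⟨hy.2.1.symm, hy.2.2⟩⟩
        exact_mod_cast h4
      linarith
    · intro x y i hmok
      obtain ⟨b1, b2, b3, b4⟩ := hmok.basic hT hS
      have hfe : we T (im σ) x i ≠ s(x, y) := fun h => b2 (h ▸ b1)
      have hfd : ¬ (we T (im σ) x i).IsDiag := T.not_isDiag_of_mem_edgeSet b1
      have hpE : (1 + 12 * Real.log n) / n < ω s(x, y) := hmok.2.2.2.2.2.2
      set ρ := QL * Real.exp (β * ((1 + 12 * Real.log n) / n)) with hρ
      have hρ0 : 0 ≤ ρ := by positivity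
      have hw1 : ∀ g, ww β ω g ≤ 1 := by
        intro g
        unfold ww
        rw [Real.exp_le_one_iff]
        have := mul_nonneg hβ (h0 g)
        linarith
      have hz := Zf_sw_le hn1' hβ hρ0 hfe hfd b3
        (fun _ => by
          obtain ⟨w, hw⟩ := hconn x y
          exact fv_pathCost hpE w (fv_walk_cost hβ w hw) _)
        (fun hlt => by
          have hpf : (1 + 12 * Real.log n) / n < ω (we T (im σ) x i) := hpE.trans hlt
          unfold we at hpf ⊢
          obtain ⟨w, hw⟩ := hconn (dn T (im σ) x i) (dn T (im σ) x (i + 1))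
          exact fv_pathCost hpf w (fv_walk_cost hβ w hw) _)
      refine hz.trans (mul_le_mul_of_nonneg_right ?_ (Zf_pos hn1' β ω).le)
      have h5 : max (ww β ω (we T (im σ) x i)) (ww β ω s(x, y)) * ρ ≤ 1 * ρ :=
        mul_le_mul_of_nonneg_right (max_le (hw1 _) (hw1 _)) hρ0
      linarith
  · rintro σ ω T D0 hT ⟨hG, h0, hlite⟩ hD
    have hS := fv_im_nonempty hk σ
    have hD0 : 0 ≤ D0 := (Nat.cast_nonneg _).trans hD
    have h2 : Near T (im σ) (-1) ω ⊆ Finset.univ.filter fun z => hgt T (im σ) z = 0 := by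
      intro z hz
      rw [Near, Finset.mem_filter] at hz
      rw [Finset.mem_filter]
      refine ⟨Finset.mem_univ _, ?_⟩
      by_contra h3
      have h4 := hz.2 0 (Nat.pos_of_ne_zero h3)
      have h5 := h0 (we T (im σ) z 0)
      linarith
    have h3 := (Finset.card_le_card h2).trans (fv_hull_card hT hS)
    have h4 : ((Near T (im σ) (-1) ω).card : ℝ) ≤ ((im σ).card : ℝ) * ((T.diam : ℝ) + 1) := by
      exact_mod_cast h3
    have h5 : ((im σ).card : ℝ) ≤ k := by exact_mod_cast fv_im_card σ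
    have hk0 : (0 : ℝ) ≤ k := Nat.cast_nonneg _
    calc ((Near T (im σ) (-1) ω).card : ℝ) ≤ ((im σ).card : ℝ) * ((T.diam : ℝ) + 1) := h4
      _ ≤ k * (D0 + 1) := by gcongr
      _ ≤ Q * (k * (D0 + 1)) := by
          have : 0 ≤ k * (D0 + 1) := by positivity
          nlinarith
      _ = Q * k * (1 * D0 + 1) / 1 ^ 2 := by ring
  · unfold E3V
    simp only [fv_hook, Nat.cast_zero, mul_zero, zero_mul]
    simp [EE]
  · unfold E3X
    simp only [fv_hook, Nat.cast_zero, mul_zero, zero_mul]
    simp [EE]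
  · intro s b hb
    exact hrel s b hb
  · intro s b hb
    unfold E3X
    simp only [hX]
    exact hrel s b hb

end RST
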