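import Pool.Agent.Work.MP_5ba30e_pr.FinalB
import Pool.Agent.Work.MP_5ba30e_pr.FinalV_engV

/-!
# FinalV : the high temperature regime `β ≤ κ₀ n`

Here `C0 = CX = V`, all edges of the walks are marked (`pm = -1`), and the exchanges of the edge
`{a,b}` for `{x,y}` with `pE < ω s(x,y)`, `pE = (1 + 12 log n)/n`, cost at most a factor
`1 + QL e^{β pE}`, `≤ n^a` if `β ≤ κ₀ n`, `κ₀` small.
-/

open MeasureTheory Set Filter Finset
open scoped ENNReal Topology Classical

noncomputable section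

namespace RST

variable {n : ℕ}

/-- `log^10 n ≤ n^e` -/
theorem FV.log_pow (e : ℝ) (he : 0 < e) :
    ∀ᶠ n : ℕ in atTop, Real.log n ^ 10 ≤ (n : ℝ) ^ e := by
  have h1 := (isLittleO_log_rpow_rpow_atTop (10 : ℝ) he).bound one_pos
  have h2 := tendsto_natCast_atTop_atTop.eventually h1
  filter_upwards [h2, eventually_ge_atTop 1] with n hn h1n
  have h3 : (1 : ℝ) ≤ n := by exact_mod_cast h1n
  have h4 : 0 ≤ Real.log n := Real.log_nonneg h3
  have h5 : Real.log (n : ℝ) ^ (10 : ℝ) = Real.log n ^ 10 := by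
    rw [← Real.rpow_natCast]; norm_num
  rw [one_mul, h5, Real.norm_of_nonneg (by positivity), Real.norm_of_nonneg (by positivity)] at hn
  exact hn

theorem FV.rpow_ge (e C : ℝ) (he : 0 < e) : ∀ᶠ n : ℕ in atTop, C ≤ (n : ℝ) ^ e :=
  ((tendsto_rpow_atTop he).comp tendsto_natCast_atTop_atTop).eventually_ge_atTop C

theorem FV.rpow_neg_le (e C η : ℝ) (he : 0 < e) (hη : 0 < η) :
    ∀ᶠ n : ℕ in atTop, C * (n : ℝ) ^ (-e) ≤ η := by
  have h1 := ((tendsto_rpow_neg_atTop he).comp tendsto_natCast_atTop_atTop).const_mul C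
  rw [mul_zero] at h1
  exact (h1.eventually (gt_mem_nhds hη)).mono fun n hn => le_of_lt hn

/-- `n² exp (-n^a) → 0` -/
theorem FV.sq_exp_le (a η : ℝ) (ha : 0 < a) (hη : 0 < η) :
    ∀ᶠ n : ℕ in atTop, (n : ℝ) ^ 2 * Real.exp (-(n : ℝ) ^ a) ≤ η := by
  have h1 := tendsto_rpow_mul_exp_neg_mul_atTop_nhds_zero (2 / a) 1 one_pos
  have h2 := h1.comp ((tendsto_rpow_atTop ha).comp tendsto_natCast_atTop_atTop)
  have h3 := h2.eventually (gt_mem_nhds hη)
  filter_upwards [h3, eventually_ge_atTop 1] with n hn h1n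
  have h4 : (0 : ℝ) ≤ n := by positivity
  simp only [Function.comp] at hn
  rw [← Real.rpow_mul h4, mul_div_cancel₀ _ ha.ne'] at hn
  have h5 : (n : ℝ) ^ (2 : ℝ) = (n : ℝ) ^ 2 := by norm_cast
  rw [h5, neg_mul, one_mul] at hn
  exact hn.le

/-- the constant of the engine dominates the cost of the exchanges -/
theorem FV.cost (a : ℝ) (ha : 0 < a) :
    ∀ᶠ n : ℕ in atTop, ∀ β : ℝ, 0 ≤ β → β ≤ a / 100 * n →
      1 + Real.log n ^ 10 * Real.exp (β * ((1 + 12 * Real.log n) / n)) ≤ (n : ℝ) ^ a := by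
  filter_upwards [FV.log_pow (a / 4) (by positivity), FV.rpow_ge (a / 2) (4 + Real.exp (a / 100) * 2)
    (by positivity), eventually_ge_atTop 1] with n h1 h2 h3 β hβ hβ1
  have hn1 : (1 : ℝ) ≤ n := by exact_mod_cast h3
  have hn0 : (0 : ℝ) < n := by linarith
  have hlog : 0 ≤ Real.log n := Real.log_nonneg hn1
  have h4 : β * ((1 + 12 * Real.log n) / n) ≤ a / 100 + Real.log n * (a / 4) := by
    have h5 : β / n ≤ a / 100 := by rw [div_le_iff₀ hn0]; exact hβ1
    have h6 : β * ((1 + 12 * Real.log n) / n) = β / n * (1 + 12 * Real.log n) := by ring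
    rw [h6]
    calc β / n * (1 + 12 * Real.log n) ≤ a / 100 * (1 + 12 * Real.log n) :=
          mul_le_mul_of_nonneg_right h5 (by positivity)
      _ ≤ _ := by nlinarith [mul_nonneg ha.le hlog]
  have h7 : Real.exp (β * ((1 + 12 * Real.log n) / n)) ≤ Real.exp (a / 100) * (n : ℝ) ^ (a / 4) := by
    rw [Real.rpow_def_of_pos hn0, ← Real.exp_add]
    exact Real.exp_le_exp.2 h4
  have h8 : (n : ℝ) ^ (a / 4) * (n : ℝ) ^ (a / 4) = (n : ℝ) ^ (a / 2) := by
    rw [← Real.rpow_add hn0]; congr 1; ring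
  have h9 : (n : ℝ) ^ (a / 2) * (n : ℝ) ^ (a / 2) = (n : ℝ) ^ a := by
    rw [← Real.rpow_add hn0]; congr 1; ring
  have h10 : Real.log n ^ 10 * Real.exp (β * ((1 + 12 * Real.log n) / n)) ≤
      (n : ℝ) ^ (a / 4) * (Real.exp (a / 100) * (n : ℝ) ^ (a / 4)) :=
    mul_le_mul h1 h7 (Real.exp_pos _).le (by positivity)
  have h11 : (n : ℝ) ^ (a / 4) * (Real.exp (a / 100) * (n : ℝ) ^ (a / 4)) =
      Real.exp (a / 100) * (n : ℝ) ^ (a / 2) := by rw [← h8]; ring
  rw [h11] at h10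
  rw [← h9]
  have h12 := Real.exp_pos (a / 100)
  nlinarith

theorem measurableSet_AV (β QL θ : ℝ) (k : ℕ) (σ : Fin k → Fin n) (T : SimpleGraph (Fin n)) :
    MeasurableSet {ω : Env n | AV β QL θ k σ ω T} := by
  have h1 : MeasurableSet {ω : Env n | GoodEnv β (12 * Real.log n) QL 0 0 ω} :=
    (LevDep.goodEnv β (12 * Real.log n) QL 0 0).measurableSet
  have h2 : MeasurableSet {ω : Env n | ∀ e, 0 ≤ ω e} := by
    have : {ω : Env n | ∀ e, 0 ≤ ω e} = ⋂ e, {ω : Env n | 0 ≤ ω e} := by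
      ext ω; simp
    rw [this]
    exact MeasurableSet.iInter fun e => measurableSet_le measurable_const (measurable_pi_apply e)
  exact h1.inter (h2.inter (MeasurableSet.const _))

/-- probability of the bad event -/
theorem E3_not_AV (hn : 1 ≤ n) {β QL θ : ℝ} {k : ℕ} (hk : 1 ≤ k) (hθ : 0 ≤ θ) (hθ1 : θ ≤ 1) :
    E3 (n := n) β k (fun _ => Finset.univ) (fun σ ω T => ind (¬ AV β QL θ k σ ω T)) ≤
      mu n {ω | ¬ GoodEnv β (12 * Real.log n) QL 0 0 ω} +
        ENNReal.ofReal ((n : ℝ) ^ 2 * (1 - θ) ^ k) := by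
  have hG : MeasurableSet {ω : Env n | ¬ GoodEnv β (12 * Real.log n) QL 0 0 ω} :=
    (LevDep.goodEnv β (12 * Real.log n) QL 0 0).measurableSet.compl
  have hne : (Finset.univ : Finset (Fin n)).Nonempty := ⟨⟨0, hn⟩, Finset.mem_univ _⟩
  unfold E3
  rw [← EE_sum Finset.univ (F := fun σ ω T => ind (¬ AV β QL θ k σ ω T) *
    PsiX k σ (Finset.univ : Finset (Fin n))) (fun σ _ T =>
      (measurable_ind (measurableSet_AV β QL θ k σ T).compl).mul measurable_const)]
  calc EE β (fun ω T => ∑ σ : Fin k → Fin n, ind (¬ AV β QL θ k σ ω T) *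
        PsiX k σ (Finset.univ : Finset (Fin n)))
      ≤ EE β (fun ω _ => ind (¬ GoodEnv β (12 * Real.log n) QL 0 0 ω) +
          ENNReal.ofReal ((n : ℝ) ^ 2 * (1 - θ) ^ k)) := by
        apply EE_mono_ae
        filter_upwards [ae_mem n] with ω hω T hT
        by_cases hgood : GoodEnv β (12 * Real.log n) QL 0 0 ω
        · have h1 : ∀ σ : Fin k → Fin n, ind (¬ AV β QL θ k σ ω T) *
              PsiX k σ (Finset.univ : Finset (Fin n)) ≤
              PsiX k σ (Finset.univ : Finset (Fin n)) *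
                ind (¬ TupOK T (im σ) (Finset.univ : Finset (Fin n)) θ) := by
            intro σ
            rw [mul_comm]
            refine mul_le_mul' le_rfl (ind_mono fun h h' => h ⟨hgood, fun e => (hω e).1, h'⟩)
          refine ((Finset.sum_le_sum fun σ _ => h1 σ).trans
            (tup_bad T k hθ hθ1 hk)).trans le_add_self
        · have h1 : ind (¬ GoodEnv β (12 * Real.log n) QL 0 0 ω) = 1 := if_pos hgood
          rw [h1]
          refine le_trans ?_ le_self_add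
          rw [← sum_PsiX k hne]
          refine Finset.sum_le_sum fun σ _ => ?_
          calc ind (¬ AV β QL θ k σ ω T) * PsiX k σ (Finset.univ : Finset (Fin n))
              ≤ 1 * PsiX k σ (Finset.univ : Finset (Fin n)) := mul_le_mul' (ind_le_one _) le_rfl
            _ = _ := one_mul _
    _ = mu n {ω | ¬ GoodEnv β (12 * Real.log n) QL 0 0 ω} +
        ENNReal.ofReal ((n : ℝ) ^ 2 * (1 - θ) ^ k) := by
        have hmeas : Measurable fun ω : Env n => ind (¬ GoodEnv β (12 * Real.log n) QL 0 0 ω) :=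
          measurable_ind hG
        rw [EE_add (F := fun ω _ => ind (¬ GoodEnv β (12 * Real.log n) QL 0 0 ω))
          (G := fun _ _ => ENNReal.ofReal ((n : ℝ) ^ 2 * (1 - θ) ^ k)) fun _ => hmeas,
          EE_env hn hmeas, EE_env hn measurable_const, lintegral_const]
        have hprob : IsProbabilityMeasure (mu n) := by
          have : IsProbabilityMeasure ((volume : Measure ℝ).restrict (Set.Icc (0 : ℝ) 1)) :=
            ⟨by simp⟩
          unfold mu; infer_instance
        rw [measure_univ, mul_one]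
        congr 1
        rw [← lintegral_indicator_one hG]
        rfl

/-- **High temperature regime**. `c = δ'/16`, `a` from `engine c l`; `κ₀ = a/100`, `QL = log^10 n`,
`Q = n^a`; `er_good` with `δ₀ = 12 log n`, `J = jX = 0` (no condition on `β` as `δ₀ ≥ 1`). -/
theorem reg_V (δ' l : ℝ) (hδ : 0 < δ') (hδ1 : δ' ≤ 1) (hl : 0 < l) (hl1 : l ≤ 1) :
    ∃ κ₀ > 0, ∀ η : ℝ, 0 < η → ∃ n₀ : ℕ, ∀ n ≥ n₀, ∀ β : ℝ, 0 ≤ β → β ≤ κ₀ * n →
      EE β (fun _ T => ((Finset.univ.filter fun v : Fin n =>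
        (ballT T v (l * T.diam) : ℝ) < (n : ℝ) ^ (1 - δ')).card : ℝ≥0∞) / n) ≤
        ENNReal.ofReal η := by
  set c : ℝ := δ' / 16 with hc
  have hc0 : 0 < c := by positivity
  have hc1 : c ≤ 1 / 16 := by rw [hc]; linarith
  obtain ⟨a, ha, hac, n₁, heng⟩ := engine c l hc0 (by linarith) hl hl1
  refine ⟨a / 100, by positivity, fun η hη => ?_⟩
  obtain ⟨n₂, hgood⟩ := er_good c 1 12 hc0 (by linarith) le_rfl (by norm_num) (η / 4) (by positivity)
  have hC : 0 < 8 / l + 3 := by positivity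
  have hev := (FV.log_pow (a / 4) (by positivity)).and ((FV.cost a ha).and
    ((FV.rpow_ge (a / 4) 2 (by positivity)).and ((FV.sq_exp_le a (η / 4) ha (by positivity)).and
    ((FV.rpow_neg_le a 1 (η / 4) ha (by positivity)).and
    (FV.rpow_neg_le (δ' - c / 2) (2 * (8 / l + 3)) (η / 4) (by rw [hc]; linarith)
      (by positivity))))))
  obtain ⟨n₃, hn₃⟩ := eventually_atTop.1 hev
  refine ⟨max n₁ (max n₂ (max n₃ 3)), fun n hn β hβ hβ1 => ?_⟩
  have hn1 : n₁ ≤ n := le_trans (le_max_left _ _) hn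
  have hn2 : n₂ ≤ n := le_trans (le_trans (le_max_left _ _) (le_max_right _ _)) hn
  have hn3 : n₃ ≤ n := le_trans (le_trans (le_max_left _ _)
    (le_trans (le_max_right _ _) (le_max_right _ _))) hn
  have hn4 : 3 ≤ n := le_trans (le_trans (le_max_right _ _)
    (le_trans (le_max_right _ _) (le_max_right _ _))) hn
  obtain ⟨hA1, hA2, hA3, hA4, hA5, hA6⟩ := hn₃ n hn3
  have hnR : (3 : ℝ) ≤ n := by exact_mod_cast hn4
  have hn0 : (0 : ℝ) < n := by linarith
  have hn1R : (1 : ℝ) ≤ n := by linarith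
  have hlog1 : 1 ≤ Real.log n := by
    rw [Real.le_log_iff_exp_le hn0]
    exact Real.exp_one_lt_d9.le.trans (by norm_num; linarith)
  set k : ℕ := ⌈(n : ℝ) ^ (c / 2)⌉₊ with hk
  set θ : ℝ := (n : ℝ) ^ (-(c / 2) + a) with hθ
  set QL : ℝ := Real.log n ^ 10 with hQL
  have hpc : 1 ≤ (n : ℝ) ^ (c / 2) := Real.one_le_rpow hn1R (by positivity)
  have hk1 : 1 ≤ k := by
    rw [hk]; exact Nat.one_le_ceil_iff.2 (by linarith)
  have hkl : (n : ℝ) ^ (c / 2) ≤ k := Nat.le_ceil _
  have hku : (k : ℝ) ≤ 2 * (n : ℝ) ^ (c / 2) := by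
    have := (Nat.ceil_lt_add_one (by linarith : 0 ≤ (n : ℝ) ^ (c / 2))).le
    linarith
  have hθ0 : 0 ≤ θ := by positivity
  have hθ1 : θ ≤ 1 := Real.rpow_le_one_of_one_le_of_nonpos hn1R (by linarith)
  have hQL1 : 1 ≤ QL := one_le_pow₀ hlog1
  have hQ4 : 2 * QL ≤ (n : ℝ) ^ a := by
    have e1 : (n : ℝ) ^ (a / 4) * (n : ℝ) ^ (a / 4) ≤ (n : ℝ) ^ a := by
      rw [← Real.rpow_add hn0]
      exact Real.rpow_le_rpow_of_exponent_le hn1R (by linarith)
    nlinarith
  -- Eng
  have hEng := engV (n := n) (by omega) (β := β) (QL := QL) (Q := (n : ℝ) ^ a) (θ := θ) (k := k)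
    hβ hk1 hQL1 hθ0 (hA2 β hβ hβ1) hQ4
  have h2 := heng n hn1 β 1 (-1) ((1 + 12 * Real.log n) / n) 1 (fun _ => Finset.univ)
    (fun _ => Finset.univ) (AV β QL θ k)
    (Real.rpow_le_one_of_one_le_of_nonpos hn1R (by linarith)) le_rfl le_rfl
    (by
      have : (1 : ℝ) ≤ (n : ℝ) ^ a := Real.one_le_rpow hn1R ha.le
      rw [div_one]; push_cast; linarith) hEng
  -- good event
  have h1 := E3_not_AV (n := n) (by omega) (β := β) (QL := QL) (θ := θ) (k := k) hk1 hθ0 hθ1
  have hg := hgood n hn2 β (12 * Real.log n) 0 0 hβ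
    (by
      have : (n : ℝ) ^ (-(1 / 3 : ℝ) + c) ≤ 1 :=
        Real.rpow_le_one_of_one_le_of_nonpos hn1R (by linarith)
      linarith)
    (by unfold dl; simp) (by unfold dl; simp) (fun h => absurd h (by linarith)) le_rfl
    (by unfold dl; simp)
  have hk3 : (n : ℝ) ^ 2 * (1 - θ) ^ k ≤ η / 4 := by
    refine le_trans ?_ hA4
    refine mul_le_mul_of_nonneg_left ?_ (by positivity)
    calc (1 - θ) ^ k ≤ Real.exp (-θ) ^ k := by
          apply pow_le_pow_left₀ (by linarith)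
          have := Real.add_one_le_exp (-θ)
          linarith
      _ = Real.exp (-(θ * k)) := by rw [← Real.exp_nat_mul]; congr 1; ring
      _ ≤ Real.exp (-(n : ℝ) ^ a) := by
          apply Real.exp_le_exp.2
          apply neg_le_neg
          calc (n : ℝ) ^ a = θ * (n : ℝ) ^ (c / 2) := by
                rw [hθ, ← Real.rpow_add hn0]; congr 1; ring
            _ ≤ θ * k := mul_le_mul_of_nonneg_left hkl hθ0
  -- balls
  have hball := ball_of_E3 (n := n) (by omega) (β := β) (l := l) (τ := (n : ℝ) ^ (1 - δ')) (k := k)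
    hk1 hl hl1 (Real.one_le_rpow hn1R (by linarith)) (CX := fun _ => Finset.univ)
    (fun v => by simp) (A := AV β QL θ k) (fun σ T => measurableSet_AV β QL θ k σ T)
  refine hball.trans ?_
  have hlast : EE (n := n) β (fun _ _ => ind ((Finset.univ : Finset (Fin n)) = ∅)) ≤ 0 := by
    have e1 : ind ((Finset.univ : Finset (Fin n)) = ∅) = 0 := by
      unfold ind
      rw [if_neg]
      exact Finset.Nonempty.ne_empty ⟨⟨0, by omega⟩, Finset.mem_univ _⟩
    unfold EE
    rw [e1]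
    simp
  have h3 : k * (8 / l + 3) * (n : ℝ) ^ (1 - δ') / n ≤ η / 4 := by
    refine le_trans ?_ hA6
    have e1 : (n : ℝ) ^ (1 - δ') / n = (n : ℝ) ^ (-δ') := by
      rw [Real.rpow_sub hn0, Real.rpow_one, Real.rpow_neg hn0.le]; field_simp
    have e2 : (n : ℝ) ^ (c / 2) * (n : ℝ) ^ (-δ') = (n : ℝ) ^ (-(δ' - c / 2)) := by
      rw [← Real.rpow_add hn0]; congr 1; ring
    calc k * (8 / l + 3) * (n : ℝ) ^ (1 - δ') / n = k * ((8 / l + 3) * (n : ℝ) ^ (-δ')) := by
          rw [← e1]; ring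
      _ ≤ (2 * (n : ℝ) ^ (c / 2)) * ((8 / l + 3) * (n : ℝ) ^ (-δ')) :=
          mul_le_mul_of_nonneg_right hku (by positivity)
      _ = 2 * (8 / l + 3) * ((n : ℝ) ^ (c / 2) * (n : ℝ) ^ (-δ')) := by ring
      _ = _ := by rw [e2]
  have h4 : (n : ℝ) ^ (-a) ≤ η / 4 := by rw [one_mul] at hA5; exact hA5
  have hη4 : (0 : ℝ) ≤ η / 4 := by positivity
  calc _ ≤ (ENNReal.ofReal (η / 4) + ENNReal.ofReal (η / 4)) + ENNReal.ofReal (η / 4) +
        ENNReal.ofReal (η / 4) + 0 := by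
        refine add_le_add (add_le_add (add_le_add ?_ ?_) ?_) hlast
        · exact h1.trans (add_le_add hg (ENNReal.ofReal_le_ofReal hk3))
        · exact h2.trans (ENNReal.ofReal_le_ofReal h4)
        · exact ENNReal.ofReal_le_ofReal h3
    _ = ENNReal.ofReal η := by
        rw [add_zero, ← ENNReal.ofReal_add hη4 hη4, ← ENNReal.ofReal_add (by positivity) hη4,
          ← ENNReal.ofReal_add (by positivity) hη4]
        congr 1; ring

end RST
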