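import Pool.Agent.Work.MP_5ba30e_pr.TreeA

/-!
# Flow : exchange of two edges in the joint law of `(ω, T)`

`sw f e ω` exchanges the values of `ω` at `f` and `e`; it preserves `mu n`, and
`wt β (sw f e ω) (swp T f e) = wt β ω T` if `f ∈ T`, `e ∉ T`.

Proof of `flow_count`. For fixed `T, f, e` put `T' = swp T f e`. On `{V ω T f e}`:
`gibbs β ω T = wt β (sw f e ω) T' / Zf β ω ≤ M * gibbs β (sw f e ω) T'`.  Hence
`EE (g Ψ) ≤ ∑_T ∑_f ∑_e ∫⁻ ofReal (gibbs ω T) * ind (V ω T f e) * Ψ ω`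
`≤ M ∑_T ∑_f ∑_e ∫⁻ ofReal (gibbs (sw f e ω) T') * ind (V ω T f e) * Ψ (sw f e ω)`; change of
variables `ω' = sw f e ω` (`lintegral_sw`); for fixed `f, e` the map `T ↦ T'` is injective on the
trees with `f ∈ T`, `e ∉ T` (`swp_swp`), so the sum over `T` is at most the sum over `T'` of
`ofReal (gibbs ω' T') * ind (∃ ω₀ T₀, V ω₀ T₀ f e ∧ sw f e ω₀ = ω' ∧ swp T₀ f e = T') * Ψ ω'`;
then `∑ ∫⁻ ≤ ∫⁻ ∑` (superadditivity of `lintegral`, no measurability needed: `le_lintegral_add`)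
and `hm`.  The first interchange `∫⁻ ∑ = ∑ ∫⁻` uses the measurability hypotheses.
-/

open MeasureTheory Set Filter Finset
open scoped ENNReal Topology Classical

noncomputable section

namespace RST

variable {n : ℕ} {T : SimpleGraph (Fin n)} {e f g : Sym2 (Fin n)}

instance : IsProbabilityMeasure (mu n) := by
  have : IsProbabilityMeasure ((volume : Measure ℝ).restrict (Set.Icc (0 : ℝ) 1)) :=
    ⟨by simp⟩
  unfold mu
  infer_instance

theorem measurable_wt (β : ℝ) (T : SimpleGraph (Fin n)) :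
    Measurable fun ω : Env n => wt β ω T := by
  unfold wt
  fun_prop

theorem measurable_Zf (β : ℝ) : Measurable fun ω : Env n => Zf β ω := by
  unfold Zf
  exact Finset.measurable_fun_sum _ fun T _ => measurable_wt β T

theorem measurable_gibbs (β : ℝ) (T : SimpleGraph (Fin n)) :
    Measurable fun ω : Env n => gibbs β ω T := by
  unfold gibbs
  exact (measurable_wt β T).div (measurable_Zf β)

theorem trees_nonempty (hn : 1 ≤ n) : (trees n).Nonempty := by
  have : Nonempty (Fin n) := ⟨⟨0, hn⟩⟩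
  obtain ⟨T, -, hT⟩ := (SimpleGraph.connected_top : (⊤ : SimpleGraph (Fin n)).Connected).exists_isTree_le
  exact ⟨T, by simp [trees, hT]⟩

theorem wt_pos (β : ℝ) (ω : Env n) (T : SimpleGraph (Fin n)) : 0 < wt β ω T := Real.exp_pos _

theorem Zf_pos (hn : 1 ≤ n) (β : ℝ) (ω : Env n) : 0 < Zf β ω :=
  Finset.sum_pos (fun T _ => wt_pos β ω T) (trees_nonempty hn)

theorem Zf_pos' (hT : T.IsTree) (β : ℝ) (ω : Env n) : 0 < Zf β ω :=
  Finset.sum_pos (fun T _ => wt_pos β ω T) ⟨T, by simp [trees, hT]⟩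

theorem gibbs_nonneg (β : ℝ) (ω : Env n) (T : SimpleGraph (Fin n)) : 0 ≤ gibbs β ω T :=
  div_nonneg (wt_pos β ω T).le (Finset.sum_nonneg fun T _ => (wt_pos β ω T).le)

theorem sum_gibbs (hn : 1 ≤ n) (β : ℝ) (ω : Env n) : ∑ T ∈ trees n, gibbs β ω T = 1 := by
  unfold gibbs
  rw [← Finset.sum_div]
  exact div_self (Zf_pos hn β ω).ne'

theorem sw_sw (f e : Sym2 (Fin n)) (ω : Env n) : sw f e (sw f e ω) = ω := by
  funext g
  simp [sw]

theorem wt_sw (hf : f ∈ T.edgeSet) (he : e ∉ T.edgeSet) (hd : ¬ e.IsDiag) (β : ℝ)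
    (ω : Env n) : wt β (sw f e ω) (swp T f e) = wt β ω T := by
  have hfe : f ∈ ef T := by simp [ef, hf]
  have hee : e ∉ ef T := by simp [ef, he]
  have hee' : e ∉ (ef T).erase f := fun h => hee (Finset.mem_of_mem_erase h)
  unfold wt
  rw [ef_swp hf he hd, Finset.sum_insert hee', ← Finset.add_sum_erase (ef T) ω hfe]
  have h1 : sw f e ω e = ω f := by simp [sw]
  have h2 : ∑ g ∈ (ef T).erase f, sw f e ω g = ∑ g ∈ (ef T).erase f, ω g := by
    refine Finset.sum_congr rfl fun g hg => ?_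
    have hgf : g ≠ f := Finset.ne_of_mem_erase hg
    have hge : g ≠ e := fun h => hee' (h ▸ hg)
    simp [sw, Equiv.swap_apply_of_ne_of_ne hgf hge]
  rw [h1, h2]

/-- the exchange of two coordinates preserves `mu n`; no measurability is needed -/
theorem lintegral_sw (f e : Sym2 (Fin n)) (F : Env n → ℝ≥0∞) :
    ∫⁻ ω, F (sw f e ω) ∂(mu n) = ∫⁻ ω, F ω ∂(mu n) := by
  have h := measurePreserving_arrowCongr'
    (fun _ : Sym2 (Fin n) => (volume : Measure ℝ).restrict (Set.Icc (0 : ℝ) 1))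
    (fun _ : Sym2 (Fin n) => (volume : Measure ℝ).restrict (Set.Icc (0 : ℝ) 1))
    (Equiv.swap f e) (MeasurableEquiv.refl ℝ) (fun i => MeasurePreserving.id _)
  have h2 : ∀ ω : Env n, (MeasurableEquiv.arrowCongr' (Equiv.swap f e)
      (MeasurableEquiv.refl ℝ)) ω = sw f e ω := by
    intro ω
    funext g
    simp [sw, MeasurableEquiv.arrowCongr', Equiv.arrowCongr']
  have h3 := h.lintegral_comp_emb (MeasurableEquiv.measurableEmbedding _) F
  simp only [h2] at h3
  exact h3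

theorem ind_le_one (P : Prop) : ind P ≤ 1 := by
  unfold ind; split_ifs <;> simp

theorem ind_mono {P Q : Prop} (h : P → Q) : ind P ≤ ind Q := by
  unfold ind
  by_cases hP : P
  · simp [hP, h hP]
  · simp [hP]

theorem measurable_ind {s : Env n → Prop} (hs : MeasurableSet {ω | s ω}) :
    Measurable fun ω => ind (s ω) := by
  unfold ind
  exact Measurable.ite hs measurable_const measurable_const

theorem sum_lintegral_le {ι : Type*} (s : Finset ι) (F : ι → Env n → ℝ≥0∞) :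
    ∑ i ∈ s, ∫⁻ ω, F i ω ∂(mu n) ≤ ∫⁻ ω, ∑ i ∈ s, F i ω ∂(mu n) := by
  induction s using Finset.induction_on with
  | empty => simp
  | insert a s ha ih =>
    rw [Finset.sum_insert ha]
    simp_rw [Finset.sum_insert ha]
    exact (add_le_add le_rfl ih).trans (le_lintegral_add _ _)

theorem flow_count {β M : ℝ} (hM : 0 ≤ M)
    (V : Env n → SimpleGraph (Fin n) → Sym2 (Fin n) → Sym2 (Fin n) → Prop)
    (g m : Env n → SimpleGraph (Fin n) → ℝ≥0∞) (Ψ : Env n → ℝ≥0∞)
    (hmeas : ∀ T f e, MeasurableSet {ω | V ω T f e}) (hΨ : Measurable Ψ)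
    (hV : ∀ ω T f e, V ω T f e → T.IsTree ∧ f ∈ T.edgeSet ∧ e ∉ T.edgeSet ∧ ¬ e.IsDiag ∧
      (swp T f e).IsTree ∧ Zf β (sw f e ω) ≤ M * Zf β ω ∧ Ψ (sw f e ω) = Ψ ω)
    (hg : ∀ ω T, T.IsTree → g ω T ≤ ∑ f, ∑ e, ind (V ω T f e))
    (hm : ∀ ω T, T.IsTree →
      ∑ f, ∑ e, ind (∃ ω₀ T₀, V ω₀ T₀ f e ∧ sw f e ω₀ = ω ∧ swp T₀ f e = T) ≤ m ω T) :
    EE β (fun ω T => g ω T * Ψ ω) ≤ ENNReal.ofReal M * EE β (fun ω T => m ω T * Ψ ω) := by
  set W : Env n → SimpleGraph (Fin n) → Sym2 (Fin n) → Sym2 (Fin n) → Prop :=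
    fun ω T f e => ∃ ω₀ T₀, V ω₀ T₀ f e ∧ sw f e ω₀ = ω ∧ swp T₀ f e = T with hW
  have hVW : ∀ ω T f e, V ω T f e → W (sw f e ω) (swp T f e) f e :=
    fun ω T f e h => ⟨ω, T, h, rfl, rfl⟩
  -- the function on the target side
  set F : SimpleGraph (Fin n) → Sym2 (Fin n) → Sym2 (Fin n) → Env n → ℝ≥0∞ :=
    fun T f e ω => ENNReal.ofReal (gibbs β ω T) * (ind (W ω T f e) * Ψ ω) with hF
  -- pointwise comparison
  have hpt : ∀ T f e ω, ENNReal.ofReal (gibbs β ω T) * (ind (V ω T f e) * Ψ ω) ≤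
      ENNReal.ofReal M * F (swp T f e) f e (sw f e ω) := by
    intro T f e ω
    by_cases h : V ω T f e
    · obtain ⟨h1, h2, h3, h4, h5, h6, h7⟩ := hV ω T f e h
      have hg1 : gibbs β ω T ≤ M * gibbs β (sw f e ω) (swp T f e) := by
        unfold gibbs
        rw [wt_sw h2 h3 h4]
        have hz := Zf_pos' h1 β ω
        have hz' := Zf_pos' h1 β (sw f e ω)
        rw [← mul_div_assoc, div_le_div_iff₀ hz hz']
        have := wt_pos β ω T
        nlinarith
      have e1 : ind (W (sw f e ω) (swp T f e) f e) = 1 := by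
        unfold ind; rw [if_pos (hVW ω T f e h)]
      have e2 : ind (V ω T f e) = 1 := by unfold ind; rw [if_pos h]
      rw [hF]
      simp only
      rw [e1, e2, h7, ← mul_assoc (ENNReal.ofReal M), ← ENNReal.ofReal_mul hM]
      exact mul_le_mul' (ENNReal.ofReal_le_ofReal hg1) le_rfl
    · have e2 : ind (V ω T f e) = 0 := by unfold ind; rw [if_neg h]
      rw [e2]; simp
  -- per (f, e)
  have hfe : ∀ f e, ∑ T ∈ trees n, ∫⁻ ω, ENNReal.ofReal (gibbs β ω T) *
      (ind (V ω T f e) * Ψ ω) ∂(mu n) ≤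
      ENNReal.ofReal M * ∑ T ∈ trees n, ∫⁻ ω, F T f e ω ∂(mu n) := by
    intro f e
    -- the trees which occur
    set A := (trees n).filter fun T => ∃ ω, V ω T f e with hA
    have h1 : ∑ T ∈ trees n, ∫⁻ ω, ENNReal.ofReal (gibbs β ω T) *
        (ind (V ω T f e) * Ψ ω) ∂(mu n) =
        ∑ T ∈ A, ∫⁻ ω, ENNReal.ofReal (gibbs β ω T) * (ind (V ω T f e) * Ψ ω) ∂(mu n) := by
      rw [hA, Finset.sum_filter]
      refine Finset.sum_congr rfl fun T _ => ?_
      split_ifs with h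
      · rfl
      · push Not at h
        have : ∀ ω, ind (V ω T f e) = 0 := fun ω => by unfold ind; rw [if_neg (h ω)]
        simp [this]
    rw [h1]
    have h2 : ∀ T ∈ A, ∫⁻ ω, ENNReal.ofReal (gibbs β ω T) * (ind (V ω T f e) * Ψ ω) ∂(mu n) ≤
        ENNReal.ofReal M * ∫⁻ ω, F (swp T f e) f e ω ∂(mu n) := by
      intro T _
      rw [← lintegral_sw f e (F (swp T f e) f e), ← lintegral_const_mul' _ _ ENNReal.ofReal_ne_top]
      exact lintegral_mono fun ω => hpt T f e ω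
    refine (Finset.sum_le_sum h2).trans ?_
    rw [← Finset.mul_sum]
    refine mul_le_mul' le_rfl ?_
    have hinj : Set.InjOn (fun T => swp T f e) (A : Set (SimpleGraph (Fin n))) := by
      intro T hT T' hT' h
      obtain ⟨ω, hω⟩ := (Finset.mem_filter.1 (Finset.mem_coe.1 hT)).2
      obtain ⟨ω', hω'⟩ := (Finset.mem_filter.1 (Finset.mem_coe.1 hT')).2
      obtain ⟨-, a2, a3, -⟩ := hV _ _ _ _ hω
      obtain ⟨-, b2, b3, -⟩ := hV _ _ _ _ hω'
      have h' : swp T f e = swp T' f e := h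
      rw [← swp_swp a2 a3, ← swp_swp b2 b3, h']
    rw [← Finset.sum_image (f := fun T => ∫⁻ ω, F T f e ω ∂(mu n)) (g := fun T => swp T f e)
      (s := A) hinj]
    refine Finset.sum_le_sum_of_subset ?_
    intro T' hT'
    obtain ⟨T, hT, rfl⟩ := Finset.mem_image.1 hT'
    obtain ⟨ω, hω⟩ := (Finset.mem_filter.1 hT).2
    obtain ⟨-, -, -, -, h5, -⟩ := hV _ _ _ _ hω
    simp [trees, h5]
  -- assembly
  have hmeas' : ∀ T f e, Measurable fun ω => ENNReal.ofReal (gibbs β ω T) *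
      (ind (V ω T f e) * Ψ ω) := fun T f e =>
    (measurable_gibbs β T).ennreal_ofReal.mul ((measurable_ind (hmeas T f e)).mul hΨ)
  calc EE β (fun ω T => g ω T * Ψ ω)
      ≤ ∑ T ∈ trees n, ∫⁻ ω, ∑ f, ∑ e, ENNReal.ofReal (gibbs β ω T) *
          (ind (V ω T f e) * Ψ ω) ∂(mu n) := by
        unfold EE
        refine Finset.sum_le_sum fun T hT => lintegral_mono fun ω => ?_
        have hT' : T.IsTree := (Finset.mem_filter.1 hT).2
        simp only
        have : ∑ f, ∑ e, ENNReal.ofReal (gibbs β ω T) * (ind (V ω T f e) * Ψ ω) =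
            ENNReal.ofReal (gibbs β ω T) * ((∑ f, ∑ e, ind (V ω T f e)) * Ψ ω) := by
          simp_rw [Finset.sum_mul, Finset.mul_sum]
        rw [this]
        exact mul_le_mul' le_rfl (mul_le_mul' (hg ω T hT') le_rfl)
    _ = ∑ f, ∑ e, ∑ T ∈ trees n, ∫⁻ ω, ENNReal.ofReal (gibbs β ω T) *
          (ind (V ω T f e) * Ψ ω) ∂(mu n) := by
        rw [Finset.sum_congr rfl fun T _ => (lintegral_finsetSum _ fun f _ =>
          Finset.measurable_fun_sum _ fun e _ => hmeas' T f e)]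
        rw [Finset.sum_comm]
        refine Finset.sum_congr rfl fun f _ => ?_
        rw [Finset.sum_congr rfl fun T _ => (lintegral_finsetSum _ fun e _ => hmeas' T f e)]
        rw [Finset.sum_comm]
    _ ≤ ∑ f, ∑ e, ENNReal.ofReal M * ∑ T ∈ trees n, ∫⁻ ω, F T f e ω ∂(mu n) :=
        Finset.sum_le_sum fun f _ => Finset.sum_le_sum fun e _ => hfe f e
    _ = ENNReal.ofReal M * ∑ T ∈ trees n, ∑ f, ∑ e, ∫⁻ ω, F T f e ω ∂(mu n) := by
        simp_rw [← Finset.mul_sum]
        congr 1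
        rw [Finset.sum_congr rfl fun f _ => Finset.sum_comm]
        rw [Finset.sum_comm]
    _ ≤ ENNReal.ofReal M * EE β (fun ω T => m ω T * Ψ ω) := by
        refine mul_le_mul' le_rfl ?_
        unfold EE
        refine Finset.sum_le_sum fun T hT => ?_
        have hT' : T.IsTree := (Finset.mem_filter.1 hT).2
        refine (Finset.sum_le_sum fun f _ => sum_lintegral_le _ _).trans ?_
        refine (sum_lintegral_le _ _).trans ?_
        refine lintegral_mono fun ω => ?_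
        have : ∑ f, ∑ e, F T f e ω =
            ENNReal.ofReal (gibbs β ω T) * ((∑ f, ∑ e, ind (W ω T f e)) * Ψ ω) := by
          simp_rw [hF, Finset.sum_mul, Finset.mul_sum]
        simp only
        rw [this]
        exact mul_le_mul' le_rfl (mul_le_mul' (hm ω T hT') le_rfl)

/-! ### basic properties of `EE` -/

theorem EE_mono {β : ℝ} {F G : Env n → SimpleGraph (Fin n) → ℝ≥0∞}
    (h : ∀ ω T, T.IsTree → F ω T ≤ G ω T) : EE β F ≤ EE β G := by
  unfold EE
  refine Finset.sum_le_sum fun T hT => lintegral_mono fun ω => ?_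
  exact mul_le_mul' le_rfl (h ω T (Finset.mem_filter.1 hT).2)

theorem EE_mono_ae {β : ℝ} {F G : Env n → SimpleGraph (Fin n) → ℝ≥0∞}
    (h : ∀ᵐ ω ∂(mu n), ∀ T, T.IsTree → F ω T ≤ G ω T) : EE β F ≤ EE β G := by
  unfold EE
  refine Finset.sum_le_sum fun T hT => lintegral_mono_ae ?_
  filter_upwards [h] with ω hω
  exact mul_le_mul' le_rfl (hω T (Finset.mem_filter.1 hT).2)

theorem EE_add {β : ℝ} {F G : Env n → SimpleGraph (Fin n) → ℝ≥0∞}
    (hF : ∀ T, Measurable fun ω => F ω T) :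
    EE β (fun ω T => F ω T + G ω T) = EE β F + EE β G := by
  unfold EE
  rw [← Finset.sum_add_distrib]
  refine Finset.sum_congr rfl fun T _ => ?_
  simp_rw [mul_add]
  exact lintegral_add_left ((measurable_gibbs β T).ennreal_ofReal.mul (hF T)) _

theorem EE_sum {ι : Type*} (s : Finset ι) {β : ℝ} {F : ι → Env n → SimpleGraph (Fin n) → ℝ≥0∞}
    (hF : ∀ i ∈ s, ∀ T, Measurable fun ω => F i ω T) :
    EE β (fun ω T => ∑ i ∈ s, F i ω T) = ∑ i ∈ s, EE β (F i) := by
  unfold EE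
  rw [Finset.sum_comm]
  refine Finset.sum_congr rfl fun T _ => ?_
  simp_rw [Finset.mul_sum]
  exact lintegral_finsetSum _ fun i hi =>
    (measurable_gibbs β T).ennreal_ofReal.mul (hF i hi T)

theorem EE_const_mul {β : ℝ} (c : ℝ≥0∞) (hc : c ≠ ∞) {F : Env n → SimpleGraph (Fin n) → ℝ≥0∞} :
    EE β (fun ω T => c * F ω T) = c * EE β F := by
  unfold EE
  rw [Finset.mul_sum]
  refine Finset.sum_congr rfl fun T _ => ?_
  rw [← lintegral_const_mul' _ _ hc]
  refine lintegral_congr fun ω => ?_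
  ring

/-- a function of the environment only -/
theorem EE_env (hn : 1 ≤ n) {β : ℝ} {F : Env n → ℝ≥0∞} (hF : Measurable F) :
    EE β (fun ω _ => F ω) = ∫⁻ ω, F ω ∂(mu n) := by
  unfold EE
  have h1 : ∀ T ∈ trees n, Measurable fun ω => ENNReal.ofReal (gibbs β ω T) * F ω :=
    fun T _ => (measurable_gibbs β T).ennreal_ofReal.mul hF
  simp only
  rw [← lintegral_finsetSum _ h1]
  refine lintegral_congr fun ω => ?_
  rw [← Finset.sum_mul, ← ENNReal.ofReal_sum_of_nonneg fun T _ => gibbs_nonneg β ω T,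
    sum_gibbs hn β ω]
  simp

/-- almost surely all values are in `[0,1]` -/
theorem ae_mem (n : ℕ) : ∀ᵐ ω ∂(mu n), ∀ e, 0 ≤ ω e ∧ ω e ≤ 1 := by
  have : IsProbabilityMeasure ((volume : Measure ℝ).restrict (Set.Icc (0 : ℝ) 1)) :=
    ⟨by simp⟩
  rw [ae_all_iff]
  intro e
  have h := (measurePreserving_eval
    (fun _ : Sym2 (Fin n) => (volume : Measure ℝ).restrict (Set.Icc (0 : ℝ) 1)) e)
  have h2 : ∀ᵐ x ∂((volume : Measure ℝ).restrict (Set.Icc (0 : ℝ) 1)), x ∈ Set.Icc (0 : ℝ) 1 :=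
    ae_restrict_mem measurableSet_Icc
  exact h.quasiMeasurePreserving.ae h2

theorem integrable_gibbs_mul (hn : 1 ≤ n) (β : ℝ) (T : SimpleGraph (Fin n)) (hT : T ∈ trees n)
    (c : ℝ) : Integrable (fun ω => gibbs β ω T * c) (mu n) := by
  refine Integrable.mul_const ?_ c
  refine Integrable.of_bound (C := 1) (measurable_gibbs β T).aestronglyMeasurable ?_
  refine Filter.Eventually.of_forall fun ω => ?_
  rw [Real.norm_of_nonneg (gibbs_nonneg β ω T), ← sum_gibbs hn β ω]
  exact Finset.single_le_sum (fun T _ => gibbs_nonneg β ω T) hT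

/-- the quantity of Q1 in terms of `EE` -/
theorem PhatV_eq (hn : 1 ≤ n) (β : ℝ) (A : SimpleGraph (Fin n) → Fin n → Prop) :
    ENNReal.ofReal (PhatV n β A) =
      EE β (fun _ T => ((Finset.univ.filter (A T)).card : ℝ≥0∞) / n) := by
  unfold PhatV
  rw [integral_finsetSum _ fun T hT => integrable_gibbs_mul hn β T hT _,
    ENNReal.ofReal_sum_of_nonneg fun T _ => integral_nonneg fun ω =>
      mul_nonneg (gibbs_nonneg β ω T) (by positivity)]
  unfold EE
  refine Finset.sum_congr rfl fun T hT => ?_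
  rw [ofReal_integral_eq_lintegral_ofReal (integrable_gibbs_mul hn β T hT _)
    (Filter.Eventually.of_forall fun ω => mul_nonneg (gibbs_nonneg β ω T) (by positivity))]
  refine lintegral_congr fun ω => ?_
  have hn' : (0 : ℝ) < n := by exact_mod_cast hn
  rw [ENNReal.ofReal_mul (gibbs_nonneg β ω T), ENNReal.ofReal_div_of_pos hn',
    ENNReal.ofReal_natCast, ENNReal.ofReal_natCast]

theorem Phat_eq (hn : 1 ≤ n) (β : ℝ) (A : SimpleGraph (Fin n) → Prop) :
    ENNReal.ofReal (Phat n β A) = EE β (fun _ T => ind (A T)) := by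
  unfold Phat
  have hint : ∀ T ∈ (trees n).filter A, Integrable (fun ω => gibbs β ω T) (mu n) := by
    intro T hT
    have := integrable_gibbs_mul hn β T (Finset.mem_filter.1 hT).1 1
    simpa using this
  rw [integral_finsetSum _ hint,
    ENNReal.ofReal_sum_of_nonneg fun T _ => integral_nonneg fun ω => gibbs_nonneg β ω T]
  unfold EE
  rw [Finset.sum_filter]
  refine Finset.sum_congr rfl fun T hT => ?_
  by_cases hA : A T
  · rw [if_pos hA, ofReal_integral_eq_lintegral_ofReal (hint T (Finset.mem_filter.2 ⟨hT, hA⟩))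
      (Filter.Eventually.of_forall fun ω => gibbs_nonneg β ω T)]
    simp [ind, hA]
  · simp [ind, hA]

end RST
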