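import Mathlib

/-!
# MP_5ba30e_pr : random spanning trees in random environment, the model

`Env n` is the space of environments, `mu n` the law of i.i.d. uniform variables on `[0,1]`,
`gibbs β ω T` the Gibbs probability of the spanning tree `T` of the complete graph on `Fin n`.
-/

open MeasureTheory Set Filter Finset
open scoped ENNReal Topology Classical

noncomputable section

namespace RST

/-- environments on the complete graph on `Fin n`: one real number for every unordered pair
(the diagonal pairs are never used) -/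
abbrev Env (n : ℕ) := Sym2 (Fin n) → ℝ

/-- the law of i.i.d. uniform variables on `[0,1]` -/
def mu (n : ℕ) : Measure (Env n) := Measure.pi fun _ => volume.restrict (Set.Icc (0 : ℝ) 1)

variable {n : ℕ}

/-- the edges of a graph -/
def ef (T : SimpleGraph (Fin n)) : Finset (Sym2 (Fin n)) := Finset.univ.filter (· ∈ T.edgeSet)

/-- the spanning trees of `K_n` -/
def trees (n : ℕ) : Finset (SimpleGraph (Fin n)) := Finset.univ.filter fun T => T.IsTree

/-- `exp (-β ∑_{e ∈ T} ω_e)` -/
def wt (β : ℝ) (ω : Env n) (T : SimpleGraph (Fin n)) : ℝ := Real.exp (-(β * ∑ e ∈ ef T, ω e))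

/-- partition function -/
def Zf (β : ℝ) (ω : Env n) : ℝ := ∑ T ∈ trees n, wt β ω T

/-- Gibbs probability -/
def gibbs (β : ℝ) (ω : Env n) (T : SimpleGraph (Fin n)) : ℝ := wt β ω T / Zf β ω

/-- `|B_T(v,r)|`, the number of vertices at distance at most `r` from `v` in `T` -/
def ballT (T : SimpleGraph (Fin n)) (v : Fin n) (r : ℝ) : ℕ :=
  (Finset.univ.filter fun u => (T.dist v u : ℝ) ≤ r).card

/-- averaged probability that the tree has the property `A` -/
def Phat (n : ℕ) (β : ℝ) (A : SimpleGraph (Fin n) → Prop) : ℝ :=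
  ∫ ω, ∑ T ∈ (trees n).filter A, gibbs β ω T ∂(mu n)

/-- averaged probability that the tree `T` and a uniform vertex `v` have the property `A T v` -/
def PhatV (n : ℕ) (β : ℝ) (A : SimpleGraph (Fin n) → Fin n → Prop) : ℝ :=
  ∫ ω, ∑ T ∈ trees n, gibbs β ω T * (((Finset.univ.filter (A T)).card : ℝ) / n) ∂(mu n)

/-- Question Q1 of MP_5ba30e_pr -/
def Q1 : Prop :=
  ∀ (β : ℕ → ℝ) (α : ℝ), (∀ n, 0 ≤ β n) → 0 < α → α < 1 →
    (∀ ε > 0, Tendsto (fun n => Phat n (β n) fun T =>
      (n : ℝ) ^ (α - ε) ≤ T.diam ∧ (T.diam : ℝ) ≤ (n : ℝ) ^ (α + ε)) atTop (𝓝 1)) →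
    ∀ l : ℝ, 0 < l → l ≤ 1 → ∀ ε > 0, Tendsto (fun n => PhatV n (β n) fun T v =>
      (l * T.diam) ^ (1 / α - ε) ≤ ballT T v (l * T.diam) ∧
        (ballT T v (l * T.diam) : ℝ) ≤ (l * T.diam) ^ (1 / α + ε)) atTop (𝓝 1)

end RST
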