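import Pool.Agent.Work.MP_5ba30e_pr.Resid
import Pool.Agent.Work.MP_5ba30e_pr.BallVol

/-!
# PairOK : a level `(1+δ)/n` and the next one `(1+1.2δ)/n`
-/

open MeasureTheory Set Filter Finset
open scoped ENNReal Topology Classical

noncomputable section

namespace RST

variable {n : ℕ}

/-- good properties of the pair of levels `(1+δ)/n`, `(1+1.2δ)/n` -/
structure PairOK (n : ℕ) (δ : ℝ) (ω : Env n) : Prop where
  gl : GLo n δ ω
  long : NoLong (Gr ω ((1 + 1.2 * δ) / n)) (bigC (Gr ω ((1 + δ) / n)) (thr n δ))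
    (Real.log n ^ 3 / db δ)
  meet : ∀ v ∈ bigC (Gr ω ((1 + 1.2 * δ) / n)) (thr n (1.2 * δ)),
    ¬ Disjoint (comp (Gr ω ((1 + 1.2 * δ) / n)) v) (bigC (Gr ω ((1 + δ) / n)) (thr n δ))
  conn : ∀ x ∈ bigC (Gr ω ((1 + δ) / n)) (thr n δ),
    ∀ y ∈ bigC (Gr ω ((1 + δ) / n)) (thr n δ),
    ∃ w : (Gr ω ((1 + 1.2 * δ) / n)).Walk x y, (w.length : ℝ) ≤ Real.log n ^ 3 / db δ

/-- from `giant_low`, `resid`, `connect` -/
theorem pair_ok (c A₂ : ℝ) (hc : 0 < c) (hc1 : c ≤ 1 / 3) (hA : 0 < A₂) :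
    ∃ n₀ : ℕ, ∀ n ≥ n₀, ∀ δ, Rng n c A₂ δ →
      mu n {ω | ¬ PairOK n δ ω} ≤ ENNReal.ofReal (5 / Real.log n ^ 4) := by
  obtain ⟨n1, h1⟩ := giant_low c A₂ hc hc1 hA
  obtain ⟨n2, h2⟩ := resid c A₂ hc hc1 hA
  obtain ⟨n3, h3⟩ := connect c A₂ hc hc1 hA
  refine ⟨max n1 (max n2 n3), fun n hn δ hδ => ?_⟩
  have e1 := h1 n ((le_max_left _ _).trans hn) δ hδ
  have e2 := h2 n ((le_max_left _ _).trans ((le_max_right _ _).trans hn)) δ hδ
  have e3 := h3 n ((le_max_right _ _).trans ((le_max_right _ _).trans hn)) δ hδ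
  set A1 : Set (Env n) := {ω | ¬ GLo n δ ω} with hA1
  set A2 : Set (Env n) := {ω | GLo n δ ω ∧
        (¬ NoLong (Gr ω ((1 + 1.2 * δ) / n)) (bigC (Gr ω ((1 + δ) / n)) (thr n δ))
            (Real.log n ^ 3 / db δ) ∨
          ∃ v, v ∈ bigC (Gr ω ((1 + 1.2 * δ) / n)) (thr n (1.2 * δ)) ∧
            Disjoint (comp (Gr ω ((1 + 1.2 * δ) / n)) v)
              (bigC (Gr ω ((1 + δ) / n)) (thr n δ)))} with hA2
  set A3 : Set (Env n) := {ω | ¬ ∀ x ∈ bigC (Gr ω ((1 + δ) / n)) (thr n δ),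
        ∀ y ∈ bigC (Gr ω ((1 + δ) / n)) (thr n δ),
        ∃ w : (Gr ω ((1 + 1.2 * δ) / n)).Walk x y,
          (w.length : ℝ) ≤ Real.log n ^ 3 / db δ} with hA3
  have hsub : {ω | ¬ PairOK n δ ω} ⊆ (A1 ∪ A2) ∪ A3 := by
    intro ω hω
    by_contra hcon
    rw [Set.mem_union, Set.mem_union, not_or, not_or] at hcon
    obtain ⟨⟨k1, k2⟩, k3⟩ := hcon
    rw [hA1, Set.mem_ofPred_eq, not_not] at k1
    rw [hA2, Set.mem_ofPred_eq, not_and, not_or, not_not, not_exists] at k2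
    rw [hA3, Set.mem_ofPred_eq, not_not] at k3
    obtain ⟨k4, k5⟩ := k2 k1
    exact hω ⟨k1, k4, fun v hv hd => k5 v ⟨hv, hd⟩, k3⟩
  have hL : 0 ≤ 1 / Real.log n ^ 4 := by positivity
  calc mu n {ω | ¬ PairOK n δ ω} ≤ mu n ((A1 ∪ A2) ∪ A3) := measure_mono hsub
    _ ≤ mu n (A1 ∪ A2) + mu n A3 := measure_union_le _ _
    _ ≤ (mu n A1 + mu n A2) + mu n A3 := by gcongr; exact measure_union_le _ _
    _ ≤ (ENNReal.ofReal (1 / Real.log n ^ 4) + ENNReal.ofReal (1 / Real.log n ^ 4)) +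
        ENNReal.ofReal (3 / Real.log n ^ 4) := by gcongr
    _ = ENNReal.ofReal (5 / Real.log n ^ 4) := by
        rw [← ENNReal.ofReal_add hL hL, ← ENNReal.ofReal_add (by linarith) (by positivity)]
        congr 1
        ring

theorem pk_Gr_le {ω : Env n} {p q : ℝ} (h : p ≤ q) : Gr ω p ≤ Gr ω q := by
  intro x y hxy
  exact ⟨hxy.1, hxy.2.trans h⟩

theorem pk_comp_subset {G G' : SimpleGraph (Fin n)} (h : G ≤ G') (v : Fin n) :
    comp G v ⊆ comp G' v := by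
  intro u hu
  unfold comp at hu ⊢
  rw [Finset.mem_filter] at hu ⊢
  exact ⟨hu.1, hu.2.mono h⟩

theorem pk_thr_le_xs {δ : ℝ} (hδ : 0 < δ) : thr n (1.2 * δ) ≤ xs δ * n := by
  unfold thr xs
  have h1 : (0 : ℝ) < 20 * (1 + 1.2 * δ) ^ 2 := by positivity
  have h2 : (0 : ℝ) < 1 + 1.7 * δ := by positivity
  have h3 : 1.2 * δ / (20 * (1 + 1.2 * δ) ^ 2) ≤ 1.7 * δ / (1 + 1.7 * δ) := by
    rw [div_le_div_iff₀ h1 h2]
    nlinarith [mul_pos hδ hδ, mul_pos (mul_pos hδ hδ) hδ]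
  have h4 : (0 : ℝ) ≤ n := Nat.cast_nonneg n
  calc 1.2 * δ * n / (20 * (1 + 1.2 * δ) ^ 2) = 1.2 * δ / (20 * (1 + 1.2 * δ) ^ 2) * n := by ring
    _ ≤ 1.7 * δ / (1 + 1.7 * δ) * n := mul_le_mul_of_nonneg_right h3 h4

/-- a point which is joined to `C` is joined to `C` by a short walk -/
theorem pk_short_to {G : SimpleGraph (Fin n)} {C : Finset (Fin n)} {ℓ : ℝ} (hl : NoLong G C ℓ)
    (h0 : 0 ≤ ℓ) {x c : Fin n} (hc : c ∈ C) (hr : G.Reachable c x) :
    ∃ c ∈ C, ∃ w : G.Walk c x, (w.length : ℝ) ≤ ℓ + 1 := by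
  obtain ⟨w0⟩ := hr
  have hex : ∃ k : ℕ, ∃ c ∈ C, ∃ w : G.Walk c x, w.length = k := ⟨_, c, hc, w0, rfl⟩
  obtain ⟨c1, hc1, w1, hw1⟩ := Nat.find_spec hex
  have hmin : ∀ c ∈ C, ∀ w : G.Walk c x, w1.length ≤ w.length := by
    intro c hc w
    rw [hw1]
    exact Nat.find_min' hex ⟨c, hc, w, rfl⟩
  have hp := w1.bypass_isPath
  have hb := hmin c1 hc1 w1.bypass
  refine ⟨c1, hc1, w1.bypass, ?_⟩
  have hb2 : w1.bypass.length ≤ w1.length := w1.length_bypass_le_length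
  generalize w1.bypass = w2 at hp hb hb2 ⊢
  cases w2 with
  | nil =>
    simp only [SimpleGraph.Walk.length_nil, Nat.cast_zero]
    linarith
  | cons hadj q =>
    rw [SimpleGraph.Walk.cons_isPath_iff] at hp
    have hq : ∀ u ∈ q.support, u ∉ C := by
      intro u hu huC
      have h1 := hmin u huC (q.dropUntil u hu)
      have h2 := q.length_dropUntil_le_length hu
      rw [SimpleGraph.Walk.length_cons] at hb2
      omega
    have := hl _ _ q hp.1 hq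
    rw [SimpleGraph.Walk.length_cons]
    push_cast
    linarith

/-- all the points of `C` are in the same component at the level `p'`, which has at least
`|C| > xs δ * n ≥ thr n (1.2 δ)` vertices -/
theorem PairOK.mono (hn : 1 ≤ n) {δ : ℝ} (hδ : 0 < δ) {ω : Env n} (h : PairOK n δ ω) :
    bigC (Gr ω ((1 + δ) / n)) (thr n δ) ⊆ bigC (Gr ω ((1 + 1.2 * δ) / n)) (thr n (1.2 * δ)) := by
  intro v hv
  have h1 := h.gl.2 v hv
  have hn' : (0 : ℝ) < n := by exact_mod_cast hn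
  have h2 : (1 + δ) / n ≤ (1 + 1.2 * δ) / n := by
    gcongr
    linarith
  have h3 := Finset.card_le_card (pk_comp_subset (pk_Gr_le (ω := ω) h2) v)
  have h4 : ((comp (Gr ω ((1 + δ) / n)) v).card : ℝ) ≤
      ((comp (Gr ω ((1 + 1.2 * δ) / n)) v).card : ℝ) := by exact_mod_cast h3
  unfold bigC
  rw [Finset.mem_filter]
  exact ⟨Finset.mem_univ _, ((pk_thr_le_xs hδ).trans_lt h1).trans_le h4⟩

/-- any two points of `C'` are joined by a path of length `≤ 5 log³ n/δ̄` at the level `p'`: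
shortest path from `x` to `C` (exists by `meet`; all its points but the last one are outside of
`C`, so its length is at most `log³ n/δ̄ + 1` by `long`), then `conn`, then back; `bypass`. -/
theorem PairOK.path (hn : 3 ≤ n) {δ : ℝ} (hδ : 0 < δ) {ω : Env n} (h : PairOK n δ ω)
    {x y : Fin n} (hx : x ∈ bigC (Gr ω ((1 + 1.2 * δ) / n)) (thr n (1.2 * δ)))
    (hy : y ∈ bigC (Gr ω ((1 + 1.2 * δ) / n)) (thr n (1.2 * δ))) :
    ∃ w : (Gr ω ((1 + 1.2 * δ) / n)).Walk x y, w.IsPath ∧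
      (w.length : ℝ) ≤ 5 * Real.log n ^ 3 / db δ := by
  have hdb : 0 < db δ := lt_min hδ one_pos
  have hdb1 : db δ ≤ 1 := min_le_right _ _
  have hlog : 1 ≤ Real.log n := by
    have h3 : (3 : ℝ) ≤ n := by exact_mod_cast hn
    rw [Real.le_log_iff_exp_le (by linarith)]
    exact Real.exp_one_lt_d9.le.trans (by norm_num; linarith)
  have hL : 1 ≤ Real.log n ^ 3 / db δ := by
    rw [le_div_iff₀ hdb, one_mul]
    exact hdb1.trans (one_le_pow₀ hlog)
  set L := Real.log n ^ 3 / db δ with hLdef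
  have key : ∀ z ∈ bigC (Gr ω ((1 + 1.2 * δ) / n)) (thr n (1.2 * δ)),
      ∃ c ∈ bigC (Gr ω ((1 + δ) / n)) (thr n δ), ∃ w : (Gr ω ((1 + 1.2 * δ) / n)).Walk c z,
        (w.length : ℝ) ≤ L + 1 := by
    intro z hz
    have h1 := h.meet z hz
    rw [Finset.not_disjoint_iff] at h1
    obtain ⟨c, hc, hcC⟩ := h1
    unfold comp at hc
    rw [Finset.mem_filter] at hc
    exact pk_short_to h.long (by linarith) hcC hc.2.symm
  obtain ⟨c1, hc1, w1, hw1⟩ := key x hx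
  obtain ⟨c2, hc2, w2, hw2⟩ := key y hy
  obtain ⟨w3, hw3⟩ := h.conn c1 hc1 c2 hc2
  refine ⟨(w1.reverse.append (w3.append w2)).bypass, SimpleGraph.Walk.bypass_isPath _, ?_⟩
  have h1 := (w1.reverse.append (w3.append w2)).length_bypass_le_length
  rw [SimpleGraph.Walk.length_append, SimpleGraph.Walk.length_append,
    SimpleGraph.Walk.length_reverse] at h1
  have h2 : ((w1.reverse.append (w3.append w2)).bypass.length : ℝ) ≤
      w1.length + (w3.length + w2.length) := by exact_mod_cast h1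
  have h3 : 5 * Real.log n ^ 3 / db δ = 5 * L := by rw [hLdef]; ring
  rw [h3]
  linarith

end RST
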