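import Pool.Agent.Work.MP_5ba30e_pr.Meas

/-!
# Prod : independence and probabilities of boxes for `mu n`
-/

open MeasureTheory Set Filter Finset
open scoped ENNReal Topology Classical

noncomputable section

namespace RST

variable {n : ℕ}

/-- the event `B` only depends on the coordinates in `F` -/
def DepOn (F : Finset (Sym2 (Fin n))) (B : Set (Env n)) : Prop :=
  ∀ ω ω' : Env n, (∀ e ∈ F, ω e = ω' e) → (ω ∈ B ↔ ω' ∈ B)

/-- the law of one coordinate -/
def unif : Measure ℝ := volume.restrict (Set.Icc (0 : ℝ) 1)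

instance instProbUnif : IsProbabilityMeasure unif := by
  constructor
  simp [unif]

instance instProbMu : IsProbabilityMeasure (mu n) := by
  show IsProbabilityMeasure (Measure.pi fun _ : Sym2 (Fin n) => unif)
  infer_instance

/-- extension by `0` of a vector indexed by `F` -/
def extF (F : Finset (Sym2 (Fin n))) (x : F → ℝ) : Env n :=
  fun e => if h : e ∈ F then x ⟨e, h⟩ else 0

theorem measurable_extF (F : Finset (Sym2 (Fin n))) : Measurable (extF F) := by
  refine measurable_pi_lambda _ fun e => ?_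
  by_cases h : e ∈ F
  · simp only [extF, h, dif_pos]
    exact measurable_pi_apply _
  · simp only [extF, h, dif_neg, not_false_eq_true]
    exact measurable_const

theorem indep_restrict {F F' : Finset (Sym2 (Fin n))} (h : Disjoint F F') :
    ProbabilityTheory.IndepFun (fun (ω : Env n) (i : F) => ω i) (fun (ω : Env n) (i : F') => ω i)
      (mu n) := by
  have h1 : ProbabilityTheory.iIndepFun (fun (i : Sym2 (Fin n)) (ω : Env n) => ω i) (mu n) :=
    ProbabilityTheory.iIndepFun_pi (μ := fun _ : Sym2 (Fin n) => unif) (X := fun _ x => x)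
      (fun _ => measurable_id.aemeasurable)
  exact h1.indepFun_finset F F' h (fun i => measurable_pi_apply i)

/-- independence for nonnegative functions -/
theorem lintegral_mul_indep {F F' : Finset (Sym2 (Fin n))} (h : Disjoint F F')
    {f g : Env n → ℝ≥0∞} (hf : Measurable f) (hg : Measurable g)
    (h1 : ∀ ω ω' : Env n, (∀ e ∈ F, ω e = ω' e) → f ω = f ω')
    (h2 : ∀ ω ω' : Env n, (∀ e ∈ F', ω e = ω' e) → g ω = g ω') :
    ∫⁻ ω, f ω * g ω ∂(mu n) = (∫⁻ ω, f ω ∂(mu n)) * ∫⁻ ω, g ω ∂(mu n) := by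
  have hf2 : f = (fun x => f (extF F x)) ∘ fun (ω : Env n) (i : F) => ω i := by
    funext ω
    refine h1 _ _ fun e he => ?_
    simp [extF, he]
  have hg2 : g = (fun x => g (extF F' x)) ∘ fun (ω : Env n) (i : F') => ω i := by
    funext ω
    refine h2 _ _ fun e he => ?_
    simp [extF, he]
  have h3 : ProbabilityTheory.IndepFun f g (mu n) := by
    rw [hf2, hg2]
    exact (indep_restrict h).comp (hf.comp (measurable_extF F)) (hg.comp (measurable_extF F'))
  exact ProbabilityTheory.lintegral_mul_eq_lintegral_mul_lintegral_of_indepFun hf hg h3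

/-- independence for disjoint sets of coordinates -/
theorem mu_inter {F F' : Finset (Sym2 (Fin n))} (h : Disjoint F F') {B B' : Set (Env n)}
    (hB : MeasurableSet B) (hB' : MeasurableSet B') (h1 : DepOn F B) (h2 : DepOn F' B') :
    mu n (B ∩ B') = mu n B * mu n B' := by
  have h3 := lintegral_mul_indep (f := B.indicator 1) (g := B'.indicator 1) h
    (measurable_one.indicator hB) (measurable_one.indicator hB')
    (fun ω ω' hh => by
      have := h1 ω ω' hh
      by_cases hω : ω ∈ B
      · simp [hω, this.1 hω]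
      · have h3 : ω' ∉ B := fun hx => hω (this.2 hx)
        simp [hω, h3])
    (fun ω ω' hh => by
      have := h2 ω ω' hh
      by_cases hω : ω ∈ B'
      · simp [hω, this.1 hω]
      · have h3 : ω' ∉ B' := fun hx => hω (this.2 hx)
        simp [hω, h3])
  have h4 : (fun ω => B.indicator (1 : Env n → ℝ≥0∞) ω * B'.indicator (1 : Env n → ℝ≥0∞) ω) =
      (B ∩ B').indicator 1 := by
    funext ω
    rw [Set.inter_indicator_one]
    rfl
  rw [h4, lintegral_indicator_one (hB.inter hB'), lintegral_indicator_one hB,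
    lintegral_indicator_one hB'] at h3
  exact h3

/-- probability of a product set -/
theorem mu_pi (s : Sym2 (Fin n) → Set ℝ) :
    mu n {ω | ∀ e, ω e ∈ s e} = ∏ e, unif (s e) := by
  have h1 : {ω : Env n | ∀ e, ω e ∈ s e} = Set.pi Set.univ s := by
    ext ω
    simp
  rw [h1]
  exact Measure.pi_pi _ _

theorem unif_Iic {p : ℝ} (hp1 : p ≤ 1) : unif (Set.Iic p) = ENNReal.ofReal p := by
  have h1 : Set.Iic p ∩ Set.Icc 0 1 = Set.Icc 0 p := by
    ext x
    simp only [Set.mem_inter_iff, Set.mem_Iic, Set.mem_Icc]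
    constructor
    · rintro ⟨h1, h2, h3⟩
      exact ⟨h2, h1⟩
    · rintro ⟨h1, h2⟩
      exact ⟨h2, h1, h2.trans hp1⟩
  rw [unif, Measure.restrict_apply measurableSet_Iic, h1, Real.volume_Icc, sub_zero]

theorem unif_Ioi {p : ℝ} (hp : 0 ≤ p) : unif (Set.Ioi p) = ENNReal.ofReal (1 - p) := by
  have h1 : Set.Ioi p ∩ Set.Icc 0 1 = Set.Ioc p 1 := by
    ext x
    simp only [Set.mem_inter_iff, Set.mem_Ioi, Set.mem_Icc, Set.mem_Ioc]
    constructor
    · rintro ⟨h1, h2, h3⟩
      exact ⟨h1, h3⟩
    · rintro ⟨h1, h2⟩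
      exact ⟨h1, hp.trans h1.le, h2⟩
  rw [unif, Measure.restrict_apply measurableSet_Ioi, h1, Real.volume_Ioc]

theorem unif_Ioc {a b : ℝ} (ha : 0 ≤ a) (hb : b ≤ 1) :
    unif (Set.Ioc a b) = ENNReal.ofReal (b - a) := by
  have h1 : Set.Ioc a b ∩ Set.Icc 0 1 = Set.Ioc a b := by
    refine Set.inter_eq_left.2 fun x hx => ⟨ha.trans hx.1.le, hx.2.trans hb⟩
  rw [unif, Measure.restrict_apply measurableSet_Ioc, h1, Real.volume_Ioc]

theorem unif_univ : unif Set.univ = 1 := measure_univ

theorem mu_box (F : Finset (Sym2 (Fin n))) (a b : Sym2 (Fin n) → ℝ)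
    (h : ∀ e ∈ F, 0 ≤ a e ∧ a e ≤ b e ∧ b e ≤ 1) :
    mu n {ω | ∀ e ∈ F, a e < ω e ∧ ω e ≤ b e} = ENNReal.ofReal (∏ e ∈ F, (b e - a e)) := by
  have h1 : {ω : Env n | ∀ e ∈ F, a e < ω e ∧ ω e ≤ b e} =
      {ω | ∀ e, ω e ∈ (if e ∈ F then Set.Ioc (a e) (b e) else Set.univ)} := by
    ext ω
    simp only [Set.mem_ofPred_eq]
    refine forall_congr' fun e => ?_
    by_cases he : e ∈ F
    · simp [he]
    · simp [he]
  rw [h1, mu_pi, ENNReal.ofReal_prod_of_nonneg fun e he => sub_nonneg.2 (h e he).2.1]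
  rw [← Finset.prod_subset (Finset.subset_univ F)]
  · refine Finset.prod_congr rfl fun e he => ?_
    rw [if_pos he, unif_Ioc (h e he).1 (h e he).2.2]
  · intro e _ he
    rw [if_neg he, unif_univ]

/-- edges of `F` are `≤ p`, edges of `F'` are `> p` -/
theorem mu_pattern (F F' : Finset (Sym2 (Fin n))) (h : Disjoint F F') {p : ℝ} (hp : 0 ≤ p)
    (hp1 : p ≤ 1) :
    mu n {ω | (∀ e ∈ F, ω e ≤ p) ∧ ∀ e ∈ F', p < ω e} =
      ENNReal.ofReal (p ^ F.card * (1 - p) ^ F'.card) := by
  have h1 : {ω : Env n | (∀ e ∈ F, ω e ≤ p) ∧ ∀ e ∈ F', p < ω e} =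
      {ω | ∀ e, ω e ∈ (if e ∈ F then Set.Iic p else if e ∈ F' then Set.Ioi p else Set.univ)} := by
    ext ω
    simp only [Set.mem_ofPred_eq]
    constructor
    · rintro ⟨h1, h2⟩ e
      by_cases he : e ∈ F
      · simp only [he, if_true]
        exact h1 e he
      · by_cases he' : e ∈ F'
        · simp only [he, he', if_true, if_false]
          exact h2 e he'
        · simp [he, he']
    · intro h1
      refine ⟨fun e he => ?_, fun e he => ?_⟩
      · have := h1 e
        rw [if_pos he] at this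
        exact this
      · have := h1 e
        rw [if_neg (Finset.disjoint_right.1 h he), if_pos he] at this
        exact this
  have h2 : ∀ e : Sym2 (Fin n),
      unif (if e ∈ F then Set.Iic p else if e ∈ F' then Set.Ioi p else Set.univ) =
      (if e ∈ F then ENNReal.ofReal p else 1) * (if e ∈ F' then ENNReal.ofReal (1 - p) else 1) := by
    intro e
    by_cases he : e ∈ F
    · have he' : e ∉ F' := Finset.disjoint_left.1 h he
      simp only [he, he', if_true, if_false, mul_one]
      exact unif_Iic hp1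
    · by_cases he' : e ∈ F'
      · simp only [he, he', if_true, if_false, one_mul]
        exact unif_Ioi hp
      · simp only [he, he', if_false, one_mul]
        exact unif_univ
  rw [h1, mu_pi, Finset.prod_congr rfl fun e _ => h2 e, Finset.prod_mul_distrib,
    Finset.prod_ite_mem, Finset.prod_ite_mem, Finset.univ_inter, Finset.univ_inter,
    Finset.prod_const, Finset.prod_const, ENNReal.ofReal_mul (by positivity),
    ENNReal.ofReal_pow hp, ENNReal.ofReal_pow (by linarith)]

theorem mu_le_all (F : Finset (Sym2 (Fin n))) {p : ℝ} (hp : 0 ≤ p) (hp1 : p ≤ 1) :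
    mu n {ω | ∀ e ∈ F, ω e ≤ p} = ENNReal.ofReal (p ^ F.card) := by
  have := mu_pattern F ∅ (Finset.disjoint_empty_right F) hp hp1
  simpa using this

theorem mu_gt_all (F : Finset (Sym2 (Fin n))) {p : ℝ} (hp : 0 ≤ p) (hp1 : p ≤ 1) :
    mu n {ω | ∀ e ∈ F, p < ω e} = ENNReal.ofReal ((1 - p) ^ F.card) := by
  have := mu_pattern ∅ F (Finset.disjoint_empty_left F) hp hp1
  simpa using this

/-- the constraint of the coordinate `e` in the event `Gr ω p = H` -/
def slc (H : SimpleGraph (Fin n)) (p : ℝ) (e : Sym2 (Fin n)) : Set ℝ :=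
  if e.IsDiag then Set.univ else if e ∈ H.edgeSet then Set.Iic p else Set.Ioi p

theorem Gr_eq_iff (H : SimpleGraph (Fin n)) (p : ℝ) (ω : Env n) :
    Gr ω p = H ↔ ∀ e, ω e ∈ slc H p e := by
  constructor
  · rintro rfl e
    induction e using Sym2.ind with
    | _ i j =>
      by_cases hij : i = j
      · subst hij
        simp [slc]
      · by_cases hp : ω s(i, j) ≤ p
        · have : s(i, j) ∈ (Gr ω p).edgeSet := ⟨hij, hp⟩
          simp only [slc, Sym2.mk_isDiag_iff, hij, this, if_true, if_false]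
          exact hp
        · have : s(i, j) ∉ (Gr ω p).edgeSet := fun h => hp h.2
          simp only [slc, Sym2.mk_isDiag_iff, hij, this, if_false]
          exact not_le.1 hp
  · intro h
    ext i j
    by_cases hij : i = j
    · subst hij
      simp
    · have h1 := h s(i, j)
      by_cases hH : H.Adj i j
      · have : s(i, j) ∈ H.edgeSet := hH
        simp only [slc, Sym2.mk_isDiag_iff, hij, this, if_true, if_false] at h1
        exact ⟨fun _ => hH, fun _ => ⟨hij, h1⟩⟩
      · have : s(i, j) ∉ H.edgeSet := hH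
        simp only [slc, Sym2.mk_isDiag_iff, hij, this, if_false] at h1
        exact ⟨fun h2 => absurd h2.2 (not_le.2 h1), fun h2 => absurd h2 hH⟩

/-- **Slice**: `E H` and `K H` are a property and a set of non-edges attached to the graph
`H = Gr ω p`; if `E H` implies `m ≤ |K H|`, then the probability that `E (Gr ω p)` holds and all
edges of `K (Gr ω p)` are still absent at the level `p' > p` is at most `(1-(p'-p))^m`.
Proof: sum over `H` of the probability of `{Gr ω p = H} ∩ {∀ e ∈ K H, p' < ω e}`, which is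
`P(Gr = H) ((1-p')/(1-p))^{|K H|}` by `mu_box`. (Careful with the diagonal elements of `Sym2`,
which are in no graph.) -/
theorem slice {p p' : ℝ} (hp : 0 ≤ p) (hpp : p ≤ p') (hp1 : p' < 1) (m : ℕ)
    (E : SimpleGraph (Fin n) → Prop) (K : SimpleGraph (Fin n) → Finset (Sym2 (Fin n)))
    (hK : ∀ H, E H → m ≤ (K H).card ∧ ∀ e ∈ K H, ¬ e.IsDiag ∧ e ∉ H.edgeSet) :
    mu n {ω | E (Gr ω p) ∧ ∀ e ∈ K (Gr ω p), p' < ω e} ≤
      ENNReal.ofReal ((1 - (p' - p)) ^ m) := by
  have hc0 : 0 ≤ 1 - (p' - p) := by linarith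
  have hc1 : 1 - (p' - p) ≤ 1 := by linarith
  have key : ∀ H : SimpleGraph (Fin n),
      mu n {ω | Gr ω p = H ∧ E H ∧ ∀ e ∈ K H, p' < ω e} ≤
        mu n {ω | Gr ω p = H} * ENNReal.ofReal ((1 - (p' - p)) ^ m) := by
    intro H
    by_cases hE : E H
    · obtain ⟨hm, hKH⟩ := hK H hE
      have h1 : {ω : Env n | Gr ω p = H ∧ E H ∧ ∀ e ∈ K H, p' < ω e} ⊆
          {ω | ∀ e, ω e ∈ (if e ∈ K H then Set.Ioi p' else slc H p e)} := by
        rintro ω ⟨h2, _, h3⟩ e
        by_cases he : e ∈ K H
        · simp only [he, if_true]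
          exact h3 e he
        · simp only [he, if_false]
          exact (Gr_eq_iff H p ω).1 h2 e
      have h4 : {ω : Env n | Gr ω p = H} = {ω | ∀ e, ω e ∈ slc H p e} := by
        ext ω
        exact Gr_eq_iff H p ω
      have h5 : ∀ e : Sym2 (Fin n), unif (if e ∈ K H then Set.Ioi p' else slc H p e) ≤
          unif (slc H p e) * (if e ∈ K H then ENNReal.ofReal (1 - (p' - p)) else 1) := by
        intro e
        by_cases he : e ∈ K H
        · have h6 : slc H p e = Set.Ioi p := by
            rw [slc, if_neg (hKH e he).1, if_neg (hKH e he).2]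
          rw [if_pos he, if_pos he, h6, unif_Ioi hp, unif_Ioi (hp.trans hpp),
            ← ENNReal.ofReal_mul (by linarith)]
          refine ENNReal.ofReal_le_ofReal ?_
          nlinarith [mul_nonneg hp (sub_nonneg.2 hpp)]
        · rw [if_neg he, if_neg he, mul_one]
      calc mu n {ω | Gr ω p = H ∧ E H ∧ ∀ e ∈ K H, p' < ω e}
          ≤ mu n {ω | ∀ e, ω e ∈ (if e ∈ K H then Set.Ioi p' else slc H p e)} :=
            measure_mono h1
        _ = ∏ e, unif (if e ∈ K H then Set.Ioi p' else slc H p e) := mu_pi _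
        _ ≤ ∏ e, (unif (slc H p e) * (if e ∈ K H then ENNReal.ofReal (1 - (p' - p)) else 1)) :=
            Finset.prod_le_prod' fun e _ => h5 e
        _ = (∏ e, unif (slc H p e)) * ENNReal.ofReal (1 - (p' - p)) ^ (K H).card := by
            rw [Finset.prod_mul_distrib, Finset.prod_ite_mem, Finset.univ_inter,
              Finset.prod_const]
        _ ≤ (∏ e, unif (slc H p e)) * ENNReal.ofReal (1 - (p' - p)) ^ m := by
            exact mul_le_mul_right
              (pow_le_pow_right_of_le_one' (ENNReal.ofReal_le_one.2 hc1) hm) _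
        _ = mu n {ω | Gr ω p = H} * ENNReal.ofReal ((1 - (p' - p)) ^ m) := by
            rw [h4, mu_pi, ENNReal.ofReal_pow hc0]
    · have h1 : {ω : Env n | Gr ω p = H ∧ E H ∧ ∀ e ∈ K H, p' < ω e} = ∅ := by
        ext ω
        simp [hE]
      rw [h1]
      simp
  have h2 : {ω : Env n | E (Gr ω p) ∧ ∀ e ∈ K (Gr ω p), p' < ω e} ⊆
      ⋃ H ∈ (Finset.univ : Finset (SimpleGraph (Fin n))),
        {ω | Gr ω p = H ∧ E H ∧ ∀ e ∈ K H, p' < ω e} := by
    rintro ω ⟨h3, h4⟩
    simp only [Set.mem_iUnion]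
    exact ⟨Gr ω p, Finset.mem_univ _, rfl, h3, h4⟩
  calc mu n {ω | E (Gr ω p) ∧ ∀ e ∈ K (Gr ω p), p' < ω e}
      ≤ ∑ H : SimpleGraph (Fin n), mu n {ω | Gr ω p = H ∧ E H ∧ ∀ e ∈ K H, p' < ω e} :=
        (measure_mono h2).trans (measure_biUnion_finset_le _ _)
    _ ≤ ∑ H : SimpleGraph (Fin n), mu n {ω | Gr ω p = H} *
          ENNReal.ofReal ((1 - (p' - p)) ^ m) := Finset.sum_le_sum fun H _ => key H
    _ = (∑ H : SimpleGraph (Fin n), mu n ((fun ω => Gr ω p) ⁻¹' {H})) *
          ENNReal.ofReal ((1 - (p' - p)) ^ m) := by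
        rw [Finset.sum_mul]
        rfl
    _ = mu n ((fun ω => Gr ω p) ⁻¹' ((Finset.univ : Finset (SimpleGraph (Fin n))) : Set _)) *
          ENNReal.ofReal ((1 - (p' - p)) ^ m) := by
        rw [sum_measure_preimage_singleton _ fun H _ => measurableSet_Gr_eq p H]
    _ = ENNReal.ofReal ((1 - (p' - p)) ^ m) := by
        simp

end RST
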