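import Pool.Agent.Work.MP_5ba30e_pr.TreeD
import Pool.Agent.Work.MP_5ba30e_pr.Zr
import Pool.Agent.Work.MP_5ba30e_pr.Inv
import Pool.Agent.Work.MP_5ba30e_pr.Tup

/-!
# Reloc : relocation of an edge `{p,q}` of the walk towards the hull

Setting: `S` is a nonempty set of marks, `C0 ω ⊆ Cj ω` are sets of vertices, `pj` a level.
A move is `(p,q) → (p,q')`, where `{p,q}` is an edge of the walk of `z` to the hull with value
`> pj`, `q ∈ Cj ω`, and `q' ∈ C0 ω` is outside of the branch of `p` with `pj < ω s(p,q')`.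
-/

open MeasureTheory Set Filter Finset
open scoped ENNReal Topology Classical

set_option linter.unusedVariables false

noncomputable section

namespace RST

variable {n : ℕ}

/-- admissible relocation (for the environment only) -/
def RelOK (C0 Cj : Env n → Finset (Fin n)) (pj : ℝ) (ω : Env n) (p q q' : Fin n) : Prop :=
  q ∈ Cj ω ∧ q' ∈ C0 ω ∧ p ≠ q ∧ p ≠ q' ∧ pj < ω s(p, q) ∧ pj < ω s(p, q')

/-- relocation is possible at the level `pj` -/
structure ROK (β M N0 Nj pj : ℝ) (S : Finset (Fin n)) (C0 Cj CX : Env n → Finset (Fin n))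
    (ω : Env n) (T : SimpleGraph (Fin n)) : Prop where
  low : N0 ≤ ((C0 ω).card : ℝ)
  upp : ((Cj ω).card : ℝ) ≤ Nj
  half : ∀ a b, offp T S a b →
    2 * (((C0 ω).filter fun q' => q' ∈ side T s(a, b) a ∨ q' = b ∨ ω s(a, q') ≤ pj).card : ℝ) ≤
      (C0 ω).card
  zr : ∀ p q q', RelOK C0 Cj pj ω p q q' → Zf β (sw s(p, q) s(p, q') ω) ≤ M * Zf β ω
  inv0 : ∀ p q q', RelOK C0 Cj pj ω p q q' → C0 (sw s(p, q) s(p, q') ω) = C0 ω
  invj : ∀ p q q', RelOK C0 Cj pj ω p q q' → Cj (sw s(p, q) s(p, q') ω) = Cj ω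
  invX : ∀ p q q', RelOK C0 Cj pj ω p q q' → CX (sw s(p, q) s(p, q') ω) = CX ω

/-! ### tools -/

theorem measurable_fin_comp {α : Type*} [MeasurableSpace α] {CX : Env n → Finset (Fin n)}
    (hXm : ∀ v, MeasurableSet {ω | v ∈ CX ω}) (ψ : Finset (Fin n) → α) :
    Measurable fun ω => ψ (CX ω) := by
  letI : MeasurableSpace (Finset (Fin n)) := ⊤
  have h1 : Measurable CX := by
    refine measurable_to_countable' fun s => ?_
    have h2 : CX ⁻¹' {s} = ⋂ v : Fin n, {ω | v ∈ CX ω ↔ v ∈ s} := by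
      ext ω
      simp only [Set.mem_preimage, Set.mem_singleton_iff, Set.mem_iInter, Set.mem_setOf_eq]
      rw [Finset.ext_iff]
    rw [h2]
    refine MeasurableSet.iInter fun v => ?_
    by_cases hv : v ∈ s
    · have : {ω | v ∈ CX ω ↔ v ∈ s} = {ω | v ∈ CX ω} := by
        ext ω; simp [hv]
      rw [this]; exact hXm v
    · have : {ω | v ∈ CX ω ↔ v ∈ s} = {ω | v ∈ CX ω}ᶜ := by
        ext ω; simp [hv]
      rw [this]; exact (hXm v).compl
  exact (measurable_from_top (f := ψ)).comp h1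

theorem sum_ind_card (W : Sym2 (Fin n) → Sym2 (Fin n) → Prop) :
    ∑ f, ∑ e, ind (W f e) =
      (((Finset.univ : Finset (Sym2 (Fin n) × Sym2 (Fin n))).filter
        fun x => W x.1 x.2).card : ℝ≥0∞) := by
  rw [← Fintype.sum_prod_type' (fun f e => ind (W f e)), Finset.card_filter]
  push_cast
  rfl

/-- facts on a relocation -/
theorem reloc_facts {T : SimpleGraph (Fin n)} {S : Finset (Fin n)} (hT : T.IsTree)
    (hS : S.Nonempty) {z q' : Fin n} {i : ℕ} (hi : i < hgt T S z)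
    (hq' : q' ∉ side T s(dn T S z i, dn T S z (i + 1)) (dn T S z i))
    (hne : q' ≠ dn T S z (i + 1)) :
    offp T S (dn T S z i) (dn T S z (i + 1)) ∧
    s(dn T S z i, dn T S z (i + 1)) ∈ T.edgeSet ∧ s(dn T S z i, q') ∉ T.edgeSet ∧
    ¬ (s(dn T S z i, q')).IsDiag ∧
    (swp T s(dn T S z i, dn T S z (i + 1)) s(dn T S z i, q')).IsTree ∧
    dn T S z i ≠ dn T S z (i + 1) ∧ dn T S z i ≠ q' ∧
    s(dn T S z i, q') ≠ s(dn T S z i, dn T S z (i + 1)) ∧
    dn T S z (i + 1) ∉ side T s(dn T S z i, dn T S z (i + 1)) (dn T S z i) := by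
  have h1 := offp_dn hT hS hi
  have hadj := h1.1
  have hpq' : dn T S z i ≠ q' := by
    intro h; apply hq'; rw [← h]; exact self_mem_side
  have hne2 : s(dn T S z i, q') ≠ s(dn T S z i, dn T S z (i + 1)) := by
    intro h
    rw [Sym2.congr_right] at h
    exact hne h
  refine ⟨h1, hadj, not_mem_of_cross hT hadj self_mem_side hq' hne2, ?_,
    swp_isTree hT hadj self_mem_side hq', hadj.ne, hpq', hne2,
    (side_part hT hadj _).1 self_mem_side⟩
  simpa using hpq'

/-- number of choices of `q'` -/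
theorem half_card {β M N0 Nj pj : ℝ} {S : Finset (Fin n)} {C0 Cj CX : Env n → Finset (Fin n)}
    {ω : Env n} {T : SimpleGraph (Fin n)} (h : ROK β M N0 Nj pj S C0 Cj CX ω T) {a b : Fin n}
    (hab : offp T S a b) :
    N0 / 2 ≤ (((C0 ω).filter fun q' => q' ∉ side T s(a, b) a ∧ q' ≠ b ∧
      pj < ω s(a, q')).card : ℝ) := by
  have h1 := h.half a b hab
  have h2 := h.low
  have h3 := Finset.card_filter_add_card_filter_not (s := C0 ω)
    (fun q' => q' ∈ side T s(a, b) a ∨ q' = b ∨ ω s(a, q') ≤ pj)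
  have h4 : ((C0 ω).filter fun q' => ¬ (q' ∈ side T s(a, b) a ∨ q' = b ∨ ω s(a, q') ≤ pj)) =
      ((C0 ω).filter fun q' => q' ∉ side T s(a, b) a ∧ q' ≠ b ∧ pj < ω s(a, q')) := by
    refine Finset.filter_congr fun q' _ => ?_
    push Not
    rfl
  rw [h4] at h3
  have h5 : (((C0 ω).filter fun q' => q' ∈ side T s(a, b) a ∨ q' = b ∨ ω s(a, q') ≤ pj).card : ℝ)
      + (((C0 ω).filter fun q' => q' ∉ side T s(a, b) a ∧ q' ≠ b ∧ pj < ω s(a, q')).card : ℝ) =
      (C0 ω).card := by exact_mod_cast h3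
  linarith

theorem ofReal_div_aux {M c N0 : ℝ} (hM : 0 ≤ M) (hN0 : 0 < N0) (hc : 0 ≤ c) {X Y : ℝ≥0∞}
    (h : ENNReal.ofReal (N0 / 2) * X ≤ ENNReal.ofReal M * (ENNReal.ofReal c * Y)) :
    X ≤ ENNReal.ofReal (2 * M * c / N0) * Y := by
  have h2 : ENNReal.ofReal (2 / N0) * (ENNReal.ofReal (N0 / 2) * X) ≤
      ENNReal.ofReal (2 / N0) * (ENNReal.ofReal M * (ENNReal.ofReal c * Y)) :=
    mul_le_mul' le_rfl h
  have h3 : ENNReal.ofReal (2 / N0) * (ENNReal.ofReal (N0 / 2) * X) = X := by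
    rw [← mul_assoc, ← ENNReal.ofReal_mul (by positivity)]
    have : 2 / N0 * (N0 / 2) = 1 := by field_simp
    rw [this]; simp
  have h4 : ENNReal.ofReal (2 / N0) * (ENNReal.ofReal M * (ENNReal.ofReal c * Y)) =
      ENNReal.ofReal (2 * M * c / N0) * Y := by
    rw [← mul_assoc, ← mul_assoc, ← ENNReal.ofReal_mul (by positivity),
      ← ENNReal.ofReal_mul (by positivity)]
    congr 2
    field_simp
  rw [h3, h4] at h2
  exact h2

/-- the relation of `T3E` -/
def V3 (pj : ℝ) (S : Finset (Fin n)) (z : Fin n) (C0 Cj : Env n → Finset (Fin n))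
    (A : Env n → SimpleGraph (Fin n) → Prop) (ω : Env n) (T : SimpleGraph (Fin n))
    (f e : Sym2 (Fin n)) : Prop :=
  A ω T ∧ T.IsTree ∧ ∃ i < hgt T S z, (∀ i' ≤ i + 1, dn T S z i' ∉ C0 ω) ∧
    dn T S z (i + 1) ∈ Cj ω ∧ f = s(dn T S z i, dn T S z (i + 1)) ∧ pj < ω f ∧
    ∃ q', q' ∈ C0 ω ∧ q' ∉ side T s(dn T S z i, dn T S z (i + 1)) (dn T S z i) ∧
      q' ≠ dn T S z (i + 1) ∧ e = s(dn T S z i, q') ∧ pj < ω e

theorem V3_meas {pj : ℝ} {S : Finset (Fin n)} {z : Fin n} {C0 Cj : Env n → Finset (Fin n)}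
    (h0m : ∀ v, MeasurableSet {ω | v ∈ C0 ω}) (hjm : ∀ v, MeasurableSet {ω | v ∈ Cj ω})
    {A : Env n → SimpleGraph (Fin n) → Prop} (hA : ∀ T, MeasurableSet {ω | A ω T})
    (T : SimpleGraph (Fin n)) (f e : Sym2 (Fin n)) :
    MeasurableSet {ω | V3 pj S z C0 Cj A ω T f e} := by
  have hev : ∀ g : Sym2 (Fin n), Measurable fun ω : Env n => pj < ω g := fun g =>
    measurableSet_setOf.1 (measurableSet_lt measurable_const (measurable_pi_apply g))
  have h0m' : ∀ v, Measurable fun ω => v ∈ C0 ω := fun v => measurableSet_setOf.1 (h0m v)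
  have hjm' : ∀ v, Measurable fun ω => v ∈ Cj ω := fun v => measurableSet_setOf.1 (hjm v)
  rw [measurableSet_setOf]
  unfold V3
  refine Measurable.and (measurableSet_setOf.1 (hA T)) (measurable_const.and ?_)
  refine Measurable.exists fun i => measurable_const.and ?_
  refine Measurable.and ?_ ((hjm' _).and (measurable_const.and ((hev f).and ?_)))
  · exact Measurable.forall fun i' => measurable_const.imp (h0m' _).not
  · exact Measurable.exists fun q' => (h0m' _).and (measurable_const.and (measurable_const.and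
      (measurable_const.and (hev e))))

/-- number of moves from `(ω, T)` -/
theorem V3_out {β M N0 Nj pj : ℝ} {S : Finset (Fin n)} (hS : S.Nonempty) {z : Fin n}
    {C0 Cj CX : Env n → Finset (Fin n)} {A : Env n → SimpleGraph (Fin n) → Prop}
    {ω : Env n} {T : SimpleGraph (Fin n)} (hT : T.IsTree) (hAT : A ω T)
    (h : ROK β M N0 Nj pj S C0 Cj CX ω T) :
    (LN T S (C0 ω) (Cj ω) pj ω z : ℝ) * (N0 / 2) ≤
      (((Finset.univ : Finset (Sym2 (Fin n) × Sym2 (Fin n))).filter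
        fun x => V3 pj S z C0 Cj A ω T x.1 x.2).card : ℝ) := by
  set I : Finset ℕ := (Finset.range (hgt T S z)).filter fun i =>
    (∀ i' ≤ i + 1, dn T S z i' ∉ C0 ω) ∧
    dn T S z (i + 1) ∈ Cj ω ∧ pj < ω s(dn T S z i, dn T S z (i + 1)) with hI
  set Qs : ℕ → Finset (Fin n) := fun i => (C0 ω).filter fun q' =>
    q' ∉ side T s(dn T S z i, dn T S z (i + 1)) (dn T S z i) ∧ q' ≠ dn T S z (i + 1) ∧
      pj < ω s(dn T S z i, q') with hQs
  have hmem : ∀ i, i ∈ I ↔ i < hgt T S z ∧ (∀ i' ≤ i + 1, dn T S z i' ∉ C0 ω) ∧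
    dn T S z (i + 1) ∈ Cj ω ∧ pj < ω s(dn T S z i, dn T S z (i + 1)) := by
    intro i; rw [hI, Finset.mem_filter, Finset.mem_range]
  -- injection
  have hinj : Set.InjOn (fun x : (Σ _ : ℕ, Fin n) =>
      ((s(dn T S z x.1, dn T S z (x.1 + 1)), s(dn T S z x.1, x.2)) :
        Sym2 (Fin n) × Sym2 (Fin n))) (I.sigma Qs : Set (Σ _ : ℕ, Fin n)) := by
    rintro ⟨i, q⟩ hx ⟨j, q'⟩ hy hxy
    simp only [Finset.coe_sigma, Set.mem_sigma_iff, Finset.mem_coe] at hx hy
    simp only [Prod.mk.injEq] at hxy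
    have hi := ((hmem i).1 hx.1).1
    have hj := ((hmem j).1 hy.1).1
    have hij : i = j := by
      have h1 := hxy.1
      rw [Sym2.eq_iff] at h1
      rcases h1 with h1 | h1
      · exact dn_inj hT hS hi.le hj.le h1.1
      · have h2 := dn_inj hT hS hi.le (Nat.succ_le_of_lt hj) h1.1
        have h3 := dn_inj hT hS (Nat.succ_le_of_lt hi) hj.le h1.2
        omega
    subst hij
    have h2 := hxy.2
    rw [Sym2.congr_right] at h2
    rw [h2]
  have hcard : (I.sigma Qs).card ≤ ((Finset.univ : Finset (Sym2 (Fin n) × Sym2 (Fin n))).filter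
        fun x => V3 pj S z C0 Cj A ω T x.1 x.2).card := by
    refine Finset.card_le_card_of_injOn _ ?_ hinj
    rintro ⟨i, q'⟩ hx
    simp only [Finset.coe_sigma, Set.mem_sigma_iff, Finset.mem_coe] at hx
    rw [Finset.mem_coe, Finset.mem_filter]
    refine ⟨Finset.mem_univ _, hAT, hT, i, ?_⟩
    have hi := (hmem i).1 hx.1
    have hq := hx.2
    rw [hQs] at hq
    simp only [Finset.mem_filter] at hq
    exact ⟨hi.1, hi.2.1, hi.2.2.1, rfl, hi.2.2.2, q', hq.1, hq.2.1, hq.2.2.1, rfl, hq.2.2.2⟩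
  have hLN : LN T S (C0 ω) (Cj ω) pj ω z = I.card := rfl
  rw [hLN]
  have h1 : (I.card : ℝ) * (N0 / 2) ≤ ∑ i ∈ I, ((Qs i).card : ℝ) := by
    rw [← nsmul_eq_mul]
    refine Finset.card_nsmul_le_sum _ _ _ fun i hi => ?_
    exact half_card h (offp_dn hT hS ((hmem i).1 hi).1)
  refine h1.trans ?_
  rw [Finset.card_sigma] at hcard
  exact_mod_cast hcard

/-- **T3E**.  Apply `flow_count` with `Ψ ω = ψ (CX ω)` and
`V ω T f e := A ω T ∧ T.IsTree ∧ ∃ i < hgt T S z, (∀ i' ≤ i + 1, dn T S z i' ∉ C0 ω) ∧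
 dn T S z (i+1) ∈ Cj ω ∧ f = s(p, q) ∧ pj < ω f ∧ ∃ q' ∈ C0 ω, q' ∉ side T s(p,q) p ∧ q' ≠ q ∧
 e = s(p, q') ∧ pj < ω e` (`p = dn T S z i`, `q = dn T S z (i+1)`),
`g ω T = ind (A ω T) * LN * (N0/2)` (every landing has `≥ |C0|/2 ≥ N0/2` choices of `q'` by `half`,
and `(i, q') ↦ (f, e)` is injective), `m = Nj`: if `(ω', T')` is obtained from `(ω, T)`, then
`C0 ω' = C0 ω`, `Cj ω' = Cj ω`, and by `dn_reloc` the walk of `z` in `T'` is that of `T` up to `p`,
then goes to `q' ∈ C0 ω'`: so `i + 1` is the first time at which the walk of `(T', z)` meets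
`C0 ω'`, and `i, p, q', e` are determined by `(ω', T')`; for `f = s(p, q)` there are at most
`|Cj ω'| ≤ Nj` choices. -/
theorem T3E (hn : 1 ≤ n) {β M N0 Nj pj : ℝ} (hM : 0 ≤ M) (hN0 : 0 < N0) (hNj : 0 ≤ Nj)
    {S : Finset (Fin n)} (hS : S.Nonempty) (z : Fin n) {C0 Cj CX : Env n → Finset (Fin n)}
    (h0m : ∀ v, MeasurableSet {ω | v ∈ C0 ω}) (hjm : ∀ v, MeasurableSet {ω | v ∈ Cj ω})
    (hXm : ∀ v, MeasurableSet {ω | v ∈ CX ω})
    (A : Env n → SimpleGraph (Fin n) → Prop) (hA : ∀ T, MeasurableSet {ω | A ω T})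
    (h : ∀ ω T, T.IsTree → A ω T → ROK β M N0 Nj pj S C0 Cj CX ω T)
    (ψ : Finset (Fin n) → ℝ≥0∞) :
    EE β (fun ω T => ind (A ω T) * (LN T S (C0 ω) (Cj ω) pj ω z : ℝ≥0∞) * ψ (CX ω)) ≤
      ENNReal.ofReal (2 * M * Nj / N0) * EE β (fun ω _ => ψ (CX ω)) := by
  -- data of a move
  have hdata : ∀ ω T i q', A ω T → T.IsTree → i < hgt T S z → dn T S z (i + 1) ∈ Cj ω →
      pj < ω s(dn T S z i, dn T S z (i + 1)) → q' ∈ C0 ω →
      q' ∉ side T s(dn T S z i, dn T S z (i + 1)) (dn T S z i) →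
      q' ≠ dn T S z (i + 1) → pj < ω s(dn T S z i, q') →
      RelOK C0 Cj pj ω (dn T S z i) (dn T S z (i + 1)) q' := by
    intro ω T i q' hAT hT hi hj hf hq0 hq1 hq2 he
    obtain ⟨-, -, -, -, -, f1, f2, -, -⟩ := reloc_facts hT hS hi hq1 hq2
    exact ⟨hj, hq0, f1, f2, hf, he⟩
  have key := flow_count (β := β) hM (V3 pj S z C0 Cj A)
    (fun ω T => ENNReal.ofReal (N0 / 2) * (ind (A ω T) * (LN T S (C0 ω) (Cj ω) pj ω z : ℝ≥0∞)))
    (fun _ _ => ENNReal.ofReal Nj) (fun ω => ψ (CX ω))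
    (V3_meas h0m hjm hA) (measurable_fin_comp hXm ψ) ?_ ?_ ?_
  · have e1 : EE β (fun ω T => ENNReal.ofReal (N0 / 2) *
        (ind (A ω T) * (LN T S (C0 ω) (Cj ω) pj ω z : ℝ≥0∞)) * ψ (CX ω)) =
        ENNReal.ofReal (N0 / 2) * EE β (fun ω T =>
          ind (A ω T) * (LN T S (C0 ω) (Cj ω) pj ω z : ℝ≥0∞) * ψ (CX ω)) := by
      rw [← EE_const_mul _ ENNReal.ofReal_ne_top]
      congr 1
      funext ω T
      ring
    have e2 : EE β (fun ω (_ : SimpleGraph (Fin n)) => ENNReal.ofReal Nj * ψ (CX ω)) =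
        ENNReal.ofReal Nj * EE β (fun ω _ => ψ (CX ω)) := by
      rw [← EE_const_mul _ ENNReal.ofReal_ne_top]
    simp only [e1, e2] at key
    exact ofReal_div_aux hM hN0 hNj key
  · rintro ω T f e ⟨hAT, hT, i, hi, hi', hj, rfl, hf, q', hq0, hq1, hq2, rfl, he⟩
    have hR := hdata ω T i q' hAT hT hi hj hf hq0 hq1 hq2 he
    obtain ⟨-, f1, f2, f3, f4, -, -, -, -⟩ := reloc_facts hT hS hi hq1 hq2
    have hROK := h ω T hT hAT
    exact ⟨hT, f1, f2, f3, f4, hROK.zr _ _ _ hR, by simp only [hROK.invX _ _ _ hR]⟩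
  · intro ω T hT
    rw [sum_ind_card]
    by_cases hAT : A ω T
    · have h1 := V3_out (z := z) (A := A) hS hT hAT (h ω T hT hAT)
      have h2 : ind (A ω T) = 1 := by unfold ind; rw [if_pos hAT]
      rw [h2, one_mul]
      have h3 := ENNReal.ofReal_le_ofReal h1
      rw [ENNReal.ofReal_mul (by positivity), ENNReal.ofReal_natCast, ENNReal.ofReal_natCast] at h3
      rw [mul_comm]
      exact h3
    · have h2 : ind (A ω T) = 0 := by unfold ind; rw [if_neg hAT]
      rw [h2]; simp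
  · intro ω' T' hT'
    rw [sum_ind_card]
    set B := (Finset.univ : Finset (Sym2 (Fin n) × Sym2 (Fin n))).filter
      fun x => ∃ ω₀ T₀, V3 pj S z C0 Cj A ω₀ T₀ x.1 x.2 ∧ sw x.1 x.2 ω₀ = ω' ∧
        swp T₀ x.1 x.2 = T' with hB
    have hle : (B.card : ℝ) ≤ Nj := by
      rcases B.eq_empty_or_nonempty with hE | ⟨x₁, hx₁⟩
      · rw [hE]; simpa using hNj
      -- description of the elements
      have hdesc : ∀ x ∈ B, ∃ (i : ℕ) (p q q' : Fin n), x = (s(p, q), s(p, q')) ∧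
          q ∈ Cj ω' ∧ ((Cj ω').card : ℝ) ≤ Nj ∧ (∀ j ≤ i, dn T' S z j ∉ C0 ω') ∧
          dn T' S z i = p ∧ dn T' S z (i + 1) = q' ∧ q' ∈ C0 ω' := by
        rintro ⟨f, e⟩ hx
        rw [hB, Finset.mem_filter] at hx
        obtain ⟨-, ω, T, ⟨hAT, hT, i, hi, hi', hj, hfe, hf, q', hq0, hq1, hq2, hee, he⟩, hω, hTT⟩ := hx
        simp only at hfe hee hω hTT hf he
        subst hfe
        subst hee
        have hR := hdata ω T i q' hAT hT hi hj hf hq0 hq1 hq2 he
        have hROK := h ω T hT hAT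
        have h0 := hROK.inv0 _ _ _ hR
        have h1 := hROK.invj _ _ _ hR
        rw [hω] at h0 h1
        obtain ⟨r1, r2, r3⟩ := dn_reloc hT hS hi rfl rfl hq1 hq2
        rw [hTT] at r1 r2 r3
        refine ⟨i, dn T S z i, dn T S z (i + 1), q', rfl, ?_, ?_, ?_, r1 i le_rfl, r2, ?_⟩
        · rw [h1]; exact hj
        · rw [h1]; exact hROK.upp
        · intro j hj'
          rw [r1 j hj', h0]
          exact hi' j (by omega)
        · rw [h0]; exact hq0
      obtain ⟨i₁, p₁, q₁, q'₁, hx1, hq1, hN, hC, hp1, hq'1, hq'C⟩ := hdesc x₁ hx₁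
      have hsub : B ⊆ (Cj ω').image fun q => (s(p₁, q), s(p₁, q'₁)) := by
        intro x hx
        obtain ⟨i, p, q, q', hx2, hq, -, hC2, hp2, hq'2, hq'C2⟩ := hdesc x hx
        have hii : i = i₁ := by
          by_contra hne
          rcases Nat.lt_or_gt_of_ne hne with hlt | hlt
          · apply hC (i + 1) hlt
            rw [hq'2]; exact hq'C2
          · apply hC2 (i₁ + 1) hlt
            rw [hq'1]; exact hq'C
        rw [Finset.mem_image]
        refine ⟨q, hq, ?_⟩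
        rw [hx2, ← hp2, ← hq'2, ← hp1, ← hq'1, hii]
      have h1 := (Finset.card_le_card hsub).trans Finset.card_image_le
      exact (Nat.cast_le.2 h1).trans hN
    have h3 := ENNReal.ofReal_le_ofReal hle
    rw [ENNReal.ofReal_natCast] at h3
    exact h3

/-- the relation of `T4E` -/
def V4 (p0 : ℝ) (S : Finset (Fin n)) (z : Fin n) (C0 : Env n → Finset (Fin n)) (s : ℕ) (b : ℝ)
    (A : Env n → SimpleGraph (Fin n) → Prop) (ω : Env n) (T : SimpleGraph (Fin n))
    (f e : Sym2 (Fin n)) : Prop :=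
  A ω T ∧ T.IsTree ∧ (((C0 ω).filter fun q => s < hgt T S q).card : ℝ) ≤ b ∧
    ∃ i, i + 1 < hgt T S z ∧ (∀ i' ≤ i, dn T S z i' ∉ C0 ω) ∧
    dn T S z (i + 1) ∈ C0 ω ∧ s < hgt T S (dn T S z (i + 1)) ∧
    f = s(dn T S z i, dn T S z (i + 1)) ∧
    ∃ q', q' ∈ C0 ω ∧ q' ∉ side T s(dn T S z i, dn T S z (i + 1)) (dn T S z i) ∧
      q' ≠ dn T S z (i + 1) ∧ e = s(dn T S z i, q') ∧ p0 < ω e

theorem V4_meas {p0 : ℝ} {S : Finset (Fin n)} {z : Fin n} {C0 : Env n → Finset (Fin n)}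
    {s : ℕ} {b : ℝ} (h0m : ∀ v, MeasurableSet {ω | v ∈ C0 ω})
    {A : Env n → SimpleGraph (Fin n) → Prop} (hA : ∀ T, MeasurableSet {ω | A ω T})
    (T : SimpleGraph (Fin n)) (f e : Sym2 (Fin n)) :
    MeasurableSet {ω | V4 p0 S z C0 s b A ω T f e} := by
  have hev : ∀ g : Sym2 (Fin n), Measurable fun ω : Env n => p0 < ω g := fun g =>
    measurableSet_setOf.1 (measurableSet_lt measurable_const (measurable_pi_apply g))
  have h0m' : ∀ v, Measurable fun ω => v ∈ C0 ω := fun v => measurableSet_setOf.1 (h0m v)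
  rw [measurableSet_setOf]
  unfold V4
  refine Measurable.and (measurableSet_setOf.1 (hA T)) (measurable_const.and ?_)
  refine Measurable.and (measurable_fin_comp h0m
    (fun X => ((X.filter fun q => s < hgt T S q).card : ℝ) ≤ b)) ?_
  refine Measurable.exists fun i => measurable_const.and ?_
  refine Measurable.and ?_ ((h0m' _).and (measurable_const.and (measurable_const.and ?_)))
  · exact Measurable.forall fun i' => measurable_const.imp (h0m' _).not
  · exact Measurable.exists fun q' => (h0m' _).and (measurable_const.and (measurable_const.and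
      (measurable_const.and (hev e))))

/-- **T4E**.  Same moves, for the edge `{p,q}` at which the walk of `z` meets `C0` for the first
time (`Cj = C0`), when the height of `q` is `> s` and at most `b` vertices of `C0` have height
`> s`: `V ω T f e := A ω T ∧ T.IsTree ∧ #{q ∈ C0 : s < hgt q} ≤ b ∧ ∃ i, i + 1 = hook T S (C0 ω) z ∧
 i + 1 < hgt T S z ∧ s < hgt T S (dn T S z (i+1)) ∧ f = s(dn z i, dn z (i+1)) ∧ ∃ q' ∈ C0 ω, …`.
`g = ind (…) * N0 / 2`. For `m = b`: given `(ω', T')`, `e` is determined as in `T3E`, and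
`q ∈ C0 ω' = C0 ω`, `q ∉ side`, `s < hgt T' S q` (`hgt_swp_right`); the set of the vertices of
`C0 ω` outside of the branch of `p` (which is also the branch of `p` in `T'`) with height `> s` is
the same for `T` and `T'`, so it has at most `b` elements as soon as one move exists.
`p₀ < ω f` holds by `closed`. -/
theorem T4E (hn : 1 ≤ n) {β M N0 Nj p0 : ℝ} (hM : 0 ≤ M) (hN0 : 0 < N0)
    {S : Finset (Fin n)} (hS : S.Nonempty) (z : Fin n) {C0 CX : Env n → Finset (Fin n)}
    (h0m : ∀ v, MeasurableSet {ω | v ∈ C0 ω}) (hXm : ∀ v, MeasurableSet {ω | v ∈ CX ω})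
    (A : Env n → SimpleGraph (Fin n) → Prop) (hA : ∀ T, MeasurableSet {ω | A ω T})
    (h : ∀ ω T, T.IsTree → A ω T → ROK β M N0 Nj p0 S C0 C0 CX ω T)
    (closed : ∀ ω T p q, A ω T → q ∈ C0 ω → p ∉ C0 ω → p0 < ω s(p, q))
    (s : ℕ) {b : ℝ} (hb : 0 ≤ b) (ψ : Finset (Fin n) → ℝ≥0∞) :
    EE β (fun ω T => ind (A ω T ∧ z ∉ C0 ω ∧ hook T S (C0 ω) z < hgt T S z ∧
        s < hgt T S (dn T S z (hook T S (C0 ω) z)) ∧
        (((C0 ω).filter fun q => s < hgt T S q).card : ℝ) ≤ b) * ψ (CX ω)) ≤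
      ENNReal.ofReal (2 * M * b / N0) * EE β (fun ω _ => ψ (CX ω)) := by
  -- data of a move
  have hdata : ∀ ω T i q', A ω T → T.IsTree → i < hgt T S z → dn T S z (i + 1) ∈ C0 ω →
      dn T S z i ∉ C0 ω → q' ∈ C0 ω →
      q' ∉ side T s(dn T S z i, dn T S z (i + 1)) (dn T S z i) →
      q' ≠ dn T S z (i + 1) → p0 < ω s(dn T S z i, q') →
      RelOK C0 C0 p0 ω (dn T S z i) (dn T S z (i + 1)) q' := by
    intro ω T i q' hAT hT hi hj hf hq0 hq1 hq2 he
    obtain ⟨-, -, -, -, -, f1, f2, -, -⟩ := reloc_facts hT hS hi hq1 hq2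
    exact ⟨hj, hq0, f1, f2, closed ω T _ _ hAT hj hf, he⟩
  have key := flow_count (β := β) hM (V4 p0 S z C0 s b A)
    (fun ω T => ENNReal.ofReal (N0 / 2) * ind (A ω T ∧ z ∉ C0 ω ∧
        hook T S (C0 ω) z < hgt T S z ∧
        s < hgt T S (dn T S z (hook T S (C0 ω) z)) ∧
        (((C0 ω).filter fun q => s < hgt T S q).card : ℝ) ≤ b))
    (fun _ _ => ENNReal.ofReal b) (fun ω => ψ (CX ω))
    (V4_meas h0m hA) (measurable_fin_comp hXm ψ) ?_ ?_ ?_
  · have e1 : EE β (fun ω T => ENNReal.ofReal (N0 / 2) * ind (A ω T ∧ z ∉ C0 ω ∧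
        hook T S (C0 ω) z < hgt T S z ∧
        s < hgt T S (dn T S z (hook T S (C0 ω) z)) ∧
        (((C0 ω).filter fun q => s < hgt T S q).card : ℝ) ≤ b) * ψ (CX ω)) =
        ENNReal.ofReal (N0 / 2) * EE β (fun ω T => ind (A ω T ∧ z ∉ C0 ω ∧
        hook T S (C0 ω) z < hgt T S z ∧
        s < hgt T S (dn T S z (hook T S (C0 ω) z)) ∧
        (((C0 ω).filter fun q => s < hgt T S q).card : ℝ) ≤ b) * ψ (CX ω)) := by
      rw [← EE_const_mul _ ENNReal.ofReal_ne_top]
      congr 1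
      funext ω T
      ring
    have e2 : EE β (fun ω (_ : SimpleGraph (Fin n)) => ENNReal.ofReal b * ψ (CX ω)) =
        ENNReal.ofReal b * EE β (fun ω _ => ψ (CX ω)) := by
      rw [← EE_const_mul _ ENNReal.ofReal_ne_top]
    simp only [e1, e2] at key
    exact ofReal_div_aux hM hN0 hb key
  · rintro ω T f e ⟨hAT, hT, hcard, i, hi, hi', hj, hs, rfl, q', hq0, hq1, hq2, rfl, he⟩
    have hi2 : i < hgt T S z := by omega
    have hR := hdata ω T i q' hAT hT hi2 hj (hi' i le_rfl) hq0 hq1 hq2 he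
    obtain ⟨-, f1, f2, f3, f4, -, -, -, -⟩ := reloc_facts hT hS hi2 hq1 hq2
    have hROK := h ω T hT hAT
    exact ⟨hT, f1, f2, f3, f4, hROK.zr _ _ _ hR, by simp only [hROK.invX _ _ _ hR]⟩
  · intro ω T hT
    rw [sum_ind_card]
    by_cases hE : A ω T ∧ z ∉ C0 ω ∧ hook T S (C0 ω) z < hgt T S z ∧
        s < hgt T S (dn T S z (hook T S (C0 ω) z)) ∧
        (((C0 ω).filter fun q => s < hgt T S q).card : ℝ) ≤ b
    · have h2 : ind (A ω T ∧ z ∉ C0 ω ∧ hook T S (C0 ω) z < hgt T S z ∧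
        s < hgt T S (dn T S z (hook T S (C0 ω) z)) ∧
        (((C0 ω).filter fun q => s < hgt T S q).card : ℝ) ≤ b) = 1 := by
        unfold ind; rw [if_pos hE]
      rw [h2, mul_one]
      obtain ⟨hAT, hz, hh, hs, hcard⟩ := hE
      have hmem := dn_hook_mem (C0 ω) hh
      obtain ⟨i, hi⟩ : ∃ i, hook T S (C0 ω) z = i + 1 := by
        refine ⟨hook T S (C0 ω) z - 1, ?_⟩
        have : hook T S (C0 ω) z ≠ 0 := by
          intro h0
          rw [h0, dn_zero] at hmem
          exact hz hmem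
        omega
      rw [hi] at hmem hh hs
      have hi2 : i < hgt T S z := by omega
      have hROK := h ω T hT hAT
      have h3 := half_card hROK (offp_dn hT hS hi2)
      have hle : ((C0 ω).filter fun q' =>
          q' ∉ side T s(dn T S z i, dn T S z (i + 1)) (dn T S z i) ∧ q' ≠ dn T S z (i + 1) ∧
          p0 < ω s(dn T S z i, q')).card ≤
          ((Finset.univ : Finset (Sym2 (Fin n) × Sym2 (Fin n))).filter
            fun x => V4 p0 S z C0 s b A ω T x.1 x.2).card := by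
        refine Finset.card_le_card_of_injOn
          (fun q' => (s(dn T S z i, dn T S z (i + 1)), s(dn T S z i, q'))) ?_ ?_
        · intro q' hq'
          rw [Finset.mem_coe, Finset.mem_filter] at hq'
          rw [Finset.mem_coe, Finset.mem_filter]
          refine ⟨Finset.mem_univ _, hAT, hT, hcard, i, hh, ?_, hmem, hs, rfl, q', hq'.1, hq'.2.1,
            hq'.2.2.1, rfl, hq'.2.2.2⟩
          intro i' hi'
          exact dn_notMem_of_lt_hook (C0 ω) (by omega)
        · intro q1 _ q2 _ hq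
          simp only [Prod.mk.injEq, true_and] at hq
          rw [Sym2.congr_right] at hq
          exact hq
      have h4 := ENNReal.ofReal_le_ofReal (h3.trans (Nat.cast_le.2 hle))
      rw [ENNReal.ofReal_natCast] at h4
      exact h4
    · have h2 : ind (A ω T ∧ z ∉ C0 ω ∧ hook T S (C0 ω) z < hgt T S z ∧
        s < hgt T S (dn T S z (hook T S (C0 ω) z)) ∧
        (((C0 ω).filter fun q => s < hgt T S q).card : ℝ) ≤ b) = 0 := by
        unfold ind; rw [if_neg hE]
      rw [h2]; simp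
  · intro ω' T' hT'
    rw [sum_ind_card]
    set B := (Finset.univ : Finset (Sym2 (Fin n) × Sym2 (Fin n))).filter
      fun x => ∃ ω₀ T₀, V4 p0 S z C0 s b A ω₀ T₀ x.1 x.2 ∧ sw x.1 x.2 ω₀ = ω' ∧
        swp T₀ x.1 x.2 = T' with hB
    have hle : (B.card : ℝ) ≤ b := by
      rcases B.eq_empty_or_nonempty with hE | ⟨x₁, hx₁⟩
      · rw [hE]; simpa using hb
      -- description of the elements
      have hdesc : ∀ x ∈ B, ∃ (i : ℕ) (p q q' : Fin n), x = (s(p, q), s(p, q')) ∧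
          (q ∈ C0 ω' ∧ q ∉ side T' s(p, q') p ∧ s < hgt T' S q) ∧
          ((((C0 ω').filter fun q => q ∉ side T' s(p, q') p ∧ s < hgt T' S q).card : ℝ) ≤ b) ∧
          (∀ j ≤ i, dn T' S z j ∉ C0 ω') ∧
          dn T' S z i = p ∧ dn T' S z (i + 1) = q' ∧ q' ∈ C0 ω' := by
        rintro ⟨f, e⟩ hx
        rw [hB, Finset.mem_filter] at hx
        obtain ⟨-, ω, T, ⟨hAT, hT, hcard, i, hi, hi', hj, hs, hfe, q', hq0, hq1, hq2, hee, he⟩,
          hω, hTT⟩ := hx
        simp only at hfe hee hω hTT he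
        subst hfe
        subst hee
        have hi2 : i < hgt T S z := by omega
        have hR := hdata ω T i q' hAT hT hi2 hj (hi' i le_rfl) hq0 hq1 hq2 he
        have hROK := h ω T hT hAT
        have h0 := hROK.inv0 _ _ _ hR
        rw [hω] at h0
        obtain ⟨r1, r2, r3⟩ := dn_reloc hT hS hi2 rfl rfl hq1 hq2
        rw [hTT] at r1 r2 r3
        obtain ⟨g0, g1, g2, g3, g4, g5, g6, g7, g8⟩ := reloc_facts hT hS hi2 hq1 hq2
        have hside : side T' s(dn T S z i, q') (dn T S z i) =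
            side T s(dn T S z i, dn T S z (i + 1)) (dn T S z i) := by
          rw [← hTT]
          exact side_swp g1 g2 _
        have hhgt : ∀ u, u ∉ side T s(dn T S z i, dn T S z (i + 1)) (dn T S z i) →
            hgt T' S u = hgt T S u := by
          intro u hu
          rw [← hTT]
          exact hgt_swp_right hT hS g0 self_mem_side hq1 g7 hu
        refine ⟨i, dn T S z i, dn T S z (i + 1), q', rfl, ⟨?_, ?_, ?_⟩, ?_, ?_, r1 i le_rfl, r2, ?_⟩
        · rw [h0]; exact hj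
        · rw [hside]; exact g8
        · rw [hhgt _ g8]; exact hs
        · refine (Nat.cast_le.2 (Finset.card_le_card ?_)).trans hcard
          intro u hu
          rw [Finset.mem_filter, h0, hside] at hu
          rw [Finset.mem_filter]
          rw [hhgt u hu.2.1] at hu
          exact ⟨hu.1, hu.2.2⟩
        · intro j hj'
          rw [r1 j hj', h0]
          exact hi' j hj'
        · rw [h0]; exact hq0
      obtain ⟨i₁, p₁, q₁, q'₁, hx1, hq1, hN, hC, hp1, hq'1, hq'C⟩ := hdesc x₁ hx₁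
      have hsub : B ⊆ ((C0 ω').filter fun q => q ∉ side T' s(p₁, q'₁) p₁ ∧ s < hgt T' S q).image
          fun q => (s(p₁, q), s(p₁, q'₁)) := by
        intro x hx
        obtain ⟨i, p, q, q', hx2, hq, -, hC2, hp2, hq'2, hq'C2⟩ := hdesc x hx
        have hii : i = i₁ := by
          by_contra hne
          rcases Nat.lt_or_gt_of_ne hne with hlt | hlt
          · apply hC (i + 1) hlt
            rw [hq'2]; exact hq'C2
          · apply hC2 (i₁ + 1) hlt
            rw [hq'1]; exact hq'C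
        rw [← hii, hp2] at hp1
        rw [← hii, hq'2] at hq'1
        subst hp1
        subst hq'1
        rw [Finset.mem_image]
        refine ⟨q, ?_, ?_⟩
        · rw [Finset.mem_filter]; exact hq
        · rw [hx2]
      have h1 := (Finset.card_le_card hsub).trans Finset.card_image_le
      exact (Nat.cast_le.2 h1).trans hN
    have h3 := ENNReal.ofReal_le_ofReal hle
    rw [ENNReal.ofReal_natCast] at h3
    exact h3

end RST
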