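import Pool.Agent.Work.MP_5ba30e_pr.Resid_cond_bigC
import Pool.Agent.Work.MP_5ba30e_pr.Giant

/-!
# the graph outside of the giant component, at the next level
-/

open MeasureTheory Set Filter Finset
open scoped ENNReal Topology Classical

noncomputable section

namespace RST

variable {n : ℕ}

/-- asymptotics used in `resid` -/
theorem resid_asym (c A₂ K : ℝ) (hc : 0 < c) :
    ∃ n₀ : ℕ, ∀ n : ℕ, n₀ ≤ n → 6 ≤ Real.log n ∧ 1 + 1.2 * (A₂ * Real.log n) ≤ n ∧
      K * Real.log n ^ 9 ≤ (n : ℝ) ^ (3 * c) ∧ 2 ≤ n := by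
  have h1 : ∀ᶠ n : ℕ in atTop, 6 ≤ Real.log n :=
    (Real.tendsto_log_atTop.comp tendsto_natCast_atTop_atTop).eventually (eventually_ge_atTop 6)
  have h2 : ∀ᶠ n : ℕ in atTop, 1 + 1.2 * (A₂ * Real.log n) ≤ n := by
    have h := (Real.isLittleO_log_id_atTop.comp_tendsto
      (tendsto_natCast_atTop_atTop (R := ℝ))).bound
      (show (0 : ℝ) < 1 / (2 * (1.2 * |A₂| + 1)) by positivity)
    filter_upwards [h, eventually_ge_atTop 2] with n hn hn2
    simp only [Function.comp, id, Real.norm_eq_abs] at hn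
    have hn0 : (0 : ℝ) ≤ n := Nat.cast_nonneg n
    rw [abs_of_nonneg hn0] at hn
    have hn2' : (2 : ℝ) ≤ n := by exact_mod_cast hn2
    have h3 : 1.2 * (A₂ * Real.log n) ≤ (1.2 * |A₂| + 1) * |Real.log n| := by
      have h4 : A₂ * Real.log n ≤ |A₂| * |Real.log n| := by
        rw [← abs_mul]; exact le_abs_self _
      have h5 : 0 ≤ |Real.log n| := abs_nonneg _
      nlinarith
    have h6 : (1.2 * |A₂| + 1) * |Real.log n| ≤ n / 2 := by
      have hpos : 0 < 1.2 * |A₂| + 1 := by positivity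
      calc (1.2 * |A₂| + 1) * |Real.log n| ≤
            (1.2 * |A₂| + 1) * (1 / (2 * (1.2 * |A₂| + 1)) * n) := by gcongr
        _ = n / 2 := by field_simp
    linarith
  have h3 : ∀ᶠ n : ℕ in atTop, K * Real.log n ^ 9 ≤ (n : ℝ) ^ (3 * c) := by
    have h := ((isLittleO_log_rpow_atTop (show (0 : ℝ) < 3 * c / 9 by positivity)).comp_tendsto
      (tendsto_natCast_atTop_atTop (R := ℝ))).bound
      (show (0 : ℝ) < 1 / (|K| + 1) by positivity)
    filter_upwards [h, eventually_ge_atTop 2, h1] with n hn hn2 hL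
    simp only [Function.comp, Real.norm_eq_abs] at hn
    have hn0 : (0 : ℝ) ≤ n := Nat.cast_nonneg n
    have hL0 : 0 ≤ Real.log n := by linarith
    rw [abs_of_nonneg hL0, abs_of_nonneg (Real.rpow_nonneg hn0 _)] at hn
    have h4 : Real.log n ^ 9 ≤ (1 / (|K| + 1) * (n : ℝ) ^ (3 * c / 9)) ^ 9 := by gcongr
    have h5 : ((n : ℝ) ^ (3 * c / 9)) ^ 9 = (n : ℝ) ^ (3 * c) := by
      rw [← Real.rpow_natCast, ← Real.rpow_mul hn0]
      congr 1
      push_cast
      ring
    rw [mul_pow, h5] at h4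
    have h6 : (1 / (|K| + 1)) ^ 9 ≤ 1 / (|K| + 1) := by
      apply pow_le_of_le_one (by positivity) _ (by norm_num)
      rw [div_le_one (by positivity)]
      have := abs_nonneg K
      linarith
    have h7 : (0 : ℝ) ≤ (n : ℝ) ^ (3 * c) := Real.rpow_nonneg hn0 _
    calc K * Real.log n ^ 9 ≤ (|K| + 1) * Real.log n ^ 9 := by
          have := le_abs_self K
          gcongr
          linarith
      _ ≤ (|K| + 1) * ((1 / (|K| + 1)) ^ 9 * (n : ℝ) ^ (3 * c)) := by gcongr
      _ ≤ (|K| + 1) * (1 / (|K| + 1) * (n : ℝ) ^ (3 * c)) := by gcongr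
      _ = (n : ℝ) ^ (3 * c) := by
          have : |K| + 1 ≠ 0 := by positivity
          field_simp
  obtain ⟨N, hN⟩ := eventually_atTop.1 (h1.and (h2.and (h3.and (eventually_ge_atTop 2))))
  exact ⟨N, fun n hn => ⟨(hN n hn).1, (hN n hn).2.1, (hN n hn).2.2.1, (hN n hn).2.2.2⟩⟩

/-- the subcriticality outside of `S` -/
theorem resid_eps {n : ℕ} (hn : 0 < n) {δ s : ℝ} (hδ : 0 < δ) (hs : xs δ * n < s) {q : ℝ}
    (hq : 0 ≤ q) (hq1 : q ≤ (1 + 1.2 * δ) / n) :
    0.5 * δ / (1 + 1.7 * δ) ≤ 1 - ((n : ℝ) - s) * q := by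
  have hn' : (0 : ℝ) < n := by exact_mod_cast hn
  have h1 : (n : ℝ) - s ≤ n / (1 + 1.7 * δ) := by
    have : xs δ * n = n - n / (1 + 1.7 * δ) := by
      rw [xs]
      have : (1 + 1.7 * δ) ≠ 0 := by positivity
      field_simp
      ring
    linarith
  have h2 : ((n : ℝ) - s) * q ≤ n / (1 + 1.7 * δ) * ((1 + 1.2 * δ) / n) := by
    calc ((n : ℝ) - s) * q ≤ n / (1 + 1.7 * δ) * q := by gcongr
      _ ≤ n / (1 + 1.7 * δ) * ((1 + 1.2 * δ) / n) := by gcongr
  have h3 : (n : ℝ) / (1 + 1.7 * δ) * ((1 + 1.2 * δ) / n) = 1 - 0.5 * δ / (1 + 1.7 * δ) := by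
    have : (1 + 1.7 * δ) ≠ 0 := by positivity
    field_simp
    ring
  linarith

/-- the bound for large components outside -/
theorem resid_thr {n : ℕ} (hn : 0 < n) {c A₂ δ δ' D : ℝ} (hA : 0 < A₂) (hδ : 0 < δ)
    (hD : D = 1 + 1.7 * A₂)
    (hL : 6 ≤ Real.log n) (h9 : 3200 * D ^ 5 * Real.log n ^ 9 ≤ (n : ℝ) ^ (3 * c))
    (hR : Rng n c A₂ δ) (h1 : δ ≤ δ') (h2 : δ' ≤ 1.2 * δ) {e : ℝ}
    (he : 0.5 * δ / (1 + 1.7 * δ) ≤ e) :
    n / (e * thr n δ' ^ 2) ≤ 1 / (4 * Real.log n ^ 4) := by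
  have hn' : (0 : ℝ) < n := by exact_mod_cast hn
  set L := Real.log n with hLdef
  have hDpos : 0 < D := by rw [hD]; positivity
  have hL0 : 0 < L := by linarith
  have hδA : δ ≤ A₂ * L := hR.2
  have hDL : 1 + 1.7 * δ ≤ D * L := by
    rw [hD]
    nlinarith
  have hDL' : 1 + δ' ≤ D * L := by nlinarith
  have hδ' : 0 < δ' := lt_of_lt_of_le hδ h1
  have hcube : (n : ℝ) ^ (3 * c) ≤ δ ^ 3 * n := by
    have h3 : ((n : ℝ) ^ (-(1 / 3 : ℝ) + c)) ^ 3 ≤ δ ^ 3 := by
      have := hR.1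
      gcongr
    have h4 : ((n : ℝ) ^ (-(1 / 3 : ℝ) + c)) ^ 3 * n = (n : ℝ) ^ (3 * c) := by
      rw [← Real.rpow_natCast, ← Real.rpow_mul hn'.le]
      nth_rewrite 2 [← Real.rpow_one (n : ℝ)]
      rw [← Real.rpow_add hn']
      congr 1
      push_cast
      ring
    rw [← h4]
    gcongr
  have he' : 0.5 * δ / (D * L) ≤ e := by
    refine le_trans ?_ he
    gcongr
  have hthr : δ * n / (20 * (D * L) ^ 2) ≤ thr n δ' := by
    rw [thr]
    gcongr
  have he0 : 0 ≤ e := le_trans (by positivity) he'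
  have h5 : 0.5 * δ / (D * L) * (δ * n / (20 * (D * L) ^ 2)) ^ 2 ≤ e * thr n δ' ^ 2 := by
    gcongr
  have h6 : 0.5 * δ / (D * L) * (δ * n / (20 * (D * L) ^ 2)) ^ 2 =
      δ ^ 3 * n * n / (800 * D ^ 5 * L ^ 5) := by
    field_simp
    ring
  rw [h6] at h5
  have h7 : 0 < δ ^ 3 * n * n / (800 * D ^ 5 * L ^ 5) := by positivity
  calc (n : ℝ) / (e * thr n δ' ^ 2) ≤ n / (δ ^ 3 * n * n / (800 * D ^ 5 * L ^ 5)) := by gcongr
    _ = 800 * D ^ 5 * L ^ 5 / (δ ^ 3 * n) := by field_simp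
    _ ≤ 800 * D ^ 5 * L ^ 5 / (3200 * D ^ 5 * L ^ 9) :=
        div_le_div_of_nonneg_left (by positivity) (by positivity) (h9.trans hcube)
    _ = 1 / (4 * L ^ 4) := by field_simp; ring

/-- the bound for long paths outside -/
theorem resid_path {n : ℕ} (hn : 0 < n) {δ e : ℝ} (hδ : 0 < δ) (hL : 6 ≤ Real.log n)
    (he : 0.5 * δ / (1 + 1.7 * δ) ≤ e) (he1 : e ≤ 1) :
    (n : ℝ) * (1 - e) ^ (⌊Real.log n ^ 3 / db δ⌋₊) ≤ 1 / (4 * Real.log n ^ 4) := by
  have hn' : (0 : ℝ) < n := by exact_mod_cast hn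
  set L := Real.log n with hLdef
  have hL0 : 0 < L := by linarith
  have hdb : 0 < db δ := lt_min hδ one_pos
  set m := ⌊L ^ 3 / db δ⌋₊ with hm
  have hm1 : L ^ 3 / db δ - 1 ≤ m := by
    have := Nat.lt_floor_add_one (L ^ 3 / db δ)
    linarith
  -- e ≥ 0.18 db δ
  have he2 : 0.18 * db δ ≤ e := by
    refine le_trans ?_ he
    rw [le_div_iff₀ (by positivity)]
    rcases le_total δ 1 with h | h
    · rw [db, min_eq_left h]
      nlinarith
    · rw [db, min_eq_right h]
      nlinarith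
  have he0 : 0 ≤ e := le_trans (by positivity) he2
  have h1 : (1 - e) ^ m ≤ Real.exp (-(e * m)) := by
    have : (1 - e) ≤ Real.exp (-e) := by
      have := Real.add_one_le_exp (-e)
      linarith
    calc (1 - e) ^ m ≤ Real.exp (-e) ^ m := by
          gcongr
      _ = Real.exp (-(e * m)) := by
          rw [← Real.exp_nat_mul]
          congr 1
          ring
  have h2 : 0.18 * L ^ 3 - 1 ≤ e * m := by
    have h3 : e * (L ^ 3 / db δ) - e ≤ e * m := by nlinarith
    have h4 : 0.18 * L ^ 3 ≤ e * (L ^ 3 / db δ) := by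
      have : 0.18 * L ^ 3 = (0.18 * db δ) * (L ^ 3 / db δ) := by
        field_simp
      rw [this]
      gcongr
    linarith
  have h3 : (n : ℝ) = Real.exp L := by rw [hLdef, Real.exp_log hn']
  have h4 : L ^ 4 ≤ 24 * Real.exp L := by
    have := Real.pow_div_factorial_le_exp L hL0.le 4
    have h5 : (Nat.factorial 4 : ℝ) = 24 := by norm_num [Nat.factorial]
    rw [h5, div_le_iff₀ (by norm_num)] at this
    linarith
  rw [le_div_iff₀ (by positivity)]
  have h96 : (96 : ℝ) ≤ Real.exp 5 := by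
    have h := Real.exp_one_gt_d9
    have h' : (2.7 : ℝ) ≤ Real.exp 1 := by linarith
    calc (96 : ℝ) ≤ 2.7 ^ 5 := by norm_num
      _ ≤ Real.exp 1 ^ 5 := by gcongr
      _ = Real.exp 5 := by
          rw [← Real.exp_nat_mul]
          norm_num
  calc (n : ℝ) * (1 - e) ^ m * (4 * L ^ 4) ≤
        Real.exp L * Real.exp (-(0.18 * L ^ 3 - 1)) * (4 * (24 * Real.exp L)) := by
        rw [h3]
        have h7 : (1 - e) ^ m ≤ Real.exp (-(0.18 * L ^ 3 - 1)) := by
          refine h1.trans ?_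
          gcongr
        have h8 : 0 ≤ (1 - e) ^ m := by
          apply pow_nonneg
          linarith
        gcongr
    _ = 96 * Real.exp (L + -(0.18 * L ^ 3 - 1) + L) := by
        rw [Real.exp_add, Real.exp_add]
        ring
    _ ≤ Real.exp 5 * Real.exp (L + -(0.18 * L ^ 3 - 1) + L) := by gcongr
    _ = Real.exp (5 + (L + -(0.18 * L ^ 3 - 1) + L)) := by rw [← Real.exp_add]
    _ ≤ 1 := by
        rw [Real.exp_le_one_iff]
        nlinarith [mul_nonneg hL0.le (sub_nonneg.2 hL), sq_nonneg (L - 6),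
          mul_nonneg (mul_nonneg hL0.le hL0.le) (sub_nonneg.2 hL)]

/-- at the level `(1+1.2δ)/n`: long paths which avoid `C`, large components which avoid `C` -/
theorem resid (c A₂ : ℝ) (hc : 0 < c) (hc1 : c ≤ 1 / 3) (hA : 0 < A₂) :
    ∃ n₀ : ℕ, ∀ n ≥ n₀, ∀ δ, Rng n c A₂ δ →
      mu n {ω | GLo n δ ω ∧
        (¬ NoLong (Gr ω ((1 + 1.2 * δ) / n)) (bigC (Gr ω ((1 + δ) / n)) (thr n δ))
            (Real.log n ^ 3 / db δ) ∨
          ∃ v, v ∈ bigC (Gr ω ((1 + 1.2 * δ) / n)) (thr n (1.2 * δ)) ∧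
            Disjoint (comp (Gr ω ((1 + 1.2 * δ) / n)) v)
              (bigC (Gr ω ((1 + δ) / n)) (thr n δ)))} ≤
        ENNReal.ofReal (1 / Real.log n ^ 4) := by
  obtain ⟨n₀, hn₀⟩ := resid_asym c A₂ (3200 * (1 + 1.7 * A₂) ^ 5) hc
  refine ⟨n₀, fun n hn δ hR => ?_⟩
  obtain ⟨hL, hlog, h9, hn2⟩ := hn₀ n hn
  have hnpos : 0 < n := by omega
  have hn' : (0 : ℝ) < n := by exact_mod_cast hnpos
  have hδ : 0 < δ := lt_of_lt_of_le (Real.rpow_pos_of_pos hn' _) hR.1
  set p := (1 + δ) / (n : ℝ) with hp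
  set p' := (1 + 1.2 * δ) / (n : ℝ) with hp'
  set L := Real.log n with hLdef
  have hp0 : 0 ≤ p := by positivity
  have hp'0 : 0 ≤ p' := by positivity
  have hpp : p ≤ p' := by
    rw [hp, hp']
    gcongr
    linarith
  have hp'1 : p' ≤ 1 := by
    rw [hp', div_le_one hn']
    have := hR.2
    linarith
  set ℓ := ⌊L ^ 3 / db δ⌋₊ with hℓ
  have hdb : 0 < db δ := lt_min hδ one_pos
  -- bad events
  let B1 : Finset (Fin n) → Set (Env n) := fun S =>
    {ω | ∃ (u v : Fin n) (w : (Gr ω p').Walk u v), w.IsPath ∧ w.length = ℓ ∧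
      ∀ x ∈ w.support, x ∉ S}
  let B2 : Finset (Fin n) → Set (Env n) := fun S =>
    {ω | ∃ v, thr n (1.2 * δ) < ((comp (Gout ω p' S) v).card : ℝ)}
  have hB1m : ∀ S, MeasurableSet (B1 S) := fun S =>
    ((LevDep.gr p').comp fun G : SimpleGraph (Fin n) =>
      ∃ (u v : Fin n) (w : G.Walk u v), w.IsPath ∧ w.length = ℓ ∧
      ∀ x ∈ w.support, x ∉ S).measurableSet
  have hB2m : ∀ S, MeasurableSet (B2 S) := by
    intro S
    have : MeasurableSet {ω : Env n | ∃ v, thr n (1.2 * δ) <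
        ((comp (outS (Gr ω p') S) v).card : ℝ)} :=
      ((LevDep.gr p').comp fun G : SimpleGraph (Fin n) =>
        ∃ v, thr n (1.2 * δ) < ((comp (outS G S) v).card : ℝ)).measurableSet
    show MeasurableSet {ω | ∃ v, thr n (1.2 * δ) < ((comp (Gout ω p' S) v).card : ℝ)}
    simpa only [gout_eq] using this
  have hB1dep : ∀ S, DepOn (Finset.univ \ S : Finset (Fin n)).sym2 (B1 S) := by
    have key : ∀ (S : Finset (Fin n)) (ω ω' : Env n),
        (∀ e ∈ (Finset.univ \ S : Finset (Fin n)).sym2, ω e = ω' e) → ω ∈ B1 S → ω' ∈ B1 S := by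
      rintro S ω ω' h ⟨u, v, w, h1, h2, h3⟩
      have h4 : ∀ e ∈ w.edges, e ∈ (Gr ω' p').edgeSet := by
        intro e he
        have he1 := w.edges_subset_edgeSet he
        induction e with
        | _ i j =>
          have hi := h3 i (w.fst_mem_support_of_mem_edges he)
          have hj := h3 j (w.snd_mem_support_of_mem_edges he)
          rw [SimpleGraph.mem_edgeSet] at he1 ⊢
          refine ⟨he1.1, ?_⟩
          rw [← h s(i, j) (by simp [hi, hj])]
          exact he1.2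
      exact ⟨u, v, w.transfer _ h4, h1.transfer h4, by rw [SimpleGraph.Walk.length_transfer, h2],
        by rw [SimpleGraph.Walk.support_transfer]; exact h3⟩
    intro S ω ω' h
    exact ⟨key S ω ω' h, key S ω' ω fun e he => (h e he).symm⟩
  have hB2dep : ∀ S, DepOn (Finset.univ \ S : Finset (Fin n)).sym2 (B2 S) := by
    intro S ω ω' h
    have : Gout ω p' S = Gout ω' p' S := by
      ext i j
      simp only [Gout]
      constructor
      · rintro ⟨h1, h2, h3, h4⟩
        refine ⟨h1, ?_, h3, h4⟩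
        rw [← h s(i, j) (by simp [h3, h4])]
        exact h2
      · rintro ⟨h1, h2, h3, h4⟩
        refine ⟨h1, ?_, h3, h4⟩
        rw [h s(i, j) (by simp [h3, h4])]
        exact h2
    show (∃ v, thr n (1.2 * δ) < ((comp (Gout ω p' S) v).card : ℝ)) ↔
      (∃ v, thr n (1.2 * δ) < ((comp (Gout ω' p' S) v).card : ℝ))
    rw [this]
  have hthr0 : ∀ δ', 0 < δ' → 0 < thr n δ' := by
    intro δ' h
    rw [thr]
    positivity
  -- probabilities
  have hbad : ∀ S : Finset (Fin n), xs δ * n < (S.card : ℝ) →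
      mu n (B1 S ∪ B2 S) ≤ ENNReal.ofReal (1 / (2 * L ^ 4)) := by
    intro S hS
    have he := resid_eps hnpos hδ hS hp'0 le_rfl
    have hScard : (S.card : ℝ) ≤ n := by
      have := S.card_le_univ
      rw [Fintype.card_fin] at this
      exact_mod_cast this
    have he1 : 1 - ((n : ℝ) - S.card) * p' ≤ 1 := by
      have : 0 ≤ ((n : ℝ) - S.card) * p' := mul_nonneg (by linarith) hp'0
      linarith
    have hpos : 0 < 1 - ((n : ℝ) - S.card) * p' :=
      lt_of_lt_of_le (by positivity) he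
    have h1 : mu n (B1 S) ≤ ENNReal.ofReal (1 / (4 * L ^ 4)) := by
      refine (path_avoid S hp'0 hp'1 ℓ).trans (ENNReal.ofReal_le_ofReal ?_)
      have := resid_path hnpos hδ hL he he1
      have h2 : 1 - (1 - ((n : ℝ) - S.card) * p') = ((n : ℝ) - S.card) * p' := by ring
      rw [h2] at this
      exact this
    have h2 : mu n (B2 S) ≤ ENNReal.ofReal (1 / (4 * L ^ 4)) := by
      refine (big_avoid S hp'0 hp'1 (hthr0 _ (by positivity)) (by linarith)).trans
        (ENNReal.ofReal_le_ofReal ?_)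
      exact resid_thr hnpos hA hδ rfl hL h9 hR (by linarith) le_rfl he
    calc mu n (B1 S ∪ B2 S) ≤ mu n (B1 S) + mu n (B2 S) := measure_union_le _ _
      _ ≤ ENNReal.ofReal (1 / (4 * L ^ 4)) + ENNReal.ofReal (1 / (4 * L ^ 4)) := by gcongr
      _ = ENNReal.ofReal (1 / (2 * L ^ 4)) := by
          rw [← ENNReal.ofReal_add (by positivity) (by positivity)]
          congr 1
          field_simp
          norm_num
  have hN : ∀ S : Finset (Fin n), xs δ * n < (S.card : ℝ) →
      ENNReal.ofReal (1 / 2) ≤ mu n {ω | ∀ v, ((comp (Gout ω p S) v).card : ℝ) ≤ thr n δ} := by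
    intro S hS
    have he := resid_eps hnpos hδ hS hp0 hpp
    have hpos : 0 < 1 - ((n : ℝ) - S.card) * p :=
      lt_of_lt_of_le (by positivity) he
    have h1 := (big_avoid S hp0 (hpp.trans hp'1) (hthr0 δ hδ) (by linarith)).trans
      (ENNReal.ofReal_le_ofReal (resid_thr hnpos hA hδ rfl hL h9 hR le_rfl (by linarith) he))
    have h2 : MeasurableSet {ω : Env n | ∃ v, thr n δ < ((comp (Gout ω p S) v).card : ℝ)} := by
      have : MeasurableSet {ω : Env n | ∃ v, thr n δ <
          ((comp (outS (Gr ω p) S) v).card : ℝ)} :=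
        ((LevDep.gr p).comp fun G : SimpleGraph (Fin n) =>
          ∃ v, thr n δ < ((comp (outS G S) v).card : ℝ)).measurableSet
      simpa only [gout_eq] using this
    have h3 : {ω : Env n | ∀ v, ((comp (Gout ω p S) v).card : ℝ) ≤ thr n δ} =
        {ω : Env n | ∃ v, thr n δ < ((comp (Gout ω p S) v).card : ℝ)}ᶜ := by
      ext ω
      simp only [Set.mem_ofPred_eq, Set.mem_compl_iff, not_exists, not_lt]
    rw [h3, prob_compl_eq_one_sub h2]
    have h4 : ENNReal.ofReal (1 / (4 * L ^ 4)) ≤ ENNReal.ofReal (1 / 2) := by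
      apply ENNReal.ofReal_le_ofReal
      apply one_div_le_one_div_of_le (by norm_num)
      have : (1 : ℝ) ≤ L ^ 4 := one_le_pow₀ (by linarith)
      linarith
    have h5 : (1 : ℝ≥0∞) - ENNReal.ofReal (1 / 2) ≤
        1 - mu n {ω : Env n | ∃ v, thr n δ < ((comp (Gout ω p S) v).card : ℝ)} :=
      tsub_le_tsub_left (h1.trans h4) _
    refine le_trans ?_ h5
    rw [show (1 : ℝ≥0∞) = ENNReal.ofReal 1 by simp, ← ENNReal.ofReal_sub _ (by norm_num)]
    norm_num
  -- inclusion
  set TT : Finset (Finset (Fin n)) := Finset.univ.filter fun S => xs δ * n < (S.card : ℝ) with hTT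
  have hincl : {ω : Env n | GLo n δ ω ∧
        (¬ NoLong (Gr ω p') (bigC (Gr ω p) (thr n δ)) (L ^ 3 / db δ) ∨
          ∃ v, v ∈ bigC (Gr ω p') (thr n (1.2 * δ)) ∧
            Disjoint (comp (Gr ω p') v) (bigC (Gr ω p) (thr n δ)))} ⊆
      ⋃ S ∈ TT, ({ω | bigC (Gr ω p) (thr n δ) = S} ∩ (B1 S ∪ B2 S)) := by
    rintro ω ⟨hG, hω⟩
    simp only [Set.mem_iUnion]
    refine ⟨bigC (Gr ω p) (thr n δ), ?_, rfl, ?_⟩
    · rw [hTT, Finset.mem_filter]
      refine ⟨Finset.mem_univ _, ?_⟩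
      obtain ⟨⟨v, hv⟩, h1⟩ := hG
      refine lt_of_lt_of_le (h1 v hv) ?_
      have h2 : comp (Gr ω p) v ⊆ bigC (Gr ω p) (thr n δ) := by
        intro u hu
        simp only [bigC, Finset.mem_filter, Finset.mem_univ, true_and] at hv ⊢
        have h3 : comp (Gr ω p) u = comp (Gr ω p) v := by
          have hu' : (Gr ω p).Reachable v u := by simpa [comp] using hu
          ext b
          simp only [comp, Finset.mem_filter, Finset.mem_univ, true_and]
          exact ⟨fun h => hu'.trans h, fun h => hu'.symm.trans h⟩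
        rw [h3]
        exact hv
      exact_mod_cast Finset.card_le_card h2
    · rcases hω with hω | ⟨v, hv, hdis⟩
      · left
        unfold NoLong at hω
        push Not at hω
        obtain ⟨u, v, w, h1, h2, h3⟩ := hω
        have h4 : ℓ ≤ w.length := by
          have h5 : (ℓ : ℝ) ≤ L ^ 3 / db δ := Nat.floor_le (by positivity)
          have h6 : (ℓ : ℝ) < w.length := lt_of_le_of_lt h5 h3
          exact_mod_cast h6.le
        refine ⟨u, w.getVert ℓ, w.take ℓ, h1.take ℓ, ?_, ?_⟩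
        · rw [SimpleGraph.Walk.take_length]
          exact min_eq_left h4
        · intro x hx
          exact h2 x ((w.isSubwalk_take ℓ).support_subset hx)
      · right
        refine ⟨v, ?_⟩
        have h1 : comp (Gr ω p') v = comp (Gout ω p' (bigC (Gr ω p) (thr n δ))) v := by
          rw [gout_eq]
          apply comp_eq_of_closed (A := {x | x ∈ comp (Gr ω p') v}) _ (outS_le _ _)
            (self_mem_comp _ v)
          intro x hx y hxy
          have hx' : (Gr ω p').Reachable v x := by simpa [comp] using hx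
          have hy : y ∈ comp (Gr ω p') v := by
            simp only [comp, Finset.mem_filter, Finset.mem_univ, true_and]
            exact hx'.trans hxy.reachable
          exact ⟨hy, hxy, Finset.disjoint_left.1 hdis hx, Finset.disjoint_left.1 hdis hy⟩
        rw [← h1]
        simpa [bigC] using hv
  refine (measure_mono hincl).trans ((measure_biUnion_finset_le _ _).trans ?_)
  have hsum : ∑ S ∈ TT, mu n {ω : Env n | bigC (Gr ω p) (thr n δ) = S} ≤ 1 := by
    have hm : ∀ S : Finset (Fin n), MeasurableSet ((fun ω : Env n => bigC (Gr ω p) (thr n δ)) ⁻¹' {S}) := by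
      intro S
      exact ((LevDep.gr p).comp fun G : SimpleGraph (Fin n) => bigC G (thr n δ) = S).measurableSet
    have := sum_measure_preimage_singleton (μ := mu n) TT (f := fun ω : Env n => bigC (Gr ω p) (thr n δ))
      (fun S _ => hm S)
    calc ∑ S ∈ TT, mu n {ω : Env n | bigC (Gr ω p) (thr n δ) = S} =
        ∑ S ∈ TT, mu n ((fun ω : Env n => bigC (Gr ω p) (thr n δ)) ⁻¹' {S}) := rfl
      _ = mu n ((fun ω : Env n => bigC (Gr ω p) (thr n δ)) ⁻¹' (TT : Set (Finset (Fin n)))) := this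
      _ ≤ 1 := prob_le_one
  calc ∑ S ∈ TT, mu n ({ω | bigC (Gr ω p) (thr n δ) = S} ∩ (B1 S ∪ B2 S)) ≤
      ∑ S ∈ TT, ENNReal.ofReal (1 / L ^ 4) * mu n {ω : Env n | bigC (Gr ω p) (thr n δ) = S} := by
        apply Finset.sum_le_sum
        intro S hS
        have hS' : xs δ * n < (S.card : ℝ) := (Finset.mem_filter.1 hS).2
        have hdep : DepOn (Finset.univ \ S : Finset (Fin n)).sym2 (B1 S ∪ B2 S) := by
          intro ω ω' h
          rw [Set.mem_union, Set.mem_union, hB1dep S ω ω' h, hB2dep S ω ω' h]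
        refine (cond_bigC hp0 S ((hB1m S).union (hB2m S)) hdep (hN S hS')).trans ?_
        gcongr
        calc 2 * mu n (B1 S ∪ B2 S) ≤ 2 * ENNReal.ofReal (1 / (2 * L ^ 4)) := by
              gcongr
              exact hbad S hS'
          _ = ENNReal.ofReal (1 / L ^ 4) := by
              rw [show (2 : ℝ≥0∞) = ENNReal.ofReal 2 by simp, ← ENNReal.ofReal_mul (by norm_num)]
              congr 1
              field_simp
    _ = ENNReal.ofReal (1 / L ^ 4) * ∑ S ∈ TT, mu n {ω : Env n | bigC (Gr ω p) (thr n δ) = S} := by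
        rw [Finset.mul_sum]
    _ ≤ ENNReal.ofReal (1 / L ^ 4) * 1 := by gcongr
    _ = ENNReal.ofReal (1 / L ^ 4) := mul_one _

end RST
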