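import Pool.Agent.Work.MP_5ba30e_pr.Resid_cond_bigC
import Pool.Agent.Work.MP_5ba30e_pr.Resid_resid

/-!
# Resid : the graph outside of the giant component, at the next level

`p = (1+δ)/n`, `p' = (1+1.2δ)/n`, `C = bigC (Gr ω p) (thr n δ)`.

Conditioning. For a fixed set `S`, `{C = S}` is the intersection of
`X_S` = {no edge `≤ p` between `S` and its complement, all components of `Gr ω p` restricted to `S`
have more than `thr` vertices} (depends on the edges with an end in `S`) and
`N_S` = {no component of `Gout ω p S` (outside of `S`) has more than `thr` vertices} (depends on the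
edges outside of `S`).  If `Bad_S` depends on the edges outside of `S`, then
`P(C = S, Bad_S) = P(X_S) P(N_S ∩ Bad_S) ≤ P(X_S) P(Bad_S) = P(C=S) P(Bad_S)/P(N_S)`.
On `GLo`, `|S| > xs δ * n`, `(n-|S|) p' ≤ (1+1.2δ)/(1+1.7δ) = 1 - ε`, `ε = 0.5δ/(1+1.7δ)`.
`P(N_S) ≥ 1/2` and the probability that `Gout ω p' S` has a component with more than
`thr n (1.2δ)` vertices is `≤ polylog/(δ³ n)` by `big_avoid`. Paths of length `≥ ℓ₁ = 20 log n/ε`
outside of `S`: `≤ ∑_{ℓ ≥ ℓ₁} n (1-ε)^ℓ`, or just length exactly `⌈ℓ₁⌉` (a longer path contains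
one), `≤ n e^{-εℓ₁}` (`path_avoid`).
-/

open MeasureTheory Set Filter Finset
open scoped ENNReal Topology Classical

noncomputable section

namespace RST

variable {n : ℕ}



end RST
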