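import Pool.Agent.Work.MP_5ba30e_pr.Paths

/-!
# conditioning on the union of the large components
-/

open MeasureTheory Set Filter Finset
open scoped ENNReal Topology Classical

noncomputable section

namespace RST

variable {n : ℕ}

/-- edges of `G` inside `S` -/
def inS (G : SimpleGraph (Fin n)) (S : Finset (Fin n)) : SimpleGraph (Fin n) where
  Adj i j := G.Adj i j ∧ i ∈ S ∧ j ∈ S
  symm := ⟨fun _ _ h => ⟨h.1.symm, h.2.2, h.2.1⟩⟩
  loopless := ⟨fun i h => G.loopless.irrefl i h.1⟩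

/-- edges of `G` outside of `S` -/
def outS (G : SimpleGraph (Fin n)) (S : Finset (Fin n)) : SimpleGraph (Fin n) where
  Adj i j := G.Adj i j ∧ i ∉ S ∧ j ∉ S
  symm := ⟨fun _ _ h => ⟨h.1.symm, h.2.2, h.2.1⟩⟩
  loopless := ⟨fun i h => G.loopless.irrefl i h.1⟩

theorem gout_eq (ω : Env n) (p : ℝ) (S : Finset (Fin n)) : Gout ω p S = outS (Gr ω p) S := by
  ext i j
  simp only [Gout, outS, Gr]
  tauto

/-- transfer of reachability from a closed set -/
theorem reach_closed {G H : SimpleGraph (Fin n)} {A : Set (Fin n)}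
    (hA : ∀ a ∈ A, ∀ b, G.Adj a b → b ∈ A ∧ H.Adj a b) {a b : Fin n} (ha : a ∈ A)
    (h : G.Reachable a b) : b ∈ A ∧ H.Reachable a b := by
  obtain ⟨w⟩ := h
  induction w with
  | nil => exact ⟨ha, SimpleGraph.Reachable.refl _⟩
  | cons hadj _ ih =>
    have h1 := hA _ ha _ hadj
    have h2 := ih h1.1
    exact ⟨h2.1, h1.2.reachable.trans h2.2⟩

theorem comp_eq_of_closed {G H : SimpleGraph (Fin n)} {A : Set (Fin n)}
    (hA : ∀ a ∈ A, ∀ b, G.Adj a b → b ∈ A ∧ H.Adj a b) (hHG : H ≤ G) {a : Fin n} (ha : a ∈ A) :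
    comp G a = comp H a := by
  ext b
  simp only [comp, Finset.mem_filter, Finset.mem_univ, true_and]
  exact ⟨fun h => (reach_closed hA ha h).2, fun h => h.mono hHG⟩

theorem inS_le (G : SimpleGraph (Fin n)) (S : Finset (Fin n)) : inS G S ≤ G := by
  intro i j h
  exact h.1

theorem outS_le (G : SimpleGraph (Fin n)) (S : Finset (Fin n)) : outS G S ≤ G := by
  intro i j h
  exact h.1

theorem comp_inS {G : SimpleGraph (Fin n)} {S : Finset (Fin n)}
    (h : ∀ u ∈ S, ∀ v, v ∉ S → ¬ G.Adj u v) {a : Fin n} (ha : a ∈ S) :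
    comp G a = comp (inS G S) a := by
  apply comp_eq_of_closed (A := {x | x ∈ S}) _ (inS_le G S) ha
  intro x hx y hxy
  have hy : y ∈ S := by
    by_contra hy
    exact h x hx y hy hxy
  exact ⟨hy, hxy, hx, hy⟩

theorem comp_outS {G : SimpleGraph (Fin n)} {S : Finset (Fin n)}
    (h : ∀ u ∈ S, ∀ v, v ∉ S → ¬ G.Adj u v) {a : Fin n} (ha : a ∉ S) :
    comp G a = comp (outS G S) a := by
  apply comp_eq_of_closed (A := {x | x ∉ S}) _ (outS_le G S) ha
  intro x hx y hxy
  have hy : y ∉ S := by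
    intro hy
    exact h y hy x hx hxy.symm
  exact ⟨hy, hxy, hx, hy⟩

theorem self_mem_comp (G : SimpleGraph (Fin n)) (v : Fin n) : v ∈ comp G v := by
  simp [comp]

theorem comp_eq_of_adj {G : SimpleGraph (Fin n)} {u v : Fin n} (h : G.Adj u v) :
    comp G u = comp G v := by
  ext b
  simp only [comp, Finset.mem_filter, Finset.mem_univ, true_and]
  exact ⟨fun h' => h.symm.reachable.trans h', fun h' => h.reachable.trans h'⟩

/-- the decomposition of the event `C = S` -/
theorem bigC_eq_iff {G : SimpleGraph (Fin n)} {S : Finset (Fin n)} {τ : ℝ} :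
    bigC G τ = S ↔ ((∀ u ∈ S, ∀ v, v ∉ S → ¬ G.Adj u v) ∧
      ∀ u ∈ S, τ < ((comp (inS G S) u).card : ℝ)) ∧
      ∀ v, v ∉ S → ((comp (outS G S) v).card : ℝ) ≤ τ := by
  constructor
  · rintro rfl
    have h0 : ∀ u ∈ bigC G τ, ∀ v, v ∉ bigC G τ → ¬ G.Adj u v := by
      intro u hu v hv hadj
      apply hv
      simp only [bigC, Finset.mem_filter, Finset.mem_univ, true_and] at hu ⊢
      rwa [← comp_eq_of_adj hadj]
    refine ⟨⟨h0, ?_⟩, ?_⟩
    · intro u hu
      rw [← comp_inS h0 hu]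
      simpa [bigC] using hu
    · intro v hv
      rw [← comp_outS h0 hv]
      simpa [bigC] using hv
  · rintro ⟨⟨h0, h1⟩, h2⟩
    ext v
    simp only [bigC, Finset.mem_filter, Finset.mem_univ, true_and]
    constructor
    · intro hv
      by_contra hvS
      have := h2 v hvS
      rw [← comp_outS h0 hvS] at this
      linarith
    · intro hv
      rw [comp_inS h0 hv]
      exact h1 v hv

theorem comp_outS_mem {G : SimpleGraph (Fin n)} {S : Finset (Fin n)} {v : Fin n} (hv : v ∈ S) :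
    comp (outS G S) v = {v} := by
  ext b
  simp only [comp, Finset.mem_filter, Finset.mem_univ, true_and, Finset.mem_singleton]
  constructor
  · rintro ⟨w⟩
    cases w with
    | nil => rfl
    | cons h _ => exact absurd hv h.2.1
  · rintro rfl
    exact SimpleGraph.Reachable.refl _

/-- conditioning on the union of the large components -/
theorem cond_bigC {p τ : ℝ} (hp : 0 ≤ p) (S : Finset (Fin n)) {Bad : Set (Env n)}
    (hBad : MeasurableSet Bad) (hdep : DepOn (Finset.univ \ S : Finset (Fin n)).sym2 Bad)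
    (hN : ENNReal.ofReal (1 / 2) ≤ mu n {ω | ∀ v, ((comp (Gout ω p S) v).card : ℝ) ≤ τ}) :
    mu n ({ω | bigC (Gr ω p) τ = S} ∩ Bad) ≤
      2 * mu n Bad * mu n {ω | bigC (Gr ω p) τ = S} := by
  set N : Set (Env n) := {ω | ∀ v, ((comp (Gout ω p S) v).card : ℝ) ≤ τ} with hNdef
  set X : Set (Env n) := {ω | (∀ u ∈ S, ∀ v, v ∉ S → ¬ (Gr ω p).Adj u v) ∧
      ∀ u ∈ S, τ < ((comp (inS (Gr ω p) S) u).card : ℝ)} with hXdef
  -- the threshold is at least one
  have hne : N.Nonempty := by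
    rw [Set.nonempty_iff_ne_empty]
    intro h
    rw [h, measure_empty] at hN
    have : (0 : ℝ≥0∞) < ENNReal.ofReal (1 / 2) := by
      rw [ENNReal.ofReal_pos]; norm_num
    exact absurd hN (not_le.2 this)
  have hτ : ∀ _ : Fin n, 1 ≤ τ := by
    intro v
    obtain ⟨ω, hω⟩ := hne
    have h1 := hω v
    have h2 : 1 ≤ (comp (Gout ω p S) v).card :=
      Finset.card_pos.2 ⟨v, self_mem_comp _ v⟩
    have h3 : (1 : ℝ) ≤ ((comp (Gout ω p S) v).card : ℝ) := by exact_mod_cast h2
    linarith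
  -- decomposition
  have hdec : {ω : Env n | bigC (Gr ω p) τ = S} = X ∩ N := by
    ext ω
    simp only [Set.mem_ofPred_eq, Set.mem_inter_iff, hXdef, hNdef]
    rw [bigC_eq_iff]
    constructor
    · rintro ⟨h1, h2⟩
      refine ⟨h1, fun v => ?_⟩
      rw [gout_eq]
      by_cases hv : v ∈ S
      · rw [comp_outS_mem hv]
        simpa using hτ v
      · exact h2 v hv
    · rintro ⟨h1, h2⟩
      refine ⟨h1, fun v _ => ?_⟩
      have := h2 v
      rwa [gout_eq] at this
  -- measurability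
  have hXm : MeasurableSet X :=
    ((LevDep.gr p).comp fun G : SimpleGraph (Fin n) => (∀ u ∈ S, ∀ v, v ∉ S → ¬ G.Adj u v) ∧
      ∀ u ∈ S, τ < ((comp (inS G S) u).card : ℝ)).measurableSet
  have hNm : MeasurableSet N := by
    have : MeasurableSet {ω : Env n | ∀ v, ((comp (outS (Gr ω p) S) v).card : ℝ) ≤ τ} :=
      ((LevDep.gr p).comp fun G : SimpleGraph (Fin n) =>
        ∀ v, ((comp (outS G S) v).card : ℝ) ≤ τ).measurableSet
    rw [hNdef]
    simpa only [gout_eq] using this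
  -- dependence
  have hNdep : DepOn (Finset.univ \ S : Finset (Fin n)).sym2 N := by
    intro ω ω' h
    have : Gout ω p S = Gout ω' p S := by
      ext i j
      simp only [Gout]
      constructor
      · rintro ⟨h1, h2, h3, h4⟩
        refine ⟨h1, ?_, h3, h4⟩
        rw [← h s(i, j) (by simp [h3, h4])]
        exact h2
      · rintro ⟨h1, h2, h3, h4⟩
        refine ⟨h1, ?_, h3, h4⟩
        rw [h s(i, j) (by simp [h3, h4])]
        exact h2
    simp only [hNdef, Set.mem_ofPred_eq, this]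
  have hXdep : DepOn (Finset.univ \ (Finset.univ \ S : Finset (Fin n)).sym2) X := by
    intro ω ω' h
    have h1 : ∀ u ∈ S, ∀ v, (Gr ω p).Adj u v ↔ (Gr ω' p).Adj u v := by
      intro u hu v
      simp only [Gr]
      rw [h s(u, v) (by simp [hu])]
    have h2 : inS (Gr ω p) S = inS (Gr ω' p) S := by
      ext i j
      simp only [inS]
      constructor
      · rintro ⟨h3, h4, h5⟩
        exact ⟨(h1 i h4 j).1 h3, h4, h5⟩
      · rintro ⟨h3, h4, h5⟩
        exact ⟨(h1 i h4 j).2 h3, h4, h5⟩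
    simp only [hXdef, Set.mem_ofPred_eq, h2]
    constructor
    · rintro ⟨h3, h4⟩
      exact ⟨fun u hu v hv hadj => h3 u hu v hv ((h1 u hu v).2 hadj), h4⟩
    · rintro ⟨h3, h4⟩
      exact ⟨fun u hu v hv hadj => h3 u hu v hv ((h1 u hu v).1 hadj), h4⟩
  have hdisj : Disjoint (Finset.univ \ (Finset.univ \ S : Finset (Fin n)).sym2)
      (Finset.univ \ S : Finset (Fin n)).sym2 := Finset.sdiff_disjoint
  rw [hdec, Set.inter_assoc]
  have hNBdep : DepOn (Finset.univ \ S : Finset (Fin n)).sym2 (N ∩ Bad) := by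
    intro ω ω' h
    rw [Set.mem_inter_iff, Set.mem_inter_iff, hNdep ω ω' h, hdep ω ω' h]
  rw [mu_inter hdisj hXm (hNm.inter hBad) hXdep hNBdep, mu_inter hdisj hXm hNm hXdep hNdep]
  have h3 : mu n (N ∩ Bad) ≤ mu n Bad := measure_mono Set.inter_subset_right
  have h4 : (1 : ℝ≥0∞) ≤ 2 * mu n N := by
    calc (1 : ℝ≥0∞) = 2 * ENNReal.ofReal (1 / 2) := by
          rw [show (2 : ℝ≥0∞) = ENNReal.ofReal 2 by simp, ← ENNReal.ofReal_mul (by norm_num)]
          norm_num
      _ ≤ 2 * mu n N := by gcongr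
  calc mu n X * mu n (N ∩ Bad) ≤ mu n X * mu n Bad := by gcongr
    _ = mu n X * mu n Bad * 1 := by rw [mul_one]
    _ ≤ mu n X * mu n Bad * (2 * mu n N) := by gcongr
    _ = 2 * mu n Bad * (mu n X * mu n N) := by ring

end RST
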