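import Pool.Agent.Work.MP_5ba30e_pr.Defs

/-! # TreeA : sides of an edge of a tree, exchange of an edge -/

open MeasureTheory Set Filter Finset
open scoped ENNReal Topology Classical

set_option linter.unusedVariables false

noncomputable section

namespace RST

variable {n : ℕ} {T : SimpleGraph (Fin n)} {a b x y u v w : Fin n} {e f g : Sym2 (Fin n)}

theorem mem_side : v ∈ side T f u ↔ (T.deleteEdges {f}).Reachable u v := by
  simp [side]

theorem self_mem_side : u ∈ side T f u := mem_side.2 (SimpleGraph.Reachable.refl _)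

theorem side_eq_of_mem (h : v ∈ side T f u) : side T f v = side T f u := by
  rw [mem_side] at h
  ext w
  rw [mem_side, mem_side]
  exact ⟨fun h' => h.trans h', fun h' => h.symm.trans h'⟩

/-- in a tree the length of a path is the distance -/
theorem dist_eq_length (hT : T.IsTree) {p : T.Walk u v} (hp : p.IsPath) :
    T.dist u v = p.length := by
  obtain ⟨q, hq, hq'⟩ := hT.connected.exists_path_of_dist u v
  rw [(hT.existsUnique_path u v).unique hp hq, hq']

/-- distances in a subgraph of a tree -/
theorem dist_sub (hT : T.IsTree) {G : SimpleGraph (Fin n)} (hG : G ≤ T) (h : G.Reachable u v) :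
    G.dist u v = T.dist u v := by
  obtain ⟨q, hq, hq'⟩ := h.exists_path_of_dist
  have h1 : (q.mapLe hG).IsPath := (SimpleGraph.Walk.isPath_mapLe hG).2 hq
  rw [dist_eq_length hT h1, SimpleGraph.Walk.length_mapLe, hq']

theorem not_reach (hT : T.IsTree) (h : T.Adj a b) :
    ¬ (T.deleteEdges {s(a, b)}).Reachable a b :=
  SimpleGraph.isAcyclic_iff_forall_adj_isBridge.1 hT.isAcyclic h

theorem reach_or (hT : T.IsTree) (h : T.Adj a b) (u : Fin n) :
    (T.deleteEdges {s(a, b)}).Reachable a u ∨ (T.deleteEdges {s(a, b)}).Reachable b u := by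
  obtain ⟨P, hP⟩ := hT.connected.exists_isPath u a
  by_cases heP : s(a, b) ∈ P.edges
  · right
    have hbP := P.snd_mem_support_of_mem_edges heP
    have haP₁ := SimpleGraph.Walk.endpoint_notMem_support_takeUntil hP hbP h.ne
    have heP₁ : s(a, b) ∉ (P.takeUntil b hbP).edges := fun h' =>
      haP₁ ((P.takeUntil b hbP).fst_mem_support_of_mem_edges h')
    exact (SimpleGraph.reachable_deleteEdges_iff_exists_walk.2 ⟨_, heP₁⟩).symm
  · left
    exact (SimpleGraph.reachable_deleteEdges_iff_exists_walk.2 ⟨_, heP⟩).symm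

/-- every vertex is on one of the two sides -/
theorem side_part (hT : T.IsTree) (h : T.Adj a b) (u : Fin n) :
    u ∈ side T s(a, b) b ↔ u ∉ side T s(a, b) a := by
  rw [mem_side, mem_side]
  constructor
  · intro h1 h2
    exact not_reach hT h (h2.trans h1.symm)
  · intro h1
    exact (reach_or hT h u).resolve_left h1

/-- the only edge between the two sides is `{a,b}` -/
theorem side_cross (hT : T.IsTree) (h : T.Adj a b) (hu : u ∈ side T s(a, b) a)
    (hv : v ∉ side T s(a, b) a) (huv : T.Adj u v) : u = a ∧ v = b := by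
  by_cases h1 : s(u, v) = s(a, b)
  · rw [Sym2.eq_iff] at h1
    rcases h1 with h1 | h1
    · exact h1
    · exfalso
      apply hv
      rw [h1.2]
      exact self_mem_side
  · exfalso
    apply hv
    rw [mem_side] at hu ⊢
    refine hu.trans (SimpleGraph.Adj.reachable ?_)
    rw [SimpleGraph.deleteEdges_adj]
    exact ⟨huv, h1⟩

theorem not_reach_cross (hx : x ∈ side T s(a, b) a) (hy : y ∉ side T s(a, b) a) :
    ¬ (T.deleteEdges {s(a, b)}).Reachable x y := by
  intro h
  rw [mem_side] at hx hy
  exact hy (hx.trans h)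

/-- `T - f + e` is a tree -/
theorem swp_isTree (hT : T.IsTree) (h : T.Adj a b) (hx : x ∈ side T s(a, b) a)
    (hy : y ∉ side T s(a, b) a) : (swp T s(a, b) s(x, y)).IsTree := by
  have hne : x ≠ y := by
    rintro rfl
    exact hy hx
  have hle : T.deleteEdges {s(a, b)} ≤ swp T s(a, b) s(x, y) := le_sup_left
  have hxy : (swp T s(a, b) s(x, y)).Adj x y := by
    right
    rw [SimpleGraph.fromEdgeSet_adj]
    exact ⟨rfl, hne⟩
  have hy' := (side_part hT h y).2 hy
  have hax : (swp T s(a, b) s(x, y)).Reachable x a := ((mem_side.1 hx).mono hle).symm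
  have hyb : (swp T s(a, b) s(x, y)).Reachable y b := ((mem_side.1 hy').mono hle).symm
  refine ⟨(SimpleGraph.connected_iff_exists_forall_reachable _).2 ⟨x, fun u => ?_⟩, ?_⟩
  · rcases reach_or hT h u with h1 | h1
    · exact hax.trans (h1.mono hle)
    · exact (hxy.reachable.trans hyb).trans (h1.mono hle)
  · exact SimpleGraph.IsAcyclic.sup_edge_of_not_reachable (not_reach_cross hx hy)
      (hT.isAcyclic.anti (SimpleGraph.deleteEdges_le _))

theorem not_mem_of_cross (hT : T.IsTree) (h : T.Adj a b) (hx : x ∈ side T s(a, b) a)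
    (hy : y ∉ side T s(a, b) a) (hne : s(x, y) ≠ s(a, b)) : s(x, y) ∉ T.edgeSet := by
  intro h1
  have h2 := side_cross hT h hx hy h1
  rw [h2.1, h2.2] at hne
  exact hne rfl

theorem mem_swp (hf : f ∈ T.edgeSet) (he : e ∉ T.edgeSet) (hd : ¬ e.IsDiag) :
    g ∈ (swp T f e).edgeSet ↔ g = e ∨ (g ∈ T.edgeSet ∧ g ≠ f) := by
  unfold swp
  rw [SimpleGraph.edgeSet_sup, SimpleGraph.edgeSet_deleteEdges, SimpleGraph.edgeSet_fromEdgeSet]
  simp only [Set.mem_union, Set.mem_sdiff, Set.mem_singleton_iff]
  constructor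
  · rintro (h | h)
    · exact Or.inr h
    · exact Or.inl h.1
  · rintro (h | h)
    · refine Or.inr ⟨h, ?_⟩
      rw [h]
      simpa using hd
    · exact Or.inl h

theorem ef_swp (hf : f ∈ T.edgeSet) (he : e ∉ T.edgeSet) (hd : ¬ e.IsDiag) :
    ef (swp T f e) = insert e ((ef T).erase f) := by
  ext g
  unfold ef
  rw [Finset.mem_filter, mem_swp hf he hd, Finset.mem_insert, Finset.mem_erase,
    Finset.mem_filter]
  simp only [Finset.mem_univ, true_and]
  tauto

theorem swp_adj {p q : Fin n} : (swp T f e).Adj p q ↔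
    (T.Adj p q ∧ s(p, q) ≠ f) ∨ (s(p, q) = e ∧ p ≠ q) := by
  unfold swp
  rw [SimpleGraph.sup_adj, SimpleGraph.deleteEdges_adj, SimpleGraph.fromEdgeSet_adj]
  simp

theorem swp_swp (hf : f ∈ T.edgeSet) (he : e ∉ T.edgeSet) : swp (swp T f e) e f = T := by
  ext p q
  rw [swp_adj, swp_adj]
  constructor
  · rintro (⟨h1 | h1, h2⟩ | ⟨h1, h2⟩)
    · exact h1.1
    · exact absurd h1.1 h2
    · rw [← h1] at hf
      exact hf
  · intro h
    by_cases h1 : s(p, q) = f
    · exact Or.inr ⟨h1, h.ne⟩
    · refine Or.inl ⟨Or.inl ⟨h, h1⟩, ?_⟩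
      intro h2
      apply he
      rw [← h2]
      exact h

/-- removing the new edge from `T - f + e` gives `T - f` -/
theorem swp_del (hf : f ∈ T.edgeSet) (he : e ∉ T.edgeSet) :
    (swp T f e).deleteEdges {e} = T.deleteEdges {f} := by
  ext p q
  rw [SimpleGraph.deleteEdges_adj, SimpleGraph.deleteEdges_adj, swp_adj]
  constructor
  · rintro ⟨h1 | h1, h2⟩
    · exact h1
    · exact absurd h1.1 h2
  · intro h
    refine ⟨Or.inl h, ?_⟩
    intro h2
    apply he
    rw [← h2]
    exact h.1

theorem side_swp (hf : f ∈ T.edgeSet) (he : e ∉ T.edgeSet) (u : Fin n) :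
    side (swp T f e) e u = side T f u := by
  ext w
  rw [mem_side, mem_side, swp_del hf he]

/-- two vertices on the same side: the distance is the same in `T - f + e` -/
theorem dist_swp_same (hT : T.IsTree) (h : T.Adj a b) (hx : x ∈ side T s(a, b) a)
    (hy : y ∉ side T s(a, b) a) (hne : s(x, y) ≠ s(a, b))
    (huv : u ∈ side T s(a, b) a ↔ v ∈ side T s(a, b) a) :
    (swp T s(a, b) s(x, y)).dist u v = T.dist u v := by
  have h1 : (T.deleteEdges {s(a, b)}).Reachable u v := by
    by_cases hu : u ∈ side T s(a, b) a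
    · exact (mem_side.1 hu).symm.trans (mem_side.1 (huv.1 hu))
    · have hv : v ∉ side T s(a, b) a := fun h2 => hu (huv.2 h2)
      rw [← side_part hT h] at hu hv
      exact (mem_side.1 hu).symm.trans (mem_side.1 hv)
  rw [← dist_sub hT (SimpleGraph.deleteEdges_le _) h1,
    ← dist_sub (swp_isTree hT h hx hy) le_sup_left h1]

theorem dist_adj_cross (hT : T.IsTree) (h : T.Adj a b) (hv : v ∉ side T s(a, b) a) :
    T.dist a v = 1 + T.dist b v := by
  have hb := (side_part hT h v).2 hv
  rw [mem_side] at hb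
  obtain ⟨r, hr⟩ := hb.exists_isPath
  have ha : a ∉ r.support := by
    intro h1
    exact not_reach hT h (r.takeUntil a h1).reachable.symm
  have h1 : (r.mapLe (SimpleGraph.deleteEdges_le _)).IsPath :=
    (SimpleGraph.Walk.isPath_mapLe (SimpleGraph.deleteEdges_le _)).2 hr
  have h2 : (SimpleGraph.Walk.cons h (r.mapLe (SimpleGraph.deleteEdges_le _))).IsPath := by
    rw [SimpleGraph.Walk.cons_isPath_iff]
    refine ⟨h1, ?_⟩
    rw [SimpleGraph.Walk.support_mapLe_eq_support]
    exact ha
  rw [dist_eq_length hT h1, dist_eq_length hT h2, SimpleGraph.Walk.length_cons]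
  ring

/-- two vertices on different sides of the edge `{a,b}` -/
theorem dist_cross (hT : T.IsTree) (h : T.Adj a b) (hu : u ∈ side T s(a, b) a)
    (hv : v ∉ side T s(a, b) a) : T.dist u v = T.dist u a + 1 + T.dist b v := by
  obtain ⟨p, hp, hp'⟩ := hT.connected.exists_path_of_dist u v
  have h1 : s(a, b) ∈ p.edges :=
    p.mem_edges_of_not_reachable_deleteEdges (not_reach_cross hu hv)
  have ha := p.fst_mem_support_of_mem_edges h1
  have h2 : (p.takeUntil a ha).length + (p.dropUntil a ha).length = p.length := by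
    rw [← SimpleGraph.Walk.length_append, SimpleGraph.Walk.take_spec]
  have h3 := SimpleGraph.dist_le (p.takeUntil a ha)
  have h4 := SimpleGraph.dist_le (p.dropUntil a ha)
  have h5 := hT.connected.dist_triangle (u := u) (v := a) (w := v)
  have h6 := dist_adj_cross hT h hv
  omega

/-- `onp` : the edges which separate `u` and `v` are those of the path -/
theorem onp_iff_mem_path (hT : T.IsTree) {u v : Fin n} (p : T.Walk u v) (hp : p.IsPath)
    (f : Sym2 (Fin n)) : onp T u v f ↔ f ∈ p.edges := by
  constructor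
  · rintro ⟨-, h2⟩
    rw [mem_side] at h2
    exact p.mem_edges_of_not_reachable_deleteEdges h2
  · intro h
    refine ⟨p.edges_subset_edgeSet h, ?_⟩
    rw [mem_side]
    intro h1
    obtain ⟨q, hq⟩ := h1.exists_isPath
    have h2 : (q.mapLe (SimpleGraph.deleteEdges_le _)).IsPath :=
      (SimpleGraph.Walk.isPath_mapLe (SimpleGraph.deleteEdges_le _)).2 hq
    rw [(hT.existsUnique_path u v).unique hp h2, SimpleGraph.Walk.edges_mapLe_eq_edges] at h
    have h3 := q.edges_subset_edgeSet h
    rw [SimpleGraph.edgeSet_deleteEdges] at h3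
    exact h3.2 rfl

/-- existence of a path of `T` with length the distance, and of its edges -/
theorem exists_path (hT : T.IsTree) (u v : Fin n) :
    ∃ p : T.Walk u v, p.IsPath ∧ p.length = T.dist u v :=
  hT.connected.exists_path_of_dist u v

theorem onp_card (hT : T.IsTree) (u v : Fin n) :
    (Finset.univ.filter fun f => onp T u v f).card = T.dist u v := by
  obtain ⟨p, hp, hp'⟩ := exists_path hT u v
  have h1 : (Finset.univ.filter fun f => onp T u v f) = p.edges.toFinset := by
    ext f
    rw [Finset.mem_filter, onp_iff_mem_path hT p hp, List.mem_toFinset]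
    simp
  rw [h1, List.toFinset_card_of_nodup hp.isTrail.edges_nodup, SimpleGraph.Walk.length_edges, hp']

theorem onp_symm (hT : T.IsTree) (h : onp T u v f) : onp T v u f := by
  refine ⟨h.1, fun h1 => h.2 ?_⟩
  rw [mem_side] at h1 ⊢
  exact h1.symm

/-- an edge which separates `u` and `w` separates `u` and `v`, or `v` and `w` -/
theorem onp_trans (h : onp T u w f) : onp T u v f ∨ onp T v w f := by
  by_contra hcon
  push Not at hcon
  have h1 : v ∈ side T f u := by
    by_contra h2
    exact hcon.1 ⟨h.1, h2⟩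
  have h2 : w ∈ side T f v := by
    by_contra h2
    exact hcon.2 ⟨h.1, h2⟩
  rw [side_eq_of_mem h1] at h2
  exact h.2 h2

/-- a walk of any graph from one side of `f` to the other side has an edge crossing `f` -/
theorem exists_cross {G : SimpleGraph (Fin n)} {u v : Fin n} (p : G.Walk u v)
    (h : v ∉ side T f u) :
    ∃ x y, s(x, y) ∈ p.edges ∧ x ∈ side T f u ∧ y ∉ side T f u := by
  obtain ⟨d, hd, h1, h2⟩ := p.exists_boundary_dart (↑(side T f u) : Set (Fin n))
    (by rw [Finset.mem_coe]; exact self_mem_side) (by rw [Finset.mem_coe]; exact h)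
  rw [Finset.mem_coe] at h1 h2
  refine ⟨d.fst, d.snd, ?_, h1, h2⟩
  exact List.mem_map.2 ⟨d, hd, rfl⟩

end RST
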