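import Pool.Agent.Work.MP_5ba30e_pr.TreeA

/-! # TreeB : branches of a tree with respect to a nonempty set `S`, the walk to the hull -/

open MeasureTheory Set Filter Finset
open scoped ENNReal Topology Classical

set_option linter.unusedVariables false

noncomputable section

namespace RST

variable {n : ℕ} {T : SimpleGraph (Fin n)} {S : Finset (Fin n)} {a b b' x y u v w z : Fin n}
  {g : Sym2 (Fin n)}

/-- a walk which leaves the side of `a` passes through `a` -/
theorem reach_through {s : Fin n} (hu : u ∈ side T s(a, b) a) (hs : s ∉ side T s(a, b) a)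
    (h : (T.deleteEdges {g}).Reachable u s) : (T.deleteEdges {g}).Reachable u a := by
  obtain ⟨q, hq⟩ := h.exists_isPath
  have h1 : ¬ (T.deleteEdges {s(a, b)}).Reachable u s := by
    rw [mem_side] at hu hs
    exact fun h2 => hs (hu.trans h2)
  have h4 : s(a, b) ∈ (q.mapLe (SimpleGraph.deleteEdges_le {g})).edges :=
    (q.mapLe (SimpleGraph.deleteEdges_le {g})).mem_edges_of_not_reachable_deleteEdges h1
  rw [SimpleGraph.Walk.edges_mapLe_eq_edges] at h4
  exact (q.takeUntil a (q.fst_mem_support_of_mem_edges h4)).reachable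

theorem offp_asymm (hT : T.IsTree) (hS : S.Nonempty) (h : offp T S a b) :
    ¬ offp T S b a := by
  intro h'
  obtain ⟨s, hs⟩ := hS
  have h1 : s ∉ side T s(a, b) a := fun h2 => Finset.disjoint_left.1 h.2 h2 hs
  have h2 := (side_part hT h.1 s).2 h1
  rw [Sym2.eq_swap] at h2
  exact Finset.disjoint_left.1 h'.2 h2 hs

/-- the first edge of a path is the only one at the starting point -/
theorem eq_of_mem_cons_edges {c d s : Fin n} {h : T.Adj a c} {q : T.Walk c s}
    (hp : (SimpleGraph.Walk.cons h q).IsPath)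
    (hb : s(a, b) ∈ (SimpleGraph.Walk.cons h q).edges) : b = c := by
  rw [SimpleGraph.Walk.cons_isPath_iff] at hp
  rw [SimpleGraph.Walk.edges_cons, List.mem_cons] at hb
  rcases hb with hb | hb
  · rw [Sym2.eq_iff] at hb
    rcases hb with hb | hb
    · exact hb.2
    · exact absurd hb.1 h.ne
  · exact absurd (q.fst_mem_support_of_mem_edges hb) hp.2

theorem offp_unique (hT : T.IsTree) (hS : S.Nonempty) (h : offp T S a b) (h' : offp T S a b') :
    b = b' := by
  obtain ⟨s, hs⟩ := hS
  obtain ⟨p, hp, -⟩ := exists_path hT a s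
  have h1 : s(a, b) ∈ p.edges := (onp_iff_mem_path hT p hp _).1
    ⟨h.1, fun h2 => Finset.disjoint_left.1 h.2 h2 hs⟩
  have h1' : s(a, b') ∈ p.edges := (onp_iff_mem_path hT p hp _).1
    ⟨h'.1, fun h2 => Finset.disjoint_left.1 h'.2 h2 hs⟩
  cases p with
  | nil => simp at h1
  | cons h3 q =>
    rw [eq_of_mem_cons_edges (d := a) hp h1, eq_of_mem_cons_edges (d := a) hp h1']

theorem par_eq (hT : T.IsTree) (hS : S.Nonempty) (h : offp T S a b) : par T S a = b := by
  unfold par
  have h1 : ∃ b, offp T S a b := ⟨b, h⟩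
  rw [dif_pos h1]
  exact offp_unique hT hS h1.choose_spec h

/-- if `u` is in a branch, it has an edge towards the hull -/
theorem exists_offp (hT : T.IsTree) (hS : S.Nonempty) (h : offp T S a b)
    (hu : u ∈ side T s(a, b) a) : ∃ v, offp T S u v := by
  obtain ⟨p, hp, -⟩ := exists_path hT u a
  cases p with
  | nil => exact ⟨b, h⟩
  | cons h3 q =>
    rename_i v
    refine ⟨v, h3, ?_⟩
    rw [Finset.disjoint_left]
    intro s hs hsS
    rw [mem_side] at hs
    have h1 := reach_through hu (fun h2 => Finset.disjoint_left.1 h.2 h2 hsS) hs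
    have h2 := (onp_iff_mem_path hT _ hp s(u, v)).2 (by simp)
    exact h2.2 (mem_side.2 h1)

theorem hgt_pos_iff (hT : T.IsTree) (hS : S.Nonempty) : 0 < hgt T S u ↔ ∃ v, offp T S u v := by
  unfold hgt
  rw [Finset.card_pos]
  constructor
  · rintro ⟨⟨a, b⟩, h⟩
    rw [Finset.mem_filter] at h
    exact exists_offp hT hS h.2.1 h.2.2
  · rintro ⟨v, hv⟩
    refine ⟨(u, v), ?_⟩
    rw [Finset.mem_filter]
    exact ⟨Finset.mem_univ _, hv, self_mem_side⟩

theorem hgt_offp (hT : T.IsTree) (hS : S.Nonempty) (h : offp T S a b) :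
    hgt T S a = hgt T S b + 1 := by
  unfold hgt
  have h1 : (Finset.univ.filter fun ab : Fin n × Fin n =>
      offp T S ab.1 ab.2 ∧ a ∈ side T s(ab.1, ab.2) ab.1) =
      insert (a, b) (Finset.univ.filter fun ab : Fin n × Fin n =>
        offp T S ab.1 ab.2 ∧ b ∈ side T s(ab.1, ab.2) ab.1) := by
    ext ⟨c, d⟩
    rw [Finset.mem_insert, Finset.mem_filter, Finset.mem_filter]
    simp only [Finset.mem_univ, true_and, Prod.mk.injEq]
    by_cases h2 : s(c, d) = s(a, b)
    · rw [Sym2.eq_iff] at h2
      rcases h2 with ⟨rfl, rfl⟩ | ⟨rfl, rfl⟩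
      · simp only [and_self, true_or, iff_true]
        exact ⟨h, self_mem_side⟩
      · have h3 := offp_asymm hT hS h
        constructor
        · rintro ⟨h4, -⟩
          exact absurd h4 h3
        · rintro (⟨h4, h5⟩ | ⟨h4, -⟩)
          · exact absurd h4.symm h.1.ne
          · exact absurd h4 h3
    · have h3 : a ∈ side T s(c, d) c ↔ b ∈ side T s(c, d) c := by
        have h4 : (T.deleteEdges {s(c, d)}).Adj a b := by
          rw [SimpleGraph.deleteEdges_adj]
          exact ⟨h.1, fun h5 => h2 h5.symm⟩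
        rw [mem_side, mem_side]
        exact ⟨fun h5 => h5.trans h4.reachable, fun h5 => h5.trans h4.symm.reachable⟩
      rw [h3]
      constructor
      · exact Or.inr
      · rintro (⟨rfl, rfl⟩ | h4)
        · exact absurd rfl h2
        · exact h4
  rw [h1, Finset.card_insert_of_notMem]
  rw [Finset.mem_filter]
  rintro ⟨-, -, h2⟩
  exact (side_part hT h.1 b).1 self_mem_side h2

theorem dn_zero : dn T S u 0 = u := rfl

theorem dn_succ (i : ℕ) : dn T S u (i + 1) = par T S (dn T S u i) := by
  rw [dn, dn, Function.iterate_succ_apply']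

theorem dn_add (i j : ℕ) : dn T S u (i + j) = dn T S (dn T S u i) j := by
  rw [dn, dn, dn, Nat.add_comm, Function.iterate_add_apply]

theorem offp_par (hT : T.IsTree) (hS : S.Nonempty) (h : 0 < hgt T S u) :
    offp T S u (par T S u) := by
  obtain ⟨v, hv⟩ := (hgt_pos_iff hT hS).1 h
  rw [par_eq hT hS hv]
  exact hv

theorem hgt_dn (hT : T.IsTree) (hS : S.Nonempty) {i : ℕ} (hi : i ≤ hgt T S u) :
    hgt T S (dn T S u i) = hgt T S u - i := by
  induction i with
  | zero => rfl
  | succ i ih =>
    have h1 := ih (by omega)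
    have h2 := hgt_offp hT hS (offp_par hT hS (show 0 < hgt T S (dn T S u i) by omega))
    rw [dn_succ]
    omega

theorem offp_dn (hT : T.IsTree) (hS : S.Nonempty) {i : ℕ} (hi : i < hgt T S u) :
    offp T S (dn T S u i) (dn T S u (i + 1)) := by
  rw [dn_succ]
  apply offp_par hT hS
  rw [hgt_dn hT hS hi.le]
  omega

theorem dn_inj (hT : T.IsTree) (hS : S.Nonempty) {i j : ℕ} (hi : i ≤ hgt T S u)
    (hj : j ≤ hgt T S u) (h : dn T S u i = dn T S u j) : i = j := by
  have h1 := hgt_dn hT hS hi
  have h2 := hgt_dn hT hS hj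
  rw [h] at h1
  omega

theorem dn_edge_ne (hT : T.IsTree) (hS : S.Nonempty) {i j : ℕ} (hi : i < hgt T S u)
    (hj : j < hgt T S u) (hij : i ≠ j) :
    s(dn T S u i, dn T S u (i + 1)) ≠ s(dn T S u j, dn T S u (j + 1)) := by
  intro h
  rw [Sym2.eq_iff] at h
  rcases h with ⟨h1, h2⟩ | ⟨h1, h2⟩
  · exact hij (dn_inj hT hS hi.le hj.le h1)
  · have h3 := dn_inj hT hS hi.le hj h1
    have h4 := dn_inj hT hS hi hj.le h2
    omega

/-- the vertices of the walk before `a` are in the branch of `a` -/
theorem dn_mem_side (hT : T.IsTree) (hS : S.Nonempty) {i j : ℕ} (hij : i ≤ j)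
    (hj : j < hgt T S u) :
    dn T S u i ∈ side T s(dn T S u j, dn T S u (j + 1)) (dn T S u j) := by
  obtain ⟨k, rfl⟩ := Nat.exists_eq_add_of_le hij
  induction k generalizing i with
  | zero => exact self_mem_side
  | succ k ih =>
    have h1 := ih (i := i + 1) (by omega) (by omega)
    have e : i + 1 + k = i + (k + 1) := by omega
    rw [e] at h1
    rw [mem_side] at h1 ⊢
    refine h1.trans (SimpleGraph.Adj.reachable ?_).symm
    rw [SimpleGraph.deleteEdges_adj]
    exact ⟨(offp_dn hT hS (by omega)).1, dn_edge_ne hT hS (by omega) hj (by omega)⟩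

theorem dn_not_mem_side (hT : T.IsTree) (hS : S.Nonempty) {i j : ℕ} (hij : j < i)
    (hi : i ≤ hgt T S u) :
    dn T S u i ∉ side T s(dn T S u j, dn T S u (j + 1)) (dn T S u j) := by
  obtain ⟨k, rfl⟩ := Nat.exists_eq_add_of_lt hij
  induction k with
  | zero =>
    have h1 := offp_dn hT hS (show j < hgt T S u by omega)
    exact (side_part hT h1.1 _).1 self_mem_side
  | succ k ih =>
    intro h
    apply ih (by omega) (by omega)
    rw [mem_side] at h ⊢
    refine h.trans (SimpleGraph.Adj.reachable ?_).symm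
    rw [SimpleGraph.deleteEdges_adj]
    exact ⟨(offp_dn hT hS (i := j + k + 1) (by omega)).1,
      dn_edge_ne hT hS (i := j + k + 1) (by omega) (by omega) (by omega)⟩

/-- the branches which contain `u` are those of the vertices of the walk from `u` to the hull -/
theorem off_iff_dn (hT : T.IsTree) (hS : S.Nonempty) :
    (offp T S a b ∧ u ∈ side T s(a, b) a) ↔
      ∃ i < hgt T S u, a = dn T S u i ∧ b = dn T S u (i + 1) := by
  have key : ((Finset.range (hgt T S u)).image fun i => (dn T S u i, dn T S u (i + 1))) =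
      Finset.univ.filter fun ab : Fin n × Fin n =>
        offp T S ab.1 ab.2 ∧ u ∈ side T s(ab.1, ab.2) ab.1 := by
    apply Finset.eq_of_subset_of_card_le
    · intro ab hab
      rw [Finset.mem_image] at hab
      obtain ⟨i, hi, rfl⟩ := hab
      rw [Finset.mem_range] at hi
      rw [Finset.mem_filter]
      exact ⟨Finset.mem_univ _, offp_dn hT hS hi, dn_mem_side hT hS (Nat.zero_le i) hi⟩
    · rw [Finset.card_image_of_injOn]
      · rw [Finset.card_range]
        rfl
      · intro i hi j hj hij
        rw [Finset.mem_coe, Finset.mem_range] at hi hj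
        simp only [Prod.mk.injEq] at hij
        exact dn_inj hT hS hi.le hj.le hij.1
  have h1 : (a, b) ∈ ((Finset.range (hgt T S u)).image fun i =>
      (dn T S u i, dn T S u (i + 1))) ↔ (offp T S a b ∧ u ∈ side T s(a, b) a) := by
    rw [key, Finset.mem_filter]
    simp
  rw [← h1, Finset.mem_image]
  constructor
  · rintro ⟨i, hi, h2⟩
    rw [Prod.mk.injEq] at h2
    exact ⟨i, Finset.mem_range.1 hi, h2.1.symm, h2.2.symm⟩
  · rintro ⟨i, hi, h2, h3⟩
    exact ⟨i, Finset.mem_range.2 hi, by rw [h2, h3]⟩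

theorem dist_dn (hT : T.IsTree) (hS : S.Nonempty) {i j : ℕ} (hij : i ≤ j) (hj : j ≤ hgt T S u) :
    T.dist (dn T S u i) (dn T S u j) = j - i := by
  obtain ⟨k, rfl⟩ := Nat.exists_eq_add_of_le hij
  induction k with
  | zero => simp
  | succ k ih =>
    have h1 := ih (by omega) (by omega)
    have h2 := offp_dn hT hS (show i + k < hgt T S u by omega)
    have h3 := dist_cross hT h2.1 (dn_mem_side hT hS (show i ≤ i + k by omega) (by omega))
      (dn_not_mem_side hT hS (show i + k < i + k + 1 by omega) (by omega))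
    rw [SimpleGraph.dist_self] at h3
    have e : i + (k + 1) = i + k + 1 := by omega
    rw [e, h3, h1]
    omega

/-- the edges of the walk from `u` to the hull are on the path from `u` to any point of `S` -/
theorem onp_dn (hT : T.IsTree) (hS : S.Nonempty) {i : ℕ} (hi : i < hgt T S u) {s : Fin n}
    (hs : s ∈ S) : onp T u s s(dn T S u i, dn T S u (i + 1)) := by
  have h1 := offp_dn hT hS hi
  refine ⟨h1.1, ?_⟩
  rw [side_eq_of_mem (dn_mem_side hT hS (Nat.zero_le i) hi) (u := dn T S u i) (v := u)]
  exact fun h2 => Finset.disjoint_left.1 h1.2 h2 hs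

theorem hgt_le_dist (hT : T.IsTree) (hS : S.Nonempty) {s : Fin n} (hs : s ∈ S) :
    hgt T S u ≤ T.dist u s := by
  rw [← onp_card hT u s]
  have h1 : ((Finset.range (hgt T S u)).image fun i =>
      s(dn T S u i, dn T S u (i + 1))).card = hgt T S u := by
    rw [Finset.card_image_of_injOn, Finset.card_range]
    intro i hi j hj hij
    rw [Finset.mem_coe, Finset.mem_range] at hi hj
    by_contra h2
    exact dn_edge_ne hT hS hi hj h2 hij
  rw [← h1]
  apply Finset.card_le_card
  intro f hf
  rw [Finset.mem_image] at hf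
  obtain ⟨i, hi, rfl⟩ := hf
  rw [Finset.mem_filter]
  exact ⟨Finset.mem_univ _, onp_dn hT hS (Finset.mem_range.1 hi) hs⟩

theorem hgt_le_diam (hT : T.IsTree) (hS : S.Nonempty) : hgt T S u ≤ T.diam := by
  obtain ⟨s, hs⟩ := hS
  refine (hgt_le_dist hT ⟨s, hs⟩ hs).trans ?_
  have : Nonempty (Fin n) := ⟨u⟩
  exact SimpleGraph.dist_le_diam (SimpleGraph.connected_iff_ediam_ne_top.1 hT.connected)

/-- a vertex of height `0` is on the path between two points of `S`, one of which is fixed -/
theorem exists_of_hgt_zero (hT : T.IsTree) (hz : hgt T S z = 0) {s : Fin n} (hs : s ∈ S) :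
    ∃ t ∈ S, T.dist s z + T.dist z t = T.dist s t := by
  obtain ⟨p, hp, -⟩ := exists_path hT z s
  cases p with
  | nil => exact ⟨z, hs, by simp⟩
  | cons h3 q =>
    rename_i v
    have h1 : ¬ offp T S z v := by
      intro h1
      have := (hgt_pos_iff hT ⟨s, hs⟩).2 ⟨v, h1⟩
      omega
    have h2 : ¬ Disjoint (side T s(z, v) z) S := fun h2 => h1 ⟨h3, h2⟩
    rw [Finset.not_disjoint_iff] at h2
    obtain ⟨t, ht, htS⟩ := h2
    have h4 := (onp_iff_mem_path hT _ hp s(z, v)).2 (by simp)
    refine ⟨t, htS, ?_⟩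
    have h5 := dist_cross hT h3 ht h4.2
    have h6 := dist_adj_cross hT h3 h4.2
    rw [SimpleGraph.dist_comm (u := s) (v := z), SimpleGraph.dist_comm (u := z) (v := t),
      SimpleGraph.dist_comm (u := s) (v := t)]
    omega

/-- the part of the walk between the times `i` and `j` as a path of a graph `G` -/
theorem dn_walk (hT : T.IsTree) (hS : S.Nonempty) {i j : ℕ} (hij : i ≤ j) (hj : j ≤ hgt T S u)
    (G : SimpleGraph (Fin n))
    (hG : ∀ k, i ≤ k → k < j → G.Adj (dn T S u k) (dn T S u (k + 1))) :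
    ∃ p : G.Walk (dn T S u i) (dn T S u j), p.IsPath ∧ p.length = j - i ∧
      p.edges = (List.range' i (j - i)).map (fun k => s(dn T S u k, dn T S u (k + 1))) ∧
      ∀ x, x ∈ p.support ↔ ∃ k, i ≤ k ∧ k ≤ j ∧ x = dn T S u k := by
  obtain ⟨m, rfl⟩ := Nat.exists_eq_add_of_le hij
  induction m generalizing i with
  | zero =>
    refine ⟨SimpleGraph.Walk.nil, by simp, by simp, by simp, ?_⟩
    intro x
    simp only [SimpleGraph.Walk.support_nil, List.mem_singleton, Nat.add_zero]
    constructor
    · rintro rfl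
      exact ⟨i, le_rfl, le_rfl, rfl⟩
    · rintro ⟨k, h1, h2, rfl⟩
      rw [le_antisymm h2 h1]
  | succ m ih =>
    have e : i + (m + 1) = i + 1 + m := by omega
    obtain ⟨p, h1, h2, h3, h4⟩ := ih (i := i + 1) (by omega) (by omega)
      (fun k hk hk' => hG k (by omega) (by omega))
    rw [e]
    refine ⟨SimpleGraph.Walk.cons (hG i le_rfl (by omega)) p, ?_, ?_, ?_, ?_⟩
    · rw [SimpleGraph.Walk.cons_isPath_iff]
      refine ⟨h1, ?_⟩
      rw [h4]
      rintro ⟨k, hk1, hk2, hk3⟩
      have := dn_inj hT hS (by omega) (by omega) hk3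
      omega
    · rw [SimpleGraph.Walk.length_cons, h2]
      omega
    · rw [SimpleGraph.Walk.edges_cons, h3]
      have e2 : i + 1 + m - (i + 1) = m := by omega
      have e3 : i + 1 + m - i = m + 1 := by omega
      rw [e2, e3, List.range'_succ, List.map_cons]
    · intro x
      rw [SimpleGraph.Walk.support_cons, List.mem_cons, h4]
      constructor
      · rintro (rfl | ⟨k, hk1, hk2, rfl⟩)
        · exact ⟨i, le_rfl, by omega, rfl⟩
        · exact ⟨k, by omega, hk2, rfl⟩
      · rintro ⟨k, hk1, hk2, rfl⟩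
        rcases Nat.eq_or_lt_of_le hk1 with h5 | h5
        · left; rw [h5]
        · right; exact ⟨k, h5, hk2, rfl⟩

/-- the hook is at most the height -/
theorem hook_le_hgt (C : Finset (Fin n)) : hook T S C u ≤ hgt T S u := by
  unfold hook
  exact (Finset.card_filter_le _ _).trans (by rw [Finset.card_range])

/-- before the hook, the walk does not meet `C` -/
theorem dn_notMem_of_lt_hook (C : Finset (Fin n)) {i : ℕ} (hi : i < hook T S C u) :
    dn T S u i ∉ C := by
  by_contra h
  unfold hook at hi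
  have h1 : ((Finset.range (hgt T S u)).filter fun i => ∀ i' ≤ i, dn T S u i' ∉ C) ⊆
      Finset.range i := by
    intro k hk
    rw [Finset.mem_filter] at hk
    rw [Finset.mem_range]
    by_contra h2
    exact hk.2 i (by omega) h
  have h2 := Finset.card_le_card h1
  rw [Finset.card_range] at h2
  omega

/-- if the walk does not reach the hull, the vertex at the hook is in `C` -/
theorem dn_hook_mem (C : Finset (Fin n)) (h : hook T S C u < hgt T S u) :
    dn T S u (hook T S C u) ∈ C := by
  by_contra h0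
  have h1 : Finset.range (hook T S C u + 1) ⊆
      (Finset.range (hgt T S u)).filter fun i => ∀ i' ≤ i, dn T S u i' ∉ C := by
    intro k hk
    rw [Finset.mem_range] at hk
    rw [Finset.mem_filter, Finset.mem_range]
    refine ⟨by omega, fun i' hi' => ?_⟩
    rcases Nat.lt_or_ge i' (hook T S C u) with h2 | h2
    · exact dn_notMem_of_lt_hook C h2
    · have : i' = hook T S C u := by omega
      rw [this]
      exact h0
  have h2 := Finset.card_le_card h1
  rw [Finset.card_range] at h2
  have h3 : hook T S C u = ((Finset.range (hgt T S u)).filter fun i =>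
    ∀ i' ≤ i, dn T S u i' ∉ C).card := rfl
  omega

theorem hook_eq_iff (C : Finset (Fin n)) {i : ℕ} (hi : i < hgt T S u) :
    hook T S C u = i ↔ dn T S u i ∈ C ∧ ∀ j < i, dn T S u j ∉ C := by
  constructor
  · rintro rfl
    exact ⟨dn_hook_mem C hi, fun j hj => dn_notMem_of_lt_hook C hj⟩
  · rintro ⟨h1, h2⟩
    rcases Nat.lt_trichotomy (hook T S C u) i with h3 | h3 | h3
    · exact absurd (dn_hook_mem C (h3.trans hi)) (h2 _ h3)
    · exact h3
    · exact absurd h1 (dn_notMem_of_lt_hook C h3)

end RST
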