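import Pool.Agent.Work.MP_5ba30e_pr.TreeB

/-!
# TreeC : the exchange of the edge `{a,b}` (with `a` in a branch) for an edge `{x,y}`,
with `x` in the branch of `a` and `y` outside
-/

open MeasureTheory Set Filter Finset
open scoped ENNReal Topology Classical

set_option linter.unusedVariables false

noncomputable section

namespace RST

variable {n : ℕ} {T : SimpleGraph (Fin n)} {S : Finset (Fin n)} {a b x y u v w z : Fin n}
  {f g : Sym2 (Fin n)}

/-- number of edges with the property `P` on the walk from `u` to the hull of `S` -/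
def cntOff (T : SimpleGraph (Fin n)) (S : Finset (Fin n)) (P : Sym2 (Fin n) → Prop)
    (u : Fin n) : ℕ :=
  (Finset.univ.filter fun cd : Fin n × Fin n =>
    offp T S cd.1 cd.2 ∧ u ∈ side T s(cd.1, cd.2) cd.1 ∧ P s(cd.1, cd.2)).card

theorem cntOff_eq (hT : T.IsTree) (hS : S.Nonempty) (P : Sym2 (Fin n) → Prop) :
    cntOff T S P u =
      ((Finset.range (hgt T S u)).filter fun i => P s(dn T S u i, dn T S u (i + 1))).card := by
  have h1 : (Finset.univ.filter fun cd : Fin n × Fin n =>
      offp T S cd.1 cd.2 ∧ u ∈ side T s(cd.1, cd.2) cd.1 ∧ P s(cd.1, cd.2)) =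
      ((Finset.range (hgt T S u)).filter fun i =>
        P s(dn T S u i, dn T S u (i + 1))).image fun i => (dn T S u i, dn T S u (i + 1)) := by
    ext ⟨c, d⟩
    rw [Finset.mem_filter, Finset.mem_image]
    simp only [Finset.mem_univ, true_and, Finset.mem_filter, Finset.mem_range, Prod.mk.injEq]
    rw [← and_assoc, off_iff_dn hT hS]
    constructor
    · rintro ⟨⟨i, hi, rfl, rfl⟩, h2⟩
      exact ⟨i, ⟨hi, h2⟩, rfl, rfl⟩
    · rintro ⟨i, ⟨hi, h2⟩, rfl, rfl⟩
      exact ⟨⟨i, hi, rfl, rfl⟩, h2⟩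
  rw [cntOff, h1, Finset.card_image_of_injOn]
  intro i hi j hj hij
  rw [Finset.mem_coe, Finset.mem_filter, Finset.mem_range] at hi hj
  simp only [Prod.mk.injEq] at hij
  exact dn_inj hT hS hi.1.le hj.1.le hij.1

theorem reach_two (hT : T.IsTree) (h : (T.deleteEdges {f}).Reachable u v)
    (h' : (T.deleteEdges {g}).Reachable u v) : (T.deleteEdges {f, g}).Reachable u v := by
  obtain ⟨q, hq⟩ := h.exists_isPath
  obtain ⟨q', hq'⟩ := h'.exists_isPath
  have h2 : (q.mapLe (SimpleGraph.deleteEdges_le _)).IsPath :=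
    (SimpleGraph.Walk.isPath_mapLe (SimpleGraph.deleteEdges_le _)).2 hq
  have h2' : (q'.mapLe (SimpleGraph.deleteEdges_le _)).IsPath :=
    (SimpleGraph.Walk.isPath_mapLe (SimpleGraph.deleteEdges_le _)).2 hq'
  have h3 := (hT.existsUnique_path u v).unique h2 h2'
  have h4 : q.edges = q'.edges := by
    rw [← SimpleGraph.Walk.edges_mapLe_eq_edges (SimpleGraph.deleteEdges_le _) (p := q), h3,
      SimpleGraph.Walk.edges_mapLe_eq_edges]
  refine ⟨(q.mapLe (SimpleGraph.deleteEdges_le _)).toDeleteEdges _ ?_⟩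
  intro e he
  rw [SimpleGraph.Walk.edges_mapLe_eq_edges] at he
  rintro (rfl | h5)
  · have h6 := q.edges_subset_edgeSet he
    rw [SimpleGraph.edgeSet_deleteEdges] at h6
    exact h6.2 rfl
  · rw [h4] at he
    have h6 := q'.edges_subset_edgeSet he
    rw [SimpleGraph.edgeSet_deleteEdges] at h6
    exact h6.2 h5

theorem cntOff_edge (hT : T.IsTree) (P : Sym2 (Fin n) → Prop) :
    cntOff T S P u = (Finset.univ.filter fun g : Sym2 (Fin n) =>
      g ∈ T.edgeSet ∧ Disjoint (side T g u) S ∧ P g).card := by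
  unfold cntOff
  apply Finset.card_bij (fun cd _ => s(cd.1, cd.2))
  · rintro ⟨c, d⟩ h
    rw [Finset.mem_filter] at h ⊢
    obtain ⟨-, h1, h2, h3⟩ := h
    refine ⟨Finset.mem_univ _, h1.1, ?_, h3⟩
    rw [side_eq_of_mem h2]
    exact h1.2
  · rintro ⟨c, d⟩ h ⟨c', d'⟩ h' he
    rw [Finset.mem_filter] at h h'
    obtain ⟨-, h1, h2, h3⟩ := h
    obtain ⟨-, h1', h2', h3'⟩ := h'
    simp only [Sym2.eq_iff] at he
    rcases he with ⟨he1, he2⟩ | ⟨he1, he2⟩
    · rw [he1, he2]
    · exfalso
      simp only at h1 h2 h1' h2'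
      rw [he1, he2, Sym2.eq_swap] at h2
      exact (side_part hT h1'.1 u).1 h2 h2'
  · intro g hg
    rw [Finset.mem_filter] at hg
    obtain ⟨-, h1, h2, h3⟩ := hg
    induction g using Sym2.ind with
    | _ c d =>
      by_cases h4 : u ∈ side T s(c, d) c
      · refine ⟨(c, d), ?_, rfl⟩
        rw [Finset.mem_filter]
        refine ⟨Finset.mem_univ _, ⟨h1, ?_⟩, h4, h3⟩
        rw [← side_eq_of_mem h4]
        exact h2
      · have h5 := (side_part hT h1 u).2 h4
        refine ⟨(d, c), ?_, Sym2.eq_swap⟩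
        rw [Finset.mem_filter]
        simp only
        rw [Sym2.eq_swap (a := d) (b := c)]
        refine ⟨Finset.mem_univ _, ⟨SimpleGraph.Adj.symm h1, ?_⟩, h5, h3⟩
        rw [Sym2.eq_swap (a := d) (b := c), ← side_eq_of_mem h5]
        exact h2

theorem del_le_swp {e : Sym2 (Fin n)} : T.deleteEdges {f, g} ≤ (swp T f e).deleteEdges {g} := by
  intro p q h
  rw [SimpleGraph.deleteEdges_adj] at h ⊢
  simp only [Set.mem_insert_iff, Set.mem_singleton_iff, not_or] at h ⊢
  rw [swp_adj]
  exact ⟨Or.inl ⟨h.1, h.2.1⟩, h.2.2⟩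

theorem not_offp_symm (hT : T.IsTree) (hS : S.Nonempty) (h : offp T S a b) :
    ¬ offp T S b a := by
  intro h'
  obtain ⟨s, hs⟩ := hS
  have h1 : s ∉ side T s(a, b) a := fun h2 => Finset.disjoint_left.1 h.2 h2 hs
  have h2 := (side_part hT h.1 s).2 h1
  rw [Sym2.eq_swap] at h2
  exact Finset.disjoint_left.1 h'.2 h2 hs

theorem offp_swp (hT : T.IsTree) (hS : S.Nonempty) (h : offp T S a b)
    (hx : x ∈ side T s(a, b) a) (hy : y ∉ side T s(a, b) a) (hne : s(x, y) ≠ s(a, b)) :
    offp (swp T s(a, b) s(x, y)) S x y := by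
  have hxy : x ≠ y := by
    rintro rfl
    exact hy hx
  refine ⟨?_, ?_⟩
  · rw [swp_adj]
    exact Or.inr ⟨rfl, hxy⟩
  · rw [side_swp h.1 (not_mem_of_cross hT h.1 hx hy hne), side_eq_of_mem hx]
    exact h.2

theorem reach_right (hT : T.IsTree) (h : T.Adj a b) (hu : u ∉ side T s(a, b) a)
    (hv : v ∉ side T s(a, b) a) : (T.deleteEdges {s(a, b)}).Reachable u v := by
  have h1 := (side_part hT h u).2 hu
  have h2 := (side_part hT h v).2 hv
  rw [mem_side] at h1 h2
  exact h1.symm.trans h2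

theorem swp_del_le {e : Sym2 (Fin n)} : (swp T f e).deleteEdges {e, g} ≤ T.deleteEdges {g} := by
  intro r t hrt
  rw [SimpleGraph.deleteEdges_adj] at hrt ⊢
  simp only [Set.mem_insert_iff, Set.mem_singleton_iff, not_or] at hrt ⊢
  rw [swp_adj] at hrt
  rcases hrt.1 with h9 | h9
  · exact ⟨h9.1, hrt.2.2⟩
  · exact absurd h9.1 hrt.2.1

/-- outside of the branch of `a` nothing changes: the edges to the hull -/
theorem offp_swp_right (hT : T.IsTree) (hS : S.Nonempty) (h : offp T S a b)
    (hx : x ∈ side T s(a, b) a) (hy : y ∉ side T s(a, b) a) (hne : s(x, y) ≠ s(a, b))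
    (hu : u ∉ side T s(a, b) a) :
    offp (swp T s(a, b) s(x, y)) S u v ↔ offp T S u v := by
  have hT' := swp_isTree hT h.1 hx hy
  have he : s(x, y) ∉ T.edgeSet := not_mem_of_cross hT h.1 hx hy hne
  have hxy : x ≠ y := by
    rintro rfl
    exact hy hx
  have hSa : ∀ s ∈ S, s ∉ side T s(a, b) a := fun s hs h4 => Finset.disjoint_left.1 h.2 h4 hs
  constructor
  · intro h'
    have hge : s(u, v) ≠ s(x, y) := by
      intro h1
      rw [Sym2.eq_iff] at h1
      rcases h1 with ⟨h1, h2⟩ | ⟨h1, h2⟩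
      · rw [h1] at hu
        exact hu hx
      · have h3 := offp_swp hT hS h hx hy hne
        rw [h1, h2] at h'
        exact not_offp_symm hT' hS h3 h'
    have hadj : T.Adj u v ∧ s(u, v) ≠ s(a, b) := by
      have h1 := h'.1
      rw [swp_adj] at h1
      rcases h1 with h1 | h1
      · exact h1
      · exact absurd h1.1 hge
    refine ⟨hadj.1, ?_⟩
    rw [Finset.disjoint_left]
    intro s hs hsS
    apply Finset.disjoint_left.1 h'.2 _ hsS
    rw [mem_side] at hs ⊢
    exact (reach_two hT (reach_right hT h.1 hu (hSa s hsS)) hs).mono del_le_swp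
  · intro h'
    have hgf : s(u, v) ≠ s(a, b) := by
      intro h1
      rw [Sym2.eq_iff] at h1
      rcases h1 with ⟨h1, h2⟩ | ⟨h1, h2⟩
      · rw [h1] at hu
        exact hu self_mem_side
      · rw [h1, h2] at h'
        exact not_offp_symm hT hS h h'
    refine ⟨?_, ?_⟩
    · rw [swp_adj]
      exact Or.inl ⟨h'.1, hgf⟩
    · rw [Finset.disjoint_left]
      intro s hs hsS
      apply Finset.disjoint_left.1 h'.2 _ hsS
      rw [mem_side] at hs ⊢
      have h1 : ((swp T s(a, b) s(x, y)).deleteEdges {s(x, y)}).Reachable u s := by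
        rw [swp_del h.1 he]
        exact reach_right hT h.1 hu (hSa s hsS)
      exact (reach_two hT' h1 hs).mono swp_del_le

theorem dn_swp_right (hT : T.IsTree) (hS : S.Nonempty) (h : offp T S a b)
    (hx : x ∈ side T s(a, b) a) (hy : y ∉ side T s(a, b) a) (hne : s(x, y) ≠ s(a, b))
    (hu : u ∉ side T s(a, b) a) (i : ℕ) (hi : i ≤ hgt T S u) :
    dn (swp T s(a, b) s(x, y)) S u i = dn T S u i ∧ dn T S u i ∉ side T s(a, b) a := by
  have hT' := swp_isTree hT h.1 hx hy
  induction i with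
  | zero => exact ⟨rfl, hu⟩
  | succ i ih =>
    obtain ⟨h1, h2⟩ := ih (by omega)
    have h3 := offp_dn hT hS (show i < hgt T S u by omega)
    constructor
    · rw [dn_succ, h1]
      exact par_eq hT' hS ((offp_swp_right hT hS h hx hy hne h2).2 h3)
    · intro h4
      obtain ⟨h5, h6⟩ := side_cross hT h.1 h4 h2 h3.1.symm
      rw [h5, h6] at h3
      exact not_offp_symm hT hS h h3

theorem hgt_swp_right (hT : T.IsTree) (hS : S.Nonempty) (h : offp T S a b)
    (hx : x ∈ side T s(a, b) a) (hy : y ∉ side T s(a, b) a) (hne : s(x, y) ≠ s(a, b))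
    (hu : u ∉ side T s(a, b) a) :
    hgt (swp T s(a, b) s(x, y)) S u = hgt T S u := by
  have hT' := swp_isTree hT h.1 hx hy
  have h1 : ∀ i ≤ hgt T S u, hgt (swp T s(a, b) s(x, y)) S u =
      hgt (swp T s(a, b) s(x, y)) S (dn T S u i) + i := by
    intro i
    induction i with
    | zero => exact fun _ => rfl
    | succ i ih =>
      intro hi
      have h2 := (dn_swp_right hT hS h hx hy hne hu i (by omega)).2
      have h3 := offp_dn hT hS (show i < hgt T S u by omega)
      rw [ih (by omega), hgt_offp hT' hS ((offp_swp_right hT hS h hx hy hne h2).2 h3)]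
      omega
  have h2 := h1 _ le_rfl
  have h3 : hgt (swp T s(a, b) s(x, y)) S (dn T S u (hgt T S u)) = 0 := by
    by_contra h4
    obtain ⟨v, hv⟩ := (hgt_pos_iff hT' hS).1 (Nat.pos_of_ne_zero h4)
    rw [offp_swp_right hT hS h hx hy hne (dn_swp_right hT hS h hx hy hne hu _ le_rfl).2] at hv
    have h5 := (hgt_pos_iff hT hS).2 ⟨v, hv⟩
    rw [hgt_dn hT hS le_rfl] at h5
    omega
  omega

/-- the new edge is on the walk from `u` to the hull, for every `u` in the branch -/
theorem new_on_walk (hT : T.IsTree) (hS : S.Nonempty) (h : offp T S a b)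
    (hx : x ∈ side T s(a, b) a) (hy : y ∉ side T s(a, b) a) (hne : s(x, y) ≠ s(a, b))
    (hu : u ∈ side T s(a, b) a) :
    u ∈ side (swp T s(a, b) s(x, y)) s(x, y) x := by
  rw [side_swp h.1 (not_mem_of_cross hT h.1 hx hy hne), side_eq_of_mem hx]
  exact hu

theorem hgt_swp_left (hT : T.IsTree) (hS : S.Nonempty) (h : offp T S a b)
    (hx : x ∈ side T s(a, b) a) (hy : y ∉ side T s(a, b) a) (hne : s(x, y) ≠ s(a, b))
    (hu : u ∈ side T s(a, b) a) :
    hgt (swp T s(a, b) s(x, y)) S u = T.dist u x + 1 + hgt T S y := by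
  have hT' := swp_isTree hT h.1 hx hy
  have h1 := offp_swp hT hS h hx hy hne
  obtain ⟨i, hi, h2, h3⟩ := (off_iff_dn hT' hS).1 ⟨h1, new_on_walk hT hS h hx hy hne hu⟩
  have h4 := dist_dn hT' hS (u := u) (Nat.zero_le i) hi.le
  have h5 := hgt_dn hT' hS hi.le
  rw [← h2] at h4 h5
  rw [dn_zero, dist_swp_same hT h.1 hx hy hne (by simp [hu, hx])] at h4
  rw [hgt_offp hT' hS h1, hgt_swp_right hT hS h hx hy hne hy] at h5
  omega

theorem cntOff_swp_right (hT : T.IsTree) (hS : S.Nonempty) (h : offp T S a b)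
    (hx : x ∈ side T s(a, b) a) (hy : y ∉ side T s(a, b) a) (hne : s(x, y) ≠ s(a, b))
    (hu : u ∉ side T s(a, b) a) (P P' : Sym2 (Fin n) → Prop)
    (hP : ∀ g, g ≠ s(a, b) → g ≠ s(x, y) → (P' g ↔ P g)) :
    cntOff (swp T s(a, b) s(x, y)) S P' u = cntOff T S P u := by
  rw [cntOff_eq hT hS, cntOff_eq (swp_isTree hT h.1 hx hy) hS, hgt_swp_right hT hS h hx hy hne hu]
  congr 1
  apply Finset.filter_congr
  intro i hi
  rw [Finset.mem_range] at hi
  obtain ⟨h1, h2⟩ := dn_swp_right hT hS h hx hy hne hu i hi.le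
  obtain ⟨h3, h4⟩ := dn_swp_right hT hS h hx hy hne hu (i + 1) hi
  rw [h1, h3]
  apply hP
  · intro h5
    rw [Sym2.eq_iff] at h5
    rcases h5 with ⟨h5, -⟩ | ⟨-, h5⟩
    · apply h2
      rw [h5]
      exact self_mem_side
    · apply h4
      rw [h5]
      exact self_mem_side
  · intro h5
    rw [Sym2.eq_iff] at h5
    rcases h5 with ⟨h5, -⟩ | ⟨-, h5⟩
    · apply h2
      rw [h5]
      exact hx
    · apply h4
      rw [h5]
      exact hx

/-- number of marked edges on the new walk of `a` -/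
theorem cntOff_swp_left (hT : T.IsTree) (hS : S.Nonempty) (h : offp T S a b)
    (hx : x ∈ side T s(a, b) a) (hy : y ∉ side T s(a, b) a) (hne : s(x, y) ≠ s(a, b))
    (P P' : Sym2 (Fin n) → Prop) (hP : ∀ g, g ≠ s(a, b) → g ≠ s(x, y) → (P' g → P g)) :
    cntOff (swp T s(a, b) s(x, y)) S P' a ≤ cntOff T S P x + 1 + cntOff T S P y := by
  have hT' := swp_isTree hT h.1 hx hy
  have hxy : x ≠ y := by
    rintro rfl
    exact hy hx
  have hdi : ¬ (s(x, y) : Sym2 (Fin n)).IsDiag := by
    rw [Sym2.mk_isDiag_iff]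
    exact hxy
  have he : s(x, y) ∉ T.edgeSet := not_mem_of_cross hT h.1 hx hy hne
  rw [cntOff_edge hT', cntOff_edge hT, cntOff_edge hT]
  set A := Finset.univ.filter fun g : Sym2 (Fin n) =>
      g ∈ T.edgeSet ∧ Disjoint (side T g x) S ∧ P g with hA
  set B := Finset.univ.filter fun g : Sym2 (Fin n) =>
      g ∈ T.edgeSet ∧ Disjoint (side T g y) S ∧ P g with hB
  have key : (Finset.univ.filter fun g : Sym2 (Fin n) =>
      g ∈ (swp T s(a, b) s(x, y)).edgeSet ∧
        Disjoint (side (swp T s(a, b) s(x, y)) g a) S ∧ P' g) ⊆ (A ∪ {s(x, y)}) ∪ B := by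
    intro g hg
    rw [Finset.mem_filter, mem_swp h.1 he hdi] at hg
    obtain ⟨-, h1, h2, h3⟩ := hg
    rw [Finset.mem_union, Finset.mem_union, Finset.mem_singleton]
    rcases h1 with h1 | ⟨h1, hgf⟩
    · exact Or.inl (Or.inr h1)
    · by_cases hge : g = s(x, y)
      · exact Or.inl (Or.inr hge)
      have hPg := hP g hgf hge h3
      by_cases hxa : x ∈ side (swp T s(a, b) s(x, y)) g a
      · right
        rw [hB, Finset.mem_filter]
        refine ⟨Finset.mem_univ _, h1, ?_, hPg⟩
        rw [Finset.disjoint_left] at h2 ⊢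
        intro s hs hsS
        apply h2 _ hsS
        rw [mem_side] at hs hxa ⊢
        have hs' : s ∉ side T s(a, b) a := fun h4 => Finset.disjoint_left.1 h.2 h4 hsS
        have h5 := (side_part hT h.1 s).2 hs'
        have h6 := (side_part hT h.1 y).2 hy
        rw [mem_side] at h5 h6
        have h7 := (reach_two hT (h6.symm.trans h5) hs).mono (del_le_swp (e := s(x, y)))
        refine (hxa.trans (SimpleGraph.Adj.reachable ?_)).trans h7
        rw [SimpleGraph.deleteEdges_adj, swp_adj]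
        exact ⟨Or.inr ⟨rfl, hxy⟩, fun h8 => hge h8.symm⟩
      · left; left
        rw [hA, Finset.mem_filter]
        refine ⟨Finset.mem_univ _, h1, ?_, hPg⟩
        rw [Finset.disjoint_left]
        intro s hs hsS
        have hs' : s ∉ side T s(a, b) a := fun h4 => Finset.disjoint_left.1 h.2 h4 hsS
        rw [mem_side] at hs
        -- the path from `x` to `s` passes through `a`
        obtain ⟨q, hq⟩ := hs.exists_isPath
        have h4 : s(a, b) ∈ (q.mapLe (SimpleGraph.deleteEdges_le {g})).edges :=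
          (q.mapLe (SimpleGraph.deleteEdges_le {g})).mem_edges_of_not_reachable_deleteEdges
            (not_reach_cross hx hs')
        rw [SimpleGraph.Walk.edges_mapLe_eq_edges] at h4
        have h5 : (T.deleteEdges {g}).Reachable x a :=
          (q.takeUntil a (q.fst_mem_support_of_mem_edges h4)).reachable
        have h6 := (reach_two hT (mem_side.1 hx).symm h5).mono (del_le_swp (e := s(x, y)))
        exact hxa (mem_side.2 h6.symm)
  refine (Finset.card_le_card key).trans ?_
  refine (Finset.card_union_le _ _).trans ?_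
  have h1 := Finset.card_union_le A {s(x, y)}
  rw [Finset.card_singleton] at h1
  omega

end RST
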