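import Pool.Agent.Work.MP_5ba30e_pr.TreeC

/-!
# TreeD : relocation, the exchange of the edge `{p,q}` (with `p` in a branch, `q` towards the
hull) for an edge `{p,q'}`
-/

open MeasureTheory Set Filter Finset
open scoped ENNReal Topology Classical

noncomputable section

namespace RST

variable {n : ℕ} {T : SimpleGraph (Fin n)} {S : Finset (Fin n)} {p q q' z : Fin n}

/-- the walk of `z` is not changed until `p`, and then it goes to `q'` -/
theorem dn_reloc (hT : T.IsTree) (hS : S.Nonempty) {i : ℕ} (hi : i < hgt T S z)
    (hp : dn T S z i = p) (hq : dn T S z (i + 1) = q) (hq' : q' ∉ side T s(p, q) p)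
    (hne : q' ≠ q) :
    (∀ j ≤ i, dn (swp T s(p, q) s(p, q')) S z j = dn T S z j) ∧
      dn (swp T s(p, q) s(p, q')) S z (i + 1) = q' ∧
      i < hgt (swp T s(p, q) s(p, q')) S z := by
  have hoff : offp T S p q := by
    have := offp_dn hT hS hi
    rwa [hp, hq] at this
  have hx : p ∈ side T s(p, q) p := self_mem_side
  have hne' : s(p, q') ≠ s(p, q) := by
    intro h
    rw [Sym2.eq_iff] at h
    rcases h with h | h
    · exact hne h.2
    · exact hoff.1.ne h.1
  have hT' := swp_isTree hT hoff.1 hx hq'
  have he : s(p, q') ∉ T.edgeSet := not_mem_of_cross hT hoff.1 hx hq' hne'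
  have hstep : ∀ j < i, offp (swp T s(p, q) s(p, q')) S (dn T S z j) (dn T S z (j + 1)) := by
    intro j hj
    have h1 := offp_dn hT hS (hj.trans hi)
    have h2 : dn T S z j ∈ side T s(p, q) p := by
      have := dn_mem_side hT hS hj.le hi
      rwa [hp, hq] at this
    have h3 : p ∉ side T s(dn T S z j, dn T S z (j + 1)) (dn T S z j) := by
      have := dn_not_mem_side hT hS hj hi.le
      rwa [hp] at this
    have h4 : dn T S z j ≠ p := by
      rintro h4
      rw [← hp] at h4
      have := dn_inj hT hS (hj.trans hi).le hi.le h4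
      omega
    have h5 : dn T S z j ≠ q := by
      rintro h5
      rw [← hq] at h5
      have := dn_inj hT hS (hj.trans hi).le hi h5
      omega
    set c := dn T S z j
    set d := dn T S z (j + 1)
    have hcd : s(c, d) ≠ s(p, q) := by
      intro h
      rw [Sym2.eq_iff] at h
      rcases h with h | h
      · exact h4 h.1
      · exact h5 h.1
    refine ⟨?_, ?_⟩
    · rw [swp_adj]
      exact Or.inl ⟨h1.1, hcd⟩
    · rw [Finset.disjoint_left]
      intro s hs hsS
      rw [mem_side] at hs
      -- the path from `c` to `s` in `T'` passes through `p`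
      have hs' : s ∉ side T s(p, q) p := fun h6 => Finset.disjoint_left.1 hoff.2 h6 hsS
      rw [← side_swp hoff.1 he] at hs' h2
      obtain ⟨w, hw⟩ := hs.exists_isPath
      have h6 : s(p, q') ∈
          (w.mapLe (SimpleGraph.deleteEdges_le {s(c, d)})).edges :=
        (w.mapLe (SimpleGraph.deleteEdges_le {s(c, d)})).mem_edges_of_not_reachable_deleteEdges
          (not_reach_cross h2 hs')
      rw [SimpleGraph.Walk.edges_mapLe_eq_edges] at h6
      have h7 : ((swp T s(p, q) s(p, q')).deleteEdges {s(c, d)}).Reachable c p :=
        (w.takeUntil p (w.fst_mem_support_of_mem_edges h6)).reachable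
      have h8 := reach_two hT' (mem_side.1 h2).symm h7
      apply h3
      rw [mem_side]
      refine h8.mono ?_
      intro r t hrt
      rw [SimpleGraph.deleteEdges_adj] at hrt ⊢
      simp only [Set.mem_insert_iff, Set.mem_singleton_iff, not_or] at hrt ⊢
      rw [swp_adj] at hrt
      rcases hrt.1 with h9 | h9
      · exact ⟨h9.1, hrt.2.2⟩
      · exact absurd h9.1 hrt.2.1
  have hdn : ∀ j ≤ i, dn (swp T s(p, q) s(p, q')) S z j = dn T S z j := by
    intro j
    induction j with
    | zero => exact fun _ => rfl
    | succ j ih =>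
      intro hj
      rw [dn_succ, ih (by omega)]
      exact par_eq hT' hS (hstep j (by omega))
  have hlast : offp (swp T s(p, q) s(p, q')) S p q' := offp_swp hT hS hoff hx hq' hne'
  have hdni := hdn i le_rfl
  rw [hp] at hdni
  refine ⟨hdn, ?_, ?_⟩
  · rw [dn_succ, hdni]
    exact par_eq hT' hS hlast
  · have hh : ∀ j ≤ i, hgt (swp T s(p, q) s(p, q')) S z =
        hgt (swp T s(p, q) s(p, q')) S (dn T S z j) + j := by
      intro j
      induction j with
      | zero => exact fun _ => rfl
      | succ j ih =>
        intro hj
        rw [ih (by omega), hgt_offp hT' hS (hstep j (by omega))]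
        omega
    have h1 := hh i le_rfl
    have h2 := hgt_offp hT' hS hlast
    rw [hp] at h1
    omega

end RST
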